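import Pool.Agent.Lib.MP_9177b7_ag.SO.Fr0

/-!
Conjugate ideals, the norm of the lattice, twists.
-/

open NumberField Matrix
open scoped nonZeroDivisors

noncomputable section

namespace Pool.Agent.Lib.MP_9177b7_ag.SO.Fr0

open B (Cyc)

variable {E : Type} [Field E] [NumberField E] [IsCMField E]

/-- Fractional ideals. -/
abbrev FI (E : Type) [Field E] : Type := FractionalIdeal (𝓞 E)⁰ E

/-- The conjugate of an ideal. -/
abbrev cI (b : Ideal (𝓞 E)) : Ideal (𝓞 E) := b.map (IsCMField.ringOfIntegersComplexConj E)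

/-- Conjugation of fractional ideals. -/
def cF : FI E ≃+* FI E :=
  FractionalIdeal.ringEquivOfRingEquiv E E (IsCMField.ringOfIntegersComplexConj E).toRingEquiv

theorem equiv_eq (x : E) : IsFractionRing.ringEquivOfRingEquiv (K := E) (L := E)
    (IsCMField.ringOfIntegersComplexConj E).toRingEquiv x = bar x := by
  obtain ⟨a, b, hb, rfl⟩ := IsFractionRing.div_surjective (A := 𝓞 E) x
  rw [map_div₀, IsFractionRing.ringEquivOfRingEquiv_algebraMap,
    IsFractionRing.ringEquivOfRingEquiv_algebraMap]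
  exact (map_div₀ (IsCMField.complexConj E) _ _).symm

theorem mem_cF (a : FI E) (x : E) : x ∈ cF a ↔ bar x ∈ a := by
  have h : x ∈ cF a ↔ ∃ y ∈ a, IsFractionRing.ringEquivOfRingEquiv (K := E) (L := E)
      (IsCMField.ringOfIntegersComplexConj E).toRingEquiv y = x := Iff.rfl
  rw [h]
  constructor
  · rintro ⟨y, hy, rfl⟩
    rwa [equiv_eq, bar_bar]
  · intro hx
    exact ⟨_, hx, by rw [equiv_eq, bar_bar]⟩

theorem bar_mem {a : FI E} {x : E} (h : x ∈ a) : bar x ∈ cF a := by rwa [mem_cF, bar_bar]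

theorem cF_coe (b : Ideal (𝓞 E)) : cF (b : FI E) = (cI b : Ideal (𝓞 E)) := by
  ext x
  rw [mem_cF, FractionalIdeal.mem_coeIdeal, FractionalIdeal.mem_coeIdeal]
  constructor
  · rintro ⟨y, hy, h⟩
    refine ⟨_, Ideal.mem_map_of_mem _ hy, ?_⟩
    change bar (algebraMap _ E y) = x
    rw [h, bar_bar]
  · rintro ⟨y, hy, rfl⟩
    obtain ⟨z, hz, rfl⟩ := (Ideal.mem_map_iff_of_surjective _
      (IsCMField.ringOfIntegersComplexConj E).surjective).1 hy
    exact ⟨z, hz, (bar_bar _).symm⟩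

theorem cF_span (x : E) :
    cF (FractionalIdeal.spanSingleton _ x : FI E) = FractionalIdeal.spanSingleton _ (bar x) := by
  rw [← equiv_eq]
  exact FractionalIdeal.ringEquivOfRingEquiv_spanSingleton _ _ _ x

theorem cF_cF (a : FI E) : cF (cF a) = a := by
  ext x
  rw [mem_cF, mem_cF, bar_bar]

theorem cF_ne {a : FI E} (h : a ≠ 0) : cF a ≠ 0 := (map_ne_zero cF).2 h

theorem cI_Df : cI (Df E) = Df E := S4.Quad.Df_map h2 (IsCMField.complexConj_ne_one E)

theorem cF_Df : cF (Df E : FI E) = Df E := by rw [cF_coe, cI_Df]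

theorem Df_ne : (Df E : FI E) ≠ 0 :=
  FractionalIdeal.coeIdeal_ne_zero.2 (S4.Quad.Df_ne (IsCMField.complexConj_ne_one E))

theorem sub_bar_mem (w : 𝓞 E) : (w : E) - bar (w : E) ∈ (Df E : FI E) :=
  (FractionalIdeal.mem_coeIdeal _).2 ⟨_, S4.Quad.sub_mem_Df w, rfl⟩

omit [IsCMField E] in
theorem mem_mul_inv {a b : FI E} (b0 : b ≠ 0) {y : E} : y ∈ a * b⁻¹ ↔ ∀ z ∈ b, y * z ∈ a := by
  rw [← div_eq_mul_inv, FractionalIdeal.mem_div_iff_of_ne_zero b0]

/-- The inverse different. -/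
abbrev Ad (E : Type) [Field E] [NumberField E] : FI E := FractionalIdeal.dual ℤ ℚ (1 : FI E)

omit [IsCMField E] in
theorem mem_Ad (x : E) : x ∈ Ad E ↔ ∀ y : 𝓞 E, ∃ k : ℤ, Algebra.trace ℚ E (x * y) = k := by
  rw [FractionalIdeal.mem_dual (one_ne_zero' (FI E))]
  constructor
  · intro h y
    obtain ⟨z, hz⟩ := h y ((FractionalIdeal.mem_one_iff _).2 ⟨y, rfl⟩)
    exact ⟨z, hz.symm⟩
  · intro h y hy
    obtain ⟨z, rfl⟩ := (FractionalIdeal.mem_one_iff _).1 hy
    obtain ⟨k, hk⟩ := h z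
    exact ⟨k, hk.symm⟩

/-- The dual of an ideal for the trace form. -/
theorem mem_dual {lam : E} {a : FI E} (l0 : lam ≠ 0) (a0 : a ≠ 0) (y : E) :
    y ∈ Ad E * (FractionalIdeal.spanSingleton _ lam * cF a)⁻¹ ↔
      ∀ z ∈ a, ∃ k : ℤ, tf lam y z = k := by
  rw [mem_mul_inv (mul_ne_zero (FractionalIdeal.spanSingleton_ne_zero_iff.2 l0) (cF_ne a0))]
  constructor
  · intro h z hz
    have := (mem_Ad _).1 (h _ (FractionalIdeal.mem_singleton_mul.2 ⟨_, bar_mem hz, rfl⟩)) 1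
    rwa [show y * (lam * bar z) * (1 : 𝓞 E) = lam * y * bar z by simp [mul_left_comm, mul_assoc]]
      at this
  · intro h z hz
    obtain ⟨z, hz', rfl⟩ := FractionalIdeal.mem_singleton_mul.1 hz
    refine (mem_Ad _).2 fun w => ?_
    have := h _ (smul_mem (IsCMField.ringOfIntegersComplexConj E w) ((mem_cF _ _).1 hz'))
    rwa [tf_apply, IsCMField.coe_ringOfIntegersComplexConj, bar,
      map_mul (IsCMField.complexConj E), IsCMField.complexConj_apply_apply, bar,
      IsCMField.complexConj_apply_apply, show lam * y * (w * z) = y * (lam * z) * w by ring] at this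

variable {N : ℕ} {A : Matrix (Fin N) (Fin N) ℤ} {lam g g' g'' : E} {a : FI E}
  {x : Fin N → E} {t : Fin N → ℤ} {b c : Ideal (𝓞 E)}

/-- The dual of `a` is `Df⁻¹ a`. -/
theorem dual_eq (H : Hyp A lam) (a0 : a ≠ 0) (h : Frame A lam a g x t) :
    Ad E * (FractionalIdeal.spanSingleton _ lam * cF a)⁻¹ = a * (Df E : FI E)⁻¹ := by
  set a' := Ad E * (FractionalIdeal.spanSingleton _ lam * cF a)⁻¹
  have m : ∀ y, y ∈ a' ↔ ∃ s : ℤ, y - s * g ∈ a := fun y =>
    (mem_dual H.ne a0 y).trans (dual_a H a0 h y)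
  have l1 : a ≤ a' := fun y hy => (m y).2 ⟨0, a_mem hy⟩
  have n0 : a' ≠ 0 := fun e => a0 (le_antisymm (e ▸ l1) (FractionalIdeal.zero_le _))
  have e1 : a * a'⁻¹ = Df E := by
    ext u
    rw [mem_mul_inv n0]
    constructor
    · intro hu
      have : u ∈ a' * a'⁻¹ := (mem_mul_inv n0).2 fun z hz => l1 (hu z hz)
      rw [mul_inv_cancel₀ n0] at this
      obtain ⟨w, rfl⟩ := (FractionalIdeal.mem_one_iff _).1 this
      exact (FractionalIdeal.mem_coeIdeal _).2
        ⟨w, (ann H a0 h w).1 (hu g ((m g).2 ⟨1, g_mem⟩)), rfl⟩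
    · intro hu z hz
      obtain ⟨w, hw, rfl⟩ := (FractionalIdeal.mem_coeIdeal _).1 hu
      obtain ⟨s, hs⟩ := (m z).1 hz
      have := add_mem' (smul_mem w hs) (int_mem s ((ann H a0 h w).2 hw))
      rwa [show (w : E) * (z - s * g) + s * (w * g) = w * z by ring] at this
  rw [← e1, _root_.mul_inv_rev, inv_inv, mul_left_comm, mul_inv_cancel₀ a0, mul_one]

theorem mem_dual_iff (H : Hyp A lam) (a0 : a ≠ 0) (h : Frame A lam a g x t) (y : E) :
    y ∈ a * (Df E : FI E)⁻¹ ↔ ∃ s : ℤ, y - s * g ∈ a := by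
  rw [← dual_eq H a0 h, mem_dual H.ne a0, dual_a H a0 h]

/-- The norm of the hermitian lattice. -/
theorem norm_eq (H : Hyp A lam) (a0 : a ≠ 0) (h : Frame A lam a g x t) :
    FractionalIdeal.spanSingleton _ lam * a * cF a = (Df E : FI E) * Ad E := by
  have e := dual_eq H a0 h
  have n0 : (FractionalIdeal.spanSingleton _ lam * cF a : FI E) ≠ 0 :=
    mul_ne_zero (FractionalIdeal.spanSingleton_ne_zero_iff.2 H.ne) (cF_ne a0)
  rw [← div_eq_mul_inv, ← div_eq_mul_inv, div_eq_div_iff n0 Df_ne] at e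
  rw [mul_comm _ (Ad E), e]
  ring

/-- The twisted ideal. -/
abbrev tw (a : FI E) (b : Ideal (𝓞 E)) : FI E := b * ((cI b : Ideal (𝓞 E)) : FI E)⁻¹ * a

/-- The twisted glue vector. -/
def Tw (a : FI E) (b : Ideal (𝓞 E)) (g g' : E) : Prop :=
  ∀ β ∈ b, bar (β : E) * g' - β * g ∈ (b : FI E) * a

theorem cI_ne (b0 : b ≠ ⊥) : ((cI b : Ideal (𝓞 E)) : FI E) ≠ 0 := by
  rw [← cF_coe]
  exact cF_ne (FractionalIdeal.coeIdeal_ne_zero.2 b0)

theorem tw_ne (a0 : a ≠ 0) (b0 : b ≠ ⊥) : tw a b ≠ 0 :=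
  mul_ne_zero (mul_ne_zero (FractionalIdeal.coeIdeal_ne_zero.2 b0) (inv_ne_zero (cI_ne b0))) a0

theorem mem_tw (b0 : b ≠ ⊥) {y : E} : y ∈ tw a b ↔ ∀ β ∈ b, bar (β : E) * y ∈ (b : FI E) * a := by
  rw [tw, mul_right_comm, mem_mul_inv (cI_ne b0), ← cF_coe]
  constructor
  · intro h β hβ
    rw [mul_comm _ y]
    exact h _ (bar_mem ((FractionalIdeal.mem_coeIdeal _).2 ⟨β, hβ, rfl⟩))
  · intro h z hz
    obtain ⟨β, hβ, e⟩ := (FractionalIdeal.mem_coeIdeal _).1 ((mem_cF _ _).1 hz)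
    have := h β hβ
    rwa [show (β : E) = bar z from e, bar_bar, mul_comm z] at this

theorem tw_norm (b0 : b ≠ ⊥) : tw a b * cF (tw a b) = a * cF a := by
  have h1 := cI_ne b0
  have h2 : (b : FI E) ≠ 0 := FractionalIdeal.coeIdeal_ne_zero.2 b0
  rw [tw, map_mul, map_mul, map_inv₀, ← cF_coe, cF_cF]
  rw [← cF_coe] at h1
  field_simp

theorem tw_tw : tw (tw a b) c = tw a (b * c) := by
  simp only [tw, cI, Ideal.map_mul, FractionalIdeal.coeIdeal_mul, mul_inv]
  ring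

/-- Uniqueness of the twist. -/
theorem Tw.iff (b0 : b ≠ ⊥) (h : Tw a b g g') : Tw a b g g'' ↔ g' - g'' ∈ tw a b := by
  rw [mem_tw b0]
  refine forall₂_congr fun β hβ => ⟨fun k => ?_, fun k => ?_⟩
  · have := sub_mem' (h β hβ) k
    rwa [sub_sub_sub_cancel_right, ← mul_sub] at this
  · have := sub_mem' (h β hβ) k
    rwa [show bar (β : E) * g' - β * g - bar (β : E) * (g' - g'') = bar (β : E) * g'' - β * g by
      ring] at this

theorem Tw.congr {g₁ : E} (h : Tw a b g g') (e : g - g₁ ∈ a) : Tw a b g₁ g' := fun β hβ => by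
  have := add_mem' (h β hβ)
    (FractionalIdeal.mul_mem_mul ((FractionalIdeal.mem_coeIdeal _).2 ⟨β, hβ, rfl⟩) e)
  rwa [show bar (β : E) * g' - β * g + algebraMap _ E β * (g - g₁) = bar (β : E) * g' - β * g₁ by
    change _ + (β : E) * _ = _; ring] at this

/-- Twists are multiplicative. -/
theorem Tw.mul (b0 : b ≠ ⊥) (h : Tw a b g g') (h' : Tw (tw a b) c g' g'') : Tw a (b * c) g g'' := by
  intro β hβ
  refine Submodule.mul_induction_on hβ (fun β hβ γ hγ => ?_) fun β γ k k' => ?_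
  · have m1 := FractionalIdeal.mul_mem_mul
      (bar_mem ((FractionalIdeal.mem_coeIdeal _).2 ⟨β, hβ, rfl⟩ : (β : E) ∈ (b : FI E))) (h' γ hγ)
    have m2 := FractionalIdeal.mul_mem_mul
      ((FractionalIdeal.mem_coeIdeal _).2 ⟨γ, hγ, rfl⟩ : (γ : E) ∈ (c : FI E)) (h β hβ)
    have h1 := cI_ne b0
    rw [cF_coe, show ((cI b : Ideal (𝓞 E)) : FI E) * (c * tw a b) = c * (b * a) by
      rw [tw]; field_simp] at m1
    have := add_mem' m1 m2
    rw [FractionalIdeal.coeIdeal_mul, mul_comm (b : FI E), mul_assoc (c : FI E)]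
    convert this using 1
    push_cast
    rw [bar, map_mul]
    ring
  · have := add_mem' k k'
    convert this using 1
    push_cast
    rw [bar, map_add]
    ring

/-- Existence of the twist. -/
theorem exists_tw (hg : g ∈ a * (Df E : FI E)⁻¹) (b0 : b ≠ ⊥) : ∃ ρ : E, Tw a b g (ρ * g) ∧
    ρ ∈ tw 1 b ∧ ρ * bar ρ - 1 ∈ (Df E : FI E) := by
  have h2 : (b : FI E) ≠ 0 := FractionalIdeal.coeIdeal_ne_zero.2 b0
  have key : ∀ u ∈ (b : FI E) * (b : FI E)⁻¹, ∃ ρ ∈ tw 1 b,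
      ∀ β ∈ (b : FI E), bar β * ρ - β * u ∈ (b : FI E) * Df E := by
    intro u hu
    refine FractionalIdeal.mul_induction_on hu (fun β hβ d hd => ?_) ?_
    · refine ⟨β * bar d, ?_, fun γ hγ => ?_⟩
      · rw [tw, mul_one, ← cF_coe, ← map_inv₀]
        exact FractionalIdeal.mul_mem_mul hβ (bar_mem hd)
      · have m := FractionalIdeal.mul_mem_mul hγ hd
        rw [mul_inv_cancel₀ h2] at m
        obtain ⟨w, hw⟩ := (FractionalIdeal.mem_one_iff _).1 m
        have := FractionalIdeal.mul_mem_mul hβ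
          (sub_bar_mem (IsCMField.ringOfIntegersComplexConj E w))
        rw [IsCMField.coe_ringOfIntegersComplexConj, bar, IsCMField.complexConj_apply_apply,
          show (w : E) = γ * d from hw, map_mul] at this
        convert this using 1
        ring
    · rintro u v ⟨ρ, h1, k1⟩ ⟨ρ', h1', k1'⟩
      refine ⟨ρ + ρ', add_mem' h1 h1', fun β hβ => ?_⟩
      convert add_mem' (k1 β hβ) (k1' β hβ) using 1
      ring
  obtain ⟨ρ, h1, k1⟩ := key 1 (by rw [mul_inv_cancel₀ h2]; exact FractionalIdeal.one_mem_one _)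
  refine ⟨ρ, fun β hβ => ?_, h1, ?_⟩
  · have := FractionalIdeal.mul_mem_mul (k1 β ((FractionalIdeal.mem_coeIdeal _).2 ⟨β, hβ, rfl⟩)) hg
    have h3 := Df_ne (E := E)
    rw [show (b : FI E) * Df E * (a * (Df E : FI E)⁻¹) = b * a by field_simp] at this
    convert this using 1
    ring
  · have h3 := cI_ne b0
    have : ρ * bar ρ - 1 ∈ (b : FI E) * Df E * (b : FI E)⁻¹ := by
      refine (mem_mul_inv h2).2 fun β hβ => ?_
      have m1 := FractionalIdeal.mul_mem_mul h1 (bar_mem (k1 β hβ))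
      rw [map_mul, cF_Df, cF_coe, show tw 1 b * ((cI b : Ideal (𝓞 E)) * (Df E : FI E)) = b * Df E by
        rw [tw]; field_simp] at m1
      convert add_mem' m1 (k1 β hβ) using 1
      simp only [bar, map_sub, map_mul, IsCMField.complexConj_apply_apply, map_one]
      ring
    rwa [mul_right_comm, mul_inv_cancel₀ h2, one_mul] at this

theorem tw_one (a : FI E) : tw a b = tw 1 b * a := by rw [tw, tw, mul_one]

theorem Tw.dual (hg : g ∈ a * (Df E : FI E)⁻¹) (b0 : b ≠ ⊥) (h : Tw a b g g') :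
    g' ∈ tw a b * (Df E : FI E)⁻¹ := by
  obtain ⟨ρ, h1, h2, -⟩ := exists_tw hg b0
  have m1 := FractionalIdeal.mul_mem_mul h2 hg
  rw [← mul_assoc, ← tw_one] at m1
  have m2 : g' - ρ * g ∈ tw a b * (Df E : FI E)⁻¹ := (mem_mul_inv Df_ne).2 fun z hz => by
    obtain ⟨w, -, rfl⟩ := (FractionalIdeal.mem_coeIdeal _).1 hz
    rw [mul_comm]
    exact smul_mem w ((h.iff b0).1 h1)
  simpa using add_mem' m1 m2

theorem bar_sub_mul (hg : g ∈ a * (Df E : FI E)⁻¹) (w : 𝓞 E) : (bar (w : E) - w) * g ∈ a := by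
  have := int_mem (-1) ((mem_mul_inv Df_ne).1 hg _ (sub_bar_mem w))
  convert this using 1
  push_cast
  ring

/-- Twists by principal ideals. -/
theorem tw_span (hg : g ∈ a * (Df E : FI E)⁻¹) {z : 𝓞 E} (z0 : z ≠ 0) :
    Tw a (Ideal.span {z}) g (z / bar (z : E) * g) ∧
      tw a (Ideal.span {z}) = FractionalIdeal.spanSingleton _ (z / bar (z : E)) * a := by
  have z1 : bar (z : E) ≠ 0 := (map_ne_zero _).2 (RingOfIntegers.coe_ne_zero_iff.2 z0)
  constructor
  · intro β hβ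
    obtain ⟨w, rfl⟩ := Ideal.mem_span_singleton'.1 hβ
    have := FractionalIdeal.mul_mem_mul ((FractionalIdeal.mem_coeIdeal _).2
      ⟨z, Ideal.mem_span_singleton_self z, rfl⟩ : (z : E) ∈ (Ideal.span {z} : FI E))
      (bar_sub_mul hg w)
    convert this using 1
    push_cast
    rw [bar, map_mul]
    field_simp
  · rw [tw, ← cF_coe, FractionalIdeal.coeIdeal_span_singleton, cF_span,
      FractionalIdeal.spanSingleton_inv, FractionalIdeal.spanSingleton_mul_spanSingleton,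
      div_eq_mul_inv]

theorem tw_inv (b0 : b ≠ ⊥) (hb : cI b = b) : tw a b = a := by
  rw [tw, hb, mul_inv_cancel₀ (FractionalIdeal.coeIdeal_ne_zero.2 b0), one_mul]

/-- Twists by ideals of the real subfield. -/
theorem tw_real (hg : g ∈ a * (Df E : FI E)⁻¹) (f : Ideal (𝓞 (maximalRealSubfield E))) :
    Tw a (f.map (algebraMap _ (𝓞 E))) g g := by
  intro β hβ
  set b := f.map (algebraMap _ (𝓞 E))
  suffices k : ∀ w : 𝓞 E, bar ((w * β : 𝓞 E) : E) * g - (w * β : 𝓞 E) * g ∈ (b : FI E) * a by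
    simpa using k 1
  induction hβ using Submodule.span_induction with
  | mem y hy =>
    intro w
    obtain ⟨u, hu, rfl⟩ := hy
    have := FractionalIdeal.mul_mem_mul ((FractionalIdeal.mem_coeIdeal _).2
      ⟨_, Ideal.mem_map_of_mem _ hu, rfl⟩ : ((algebraMap _ (𝓞 E) u : 𝓞 E) : E) ∈ (b : FI E))
      (bar_sub_mul hg w)
    have e : bar ((algebraMap _ (𝓞 E) u : 𝓞 E) : E) = (algebraMap _ (𝓞 E) u : 𝓞 E) :=
      IsCMField.complexConj_apply_eq_self E (u : maximalRealSubfield E)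
    convert this using 1
    push_cast
    rw [bar, map_mul]
    rw [bar] at e
    rw [e]
    ring
  | zero => intro w; simpa using ((b : FI E) * a).zero_mem
  | add y z _ _ hy hz =>
    intro w
    convert add_mem' (hy w) (hz w) using 1
    push_cast
    simp only [bar, map_mul, map_add]
    ring
  | smul r y _ hy =>
    intro w
    rw [smul_eq_mul, ← mul_assoc]
    exact hy _

theorem rd_mem : ((rd E : 𝓞 E)) ∈ Df E := norm_Df (E := E) ▸ Ideal.absNorm_mem (Df E)

/-- A vector that lies in a lattice and in its twist by a ramified ideal. -/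
theorem dvd_of_tw (ho : ∀ s : ℤ, s * g ∈ a → (rd E : ℤ) ∣ s) (hodd : Odd (rd E)) {e : ℕ}
    (he : e ∣ rd E) (h : Tw a (Df E ⊔ Ideal.span {(e : 𝓞 E)}) g g') {s : ℤ}
    (hs : s * (g - g') ∈ a) : (e : ℤ) ∣ s := by
  obtain ⟨d, hd⟩ := he
  set r := Df E ⊔ Ideal.span {(e : 𝓞 E)}
  have m1 : g + g' ∈ (r : FI E) * a * (Df E : FI E)⁻¹ := (mem_mul_inv Df_ne).2 fun z hz => by
    obtain ⟨w, hw, rfl⟩ := (FractionalIdeal.mem_coeIdeal _).1 hz
    clear hz
    induction hw using Submodule.span_induction with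
    | mem y hy =>
      have := int_mem (-1) (h y (Ideal.mem_sup_left (Ideal.subset_span hy)))
      obtain ⟨u, rfl⟩ := hy
      convert this using 1
      simp only [bar, map_sub, S4.Quad.oa_coe, RingOfIntegers.coe_eq_algebraMap,
        IsCMField.complexConj_apply_apply]
      push_cast
      ring
    | zero => simpa using ((r : FI E) * a).zero_mem
    | add y z _ _ hy hz =>
      rw [map_add, mul_add]
      exact add_mem' hy hz
    | smul u y _ hy =>
      rw [smul_eq_mul, map_mul, mul_left_comm]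
      exact smul_mem u hy
  have l1 : Ideal.span {(d : 𝓞 E)} * r ≤ Df E := by
    rw [Ideal.mul_sup, Ideal.span_singleton_mul_span_singleton, sup_le_iff,
      Ideal.span_singleton_le_iff_mem, ← Nat.cast_mul, mul_comm d, ← hd]
    exact ⟨Ideal.mul_le_right, rd_mem⟩
  have m2 : (d : E) * (g + g') ∈ a := by
    have := FractionalIdeal.mul_mem_mul ((FractionalIdeal.mem_coeIdeal _).2
      ⟨d, Ideal.mem_span_singleton_self _, map_natCast _ d⟩ :
        (d : E) ∈ (Ideal.span {(d : 𝓞 E)} : FI E)) m1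
    rw [← mul_assoc, ← mul_assoc, ← FractionalIdeal.coeIdeal_mul] at this
    have l2 := mul_le_mul_left (mul_le_mul_left
      ((FractionalIdeal.coeIdeal_le_coeIdeal E).2 l1) a) (Df E : FI E)⁻¹
    rw [mul_right_comm (Df E : FI E), mul_inv_cancel₀ Df_ne, one_mul] at l2
    exact l2 this
  have m3 := ho (d * (2 * s)) (by
    convert add_mem' (int_mem s m2) (int_mem d hs) using 1
    push_cast
    ring)
  have d0 : (d : ℤ) ≠ 0 := fun e0 => rd_ne (E := E) (by rw [hd, Nat.cast_eq_zero.1 e0, mul_zero])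
  rw [hd, Nat.cast_mul, mul_comm (e : ℤ), mul_dvd_mul_iff_left d0] at m3
  have : Odd e := (Nat.odd_mul.1 (hd ▸ hodd)).1
  exact (Nat.isCoprime_iff_coprime.2 (Nat.coprime_two_right.2 this)).dvd_of_dvd_mul_left m3

/-- The twisted lattice is integral. -/
theorem tw_int (H : Hyp A lam) (a0 : a ≠ 0) (h : Frame A lam a g x t) (b0 : b ≠ ⊥)
    (k : Tw a b g g') {y y' : E} {s s' : ℤ} (hy : y - s * g' ∈ tw a b) (h' : y' - s' * g' ∈ tw a b) :
    ∃ k : ℤ, tf lam y y' + cf A E * s * s' = k := by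
  have hg := (mem_dual_iff H a0 h g).2 ⟨1, g_mem⟩
  obtain ⟨ρ, h1, h2, h3⟩ := exists_tw hg b0
  have n0 := tw_ne a0 b0
  have e1 : Ad E * (FractionalIdeal.spanSingleton _ lam * cF (tw a b))⁻¹ =
      tw a b * (Df E : FI E)⁻¹ := by
    have n1 : (FractionalIdeal.spanSingleton _ lam * cF (tw a b) : FI E) ≠ 0 :=
      mul_ne_zero (FractionalIdeal.spanSingleton_ne_zero_iff.2 H.ne) (cF_ne n0)
    rw [← div_eq_mul_inv, ← div_eq_mul_inv, div_eq_div_iff n1 Df_ne, mul_left_comm, tw_norm b0,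
      ← mul_assoc, norm_eq H a0 h, mul_comm]
  have i1 : ∀ u ∈ tw a b * (Df E : FI E)⁻¹, ∀ z ∈ tw a b, ∃ k : ℤ, tf lam u z = k := fun u hu =>
    (mem_dual H.ne n0 u).1 (e1 ▸ hu)
  have l1 : ∀ u ∈ tw a b, u ∈ tw a b * (Df E : FI E)⁻¹ := fun u hu =>
    (mem_mul_inv Df_ne).2 fun z hz => by
      obtain ⟨w, -, rfl⟩ := (FractionalIdeal.mem_coeIdeal _).1 hz
      rw [mul_comm]
      exact smul_mem w hu
  have d1 := h1.dual hg b0
  have c1 : ∀ {y : E} {s : ℤ}, y - s * g' ∈ tw a b → y - s * (ρ * g) ∈ tw a b := fun {y s} hy => by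
    convert add_mem' hy (int_mem s ((k.iff b0).1 h1)) using 1
    ring
  obtain ⟨k1, e1⟩ := i1 _ (l1 _ (c1 hy)) _ (c1 h')
  obtain ⟨k2, e2⟩ := i1 _ d1 _ (c1 h')
  obtain ⟨k3, e3⟩ := i1 _ d1 _ (c1 hy)
  obtain ⟨k4, e4⟩ := int h (g_mem (g := g)) g_mem
  obtain ⟨k5, e5⟩ := (dual_a H a0 h g).2 ⟨1, g_mem⟩ _ ((mem_mul_inv Df_ne).1 hg _ h3)
  have e6 : tf lam (ρ * g) (ρ * g) = tf lam g g + k5 := by
    rw [tf_mul, ← e5, ← map_add]
    congr 1
    ring
  rw [tf_symm H.real] at e3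
  refine ⟨k1 + s * k2 + s' * k3 + s * s' * (k4 + k5), ?_⟩
  simp only [map_sub, LinearMap.sub_apply, tf_int, tf_int'] at e1 e2 e3
  push_cast at e4 ⊢
  linear_combination e1 + s * e2 + s' * e3 + s * s' * e4 + s * s' * e6

end Pool.Agent.Lib.MP_9177b7_ag.SO.Fr0
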