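import Pool.Agent.Lib.MP_9177b7_ag.SO.StC
import Pool.Agent.Lib.MP_9177b7_ag.SO.Fr1
import Pool.Agent.Lib.MP_9177b7_ag.B.Pad

/-!
The `p`-adic coordinates of a frame.
-/

open NumberField Matrix
open scoped nonZeroDivisors

noncomputable section

namespace Pool.Agent.Lib.MP_9177b7_ag.SO

namespace Lift0

variable {n p : ℕ} [Fact p.Prime] {A : Mx n ℤ} {E : Type} [Field E] [NumberField E] [IsCMField E]
  {lam g : E} {a : FractionalIdeal (𝓞 E)⁰ E} {x : Ix n → E} {t : Ix n → ℤ}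
  {ψ : Ix n → (E →+* ℚ_[p])}

theorem cn_rev : (cn n).rev = cn n := by
  ext
  simp only [cn, Fin.val_rev]
  omega

theorem rev_ne {i : Ix n} (h : i ≠ cn n) : i.rev ≠ cn n := fun e =>
  h (Fin.rev_injective (e.trans cn_rev.symm))

theorem lt_rev {i : Ix n} (h : i ≠ cn n) : i.rev < cn n ↔ ¬ i < cn n := by
  have : i.1 ≠ n + 1 := fun e => h (Fin.ext e)
  simp only [cn, Fin.lt_def, Fin.val_rev]
  omega

/-- A numbering of the embeddings into `ℚ_p`. -/
structure Num (ψ : Ix n → (E →+* ℚ_[p])) : Prop where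
  rev : ∀ i y, i ≠ cn n → ψ i.rev y = ψ i (IsCMField.complexConj E y)
  inj : ∀ i j, i ≠ cn n → j ≠ cn n → ψ i = ψ j → i = j
  dim : Module.finrank ℚ E + 1 = 2 * n + 3

/-- The matrix of coordinates. -/
def Ps (ψ : Ix n → (E →+* ℚ_[p])) (x : Ix n → E) (t : Ix n → ℤ) : Mx n ℚ_[p] :=
  Matrix.of fun i k => if i = cn n then (t k : ℚ_[p]) else ψ i (x k)

/-- The coefficients of the form in coordinates. -/
def dl (A : Mx n ℤ) (ψ : Ix n → (E →+* ℚ_[p])) (lam : E) (i : Ix n) : ℚ_[p] :=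
  if i = cn n then ((A.det.natAbs / rd E : ℚ) : ℚ_[p]) else ψ i lam

theorem inj' (N : Num ψ) : Function.Injective fun i : {i // i ≠ cn n} => ψ i :=
  fun i j e => Subtype.ext (N.inj _ _ i.2 j.2 e)

theorem card (N : Num ψ) : Fintype.card {i // i ≠ cn n} = Module.finrank ℚ E := by
  have := N.dim
  rw [Fintype.card_subtype_compl, Fintype.card_subtype_eq, Fintype.card_fin]
  omega

theorem tr' (N : Num ψ) (y : E) :
    ∑ i : {i // i ≠ cn n}, ψ i y = (Algebra.trace ℚ E y : ℚ) :=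
  B.Pad.trace_aux (algebraMap ℚ_[p] (AlgebraicClosure ℚ_[p])) (inj' N) (card N) y

theorem tr (N : Num ψ) (y : E) :
    ∑ i ∈ Finset.univ.erase (cn n), ψ i y = (Algebra.trace ℚ E y : ℚ) := by
  rw [← tr' N]
  exact Finset.sum_subtype _ (by simp) fun i => ψ i y

theorem nm (N : Num ψ) (y : E) : ∏ i : {i // i ≠ cn n}, ψ i y = (Algebra.norm ℚ y : ℚ) := by
  classical
  let f := algebraMap ℚ_[p] (AlgebraicClosure ℚ_[p])
  let F : {i // i ≠ cn n} → (E →ₐ[ℚ] AlgebraicClosure ℚ_[p]) := fun i =>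
    (f.comp (ψ i)).toRatAlgHom
  have hF : Function.Injective F := fun i j hij => inj' N (RingHom.ext fun y =>
    f.injective (DFunLike.congr_fun hij y))
  have hB : Function.Bijective F := (Fintype.bijective_iff_injective_and_card F).2
    ⟨hF, (card N).trans (AlgHom.card ℚ E _).symm⟩
  apply f.injective
  have h1 := Algebra.norm_eq_prod_embeddings ℚ (AlgebraicClosure ℚ_[p]) y
  rw [← hB.prod_comp (fun σ : E →ₐ[ℚ] AlgebraicClosure ℚ_[p] => σ y)] at h1
  rw [map_prod, map_ratCast]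
  exact (h1.symm.trans (eq_ratCast _ _))

theorem gram (N : Num ψ) (h : Frame A lam a g x t) :
    (Ps ψ x t)ᵀ * (diagonal (dl A ψ lam) * Jr n ℚ_[p]) * Ps ψ x t = Am A ℚ_[p] := by
  ext k m
  have e : ∀ i, (diagonal (dl A ψ lam) * Jr n ℚ_[p] * Ps ψ x t) i m =
      dl A ψ lam i * Ps ψ x t i.rev m := fun i => by
    rw [Matrix.mul_assoc, diagonal_mul]
    simp [Matrix.mul_apply, Jr]
  have e2 := congrArg (Rat.cast (K := ℚ_[p])) (h.1 k m)
  rw [Matrix.mul_assoc, Matrix.mul_apply, ← Finset.add_sum_erase _ _ (Finset.mem_univ (cn n)),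
    show Am A ℚ_[p] k m = ((A k m : ℚ) : ℚ_[p]) from (Rat.cast_intCast _).symm, ← e2,
    Rat.cast_add, ← tr N, add_comm]
  congr 1
  · refine Finset.sum_congr rfl fun i hi => ?_
    have hi := (Finset.mem_erase.1 hi).1
    rw [e]
    simp only [transpose_apply, Ps, dl, of_apply, if_neg hi, if_neg (rev_ne hi), N.rev _ _ hi,
      map_mul]
    ring
  · rw [e]
    simp only [transpose_apply, Ps, dl, of_apply, cn_rev, if_true, Rat.cast_mul,
      Rat.cast_intCast]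
    ring

theorem pD (N : Num ψ) : ¬ p ∣ rd E := by
  intro hp
  obtain ⟨w, hw⟩ := B.Pad.crt (inj' N) (fun i => if i.1 < cn n then 1 else 0) 1
  have p1 : ((p : ℝ) ^ 1)⁻¹ < 1 := by
    rw [pow_one]
    exact inv_lt_one_of_one_lt₀ B.Pad.one_lt_p
  have u : ∀ i : {i // i ≠ cn n}, ‖ψ i (w - IsCMField.complexConj E w)‖ = 1 := fun i => by
    have h1 := (hw i).trans_lt p1
    have h2 := (hw ⟨i.1.rev, rev_ne i.2⟩).trans_lt p1
    rw [map_sub, ← N.rev _ _ i.2]
    simp only [lt_rev i.2] at h2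
    have k : ∀ u v : ℚ_[p], ‖u - 1‖ < 1 → ‖v‖ < 1 → ‖u - v‖ = 1 := fun u v h1 h2 => by
      have : ‖(u - 1) - v‖ < ‖(1 : ℚ_[p])‖ := by
        rw [norm_one, sub_eq_add_neg]
        exact (IsUltrametricDist.norm_add_le_max _ _).trans_lt (max_lt h1 (by rwa [norm_neg]))
      rw [show u - v = (u - 1 - v) + 1 by ring,
        IsUltrametricDist.norm_add_eq_max_of_norm_ne_norm this.ne, max_eq_right this.le, norm_one]
    by_cases hi : i.1 < cn n
    · exact k _ _ (by simpa [hi] using h1) (by simpa [hi] using h2)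
    · rw [norm_sub_rev]
      exact k _ _ (by simpa [hi] using h2) (by simpa [hi] using h1)
  have d := Ideal.absNorm_dvd_norm_of_mem
    (S4.Quad.sub_mem_Df (σ := IsCMField.complexConj E) w)
  rw [Fr0.norm_Df] at d
  have e := congrArg norm (nm N (w - IsCMField.complexConj E w))
  have e2 := Algebra.coe_norm_int (w - S4.Quad.oa (IsCMField.complexConj E) w)
  rw [norm_prod, Finset.prod_eq_one fun i _ => u i,
    show ((w : E) - IsCMField.complexConj E w) =
      ((w - S4.Quad.oa (IsCMField.complexConj E) w : 𝓞 E) : E) from rfl, ← e2,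
    Rat.cast_intCast] at e
  exact (Padic.norm_intCast_lt_one_iff.2 ((Int.natCast_dvd_natCast.2 hp).trans d)).ne e.symm

theorem norm_nat {m : ℕ} (h : ¬ p ∣ m) : ‖(m : ℚ_[p])‖ = 1 :=
  Padic.norm_natCast_eq_one_iff.2 ((Nat.Prime.coprime_iff_not_dvd Fact.out).2 h)

theorem cf_le (N : Num ψ) (A : Mx n ℤ) : ‖((A.det.natAbs / rd E : ℚ) : ℚ_[p])‖ ≤ 1 := by
  rw [Rat.cast_div, Rat.cast_natCast, Rat.cast_natCast, norm_div, norm_nat (pD N), div_one]
  exact IsUltrametricDist.norm_natCast_le_one _ _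

theorem herm_le (N : Num ψ) (H : Fr0.Hyp A lam) (a0 : a ≠ 0) (h : Frame A lam a g x t)
    {i : Ix n} (hi : i ≠ cn n) (k m : Ix n) : ‖ψ i lam * ψ i (x k) * ψ i.rev (x m)‖ ≤ 1 := by
  rw [N.rev _ _ hi, ← map_mul, ← map_mul]
  refine B.Pad.dual (inj' N) _ (fun y => ?_) ⟨i, hi⟩
  obtain ⟨s, hs⟩ := Fr0.mul_g H a0 h y
  obtain ⟨z, hz⟩ := Fr0.int h (y := y * x k) (s := t k * s) (by
    convert Fr0.add_mem' (Fr0.smul_mem y (Fr0.mem h k)) (Fr0.int_mem (t k) hs) using 1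
    push_cast
    ring) (Fr0.mem h m)
  rw [tr' N, show lam * x k * IsCMField.complexConj E (x m) * y =
    lam * (y * x k) * Fr0.bar (x m) by ring, ← Fr0.tf_apply, eq_sub_of_add_eq hz, Rat.cast_sub,
    sub_eq_add_neg]
  refine (IsUltrametricDist.norm_add_le_max _ _).trans (max_le ?_ ?_)
  · rw [Rat.cast_intCast]
    exact Padic.norm_int_le_one z
  · rw [norm_neg, Rat.cast_mul, Rat.cast_mul, Rat.cast_intCast, Rat.cast_intCast, norm_mul,
      norm_mul]
    exact mul_le_one₀ (mul_le_one₀ (cf_le N A) (norm_nonneg _) (Padic.norm_int_le_one _))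
      (norm_nonneg _) (Padic.norm_int_le_one _)

theorem exs (N : Num ψ) (H : Fr0.Hyp A lam) (a0 : a ≠ 0) (h : Frame A lam a g x t) {κ : ℚ_[p]}
    (hk : ‖κ‖ = 1) : ∃ s : Ix n → ℚ_[p], ∀ i, i ≠ cn n →
      s i * s i.rev * κ = ψ i lam ∧ ∀ k, ‖s i * ψ i (x k)‖ ≤ 1 := by
  obtain ⟨k₀, x0⟩ : ∃ k, x k ≠ 0 := by
    by_contra! e
    refine a0 (FractionalIdeal.eq_zero_iff.2 fun y hy => ?_)
    obtain ⟨c, h1, -⟩ := (h.2 y 0).1 (Fr0.a_mem hy)
    simp [h1, e]
  have k0 : κ ≠ 0 := norm_ne_zero_iff.1 (hk ▸ one_ne_zero)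
  choose f _ hf using fun i =>
    Finset.exists_max_image Finset.univ (fun k => ‖ψ i (x k)‖) Finset.univ_nonempty
  have f0 : ∀ i, ψ i (x (f i)) ≠ 0 := fun i => norm_pos_iff.1
    ((norm_pos_iff.2 ((map_ne_zero _).2 x0)).trans_le (hf i k₀ (Finset.mem_univ _)))
  have lr : ∀ i, i ≠ cn n → ψ i.rev lam = ψ i lam := fun i hi =>
    (N.rev _ _ hi).trans (congrArg _ H.real)
  refine ⟨fun i => if i < cn n then (ψ i (x (f i)))⁻¹ else ψ i lam * ψ i.rev (x (f i.rev)) / κ,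
    fun i hi => ?_⟩
  have := f0 i
  have := f0 i.rev
  by_cases hl : i < cn n
  · simp only [lt_rev hi, hl, not_true, if_true, if_false, Fin.rev_rev, lr i hi]
    refine ⟨by field_simp, fun k => ?_⟩
    rw [norm_mul, norm_inv]
    exact inv_mul_le_one_of_le₀ (hf i k (Finset.mem_univ _)) (norm_nonneg _)
  · simp only [lt_rev hi, hl, not_false_iff, if_true, if_false]
    refine ⟨by field_simp, fun k => ?_⟩
    rw [div_mul_eq_mul_div, norm_div, hk, div_one, mul_right_comm]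
    exact herm_le N H a0 h hi k _

end Lift0

theorem Dat.num {n p : ℕ} [Fact p.Prime] {c : Ctx n p} (D : Dat c) : Lift0.Num D.ψ :=
  ⟨D.ψ_rev, D.ψ_inj, D.sp.dim⟩

end Pool.Agent.Lib.MP_9177b7_ag.SO
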