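import Pool.Agent.Lib.MP_9177b7_ag.SO.StC
import Pool.Agent.Lib.MP_9177b7_ag.SO.Fr1

/-!
Twisting of glue vectors.
-/

open NumberField Matrix
open scoped nonZeroDivisors

noncomputable section

namespace Pool.Agent.Lib.MP_9177b7_ag.SO

namespace Fr0

/-- An even lattice of odd rank has even determinant. -/
theorem det_even {N : ℕ} {A : Matrix (Fin N) (Fin N) ℤ} (hs : Aᵀ = A) (he : ∀ i, Even (A i i))
    (hN : ¬ 2 ∣ N) : (2 : ℤ) ∣ A.det := by
  have h2 : ∀ z : ZMod 2, z + z = 0 := by decide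
  refine (ZMod.intCast_zmod_eq_zero_iff_dvd _ 2).1 ?_
  rw [det_apply', Int.cast_sum]
  refine Finset.sum_involution (fun σ _ => σ⁻¹) (fun σ _ => ?_) (fun σ _ h e => h ?_)
    (fun _ _ => Finset.mem_univ _) fun σ _ => inv_inv σ
  · have : ∏ i, A (σ⁻¹ i) i = ∏ i, A (σ i) i := by
      rw [← Equiv.prod_comp σ]
      exact Finset.prod_congr rfl fun i _ => by
        rw [show σ⁻¹ (σ i) = i from σ.symm_apply_apply i]
        exact congrFun (congrFun hs (σ i)) i
    rw [this, Equiv.Perm.sign_inv, h2]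
  · obtain ⟨i, hi⟩ := Equiv.Perm.exists_fixed_point_of_prime (p := 2) (n := 1) (σ := σ)
      (by rwa [Fintype.card_fin]) (by rw [pow_one, sq]; nth_rw 1 [← e]; exact inv_mul_cancel σ)
    refine (ZMod.intCast_zmod_eq_zero_iff_dvd _ 2).2 (Dvd.dvd.mul_left ?_ _)
    exact (show (2 : ℤ) ∣ A (σ i) i by rw [hi]; exact (he i).two_dvd).trans
      (Finset.dvd_prod_of_mem _ (Finset.mem_univ i))

variable {n p : ℕ} [Fact p.Prime] {c : Ctx n p} (D : Dat c)

theorem two_dvd (c : Ctx n p) : 2 ∣ c.A.det.natAbs :=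
  Int.natCast_dvd.1 (det_even c.lat.symm c.lat.even (by omega))

theorem odd_rd : Odd D.Dn := Nat.coprime_two_right.1 (D.sp.cop.coprime_dvd_right (two_dvd c))

theorem det_ne (c : Ctx n p) : c.A.det ≠ 0 := fun h => c.pd (h ▸ dvd_zero _)

theorem hyp : Hyp c.A D.lam :=
  ⟨c.lat.symm, det_ne c, D.sp.sqf, D.sp.cop, D.sp.real, fun h => by simpa [h] using D.sp.neg⟩

theorem fm_ne {a g x t} (h : D.Fm a g x t) : a ≠ 0 := a_ne c.lat (by simp) h

variable {E : Type} [Field E] [NumberField E] [IsCMField E] {a : FI E} {g : E}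

theorem tw_self {e : ℕ} (ho : Odd e) (he : e ∣ rd E)
    (h : Tw a (Df E ⊔ Ideal.span {(e : 𝓞 E)}) g g) : ((rd E / e : ℕ) : E) * g ∈ a := by
  obtain ⟨d, hd⟩ := he
  obtain ⟨k, hk⟩ := ho
  set r := Df E ⊔ Ideal.span {(e : 𝓞 E)}
  have m1 : g ∈ (r : FI E) * a * (Df E : FI E)⁻¹ := (mem_mul_inv Df_ne).2 fun z hz => by
    obtain ⟨w, hw, rfl⟩ := (FractionalIdeal.mem_coeIdeal _).1 hz
    clear hz
    induction hw using Submodule.span_induction with
    | mem y hy =>
      have k1 := int_mem k (h y (Ideal.mem_sup_left (Ideal.subset_span hy)))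
      obtain ⟨u, rfl⟩ := hy
      have k2 := h (u * e) (Ideal.mem_sup_right (Ideal.mem_span_singleton'.2 ⟨u, rfl⟩))
      convert sub_mem' k1 k2 using 1
      simp only [bar, map_sub, S4.Quad.oa_coe, RingOfIntegers.coe_eq_algebraMap,
        IsCMField.complexConj_apply_apply, map_mul, map_natCast, hk]
      push_cast
      ring
    | zero => simpa using ((r : FI E) * a).zero_mem
    | add y z _ _ hy hz =>
      rw [map_add, mul_add]
      exact add_mem' hy hz
    | smul u y _ hy =>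
      rw [smul_eq_mul, map_mul, mul_left_comm]
      exact smul_mem u hy
  have l1 : Ideal.span {(d : 𝓞 E)} * r ≤ Df E := by
    rw [Ideal.mul_sup, Ideal.span_singleton_mul_span_singleton, sup_le_iff,
      Ideal.span_singleton_le_iff_mem, ← Nat.cast_mul, mul_comm d, ← hd]
    exact ⟨Ideal.mul_le_right, rd_mem⟩
  have := FractionalIdeal.mul_mem_mul ((FractionalIdeal.mem_coeIdeal _).2
    ⟨d, Ideal.mem_span_singleton_self _, map_natCast _ d⟩ :
      (d : E) ∈ (Ideal.span {(d : 𝓞 E)} : FI E)) m1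
  rw [← mul_assoc, ← mul_assoc, ← FractionalIdeal.coeIdeal_mul] at this
  have l2 := mul_le_mul_left (mul_le_mul_left
    ((FractionalIdeal.coeIdeal_le_coeIdeal E).2 l1) a) (Df E : FI E)⁻¹
  rw [mul_right_comm (Df E : FI E), mul_inv_cancel₀ Df_ne, one_mul] at l2
  rw [hd, Nat.mul_div_cancel_left _ (by omega)]
  exact l2 this

theorem Tw.smul {b : Ideal (𝓞 E)} {g' : E} (z : E) (h : Tw a b g g') :
    Tw (FractionalIdeal.spanSingleton _ z * a) b (z * g) (z * g') := fun β hβ => by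
  rw [mul_left_comm (b : FI E)]
  exact FractionalIdeal.mem_singleton_mul.2 ⟨_, h β hβ, by ring⟩

theorem Tw.int {b : Ideal (𝓞 E)} {g' : E} (k : ℤ) (h : Tw a b g g') : Tw a b (k * g) (k * g') :=
  fun β hβ => by
    convert int_mem k (h β hβ) using 1
    ring

end Fr0

open Fr0 in
theorem tw_stmt : TwStmt := by
  intro n p _ c D a _
  refine ⟨fun b g b0 hg => ?_, fun b g g' g'' b0 h => ?_, fun b g g' b0 hg h => ?_,
    fun b b' g g' g'' b0 h h' => Fr0.Tw.mul b0 h h', fun b b' _ _ => tw_tw,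
    fun z g z0 hg => tw_span (mul_comm _ a ▸ hg) z0, fun b => tw_inv,
    fun I g hg => tw_real (mul_comm _ a ▸ hg) I, fun z b g g' _ h => Fr0.Tw.smul z h,
    fun k b g g' h => Fr0.Tw.int k h, fun b g g' α hα h => Fr0.Tw.congr h ?_,
    fun e g he h => tw_self ((odd_rd D).of_dvd_nat he) he h⟩
  · obtain ⟨ρ, h, -⟩ := exists_tw (mul_comm _ a ▸ hg) b0
    exact ⟨_, h⟩
  · refine (Fr0.Tw.iff b0 h).trans ⟨fun k => ?_, fun k => ?_⟩ <;> simpa using int_mem (-1) k
  · rw [mul_comm]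
    exact Fr0.Tw.dual (mul_comm _ a ▸ hg) b0 h
  · simpa using int_mem (-1) hα

end Pool.Agent.Lib.MP_9177b7_ag.SO
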