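import Pool.Agent.Lib.MP_9177b7_ag.SO.Alg0
import Pool.Agent.Lib.MP_9177b7_ag.SO.Tw
import Pool.Agent.Lib.MP_9177b7_ag.SO.Lift0

/-!
The arithmetic invariants of a CM datum.
-/

open NumberField Module

namespace Pool.Agent.Lib.MP_9177b7_ag.SO

theorem alg : AlgStmt := by
  intro n
  obtain ⟨C, h⟩ := Alg.geo n
  refine ⟨C, fun p _ c D => ?_⟩
  have hE : finrank ℚ D.E = 2 * n + 2 := by
    have := D.sp.dim
    omega
  have hF : finrank ℚ D.F = n + 1 := by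
    have := finrank_mul_finrank ℚ D.F D.E
    rw [Fr0.h2, hE] at this
    omega
  obtain ⟨B, w, h1, h2, h3, h4⟩ := h D.E hF D.sp.weyl
  obtain ⟨dd, d1, d2⟩ := S4.Quad.sq_Df Fr0.h2 (IsCMField.complexConj_ne_one D.E)
  rw [Fr0.norm_Df] at d2
  choose cc hc using S4.Quad.cyc (d2 ▸ D.sp.sqf : Squarefree (Ideal.absNorm dd))
  have h5 := Nat.mul_div_cancel' (Fr0.two_dvd c)
  have h6 := Int.natAbs_pos.2 (Fr0.det_ne c)
  exact ⟨⟨dd, B, fun i => cc _, w, Fr0.norm_Df,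
    (S4.Quad.disc Fr0.h2 (IsCMField.complexConj_ne_one D.E)).trans (by rw [Fr0.norm_Df]), d1, d2, h5,
    Nat.pos_of_mul_pos_left (h6.trans_eq h5.symm), Lift0.pD D.num, hE, hF, fun i => hc _, h1, h2,
    h3, h4⟩⟩

end Pool.Agent.Lib.MP_9177b7_ag.SO
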