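import Pool.Agent.Lib.MP_9177b7_ag.B.Geo
import Pool.Agent.Lib.MP_9177b7_ag.B.Red

/-!
A reduced integral basis of the real subfield of a Weyl CM field.
-/

open NumberField Finset Module ComplexEmbedding
open scoped nonZeroDivisors

noncomputable section

namespace Pool.Agent.Lib.MP_9177b7_ag.SO.Alg

open B (Bas)

lemma exists_perm {X : Type} {c : X → X} (hc : Function.Involutive c) {a b x : X} (h1 : c a ≠ a)
    (h2 : c b ≠ b) (h3 : c a ≠ b) (h4 : x ≠ a) (h5 : x ≠ b) (h6 : x ≠ c a) (h7 : x ≠ c b) :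
    ∃ π : Equiv.Perm X, (∀ y, π (c y) = c (π y)) ∧ π a = b ∧ π x = x := by
  classical
  refine ⟨Equiv.swap a b * Equiv.swap (c a) (c b), fun y => ?_, ?_, ?_⟩ <;>
    simp only [Equiv.Perm.mul_apply, Equiv.swap_apply_def] <;> grind [Function.Involutive]

lemma shift {F : Type} [Field F] [NumberField F] {d : ℕ} (B : Bas F d) (m : Fin d → ℤ) :
    ∃ B' : Bas F d, ∀ a, B'.ω a.succ = B.ω a.succ - m a := by
  have h0 : (-∑ a, m a • B.ω.coord a.succ) 1 = 0 := by
    simp [← B.one, LinearMap.sum_apply]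
  let ω := B.ω.map (LinearEquiv.transvection h0)
  refine ⟨⟨ω, (Algebra.traceForm ℚ F).dualBasis (traceForm_nondegenerate ℚ F)
    (ω.localizationLocalization ℚ ℤ⁰ F), ?_, fun i j => ?_⟩, fun a => ?_⟩
  · simp only [ω, Basis.map_apply, B.one, LinearEquiv.transvection.apply, h0, zero_smul, add_zero]
  · have := LinearMap.BilinForm.apply_dualBasis_left (traceForm_nondegenerate ℚ F)
      (ω.localizationLocalization ℚ ℤ⁰ F) i j
    rw [Basis.localizationLocalization_apply, Algebra.traceForm_apply] at this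
    exact this.trans (if_congr eq_comm rfl rfl)
  · simp only [ω, Basis.map_apply, LinearEquiv.transvection.apply]
    simp [LinearMap.sum_apply, Finsupp.single_apply, sub_eq_add_neg]

theorem geo (d : ℕ) : ∃ C : ℝ, ∀ (E : Type) [Field E] [NumberField E] [IsCMField E],
    finrank ℚ (maximalRealSubfield E) = d + 1 →
    (∀ π : Equiv.Perm (E →+* ℂ), (∀ ψ, π (conjugate ψ) = conjugate (π ψ)) →
      ∃ σ : ℂ ≃+* ℂ, ∀ ψ y, π ψ y = σ (ψ y)) →
    ∃ (B : Bas (maximalRealSubfield E) d) (w : Fin d → ℝ),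
      (∀ i (σ : E →+* ℂ), ‖σ ((B.ω i.succ : maximalRealSubfield E) : E)‖ ≤ w i) ∧ (∀ i, 1 ≤ w i) ∧
      ∏ i, w i ≤ C * √((discr (maximalRealSubfield E)).natAbs : ℝ) ∧
      ∀ i, ((discr (maximalRealSubfield E)).natAbs : ℝ) ≤ (2 * w i) ^ ((d + 1) * d) := by
  obtain ⟨C, hC, h⟩ := B.Geo.core B.red d
  refine ⟨3 ^ d * C, fun E _ _ _ hN hW => ?_⟩
  obtain ⟨e⟩ : Nonempty (Fin (d + 1) ≃ (maximalRealSubfield E →+* ℂ)) :=
    ⟨(Fintype.equivFinOfCardEq (by rw [Embeddings.card, hN])).symm⟩
  have re := fun i => IsTotallyReal.complexEmbedding_isReal (e i)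
  have co : ∀ i x, ((re i).embedding x : ℂ) = e i x := fun i x => (re i).coe_embedding_apply x
  have li : ∀ i (x : maximalRealSubfield E), lift E (e i) x = e i x := fun i =>
    lift_algebraMap_apply E (e i)
  have lc : ∀ i (x : maximalRealSubfield E), conjugate (lift E (e i)) x = e i x := fun i x => by
    rw [conjugate_coe_eq, li, ← co, Complex.conj_ofReal]
  have n1 : ∀ {i l}, i ≠ l → lift E (e i) ≠ lift E (e l) := fun hne k =>
    hne (e.injective (RingHom.ext fun x => by rw [← li, k, li]))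
  have n2 : ∀ {i l}, i ≠ l → lift E (e i) ≠ conjugate (lift E (e l)) := fun hne k =>
    hne (e.injective (RingHom.ext fun x => by rw [← li, k, lc]))
  have n3 : ∀ ψ : E →+* ℂ, conjugate ψ ≠ ψ := fun ψ k =>
    IsTotallyComplex.complexEmbedding_not_isReal ψ (isReal_iff.2 k)
  obtain ⟨B, cen, w, h1, h2, h3⟩ := h _ (fun i => (re i).embedding) hN (fun x => by
      apply Complex.ofReal_injective
      rw [Complex.ofReal_sum]
      simp only [co]
      rw [e.sum_comp fun σ => σ x, Complex.ofReal_ratCast, ← eq_ratCast (algebraMap ℚ ℂ),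
        trace_eq_sum_embeddings ℂ, ← (RingHom.equivRatAlgHom _ _).sum_comp]
      rfl) fun x i l hne k j => by
    apply Complex.ofReal_injective
    replace k := congrArg Complex.ofReal k
    rw [co, co] at k ⊢
    by_cases hj : j = i
    · rw [hj]
    by_cases hl : j = l
    · rw [hl, k]
    obtain ⟨π, p1, p2, p3⟩ := exists_perm (involutive_conjugate E) (n3 _) (n3 _) (n2 hl).symm
      (n1 hne) (n1 (Ne.symm hj)) (n2 hne) (n2 (Ne.symm hj))
    obtain ⟨s, hs⟩ := hW π p1
    have a := hs (lift E (e i)) x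
    have b := hs (lift E (e l)) x
    rw [p3, li] at a
    rw [p2, li, li, ← k] at b
    exact b.trans a.symm
  obtain ⟨B', hB⟩ := shift B fun a => round (cen a)
  have d1 : (1 : ℝ) ≤ |(discr (maximalRealSubfield E) : ℝ)| := by
    exact_mod_cast Int.one_le_abs (discr_ne_zero _)
  have w1 : ∀ a, 1 ≤ 2 * w a := fun a => by
    by_contra! k
    exact (d1.trans (h3 a).2).not_gt (pow_lt_one₀ (by linarith [(h3 a).1]) k
      (Nat.mul_pos d.succ_pos a.pos).ne')
  rw [Nat.cast_natAbs, Int.cast_abs]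
  refine ⟨B', fun a => 3 * w a, fun a σ => ?_, fun a => by linarith [w1 a], ?_,
    fun a => (h3 a).2.trans (pow_le_pow_left₀ (by linarith [w1 a]) (by linarith [w1 a]) _)⟩
  · obtain ⟨i, hi⟩ := e.surjective (σ.comp (algebraMap _ E))
    refine le_of_eq_of_le (congrArg norm ((RingHom.congr_fun hi _).symm.trans (co i _).symm)) ?_
    rw [Complex.norm_real, Real.norm_eq_abs, hB]
    simp only [RingOfIntegers.coe_eq_algebraMap, map_sub, map_intCast] at h1 ⊢
    linarith [abs_sub_le ((re i).embedding (algebraMap _ _ (B.ω a.succ))) (cen a) (round (cen a)), h1 a i,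
      abs_sub_round (cen a), w1 a]
  · rw [prod_mul_distrib, prod_const, card_univ, Fintype.card_fin, mul_assoc]
    gcongr

end Pool.Agent.Lib.MP_9177b7_ag.SO.Alg
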