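import Pool.Agent.Lib.MP_9177b7_ag.SO.Rel
import Pool.Agent.Lib.MP_9177b7_ag.S4.EKa

/-!
The high entropy steps in `SO_{2 n + 3}(ℚ_p)`.
-/

open MeasureTheory ProbabilityTheory Filter Topology Set

noncomputable section

namespace Pool.Agent.Lib.MP_9177b7_ag.SO

open B B.EK
open S4 (H2 core2)

variable {n p : ℕ} [Fact p.Prime]

namespace EKS

variable {i j o : Ix n}

theorem n_p : ‖(p : ℚ_[p]) ^ (1 : ℤ)‖ < 1 := by
  rw [Padic.norm_p_zpow]
  exact zpow_lt_one_of_neg₀ p1 (by omega)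

/-- The positions of the group generated by two short roots. -/
def TS (i j o a b : Ix n) : Prop :=
  ((a = i ∨ a = j) ∧ (b = o ∨ b = i.rev ∨ b = j.rev)) ∨ (a = o ∧ (b = i.rev ∨ b = j.rev))

theorem trS (ho : o = o.rev) (hi : Rt i o) (hj : Rt j o) (h : Rt i j.rev) : Tr (TS i j o) :=
  fun a b c => by
    have r := @Fin.rev_rev (2 * n + 3)
    simp only [TS, Rt] at *
    grind

theorem dS (ho : o = o.rev) (hi : Rt i o) (hj : Rt j o) (h : Rt i j.rev) {g : HQ n p}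
    (hg : Sup g (TS i j o)) : D g o i.rev = -D g i o ∧ D g o j.rev = -D g j o ∧
      2 * D g i i.rev = -D g i o ^ 2 ∧ 2 * D g j j.rev = -D g j o ^ 2 ∧
      D g j i.rev = -D g i j.rev - D g i o * D g j o := by
  have r := @Fin.rev_rev (2 * n + 3)
  have a1 := hg.dual (i := i) (j := o) fun m => by
    simp only [TS, Rt] at *
    grind
  have a2 := hg.dual (i := j) (j := o) fun m => by
    simp only [TS, Rt] at *
    grind
  have a3 := hg.rel1 (i := i) (j := i.rev) o fun m => by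
    simp only [TS, Rt] at *
    grind
  have a4 := hg.rel1 (i := j) (j := j.rev) o fun m => by
    simp only [TS, Rt] at *
    grind
  have a5 := hg.rel1 (i := i) (j := j.rev) o fun m => by
    simp only [TS, Rt] at *
    grind
  simp only [r, ← ho] at a1 a2 a3 a4 a5
  rw [a1] at a3 a5
  rw [a2] at a4 a5
  exact ⟨a1, a2, by linear_combination a3, by linear_combination a4, by linear_combination a5⟩

/-- The data for two short roots. -/
def dat1 (hp : p ≠ 2) (ho : o = o.rev) (hi : Rt i o) (hj : Rt j o) (h : Rt i j.rev) :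
    H2 p (HQ n p) :=
  have r := @Fin.rev_rev (2 * n + 3)
  have T := trS ho hi hj h
  have sp : ∀ {g : HQ n p}, g ∈ NS p T → Sup g (TS i j o) := fun hg => ((mem_NS T _).1 hg).2
  have w1 : ∀ m, ¬ (TS i j o i m ∧ TS i j o m o) := fun m => by
    simp only [TS, Rt] at *
    grind
  have w2 : ∀ m, ¬ (TS i j o j m ∧ TS i j o m o) := fun m => by
    simp only [TS, Rt] at *
    grind
  have w3 : ∀ m, m ∉ ({o} : Finset (Ix n)) → ¬ (TS i j o i m ∧ TS i j o m j.rev) := fun m => by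
    simp only [TS, Rt, Finset.mem_singleton] at *
    grind
  have w4 : (∀ a b, Pos i o a b → TS i j o a b) ∧ ¬ Pos i o j o ∧ ¬ Pos i o i j.rev := by
    simp only [TS, Rt, Pos] at *
    grind
  have w5 : (∀ a b, Pos j o a b → TS i j o a b) ∧ ¬ Pos j o i o ∧ ¬ Pos j o i j.rev := by
    simp only [TS, Rt, Pos] at *
    grind
  have w6 : (∀ a b, Pos i j.rev a b → TS i j o a b) ∧ ¬ Pos i j.rev i o ∧ ¬ Pos i j.rev j o := by
    simp only [TS, Rt, Pos] at *
    grind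
  have w7 : wt (kJ {j}) i o = 0 ∧ wt (kJ {i}) j o = 0 ∧ wt (kJ {i}) i j.rev = 1 := by
    simp only [Rt, wt, kJ, Finset.mem_singleton] at *
    grind
  have w8 : ∀ a b, TS i j o a b → ¬ 0 < wt (kJ {j}) a b →
      (a = i ∧ b = o) ∨ (a = o ∧ b = i.rev) ∨ (a = i ∧ b = i.rev) := fun a b => by
    simp only [TS, Rt, wt, kJ, Finset.mem_singleton] at *
    grind
  have w9 : ∀ a b, TS i j o a b → ¬ 0 < wt (kJ {i}) a b →
      (a = j ∧ b = o) ∨ (a = o ∧ b = j.rev) ∨ (a = j ∧ b = j.rev) := fun a b => by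
    simp only [TS, Rt, wt, kJ, Finset.mem_singleton] at *
    grind
  { Nn := NS p T
    Z := ⊥
    co g := (D g i o, D g j o, -D g i j.rev)
    u₁ s := ur hi s
    u₂ s := ur hj s
    u₃ s := ur h (-1 * s)
    l := (p : ℚ_[p]) ^ (1 : ℤ)
    T₁ := dg p (kJ {j})
    T₂ := dg p (kJ {i})
    T₃ := dg p (kJ {i})
    cN := NS_cpt _
    cZ := isCompact_singleton
    ZN := bot_le
    cco := (D_cont _ _).prodMk ((D_cont _ _).prodMk (D_cont _ _).neg)
    c1 := ur_cont _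
    c2 := ur_cont _
    c3 := (ur_cont h).comp (continuous_const_mul _)
    mul g hg g' hg' := by
      simp only [(sp hg).add (sp hg') w1, (sp hg).add (sp hg') w2, (sp hg).mul (sp hg') _ w3,
        Finset.sum_singleton, (dS ho hi hj h (sp hg')).2.1, Prod.mk.injEq, true_and]
      ring
    int g hg :=
      have h := ((mem_NS T g).1 hg).1
      ⟨h _ _, h _ _, nneg (h _ _)⟩
    o1 s hs := ⟨ur_NS hp T hi w4.1 hs, by
      rw [D_ur_self, ur_sup hi s _ _ w4.2.1, ur_sup hi s _ _ w4.2.2, neg_zero]⟩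
    o2 s hs := ⟨ur_NS hp T hj w5.1 hs, by
      rw [D_ur_self, ur_sup hj s _ _ w5.2.1, ur_sup hj s _ _ w5.2.2, neg_zero]⟩
    o3 s hs := ⟨ur_NS hp T h w6.1 (by simpa using hs), by
      rw [D_ur_self, ur_sup h _ _ _ w6.2.1, ur_sup h _ _ _ w6.2.2, neg_one_mul, neg_neg]⟩
    ker g hg e := by
      simp only [Prod.mk_eq_zero, neg_eq_zero] at e
      obtain ⟨d1, d2, d3, d4, d5⟩ := dS ho hi hj h (sp hg)
      simp only [e.1, e.2.1, e.2.2, neg_zero, mul_zero, sub_zero, ne_eq, OfNat.ofNat_ne_zero,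
        not_false_eq_true, zero_pow, mul_eq_zero, false_or] at d1 d2 d3 d4 d5
      refine D_ext fun a b => ?_
      rw [D_one]
      by_cases q : TS i j o a b
      · rcases q with ⟨rfl | rfl, rfl | rfl | rfl⟩ | ⟨rfl, rfl | rfl⟩
        exacts [e.1, d3, e.2.2, e.2.1, d5, d4, d1, d2]
      · exact sp hg a b q
    add s t := by rw [mul_add, ur_add]
    com z hz s _ := by rw [Subgroup.mem_bot.1 hz, mul_one, one_mul]
    hl := n_p
    t1 s := dg_comm _ _ w7.1 _
    t2 s := dg_comm _ _ w7.2.1 _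
    t3 z hz := by rw [Subgroup.mem_bot.1 hz, mul_one, one_mul]
    t4 s := by rw [dg_ur, w7.2.2, mul_left_comm]
    k1 := contr _ fun g hg => N_sub hg.1 fun a b q q' => by
      have e : D g i o = 0 := hg.2
      obtain ⟨d1, -, d3, -⟩ := dS ho hi hj h (sp hg.1)
      rcases w8 a b q q' with ⟨rfl, rfl⟩ | ⟨rfl, rfl⟩ | ⟨rfl, rfl⟩
      · exact e
      · rw [d1, e, neg_zero]
      · simpa [e] using d3
    k2 := contr _ fun g hg => N_sub hg.1 fun a b q q' => by
      have e : D g j o = 0 := hg.2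
      obtain ⟨-, d1, -, d3, -⟩ := dS ho hi hj h (sp hg.1)
      rcases w9 a b q q' with ⟨rfl, rfl⟩ | ⟨rfl, rfl⟩ | ⟨rfl, rfl⟩
      · exact e
      · rw [d1, e, neg_zero]
      · simpa [e] using d3
    k3 := contr _ fun g ⟨s, hs, e⟩ => e ▸ ur_N hp _ (by omega) (by simpa using hs) }

/-- The positions of the group generated by a long and a short root. -/
def TL (i j o a b : Ix n) : Prop :=
  (a = i ∧ (b = j ∨ b = o ∨ b = j.rev ∨ b = i.rev)) ∨ (a = j ∧ (b = o ∨ b = j.rev ∨ b = i.rev)) ∨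
    (a = o ∧ (b = j.rev ∨ b = i.rev)) ∨ (a = j.rev ∧ b = i.rev)

theorem trL (ho : o = o.rev) (h : Rt i j) (hj : Rt j o) (hi : Rt i o) : Tr (TL i j o) :=
  fun a b c => by
    have r := @Fin.rev_rev (2 * n + 3)
    simp only [TL, Rt] at *
    grind

theorem dL (ho : o = o.rev) (h : Rt i j) (hj : Rt j o) (hi : Rt i o) {g : HQ n p}
    (hg : Sup g (TL i j o)) : D g j.rev i.rev = -D g i j ∧ D g o j.rev = -D g j o ∧
      2 * D g j j.rev = -D g j o ^ 2 ∧ D g o i.rev = -D g i o + D g i j * D g j o := by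
  have r := @Fin.rev_rev (2 * n + 3)
  have a1 := hg.dual (i := i) (j := j) fun m => by
    simp only [TL, Rt] at *
    grind
  have a2 := hg.dual (i := j) (j := o) fun m => by
    simp only [TL, Rt] at *
    grind
  have a3 := hg.rel1 (i := j) (j := j.rev) o fun m => by
    simp only [TL, Rt] at *
    grind
  have a4 := hg.rel1 (i := i) (j := o) j.rev fun m => by
    simp only [TL, Rt] at *
    grind
  simp only [r, ← ho] at a2 a3 a4
  rw [a2] at a3
  rw [a1] at a4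
  exact ⟨a1, a2, by linear_combination a3, by linear_combination a4⟩

theorem rtL (h : Rt i j) : Rt i j.rev := by
  have r := @Fin.rev_rev (2 * n + 3)
  simp only [Rt] at *
  grind

/-- The data for a long and a short root. -/
def dat2 (hp : p ≠ 2) (ho : o = o.rev) (h : Rt i j) (hj : Rt j o) (hi : Rt i o) :
    H2 p (HQ n p) :=
  have r := @Fin.rev_rev (2 * n + 3)
  have T := trL ho h hj hi
  have sp : ∀ {g : HQ n p}, g ∈ NS p T → Sup g (TL i j o) := fun hg => ((mem_NS T _).1 hg).2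
  have w1 : ∀ m, ¬ (TL i j o i m ∧ TL i j o m j) := fun m => by
    simp only [TL, Rt] at *
    grind
  have w2 : ∀ m, ¬ (TL i j o j m ∧ TL i j o m o) := fun m => by
    simp only [TL, Rt] at *
    grind
  have w3 : ∀ m, m ∉ ({j} : Finset (Ix n)) → ¬ (TL i j o i m ∧ TL i j o m o) := fun m => by
    simp only [TL, Rt, Finset.mem_singleton] at *
    grind
  have w4 : (∀ a b, Pos i j a b → TL i j o a b) ∧ ¬ Pos i j j o ∧ ¬ Pos i j i o := by
    simp only [TL, Rt, Pos] at *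
    grind
  have w5 : (∀ a b, Pos j o a b → TL i j o a b) ∧ ¬ Pos j o i j ∧ ¬ Pos j o i o := by
    simp only [TL, Rt, Pos] at *
    grind
  have w6 : (∀ a b, Pos i o a b → TL i j o a b) ∧ ¬ Pos i o i j ∧ ¬ Pos i o j o := by
    simp only [TL, Rt, Pos] at *
    grind
  have w7 : wt (kJ {i, j}) i j = 0 ∧ wt (kJ {i}) j o = 0 ∧ wt (kJ {i, j.rev}) i j.rev = 0 ∧
      wt (kJ {i, j.rev}) i o = 1 := by
    simp only [Rt, wt, kJ, Finset.mem_insert, Finset.mem_singleton] at *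
    grind
  have w8 : ∀ a b, TL i j o a b → ¬ 0 < wt (kJ {i, j}) a b →
      (a = i ∧ b = j) ∨ (a = j.rev ∧ b = i.rev) := fun a b => by
    simp only [TL, Rt, wt, kJ, Finset.mem_insert, Finset.mem_singleton] at *
    grind
  have w9 : ∀ a b, TL i j o a b → ¬ 0 < wt (kJ {i}) a b →
      (a = j ∧ b = o) ∨ (a = o ∧ b = j.rev) ∨ (a = j ∧ b = j.rev) := fun a b => by
    simp only [TL, Rt, wt, kJ, Finset.mem_singleton] at *
    grind
  have wa : ∀ a b, Pos i j.rev a b → TL i j o a b := fun a b => by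
    simp only [TL, Rt, Pos] at *
    grind
  have wb : ∀ a m b, ¬ (Pos i o a m ∧ Pos i j.rev m b) ∧ ¬ (Pos i j.rev a m ∧ Pos i o m b) :=
    fun a m b => by
      simp only [Rt, Pos] at *
      grind
  { Nn := NS p T
    Z := U p (rtL h)
    co g := (D g i j, D g j o, D g i o)
    u₁ s := ur h s
    u₂ s := ur hj s
    u₃ s := ur hi s
    l := (p : ℚ_[p]) ^ (1 : ℤ)
    T₁ := dg p (kJ {i, j})
    T₂ := dg p (kJ {i})
    T₃ := dg p (kJ {i, j.rev})
    cN := NS_cpt _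
    cZ := U_cpt _
    ZN := fun g ⟨s, hs, e⟩ => e ▸ ur_NS hp T _ wa hs
    cco := (D_cont _ _).prodMk ((D_cont _ _).prodMk (D_cont _ _))
    c1 := ur_cont _
    c2 := ur_cont _
    c3 := ur_cont _
    mul g hg g' hg' := by
      simp only [(sp hg).add (sp hg') w1, (sp hg).add (sp hg') w2, (sp hg).mul (sp hg') _ w3,
        Finset.sum_singleton]
    int g hg :=
      have h := ((mem_NS T g).1 hg).1
      ⟨h _ _, h _ _, h _ _⟩
    o1 s hs := ⟨ur_NS hp T h w4.1 hs, by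
      rw [D_ur_self, ur_sup h s _ _ w4.2.1, ur_sup h s _ _ w4.2.2]⟩
    o2 s hs := ⟨ur_NS hp T hj w5.1 hs, by
      rw [D_ur_self, ur_sup hj s _ _ w5.2.1, ur_sup hj s _ _ w5.2.2]⟩
    o3 s hs := ⟨ur_NS hp T hi w6.1 hs, by
      rw [D_ur_self, ur_sup hi _ _ _ w6.2.1, ur_sup hi _ _ _ w6.2.2]⟩
    ker g hg e := by
      simp only [Prod.mk_eq_zero] at e
      obtain ⟨d1, d2, d3, d4⟩ := dL ho h hj hi (sp hg)
      simp only [e.1, e.2.1, e.2.2, neg_zero, mul_zero, add_zero, ne_eq, OfNat.ofNat_ne_zero,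
        not_false_eq_true, zero_pow, mul_eq_zero, false_or] at d1 d2 d3 d4
      refine ⟨_, ((mem_NS T g).1 hg).1 i j.rev, eq_ur' _ g fun a b q1 q2 q3 => ?_⟩
      by_cases q : TL i j o a b
      · rw [r] at q2
        rcases q with ⟨rfl, rfl | rfl | rfl | rfl⟩ | ⟨rfl, rfl | rfl | rfl⟩ | ⟨rfl, rfl | rfl⟩ |
          ⟨rfl, rfl⟩
        exacts [e.1, e.2.2, (q1 ⟨rfl, rfl⟩).elim, (q3 ⟨rfl, rfl⟩).elim, e.2.1, d3,
          (q2 ⟨rfl, rfl⟩).elim, d2, d4, d1]
      · exact sp hg a b q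
    add s t := ur_add _ s t
    com z hz s _ := by
      obtain ⟨t, -, rfl⟩ := hz
      refine D_ext fun a b => ?_
      rw [(ur_sup _ s).add (ur_sup _ t) fun m => (wb a m b).1,
        (ur_sup _ t).add (ur_sup _ s) fun m => (wb a m b).2, add_comm]
    hl := n_p
    t1 s := dg_comm _ _ w7.1 _
    t2 s := dg_comm _ _ w7.2.1 _
    t3 z hz := by
      obtain ⟨t, -, rfl⟩ := hz
      exact dg_comm _ _ w7.2.2.1 _
    t4 s := by rw [dg_ur, w7.2.2.2]
    k1 := contr _ fun g hg => N_sub hg.1 fun a b q q' => by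
      have e : D g i j = 0 := hg.2
      rcases w8 a b q q' with ⟨rfl, rfl⟩ | ⟨rfl, rfl⟩
      · exact e
      · rw [(dL ho h hj hi (sp hg.1)).1, e, neg_zero]
    k2 := contr _ fun g hg => N_sub hg.1 fun a b q q' => by
      have e : D g j o = 0 := hg.2
      obtain ⟨-, d1, d3, -⟩ := dL ho h hj hi (sp hg.1)
      rcases w9 a b q q' with ⟨rfl, rfl⟩ | ⟨rfl, rfl⟩ | ⟨rfl, rfl⟩
      · exact e
      · rw [d1, e, neg_zero]
      · simpa [e] using d3
    k3 := contr _ fun g ⟨s, hs, e⟩ => e ▸ ur_N hp _ (by omega) hs }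

end EKS

open EKS

/-- Two orthogonal short roots give the long root between them. -/
theorem ekS (hC : CondStmt) (hT : TowerStmt) (hP : ProdStmt) (hL : LevStmt) (hH : HeisStmt)
    (hp : p ≠ 2) (S : Sp n p) (ν : Measure S.X) [IsProbabilityMeasure ν] {i j : Ix n}
    (hi : Rt i (ctr n)) (hj : Rt j (ctr n)) (h : Rt i j.rev) (κ₁ κ₂ κ₃ : Kernel S.X (HQ n p))
    (hA : S.AInv ν) (k1 : IsCond (U p hi) ν κ₁) (k2 : IsCond (U p hj) ν κ₂)
    (k3 : IsCond (U p h) ν κ₃) : ∀ᵐ x ∂ν, κ₁ x ≠ Measure.dirac 1 → κ₂ x ≠ Measure.dirac 1 →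
      ∀ u ∈ U p h, (κ₃ x).map (u * ·) = κ₃ x :=
  core2 hC hT hP hL hH ν (dat1 hp ctr_rev.symm hi hj h) _ _ _ (fun _ => Iff.rfl)
    (fun _ => Iff.rfl) (U_unit h (by simp)) κ₁ κ₂ κ₃ (hA _) (hA _) (hA _) k1 k2 k3

/-- A long and a short root at an obtuse angle give their sum. -/
theorem ekL (hC : CondStmt) (hT : TowerStmt) (hP : ProdStmt) (hL : LevStmt) (hH : HeisStmt)
    (hp : p ≠ 2) (S : Sp n p) (ν : Measure S.X) [IsProbabilityMeasure ν] {i j : Ix n}
    (h : Rt i j) (hj : Rt j (ctr n)) (hi : Rt i (ctr n)) (κ₁ κ₂ κ₃ : Kernel S.X (HQ n p))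
    (hA : S.AInv ν) (k1 : IsCond (U p h) ν κ₁) (k2 : IsCond (U p hj) ν κ₂)
    (k3 : IsCond (U p hi) ν κ₃) : ∀ᵐ x ∂ν, κ₁ x ≠ Measure.dirac 1 → κ₂ x ≠ Measure.dirac 1 →
      ∀ u ∈ U p hi, (κ₃ x).map (u * ·) = κ₃ x :=
  core2 hC hT hP hL hH ν (dat2 hp ctr_rev.symm h hj hi) _ _ _ (fun _ => Iff.rfl)
    (fun _ => Iff.rfl) (fun _ => Iff.rfl) κ₁ κ₂ κ₃ (hA _) (hA _) (hA _) k1 k2 k3

end Pool.Agent.Lib.MP_9177b7_ag.SO
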