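import Pool.Agent.Lib.MP_9177b7_ag.SO.Rel

/-!
Sections for the unipotent radicals of `SO_{2 n + 3}(ℚ_p)`.
-/

open MeasureTheory ProbabilityTheory Filter Topology Set Matrix

namespace Pool.Agent.Lib.MP_9177b7_ag.SO

open B (IsCond ProdStmt LevStmt)

variable {n p : ℕ} [Fact p.Prime]

namespace Sec

variable {i j : Ix n} {T : Ix n → Ix n → Prop} {k : Ix n → ℤ}

/-- The root `(i, j)` can be split off from the positions `T` by the weight `k`. -/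
def Pl (T : Ix n → Ix n → Prop) (k : Ix n → ℤ) (i j : Ix n) : Prop :=
  wt k i j = 0 ∧ (∀ a b, Pos i j a b → T a b) ∧ ∀ a b, T a b → Pos i j a b ∨ 0 < wt k a b

theorem Pl.two (H : Pl T k i j) {a b c d : Ix n} (e : wt k a b + wt k c d = 0)
    (h : T a b ∧ T c d) : Pos i j a b ∧ Pos i j c d := by
  have z : ∀ a b, Pos i j a b → wt k a b = 0 := fun a b q => by
    have := wt_pos k q
    have := H.1
    omega
  rcases H.2.2 a b h.1 with q | q <;> rcases H.2.2 c d h.2 with r | r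
  · exact ⟨q, r⟩
  · have := z _ _ q
    omega
  · have := z _ _ r
    omega
  · omega

theorem Pl.ad (H : Pl T k i j) (h : Rt i j) (m : Ix n) : ¬ (T i m ∧ T m j) := fun q => by
  have := H.two ((wt_add k i m j).symm.trans H.1) q
  simp only [Pos, Rt, ne_eq, Fin.ext_iff, Fin.val_rev] at h this
  omega

theorem Pl.zero (H : Pl T k i j) (h : Rt i j) {g : HQ n p} (hg : Sup g T) (e : D g i j = 0)
    (a b : Ix n) (q : Pos i j a b) : D g a b = 0 := by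
  have d : D g j.rev i.rev = 0 := by
    rw [hg.dual fun m q => ?_, e, neg_zero]
    have := H.two (a := m) (b := i.rev) (c := m.rev) (d := j) (by
      rw [← H.1]
      simp only [wt, Fin.rev_rev]
      ring) q
    simp only [Pos, Rt, ne_eq, Fin.ext_iff, Fin.val_rev] at h this
    omega
  rcases q with ⟨rfl, rfl⟩ | ⟨rfl, rfl⟩ | ⟨r, rfl, rfl⟩
  · exact e
  · exact d
  · have := hg.rel1 (i := i) (j := i.rev) j.rev fun m hm q => by
      have := H.two (a := m) (b := i.rev) (c := m.rev) (d := i.rev) (by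
        rw [← mul_zero 2, ← H.1, ← wt_sq k i r]
        simp only [wt, Fin.rev_rev]
        ring) q
      simp only [Pos, Rt, ne_eq, Fin.ext_iff, Fin.val_rev] at h this hm
      omega
    rw [Fin.rev_rev, d] at this
    linear_combination this / 2

/-- One root is removed. -/
theorem peel (hP : ProdStmt) (hL : LevStmt) (hp : p ≠ 2) (S : Sp n p) (ν : Measure S.X)
    [IsProbabilityMeasure ν] (h : Rt i j) (κ : Kernel S.X (HQ n p)) (hA : S.AInv ν)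
    (hκ : IsCond (U p h) ν κ) (hT : Tr T) (H : Pl T k i j) :
    ∃ Z : Set S.X, MeasurableSet Z ∧ (∀ᵐ x ∂ν, κ x = Measure.dirac 1 → x ∈ Z) ∧
      ∀ g ∈ NS p hT, ∀ x ∈ Z, g • x ∈ Z → ∀ a b, Pos i j a b → D g a b = 0 := by
  have ad : ∀ {g g' : HQ n p}, g ∈ NS p hT → g' ∈ NS p hT →
      D (g * g') i j = D g i j + D g' i j := fun hg hg' =>
    ((mem_NS hT _).1 hg).2.add ((mem_NS hT _).1 hg').2 (H.ad h)
  obtain ⟨X', x1, x2, y1, y2⟩ := hP (HQ n p) S.X ν (U p h) κ (dg p k)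
    {w | w ∈ NS p hT ∧ D w i j = 0} (U_cpt h) hκ (hA k) (by
      rintro _ ⟨s, -, rfl⟩
      exact dg_comm k h H.1 s) (by
      rintro _ ⟨s, hs, rfl⟩ w hw
      have m := ur_NS hp hT h H.2.1 hs
      have m' := inv_mem m
      refine ⟨mul_mem (mul_mem m hw.1) m', ?_⟩
      rw [ad (mul_mem m hw.1) m', ad m hw.1, ur_inv, D_ur_self, D_ur_self, hw.2]
      ring) (contr k fun w hw => N_sub hw.1 fun a b q r =>
        H.zero h ((mem_NS hT _).1 hw.1).2 hw.2 a b ((H.2.2 a b q).resolve_right r))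
  refine ⟨{x | κ x = Measure.dirac 1} ∩ X', (hL (HQ n p) S.X ν _ _ (U_cpt h) hκ).1.inter x1,
    x2.mono fun x a b => ⟨b, a⟩, fun g hg x hx hgx => ?_⟩
  have l : ‖-D g i j‖ ≤ 1 := by rw [norm_neg]; exact ((mem_NS hT g).1 hg).1 i j
  have m : ur h (-D g i j) ∈ U p h := ⟨_, l, rfl⟩
  have m' := ur_NS hp hT h H.2.1 l
  have w0 : D (ur h (-D g i j) * g) i j = 0 := by rw [ad m' hg, D_ur_self, neg_add_cancel]
  have e1 := y2 _ ⟨mul_mem m' hg, w0⟩ x hx.2 (mul_smul _ g x ▸ y1 _ m _ hgx.2)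
  rw [mul_smul, hκ.equi _ m, hgx.1, hx.1, Measure.map_dirac' (measurable_mul_const _),
    dirac_eq_dirac_iff, one_mul, inv_eq_one] at e1
  rw [e1, one_mul] at w0
  exact H.zero h ((mem_NS hT g).1 hg).2 w0

/-- A family of roots is removed. -/
theorem peels (hP : ProdStmt) (hL : LevStmt) (hp : p ≠ 2) (S : Sp n p) (ν : Measure S.X)
    [IsProbabilityMeasure ν] (κ : ∀ i j : Ix n, Rt i j → Kernel S.X (HQ n p)) (hA : S.AInv ν)
    (hκ : ∀ i j h, IsCond (U p h) ν (κ i j h)) (hT : Tr T) (R : Ix n → Ix n → Prop)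
    (H : ∀ i j, Rt i j → R i j → ∃ k, Pl T k i j) :
    ∃ Z : Set S.X, MeasurableSet Z ∧
      (∀ᵐ x ∂ν, (∀ i j h, R i j → κ i j h x = Measure.dirac 1) → x ∈ Z) ∧
      ∀ g ∈ NS p hT, ∀ x ∈ Z, g • x ∈ Z → ∀ i j, Rt i j → R i j → ∀ a b, Pos i j a b →
        D g a b = 0 := by
  choose Z z1 z2 z3 using fun i j (h : Rt i j) (r : R i j) =>
    peel hP hL hp S ν h (κ i j h) hA (hκ i j h) hT (H i j h r).choose_spec
  refine ⟨⋂ i, ⋂ j, ⋂ h, ⋂ r, Z i j h r,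
    .iInter fun i => .iInter fun j => .iInter fun h => .iInter fun r => z1 i j h r, ?_,
    fun g hg x hx hgx i j h r => ?_⟩
  · filter_upwards [ae_all_iff.2 fun i => ae_all_iff.2 fun j => ae_all_iff.2 fun h =>
      ae_all_iff.2 fun r => z2 i j h r] with x hx e
    simp only [mem_iInter]
    exact fun i j h r => hx i j h r (e i j h r)
  · simp only [mem_iInter] at hx hgx
    exact z3 i j h r g hg x (hx i j h r) (hgx i j h r)

variable {J : Finset (Ix n)}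

theorem pl1 (hJ : ∀ i ∈ J, i.rev ∉ J) (h1 : i ∈ J) (h2 : j ∉ J) (h3 : j.rev ∉ J) (h4 : j ≠ j.rev) :
    Pl (fun a b => 0 < wt (kJ J) a b) (fun a => if a = i ∨ a = j then 1 else 2 * kJ J a) i j := by
  have r := @Fin.rev_rev (2 * n + 3)
  refine ⟨?_, fun a b => ?_, fun a b => ?_⟩ <;> simp only [wt, kJ, Pos] <;> grind

/-- The positions that remain after the long roots of level one are removed. -/
def T2 (J : Finset (Ix n)) (a b : Ix n) : Prop :=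
  (a ∈ J ∧ (b = b.rev ∨ b.rev ∈ J)) ∨ (a = a.rev ∧ b.rev ∈ J)

theorem tr2 (hJ : ∀ i ∈ J, i.rev ∉ J) : Tr (T2 J) := fun a b c => by
  have r := @Fin.rev_rev (2 * n + 3)
  simp only [T2]
  grind

theorem pl2 (hJ : ∀ i ∈ J, i.rev ∉ J) (h1 : i ∈ J) (h4 : j = j.rev) :
    Pl (T2 J) (fun a => if a = i then 0 else kJ J a) i j := by
  have r := @Fin.rev_rev (2 * n + 3)
  have u : ∀ a : Ix n, a = a.rev → a = j := fun a e => (eq_rev.1 e).trans (eq_rev.1 h4).symm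
  refine ⟨?_, fun a b => ?_, fun a b => ?_⟩ <;> simp only [wt, kJ, Pos, T2] <;> grind

/-- The positions of the long roots of level two. -/
def T3 (J : Finset (Ix n)) (a b : Ix n) : Prop := a ∈ J ∧ b.rev ∈ J ∧ b ≠ a.rev

theorem tr3 (hJ : ∀ i ∈ J, i.rev ∉ J) : Tr (T3 J) := fun a b c => by
  simp only [T3]
  grind

theorem pl3 (hJ : ∀ i ∈ J, i.rev ∉ J) (h1 : i ∈ J) (h2 : j.rev ∈ J) (h3 : j ≠ i.rev) :
    Pl (T3 J) (fun a => if a = i ∨ a = j then 1 else if a = j.rev then 0 else 2 * kJ J a) i j := by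
  have r := @Fin.rev_rev (2 * n + 3)
  refine ⟨?_, fun a b => ?_, fun a b => ?_⟩ <;> simp only [wt, kJ, Pos, T3] <;> grind

end Sec

open Sec

/-- A section modulo the part of level two. -/
theorem secRel (hP : ProdStmt) (hL : LevStmt) (hp : p ≠ 2) (S : Sp n p) (ν : Measure S.X)
    [IsProbabilityMeasure ν] (κ : ∀ i j : Ix n, Rt i j → Kernel S.X (HQ n p)) (hA : S.AInv ν)
    (hκ : ∀ i j h, IsCond (U p h) ν (κ i j h)) (J : Finset (Ix n)) (hJ : ∀ i ∈ J, i.rev ∉ J) :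
    ∃ Z : Set S.X, MeasurableSet Z ∧
      (∀ᵐ x ∂ν, (∀ i j h, i ∈ J → j ∉ J → j.rev ∉ J → κ i j h x = Measure.dirac 1) → x ∈ Z) ∧
      ∀ g ∈ N p (kJ J), ∀ x ∈ Z, g • x ∈ Z → g ∈ V p (kJ J) := by
  have r := @Fin.rev_rev (2 * n + 3)
  obtain ⟨Z₁, m1, a1, z1⟩ := peels hP hL hp S ν κ hA hκ (tr_wt (kJ J) le_rfl)
    (fun i j => i ∈ J ∧ j ∉ J ∧ j.rev ∉ J ∧ j ≠ j.rev)
    fun i j _ q => ⟨_, pl1 hJ q.1 q.2.1 q.2.2.1 q.2.2.2⟩
  obtain ⟨Z₂, m2, a2, z2⟩ := peels hP hL hp S ν κ hA hκ (tr2 hJ)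
    (fun i j => i ∈ J ∧ j = j.rev) fun i j _ q => ⟨_, pl2 hJ q.1 q.2⟩
  refine ⟨Z₁ ∩ Z₂, m1.inter m2, ?_, fun g hg x hx hgx => ?_⟩
  · filter_upwards [a1, a2] with x u v e
    exact ⟨u fun i j h q => e i j h q.1 q.2.1 q.2.2.1, v fun i j h q =>
      e i j h q.1 (fun a => hJ j a (q.2 ▸ a)) fun a => hJ j (q.2 ▸ a) a⟩
  have g2 : g ∈ NS p (tr2 hJ) := NS_sub _ hg fun a b q1 q2 => by
    by_cases c : a ∈ J
    · refine z1 g hg x hx.1 hgx.1 a b ?_ ?_ a b (.inl ⟨rfl, rfl⟩) <;>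
        simp only [wt, kJ, T2, Rt] at q1 q2 ⊢ <;> grind
    · refine z1 g hg x hx.1 hgx.1 b.rev a.rev ?_ ?_ a b (.inr (.inl ⟨r a, r b⟩)) <;>
        simp only [wt, kJ, T2, Rt] at q1 q2 ⊢ <;> grind
  refine NS_sub _ g2 fun a b q1 q2 => ?_
  by_cases c : a ∈ J
  · refine z2 g g2 x hx.2 hgx.2 a b ?_ ?_ a b (.inl ⟨rfl, rfl⟩) <;>
      simp only [wt, kJ, T2, Rt] at q1 q2 ⊢ <;> grind
  · refine z2 g g2 x hx.2 hgx.2 b.rev a.rev ?_ ?_ a b (.inr (.inl ⟨r a, r b⟩)) <;>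
      simp only [wt, kJ, T2, Rt] at q1 q2 ⊢ <;> grind

/-- A section for the part of level two. -/
theorem secAbs (hP : ProdStmt) (hL : LevStmt) (hp : p ≠ 2) (S : Sp n p) (ν : Measure S.X)
    [IsProbabilityMeasure ν] (κ : ∀ i j : Ix n, Rt i j → Kernel S.X (HQ n p)) (hA : S.AInv ν)
    (hκ : ∀ i j h, IsCond (U p h) ν (κ i j h)) (J : Finset (Ix n)) (hJ : ∀ i ∈ J, i.rev ∉ J) :
    ∃ Z : Set S.X, MeasurableSet Z ∧
      (∀ᵐ x ∂ν, (∀ i j h, i ∈ J → j.rev ∈ J → κ i j h x = Measure.dirac 1) → x ∈ Z) ∧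
      ∀ g ∈ V p (kJ J), ∀ x ∈ Z, g • x ∈ Z → g = 1 := by
  have r := @Fin.rev_rev (2 * n + 3)
  obtain ⟨Z, m1, a1, z1⟩ := peels hP hL hp S ν κ hA hκ (tr3 hJ)
    (fun i j => i ∈ J ∧ j.rev ∈ J) fun i j h q => ⟨_, pl3 hJ q.1 q.2 h.2.2⟩
  refine ⟨Z, m1, a1.mono fun x u e => u fun i j h q => e i j h q.1 q.2, fun g hg x hx hgx => ?_⟩
  have g3 : g ∈ NS p (tr3 hJ) := NS_sub _ hg fun a b q1 q2 => by
    obtain rfl : b = a.rev := by
      simp only [wt, kJ, T3] at q1 q2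
      grind
    have := ((mem_NS _ g).1 hg).2.dual (i := a) (j := a.rev) fun m => by
      simp only [wt, kJ]
      grind
    rw [r] at this
    linear_combination this / 2
  refine D_ext fun a b => ?_
  rw [D_one]
  by_cases c : T3 J a b
  · refine z1 g g3 x hx hgx a b ?_ ⟨c.1, c.2.1⟩ a b (.inl ⟨rfl, rfl⟩)
    simp only [T3, Rt] at c ⊢
    grind
  · exact ((mem_NS _ g).1 g3).2 a b c

end Pool.Agent.Lib.MP_9177b7_ag.SO
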