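import Pool.Agent.Lib.MP_9177b7_ag.SO.Rel5
import Pool.Agent.Lib.MP_9177b7_ag.SO.Sec
import Pool.Agent.Lib.MP_9177b7_ag.SO.EK
import Pool.Agent.Lib.MP_9177b7_ag.B.Cond
import Pool.Agent.Lib.MP_9177b7_ag.B.Tower
import Pool.Agent.Lib.MP_9177b7_ag.B.Prod
import Pool.Agent.Lib.MP_9177b7_ag.B.Hopf
import Pool.Agent.Lib.MP_9177b7_ag.B.Lev
import Pool.Agent.Lib.MP_9177b7_ag.B.Heis

/-!
The measure classification for `SO_{2 n + 3}(ℚ_p)`.
-/

open MeasureTheory ProbabilityTheory Filter Topology Set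

noncomputable section

namespace Pool.Agent.Lib.MP_9177b7_ag.SO

open B (IsCond)
open S4 (p0 pz_le)

variable {n : ℕ}

namespace Dyn

theorem comb (R : Ix n → Ix n → Prop) (hd : ∀ i j, Rt i j → j ≠ ctr n → R i j → R j.rev i.rev)
    (hL : ∀ i j, Rt i j → j ≠ ctr n → R i j → R j (ctr n) → R i (ctr n))
    (h1 : ∀ J : Finset (Ix n), J.Nonempty → (∀ i ∈ J, i.rev ∉ J) →
      ∃ i ∈ J, ∃ j ∉ J, Rt i j ∧ R i j)
    (h2 : ∀ I : Finset (Ix n), Adm I → ∃ i ∈ I, ∃ j ∉ I, R i j) :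
    ∀ i, i ≠ ctr n → R i (ctr n) := by
  classical
  have rv : ∀ i : Ix n, i ≠ ctr n → i.rev ≠ ctr n := fun i h e =>
    h (by rw [← Fin.rev_rev i, e, ctr_rev])
  have a : ∀ i, i ≠ ctr n → R i.rev (ctr n) → R i (ctr n) := fun i₀ a b => by
    by_contra c
    obtain ⟨i, hi, j, hj, r, e⟩ := h1
      (Finset.univ.filter fun i => i ≠ ctr n ∧ ¬ R i (ctr n) ∧ R i.rev (ctr n))
      ⟨i₀, by simp [a, b, c]⟩ fun i hi h =>
        (Finset.mem_filter.1 h).2.2.1 (Finset.mem_filter.1 hi).2.2.2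
    obtain ⟨-, i1, i2, i3⟩ := Finset.mem_filter.1 hi
    have j0 : j ≠ ctr n := fun q => i2 (q ▸ e)
    have j1 := hL _ _ (r.dual fun q => j0 (eq_rev.1 q)) (rv i i1) (hd i j r j0 e) i3
    exact i2 (hL i j r j0 e (by_contra fun q => hj (by simp [j0, j1, q])))
  intro i₀ b
  by_contra c
  have s : ∀ i, i ≠ ctr n → ¬ R i (ctr n) →
      i.rev ∈ Finset.univ.filter fun i => i ≠ ctr n ∧ ¬ R i (ctr n) := fun i i1 i2 =>
    Finset.mem_filter.2 ⟨Finset.mem_univ _, rv i i1, fun q => i2 (a i i1 q)⟩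
  obtain ⟨i, hi, j, hj, e⟩ := h2 (Finset.univ.filter fun i => i ≠ ctr n ∧ ¬ R i (ctr n))
    ⟨⟨i₀, by simp [b, c]⟩, fun i hi => by
      obtain ⟨-, i1, i2⟩ := Finset.mem_filter.1 hi
      exact ⟨s i i1 i2, fun q => i1 (eq_rev.1 q.symm)⟩⟩
  obtain ⟨-, i1, i2⟩ := Finset.mem_filter.1 hi
  have j0 : j ≠ ctr n := fun q => i2 (q ▸ e)
  exact i2 (hL i j ⟨fun q => hj (q ▸ hi), fun q => i1 (eq_rev.1 q), fun q => hj (q ▸ s i i1 i2)⟩
    j0 e (by_contra fun q => hj (by simp [j0, q])))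

theorem op {J : Finset (Ix n)} (hJ : ∀ i ∈ J, i.rev ∉ J) :
    Op (kJ J) (kJ (J.image Fin.rev)) (J ∪ J.image Fin.rev) := by
  have m : ∀ i : Ix n, i ∈ J.image Fin.rev ↔ i.rev ∈ J := fun i => by
    simp only [Finset.mem_image, Fin.rev_eq_iff, exists_eq_right]
  refine ⟨fun i => ?_, fun i => ?_, fun i => ?_⟩
  · simp only [kJ]
    split_ifs <;> simp
  · simp only [kJ, m, Fin.rev_rev]
    ring
  · have := hJ i
    simp only [kJ, Finset.mem_union, m]
    split_ifs <;> simp_all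

variable {p : ℕ} [Fact p.Prime] {S : Sp n p} {ν : Measure S.X} {i j : Ix n}

theorem U_conj {k : Ix n → ℤ} {g : HQ n p} (h : Rt i j) (w : 0 ≤ wt k i j) (hg : g ∈ U p h) :
    dg p k * g * (dg p k)⁻¹ ∈ U p h := by
  obtain ⟨s, hs, rfl⟩ := hg
  refine ⟨_, ?_, dg_ur k h s⟩
  rw [norm_mul, Padic.norm_p_zpow]
  exact mul_le_one₀ (by simpa using pz_le (p := p) w) (norm_nonneg _) hs

theorem nul [IsFiniteMeasure ν] (hA : S.AInv ν) (hT : S.Tube ν) (k : Ix n → ℤ) (I : Finset (Ix n))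
    (hI : Adm I) (hk : ∀ i j, ¬ (i ∈ I ↔ j ∈ I) → wt k i j ≠ 0) {D Z : Set S.X}
    (mD : MeasurableSet D) (iD : ∀ᵐ x ∂ν, dg p k • x ∈ D ↔ x ∈ D) (mZ : MeasurableSet Z)
    (DZ : ∀ᵐ x ∂ν, x ∈ D → x ∈ Z) (sZ : ∀ g ∈ N p k, ∀ x ∈ Z, g • x ∈ Z → g = 1) : ν D = 0 := by
  obtain ⟨O, hO, C₀, c, hc, h⟩ := hT
  exact Measure.restrict_eq_zero.1 (bow S _ k I Z hI hk
    (restr (hA k) mD iD) ⟨O, hO, C₀, c, hc, fun I h1 k x =>
      (Measure.restrict_le_self _).trans (h I h1 k x)⟩ mZ ((ae_restrict_iff' mD).2 DZ) sZ)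

theorem not_dirac (h : Rt i j) {μ : Measure (HQ n p)}
    (hμ : ∀ u ∈ U p h, μ.map (u * ·) = μ) : μ ≠ Measure.dirac 1 := by
  rintro rfl
  have := hμ (ur h 1) ⟨1, by simp, rfl⟩
  rw [Measure.map_dirac' (measurable_const_mul _), dirac_eq_dirac_iff, mul_one] at this
  simpa [D_ur_self, D_one] using congrArg (fun u : HQ n p => D u i j) this

end Dyn

open Dyn

theorem dyn : DynStmt := by
  intro n p _ S ν _ n1 p2 hA hT
  classical
  have hC := B.cond
  have hW := B.tower hC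
  have hP := B.prod_stmt hW B.hopf
  have hL := B.lev hC hW
  have rr := @Fin.rev_rev (2 * n + 3)
  have ex : ∀ V : Subgroup (HQ n p), ∃ κ, IsCompact (V : Set (HQ n p)) → IsCond V ν κ := fun V => by
    by_cases h : IsCompact (V : Set (HQ n p))
    · exact (hC _ S.X ν V h).1.imp fun _ h _ => h
    · exact ⟨0, fun h' => absurd h' h⟩
  choose κ hκ using ex
  have hκ := fun (i j : Ix n) (h : Rt i j) => hκ _ (U_cpt h)
  have L := fun {i j : Ix n} (h : Rt i j) => hL _ S.X ν _ _ (U_cpt h) (hκ i j h)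
  let t : ∀ {i j : Ix n}, Rt i j → Set S.X := fun h => {x | κ (U p h) x = Measure.dirac 1}
  have it : ∀ (k) {i j : Ix n} (h : Rt i j), ∀ᵐ x ∂ν, dg p k • x ∈ t h ↔ x ∈ t h := fun k i j h => by
    rcases le_total 0 (wt k i j) with w | w
    · exact ((L h).2.2.2.2 _ (hA k) fun u hu => U_conj h w hu).1
    · have := ((L h).2.2.2.2 _ (hA ((-1 : ℤ) • k)) fun u hu =>
        U_conj h (by rw [wt_smul]; omega) hu).1
      rw [← dg_inv] at this
      exact (ae_inv (f := fun x => x ∈ t h) (hA k) (this.mono fun x hx => propext hx)).mono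
        fun x hx => iff_of_eq hx
  let E : Finset (Ix n) → Set S.X := fun J => ⋂ i ∈ J, ⋂ j ∉ J, ⋂ h : Rt i j, t h
  have mE : ∀ J, MeasurableSet (E J) := fun J =>
    .iInter fun i => .iInter fun _ => .iInter fun j => .iInter fun _ => .iInter fun h => (L h).1
  have iE : ∀ k J, ∀ᵐ x ∂ν, dg p k • x ∈ E J ↔ x ∈ E J := fun k J => by
    filter_upwards [ae_all_iff.2 fun i => ae_all_iff.2 fun j => ae_all_iff.2 fun h : Rt i j =>
      it k h] with x hx
    simp only [E, mem_iInter, hx]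
  have eE : ∀ {J x}, x ∈ E J ↔ ∀ i ∈ J, ∀ j ∉ J, ∀ h : Rt i j, x ∈ t h := fun {J x} => by
    simp only [E, mem_iInter]
  have mi : ∀ (J : Finset (Ix n)) (i : Ix n), i ∈ J.image Fin.rev ↔ i.rev ∈ J := fun J i => by
    simp only [Finset.mem_image, Fin.rev_eq_iff, exists_eq_right]
  have a3 : ∀ J : Finset (Ix n), J.Nonempty → (∀ i ∈ J, i.rev ∉ J) → ν (E J) = 0 := fun J J0 hJ => by
    obtain ⟨Z, z1, z2, z3⟩ := secRel hP hL p2 S ν _ hA hκ J hJ
    obtain ⟨Z', y1, y2, y3⟩ := secAbs hP hL p2 S ν _ hA hκ J hJ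
    refine nul hA hT (kJ J) (J ∪ J.image Fin.rev) ⟨J0.mono Finset.subset_union_left, fun i => ?_⟩
      (fun i j => ?_) (mE J) (iE _ J) (z1.inter y1) ?_
      fun g hg x hx e => y3 g (z3 g hg x hx.1 e.1) x hx.2 e.2
    · simp only [Finset.mem_union, mi]
      grind
    · simp only [Finset.mem_union, mi, wt, kJ]
      grind
    · filter_upwards [z2, y2] with x u v e
      exact ⟨u fun i j h a b _ => eE.1 e i a j b h,
        v fun i j h a b => eE.1 e i a j (fun c => hJ j c b) h⟩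
  have a4 : ∀ I : Finset (Ix n), Adm I → ν (E I) = 0 := fun I hI => by
    let J := I.filter fun i => i < i.rev
    have mJ : ∀ i, i ∈ J ↔ i ∈ I ∧ i < i.rev := fun i => Finset.mem_filter
    have h0 := hI.2
    have hJ : ∀ i ∈ J, i.rev ∉ J := by grind
    have e : J ∪ J.image Fin.rev = I := by
      ext i
      simp only [Finset.mem_union, mi]
      grind
    obtain ⟨Z, z1, z2, z3⟩ := secRel hP hL p2 S ν _ hA hκ J hJ
    obtain ⟨Z', y1, y2, y3⟩ := secRel hP hL p2 S ν _ hA hκ (J.image Fin.rev) (by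
      simp only [mi]
      grind)
    refine short hC hW hA hT (e ▸ op hJ) hI (mE I) (iE _ I) z1 (z2.mono fun x u q => u ?_) z3 y1
      (y2.mono fun x u q => u ?_) y3
    · exact fun i j h a b c => eE.1 q i (by grind) j (by grind) h
    · simp only [mi]
      exact fun i j h a b c => eE.1 q i (by grind) j (by grind) h
  have a1 := fun (i j : Ix n) (hi : Rt i (ctr n)) (hj : Rt j (ctr n)) (h : Rt i j.rev) =>
    ekS hC hW hP hL B.heis p2 S ν hi hj h _ _ _ hA (hκ _ _ hi) (hκ _ _ hj) (hκ _ _ h)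
  have a2 := fun (i j : Ix n) (h : Rt i j) (hj : Rt j (ctr n)) (hi : Rt i (ctr n)) =>
    ekL hC hW hP hL B.heis p2 S ν h hj hi _ _ _ hA (hκ _ _ h) (hκ _ _ hj) (hκ _ _ hi)
  have al : ∀ᵐ x ∂ν, ∀ i (h : Rt i (ctr n)), x ∉ t h := by
    filter_upwards [ae_all_iff.2 fun i => ae_all_iff.2 fun j => ae_all_iff.2 fun h =>
      ae_all_iff.2 fun h' => ae_all_iff.2 (a2 i j h h'),
      ae_all_iff.2 fun J => ae_all_iff.2 fun h => ae_all_iff.2 fun h' =>
        measure_eq_zero_iff_ae_notMem.1 (a3 J h h'),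
      ae_all_iff.2 fun I => ae_all_iff.2 fun h => measure_eq_zero_iff_ae_notMem.1 (a4 I h)]
      with x h2 h3 h4 i h
    refine (comb (fun i j => ∃ h : Rt i j, x ∉ t h) (fun i j h c ⟨_, r⟩ => ?_)
      (fun i j h c ⟨_, r⟩ ⟨q, r'⟩ => ?_) (fun J a b => ?_) (fun I a => ?_) i h.1).2
    · have c' : j ≠ j.rev := fun e => c (eq_rev.1 e)
      exact ⟨h.dual c', fun e => r (show κ _ x = _ from U_dual (p := p) h c' ▸ e)⟩
    · have q' := rt_ctr fun e : i = ctr n => h.2.1 (eq_rev.2 e)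
      exact ⟨q', not_dirac _ (h2 i j h q q' r r')⟩
    · have := h3 J a b
      simp only [eE, not_forall] at this
      obtain ⟨i, c, j, d, h, e⟩ := this
      exact ⟨i, c, j, d, h, h, e⟩
    · have := h4 I a
      simp only [eE, not_forall] at this
      obtain ⟨i, c, j, d, h, e⟩ := this
      exact ⟨i, c, j, d, h, e⟩
  have lg : ∀ (i j : Ix n) (h : Rt i j), j ≠ ctr n →
      ∀ᵐ x ∂ν, ∀ u ∈ U p h, (κ (U p h) x).map (u * ·) = κ (U p h) x := fun i j h c => by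
    obtain ⟨j, rfl⟩ := Fin.rev_surjective j
    have q := rt_ctr fun e : i = ctr n => h.2.1 (eq_rev.2 e)
    have q' := rt_ctr fun e : j = ctr n => c (by rw [e, ctr_rev])
    filter_upwards [al, a1 i j q q' h] with x h1 h2
    exact h2 (h1 _ q) (h1 _ q')
  have inv : ∀ (i j : Ix n) (h : Rt i j), ∀ u ∈ U p h, u ∈ stab ν := fun i j h => by
    refine (L h).2.2.2.1 ?_
    by_cases c : j = ctr n
    swap
    · exact lg i j h c
    subst c
    obtain ⟨j, r, c⟩ : ∃ j, Rt i j ∧ j ≠ ctr n := by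
      by_cases q : i = 0 ∨ i.rev = 0
      · refine ⟨1, ?_⟩
        simp only [Rt, ne_eq, Fin.ext_iff, Fin.val_rev, ctr, Fin.val_one, Fin.val_zero] at *
        omega
      · refine ⟨0, ?_⟩
        simp only [Rt, ne_eq, Fin.ext_iff, Fin.val_rev, ctr, Fin.val_zero] at *
        omega
    filter_upwards [al, lg i j r c, a2 i j r (rt_ctr c) h] with x h1 h2 h3
    exact h3 (not_dirac r h2) (h1 _ _)
  intro g i j hg
  have h := hg.rt
  rw [hg.eq_ur]
  generalize D g i j = s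
  have hk : 0 < wt (kJ {i}) i j := by
    simp only [wt, kJ, Rt, Finset.mem_singleton] at h ⊢
    grind
  generalize kJ {i} = k at hk
  obtain ⟨m, hm⟩ := pow_unbounded_of_one_lt ‖s‖ (p1 (p := p))
  have e := dg_ur ((m : ℤ) • k) h s
  have hd : dg p ((m : ℤ) • k) ∈ stab ν := hA _
  refine (mul_mem_cancel_left hd).1 ((mul_mem_cancel_right (inv_mem hd)).1 (inv i j h _ ⟨_, ?_, e⟩))
  rw [norm_mul, Padic.norm_p_zpow, wt_smul]
  refine (mul_le_mul (pz_le (le_mul_of_one_le_right (Int.natCast_nonneg m) hk)) hm.le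
    (norm_nonneg _) (zpow_pos p0 _).le).trans_eq ?_
  rw [zpow_neg, zpow_natCast, inv_mul_cancel₀ (pow_pos p0 m).ne']

end Pool.Agent.Lib.MP_9177b7_ag.SO
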