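import Pool.Agent.Lib.MP_9177b7_ag.SO.StB

/-!
Identities for Eichler transvections and the torus of a hyperbolic plane.
-/

open Matrix

namespace Pool.Agent.Lib.MP_9177b7_ag.SO

namespace Eich

variable {ι R : Type} [Fintype ι] [DecidableEq ι] [CommRing R] {B : Matrix ι ι R}

omit [DecidableEq ι]

theorem add_l (x y z : ι → R) : bf B (x + y) z = bf B x z + bf B y z := add_dotProduct _ _ _

theorem sub_l (x y z : ι → R) : bf B (x - y) z = bf B x z - bf B y z := sub_dotProduct _ _ _

theorem smul_l (c : R) (x z : ι → R) : bf B (c • x) z = c * bf B x z := smul_dotProduct _ _ _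

theorem add_r (x y z : ι → R) : bf B z (x + y) = bf B z x + bf B z y := by
  rw [bf, mulVec_add, dotProduct_add]; rfl

theorem sub_r (x y z : ι → R) : bf B z (x - y) = bf B z x - bf B z y := by
  rw [bf, mulVec_sub, dotProduct_sub]; rfl

theorem smul_r (c : R) (x z : ι → R) : bf B z (c • x) = c * bf B z x := by
  rw [bf, mulVec_smul, dotProduct_smul]; rfl

theorem comm (h : Bᵀ = B) (x y : ι → R) : bf B x y = bf B y x := by
  rw [bf, bf, dotProduct_mulVec, ← mulVec_transpose, h, dotProduct_comm]

theorem rk (a b x : ι → R) : (vecMulVec a b * B) *ᵥ x = bf B b x • a := by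
  rw [← mulVec_mulVec, vecMulVec_mulVec, bf, op_smul_eq_smul]

theorem bf_mul (g : Matrix ι ι R) (x y : ι → R) :
    bf B (g *ᵥ x) (g *ᵥ y) = x ⬝ᵥ (gᵀ * B * g) *ᵥ y := by
  rw [bf, ← mulVec_mulVec, ← mulVec_mulVec, dotProduct_mulVec x, vecMul_transpose]

variable [DecidableEq ι]

theorem ei_app (u v x : ι → R) (q : R) :
    ei B u v q *ᵥ x = x + bf B u x • v - bf B v x • u - (q * bf B u x) • u := by
  rw [ei, add_mulVec, one_mulVec, sub_mul, sub_mul, sub_mulVec, sub_mulVec, smul_mul_assoc,
    smul_mulVec, rk, rk, rk, mul_smul]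
  abel

theorem dt_app (u v x : ι → R) (t t' : R) :
    dt B u v t t' *ᵥ x = x + ((t - 1) * bf B v x) • u + ((t' - 1) * bf B u x) • v := by
  rw [dt, add_mulVec, one_mulVec, add_mul, add_mulVec, smul_mul_assoc, smul_mul_assoc,
    smul_mulVec, smul_mulVec, rk, rk, mul_smul, mul_smul, add_assoc]

theorem ex {g h : Matrix ι ι R} (e : ∀ x, g *ᵥ x = h *ᵥ x) : g = h := by
  ext i j
  simpa using congrFun (e (Pi.single j 1)) i

theorem ort {g : Matrix ι ι R} (e : ∀ x y, bf B (g *ᵥ x) (g *ᵥ y) = bf B x y) :
    gᵀ * B * g = B := by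
  ext i j
  have := e (Pi.single i 1) (Pi.single j 1)
  rw [bf_mul, bf] at this
  simpa using this

theorem det_rk (a b : ι → R) : (1 + vecMulVec a b * B).det = 1 + bf B b a := by
  rw [vecMulVec_mul, vecMulVec_eq Unit, det_one_add_replicateCol_mul_replicateRow, bf,
    dotProduct_mulVec]

theorem rk_app (a b x : ι → R) : (1 + vecMulVec a b * B) *ᵥ x = x + bf B b x • a := by
  rw [add_mulVec, one_mulVec, rk]

end Eich

open Eich in
theorem eich : EichStmt := by
  intro N R _ B hB
  refine ⟨fun u v q uu uv vv => ?_, fun u w t t' ⟨uu, ww, uw⟩ ht => ?_⟩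
  · have vu := (comm hB v u).trans uv
    refine ⟨ort fun x y => ?_, ?_, fun v' q' uv' => ex fun x => ?_⟩
    · simp only [ei_app, add_l, sub_l, smul_l, add_r, sub_r, smul_r, uu, uv, vu, vv, comm hB x u,
        comm hB x v]
      ring
    · have e : ei B u v q = (1 + vecMulVec (-u) v * B) * (1 + vecMulVec (v + q • u) u * B) := by
        refine ex fun x => ?_
        simp only [← mulVec_mulVec, ei_app, rk_app, add_r, smul_r, vu, vv]
        module
      rw [e, det_mul, det_rk, det_rk, ← neg_one_smul R u]
      simp only [add_r, smul_r, uu, uv, vu]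
      ring
    · simp only [← mulVec_mulVec, ei_app, add_l, add_r, sub_r, smul_r, uu, uv', vu]
      module
  · have wu := (comm hB w u).trans uw
    refine ⟨ort fun x y => ?_, ?_, fun s s' => ex fun x => ?_, fun v q ⟨uv, wv, _⟩ => ?_⟩
    · simp only [dt_app, add_l, smul_l, add_r, smul_r, uu, uw, wu, ww, comm hB x u, comm hB x w]
      linear_combination (bf B w x * bf B u y + bf B u x * bf B w y) * ht
    · have e : dt B u w t t' = (1 + vecMulVec ((t - 1) • u) w * B) *
          (1 + vecMulVec ((t' - 1) • w) u * B) := by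
        refine ex fun x => ?_
        simp only [← mulVec_mulVec, dt_app, rk_app, add_r, smul_r, ww]
        module
      rw [e, det_mul, det_rk, det_rk, smul_r, smul_r, uw, wu]
      linear_combination ht
    · simp only [← mulVec_mulVec, dt_app, add_r, smul_r, uu, uw, wu, ww]
      module
    · have vu := (comm hB v u).trans uv
      have vw := (comm hB v w).trans wv
      refine ⟨ex fun x => ?_, ex fun x => ?_⟩
      · simp only [← mulVec_mulVec, dt_app, ei_app, smul_l, add_r, sub_r, smul_r, uu, uw, wu, ww,
          uv, wv, vu, vw]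
        match_scalars
        · ring
        · linear_combination (-bf B u x) * ht
        · linear_combination (q * t * bf B u x) * ht
        · ring
      · simp only [← mulVec_mulVec, dt_app, ei_app, smul_l, add_r, sub_r, smul_r, uu, uw, wu, ww,
          uv, wv, vu, vw]
        match_scalars
        · ring
        · linear_combination (-bf B w x) * ht
        · linear_combination (q * t' * bf B w x) * ht
        · ring

end Pool.Agent.Lib.MP_9177b7_ag.SO
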