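import Pool.Agent.Lib.MP_9177b7_ag.SO.StB
import Pool.Agent.Lib.MP_9177b7_ag.B.Main

/-!
Assembly: tightness, small tubes for every limit, measure classification, uniqueness.
-/

open MeasureTheory Filter Topology Set
open scoped ENNReal BoundedContinuousFunction

noncomputable section

namespace Pool.Agent.Lib.MP_9177b7_ag.SO

namespace Equi

/-- The stabiliser of a measure. -/
def stab {G X : Type} [Group G] [MulAction G X] [MeasurableSpace X]
    (hm : ∀ g : G, Measurable fun x : X => g • x) (μ : Measure X) : Subgroup G where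
  carrier := {g | μ.map (g • ·) = μ}
  one_mem' := by simp
  mul_mem' {g h} hg hh := by
    change μ.map _ = μ
    conv_rhs => rw [← hg, ← hh, Measure.map_map (hm g) (hm h)]
    congr 1
    exact funext fun x => mul_smul g h x
  inv_mem' {g} hg := by
    change μ.map _ = μ
    conv_lhs => rw [← hg, Measure.map_map (hm _) (hm g)]
    simp [Function.comp_def]

theorem adm (n : ℕ) : Adm ({0, Fin.rev 0} : Finset (Ix n)) := by
  have e : Fin.rev (0 : Ix n) ≠ 0 := fun h => by simpa using congrArg Fin.val h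
  refine ⟨Finset.insert_nonempty _ _, fun i hi => ?_⟩
  rcases Finset.mem_insert.1 hi with rfl | hi
  · exact ⟨Finset.mem_insert_of_mem (Finset.mem_singleton_self _), e⟩
  · rw [Finset.mem_singleton.1 hi, Fin.rev_rev]
    exact ⟨Finset.mem_insert_self _ _, e.symm⟩

theorem dg_diag {n p : ℕ} [Fact p.Prime] (k : Ix n → ℤ) (i j : Ix n) (h : i ≠ j) :
    (dg p k).1.1 i j = 0 := Matrix.diagonal_apply_ne _ h

end Equi

open B.Main Equi in
theorem equi (hD : DiscStmt) (hR : DensRStmt) (hU : UnimodStmt) (hT : TubeStmt) (hJ : GenJStmt)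
    (hy : DynStmt) : EquiStmt := by
  intro n p _ c π ν₀ hπ hν₀ hA hC
  have hp : (1 : ℝ) < p := by exact_mod_cast (Fact.out : p.Prime).one_lt
  have hp0 : (0 : ℝ) < p := by linarith
  obtain ⟨-, -, -, -, -, -, -, -, -, d1, d2, d3, d4, hf⟩ := hD n p c
  obtain ⟨T1, -, R, ⟨O, hO, T2⟩, T3⟩ := hT n p c
  obtain ⟨U1, U2, U3⟩ := hU n p c
  let ν : ℕ → ProbabilityMeasure c.XX := fun m => ⟨ν₀ m, hν₀ m⟩
  obtain ⟨C₀, hC₀⟩ := hC R
  obtain ⟨C, hC0, h⟩ : ∃ C : ℝ, 0 < C ∧ ∀ k K₀ : ℕ, 4 ≤ k → 1 ≤ K₀ → ∀ᶠ m in atTop, ∀ I, Adm I →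
      ∀ c₀, (ν m : Measure c.XX) (c.WW I c₀ k R K₀) ≤
        ENNReal.ofReal (C * (p : ℝ) ^ (-(k : ℝ) / 4) / K₀) :=
    ⟨max C₀ 1, lt_max_of_lt_right one_pos, fun k K₀ hk hK => (hC₀ k K₀ hk hK).mono
      fun m hm I hI c₀ => (hm I hI c₀).trans
        (ENNReal.ofReal_le_ofReal (by gcongr; exact le_max_left _ _))⟩
  have := U1 Measure.haar
  have := U2 Measure.haar
  have := U3 Measure.haar
  have uq := (J.uniq c.GG (HQ n p) (GR c.A) (ContinuousMulEquiv.refl _) c.Gp Measure.haar
    Measure.haar (hR n p c)).2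
  have uq' := (J.uniq (GR c.A) (GR c.A) Unit (eU _) (G1 c.A) Measure.haar Measure.haar
    (fun g => subset_closure ⟨g, 1, one_mem _, (mul_one g).symm⟩)).2
  refine (lim_of_unique ν
    (fun μ => ∀ h : HQ n p, (μ : Measure c.XX).map (((h, 1) : c.GG) • ·) = μ) ?_ ?_ ?_).elim
      fun μ ⟨hμ, hlim'⟩ => ?_
  rotate_right
  · have hG := (uq μ μ inferInstance inferInstance hμ hμ).2
    have hπm : Measurable π := hπ.cont.measurable
    have : IsProbabilityMeasure ((μ : Measure c.XX).map π) :=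
      Measure.isProbabilityMeasure_map hπm.aemeasurable
    have inv : ∀ g : GR c.A, ((μ : Measure c.XX).map π).map (g • ·) =
        (μ : Measure c.XX).map π := fun g => by
      conv_rhs => rw [← hG (1, g)]
      rw [Measure.map_map (continuous_const_smul g).measurable hπm,
        Measure.map_map hπm (continuous_const_smul _).measurable]
      congr 1
      exact funext fun x => (hπ.smul g x).symm
    rw [← BorelSpace.measurable_eq (α := YY c.A)]
    refine ⟨(μ : Measure c.XX).map π, fun lam => ⟨fun ⟨h1, h2⟩ => ?_, ?_⟩, fun f => ?_⟩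
    · have : IsProbabilityMeasure lam := ⟨h1⟩
      rw [(uq' _ lam inferInstance inferInstance inv h2).1, h1, one_smul]
    · rintro rfl
      exact ⟨measure_univ, inv⟩
    · rw [integral_map hπm.aemeasurable f.continuous.aestronglyMeasurable]
      exact ProbabilityMeasure.tendsto_iff_forall_integral_tendsto.1 hlim'
        (f.compContinuous ⟨π, hπ.cont⟩)
  · intro ε hε
    obtain ⟨K₀, hK⟩ := exists_nat_ge (max 1 (C * p ^ 3 / ε))
    have hK1 : (1 : ℝ) ≤ K₀ := (le_max_left _ _).trans hK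
    obtain ⟨Q, hQ, hQ'⟩ := T3 {0, Fin.rev 0} 4 K₀
    refine ⟨Q, hQ, ?_⟩
    filter_upwards [h 4 K₀ le_rfl (by exact_mod_cast hK1)] with m hm
    calc (ν m : Measure c.XX) Qᶜ
        ≤ (ν m : Measure c.XX)
            (⋃ c₀ ∈ Finset.range (p ^ 4), c.WW {0, Fin.rev 0} (c₀ : ℕ) 4 R K₀) :=
          measure_mono fun x hx => by
            obtain ⟨c₀, h1, h2⟩ := (hQ' x).resolve_left hx
            exact mem_biUnion (Finset.mem_coe.2 h1) h2
      _ ≤ ∑ c₀ ∈ Finset.range (p ^ 4),
            (ν m : Measure c.XX) (c.WW {0, Fin.rev 0} (c₀ : ℕ) 4 R K₀) :=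
          measure_biUnion_finset_le _ _
      _ ≤ ∑ _c₀ ∈ Finset.range (p ^ 4),
            ENNReal.ofReal (C * (p : ℝ) ^ (-((4 : ℕ) : ℝ) / 4) / K₀) :=
          Finset.sum_le_sum fun c₀ _ => hm _ (adm n) _
      _ ≤ _ := by
          rw [← ENNReal.ofReal_sum_of_nonneg fun _ _ => by positivity]
          refine ENNReal.ofReal_le_ofReal ?_
          have e : (p : ℝ) ^ (-((4 : ℕ) : ℝ) / 4) = (p : ℝ)⁻¹ := by
            rw [← Real.rpow_neg_one]; norm_num
          have h2 : C * p ^ 3 ≤ K₀ * ε := (div_le_iff₀ hε).1 ((le_max_right _ _).trans hK)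
          rw [Finset.sum_const, Finset.card_range, nsmul_eq_mul, e]
          push_cast
          calc _ = C * p ^ 3 / K₀ := by field_simp
            _ ≤ _ := by rw [div_le_iff₀ (by linarith)]; linarith
  · intro ms μ hms hμ
    have hd : ∀ h : HQ n p, (∀ i j, i ≠ j → h.1.1 i j = 0) →
        (μ : Measure c.XX).map (((h, 1) : c.GG) • ·) = μ := fun h hh =>
      lim_inv hμ (continuous_const_smul ((h, 1) : c.GG)) fun m => hA (ms m) h hh
    have hr := @hy n p _ (c.sp hf) (μ : Measure c.XX) μ.2 (by have := c.n2; omega) c.p2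
      (fun k => hd _ (dg_diag k)) ⟨O, hO, C + p, 1 / 4, by norm_num, fun I hI k x => ?_⟩
    · intro h
      have := hJ n p ((stab (fun g : c.GG => (continuous_const_smul g).measurable)
        (μ : Measure c.XX)).comap (MonoidHom.inl (HQ n p) (GR c.A))) (fun h i j e => hr h i j e) hd
      exact (this.ge (Subgroup.mem_top h) :)
    · rcases lt_or_ge k 4 with hk | hk
      · refine prob_le_one.trans (ENNReal.one_le_ofReal.2 ?_)
        have e : (p : ℝ) ^ (-1 : ℝ) ≤ (p : ℝ) ^ (-(1 / 4 * k) : ℝ) := by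
          refine Real.rpow_le_rpow_of_exponent_le hp.le ?_
          have : (k : ℝ) ≤ 4 := by exact_mod_cast hk.le
          linarith
        rw [Real.rpow_neg_one] at e
        calc (1 : ℝ) = p * (p : ℝ)⁻¹ := by field_simp
          _ ≤ _ := by gcongr; linarith
      · obtain ⟨c₀, hc₀⟩ := T2 I hI k x
        refine (measure_mono hc₀).trans
          ((lim_open hμ (T1 I c₀ k R 1).1 (hms.eventually
            ((h k 1 hk le_rfl).mono fun m hm => hm I hI c₀))).trans
            (ENNReal.ofReal_le_ofReal ?_))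
        rw [show (-(k : ℝ) / 4) = -(1 / 4 * k) by ring, Nat.cast_one, div_one]
        gcongr
        linarith
  · intro μ μ' h h'
    refine Subtype.ext ?_
    have := (uq μ' μ inferInstance inferInstance h' h).1
    rwa [measure_univ, one_smul] at this

end Pool.Agent.Lib.MP_9177b7_ag.SO
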