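import Pool.Agent.Lib.MP_9177b7_ag.SO.Gen

/-!
The split orthogonal group is generated by its root elements and its diagonal elements.
-/

open Matrix

noncomputable section

namespace Pool.Agent.Lib.MP_9177b7_ag.SO

namespace GenJ

variable {n : ℕ} {F : Type} [Field F]

theorem symm : (Jr n F)ᵀ = Jr n F := by
  ext i j
  simp only [Jr, transpose_apply, of_apply, eq_comm (a := j), Fin.rev_eq_iff]

theorem mulJ (M : Mx n F) (a b : Ix n) : (M * Jr n F) a b = M a b.rev := by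
  simp [Jr, mul_apply, eq_comm (a := b), Fin.rev_eq_iff]

theorem det_ne : (Jr n F).det ≠ 0 :=
  det_ne_zero_of_right_inverse (B := Jr n F) (by
    ext a b
    rw [mulJ]
    simp [Jr, one_apply, eq_comm])

theorem bf_e (a : Ix n) (x : Ix n → F) : bf (Jr n F) (Pi.single a 1) x = x a.rev := by
  simp [bf, Jr, mulVec, dotProduct, Pi.single_apply]

theorem root (hE : EichStmt) (h2 : (2 : F) ≠ 0) (S : Subgroup (Ort (Jr n F)))
    (hS : ∀ (h : Ort (Jr n F)) i j, RootEl i j h.1.1 → h ∈ S) {i : Ix n} (hi : i ≠ i.rev)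
    {v : Ix n → F} {q : F} (a : v i = 0) (b : v i.rev = 0) (c : bf (Jr n F) v v = 2 * q)
    (g : Ort (Jr n F)) (e : g.1.1 = ei (Jr n F) (Pi.single i 1) v q) : g ∈ S := by
  have uu : bf (Jr n F) (Pi.single i 1) (Pi.single i 1) = 0 := by
    rw [bf_e, Pi.single_eq_of_ne hi.symm]
  have hq : ∀ x : Ix n → F, bf (Jr n F) x x = 2 * (bf (Jr n F) x x / 2) := fun x => by field_simp
  have := Finset.sum_induction (s := Finset.univ) (fun j => (Pi.single j (v j) : Ix n → F))
    (fun x => x i.rev = 0 ∧ ∃ g ∈ S, g.1.1 = ei (Jr n F) (Pi.single i 1) x (bf (Jr n F) x x / 2))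
    ?_ ?_ fun j _ => ?_
  · obtain ⟨-, g', m, e'⟩ := this
    rw [Finset.univ_sum_single, c, mul_div_cancel_left₀ _ h2, ← e] at e'
    exact Gen.oe e' ▸ m
  · rintro x y ⟨hx, g, m, e⟩ ⟨hy, h, k, e'⟩
    refine ⟨by simp [hx, hy], g * h, mul_mem m k, ?_⟩
    rw [Gen.cm, e, e', ((hE _ F _ symm).1 _ x _ uu (by rw [bf_e, hx]) (hq x)).2.2 y _
      (by rw [bf_e, hy]), Gen.add_l, Gen.add_r, Gen.add_r, Gen.comm symm y x]
    congr 1
    field_simp
    ring
  · exact ⟨rfl, 1, one_mem _, by simp [ei, bf]⟩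
  · by_cases hj : v j = 0
    · exact ⟨by simp [hj], 1, one_mem _, by simp [ei, bf, hj]⟩
    · have j1 : j ≠ i := fun h => hj (h ▸ a)
      have j2 : j ≠ i.rev := fun h => hj (h ▸ b)
      have z : (Pi.single j (v j) : Ix n → F) i.rev = 0 := Pi.single_eq_of_ne j2.symm _
      have o := (hE _ F _ symm).1 _ _ _ uu (by rw [bf_e, z]) (hq (Pi.single j (v j)))
      refine ⟨z, ⟨⟨_, o.2.1⟩, o.1⟩, hS _ i j.rev ⟨fun h => j2 (by rw [h, Fin.rev_rev]), hi,
        fun h => j1 (Fin.rev_injective h), fun s t h1 h3 h4 => ?_⟩, rfl⟩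
      rw [Fin.rev_rev] at h3
      simp only [← Fin.rev_eq_iff (i := t)] at h1 h3 h4
      have zz : ∀ (k l : Ix n) (x y : F), ¬ (s = k ∧ t.rev = l) →
          (Pi.single k x : Ix n → F) s * (Pi.single l y : Ix n → F) t.rev = 0 := fun k l x y h => by
        rcases not_and_or.1 h with h | h <;> simp [Pi.single_eq_of_ne h]
      simp only [ei, Matrix.add_apply, mulJ, Matrix.sub_apply, Matrix.smul_apply, vecMulVec_apply,
        zz _ _ _ _ h1, zz _ _ _ _ h3, zz _ _ _ _ h4, smul_zero, sub_zero, add_zero]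

end GenJ

open GenJ in
theorem genJ (hE : EichStmt) (hG : GenStmt) : GenJStmt := by
  intro n p _ S h1 h2
  have r : (0 : Ix n) ≠ (0 : Ix n).rev := by
    simp [Fin.ext_iff]
  have hy : Hy (Jr n ℚ_[p]) (Pi.single 0 1) (Pi.single (0 : Ix n).rev 1) :=
    ⟨by rw [bf_e, Pi.single_eq_of_ne r.symm], by rw [bf_e, Fin.rev_rev, Pi.single_eq_of_ne r],
      by rw [bf_e, Pi.single_eq_same]⟩
  refine top_unique fun g _ => ?_
  obtain ⟨d, t, t', -, e, m⟩ := (hG _ _ _ _ _ S two_ne_zero symm det_ne hy (by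
    rintro g v q ⟨a, b, c⟩ (e | e) <;> rw [bf_e] at a b
    · exact root hE two_ne_zero S h1 r (by rwa [Fin.rev_rev] at b) a c g e
    · exact root hE two_ne_zero S h1 (by rw [Fin.rev_rev]; exact r.symm) a b c g e)).1 g
  have := mul_mem (h2 d fun i j h => ?_) m
  · rwa [mul_inv_cancel_left] at this
  · rw [e]
    have zz : ∀ k : Ix n, (Pi.single k 1 : Ix n → ℚ_[p]) i *
        (Pi.single k.rev 1 : Ix n → ℚ_[p]) j.rev = 0 := fun k => by
      by_cases e : i = k
      · rw [Pi.single_eq_of_ne (Fin.rev_injective.ne (e ▸ h.symm)), mul_zero]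
      · rw [Pi.single_eq_of_ne e, zero_mul]
    have z2 := zz (0 : Ix n).rev
    rw [Fin.rev_rev] at z2
    simp only [dt, Matrix.add_apply, mulJ, Matrix.smul_apply, vecMulVec_apply, one_apply_ne h, zz,
      z2, smul_zero, add_zero]

end Pool.Agent.Lib.MP_9177b7_ag.SO
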