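import Pool.Agent.Lib.MP_9177b7_ag.SO.StB
import Pool.Agent.Lib.MP_9177b7_ag.B.Red

/-!
Mahler's compactness criterion and short vectors for the orthogonal group.
-/

open Matrix Finset

noncomputable section

namespace Pool.Agent.Lib.MP_9177b7_ag.SO

namespace Mahler

variable {N : ℕ} {A : Matrix (Fin N) (Fin N) ℤ}

/-- The real vector of a lattice point. -/
def vc (g : GR A) (x : Fin N → ℤ) : Fin N → ℝ := g.1.1 *ᵥ fun a => (x a : ℝ)

lemma vc_smul (g : GR A) (x : Fin N → ℤ) (j : ℤ) : vc g (j • x) = (j : ℝ) • vc g x := by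
  unfold vc
  rw [← mulVec_smul]
  congr 1
  funext a
  simp

lemma basis (A : Matrix (Fin N) (Fin N) ℤ) : ∃ C : ℝ, 1 ≤ C ∧ ∀ g : GR A,
    ∃ U : Matrix (Fin N) (Fin N) ℤ, IsUnit U.det ∧ ∏ k, ‖vc g fun a => U a k‖ ≤ C := by
  obtain ⟨C, C0, hC⟩ := B.Red.red_mat N
  refine ⟨1 + C, by linarith, fun g => ?_⟩
  have dG : g.1.1.det = 1 := g.1.2
  obtain ⟨U, hU, hp⟩ := hC (g.1.1ᵀ * g.1.1) (by
    rw [← conjTranspose_eq_transpose_of_trivial]
    exact PosDef.conjTranspose_mul_self _ (mulVec_injective_of_isUnit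
      ((isUnit_iff_isUnit_det _).2 (by rw [dG]; exact isUnit_one))))
  rw [det_mul, det_transpose, dG, mul_one, mul_one] at hp
  refine ⟨U, hU, ?_⟩
  set Bm := g.1.1 * U.map (Int.castRingHom ℝ) with hB
  set m : Fin N → ℝ := fun k => ‖vc g fun a => U a k‖ with hm
  have m0 : ∀ k, 0 ≤ m k := fun k => norm_nonneg _
  have m2 : ∀ k, m k ^ 2 ≤ B.Red.cg (g.1.1ᵀ * g.1.1) U k k := fun k => by
    have e : B.Red.cg (g.1.1ᵀ * g.1.1) U k k = ∑ i, Bm i k ^ 2 := by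
      have : B.Red.cg (g.1.1ᵀ * g.1.1) U = Bmᵀ * Bm := by
        rw [hB, transpose_mul]
        simp only [B.Red.cg, Matrix.mul_assoc]
        rfl
      rw [this, Matrix.mul_apply]
      simp only [transpose_apply, sq]
    rw [e]
    have s0 : 0 ≤ ∑ i, Bm i k ^ 2 := by positivity
    rw [← Real.le_sqrt (m0 k) s0]
    exact (pi_norm_le_iff_of_nonneg (Real.sqrt_nonneg _)).2 fun i => Real.abs_le_sqrt
      (single_le_sum (f := fun i => Bm i k ^ 2) (fun _ _ => sq_nonneg _) (mem_univ i))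
  have := (prod_le_prod (fun k _ => sq_nonneg (m k)) fun k _ => m2 k).trans hp
  rw [prod_pow] at this
  nlinarith [sq_nonneg (∏ k, m k - 1)]

lemma le_prod {f : Fin N → ℝ} {ε : ℝ} (h0 : 0 < ε) (h : ∀ i, ε ≤ f i) (k : Fin N) :
    f k * ε ^ (N - 1) ≤ ∏ i, f i := by
  rw [← mul_prod_erase _ _ (mem_univ k)]
  refine mul_le_mul_of_nonneg_left ?_ (h0.le.trans (h k))
  have := prod_le_prod (s := univ.erase k) (f := fun _ => ε) (fun _ _ => h0.le) fun i _ => h i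
  simpa using this

lemma col_ne {U : Matrix (Fin N) (Fin N) ℤ} (hU : IsUnit U.det) (k : Fin N) :
    (fun a => U a k) ≠ 0 := fun e =>
  hU.ne_zero (det_eq_zero_of_column_eq_zero k (congrFun e))

lemma cpt (A : Matrix (Fin N) (Fin N) ℤ) (T : ℝ) :
    IsCompact {h : GR A | ∀ i j, |h.1.1 i j| ≤ T} := by
  have e2 := (Matrix.SpecialLinearGroup.isClosedEmbedding_val.comp
    (ortClosed (Am A ℝ)).isClosedEmbedding_subtypeVal).isCompact_preimage
    (isCompact_univ_pi fun _ : Fin N => isCompact_univ_pi fun _ : Fin N =>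
      isCompact_closedBall (0 : ℝ) T)
  refine (congrArg IsCompact (Set.ext fun h => ?_)).mp e2
  exact ⟨fun e i j => mem_closedBall_zero_iff.1 (e i trivial j trivial),
    fun e i _ j _ => mem_closedBall_zero_iff.2 (e i j)⟩

/-- Lattices with a bounded basis form a relatively compact set. -/
lemma bdd (hA : A.det ≠ 0) (T : ℝ) : ∃ Ω : Set (GR A), IsCompact Ω ∧
    ∀ (g : GR A) (U : Matrix (Fin N) (Fin N) ℤ), IsUnit U.det →
    (∀ i k, |(g.1.1 * U.map (Int.castRingHom ℝ)) i k| ≤ T) → ∃ γ ∈ G1 A, g * γ ∈ Ω := by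
  have : NeZero A.det.natAbs := ⟨Int.natAbs_ne_zero.2 hA⟩
  have Am' : A.map (Int.castRingHom ℝ) = Am A ℝ := rfl
  let S : Set (Matrix (Fin N) (Fin N) ℤ) := {U | IsUnit U.det ∧
    ∃ g : GR A, ∀ i k, |(g.1.1 * U.map (Int.castRingHom ℝ)) i k| ≤ T}
  let s : Matrix (Fin N) (Fin N) ℤ →
      (Matrix (Fin N) (Fin N) ℤ × ℤ) × Matrix (Fin N) (Fin N) (ZMod A.det.natAbs) :=
    fun U => ((Uᵀ * A * U, U.det), U.map (Int.cast : ℤ → ZMod A.det.natAbs))
  obtain ⟨L, hL⟩ : ∃ L : ℝ, L = ∑ b, ∑ a, T * |Am A ℝ a b| * T := ⟨_, rfl⟩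
  have hs : (s '' S).Finite := by
    refine (((Set.Finite.pi' fun _ : Fin N => Set.Finite.pi' fun _ : Fin N =>
      Set.finite_Icc (-⌈L⌉) ⌈L⌉).prod (Set.toFinite {1, -1})).prod Set.finite_univ).subset ?_
    rintro _ ⟨U, ⟨hU, g, hg⟩, rfl⟩
    refine ⟨⟨fun i k => ?_, Int.isUnit_iff.1 hU⟩, trivial⟩
    have hG : g.1.1ᵀ * Am A ℝ * g.1.1 = Am A ℝ := g.2
    have e : (((Uᵀ * A * U) i k : ℤ) : ℝ) = ((g.1.1 * U.map (Int.castRingHom ℝ))ᵀ * Am A ℝ *
        (g.1.1 * U.map (Int.castRingHom ℝ))) i k := by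
      change ((Uᵀ * A * U).map (Int.castRingHom ℝ)) i k = _
      rw [Matrix.map_mul, Matrix.map_mul, Am', transpose_map, transpose_mul]
      conv_lhs => rw [← hG]
      simp only [Matrix.mul_assoc]
    generalize g.1.1 * U.map (Int.castRingHom ℝ) = Bm at hg e
    rw [Set.mem_Icc, ← abs_le, ← Int.cast_le (R := ℝ), Int.cast_abs]
    refine le_trans ?_ (Int.le_ceil _)
    change |(((Uᵀ * A * U) i k : ℤ) : ℝ)| ≤ _
    have T0 : 0 ≤ T := (abs_nonneg _).trans (hg i k)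
    rw [e, hL, Matrix.mul_apply]
    refine (abs_sum_le_sum_abs _ _).trans (sum_le_sum fun b _ => ?_)
    rw [Matrix.mul_apply, sum_mul]
    refine (abs_sum_le_sum_abs _ _).trans (sum_le_sum fun a _ => ?_)
    rw [abs_mul, abs_mul, transpose_apply]
    exact mul_le_mul (mul_le_mul_of_nonneg_right (hg a i) (abs_nonneg _)) (hg b k) (abs_nonneg _)
      (by positivity)
  obtain ⟨S', hS, hf, hT⟩ := Set.exists_subset_image_finite_and.1
    (show ∃ t ⊆ s '' S, t.Finite ∧ s '' S ⊆ t from ⟨_, subset_rfl, hs, subset_rfl⟩)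
  refine ⟨_, hf.isCompact_biUnion fun W _ => cpt A (T * ∑ j, ∑ k, |((W⁻¹ k j : ℤ) : ℝ)|),
    fun g U hU hg => ?_⟩
  obtain ⟨W, hW, e⟩ := hT ⟨U, ⟨hU, g, hg⟩, rfl⟩
  have e1 : Wᵀ * A * W = Uᵀ * A * U := congrArg (·.1.1) e
  have e2 : W.det = U.det := congrArg (·.1.2) e
  have e3 : ∀ i j, A.det ∣ U i j - W i j := fun i j => by
    rw [← Int.natAbs_dvd]
    exact (ZMod.intCast_eq_intCast_iff_dvd_sub _ _ _).1 (congrArg (·.2 i j) e)
  choose Z hZ using e3
  have i1 := mul_nonsing_inv W (hS hW).1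
  have d1 : (U * W⁻¹).det = 1 := by rw [det_mul, ← e2, ← det_mul, i1, det_one]
  have d2 : (U * W⁻¹)ᵀ * A * (U * W⁻¹) = A := by
    calc _ = W⁻¹ᵀ * (Uᵀ * A * U) * W⁻¹ := by simp only [transpose_mul, Matrix.mul_assoc]
      _ = (W * W⁻¹)ᵀ * A * (W * W⁻¹) := by
        rw [← e1]; simp only [transpose_mul, Matrix.mul_assoc]
      _ = _ := by rw [i1, transpose_one, one_mul, mul_one]
  have d3 : U * W⁻¹ = 1 + of Z * W⁻¹ * adjugate A * A := by
    have : U = W + A.det • of Z := by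
      ext i j
      rw [Matrix.add_apply, Matrix.smul_apply, of_apply, smul_eq_mul, ← hZ]
      ring
    rw [Matrix.mul_assoc _ _ A, adjugate_mul, Matrix.mul_smul, mul_one, this, add_mul, i1,
      Matrix.smul_mul]
  refine ⟨⟨SpecialLinearGroup.map (Int.castRingHom ℝ) ⟨_, d1⟩, ?_⟩,
    Subgroup.mem_subgroupOf.2 ⟨_, ⟨_, d3⟩, rfl⟩, Set.mem_biUnion hW fun i j => ?_⟩
  · change ((U * W⁻¹).map (Int.castRingHom ℝ))ᵀ * Am A ℝ * (U * W⁻¹).map (Int.castRingHom ℝ) = _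
    rw [← Am', ← transpose_map, ← Matrix.map_mul, ← Matrix.map_mul, d2]
  · change |(g.1.1 * (U * W⁻¹).map (Int.castRingHom ℝ)) i j| ≤ _
    have T0 : 0 ≤ T := (abs_nonneg _).trans (hg i j)
    rw [Matrix.map_mul, ← Matrix.mul_assoc, Matrix.mul_apply]
    refine (abs_sum_le_sum_abs _ _).trans (le_trans ?_ (mul_le_mul_of_nonneg_left
      (single_le_sum (f := fun j => ∑ k, |((W⁻¹ k j : ℤ) : ℝ)|) (fun _ _ => by positivity)
        (mem_univ j)) T0))
    rw [mul_sum]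
    refine sum_le_sum fun k _ => ?_
    rw [abs_mul]
    exact mul_le_mul_of_nonneg_right (hg i k) (abs_nonneg _)

end Mahler

open Mahler in
theorem mahler : B.RedStmt → MahlerStmt := by
  classical
  intro _ n A hA
  obtain ⟨C, C1, hb⟩ := basis A
  refine ⟨C + 1, fun g => ?_, fun K₀ => ?_⟩
  · obtain ⟨U, hU, h⟩ := hb g
    by_cases h1 : ∀ k, 1 ≤ ‖vc g fun a => U a k‖
    · have := (le_prod one_pos h1 0).trans h
      rw [one_pow, mul_one] at this
      exact ⟨_, col_ne hU 0, fun i =>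
        ((norm_le_pi_norm (vc g fun a => U a 0) i).trans this).trans_lt (lt_add_one C)⟩
    · push Not at h1
      obtain ⟨k, hk⟩ := h1
      exact ⟨_, col_ne hU k, fun i =>
        (norm_le_pi_norm (vc g fun a => U a k) i).trans_lt (by linarith)⟩
  obtain ⟨ε, ε0, hε⟩ : ∃ ε : ℝ, 0 < ε ∧ (K₀ + 1) * ε = 1 :=
    ⟨1 / (K₀ + 1), by positivity, by field_simp⟩
  obtain ⟨Ω, hΩ, hg⟩ := bdd hA (C / ε ^ (2 * n + 3 - 1))
  refine ⟨Ω, hΩ, fun g => ?_⟩
  obtain ⟨U, hU, h⟩ := hb g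
  by_cases h1 : ∀ k, ε ≤ ‖vc g fun a => U a k‖
  · refine Or.inl (hg g U hU fun i k => (norm_le_pi_norm (vc g fun a => U a k) i).trans ?_)
    rw [le_div_iff₀ (by positivity)]
    exact (le_prod ε0 h1 k).trans h
  push Not at h1
  obtain ⟨k, hk⟩ := h1
  refine Or.inr ⟨(range K₀).image fun j : ℕ => ((j : ℤ) + 1) • fun a => U a k, ?_, fun v hv => ?_⟩
  · rw [card_image_of_injective, card_range]
    intro i j e
    have := smul_left_injective ℤ (col_ne hU k) e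
    omega
  · obtain ⟨j, hj, rfl⟩ := mem_image.1 hv
    refine ⟨smul_ne_zero (by omega) (col_ne hU k), fun i =>
      (norm_le_pi_norm (vc g (((j : ℤ) + 1) • fun a => U a k)) i).trans_lt ?_⟩
    have j1 : (j : ℝ) ≤ K₀ := by exact_mod_cast (mem_range.1 hj).le
    have j0 : (0 : ℝ) ≤ j := Nat.cast_nonneg j
    rw [vc_smul, norm_smul, Int.cast_add, Int.cast_natCast, Int.cast_one,
      Real.norm_of_nonneg (by positivity)]
    nlinarith [norm_nonneg (vc g fun a => U a k)]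

end Pool.Agent.Lib.MP_9177b7_ag.SO
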