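import Pool.Agent.Lib.MP_9177b7_ag.SO.Disc

/-! The projections onto the real quotient and onto the Shimura variety. -/

open Matrix Filter Topology

noncomputable section

namespace Pool.Agent.Lib.MP_9177b7_ag.SO

open Disc

namespace Proj

variable {N : ℕ} {A : Matrix (Fin N) (Fin N) ℤ}

theorem act_mul (g h : GR A) (v : Per A) : act g (act h v) = act (g * h) v := by
  refine Subtype.ext ?_
  change g.1.1.map Complex.ofRealHom *ᵥ h.1.1.map Complex.ofRealHom *ᵥ v.1 =
    (g.1.1 * h.1.1).map Complex.ofRealHom *ᵥ v.1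
  rw [mulVec_mulVec, Matrix.map_mul]

theorem proj_mk (v₀ : Per A) (g : GR A) (v : Per A) (z : ℂ) (h : v.1 = z • (act g⁻¹ v₀).1) :
    proj v₀ (QuotientGroup.mk g) = Quot.mk _ v := by
  obtain ⟨γ, hγ⟩ := QuotientGroup.mk_out_eq_mul (G1 A) g
  refine Quot.sound ⟨γ, γ.2, z, ?_⟩
  rw [act_mul, hγ, _root_.mul_inv_rev, mul_inv_cancel_left, h]

theorem continuous_proj (v₀ : Per A) : Continuous (proj v₀) := by
  refine (QuotientGroup.isQuotientMap_mk _).continuous_iff.2 ?_
  have e : proj v₀ ∘ QuotientGroup.mk = fun g : GR A => Quot.mk _ (act g⁻¹ v₀) :=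
    funext fun g => proj_mk v₀ g _ 1 (one_smul _ _).symm
  rw [e]
  have c0 : Continuous fun g : GR A => g.1.1 := continuous_subtype_val.comp continuous_subtype_val
  have c1 : Continuous fun g : GR A => g⁻¹.1.1 := c0.comp continuous_inv
  exact continuous_quot_mk.comp
    (((c1.matrix_map Complex.continuous_ofReal).matrix_mulVec continuous_const).subtype_mk _)

end Proj

open Proj in
theorem proj_stmt (hP : DensPStmt) : ProjStmt := by
  refine fun n p _ c => ⟨?_, continuous_proj _, proj_mk _⟩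
  have hr : ∀ x : c.XX, ∃ r : c.GG, Intg r.1 ∧ QuotientGroup.mk r = x := fun x => by
    obtain ⟨γ, hγ, h⟩ := hP n p c x.out.1
    exact ⟨x.out * γ, h, (QuotientGroup.mk_mul_of_mem _ hγ).trans x.out_eq⟩
  choose r rK rx using hr
  have hj : ∀ g : c.GG, Intg g.1 →
      (QuotientGroup.mk (r (QuotientGroup.mk g)).2 : YY c.A) = QuotientGroup.mk g.2 :=
    fun g hg => QuotientGroup.eq.2 (snd_G1 c (QuotientGroup.eq.1 (rx (QuotientGroup.mk g)))
      (intg_mul (intg_inv (rK _)) hg))
  refine ⟨fun x => QuotientGroup.mk (r x).2, ?_, hj, fun g x => ?_⟩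
  · refine (QuotientGroup.isQuotientMap_mk _).continuous_iff.2
      (continuous_iff_continuousAt.2 fun g => ?_)
    obtain ⟨γ, hγ, h⟩ := hP n p c g.1
    have c1 : Continuous fun g' : c.GG => g' * γ := continuous_mul_const γ
    refine (QuotientGroup.continuous_mk.comp (continuous_snd.comp c1)).continuousAt.congr ?_
    filter_upwards [(isOpen_intg.preimage (continuous_fst.comp c1)).mem_nhds h] with g' hg'
    refine (hj (g' * γ) hg').symm.trans ?_
    rw [QuotientGroup.mk_mul_of_mem _ hγ]
    rfl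
  · have e : ((1, g) : c.GG) • x = QuotientGroup.mk (((1, g) : c.GG) * r x) := by
      conv_lhs => rw [← rx x]
      rfl
    rw [e]
    exact hj _ (intg_mul intg_one (rK x))

end Pool.Agent.Lib.MP_9177b7_ag.SO
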