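import Pool.Agent.Lib.MP_9177b7_ag.SO.StB

/-! The discriminant kernel is transitive on isotropic lines modulo `q`. -/

open Matrix

namespace Pool.Agent.Lib.MP_9177b7_ag.SO

namespace Trans

theorem crt {W : Type} [AddCommGroup W] (f : W → ℤ)
    (hf : ∀ (a c : W) (m : ℤ), m ∣ f (a + m • c) - f a) (q : ℕ) (hq : q ≠ 0)
    (h : ∀ l : ℕ, l.Prime → l ∣ q → ∃ a, ¬ (l : ℤ) ∣ f a) : ∃ a, IsCoprime (f a) q := by
  induction q using Nat.recOnPosPrimePosCoprime with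
  | prime_pow p k hp hk =>
    obtain ⟨a, ha⟩ := h p hp (dvd_pow_self p hk.ne')
    refine ⟨a, ?_⟩
    rw [Nat.cast_pow]
    exact ((Nat.prime_iff_prime_int.1 hp).irreducible.coprime_iff_not_dvd.2 ha).symm.pow_right
  | zero => exact (hq rfl).elim
  | one => exact ⟨0, by simpa using isCoprime_one_right⟩
  | coprime m k hm hk hc i1 i2 =>
    obtain ⟨a, ha⟩ := i1 (by omega) fun l hl hd => h l hl (hd.mul_right k)
    obtain ⟨b, hb⟩ := i2 (by omega) fun l hl hd => h l hl (hd.mul_left m)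
    obtain ⟨s, t, hst⟩ := Nat.isCoprime_iff_coprime.2 hc
    have e : a + (m : ℤ) • s • (b - a) = b + (k : ℤ) • t • (a - b) := by
      have e1 : (k : ℤ) * t = 1 - m * s := by linear_combination hst
      rw [smul_smul, smul_smul, e1]
      module
    obtain ⟨x, hx⟩ := hf a (s • (b - a)) m
    obtain ⟨y, hy⟩ := hf b (t • (a - b)) k
    refine ⟨a + (m : ℤ) • s • (b - a), ?_⟩
    rw [Nat.cast_mul]
    refine IsCoprime.mul_right ?_ ?_
    · rw [eq_add_of_sub_eq' hx]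
      exact ha.add_mul_left_left x
    · rw [e, eq_add_of_sub_eq' hy]
      exact hb.add_mul_left_left y

variable {ι : Type} [Fintype ι] [DecidableEq ι]

theorem adj (A : Matrix ι ι ℤ) (x : ι → ℤ) (l : ℤ) (h : ∀ i, l ∣ (A *ᵥ x) i) (i : ι) :
    l ∣ A.det * x i := by
  have e : A.adjugate *ᵥ A *ᵥ x = A.det • x := by
    rw [mulVec_mulVec, adjugate_mul, smul_mulVec, one_mulVec]
  have e1 := congrFun e i
  rw [Pi.smul_apply, smul_eq_mul] at e1
  rw [← e1]
  exact Finset.dvd_sum fun j _ => (h j).mul_left _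

theorem ei_mulVec (A : Matrix ι ι ℤ) (u a x : ι → ℤ) (c : ℤ) (i : ι) :
    (ei A u a c *ᵥ x) i = x i + bf A u x * a i - bf A a x * u i - c * bf A u x * u i := by
  rw [ei, add_mulVec, one_mulVec, ← mulVec_mulVec, sub_mulVec, sub_mulVec, smul_mulVec,
    vecMulVec_mulVec, vecMulVec_mulVec, vecMulVec_mulVec]
  simp only [bf, Pi.add_apply, Pi.sub_apply, Pi.smul_apply, op_smul_eq_mul, smul_eq_mul]
  ring

omit [DecidableEq ι] in
theorem bf_symm {A : Matrix ι ι ℤ} (hA : Aᵀ = A) (u v : ι → ℤ) : bf A u v = bf A v u := by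
  rw [bf, bf, dotProduct_mulVec, dotProduct_comm, ← mulVec_transpose, hA]

omit [DecidableEq ι] in
theorem bf_ort {A g : Matrix ι ι ℤ} (hg : gᵀ * A * g = A) (v : ι → ℤ) :
    bf A (g *ᵥ v) (g *ᵥ v) = bf A v v := by
  rw [bf, bf, ← vecMul_transpose, ← dotProduct_mulVec, vecMul_transpose, mulVec_mulVec,
    mulVec_mulVec, hg]

theorem bf_single (A : Matrix ι ι ℤ) (i : ι) (x : ι → ℤ) :
    bf A (Pi.single i 1) x = (A *ᵥ x) i := by
  rw [bf, single_one_dotProduct]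

variable {n : ℕ} {A : Mx n ℤ}

theorem ne01 : (0 : Ix n) ≠ 1 := fun h => absurd (congrArg Fin.val h) (by simp)

theorem row0 (hA : Lat A) (x : Ix n → ℤ) : (A *ᵥ x) 0 = x 1 := by
  simp [mulVec, dotProduct, hA.row₀]

theorem row1 (hA : Lat A) (x : Ix n → ℤ) : (A *ᵥ x) 1 = x 0 := by
  simp [mulVec, dotProduct, hA.row₁]

/-- vectors orthogonal to the hyperbolic plane. -/
def W (n : ℕ) : AddSubgroup (Ix n → ℤ) where
  carrier := {a | a 0 = 0 ∧ a 1 = 0}
  zero_mem' := ⟨rfl, rfl⟩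
  add_mem' ha hb := ⟨by simp [ha.1, hb.1], by simp [ha.2, hb.2]⟩
  neg_mem' ha := ⟨by simp [ha.1], by simp [ha.2]⟩

theorem single_mem {i : Ix n} (h0 : i ≠ 0) (h1 : i ≠ 1) : Pi.single i (1 : ℤ) ∈ W n :=
  ⟨Pi.single_eq_of_ne h0.symm _, Pi.single_eq_of_ne h1.symm _⟩

theorem loc (hA : Lat A) (v : Ix n → ℤ) {l : ℤ} (hl : Prime l) (h2 : ¬ l ∣ 2) (hd : ¬ l ∣ A.det)
    (hv : ∃ i, ¬ l ∣ v i) :
    ∃ a : W n, ¬ l ∣ v 0 - 2 * bf A a v - 2 * bf A a a * v 1 := by
  by_contra! h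
  have h0 : l ∣ v 0 := by simpa [bf] using h 0
  have h1 : ∀ a : W n, l ∣ bf A a v := fun a => by
    have e := (h (-a)).sub (h a)
    have e1 : l ∣ 2 * (2 * bf A a v) := by
      refine e.trans (dvd_of_eq ?_)
      simp only [bf, AddSubgroup.coe_neg, neg_dotProduct, mulVec_neg, dotProduct_neg]
      ring
    exact (hl.dvd_or_dvd ((hl.dvd_or_dvd e1).resolve_left h2)).resolve_left h2
  have key : ∀ x : Ix n → ℤ, l ∣ x 0 → l ∣ x 1 → (∀ a : W n, l ∣ bf A a x) → ∀ i, l ∣ x i :=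
    fun x x0 x1 hx i => by
      refine (hl.dvd_or_dvd (adj A x l (fun j => ?_) i)).resolve_left hd
      by_cases j0 : j = 0
      · rwa [j0, row0 hA]
      by_cases j1 : j = 1
      · rwa [j1, row1 hA]
      simpa only [bf_single] using hx ⟨_, single_mem j0 j1⟩
  obtain ⟨i, hi⟩ := hv
  by_cases hv1 : l ∣ v 1
  · exact hi (key v h0 hv1 h1 i)
  have h3 : ∀ a : W n, l ∣ bf A a a := fun a => by
    have e := (h0.sub ((h1 a).mul_left 2)).sub (h a)
    have e1 : l ∣ 2 * bf A a a * v 1 := e.trans (dvd_of_eq (by ring))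
    exact (hl.dvd_or_dvd ((hl.dvd_or_dvd e1).resolve_right hv1)).resolve_left h2
  have h4 : ∀ a b : W n, l ∣ bf A a b := fun a b => by
    have e := ((h3 (a + b)).sub (h3 a)).sub (h3 b)
    have e1 : l ∣ 2 * bf A a b := by
      refine e.trans (dvd_of_eq ?_)
      have s := bf_symm hA.symm (a : Ix n → ℤ) b
      simp only [bf, AddSubgroup.coe_add, add_dotProduct, mulVec_add, dotProduct_add] at s ⊢
      linear_combination -s
    exact (hl.dvd_or_dvd e1).resolve_left h2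
  have k0 : (⟨2, by omega⟩ : Ix n) ≠ 0 := fun h => absurd (congrArg Fin.val h) (by simp)
  have k1 : (⟨2, by omega⟩ : Ix n) ≠ 1 := fun h => absurd (congrArg Fin.val h) (by simp)
  have hm := single_mem k0 k1
  have e := key (Pi.single ⟨2, by omega⟩ 1) (by rw [hm.1]; exact dvd_zero l)
    (by rw [hm.2]; exact dvd_zero l) (fun a => h4 a ⟨_, hm⟩) ⟨2, by omega⟩
  rw [Pi.single_eq_same] at e
  exact hl.not_dvd_one e

theorem elt (hE : EichStmt) (hA : Lat A) (u a : Ix n → ℤ) (h1 : bf A u u = 0)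
    (h2 : bf A u a = 0) : ∃ γ ∈ DK A ⊓ Ort A, γ.1 = ei A u ((2 : ℤ) • a) (2 * bf A a a) := by
  obtain ⟨a1, a2, -⟩ := (hE _ ℤ A hA.symm).1 u ((2 : ℤ) • a) (2 * bf A a a) h1
    (by rw [bf, mulVec_smul, dotProduct_smul, ← bf, h2, smul_zero])
    (by simp only [bf, mulVec_smul, dotProduct_smul, smul_dotProduct, smul_eq_mul])
  exact ⟨⟨_, a2⟩, ⟨⟨_, rfl⟩, a1⟩, rfl⟩

theorem last (hA : Lat A) (y : Ix n → ℤ) (q : ℤ) (h : ∀ i, i ≠ 0 → i ≠ 1 → q ∣ y i) :
    q ∣ bf A y y - 2 * y 0 * y 1 := by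
  have e : bf A y y - 2 * y 0 * y 1 = ∑ i, (y i * (A *ᵥ y) i -
      (if i = 0 then y 0 * y 1 else 0) - if i = 1 then y 0 * y 1 else 0) := by
    simp only [Finset.sum_sub_distrib, Finset.sum_ite_eq', Finset.mem_univ, if_true, bf,
      dotProduct]
    ring
  rw [e]
  refine Finset.dvd_sum fun i _ => ?_
  by_cases i0 : i = 0
  · rw [i0, row0 hA, if_pos rfl, if_neg ne01, sub_self, sub_zero]
    exact dvd_zero q
  by_cases i1 : i = 1
  · rw [i1, row1 hA, if_pos rfl, if_neg ne01.symm, sub_zero, mul_comm, sub_self]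
    exact dvd_zero q
  rw [if_neg i0, if_neg i1, sub_zero, sub_zero]
  exact (h i i0 i1).mul_right _

end Trans

open SO.Trans in
theorem trans : EichStmt → TransStmt := by
  intro hE n A q v hA hq hv hd
  have hq2 : q.Coprime 2 := hq.coprime_mul_right_right
  have hqd : q.Coprime A.det.natAbs := hq.coprime_mul_left_right
  have q0 : q ≠ 0 := by
    rintro rfl
    simp at hq2
  obtain ⟨a, ha⟩ := crt (fun a : W n => v 0 - 2 * bf A a v - 2 * bf A a a * v 1)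
    (fun a c m => ⟨-(2 * bf A c v) - 2 * (bf A a c + bf A c a + m * bf A c c) * v 1, by
      simp only [bf, AddSubgroup.coe_add, AddSubgroup.coe_zsmul, add_dotProduct, mulVec_add,
        dotProduct_add, mulVec_smul, dotProduct_smul, smul_dotProduct, smul_eq_mul]
      ring⟩) q q0 fun l hl hlq => loc hA v (Nat.prime_iff_prime_int.1 hl)
      (fun h => hl.one_lt.ne' (Nat.eq_one_of_dvd_coprimes hq2 hlq (by exact_mod_cast h)))
      (fun h => hl.one_lt.ne' (Nat.eq_one_of_dvd_coprimes hqd hlq (Int.natCast_dvd.1 h)))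
      (hv l hl hlq)
  obtain ⟨γ, hγ, e⟩ := elt hE hA (Pi.single 0 1) a
    (by rw [bf_single, row0 hA, Pi.single_eq_of_ne ne01.symm])
    (by rw [bf_single, row0 hA, a.2.2])
  obtain ⟨x, hx⟩ : ∃ x, x = γ.1 *ᵥ v := ⟨_, rfl⟩
  have x0 : IsCoprime (x 0) q := by
    convert ha using 1
    rw [hx, e, ei_mulVec, bf_single, row0 hA, Pi.smul_apply, a.2.1, Pi.single_eq_same, bf,
      smul_dotProduct, ← bf]
    simp only [smul_eq_mul]
    ring
  have x2 : IsCoprime (2 * x 0) q :=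
    IsCoprime.mul_left (Nat.isCoprime_iff_coprime.2 hq2).symm x0
  obtain ⟨s, t, hst⟩ := id x2
  obtain ⟨b, hb⟩ : ∃ b : Ix n → ℤ, b = fun i => if i = 0 ∨ i = 1 then 0 else -(s * x i) :=
    ⟨_, rfl⟩
  have b0 : b 0 = 0 := by simp [hb]
  obtain ⟨δ, hδ, e'⟩ := elt hE hA (Pi.single 1 1) b
    (by rw [bf_single, row1 hA, Pi.single_eq_of_ne ne01])
    (by rw [bf_single, row1 hA, b0])
  obtain ⟨y, hy⟩ : ∃ y, y = δ.1 *ᵥ x := ⟨_, rfl⟩
  have y0 : y 0 = x 0 := by
    rw [hy, e', ei_mulVec, Pi.smul_apply, b0, Pi.single_eq_of_ne ne01]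
    simp
  have yi : ∀ i, i ≠ 0 → i ≠ 1 → (q : ℤ) ∣ y i := fun i i0 i1 => ⟨t * x i, by
    rw [hy, e', ei_mulVec, bf_single, row1 hA, Pi.smul_apply, Pi.single_eq_of_ne i1, hb]
    simp only [i0, i1, or_self, if_false, smul_eq_mul]
    linear_combination -x i * hst⟩
  have yy : bf A y y = bf A v v := by rw [hy, bf_ort hδ.2, hx, bf_ort hγ.2]
  have y1 : (q : ℤ) ∣ y 1 := by
    have h := (yy ▸ hd).sub (last hA y q yi)
    rw [sub_sub_cancel, y0] at h
    exact x2.symm.dvd_of_dvd_mul_left h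
  have ey : (δ * γ).1 *ᵥ v = y := by
    rw [hy, hx, mulVec_mulVec]
    rfl
  refine ⟨δ * γ, mul_mem hδ hγ, ?_, fun i i0 => ?_⟩
  · rwa [ey, y0]
  · rw [ey]
    by_cases i1 : i = 1
    · rwa [i1]
    · exact yi i i0 i1

end Pool.Agent.Lib.MP_9177b7_ag.SO
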