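import Pool.Agent.Lib.MP_9177b7_ag.SO.StB

/-!
Tubes and neighbourhoods of the cusp are covered by the sets `WW`.
-/

open Matrix Filter Topology

noncomputable section

namespace Pool.Agent.Lib.MP_9177b7_ag.SO

namespace Tube

variable {n : ℕ}

section alg

variable {R S : Type} [CommRing R] [CommRing S]

theorem mv_map (f : R →+* S) (I : Finset (Ix n)) (x : Ix n → R) :
    f (mv I x) = mv I (f ∘ x) := by
  simp [mv]

theorem Jr_map (f : R →+* S) : (Jr n R).map f = Jr n S := by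
  ext i j
  simp [Jr, apply_ite f]

theorem mv_eq (I : Finset (Ix n)) (x : Ix n → R) :
    mv I x = (diagonal fun i => if i ∈ I then 1 else 0) *ᵥ x ⬝ᵥ Jr n R *ᵥ x := by
  simp [mv, Jr, dotProduct, mulVec, diagonal_apply]

theorem mv_mul (I : Finset (Ix n)) {h : Mx n R} (hh : hᵀ * Jr n R * h = Jr n R)
    (hz : ∀ a b, ¬ (a ∈ I ↔ b ∈ I) → h a b = 0) (x : Ix n → R) : mv I (h *ᵥ x) = mv I x := by
  have e : (diagonal fun i => if i ∈ I then (1 : R) else 0) * h =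
      h * diagonal fun i => if i ∈ I then (1 : R) else 0 := by
    ext a b
    rw [diagonal_mul, mul_diagonal]
    by_cases hab : a ∈ I ↔ b ∈ I
    · simp only [hab, mul_comm]
    · rw [hz a b hab, mul_zero, zero_mul]
  rw [mv_eq, mv_eq, mulVec_mulVec, e, ← mulVec_mulVec, ← vecMul_transpose h, mulVec_mulVec,
    ← dotProduct_mulVec, mulVec_mulVec, ← Matrix.mul_assoc, hh]

end alg

variable {p : ℕ} [Fact p.Prime]

theorem isOpen_le {X : Type} [TopologicalSpace X] {f : X → ℚ_[p]} (hf : Continuous f) {r : ℝ}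
    (hr : r ≠ 0) : IsOpen {x | ‖f x‖ ≤ r} := by
  have := (IsUltrametricDist.isOpen_closedBall (0 : ℚ_[p]) hr).preimage hf
  simpa [Set.preimage] using this

theorem int_of {x : ℚ} (hx : x ∈ J.RM p) (h : ‖(x : ℚ_[p])‖ ≤ 1) : ∃ z : ℤ, x = z := by
  obtain ⟨k, z, e⟩ := hx
  have hp : (p : ℚ) ≠ 0 := Nat.cast_ne_zero.2 (Fact.out : p.Prime).ne_zero
  have e' : (z : ℚ_[p]) = x * (p : ℚ_[p]) ^ k := by
    exact_mod_cast congrArg (Rat.cast (K := ℚ_[p])) e.symm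
  have h1 : ‖(z : ℚ_[p])‖ ≤ (p : ℝ) ^ (-(k : ℤ)) := by
    rw [e', norm_mul, Padic.norm_p_pow]
    exact mul_le_of_le_one_left (by positivity) h
  obtain ⟨w, rfl⟩ := (Padic.norm_int_le_pow_iff_dvd z k).1 h1
  refine ⟨w, mul_right_cancel₀ (pow_ne_zero k hp) ?_⟩
  rw [e]
  push_cast
  ring

theorem norm_mv {g : Mx n ℚ_[p]} {x : Ix n → ℚ_[p]} (hg : ∀ a b, ‖g a b‖ ≤ 1)
    (hx : ∀ a, ‖x a‖ ≤ 1) (a) : ‖(g *ᵥ x) a‖ ≤ 1 := by
  change ‖∑ b, g a b * x b‖ ≤ 1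
  refine IsUltrametricDist.norm_sum_le_of_forall_le_of_nonneg zero_le_one fun b _ => ?_
  rw [norm_mul]
  exact mul_le_one₀ (hg a b) (norm_nonneg _) (hx b)

theorem norm_iff (k : ℕ) (s : ℤ_[p]) :
    ‖(s : ℚ_[p])‖ ≤ ((p : ℝ) ^ k)⁻¹ ↔ s ∈ Ideal.span {(p : ℤ_[p]) ^ k} := by
  rw [← PadicInt.norm_le_pow_iff_mem_span_pow, _root_.zpow_neg, zpow_natCast]
  rfl

theorem cong {I : Finset (Ix n)} {k : ℕ} {h : HQ n p} {x : Ix n → ℚ_[p]} (hh : h ∈ KI p I k)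
    (hx : ∀ a, ‖x a‖ ≤ 1) : ‖mv I (h.1.1 *ᵥ x) - mv I x‖ ≤ ((p : ℝ) ^ k)⁻¹ := by
  let c := PadicInt.Coe.ringHom (p := p)
  have ci : Function.Injective c := Subtype.val_injective
  let f := Ideal.Quotient.mk (Ideal.span {(p : ℤ_[p]) ^ k})
  let H : Mx n ℤ_[p] := of fun a b => ⟨h.1.1 a b, hh.1 a b⟩
  let y : Ix n → ℤ_[p] := fun a => ⟨x a, hx a⟩
  have s1 : Hᵀ * Jr n ℤ_[p] * H = Jr n ℤ_[p] := by
    refine Matrix.map_injective ci ?_
    simp only [Matrix.map_mul, Jr_map]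
    exact h.2
  have e : mv I (h.1.1 *ᵥ x) - mv I x = c (mv I (H *ᵥ y) - mv I y) := by
    rw [map_sub, mv_map, mv_map, show c ∘ (H *ᵥ y) = _ from funext (RingHom.map_mulVec c H y)]
    rfl
  rw [e]
  refine (norm_iff k _).2 (Ideal.Quotient.eq.1 ?_)
  rw [mv_map, mv_map, show f ∘ (H *ᵥ y) = _ from funext (RingHom.map_mulVec f H y)]
  refine mv_mul I (h := H.map f) ?_ (fun a b hab =>
    Ideal.Quotient.eq_zero_iff_mem.2 ((norm_iff k _).1 (hh.2 a b hab))) _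
  rw [← Jr_map f, ← transpose_map, ← Matrix.map_mul, ← Matrix.map_mul, s1]

theorem appr (I : Finset (Ix n)) (k : ℕ) {x : Ix n → ℚ_[p]} (hx : ∀ a, ‖x a‖ ≤ 1) :
    ∃ c ∈ Finset.range (p ^ k), ‖mv I x - ((c : ℤ) : ℚ_[p])‖ ≤ ((p : ℝ) ^ k)⁻¹ := by
  let y : Ix n → ℤ_[p] := fun a => ⟨x a, hx a⟩
  refine ⟨(mv I y).appr k, Finset.mem_range.2 (PadicInt.appr_lt _ k), ?_⟩
  have := (norm_iff k _).2 (PadicInt.appr_spec k (mv I y))
  have e : mv I x = ((mv I y : ℤ_[p]) : ℚ_[p]) :=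
    (mv_map (PadicInt.Coe.ringHom (p := p)) I y).symm
  rw [e]
  simpa using this

variable (c : Ctx n p)

theorem oq_mul (a g : c.GG) (v : Ix n → ℚ) : c.oq (a * g) v = a.1.1.1 *ᵥ c.oq g v := by
  rw [Ctx.oq, Ctx.oq, mulVec_mulVec, ← Matrix.mul_assoc]
  rfl

theorem oR_mul (a g : c.GG) (v : Ix n → ℚ) : c.oR (a * g) v = a.2.1.1 *ᵥ c.oR g v :=
  (mulVec_mulVec _ _ _).symm

theorem oR_inj (g : c.GG) : Function.Injective (c.oR g) := fun v v' e => by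
  have := congrArg (g⁻¹.2.1.1 *ᵥ ·) e
  simp only [← oR_mul, inv_mul_cancel] at this
  have e1 : ∀ v, c.oR 1 v = fun i => (v i : ℝ) := fun v => one_mulVec _
  rw [e1, e1] at this
  exact funext fun i => Rat.cast_injective (congrFun this i)

theorem Wg_mul {I : Finset (Ix n)} {c₀ : ℤ} {k : ℕ} {R : ℝ} {K₀ : ℕ} {g γ : c.GG}
    (hg : g ∈ c.Wg I c₀ k R K₀) (hγ : γ ∈ c.Gp) : g * γ ∈ c.Wg I c₀ k R K₀ := by
  classical
  obtain ⟨s, hs, h⟩ := hg
  obtain ⟨β₀, -, e1, e2⟩ := inv_mem hγ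
  let β : Mx n ℚ := β₀.1.map (J.RM p).subtype
  have x1 : ∀ v, c.oq (g * γ) (β *ᵥ v) = c.oq g v := fun v => by
    have e : (g * γ).1.1.1 * γ⁻¹.1.1.1 = g.1.1.1 :=
      congrArg (fun a : c.GG => a.1.1.1) (mul_inv_cancel_right g γ)
    rw [Ctx.oq, Ctx.oq, ← e, Matrix.mul_assoc _ _ c.g₀, e1, ← Matrix.mul_assoc,
      ← mulVec_mulVec _ (_ * c.g₀)]
    exact congrArg _ (funext (RingHom.map_mulVec (Rat.castHom ℚ_[p]) β v))
  have x2 : ∀ v, c.oR (g * γ) (β *ᵥ v) = c.oR g v := fun v => by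
    have e : (g * γ).2.1.1 * γ⁻¹.2.1.1 = g.2.1.1 :=
      congrArg (fun a : c.GG => a.2.1.1) (mul_inv_cancel_right g γ)
    rw [Ctx.oR, Ctx.oR, ← e, e2, ← mulVec_mulVec]
    exact congrArg _ (funext (RingHom.map_mulVec (Rat.castHom ℝ) β v))
  have u : Function.Injective (β *ᵥ ·) := fun v v' e =>
    oR_inj c g (by rw [← x2, ← x2]; exact congrArg _ e)
  refine ⟨s.image (β *ᵥ ·), hs.trans_eq (Finset.card_image_of_injective _ u).symm,
    fun v' hv' => ?_⟩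
  obtain ⟨v, hv, rfl⟩ := Finset.mem_image.1 hv'
  obtain ⟨a1, a2, a3, a4, a5⟩ := h v hv
  refine ⟨fun e => a1 (u (e.trans (mulVec_zero β).symm)), fun a => ?_,
    x1 v ▸ a3, x2 v ▸ a4, x1 v ▸ a5⟩
  change ∑ b, β a b * v b ∈ _
  exact sum_mem fun b _ => mul_mem (β₀.1 a b).2 (a2 b)

theorem mem_WW {I : Finset (Ix n)} {c₀ : ℤ} {k : ℕ} {R : ℝ} {K₀ : ℕ} (g : c.GG) :
    QuotientGroup.mk g ∈ c.WW I c₀ k R K₀ ↔ g ∈ c.Wg I c₀ k R K₀ := by
  refine ⟨?_, fun h => ⟨g, h, rfl⟩⟩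
  rintro ⟨g', h, e⟩
  have := Wg_mul c h (QuotientGroup.eq.1 e)
  rwa [mul_inv_cancel_left] at this

theorem isOpen_Wg (I : Finset (Ix n)) (c₀ : ℤ) (k : ℕ) (R : ℝ) (K₀ : ℕ) :
    IsOpen (c.Wg I c₀ k R K₀) := by
  have hp : (p : ℝ) ≠ 0 := Nat.cast_ne_zero.2 (Fact.out : p.Prime).ne_zero
  rw [isOpen_iff_mem_nhds]
  rintro g ⟨s, hs, h⟩
  have k1 : Continuous fun g : c.GG => g.1.1.1 :=
    (continuous_subtype_val.comp continuous_subtype_val).comp continuous_fst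
  have k2 : Continuous fun g : c.GG => g.2.1.1 :=
    (continuous_subtype_val.comp continuous_subtype_val).comp continuous_snd
  have o : ∀ᶠ g' in 𝓝 g, ∀ v ∈ s, c.Good I c₀ k R g' v :=
    (eventually_all_finset s).2 fun v hv => by
    obtain ⟨a1, a2, a3, a4, a5⟩ := h v hv
    have c1 : ∀ a, Continuous fun g : c.GG => c.oq g v a := fun a => (continuous_apply a).comp
      ((k1.matrix_mul continuous_const).matrix_mulVec continuous_const)
    have c2 : ∀ a, Continuous fun g : c.GG => c.oR g v a := fun a => (continuous_apply a).comp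
      (k2.matrix_mulVec continuous_const)
    have c3 : Continuous fun g : c.GG => mv I (c.oq g v) - c₀ :=
      (continuous_finsetSum _ fun i _ => (c1 i).mul (c1 i.rev)).sub continuous_const
    have o1 : ∀ᶠ g' in 𝓝 g, ∀ a, ‖c.oq g' v a‖ ≤ 1 := eventually_all.2 fun a =>
      (isOpen_le (c1 a) one_ne_zero).mem_nhds (a3 a)
    have o2 : ∀ᶠ g' in 𝓝 g, ∀ a, |c.oR g' v a| < R := eventually_all.2 fun a =>
      (isOpen_lt (c2 a).abs continuous_const).mem_nhds (a4 a)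
    filter_upwards [o1, o2, (isOpen_le c3 (inv_ne_zero (pow_ne_zero k hp))).mem_nhds a5]
      with g' b1 b2 b3
    exact ⟨a1, a2, b1, b2, b3⟩
  exact o.mono fun g' hg' => ⟨s, hs, hg'⟩

theorem exists_intg (hP : DensPStmt) (x : c.XX) :
    ∃ g : c.GG, Intg g.1 ∧ QuotientGroup.mk g = x := by
  obtain ⟨g, rfl⟩ := QuotientGroup.mk_surjective x
  obtain ⟨γ, hγ, h⟩ := hP n p c g.1
  exact ⟨g * γ, h, QuotientGroup.mk_mul_of_mem g hγ⟩

theorem oq_int {g : c.GG} (hg : Intg g.1) (v : Ix n → ℤ) (a : Ix n) :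
    ‖c.oq g (fun i => (v i : ℚ)) a‖ ≤ 1 := by
  rw [Ctx.oq, ← mulVec_mulVec]
  exact norm_mv hg (norm_mv c.int₀ fun a => by simpa using Padic.norm_int_le_one (p := p) (v a)) a

theorem oR_int (g : c.GG) (v : Ix n → ℤ) :
    c.oR g (fun i => (v i : ℚ)) = g.2.1.1 *ᵥ fun i => (v i : ℝ) := by
  simp [Ctx.oR]

omit [Fact p.Prime] in
theorem den_int (v : Ix n → ℤ) (a : Ix n) : (v a : ℚ) ∈ J.RM p := ⟨0, v a, by simp⟩

theorem cast_inj : Function.Injective fun (v : Ix n → ℤ) i => (v i : ℚ) := fun _ _ e =>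
  funext fun i => Int.cast_injective (congrFun e i)

theorem cast_ne {v : Ix n → ℤ} (hv : v ≠ 0) : (fun i => (v i : ℚ)) ≠ 0 := fun e =>
  hv (funext fun i => Int.cast_eq_zero.1 (congrFun e i))

theorem abs_mv {u : Mx n ℝ} {x : Ix n → ℝ} {R : ℝ} (hu : ∀ a b, |u a b| < 2)
    (hx : ∀ a, |x a| < R) (a) : |(u *ᵥ x) a| ≤ (2 * n + 3) * (2 * R) := by
  change |∑ b, u a b * x b| ≤ _
  refine (Finset.abs_sum_le_sum_abs _ _).trans
    ((Finset.sum_le_card_nsmul _ _ (2 * R) fun d _ => ?_).trans_eq (by simp))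
  rw [abs_mul]
  exact mul_le_mul (hu a d).le (hx d).le (abs_nonneg _) zero_le_two

theorem det_ne : c.A.det ≠ 0 := fun e => c.pd (e ▸ dvd_zero _)

end Tube

open Tube in
theorem tube (hD : DiscStmt) (hP : DensPStmt) (hM : MahlerStmt) : TubeStmt := by
  classical
  intro n p _ c
  obtain ⟨-, -, -, -, hG1, intg_mul, intg_inv, hc, -⟩ := hD n p c
  obtain ⟨R₀, hR, hK⟩ := hM n c.A (det_ne c)
  have R0 : 0 ≤ R₀ := by
    obtain ⟨v, -, h⟩ := hR 1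
    exact (abs_nonneg _).trans (h 0).le
  refine ⟨fun I c₀ k R K₀ => ⟨QuotientGroup.isOpenMap_coe _ (isOpen_Wg c I c₀ k R K₀), mem_WW c⟩,
    fun I c₀ k R g v hg h => ?_, (2 * n + 3) * (2 * R₀) + 1,
    ⟨{u | ∀ i j, |u.1.1 i j| < 2}, ?_, fun I _ k x => ?_⟩, fun I k K₀ => ?_⟩
  · have e : (fun i => (v i : ℚ_[p])) = c.g₁ *ᵥ g⁻¹.1.1.1 *ᵥ c.oq g v := by
      rw [← oq_mul, inv_mul_cancel, Ctx.oq, mulVec_mulVec]
      change _ = (c.g₁ * (1 * c.g₀)) *ᵥ _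
      rw [one_mul, mul_eq_one_comm.1 c.inv, one_mulVec]
    choose z hz using fun a => int_of (h.den a)
      ((congrArg norm (congrFun e a)).trans_le (norm_mv c.int₁ (norm_mv (intg_inv _ hg) h.int) a))
    exact ⟨z, funext hz⟩
  · refine eventually_all.2 fun i => eventually_all.2 fun j => ?_
    have hc : Continuous fun u : GR c.A => |u.1.1 i j| :=
      ((continuous_subtype_val.comp continuous_subtype_val).matrix_elem i j).abs
    refine (isOpen_lt hc continuous_const).mem_nhds ?_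
    change |(1 : Mx n ℝ) i j| < 2
    rw [one_apply]
    split_ifs <;> simp
  · obtain ⟨g, hg, rfl⟩ := exists_intg c hP x
    obtain ⟨v, v1, v2⟩ := hR g.2
    obtain ⟨c₀, -, hc⟩ := appr I k (oq_int c hg v)
    refine ⟨c₀, ?_⟩
    rintro _ ⟨h, hh, u, hu, rfl⟩
    refine ⟨(h, u) * g, ⟨{fun i => (v i : ℚ)}, le_rfl, fun v' hv' => ?_⟩, rfl⟩
    rw [Finset.mem_singleton.1 hv']
    refine ⟨cast_ne v1, den_int v, oq_int c (intg_mul _ _ hh.1 hg) v, fun a => ?_, ?_⟩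
    · rw [oR_mul, oR_int]
      exact (abs_mv hu v2 a).trans_lt (lt_add_one _)
    · rw [oq_mul, ← sub_add_sub_cancel _ (mv I (c.oq g fun i => (v i : ℚ)))]
      exact (IsUltrametricDist.norm_add_le_max _ _).trans (max_le (cong hh (oq_int c hg v)) hc)
  · obtain ⟨Ω, hΩ, h⟩ := hK (p ^ k * K₀)
    refine ⟨QuotientGroup.mk '' ({h : HQ n p | Intg h} ×ˢ Ω),
      (hc.prod hΩ).image QuotientGroup.continuous_mk, fun x => ?_⟩
    obtain ⟨g, hg, rfl⟩ := exists_intg c hP x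
    rcases h g.2 with ⟨γ, hγ, hm⟩ | ⟨s, hs, h⟩
    · obtain ⟨h', hi, hG⟩ := hG1 γ hγ
      exact Or.inl ⟨g * (h', γ), ⟨intg_mul _ _ hg hi, hm⟩, QuotientGroup.mk_mul_of_mem g hG⟩
    · choose d c1 c2 using fun v : Ix n → ℤ => appr I k (oq_int c hg v)
      obtain ⟨c₀, d1, d2⟩ := Finset.exists_le_card_fiber_of_mul_le_card_of_maps_to
        (s := s) (f := d) (n := K₀) (fun v _ => c1 v) ⟨d 0, c1 0⟩ (by rwa [Finset.card_range])
      refine Or.inr ⟨c₀, d1, g, ⟨_, d2.trans_eq (Finset.card_image_of_injective _ cast_inj).symm,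
        fun v' hv' => ?_⟩, rfl⟩
      obtain ⟨v, hv, rfl⟩ := Finset.mem_image.1 hv'
      obtain ⟨m1, rfl⟩ := Finset.mem_filter.1 hv
      refine ⟨cast_ne (h v m1).1, den_int v, oq_int c hg v, fun a => ?_, c2 v⟩
      rw [oR_int]
      have n0 : (0 : ℝ) ≤ n := Nat.cast_nonneg n
      nlinarith [(h v m1).2 a, mul_nonneg n0 R0]

end Pool.Agent.Lib.MP_9177b7_ag.SO
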