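import Pool.Agent.Lib.MP_9177b7_ag.SO.StB
import Pool.Agent.Lib.MP_9177b7_ag.B.Unimod

/-!
The orthogonal groups over `ℚ_p` and `ℝ` and their product are unimodular.
-/

open Matrix MeasureTheory
open scoped NNReal

noncomputable section

namespace Pool.Agent.Lib.MP_9177b7_ag.SO

namespace Unimod

section gen

variable {N : ℕ} {R : Type} [CommRing R] {B : Matrix (Fin N) (Fin N) R}

theorem ort_ext {g h : Ort B} (e : g.1.1 = h.1.1) : g = h := Subtype.ext (Subtype.ext e)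

theorem ort_mul (g h : Ort B) : (g * h).1.1 = g.1.1 * h.1.1 := rfl

/-- The torus element as an element of the orthogonal group. -/
def dE (hE : EichStmt) (hB : Bᵀ = B) {u₀ u₁ : Fin N → R} (hy : Hy B u₀ u₁) (t t' : R)
    (h : t * t' = 1) : Ort B :=
  ⟨⟨dt B u₀ u₁ t t', ((hE N R B hB).2 u₀ u₁ t t' hy h).2.1⟩, ((hE N R B hB).2 u₀ u₁ t t' hy h).1⟩

/-- The transvection as an element of the orthogonal group. -/
def eE (hE : EichStmt) (hB : Bᵀ = B) {u v : Fin N → R} {q : R} (h1 : bf B u u = 0)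
    (h2 : bf B u v = 0) (h3 : bf B v v = 2 * q) : Ort B :=
  ⟨⟨ei B u v q, ((hE N R B hB).1 u v q h1 h2 h3).2.1⟩, ((hE N R B hB).1 u v q h1 h2 h3).1⟩

end gen

section chi

variable {N : ℕ} {F : Type} [Field F] [CharZero F] {B : Matrix (Fin N) (Fin N) F}

omit [CharZero F] in
theorem chi_ei (hE : EichStmt) (hB : Bᵀ = B) (χ : Ort B →* ℝ≥0) {u v : Fin N → F} {q : F}
    (h1 : bf B u u = 0) (h2 : bf B u v = 0) (h3 : bf B v v = 2 * q) {g d : Ort B}
    (hg : g.1.1 = ei B u v q)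
    (hd : d.1.1 * ei B u v q = ei B u ((2 : F) • v) (2 ^ 2 * q) * d.1.1) : χ g = 1 := by
  have e : d * g = g * g * d := ort_ext (by
    rw [ort_mul, ort_mul, ort_mul, hg, hd, ((hE N F B hB).1 u v q h1 h2 h3).2.2 v q h2, h3,
      two_smul]
    congr 2
    ring)
  have e2 := MP_9177b7_ag.B.Unimod.chi_conj χ e
  rw [map_mul] at e2
  exact (mul_eq_left₀ (MP_9177b7_ag.B.Unimod.chi_ne χ g)).1 e2.symm

/-- Positive characters of the orthogonal group are trivial. -/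
theorem triv (hE : EichStmt) (hG : GenStmt) (hB : Bᵀ = B) (hd : B.det ≠ 0) (hN : 3 ≤ N)
    {u₀ u₁ : Fin N → F} (hy : Hy B u₀ u₁) (χ : Ort B →* ℝ≥0) (g : Ort B) : χ g = 1 := by
  obtain ⟨h1, h2⟩ := hG N F B u₀ u₁ χ.ker two_ne_zero hB hd hy (by
    rintro g v q hp (hg | hg)
    · have e : (2 : F) * 2⁻¹ = 1 := mul_inv_cancel₀ two_ne_zero
      exact chi_ei hE hB χ hy.1 hp.1 hp.2.2 hg (d := dE hE hB hy 2 2⁻¹ e)
        (((hE N F B hB).2 u₀ u₁ 2 2⁻¹ hy e).2.2.2 v q hp).1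
    · have e : (2 : F)⁻¹ * 2 = 1 := inv_mul_cancel₀ two_ne_zero
      exact chi_ei hE hB χ hy.2.1 hp.2.1 hp.2.2 hg (d := dE hE hB hy 2⁻¹ 2 e)
        (((hE N F B hB).2 u₀ u₁ 2⁻¹ 2 hy e).2.2.2 v q hp).2)
  obtain ⟨d, t, t', e, hd', hs⟩ := h1 g
  have e2 : χ (d * d) = 1 := h2 hN (d * d) t t' e (by
    rw [ort_mul, hd', ((hE N F B hB).2 u₀ u₁ t t' hy e).2.2.1, sq, sq])
  rw [map_mul, ← sq] at e2
  have e3 : χ d = 1 := (pow_eq_one_iff_of_nonneg zero_le two_ne_zero).1 e2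
  have e4 : χ (d⁻¹ * g) = 1 := hs
  rw [← mul_inv_cancel_left d g, map_mul, e3, e4, one_mul]

end chi

section conc

variable {n : ℕ} (R : Type) [CommRing R]

theorem bf_single {N : ℕ} {R : Type} [CommRing R] (B : Matrix (Fin N) (Fin N) R) (i : Fin N)
    (v : Fin N → R) : bf B (Pi.single i 1) v = (B *ᵥ v) i := by
  simp [bf]

theorem bf_single2 {N : ℕ} {R : Type} [CommRing R] (B : Matrix (Fin N) (Fin N) R) (i j : Fin N) :
    bf B (Pi.single i 1) (Pi.single j 1) = B i j := by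
  simp [bf]

theorem Jr_symm : (Jr n R)ᵀ = Jr n R := by
  ext i j
  simp only [Jr, transpose_apply, of_apply]
  congr 1
  exact propext ⟨fun h => by rw [h, Fin.rev_rev], fun h => by rw [h, Fin.rev_rev]⟩

theorem Jr_mul : Jr n R * Jr n R = 1 := by
  ext i j
  rw [mul_apply, Finset.sum_eq_single i.rev (fun b _ hb => by simp [Jr, hb]) (by simp)]
  simp [Jr, one_apply, eq_comm]

theorem Jr_det [Nontrivial R] : (Jr n R).det ≠ 0 := fun h => by
  have := congrArg det (Jr_mul (n := n) R)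
  rw [det_mul, h, zero_mul, det_one] at this
  exact zero_ne_one this

theorem Jr_hy : Hy (Jr n R) (Pi.single 0 1) (Pi.single (Fin.last _) 1) := by
  refine ⟨?_, ?_, ?_⟩ <;> rw [bf_single2] <;> simp [Jr, Fin.ext_iff]

variable {A : Mx n ℤ}

theorem Am_symm (h : Lat A) : (Am A R)ᵀ = Am A R := by
  rw [← transpose_map, h.symm]

theorem Am_det [CharZero R] (h : A.det ≠ 0) : (Am A R).det ≠ 0 := by
  rw [← Int.cast_det]
  exact Int.cast_ne_zero.2 h

theorem ix01 : (0 : Ix n) ≠ 1 := by simp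

theorem Am_hy (h : Lat A) : Hy (Am A R) (Pi.single 0 1) (Pi.single 1 1) := by
  refine ⟨?_, ?_, ?_⟩ <;> rw [bf_single2]
  · simp [h.row₀]
  · simp [h.row₁]
  · simp [h.row₀]

theorem det_ne {p : ℕ} [Fact p.Prime] (c : Ctx n p) : c.A.det ≠ 0 := fun h =>
  c.pd (h ▸ dvd_zero _)

end conc

end Unimod

open Unimod in
theorem unimod : EichStmt → GenStmt → UnimodStmt := fun hE hG n p _ c =>
  have h1 := triv hE hG (Jr_symm (n := n) ℚ_[p]) (Jr_det _) (by omega) (Jr_hy _)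
  have h2 := triv hE hG (Am_symm ℝ c.lat) (Am_det ℝ (det_ne c)) (by omega) (Am_hy ℝ c.lat)
  ⟨fun m _ => B.Unimod.right_inv h1 m, fun m _ => B.Unimod.right_inv h2 m,
    fun m _ => B.Unimod.right_inv (B.Unimod.hom_prod h1 h2) m⟩

end Pool.Agent.Lib.MP_9177b7_ag.SO
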