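import Pool.Agent.Lib.MP_9177b7_ag.SO.Dens
import Pool.Agent.Lib.MP_9177b7_ag.SO.Dyn
import Pool.Agent.Lib.MP_9177b7_ag.SO.Eich
import Pool.Agent.Lib.MP_9177b7_ag.SO.Equi
import Pool.Agent.Lib.MP_9177b7_ag.SO.GenJ
import Pool.Agent.Lib.MP_9177b7_ag.SO.Mahler
import Pool.Agent.Lib.MP_9177b7_ag.SO.Proj
import Pool.Agent.Lib.MP_9177b7_ag.SO.Trans
import Pool.Agent.Lib.MP_9177b7_ag.SO.Tube
import Pool.Agent.Lib.MP_9177b7_ag.SO.Unimod

/-!
The statements on the homogeneous space, without hypotheses.
-/

namespace Pool.Agent.Lib.MP_9177b7_ag.SO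

theorem gen' : GenStmt := gen eich

theorem genJ' : GenJStmt := genJ eich gen'

theorem trans' : TransStmt := trans eich

theorem densP' : DensPStmt := densP eich gen' disc

theorem densR' : DensRStmt := densR eich gen' disc

theorem unimod' : UnimodStmt := unimod eich gen'

theorem proj' : ProjStmt := proj_stmt densP'

theorem mahler' : MahlerStmt := mahler B.red

theorem tube' : TubeStmt := tube disc densP' mahler'

theorem equi' : EquiStmt := equi disc densR' unimod' tube' genJ' dyn

end Pool.Agent.Lib.MP_9177b7_ag.SO
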