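import Pool.Agent.Lib.MP_9177b7_ag.SO.StB
import Pool.Agent.Lib.MP_9177b7_ag.S4.Inj
import Pool.Agent.Lib.MP_9177b7_ag.B.Disc
import Pool.Agent.Lib.MP_9177b7_ag.J.Pol

/-!
Discreteness of the arithmetic groups and their integral points.
-/

open Matrix Topology

noncomputable section

namespace Pool.Agent.Lib.MP_9177b7_ag.SO

namespace Disc

theorem Am_map {N : ℕ} (A : Matrix (Fin N) (Fin N) ℤ) {R S : Type} [CommRing R] [CommRing S]
    (f : R →+* S) : (Am A R).map f = Am A S := by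
  ext i j
  simp

theorem Am_int {N : ℕ} (A : Matrix (Fin N) (Fin N) ℤ) : Am A ℤ = A := by
  ext i j
  simp

theorem one_add_map {N : ℕ} (A : Matrix (Fin N) (Fin N) ℤ) {R S : Type} [CommRing R] [CommRing S]
    (f : R →+* S) (M : Matrix (Fin N) (Fin N) R) :
    (1 + M * Am A R).map f = 1 + M.map f * Am A S := by
  rw [Matrix.map_add _ (map_add f), Matrix.map_mul, Am_map,
    Matrix.map_one _ (map_zero f) (map_one f)]

theorem ort_map {N : ℕ} (A : Matrix (Fin N) (Fin N) ℤ) {R S : Type} [CommRing R] [CommRing S]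
    (f : R →+* S) {γ : Matrix (Fin N) (Fin N) R} (h : γᵀ * Am A R * γ = Am A R) :
    (γ.map f)ᵀ * Am A S * γ.map f = Am A S := by
  have := congrArg (·.map f) h
  simpa only [Matrix.map_mul, Am_map, transpose_map] using this

theorem ort_of_map {N : ℕ} (A : Matrix (Fin N) (Fin N) ℤ) {R S : Type} [CommRing R] [CommRing S]
    (f : R →+* S) (hf : Function.Injective f) {γ : Matrix (Fin N) (Fin N) R}
    (h : (γ.map f)ᵀ * Am A S * γ.map f = Am A S) : γᵀ * Am A R * γ = Am A R := by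
  refine Matrix.map_injective hf ?_
  simpa only [Matrix.map_mul, Am_map, transpose_map] using h

theorem det_map {N : ℕ} {R S : Type} [CommRing R] [CommRing S] (f : R →+* S)
    (γ : Matrix (Fin N) (Fin N) R) : (γ.map f).det = f γ.det := by
  rw [RingHom.map_det, RingHom.mapMatrix_apply]

variable {n p : ℕ} [Fact p.Prime]

theorem intg_one : Intg (1 : HQ n p) := B.Disc.Intg.one (n := 2 * n)

theorem intg_mul {g h : HQ n p} (a : Intg g) (b : Intg h) : Intg (g * h) :=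
  B.Disc.Intg.mul (n := 2 * n) (h := g.1) (h' := h.1) a b

theorem intg_inv {g : HQ n p} (a : Intg g) : Intg g⁻¹ :=
  B.Disc.Intg.inv (n := 2 * n) (h := g.1) a

theorem isOpen_intg : IsOpen {h : HQ n p | Intg h} :=
  (B.Disc.isOpen_intg (n := 2 * n) (p := p)).preimage continuous_subtype_val

theorem isCompact_intg : IsCompact {h : HQ n p | Intg h} :=
  (ortClosed (Jr n ℚ_[p])).isClosedEmbedding_subtypeVal.isCompact_preimage
    (B.Disc.isCompact_intg (n := 2 * n) (p := p))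

theorem int_of {x : ℚ} (hx : x ∈ J.RM p) (h : ‖(x : ℚ_[p])‖ ≤ 1) : ∃ z : ℤ, x = z := by
  obtain ⟨k, z, e⟩ := hx
  have hp : (p : ℚ) ≠ 0 := Nat.cast_ne_zero.2 (Fact.out : p.Prime).ne_zero
  have e' : (z : ℚ_[p]) = x * (p : ℚ_[p]) ^ k := by
    exact_mod_cast congrArg (Rat.cast (K := ℚ_[p])) e.symm
  have h1 : ‖(z : ℚ_[p])‖ ≤ (p : ℝ) ^ (-(k : ℤ)) := by
    rw [e', norm_mul, Padic.norm_p_pow]
    exact mul_le_of_le_one_left (by positivity) h
  obtain ⟨w, rfl⟩ := (Padic.norm_int_le_pow_iff_dvd z k).1 h1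
  refine ⟨w, mul_right_cancel₀ (pow_ne_zero k hp) ?_⟩
  rw [e]
  push_cast
  ring

/-- The ring of integral matrices. -/
def IG (n p : ℕ) [Fact p.Prime] : Subring (Mx n ℚ_[p]) := (PadicInt.subring p).matrix

theorem mem_IG {X : Mx n ℚ_[p]} : X ∈ IG n p ↔ ∀ i j, ‖X i j‖ ≤ 1 := Iff.rfl

theorem int_IG (X : Mx n ℤ) : X.map (Int.castRingHom ℚ_[p]) ∈ IG n p :=
  fun i j => Padic.norm_int_le_one (X i j)

theorem mem_G1 {N : ℕ} {A : Matrix (Fin N) (Fin N) ℤ} (g : GR A) :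
    g ∈ G1 A ↔ ∃ M : Matrix (Fin N) (Fin N) ℤ,
      g.1.1 = (1 + M * A).map (Int.castRingHom ℝ) := by
  constructor
  · rintro ⟨s, ⟨M, h⟩, e⟩
    exact ⟨M, h ▸ (congrArg Subtype.val e).symm⟩
  · rintro ⟨M, e⟩
    obtain ⟨s, e1, e2⟩ := B.Disc.mem_range (Int.castRingHom ℝ) Int.cast_injective g.1 _ e
    exact ⟨s, ⟨M, e1⟩, e2⟩

theorem isOpen_near {N : ℕ} (A : Matrix (Fin N) (Fin N) ℤ) :
    IsOpen {g : GR A | ∀ i j, |g.1.1 i j - (1 : Matrix (Fin N) (Fin N) ℝ) i j| < 1} := by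
  rw [Set.ofPred_forall]
  refine isOpen_iInter_of_finite fun i => ?_
  rw [Set.ofPred_forall]
  refine isOpen_iInter_of_finite fun j => isOpen_lt ?_ continuous_const
  have h : Continuous fun g : GR A => g.1.1 := continuous_subtype_val.comp continuous_subtype_val
  exact ((h.matrix_elem i j).sub continuous_const).abs

theorem eq_one {N : ℕ} {A : Matrix (Fin N) (Fin N) ℤ} {g : GR A} (hg : g ∈ G1 A)
    (h : ∀ i j, |g.1.1 i j - (1 : Matrix (Fin N) (Fin N) ℝ) i j| < 1) : g = 1 := by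
  obtain ⟨M, e⟩ := (mem_G1 g).1 hg
  generalize 1 + M * A = γ at e
  refine Subtype.ext (Subtype.ext (Matrix.ext fun i j => ?_))
  have h1 := h i j
  have e1 : g.1.1 i j - (1 : Matrix (Fin N) (Fin N) ℝ) i j =
      ((γ i j - (1 : Matrix (Fin N) (Fin N) ℤ) i j : ℤ) : ℝ) := by
    rw [e, one_apply, one_apply]
    split_ifs <;> simp
  rw [e1, ← Int.cast_abs] at h1
  have h2 : γ i j - (1 : Matrix (Fin N) (Fin N) ℤ) i j = 0 :=
    Int.abs_lt_one_iff.1 (by exact_mod_cast h1)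
  rw [h2, Int.cast_zero] at e1
  exact sub_eq_zero.1 e1

theorem discG1 {N : ℕ} (A : Matrix (Fin N) (Fin N) ℤ) : DiscreteTopology (G1 A) := by
  refine discreteTopology_of_isOpen_singleton_one ?_
  convert (isOpen_near A).preimage (continuous_subtype_val (p := fun g => g ∈ G1 A)) using 1
  ext g
  constructor
  · rintro rfl
    exact fun i j => by simp
  · exact fun h => Subtype.ext (eq_one g.2 h)

variable (c : Ctx n p)

theorem inv' : c.g₁ * c.g₀ = 1 := mul_eq_one_comm.1 c.inv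

theorem mem_Gp (g : c.GG) : g ∈ c.Gp ↔ ∃ M : Mx n ℚ, (∀ i j, M i j ∈ J.RM p) ∧
    g.1.1.1 * c.g₀ = c.g₀ * (1 + M * Am c.A ℚ).map (Rat.castHom ℚ_[p]) ∧
    g.2.1.1 = (1 + M * Am c.A ℚ).map (Rat.castHom ℝ) := by
  constructor
  · rintro ⟨γ, ⟨M, h⟩, e1, e2⟩
    refine ⟨M.map (J.RM p).subtype, fun i j => (M i j).2, ?_, ?_⟩
    · rw [← one_add_map, ← h]
      exact e1
    · rw [← one_add_map, ← h]
      exact e2
  · rintro ⟨M, h, e1, e2⟩
    have e : M = (Matrix.of fun i j => (⟨M i j, h i j⟩ : J.RM p)).map (J.RM p).subtype := rfl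
    rw [e, ← one_add_map] at e1 e2
    obtain ⟨s, e3, -⟩ := B.Disc.mem_range ((Rat.castHom ℝ).comp (J.RM p).subtype)
      ((Rat.castHom ℝ).injective.comp Subtype.val_injective) g.2.1 _ e2
    exact ⟨s, ⟨_, e3⟩, e3 ▸ e1, e3 ▸ e2⟩

/-- The conjugate of an isometry of `A` is an isometry of the split form. -/
def cjg (γ : Mx n ℚ_[p]) (h : γᵀ * Am c.A ℚ_[p] * γ = Am c.A ℚ_[p]) (d : γ.det = 1) : HQ n p :=
  ⟨⟨c.g₀ * γ * c.g₁, by
    rw [det_mul, det_mul, d, mul_one, ← det_mul, c.inv, det_one]⟩, by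
    have hκ : c.κ ≠ 0 := norm_ne_zero_iff.1 (c.κ1 ▸ one_ne_zero)
    refine smul_right_injective _ hκ ?_
    calc c.κ • ((c.g₀ * γ * c.g₁)ᵀ * Jr n ℚ_[p] * (c.g₀ * γ * c.g₁))
        = c.g₁ᵀ * (γᵀ * (c.κ • (c.g₀ᵀ * Jr n ℚ_[p] * c.g₀)) * γ) * c.g₁ := by
          simp only [transpose_mul, mul_assoc, smul_mul_assoc, mul_smul_comm]
      _ = c.κ • ((c.g₀ * c.g₁)ᵀ * Jr n ℚ_[p] * (c.g₀ * c.g₁)) := by
          rw [c.gram, h, ← c.gram]
          simp only [transpose_mul, mul_assoc, smul_mul_assoc, mul_smul_comm]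
      _ = c.κ • Jr n ℚ_[p] := by rw [c.inv, transpose_one, one_mul, mul_one]⟩

theorem cjg_mul (γ : Mx n ℚ_[p]) (h d) : (cjg c γ h d).1.1 * c.g₀ = c.g₀ * γ := by
  change c.g₀ * γ * c.g₁ * c.g₀ = _
  rw [mul_assoc, inv', mul_one]

theorem snd_G1 {g : c.GG} (hg : g ∈ c.Gp) (hi : Intg g.1) : g.2 ∈ G1 c.A := by
  obtain ⟨M, h, e1, e2⟩ := (mem_Gp c g).1 hg
  have hd : ‖(c.A.det : ℚ_[p])‖ = 1 := by
    refine le_antisymm (Padic.norm_int_le_one _) (not_lt.1 fun h => c.pd ?_)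
    exact (Padic.norm_intCast_lt_one_iff).1 h
  have e3 : (c.A.det : ℚ_[p]) • M.map (Rat.castHom ℚ_[p]) =
      (c.g₁ * g.1.1.1 * c.g₀ - 1) * c.A.adjugate.map (Int.castRingHom ℚ_[p]) := by
    have a : Am c.A ℚ_[p] * c.A.adjugate.map (Int.castRingHom ℚ_[p]) = (c.A.det : ℚ_[p]) • 1 := by
      have := congrArg (·.map (Int.castRingHom ℚ_[p])) (mul_adjugate c.A)
      simp only [Matrix.map_mul] at this
      refine this.trans ?_
      ext i j
      rw [map_apply, Matrix.smul_apply, Matrix.smul_apply, one_apply, one_apply]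
      split_ifs <;> simp
    rw [mul_assoc c.g₁, e1, ← mul_assoc, inv', one_mul, one_add_map, add_sub_cancel_left,
      mul_assoc, a, mul_smul_comm, mul_one]
  have e4 : (c.g₁ * g.1.1.1 * c.g₀ - 1) * c.A.adjugate.map (Int.castRingHom ℚ_[p]) ∈ IG n p :=
    mul_mem (sub_mem (mul_mem (mul_mem (mem_IG.2 c.int₁) (mem_IG.2 hi)) (mem_IG.2 c.int₀))
      (one_mem _)) (int_IG _)
  choose z hz using fun i j => int_of (h i j) (by
    have := mem_IG.1 e4 i j
    rwa [← e3, Matrix.smul_apply, smul_eq_mul, norm_mul, hd, one_mul] at this)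
  refine (mem_G1 _).2 ⟨Matrix.of z, ?_⟩
  have e5 : M = (Matrix.of z).map (Int.castRingHom ℚ) := Matrix.ext hz
  rw [e2, e5, ← one_add_map, Am_int]
  ext i j
  simp

theorem irr {g : c.GG} (hg : g ∈ c.Gp) (e : g.2 = 1) : g = 1 := by
  obtain ⟨M, -, e1, e2⟩ := (mem_Gp c g).1 hg
  generalize 1 + M * Am c.A ℚ = γ at e1 e2
  have e3 : γ = 1 := by
    refine Matrix.map_injective (Rat.castHom ℝ).injective ?_
    show γ.map _ = Matrix.map 1 _
    rw [← e2, e, Matrix.map_one _ (map_zero _) (map_one _)]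
    rfl
  refine Prod.ext (Subtype.ext (Subtype.ext ?_)) e
  rw [e3, Matrix.map_one _ (map_zero _) (map_one _), mul_one] at e1
  rw [← mul_one g.1.1.1, ← c.inv, ← mul_assoc, e1, c.inv]
  rfl

theorem discGp : DiscreteTopology c.Gp := by
  refine discreteTopology_of_isOpen_singleton_one ?_
  convert (isOpen_intg.prod (isOpen_near c.A)).preimage
    (continuous_subtype_val (p := fun g => g ∈ c.Gp)) using 1
  ext g
  constructor
  · rintro rfl
    exact ⟨intg_one, fun i j => by simp⟩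
  · rintro ⟨h1, h2⟩
    exact Subtype.ext (irr c g.2 (eq_one (snd_G1 c g.2 h1) h2))

theorem exists_Gp (M γ : Mx n ℚ) (h : ∀ i j, M i j ∈ J.RM p) (e : γ = 1 + M * Am c.A ℚ)
    (u : γᵀ * Am c.A ℚ * γ = Am c.A ℚ) (d : γ.det = 1) : ∃ g ∈ c.Gp,
      g.1.1.1 * c.g₀ = c.g₀ * γ.map (Rat.castHom ℚ_[p]) ∧ g.2.1.1 = γ.map (Rat.castHom ℝ) := by
  have e1 := cjg_mul c _ (ort_map c.A (Rat.castHom ℚ_[p]) u) (by rw [det_map, d, map_one])
  refine ⟨(_, ⟨⟨γ.map (Rat.castHom ℝ), by rw [det_map, d, map_one]⟩, ort_map c.A _ u⟩),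
    (mem_Gp c _).2 ⟨M, h, ?_, ?_⟩, e1, rfl⟩
  · rw [← e]
    exact e1
  · rw [← e]

theorem lift_G1 {g : GR c.A} (hg : g ∈ G1 c.A) : ∃ h : HQ n p, Intg h ∧ (h, g) ∈ c.Gp := by
  obtain ⟨M, e⟩ := (mem_G1 g).1 hg
  have u : (1 + M * c.A)ᵀ * Am c.A ℤ * (1 + M * c.A) = Am c.A ℤ :=
    ort_of_map c.A (Int.castRingHom ℝ) Int.cast_injective (e ▸ g.2)
  have d : (1 + M * c.A).det = 1 :=
    Int.cast_injective (α := ℝ) ((det_map (Int.castRingHom ℝ) _).symm.trans (by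
      rw [← e, g.1.2, Int.cast_one]))
  have j : 1 + M.map (Int.castRingHom ℚ) * Am c.A ℚ = (1 + M * c.A).map (Int.castRingHom ℚ) := by
    rw [← one_add_map, Am_int]
  refine ⟨cjg c _ (ort_map c.A (Int.castRingHom ℚ_[p]) u) (by rw [det_map, d, map_one]),
    mem_IG.1 (mul_mem (mul_mem (mem_IG.2 c.int₀) (int_IG _)) (mem_IG.2 c.int₁)),
    (mem_Gp c _).2 ⟨M.map (Int.castRingHom ℚ), fun i j => ⟨0, M i j, by simp⟩, ?_, ?_⟩⟩
  · rw [j, cjg_mul]
    congr 1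
  · rw [j]
    refine e.trans ?_
    ext i j
    simp

end Disc

open Disc in
theorem disc : DiscStmt := fun _ _ _ c =>
  haveI := discGp c
  haveI := discG1 c.A
  ⟨mem_Gp c, exists_Gp c, mem_G1, fun _ => snd_G1 c, fun _ => lift_G1 c, fun _ _ => intg_mul,
    fun _ => intg_inv, isCompact_intg, isOpen_intg, inferInstance, inferInstance, J.pol _ _,
    J.pol _ _, S4.inj _ _ c.Gp _ isCompact_intg fun _ => irr c⟩

end Pool.Agent.Lib.MP_9177b7_ag.SO
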