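import Pool.Agent.Lib.MP_9177b7_ag.SO.Frame
import Pool.Agent.Lib.MP_9177b7_ag.SO.Disc

/-!
The matrix of a change of frame, and lattices in the same class.
-/

open NumberField Matrix FractionalIdeal
open scoped nonZeroDivisors ComplexConjugate

noncomputable section

namespace Pool.Agent.Lib.MP_9177b7_ag.SO

namespace Chg

variable {N : ℕ} {E : Type} [Field E] [NumberField E]

theorem comb {R : Type} [Field R] [CharZero R] {M : Matrix (Fin N) (Fin N) ℚ} {x x' : Fin N → R}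
    (h : ∀ k, x' k = ∑ i, M i k * x i) (u : Fin N → ℚ) :
    ∑ k, u k * x' k = ∑ i, (M *ᵥ u) i * x i := by
  simp only [h, mulVec, dotProduct, Rat.cast_sum, Rat.cast_mul, Finset.mul_sum, Finset.sum_mul]
  rw [Finset.sum_comm]
  exact Finset.sum_congr rfl fun i _ => Finset.sum_congr rfl fun k _ => by ring

theorem trans {R : Type} [Field R] [CharZero R] {M M' : Matrix (Fin N) (Fin N) ℚ}
    {x x' x'' : Fin N → R} (h : ∀ k, x' k = ∑ i, M i k * x i)
    (h' : ∀ k, x'' k = ∑ i, M' i k * x' i) (k : Fin N) : x'' k = ∑ i, (M * M') i k * x i :=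
  (h' k).trans (comb h fun i => M' i k)

theorem symm {R : Type} [Field R] [CharZero R] {M : SpecialLinearGroup (Fin N) ℚ}
    {x x' : Fin N → R} (h : ∀ k, x' k = ∑ i, M i k * x i) (k : Fin N) :
    x k = ∑ i, M⁻¹ i k * x' i := by
  have e : M.1 * M⁻¹.1 = 1 := congrArg Subtype.val (mul_inv_cancel M)
  have := trans (M' := M⁻¹.1) h (x'' := fun k => ∑ i, M⁻¹ i k * x' i) (fun _ => rfl) k
  rw [e] at this
  simpa [one_apply, apply_ite (Rat.cast : ℚ → R)] using this.symm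

end Chg

open Chg in
theorem chg (hF : FrameStmt) : ChgStmt := by
  intro n p _ c D f f' z hz
  obtain ⟨-, -, -, -, -, -, -, k⟩ := hF n p c D
  obtain ⟨-, -, -, ind, nq, -, -, -, -, ⟨e, e1, e2, e3, -⟩, -⟩ := k _ _ _ _ f.fr
  obtain ⟨-, mm, -, -, -, -, -, -, -, ⟨e', d1, d2, d3, d4⟩, -, -, zz, -⟩ := k _ _ _ _ f'.fr
  obtain ⟨M₁, h1⟩ := f.ori
  obtain ⟨M₂, h2⟩ := f'.ori
  obtain ⟨f0, M₃, h3⟩ := zz z hz
  have hA := Fr0.det_ne c
  obtain ⟨M, hx, ht⟩ : ∃ M : SpecialLinearGroup (Ix n) ℚ, (∀ k, z * f'.x k = ∑ i, M i k * f.x i) ∧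
      ∀ k, (f'.t k : ℚ) = ∑ i, M i k * f.t i :=
    ⟨M₁⁻¹ * M₂ * M₃, trans (trans (symm fun k => (h1 k).1) fun k => (h2 k).1) fun k => (h3 k).1,
      trans (R := ℚ) (trans (R := ℚ) (symm (R := ℚ) fun k => (h1 k).2) fun k => (h2 k).2)
        fun k => (h3 k).2⟩
  have ho : M.1ᵀ * Am c.A ℚ * M.1 = Am c.A ℚ := by
    ext k l
    have a := nq (fun i => M i k) fun i => M i l
    rw [← hx, ← hx, ← ht, ← ht] at a
    rw [Matrix.mul_assoc]
    refine Eq.trans a.symm (Eq.trans ?_ (f0.1 k l))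
    rfl
  refine ⟨M, ho, fun k => ⟨hx k, ht k⟩, fun d hd i k => ?_, fun R hR => ?_, fun v v' hv hv' => ?_⟩
  · obtain ⟨u, u1, u2⟩ := (f.fr.2 (d * (z * f'.x k)) (d * f'.t k)).1 (by
      simpa using hd _ _ (mm k))
    have u3 := congrArg (Int.cast : ℤ → ℚ) u2
    refine ⟨u i, sub_eq_zero.1 (congrFun (ind (fun i => d * M i k - u i) ?_ ?_) i)⟩
    · simp only [Rat.cast_sub, Rat.cast_mul, Rat.cast_intCast, sub_mul, Finset.sum_sub_distrib,
        mul_assoc, ← Finset.mul_sum, ← hx, ← u1, sub_self]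
    · push_cast at u3
      simp only [sub_mul, Finset.sum_sub_distrib, mul_assoc, ← Finset.mul_sum, ← ht, ← u3, sub_self]
  · have me : M.1 *ᵥ e' = e := by
      refine sub_eq_zero.1 (ind _ ?_ ?_)
      · simp only [Pi.sub_apply, Rat.cast_sub, sub_mul, Finset.sum_sub_distrib, e2, ← comb hx,
          mul_left_comm _ z, ← Finset.mul_sum, d2, mul_zero, sub_self]
      · have := comb (R := ℚ) ht e'
        simp only [Rat.cast_id, id] at this
        simp only [Pi.sub_apply, sub_mul, Finset.sum_sub_distrib, e3, ← this, d3, sub_self]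
    obtain ⟨z₁, l1⟩ := f.lev
    obtain ⟨z₂, l2⟩ := f'.lev
    have de : e - e' = fun i => ((z₁ i - z₂ i : ℤ) : ℚ) := Fr0.Am_inj hA ℚ (by
      rw [mulVec_sub, e1, d1, l1, l2]
      funext i
      simp [mulVec, dotProduct, mul_sub])
    have iA := Fr0.Am_unit hA ℚ
    refine ⟨(M.1 - 1) * (Am c.A ℚ)⁻¹, fun i j => ?_, by
      rw [nonsing_inv_mul_cancel_right _ _ iA, add_sub_cancel]⟩
    obtain ⟨m, w, hw⟩ := d4 (fun l => (Am c.A ℚ)⁻¹ l j) (Pi.single j 1) (by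
      funext l
      refine (congrFun (congrFun (mul_nonsing_inv _ iA) l) j).trans ?_
      simp [one_apply, Pi.single_apply])
    have : ((M.1 - 1) * (Am c.A ℚ)⁻¹) i j =
        m * ((z₁ i - z₂ i : ℤ) : ℚ) + (∑ l, M i l * w l - w i) := by
      change ((M.1 - 1) *ᵥ fun l => (Am c.A ℚ)⁻¹ l j) i = _
      rw [hw, show (fun i => m * e' i + w i) = (m : ℚ) • e' + fun i => (w i : ℚ) from rfl,
        mulVec_add, mulVec_smul, sub_mulVec, sub_mulVec, one_mulVec, one_mulVec, me, de]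
      rfl
    rw [this]
    exact add_mem (mul_mem (intCast_mem R _) (intCast_mem R _))
      (sub_mem (sum_mem fun l _ => mul_mem (hR i l) (intCast_mem R _)) (intCast_mem R _))
  · have g3 := Disc.ort_map c.A (Rat.castHom ℂ) ho
    have dM : (M.1.map (Rat.castHom ℂ))ᵀ.det ≠ 0 := by
      rw [det_transpose, Disc.det_map, M.2, map_one]
      exact one_ne_zero
    refine Fr0.Am_inj hA ℂ (mulVec_injective_of_det_ne_zero dM ?_)
    rw [mulVec_smul, mulVec_smul, mulVec_mulVec v'.1, mulVec_mulVec v'.1, ← Matrix.mul_assoc, g3,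
      hv, hv']
    funext k
    simpa [mulVec, dotProduct] using (congrArg D.φ (hx k)).symm

theorem same (hT : TwStmt) : SameStmt := by
  intro n p _ c D f f' b h
  have nz : ∀ b : (Ideal (𝓞 D.E))⁰, (b : Ideal (𝓞 D.E)) ≠ ⊥ := fun b => nonZeroDivisors.ne_zero b.2
  obtain ⟨-, -, -, -, -, -, -, k⟩ := frame n p c D
  obtain ⟨a0, -, -, -, -, -, g0, -⟩ := k _ _ _ _ D.sp.frame
  replace g0 := (g0 D.g).2 ⟨1, Fr0.g_mem⟩
  have a1 := (k _ _ _ _ f.fr).1
  have a2 := (k _ _ _ _ f'.fr).1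
  rw [← map_mul, ClassGroup.mk0_eq_mk0_iff] at h
  obtain ⟨α, β, α0, β0, h⟩ := h
  obtain ⟨-, k2, k3, k4, k5, -⟩ := hT n p c D _ a0
  obtain ⟨l1, -, l3, -⟩ := hT n p c D _ a1
  have g1 := k3 _ _ _ (nz _) g0 f.htw
  obtain ⟨g, hg⟩ := l1 b f.g (nz _) g1
  have fb : (f.b * b : Ideal (𝓞 D.E)) ≠ ⊥ := nz (f.b * b)
  have e1 := k5 _ _ (nz f.b) (nz b)
  have g2 := l3 _ _ _ (nz _) g1 hg
  have t2 := k4 _ _ _ _ _ (nz _) f.htw hg
  rw [e1] at g2 ⊢
  obtain ⟨-, -, -, -, -, m1, -⟩ := hT n p c D (D.tw D.a (f.b * b)) (Fr0.tw_ne a0 fb)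
  obtain ⟨-, -, -, -, -, m2, -⟩ := hT n p c D _ a2
  obtain ⟨q1, q2⟩ := m1 β g β0 g2
  obtain ⟨r1, r2⟩ := m2 α f'.g α0 (k3 _ _ _ (nz _) g0 f'.htw)
  have sβ : Ideal.span {β} ≠ ⊥ := by rwa [Ne, Ideal.span_singleton_eq_bot]
  have sα : Ideal.span {α} ≠ ⊥ := by rwa [Ne, Ideal.span_singleton_eq_bot]
  replace h : (f'.b : Ideal (𝓞 D.E)) * Ideal.span {α} = f.b * b * Ideal.span {β} := by
    rw [mul_comm, h, mul_comm]
    rfl
  have q3 := k4 _ _ _ _ _ fb t2 q1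
  have r3 := k4 _ _ _ _ _ (nz _) f'.htw r1
  rw [k5 _ _ (nz _) sα, h] at r2
  rw [h] at r3
  replace q2 := (k5 _ _ fb sβ).symm.trans q2
  have s := (k2 _ _ _ _ (mul_ne_zero fb sβ) q3).1 r3
  have un : ∀ w : 𝓞 D.E, w ≠ 0 → (w / D.bar w : D.E) * D.bar (w / D.bar w) = 1 := fun w hw => by
    have w0 : (w : D.E) ≠ 0 := RingOfIntegers.coe_ne_zero_iff.2 hw
    have w1 : D.bar w ≠ 0 := (_root_.map_ne_zero _).2 w0
    rw [show D.bar (w / D.bar w) = D.bar w / w from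
      (map_div₀ _ _ _).trans (congrArg _ (Fr0.bar_bar _))]
    field_simp
  have uα := un α α0
  have uβ := un β β0
  generalize (α / D.bar α : D.E) = x at *
  generalize (β / D.bar β : D.E) = y at *
  have y0 : y ≠ 0 := left_ne_zero_of_mul_eq_one uβ
  have cn : ∀ a : D.FI, spanSingleton _ y⁻¹ * (spanSingleton _ y * a) = a := fun a => by
    rw [← mul_assoc, spanSingleton_mul_spanSingleton, inv_mul_cancel₀ y0, spanSingleton_one, one_mul]
  refine ⟨y⁻¹ * x, g, ?_, hg, ?_, ?_⟩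
  · rw [Dat.bar, map_mul, map_inv₀, mul_mul_mul_comm, ← mul_inv, uα, uβ, inv_one, one_mul]
  · rw [← spanSingleton_mul_spanSingleton, mul_assoc, ← r2, q2, cn]
  · rw [q2] at s
    have := (mem_singleton_mul (x := y⁻¹)).2 ⟨_, s, rfl⟩
    rw [cn] at this
    convert this using 1
    field_simp

end Pool.Agent.Lib.MP_9177b7_ag.SO
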