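import Pool.Agent.Lib.MP_9177b7_ag.SO.StC
import Pool.Agent.Lib.MP_9177b7_ag.B.Den

/-!
The lattice dual to an ideal of squarefree norm, in coordinates.
-/

open NumberField Matrix
open scoped nonZeroDivisors

noncomputable section

namespace Pool.Agent.Lib.MP_9177b7_ag.SO

namespace Co

open B B.Den

variable {F : Type} [Field F] [NumberField F] {n : ℕ} (B : Bas F n) (cc : Fin n → ℤ) (Dn : ℕ)

/-- The element with trace `N / D` and further coordinates `k`. -/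
def et (N : ℤ) (k : Fin n → ℤ) : F :=
  N * ((B.u 0 + ∑ i, cc i * B.u i.succ) / Dn) + ∑ i, k i * B.u i.succ

/-- The residue of an integer of `F`. -/
def chi (y : 𝓞 F) : ℤ := B.ω.repr y 0 + ∑ i : Fin n, B.ω.repr y i.succ * cc i

variable {Dn}

theorem mul_et (h0 : Dn ≠ 0) (N : ℤ) (k : Fin n → ℤ) :
    (Dn : F) * et B cc Dn N k = B.tau N fun i => cc i * N + Dn * k i := by
  have h : (Dn : F) ≠ 0 := Nat.cast_ne_zero.2 h0
  have e : (Dn : F) * (N * ((B.u 0 + ∑ i, cc i * B.u i.succ) / Dn)) =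
      N * (B.u 0 + ∑ i, cc i * B.u i.succ) := by field_simp
  rw [et, mul_add, e, Bas.tau, mul_add, Finset.mul_sum, Finset.mul_sum, add_assoc,
    ← Finset.sum_add_distrib]
  congr 1
  refine Finset.sum_congr rfl fun i _ => ?_
  push_cast
  ring

theorem tr_et (h0 : Dn ≠ 0) (N : ℤ) (k : Fin n → ℤ) (y : 𝓞 F) :
    Algebra.trace ℚ F (et B cc Dn N k * y) =
      (chi B cc y * N) / Dn + (∑ i : Fin n, B.ω.repr y i.succ * k i : ℤ) := by
  have h : (Dn : ℚ) ≠ 0 := Nat.cast_ne_zero.2 h0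
  have h1 := tr_Tx B (Fin.cons N fun i => cc i * N + Dn * k i) y
  rw [← tau_eq, ← mul_et B cc h0, mul_assoc, ← nsmul_eq_mul, map_nsmul, nsmul_eq_mul,
    Fin.sum_univ_succ] at h1
  simp only [Fin.cons_zero, Fin.cons_succ] at h1
  apply mul_left_cancel₀ h
  rw [h1, chi]
  field_simp
  push_cast
  simp only [Finset.mul_sum, Finset.sum_mul, add_mul, mul_add, Finset.sum_add_distrib, add_assoc]
  congr 2 <;> exact Finset.sum_congr rfl fun i _ => by ring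

theorem tr_et_ω (h0 : Dn ≠ 0) (N : ℤ) (k : Fin n → ℤ) (b : Fin (n + 1)) :
    (Dn : ℚ) * Algebra.trace ℚ F (et B cc Dn N k * B.ω b) =
      ((Fin.cons N fun i => cc i * N + Dn * k i : Fin (n + 1) → ℤ) b : ℤ) := by
  have h1 := tr_T B (Fin.cons N fun i => cc i * N + Dn * k i) b
  rwa [← tau_eq, ← mul_et B cc h0, mul_assoc, ← nsmul_eq_mul, map_nsmul, nsmul_eq_mul] at h1

theorem tr_one (h0 : Dn ≠ 0) (N : ℤ) (k : Fin n → ℤ) :
    Algebra.trace ℚ F (et B cc Dn N k) = (N / Dn : ℚ) := by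
  have h : (Dn : ℚ) ≠ 0 := Nat.cast_ne_zero.2 h0
  have h1 := tr_et_ω B cc h0 N k 0
  rw [B.one] at h1
  simp only [Fin.cons_zero, map_one, mul_one] at h1
  rw [eq_div_iff h, mul_comm]
  simpa using h1

theorem tr_succ (h0 : Dn ≠ 0) (N : ℤ) (k : Fin n → ℤ) (i : Fin n) :
    Algebra.trace ℚ F (et B cc Dn N k * B.ω i.succ) = (cc i * N + Dn * k i) / Dn := by
  have h : (Dn : ℚ) ≠ 0 := Nat.cast_ne_zero.2 h0
  have h1 := tr_et_ω B cc h0 N k i.succ
  simp only [Fin.cons_succ] at h1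
  rw [eq_div_iff h, mul_comm, h1]
  push_cast
  ring

variable {B cc} {d : Ideal (𝓞 F)}

theorem sub_chi (hc : ∀ i, B.ω i.succ - cc i ∈ d) (y : 𝓞 F) : y - chi B cc y ∈ d := by
  have e0 := B.ω.sum_repr y
  rw [Fin.sum_univ_succ, B.one] at e0
  simp only [zsmul_eq_mul, mul_one] at e0
  have e : y - chi B cc y = ∑ i : Fin n, B.ω.repr y i.succ * (B.ω i.succ - cc i) := by
    simp only [chi, mul_sub, Finset.sum_sub_distrib]
    push_cast
    linear_combination -e0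
  rw [e]
  exact Ideal.sum_mem _ fun i _ => Ideal.mul_mem_left _ _ (hc i)

theorem chi_one : chi B cc 1 = 1 := by
  rw [← B.one, chi]
  simp [Finsupp.single_apply, (Fin.succ_ne_zero _).symm]

variable (hN : Ideal.absNorm d = Dn) (hs : Squarefree Dn) (hc : ∀ i, B.ω i.succ - cc i ∈ d)

include hN hs hc

theorem mem_iff (y : 𝓞 F) : y ∈ d ↔ (Dn : ℤ) ∣ chi B cc y := by
  rw [← hN, ← S4.Quad.int_mem (hN ▸ hs)]
  exact ⟨fun h => by simpa using sub_mem h (sub_chi hc y),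
    fun h => by simpa using add_mem (sub_chi hc y) h⟩

theorem tr_int (N : ℤ) (k : Fin n → ℤ) (y : 𝓞 F) (hy : y ∈ d) :
    ∃ z : ℤ, Algebra.trace ℚ F (et B cc Dn N k * y) = z := by
  have h : (Dn : ℚ) ≠ 0 := Nat.cast_ne_zero.2 hs.ne_zero
  obtain ⟨m, hm⟩ := (mem_iff hN hs hc y).1 hy
  refine ⟨m * N + ∑ i : Fin n, B.ω.repr y i.succ * k i, ?_⟩
  rw [tr_et B cc hs.ne_zero, hm, Int.cast_add]
  congr 1
  push_cast
  field_simp

theorem exists_et (η : F) (h : ∀ y ∈ d, ∃ z : ℤ, Algebra.trace ℚ F (η * y) = z) :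
    ∃ N k, η = et B cc Dn N k := by
  have h0 : (Dn : ℚ) ≠ 0 := Nat.cast_ne_zero.2 hs.ne_zero
  obtain ⟨N, hNN⟩ := h Dn (hN ▸ Ideal.absNorm_mem d)
  choose k hk using fun i => h _ (hc i)
  have t1 : Algebra.trace ℚ F η = N / Dn := by
    rw [eq_div_iff h0, ← hNN, mul_comm, ← nsmul_eq_mul, ← map_nsmul, nsmul_eq_mul, mul_comm]
    simp
  refine ⟨N, k, sub_eq_zero.1 (eq_zero B fun b => ?_)⟩
  rw [sub_mul, map_sub, sub_eq_zero]
  refine Fin.cases ?_ (fun i => ?_) b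
  · have e1 : ((B.ω 0 : 𝓞 F) : F) = 1 := by rw [B.one]; simp
    rw [e1, mul_one, mul_one, t1, tr_one B cc hs.ne_zero]
  · have e1 : η * ((B.ω i.succ : 𝓞 F) : F) =
        η * ((B.ω i.succ - cc i : 𝓞 F) : F) + cc i • η := by
      rw [zsmul_eq_mul]
      simp only [RingOfIntegers.coe_eq_algebraMap, map_sub, map_intCast]
      ring
    rw [tr_succ B cc hs.ne_zero, e1, map_add, hk, map_zsmul, t1, zsmul_eq_mul]
    field_simp
    ring

omit hN hs hc in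
theorem span_le {η : F} {e : Ideal (𝓞 F)} :
    FractionalIdeal.spanSingleton (𝓞 F)⁰ η * (e : FractionalIdeal (𝓞 F)⁰ F) ≤ Du F ↔
      ∀ y ∈ e, ∃ z : ℤ, Algebra.trace ℚ F (η * y) = z := by
  constructor
  · intro h y hy
    have h1 := h (FractionalIdeal.mul_mem_mul (FractionalIdeal.mem_spanSingleton_self _ η)
      (FractionalIdeal.mem_coeIdeal_of_mem _ hy))
    simpa using mem_Du.1 h1 1
  · intro h
    rw [FractionalIdeal.mul_le]
    intro _ hv _ hz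
    obtain ⟨v, rfl⟩ := (FractionalIdeal.mem_spanSingleton _).1 hv
    obtain ⟨z, hz', rfl⟩ := (FractionalIdeal.mem_coeIdeal _).1 hz
    refine mem_Du.2 fun x => ?_
    obtain ⟨w, hw⟩ := h (v * z * x) (Ideal.mul_mem_right _ _ (Ideal.mul_mem_left _ _ hz'))
    refine ⟨w, ?_⟩
    rw [← hw, Algebra.smul_def]
    congr 1
    simp only [RingOfIntegers.coe_eq_algebraMap, map_mul]
    ring

omit hN hs hc in
theorem le_one_iff {η : F} {e : Ideal (𝓞 F)} :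
    FractionalIdeal.spanSingleton (𝓞 F)⁰ η *
      ((e * differentIdeal ℤ (𝓞 F) : Ideal (𝓞 F)) : FractionalIdeal (𝓞 F)⁰ F) ≤ 1 ↔
      ∀ y ∈ e, ∃ z : ℤ, Algebra.trace ℚ F (η * y) = z := by
  rw [← span_le, FractionalIdeal.coeIdeal_mul, coeIdeal_differentIdeal ℤ ℚ F (𝓞 F), ← mul_assoc]
  constructor
  · intro h
    have := mul_le_mul_left h (Du F)
    rwa [inv_mul_cancel_right₀ Du_ne, one_mul] at this
  · intro h
    have := mul_le_mul_left h (Du F)⁻¹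
    rwa [mul_inv_cancel₀ Du_ne] at this

omit hN hs hc in
theorem coe_comap {J : FractionalIdeal (𝓞 F)⁰ F} (h1 : J ≤ 1) :
    (((Submodule.comap (Algebra.linearMap (𝓞 F) F) (J : Submodule (𝓞 F) F) : Ideal (𝓞 F))) :
      FractionalIdeal (𝓞 F)⁰ F) = J := by
  ext x
  rw [FractionalIdeal.mem_coeIdeal]
  constructor
  · rintro ⟨y, hy, rfl⟩
    exact hy
  · intro hx
    obtain ⟨y, rfl⟩ := (FractionalIdeal.mem_one_iff _).1 (h1 hx)
    exact ⟨y, hx, rfl⟩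

omit hc in
theorem split {q r : ℕ} (h : Dn = q * r) :
    (d ⊔ Ideal.span {(q : 𝓞 F)}) * (d ⊔ Ideal.span {(r : 𝓞 F)}) = d := by
  apply le_antisymm
  · rw [Ideal.sup_mul, Ideal.mul_sup, Ideal.mul_sup, Ideal.span_singleton_mul_span_singleton]
    refine sup_le (sup_le Ideal.mul_le_left Ideal.mul_le_left) (sup_le Ideal.mul_le_right ?_)
    rw [Ideal.span_singleton_le_iff_mem, ← Nat.cast_mul, ← h, ← hN]
    exact Ideal.absNorm_mem d
  · have hco : IsCoprime (q : ℤ) (r : ℤ) :=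
      Nat.isCoprime_iff_coprime.2 (Nat.coprime_of_squarefree_mul (h ▸ hs))
    have ht : (d ⊔ Ideal.span {(q : 𝓞 F)}) ⊔ (d ⊔ Ideal.span {(r : 𝓞 F)}) = ⊤ :=
      S4.Quad.top_of_coprime hco
        (Ideal.mem_sup_left (Ideal.mem_sup_right (by simp)))
        (Ideal.mem_sup_right (Ideal.mem_sup_right (by simp)))
    rw [Ideal.mul_eq_inf_of_isCoprime (Ideal.isCoprime_iff_sup_eq.2 ht)]
    exact le_inf le_sup_left le_sup_left

theorem level (N : ℤ) (k : Fin n → ℤ) {q : ℕ} (hq : q ∣ Dn) :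
    FractionalIdeal.spanSingleton (𝓞 F)⁰ (et B cc Dn N k) *
      ((d * differentIdeal ℤ (𝓞 F) : Ideal (𝓞 F)) : FractionalIdeal (𝓞 F)⁰ F) ≤
      ((d ⊔ Ideal.span {(q : 𝓞 F)} : Ideal (𝓞 F)) : FractionalIdeal (𝓞 F)⁰ F) ↔ (q : ℤ) ∣ N := by
  obtain ⟨r, hr⟩ := hq
  have h0 : Dn ≠ 0 := hs.ne_zero
  have q0 : q ≠ 0 := fun h => h0 (by rw [hr, h, zero_mul])
  have r0 : r ≠ 0 := fun h => h0 (by rw [hr, h, mul_zero])
  have q0' : (q : ℚ) ≠ 0 := Nat.cast_ne_zero.2 q0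
  have r0' : (r : ℚ) ≠ 0 := Nat.cast_ne_zero.2 r0
  have e0 : ((d ⊔ Ideal.span {(q : 𝓞 F)} : Ideal (𝓞 F)) : FractionalIdeal (𝓞 F)⁰ F) ≠ 0 := by
    rw [FractionalIdeal.coeIdeal_ne_zero]
    intro h
    have : (q : 𝓞 F) ∈ d ⊔ Ideal.span {(q : 𝓞 F)} := Ideal.mem_sup_right (by simp)
    rw [h, Ideal.mem_bot] at this
    exact q0 (Nat.cast_eq_zero.1 this)
  have e1 : FractionalIdeal.spanSingleton (𝓞 F)⁰ (et B cc Dn N k) *
      ((d * differentIdeal ℤ (𝓞 F) : Ideal (𝓞 F)) : FractionalIdeal (𝓞 F)⁰ F) =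
      FractionalIdeal.spanSingleton (𝓞 F)⁰ (et B cc Dn N k) *
      (((d ⊔ Ideal.span {(r : 𝓞 F)}) * differentIdeal ℤ (𝓞 F) : Ideal (𝓞 F)) :
        FractionalIdeal (𝓞 F)⁰ F) *
      ((d ⊔ Ideal.span {(q : 𝓞 F)} : Ideal (𝓞 F)) : FractionalIdeal (𝓞 F)⁰ F) := by
    rw [mul_assoc, ← FractionalIdeal.coeIdeal_mul, mul_comm (_ * _) (d ⊔ _), ← mul_assoc,
      split hN hs hr]
  have tr : ∀ x : 𝓞 F, Algebra.trace ℚ F (et B cc Dn N k * ((x * r : 𝓞 F) : F)) =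
      (chi B cc x * N) / q + (r * ∑ i : Fin n, B.ω.repr x i.succ * k i : ℤ) := by
    intro x
    have e2 : et B cc Dn N k * ((x * r : 𝓞 F) : F) = r • (et B cc Dn N k * x) := by
      rw [nsmul_eq_mul]
      push_cast
      ring
    rw [e2, map_nsmul, tr_et B cc h0, nsmul_eq_mul, hr, Int.cast_mul]
    push_cast
    field_simp
  rw [e1]
  constructor
  · intro h
    have h1 := mul_le_mul_left h
      ((d ⊔ Ideal.span {(q : 𝓞 F)} : Ideal (𝓞 F)) : FractionalIdeal (𝓞 F)⁰ F)⁻¹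
    rw [mul_inv_cancel_right₀ e0, mul_inv_cancel₀ e0, le_one_iff] at h1
    obtain ⟨z, hz⟩ := h1 (1 * r) (Ideal.mem_sup_right (by simp))
    rw [tr, chi_one] at hz
    refine ⟨z - r * ∑ i : Fin n, B.ω.repr 1 i.succ * k i, ?_⟩
    have : (N : ℚ) = q * (z - (r * ∑ i : Fin n, B.ω.repr 1 i.succ * k i : ℤ)) := by
      rw [← hz]
      field_simp
      push_cast
      ring
    exact_mod_cast this
  · rintro ⟨m, rfl⟩
    have h1 : FractionalIdeal.spanSingleton (𝓞 F)⁰ (et B cc Dn (q * m) k) *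
        (((d ⊔ Ideal.span {(r : 𝓞 F)}) * differentIdeal ℤ (𝓞 F) : Ideal (𝓞 F)) :
          FractionalIdeal (𝓞 F)⁰ F) ≤ 1 := by
      rw [le_one_iff]
      intro y hy
      obtain ⟨y1, hy1, y2, hy2, rfl⟩ := Submodule.mem_sup.1 hy
      obtain ⟨x, rfl⟩ := Ideal.mem_span_singleton'.1 hy2
      obtain ⟨z, hz⟩ := tr_int hN hs hc (q * m) k y1 hy1
      refine ⟨z + (chi B cc x * m + r * ∑ i : Fin n, B.ω.repr x i.succ * k i), ?_⟩
      have e3 : ((y1 + x * r : 𝓞 F) : F) = (y1 : F) + ((x * r : 𝓞 F) : F) := map_add _ _ _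
      rw [e3, mul_add, map_add, hz, tr, Int.cast_add, Int.cast_add]
      congr 2
      push_cast
      field_simp
    simpa using mul_le_mul_left h1
      ((d ⊔ Ideal.span {(q : 𝓞 F)} : Ideal (𝓞 F)) : FractionalIdeal (𝓞 F)⁰ F)

end Co

theorem co : CoStmt := by
  intro n p _ c D C A
  have hs : Squarefree D.Dn := D.sp.sqf
  have e : ∀ N k, A.et N k = Co.et A.B A.cc D.Dn N k := fun _ _ => rfl
  refine ⟨fun η => ⟨Co.exists_et A.dd_nrm hs A.cc_mem η, ?_⟩, fun N k => ?_⟩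
  · rintro ⟨N, k, rfl⟩
    exact Co.tr_int A.dd_nrm hs A.cc_mem N k
  · have h1 : ((A.jd (A.et N k) : Ideal (𝓞 D.F)) : FractionalIdeal (𝓞 D.F)⁰ D.F) =
        FractionalIdeal.spanSingleton _ (A.et N k) *
          ((A.dd * differentIdeal ℤ (𝓞 D.F) : Ideal (𝓞 D.F)) : FractionalIdeal (𝓞 D.F)⁰ D.F) :=
      Co.coe_comap (Co.le_one_iff.2 (Co.tr_int A.dd_nrm hs A.cc_mem N k))
    refine ⟨Co.tr_one _ _ hs.ne_zero N k, Co.tr_succ _ _ hs.ne_zero N k, h1, ?_, fun q hq => ?_⟩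
    · rw [← FractionalIdeal.coeIdeal_absNorm (K := D.F), h1, map_mul,
        FractionalIdeal.absNorm_span_singleton, FractionalIdeal.coeIdeal_absNorm, map_mul,
        A.dd_nrm, absNorm_differentIdeal D.F, Nat.cast_mul, mul_assoc]
    · rw [← FractionalIdeal.coeIdeal_le_coeIdeal D.F, h1, e]
      exact Co.level A.dd_nrm hs A.cc_mem N k hq

end Pool.Agent.Lib.MP_9177b7_ag.SO
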