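import Pool.Agent.Lib.MP_9177b7_ag.B.Grp

/-!
The group theoretic step for the group of signed permutations.
-/

set_option autoImplicit false

namespace Pool.Agent.Lib.MP_9177b7_ag.SO.EGrp

open Subgroup Finset Equiv B B.Grp

variable {G : Type} [Group G]

theorem cover [Fintype G] {f : Subgroup G → Prop} (H : Hyp f) {A B : Subgroup G} (hB : B < A)
    (h : ∀ y ∈ A, y ∉ B → ∃ K, ¬ f K ∧ y ∈ K) : ¬ f A := fun hf => by
  classical
  choose! F h1 h2 using h
  refine hB.ne (eq_of_le_of_card_ge hB.le (H A B (univ.filter fun y => y ∈ A ∧ y ∉ B) (fun _ => ⊥)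
    F (cnt_le fun y => ?_) (fun c hc => h1 c (mem_filter.1 hc).2.1 (mem_filter.1 hc).2.2) hf).2)
  by_cases k : y = 1
  · simp [ind, k]
  by_cases a : y ∈ A
  · by_cases b : y ∈ B
    · simp [ind, k, a, b]
    · have := single_le_sum (f := fun c => ind (F c) y) (fun _ _ => Nat.zero_le _)
        (mem_filter_univ (p := fun y => y ∈ A ∧ y ∉ B) y |>.2 ⟨a, b⟩)
      simpa [ind, k, a, b, h2 y a b] using this
  · simp [ind, k, a]

theorem sym {X : Type} [Fintype X] [DecidableEq X] (hX : 3 ≤ Fintype.card X)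
    {f : Subgroup (Perm X) → Prop} (H : Hyp f) (h0 : ¬ f ⊥)
    (fix : ∀ (t : Perm X) x, t * t = 1 → t x = x → ¬ f (zpowers t)) : ¬ f ⊤ := by
  classical
  obtain ⟨x₀⟩ : Nonempty X := Fintype.card_pos_iff.1 (by omega)
  have inv : ∀ t : Perm X, t * t = 1 → ¬ f (zpowers t) := fun t ht => by
    by_cases k : t x₀ = x₀
    · exact fix t x₀ ht k
    have e : ∀ x, t (t x) = x := fun x => congrArg (· x) ht
    obtain ⟨y, y1, y2⟩ : ∃ y, y ≠ x₀ ∧ y ≠ t x₀ := by
      by_contra! k
      have := card_le_card (s := (univ : Finset X)) (t := {x₀, t x₀}) fun y _ => by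
        simpa [or_iff_not_imp_left] using k y
      have := card_le_two (a := x₀) (b := t x₀)
      rw [card_univ] at *
      omega
    have y3 := swap_apply_of_ne_of_ne y1 y2
    by_cases k' : t y = y
    · exact fix t y ht k'
    have cm : swap x₀ (t x₀) * t * swap x₀ (t x₀) = t⁻¹ := by
      rw [inv_eq_of_mul_eq_one_right ht, mul_assoc, mul_swap_eq_swap_mul, e, swap_comm,
        swap_mul_self_mul]
    refine dih H h0 (t := swap x₀ (t x₀)) (swap_mul_self _ _) cm ?_ fun c hc => ?_
    · rw [mem_two ht]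
      rintro (h | h)
      exacts [k (swap_eq_one_iff.1 h).symm, k' (h ▸ y3)]
    · rcases (mem_two ht).1 hc with rfl | rfl
      · rw [mul_one]
        exact fix _ y (swap_mul_self _ _) y3
      · exact fix _ x₀ (by rw [← mul_assoc, cm, inv_mul_cancel]) (by simp)
  have all : ∀ s : Perm X, ¬ f (zpowers s) := fun s => by
    obtain ⟨t, h1, h2⟩ := exists_inv s
    by_cases k : t ∈ zpowers s
    · obtain ⟨n, k⟩ := k
      refine inv s ?_
      rw [← eq_inv_iff_mul_eq_one, ← h2, mul_assoc,
        (k ▸ Commute.self_zpow s n : Commute s t).eq, ← mul_assoc, h1, one_mul]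
    · refine dih H h0 h1 h2 k fun c hc => ?_
      exact inv _ (by rw [← mul_assoc, conj h1 h2 hc, inv_mul_cancel])
  have : Nontrivial X := Fintype.one_lt_card_iff_nontrivial.1 (by omega)
  exact cover H bot_lt_top fun y _ _ => ⟨_, all y, mem_zpowers y⟩

theorem sum_comp {Q : Type} [Group Q] [Fintype G] [Fintype Q] (π : G →* Q)
    (hπ : Function.Surjective π) (F : Q → ℕ) :
    ∑ g, F (π g) = Nat.card π.ker * ∑ s, F s := by
  classical
  rw [← sum_fiberwise univ π, mul_sum]
  refine sum_congr rfl fun s _ => ?_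
  rw [sum_congr rfl fun g hg => congrArg F (mem_filter.1 hg).2, sum_const, smul_eq_mul,
    MonoidHom.card_fiber_eq_of_mem_range π (hπ s) ⟨1, map_one π⟩, Nat.card_eq_fintype_card,
    Fintype.card_subtype]
  simp only [MonoidHom.mem_ker]

theorem card_eq [Fintype G] (H : Subgroup G) : Nat.card H = ∑ g, ind H g := by
  classical
  rw [Nat.card_eq_fintype_card, Fintype.card_subtype, card_filter]
  rfl

theorem hyp_comap {Q : Type} [Group Q] [Fintype G] [Fintype Q] (π : G →* Q)
    (hπ : Function.Surjective π) {f : Subgroup G → Prop} (H : Hyp f) :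
    Hyp fun K : Subgroup Q => f (K.comap π) := by
  classical
  intro A B S F F' h1 h2 h3
  have e : ∀ (K : Subgroup Q) φ, cnt (K.comap π) φ = Nat.card π.ker * cnt K (π φ) := fun K φ => by
    rw [cnt_eq, cnt_eq, ← sum_comp π hπ]
    simp [ind]
  have e' : ∀ K : Subgroup Q, Nat.card (K.comap π) = Nat.card π.ker * Nat.card K := fun K => by
    rw [card_eq, card_eq K, ← sum_comp π hπ]
    rfl
  obtain ⟨j, hj⟩ := hπ.hasRightInverse
  have := H (A.comap π) (B.comap π) (S.map ⟨j, hj.injective⟩) (fun g => (F (π g)).comap π)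
    (fun g => (F' (π g)).comap π) (fun φ => by
      simp only [sum_map, Function.Embedding.coeFn_mk, hj _, e, ← mul_sum, ← mul_add]
      exact Nat.mul_le_mul_left _ (h1 _)) (fun c hc => by
      obtain ⟨s, hs, rfl⟩ := mem_map.1 hc
      simpa only [Function.Embedding.coeFn_mk, hj s] using h2 s hs) h3
  rw [e', e'] at this
  exact ⟨this.1, Nat.le_of_mul_le_mul_left this.2 Nat.card_pos⟩

/-- The change of sign. -/
def ng {X : Type} (y : X × Bool) : X × Bool := (y.1, !y.2)

theorem sgn [Finite G] {X : Type} [Fintype X] (hX : 3 ≤ Fintype.card X)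
    (ρ : G →* Perm (X × Bool)) (inj : Function.Injective ρ)
    (cm : ∀ g y, ρ g (ng y) = ng (ρ g y))
    (sur : ∀ π : Perm (X × Bool), (∀ y, π (ng y) = ng (π y)) → ∃ g, ρ g = π)
    (y₀ : X × Bool) (H₀ : Subgroup G) (hH : ∀ g, g ∈ H₀ ↔ ρ g y₀ = y₀) {f : Subgroup G → Prop}
    (H : Hyp f) (hf : f ⊤) : f H₀ := by
  classical
  by_contra hn
  have := Fintype.ofFinite G
  have fst : ∀ g x b, (ρ g (x, b)).1 = (ρ g (x, true)).1 := fun g x b => by
    cases b
    · exact (congrArg Prod.fst (cm g (x, true)) :)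
    · rfl
  let π : G →* Perm X := MonoidHom.toHomPerm
    { toFun := fun g x => (ρ g (x, true)).1
      map_one' := by
        funext x
        rw [map_one]
        rfl
      map_mul' := fun g h => by
        funext x
        rw [map_mul]
        exact (fst g (ρ h (x, true)).1 (ρ h (x, true)).2 :) }
  have hp : ∀ g y, (ρ g y).1 = π g y.1 := fun g y => fst g y.1 y.2
  let fl : (X → Bool) → Perm (X × Bool) := fun u =>
    Function.Involutive.toPerm (fun y => (y.1, xor (u y.1) y.2)) fun y => by simp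
  have hfl : ∀ u : X → Bool, ∃ g, ∀ y, ρ g y = (y.1, xor (u y.1) y.2) := fun u => by
    obtain ⟨g, hg⟩ := sur (fl u) fun y => by simp [fl, ng]
    exact ⟨g, fun y => by rw [hg]; rfl⟩
  have hs : ∀ s : Perm X, ∃ g, ∀ y, ρ g y = (s y.1, y.2) := fun s => by
    obtain ⟨g, hg⟩ := sur (s.prodCongr (Equiv.refl _)) fun y => rfl
    exact ⟨g, fun y => by rw [hg]; rfl⟩
  have hπ : Function.Surjective π := fun s => by
    obtain ⟨g, hg⟩ := hs s
    exact ⟨g, Perm.ext fun x => (hp g (x, true)).symm.trans (congrArg Prod.fst (hg _))⟩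
  let St : X × Bool → Subgroup G := fun y => (MulAction.stabilizer (Perm (X × Bool)) y).comap ρ
  have mS : ∀ y g, g ∈ St y ↔ ρ g y = y := fun _ _ => Iff.rfl
  have nS : ∀ y, ¬ f (St y) := fun y k => by
    obtain ⟨g, hg⟩ := hs (swap y₀.1 y.1)
    obtain ⟨g', hg'⟩ := hfl fun _ => xor y.2 y₀.2
    have e : ρ (g' * g) y₀ = y := by
      rw [map_mul, Perm.mul_apply, hg, hg']
      simp
    refine hn (H (St y) H₀ ∅ zpowers zpowers (by
      simpa using cnt_conj (g' * g) fun z hz => (hH _).2 (by
        rw [map_mul, map_mul, Perm.mul_apply, Perm.mul_apply, e, (mS _ _).1 hz, map_inv,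
          Perm.inv_eq_iff_eq, e])) (by simp) k).1
  obtain ⟨c, hc⟩ := hfl fun _ => true
  have two : ∀ g (y : X × Bool), π g y.1 = y.1 → ρ g y = y ∨ ρ g y = ng y := fun g y h => by
    have := (hp g y).trans h
    by_cases k : (ρ g y).2 = y.2
    · exact Or.inl (Prod.ext this k)
    · exact Or.inr (Prod.ext this (Bool.eq_not_iff.2 k))
  have ne : ∀ y : X × Bool, ng y ≠ y := fun y h => by simpa [ng] using congrArg Prod.snd h
  have nn : ∀ y : X × Bool, ng (ng y) = y := fun y => by simp [ng]
  have c1 : π c = 1 := Perm.ext fun x => (hp c (x, true)).symm.trans (by rw [hc]; rfl)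
  have c2 : c * c = 1 := inj (Perm.ext fun y => by simp [hc])
  have h0 : ¬ f ((⊥ : Subgroup (Perm X)).comap π) := by
    refine cover H (B := zpowers c) (lt_of_le_of_ne (zpowers_le.2 c1) fun e => ?_) fun y hy k => ?_
    · obtain ⟨x, hx⟩ := Fintype.exists_ne_of_one_lt_card (α := X) (by omega) y₀.1
      obtain ⟨g, hg⟩ := hfl fun z => decide (z = x)
      have : g ∈ zpowers c :=
        e ▸ Perm.ext fun x => (hp g (x, true)).symm.trans (by rw [hg]; rfl)
      rcases (mem_two c2).1 this with rfl | rfl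
      · simpa using hg (x, true)
      · simpa [hx.symm] using congrArg Prod.snd ((hc y₀).symm.trans (hg y₀))
    · by_contra! a
      refine k ((mem_two c2).2 (Or.inr (inj (Perm.ext fun z => ?_))))
      have := two y z (by rw [show π y = 1 from hy]; rfl)
      rw [this.resolve_left (a _ (nS z)), hc]
      simp [ng]
  refine sym hX (hyp_comap π hπ H) h0 (fun t x ht hx => ?_) (by simpa using hf)
  by_cases t1 : t = 1
  · rwa [t1, zpowers_one_eq_bot]
  have a1 : ∀ g, g ∈ (zpowers t).comap π ↔ π g = 1 ∨ π g = t := fun g => mem_two ht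
  have a2 : ∀ g ∈ (zpowers t).comap π, ρ g (x, true) = (x, true) ∨ ρ g (x, true) = ng (x, true) :=
    fun g hg => two g _ (by rcases (a1 g).1 hg with h | h <;> simp [h, hx])
  have a3 : ∀ a ∈ (zpowers t).comap π, ∀ b ∈ (zpowers t).comap π,
      (π (a * b) = 1 ↔ (π a = 1 ↔ π b = 1)) ∧ (ρ (a * b) (x, true) = (x, true) ↔
        (ρ a (x, true) = (x, true) ↔ ρ b (x, true) = (x, true))) := fun a ha b hb => by
    rw [map_mul, map_mul, Perm.mul_apply]
    constructor
    · rcases (a1 a).1 ha with h | h <;> rcases (a1 b).1 hb with k | k <;> simp [h, k, t1, ht]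
    · rcases a2 a ha with h | h <;> rcases a2 b hb with k | k <;> simp [h, k, cm, ne, nn]
  let K : Subgroup G :=
    { carrier := {g | g ∈ (zpowers t).comap π ∧ (π g = 1 ↔ ρ g (x, true) = (x, true))}
      one_mem' := ⟨one_mem _, by simp⟩
      mul_mem' := fun {a b} ha hb => ⟨mul_mem ha.1 hb.1, by
        rw [(a3 a ha.1 b hb.1).1, (a3 a ha.1 b hb.1).2, ha.2, hb.2]⟩
      inv_mem' := fun {a} ha => ⟨inv_mem ha.1, by
        rw [map_inv, map_inv, inv_eq_one, Perm.inv_eq_iff_eq, ha.2, eq_comm]⟩ }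
  refine cover H (B := K) (lt_of_le_of_ne (fun _ h => h.1) fun e => ?_) fun y hy k => ?_
  · have : c ∈ K := e ▸ (a1 c).2 (Or.inl c1)
    simpa [hc] using this.2.1 c1
  · by_cases b : π y = 1
    · exact ⟨_, h0, b⟩
    · exact ⟨_, nS (x, true), by_contra fun b' => k ⟨hy, iff_of_false b b'⟩⟩

open Classical in
theorem hyp_of [Finite G] {f : Subgroup G → Prop}
    (hyp : ∀ s t : Multiset (Subgroup G), s.card + t.card ≤ 4 * Nat.card G →
      (∀ φ, (s.map fun H => cnt H φ).sum ≤ (t.map fun H => cnt H φ).sum) →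
      (s.map fun H => if f H then Nat.card H else 0).sum ≤
        (t.map fun H => if f H then Nat.card H else 0).sum) : Hyp f := fun A B S F F' h1 h2 h3 => by
  have := Fintype.ofFinite G
  have := hyp (A ::ₘ S.val.map F) (B ::ₘ S.val.map F') (by
    have := S.card_le_univ
    have := Fintype.card_pos (α := G)
    simp only [Multiset.card_cons, Multiset.card_map, card_val, Nat.card_eq_fintype_card]
    omega) (by simpa using h1)
  simp only [Multiset.map_cons, Multiset.sum_cons, Multiset.map_map, Function.comp,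
    sum_map_val, if_pos h3, sum_congr rfl fun c hc => if_neg (h2 c hc), sum_const_zero] at this
  have p := Nat.card_pos (α := A)
  by_cases k : f B
  · exact ⟨k, by rw [if_pos k] at this; omega⟩
  · rw [if_neg k] at this
    omega

end Pool.Agent.Lib.MP_9177b7_ag.SO.EGrp
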