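import Pool.Agent.Lib.MP_9177b7_ag.S4.EZ
import Pool.Agent.Lib.MP_9177b7_ag.SO.EGrp

/-!
A lower bound for the quotient of the residues of the zeta functions of a Weyl CM field and of its
real subfield.
-/

open NumberField Pool.Agent.Shared.PrimeZeta Pool.Agent.Shared.FrobeniusDensity

noncomputable section

namespace Pool.Agent.Lib.MP_9177b7_ag.SO

open B B.ZAsm

/-- No exceptional zero for Weyl CM fields of degree at least six. -/
def EStmt : Prop :=
  ∀ (d A : ℕ) (δ : ℝ), 0 < δ → ∃ C X₀ : ℝ, 0 < C ∧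
    ∀ (E : Type) [Field E] [NumberField E] [IsCMField E] (X x : ℝ), 6 ≤ Module.finrank ℚ E →
      Module.finrank ℚ E ≤ d → (∀ π : Equiv.Perm (E →+* ℂ),
        (∀ ψ, π (ComplexEmbedding.conjugate ψ) = ComplexEmbedding.conjugate (π ψ)) →
        ∃ σ : ℂ ≃+* ℂ, ∀ ψ y, π ψ y = σ (ψ y)) →
      X₀ ≤ X → |(discr E : ℝ)| ≤ X ^ A → X ^ δ ≤ x → x ≤ X →
      Real.exp (tsumP (fun q => (nI E q : ℝ) - nI (maximalRealSubfield E) q) x) *
          dedekindZeta_residue (maximalRealSubfield E) ≤ C * dedekindZeta_residue E ∧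
      dedekindZeta_residue (maximalRealSubfield E) ≤
        C * Real.log X ^ Module.finrank ℚ (maximalRealSubfield E) * dedekindZeta_residue E

namespace EZ

theorem core (hZ : ZeroStmt) (hF : FrobStmt) (K : Type) [Field K] [NumberField K]
    (d : ℕ) (hK : Module.finrank ℚ K ≤ d) : ∃ c C : ℝ, 0 < c ∧
    ∀ (E : Type) [Field E] [NumberField E] [IsGalois ℚ E]
      (G₀ H₀ : Subgroup (E ≃ₐ[ℚ] E)) (Θ : 𝓞 E) (R Lg : ℝ)
      (L F : Type) [Field L] [NumberField L] [Field F] [NumberField F],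
      Module.finrank ℚ E ≤ d → Module.finrank ℚ L ≤ d → Module.finrank ℚ F ≤ d →
      (∀ f, Grp.Hyp f → f G₀ → f H₀) →
      (∀ q, nI (IntermediateField.fixedField G₀) q = nI K q) →
      (∀ q, nI (IntermediateField.fixedField H₀) q = nI L q) → 1 ≤ R →
      (∀ σ : E ≃ₐ[ℚ] E, σ Θ = Θ → σ = 1) → (∀ φ : E →+* ℂ, ‖φ Θ‖ ≤ R) →
      LL F ≤ Lg → LL L ≤ Lg → d ^ 2 * Real.log (2 * R) + 1 ≤ Lg →
      ∃ b : ℝ, c / Lg ≤ b ∧ b ≤ 1 / Lg ∧
        Real.log (dedekindZeta_residue F) + Pz L b ≤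
          Real.log (dedekindZeta_residue L) + Pz F b + C := by
  classical
  obtain ⟨c₀, B, hc₀, hc₁, hz⟩ := hZ d
  obtain ⟨ρK, hρK, hzK⟩ := hz K hK (LL K) le_rfl
  have hLK := one_le_LL K
  set r₀ : ℝ := min (c₀ / LL K) ρK with hr₀
  have hr₀p : 0 < r₀ := lt_min (by positivity) hρK
  have hr₀c : r₀ ≤ c₀ := (min_le_left _ _).trans (div_le_self hc₀.le hLK)
  have hB : 0 ≤ B := (abs_nonneg _).trans
    ((hzK r₀ r₀ hr₀p le_rfl (min_le_left _ _)).2.1 (min_le_right _ _)).1
  set τ : ℝ := 4 * d * (d * B) + 4 * d * d ^ 2 + 2 * B + 1 with hτ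
  have hτ0 : 0 < τ := by positivity
  have hτB : 2 * B < τ := by
    have : (0 : ℝ) ≤ 4 * d * (d * B) + 4 * d * d ^ 2 := by positivity
    linarith
  set T : ℝ := Real.exp τ with hT
  have hT1 : 1 ≤ T := Real.one_le_exp hτ0.le
  refine ⟨r₀ / T ^ (2 ^ d + 1), 2 * B, by positivity, ?_⟩
  intro E _ _ _ G₀ H₀ Θ R Lg L F _ _ _ _ hE hL hFd hG eK eL hR hΘ hΘR hLF hLL hLg
  have hLg1 : 1 ≤ Lg := (one_le_LL F).trans hLF
  obtain ⟨Δ, hΔ0, hΔR, hΔE, hfr⟩ := hF E Θ R hR hΘ hΘR
  have hlogΔ : Real.log Δ ≤ d ^ 2 * Real.log (2 * R) := by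
    have h1 : (0 : ℝ) < Δ := by exact_mod_cast Nat.pos_of_ne_zero hΔ0
    refine (Real.log_le_log h1 hΔR).trans ?_
    rw [Real.log_pow]
    have h2 : 0 ≤ Real.log (2 * R) := Real.log_nonneg (by linarith)
    have h3 : ((Module.finrank ℚ E ^ 2 : ℕ) : ℝ) ≤ d ^ 2 := by
      exact_mod_cast Nat.pow_le_pow_left hE 2
    gcongr
  have hLH : ∀ H : Subgroup (E ≃ₐ[ℚ] E), LL (IntermediateField.fixedField H) ≤ Lg := by
    intro H
    have h1 : (discr (IntermediateField.fixedField H)).natAbs ≤ Δ :=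
      (Nat.le_of_dvd (Int.natAbs_pos.2 (discr_ne_zero E))
        (Int.natAbs_dvd_natAbs.2 (discr_dvd_discr _ E))).trans hΔE
    have h2 : |(discr (IntermediateField.fixedField H) : ℝ)| ≤ Δ := by
      rw [← Int.cast_abs, ← Int.natCast_natAbs, Int.cast_natCast]
      exact Nat.cast_le.2 h1
    have h3 : 0 < |(discr (IntermediateField.fixedField H) : ℝ)| :=
      abs_pos.2 (Int.cast_ne_zero.2 (discr_ne_zero _))
    have := Real.log_le_log h3 h2
    rw [LL]
    linarith
  choose ρH hρH hzH using fun H : Subgroup (E ≃ₐ[ℚ] E) =>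
    hz (IntermediateField.fixedField H) ((rank_le_rank _).trans hE) Lg (hLH H)
  obtain ⟨ρL, -, hzL⟩ := hz L hL Lg hLL
  obtain ⟨ρF, -, hzF⟩ := hz F hFd Lg hLF
  have : Fintype (Subgroup (E ≃ₐ[ℚ] E)) := Fintype.ofFinite _
  have hcG : Nat.card (E ≃ₐ[ℚ] E) ≤ d := by rwa [IsGalois.card_aut_eq_finrank]
  obtain ⟨i, hi, hp⟩ := pigeon (fun o : Option (Subgroup (E ≃ₐ[ℚ] E)) => o.elim ρL ρH)
    (r := r₀ / Lg) (by positivity) hT1
  have hi' : i ≤ 2 ^ d + 1 := by
    rw [Fintype.card_option, ← Nat.card_eq_fintype_card] at hi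
    have := (card_subgroup_le (E ≃ₐ[ℚ] E)).trans (Nat.pow_le_pow_right two_pos hcG)
    omega
  set b : ℝ := r₀ / Lg / T ^ i with hb
  set a : ℝ := r₀ / Lg / T ^ (i + 1) with ha
  have ha0 : 0 < a := by positivity
  have hTi : 1 ≤ T ^ i := one_le_pow₀ hT1
  have hab : a ≤ b := div_le_div_of_nonneg_left (by positivity) (by positivity)
    (pow_le_pow_right₀ hT1 (Nat.le_succ i))
  have hb0 : 0 < b := by positivity
  have hb1 : b ≤ r₀ / Lg := div_le_self (by positivity) hTi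
  have hb2 : b ≤ c₀ / Lg := hb1.trans (by gcongr)
  have hb3 : b ≤ r₀ := hb1.trans (div_le_self hr₀p.le hLg1)
  have hb4 : b ≤ 1 / Lg := hb2.trans (by gcongr)
  have hlog : Real.log (b / a) = τ := by
    have : b / a = T := by
      rw [hb, ha, pow_succ]
      field_simp
    rw [this, hT, Real.log_exp]
  have h1 : ∀ H, b ≤ ρH H → |dP a b H - τ| ≤ B := fun H h => by
    rw [← hlog]; exact ((hzH H a b ha0 hab hb2).2.1 h).1
  have h2 : ∀ H, ¬ b ≤ ρH H → |dP a b H| ≤ B := fun H h =>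
    (hzH H a b ha0 hab hb2).1 ((hp (some H)).resolve_right h)
  have hf0 : b ≤ ρH G₀ := by
    by_contra h
    have h3 := h2 G₀ h
    have h4 := ((hzK a b ha0 hab (hb3.trans (min_le_left _ _))).2.1
      (hb3.trans (min_le_right _ _))).1
    rw [dP, ← Pz_congr eK, ← Pz_congr eK] at h3
    rw [hlog] at h4
    rw [abs_le] at h3 h4
    linarith [h3.2, h4.1]
  have hf1 : b ≤ ρH H₀ := by
    refine hG (fun H => b ≤ ρH H) (EGrp.hyp_of fun s t hst hle => ?_) hf0
    have e1 := ms_bound s (fun H => b ≤ ρH H) (dP a b) (fun H => (card_le_rank H).trans hE) h1 h2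
    have e2 := ms_bound t (fun H => b ≤ ρH H) (dP a b) (fun H => (card_le_rank H).trans hE) h1 h2
    have e3 := ineqP hE hΔ0 hfr ha0 hab s t hle
    have e4 : (s.card : ℝ) + t.card ≤ 4 * d := by
      have : s.card + t.card ≤ 4 * d := hst.trans (by gcongr)
      exact_mod_cast this
    have e5 : b * Real.log Δ ≤ 1 := by
      have : Real.log Δ ≤ Lg := by linarith
      calc b * Real.log Δ ≤ 1 / Lg * Lg := by
            exact mul_le_mul hb4 this (Real.log_natCast_nonneg _) (by positivity)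
        _ = 1 := by field_simp
    have e6 : (s.card : ℝ) * d ^ 2 * (b * Real.log Δ) ≤ 4 * d * d ^ 2 := by
      have h5 : (s.card : ℝ) ≤ 4 * d := by
        have : (0 : ℝ) ≤ t.card := Nat.cast_nonneg _
        linarith
      calc (s.card : ℝ) * d ^ 2 * (b * Real.log Δ) ≤ 4 * d * d ^ 2 * 1 :=
            mul_le_mul (by gcongr) e5 (mul_nonneg hb0.le (Real.log_natCast_nonneg _))
              (by positivity)
        _ = _ := mul_one _
    by_contra hcon
    rw [not_le, ← Nat.succ_le_iff, ← Nat.cast_le (α := ℝ), Nat.cast_succ] at hcon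
    have e7 := mul_le_mul_of_nonneg_right hcon hτ0.le
    have e8 := mul_le_mul_of_nonneg_right e4 (show (0 : ℝ) ≤ d * B by positivity)
    rw [abs_le] at e1 e2
    have := e1.1
    have := e2.2
    nlinarith
  have hbL : b ≤ ρL := by
    by_contra h
    have h3 := (hzL a b ha0 hab hb2).1 ((hp none).resolve_right h)
    have h4 := h1 H₀ hf1
    rw [dP, ← Pz_congr eL, ← Pz_congr eL] at h4
    rw [abs_le] at h3 h4
    linarith [h3.2, h4.1]
  refine ⟨b, ?_, hb4, ?_⟩
  · rw [hb, div_right_comm]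
    exact div_le_div_of_nonneg_left (by positivity) (by positivity) (pow_le_pow_right₀ hT1 hi')
  · have h3 := ((hzL a b ha0 hab hb2).2.1 hbL).2
    have h4 := (hzF a b ha0 hab hb2).2.2
    linarith

section gal

open IntermediateField ComplexEmbedding

variable (E : Type) [Field E] [NumberField E]

/-- The normal closure. -/
abbrev EE : IntermediateField ℚ ℂ := normalClosure ℚ E ℂ

instance : NumberField (EE E) := @NumberField.mk _ _ inferInstance inferInstance

instance : IsNormalClosure ℚ E (EE E) :=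
  Algebra.IsAlgebraic.isNormalClosure_normalClosure fun _ => IsAlgClosed.splits _

instance : Normal ℚ (EE E) := IsNormalClosure.normal (K := E)

instance : IsGalois ℚ (EE E) := {}

variable {E}

/-- The embeddings into the normal closure. -/
def emb (ψ : E →+* ℂ) : E →ₐ[ℚ] EE E := (normalClosure.algHomEquiv ℚ E ℂ).symm ψ.toRatAlgHom

theorem emb_coe (ψ : E →+* ℂ) (x : E) : (emb ψ x : ℂ) = ψ x := rfl

/-- The translate of an embedding. -/
def act (σ : EE E ≃ₐ[ℚ] EE E) (ψ : E →+* ℂ) : E →+* ℂ :=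
  ((EE E).val : EE E →+* ℂ).comp ((σ : EE E →+* EE E).comp (emb ψ : E →+* EE E))

theorem emb_act (σ : EE E ≃ₐ[ℚ] EE E) (ψ : E →+* ℂ) (x : E) : emb (act σ ψ) x = σ (emb ψ x) :=
  Subtype.ext rfl

/-- The action as a homomorphism. -/
def rho : (EE E ≃ₐ[ℚ] EE E) →* Equiv.Perm (E →+* ℂ) :=
  MonoidHom.toHomPerm
    { toFun := act
      map_one' := rfl
      map_mul' := fun _ _ => rfl }

theorem rho_inj : Function.Injective (rho (E := E)) := by
  rw [injective_iff_map_eq_one]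
  refine fun σ hσ => Gal.eq_one_of_fix (L := E) σ fun f x => ?_
  have h : act σ _ = _ :=
    Equiv.Perm.ext_iff.1 hσ (((EE E).val : EE E →+* ℂ).comp (f : E →+* EE E))
  exact Subtype.ext (RingHom.congr_fun h x)

theorem rho_conj [IsCMField E] (σ : EE E ≃ₐ[ℚ] EE E) (ψ : E →+* ℂ) :
    rho σ (conjugate ψ) = conjugate (rho σ ψ) := RingHom.ext fun x => by
  rw [conjugate_coe_eq, ← IsCMField.complexEmbedding_complexConj]
  exact congrArg (fun y => ((σ y : EE E) : ℂ))
    (Subtype.ext (IsCMField.complexEmbedding_complexConj E ψ x).symm)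

theorem rho_sur (τ : ℂ ≃+* ℂ) : ∃ σ : EE E ≃ₐ[ℚ] EE E, ∀ (ψ : E →+* ℂ) y, rho σ ψ y = τ (ψ y) :=
  ⟨(AlgEquiv.ofRingEquiv (R := ℚ) (f := τ) fun x => by simp).restrictNormal (EE E), fun ψ y =>
    AlgEquiv.restrictNormal_commutes _ (EE E) (emb ψ y)⟩

theorem exists_equiv [IsCMField E] : ∃ e : (E →+* ℂ) ≃ InfinitePlace E × Bool,
    ∀ ψ, e (conjugate ψ) = EGrp.ng (e ψ) := by
  let g : InfinitePlace E × Bool → (E →+* ℂ) := fun y =>
    if y.2 then y.1.embedding else conjugate y.1.embedding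
  have hg : ∀ y, g (EGrp.ng y) = conjugate (g y) := by
    rintro ⟨w, _ | _⟩ <;> simp [g, EGrp.ng]
  have h1 : ∀ y, InfinitePlace.mk (g y) = y.1 := by
    rintro ⟨w, _ | _⟩ <;> simp [g]
  have h2 : ∀ w : InfinitePlace E, conjugate w.embedding ≠ w.embedding := fun w h =>
    InfinitePlace.not_isReal_iff_isComplex.2 (IsTotallyComplex.isComplex w)
      (InfinitePlace.isReal_iff.2 (isReal_iff.2 h))
  have bij : Function.Bijective g := by
    constructor
    · rintro ⟨w, b⟩ ⟨w', b'⟩ h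
      obtain rfl : w = w' := (h1 (w, b)).symm.trans ((congrArg _ h).trans (h1 (w', b')))
      cases b <;> cases b' <;> first | rfl | exact absurd h (h2 w) | exact absurd h.symm (h2 w)
    · intro ψ
      rcases InfinitePlace.embedding_mk_eq ψ with h | h
      · exact ⟨(_, true), h⟩
      · exact ⟨(.mk ψ, false), by simp [g, h]⟩
  refine ⟨(Equiv.ofBijective g bij).symm, fun ψ => ?_⟩
  obtain ⟨y, rfl⟩ := bij.2 ψ
  rw [← hg]
  simp

theorem gal [IsCMField E] (h6 : 6 ≤ Module.finrank ℚ E) (hw : ∀ π : Equiv.Perm (E →+* ℂ),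
    (∀ ψ, π (conjugate ψ) = conjugate (π ψ)) → ∃ σ : ℂ ≃+* ℂ, ∀ ψ y, π ψ y = σ (ψ y))
    (ψ : E →+* ℂ) (f : Subgroup (EE E ≃ₐ[ℚ] EE E) → Prop) (H : Grp.Hyp f) (hf : f ⊤) :
    f (emb ψ).fieldRange.fixingSubgroup := by
  obtain ⟨e, he⟩ := exists_equiv (E := E)
  have he' : ∀ y, e.symm (EGrp.ng y) = conjugate (e.symm y) := fun y => by
    rw [Equiv.symm_apply_eq, he, e.apply_symm_apply]
  refine EGrp.sgn (X := InfinitePlace E) ?_ (e.permCongrHom.toMonoidHom.comp rho)
    (e.permCongrHom.injective.comp rho_inj) (fun g y => ?_) (fun π hπ => ?_) (e ψ) _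
    (fun g => ?_) H hf
  · have := Fintype.card_congr e
    rw [Embeddings.card, Fintype.card_prod, Fintype.card_bool] at this
    omega
  · change e (rho g (e.symm _)) = EGrp.ng (e (rho g (e.symm _)))
    rw [he', rho_conj, he]
  · obtain ⟨τ, hτ⟩ := hw (e.symm.permCongr π) fun χ => by simp [he, hπ, he']
    obtain ⟨σ, hσ⟩ := rho_sur (E := E) τ
    refine ⟨σ, Equiv.ext fun y => ?_⟩
    change e (rho σ (e.symm y)) = π y
    rw [show rho σ (e.symm y) = e.symm.permCongr π (e.symm y) from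
      RingHom.ext fun z => by rw [hσ, hτ]]
    simp
  · change _ ↔ e (rho g (e.symm (e ψ))) = e ψ
    rw [e.symm_apply_apply, e.apply_eq_iff_eq, IntermediateField.mem_fixingSubgroup_iff]
    constructor
    · exact fun h => RingHom.ext fun x => congrArg Subtype.val (h _ ⟨x, rfl⟩)
    · rintro h _ ⟨x, rfl⟩
      exact Subtype.ext (RingHom.congr_fun h x)

theorem nI_fix {M : Type} [Field M] [NumberField M] (f : M →ₐ[ℚ] EE E) (q : ℕ) :
    nI (fixedField f.fieldRange.fixingSubgroup) q = nI M q :=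
  (nI_congr ((AlgEquiv.ofInjectiveField f).trans
    (equivOfEq (IsGalois.fixedField_fixingSubgroup f.fieldRange).symm)).toRingEquiv q).symm

theorem nI_top (q : ℕ) : nI (fixedField (⊤ : Subgroup (EE E ≃ₐ[ℚ] EE E))) q = nI ℚ q :=
  S4.EZ.nI_fix (algebraMap ℚ (EE E)) ⊤ (fun y => by
    simpa using IsGalois.mem_range_algebraMap_iff_fixed (F := ℚ) y) q

end gal

end EZ

open EZ in
theorem ez_of (hZ : ZeroStmt) (hF : FrobStmt) (hM : MertStmt) : EStmt := by
  intro d A δ hδ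
  set g : ℕ := d ^ d + d + 1 with hg
  obtain ⟨c₀, C₀, hc₀, hcore⟩ := core hZ hF ℚ g (by simp [hg])
  set C₁ : ℝ := (d + 1) * (d ^ d * d + 1) ^ d * (2 + 2 ^ d) with hC₁d
  have hC₁ : 1 ≤ C₁ := one_le_mul_of_one_le_of_one_le (one_le_mul_of_one_le_of_one_le (by simp)
    (one_le_pow₀ (by simp; positivity)))
    (by have : (0 : ℝ) ≤ 2 ^ d := by positivity
        linarith)
  have hl2 : 0 ≤ Real.log (2 * C₁) := Real.log_nonneg (by linarith)
  set κ : ℝ := g ^ 2 * (Real.log (2 * C₁) + A) + A + 2 with hκ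
  have hκ0 : 0 < κ := by positivity
  obtain ⟨CM, hCM⟩ := hM.1 (d : ℝ) (c₀ * δ / κ) 1 (by positivity)
  obtain ⟨C₂, hC₂⟩ := hM.2
  refine ⟨Real.exp (C₀ + CM + d * |C₂|), max (Real.exp 1) (2 ^ δ⁻¹), Real.exp_pos _, ?_⟩
  intro L _ _ _ X x h6 hN hw hD hL hx1 hx2
  set K := maximalRealSubfield L
  have hX0 : 0 < X := (Real.exp_pos 1).trans_le ((le_max_left _ _).trans hD)
  have hlX : 1 ≤ Real.log X := by
    rw [Real.le_log_iff_exp_le hX0]
    exact (le_max_left _ _).trans hD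
  have hX1 : 1 ≤ X := (Real.one_le_exp zero_le_one).trans ((le_max_left _ _).trans hD)
  obtain ⟨θ, hθ, hθb⟩ := Gal.small_prim L
  obtain ⟨Θ, hΘ, hΘb⟩ := Gal.exists_theta (E := EE L) rfl θ hθ (by positivity) hθb
  have hd : (Module.finrank ℚ L : ℝ) ≤ d := Nat.cast_le.2 hN
  have hd1 : (1 : ℝ) ≤ d := by exact_mod_cast (by omega : 1 ≤ d)
  have hdd : (Module.finrank ℚ L : ℝ) ^ Module.finrank ℚ L ≤ d ^ d :=
    (pow_le_pow_left₀ (by positivity) hd _).trans (pow_le_pow_right₀ hd1 hN)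
  have hΘR : ∀ φ : EE L →+* ℂ, ‖φ Θ‖ ≤ C₁ * X ^ A := fun φ => (hΘb φ).trans (by
    rw [hC₁d, mul_assoc _ _ (X ^ A)]
    refine mul_le_mul (mul_le_mul (by linarith) ((pow_le_pow_left₀ (by positivity)
      (by gcongr) _).trans (pow_le_pow_right₀ (by simp; positivity) hN)) (by positivity)
      (by positivity)) (by gcongr; norm_num) (by positivity) (by positivity))
  have hE : Module.finrank ℚ (EE L) ≤ g := by
    rw [← IsGalois.card_aut_eq_finrank]
    have h1 := Gal.card_gal_le (L := L) (E := EE L) rfl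
    have h2 : Module.finrank ℚ L ^ Module.finrank ℚ L ≤ d ^ d := by exact_mod_cast hdd
    omega
  have hK : Module.finrank ℚ K ≤ d := (S4.EZ.rank_le K.subtype).trans hN
  have hx3 : 2 ≤ x := by
    refine le_trans ?_ hx1
    calc (2 : ℝ) = (2 ^ δ⁻¹) ^ δ := (Real.rpow_inv_rpow (by norm_num) hδ.ne').symm
      _ ≤ X ^ δ := Real.rpow_le_rpow (by positivity) ((le_max_right _ _).trans hD) hδ.le
  have hlx1 : δ * Real.log X ≤ Real.log x := by
    rw [← Real.log_rpow hX0]
    exact Real.log_le_log (by positivity) hx1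
  have hlx2 : Real.log x ≤ Real.log X := Real.log_le_log (by linarith) hx2
  have hlx0 : 0 < Real.log x := Real.log_pos (by linarith)
  have hR : 1 ≤ C₁ * X ^ A := one_le_mul_of_one_le_of_one_le hC₁ (one_le_pow₀ hX1)
  have hlR : Real.log (2 * (C₁ * X ^ A)) = Real.log (2 * C₁) + A * Real.log X := by
    rw [← mul_assoc, Real.log_mul (by positivity) (by positivity), Real.log_pow]
  set Lg : ℝ := g ^ 2 * Real.log (2 * (C₁ * X ^ A)) + (A + 1) * Real.log X + 1 with hLg
  have h0 : 0 ≤ g ^ 2 * Real.log (2 * (C₁ * X ^ A)) :=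
    mul_nonneg (by positivity) (Real.log_nonneg (by linarith))
  have hA : 0 ≤ A * Real.log X := by positivity
  have hLg1 : Real.log X + 1 ≤ Lg := by linarith
  have hLg2 : Lg ≤ κ * Real.log X := by
    rw [hLg, hlR, hκ]
    have h1 : Real.log (2 * C₁) ≤ Real.log (2 * C₁) * Real.log X := le_mul_of_one_le_right hl2 hlX
    have h2 : (0 : ℝ) ≤ g ^ 2 := by positivity
    nlinarith [mul_le_mul_of_nonneg_left h1 h2]
  have hLL : ∀ (M : Type) [Field M] [NumberField M] (_ : M →+* L), LL M ≤ Lg := by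
    intro M _ _ i
    have h1 := S4.EZ.LL_le i le_rfl
    have h2 := Real.log_le_log (by linarith [one_le_discr L]) hL
    rw [Real.log_pow, ← Int.cast_abs, ← Int.natCast_natAbs, Int.cast_natCast] at h2
    linarith
  obtain ⟨ψ⟩ := (inferInstance : Nonempty (L →+* ℂ))
  obtain ⟨b, hb1, hb2, hb3⟩ := hcore (EE L) ⊤ _ Θ (C₁ * X ^ A) Lg L K hE (by omega) (by omega)
    (gal h6 hw ψ) nI_top (nI_fix _) hR hΘ hΘR (hLL K K.subtype) (hLL L (RingHom.id L))
    (by linarith)
  have hLg0 : 0 < Lg := by linarith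
  have hb0 : 0 < b := lt_of_lt_of_le (by positivity) hb1
  have hnL : ∀ q : ℕ, q.Prime → (nI L q : ℝ) ≤ d := fun q hq =>
    Nat.cast_le.2 ((nI_le' L hq).trans hN)
  have hnK : ∀ q : ℕ, q.Prime → (nI K q : ℝ) ≤ Module.finrank ℚ K := fun q hq =>
    Nat.cast_le.2 (nI_le' K hq)
  have hK : (Module.finrank ℚ K : ℝ) ≤ d := Nat.cast_le.2 hK
  have hm := hCM (fun q => (nI L q : ℝ) - nI K q) x b (fun q hq => by
      have h1 := hnL q hq
      have h2 := hnK q hq
      have h3 : (0 : ℝ) ≤ nI L q := Nat.cast_nonneg _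
      have h4 : (0 : ℝ) ≤ nI K q := Nat.cast_nonneg _
      rw [abs_le]
      constructor <;> linarith) hx3
    (by
      calc c₀ * δ / κ = c₀ / (κ * Real.log X) * (δ * Real.log X) := by field_simp
        _ ≤ c₀ / Lg * Real.log x := by gcongr
        _ ≤ b * Real.log x := by gcongr)
    (by
      calc b * Real.log x ≤ 1 / Lg * Lg := by gcongr; linarith
        _ = 1 := by field_simp)
  rw [psum_sub _ _ hb0, abs_le] at hm
  have kF := dedekindZeta_residue_pos K
  have kL := dedekindZeta_residue_pos L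
  have hN' : (0 : ℝ) ≤ d * |C₂| := by positivity
  have main : tsumP (fun q => (nI L q : ℝ) - nI K q) x + Real.log (dedekindZeta_residue K) ≤
      C₀ + CM + Real.log (dedekindZeta_residue L) := by linarith [hm.1]
  constructor
  · rw [← Real.exp_log kF, ← Real.exp_log kL, ← Real.exp_add, ← Real.exp_add]
    exact Real.exp_le_exp.2 (by linarith)
  · have h1 := tsumP_ge (c := fun q => (nI L q : ℝ) - nI K q) (N := Module.finrank ℚ K)
      (fun q hq => by
        have h2 := hnK q hq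
        have h3 : (0 : ℝ) ≤ nI L q := Nat.cast_nonneg _
        linarith) x
    have h2 : tsumP (fun _ => 1) x ≤ Real.log (Real.log X) + |C₂| :=
      (hC₂ x hx3).trans (add_le_add (Real.log_le_log hlx0 hlx2) (le_abs_self _))
    have h3 := mul_le_mul_of_nonneg_left h2 (Nat.cast_nonneg (α := ℝ) (Module.finrank ℚ K))
    have h4 := mul_le_mul_of_nonneg_right hK (abs_nonneg C₂)
    rw [← Real.exp_log kF, ← Real.exp_log kL, ← Real.exp_log (show 0 < Real.log X by linarith),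
      ← Real.exp_nat_mul, ← Real.exp_add, ← Real.exp_add]
    exact Real.exp_le_exp.2 (by linarith)

theorem ez : EStmt := ez_of (zero (fac (zetaBd (theta_bd (pack red))))) frob mert

end Pool.Agent.Lib.MP_9177b7_ag.SO
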