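import Pool.Agent.Lib.MP_9177b7_ag.SO.Defs
import Pool.Agent.Lib.MP_9177b7_ag.SO.EZ
import Pool.Agent.Lib.MP_9177b7_ag.S4.CNF4

/-!
The lower bound for the relative class number of a Weyl CM field.
-/

open NumberField Pool.Agent.Shared.PrimeZeta

noncomputable section

namespace Pool.Agent.Lib.MP_9177b7_ag.SO

open B (tsumP)

namespace ZD

variable (E : Type) [Field E] [NumberField E] [IsCMField E]

theorem rd_eq : rd E = Ideal.absNorm (differentIdeal (𝓞 (maximalRealSubfield E)) (𝓞 E)) := by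
  rw [rd, natAbs_discr_eq_absNorm_differentIdeal_mul_natAbs_discr_pow (maximalRealSubfield E)
    (𝓞 (maximalRealSubfield E)) E (𝓞 E),
    Algebra.IsQuadraticExtension.finrank_eq_two (maximalRealSubfield E) E,
    Nat.mul_div_cancel _ (pow_pos (Int.natAbs_pos.2 (discr_ne_zero _)) 2)]

theorem discr_eq : (discr E).natAbs = rd E * (discr (maximalRealSubfield E)).natAbs ^ 2 := by
  rw [rd_eq, natAbs_discr_eq_absNorm_differentIdeal_mul_natAbs_discr_pow (maximalRealSubfield E)
    (𝓞 (maximalRealSubfield E)) E (𝓞 E),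
    Algebra.IsQuadraticExtension.finrank_eq_two (maximalRealSubfield E) E]

theorem rd_pos : 0 < rd E := Nat.pos_of_ne_zero fun h =>
  (Int.natAbs_pos.2 (discr_ne_zero E)).ne' (by rw [discr_eq, h, zero_mul])

end ZD

open ZD in
theorem zd (d : ℕ) (δ : ℝ) (hδ : 0 < δ) : ∃ C X₀ : ℝ, 0 < C ∧
    ∀ (E : Type) [Field E] [NumberField E] [IsCMField E] (X x : ℝ), 6 ≤ Module.finrank ℚ E →
      Module.finrank ℚ E ≤ d → (∀ π : Equiv.Perm (E →+* ℂ),
        (∀ ψ, π (ComplexEmbedding.conjugate ψ) = ComplexEmbedding.conjugate (π ψ)) →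
        ∃ σ : ℂ ≃+* ℂ, ∀ ψ y, π ψ y = σ (ψ y)) →
      X = (rd E : ℝ) * (discr (maximalRealSubfield E)).natAbs → X₀ ≤ X → X ^ δ ≤ x → x ≤ X →
      Units.torsionOrder E * classNumber (maximalRealSubfield E) * √X *
          Real.exp (tsumP (fun q => (nI E q : ℝ) - nI (maximalRealSubfield E) q) x) ≤
        C * classNumber E ∧
      Units.torsionOrder E * classNumber (maximalRealSubfield E) * √X ≤
        C * Real.log X ^ Module.finrank ℚ (maximalRealSubfield E) * classNumber E := by
  obtain ⟨C, X₀, hC, H⟩ := ez d 2 δ hδ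
  refine ⟨C * (2 * (2 * Real.pi) ^ d), max X₀ 1, by positivity, ?_⟩
  intro L _ _ _ X x h6 hd hw hX hX₀ hx1 hx2
  set K := maximalRealSubfield L
  have h1 : 1 ≤ X := (le_max_right _ _).trans hX₀
  have hl := Real.log_nonneg h1
  have hn : (1 : ℝ) ≤ rd L := by exact_mod_cast rd_pos L
  have ab : ∀ z : ℤ, |(z : ℝ)| = z.natAbs := fun z => by
    rw [← Int.cast_abs, ← Int.natCast_natAbs, Int.cast_natCast]
  rw [← ab] at hX
  have e1 : |(discr L : ℝ)| = rd L * |(discr K : ℝ)| ^ 2 := by
    rw [ab, ab, discr_eq]; push_cast; ring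
  have e4 : |(discr L : ℝ)| ≤ X ^ 2 := by
    rw [e1, hX, mul_pow]
    gcongr
    nlinarith
  obtain ⟨z1, z2⟩ := H L X x h6 hd hw ((le_max_left _ _).trans hX₀) e4 hx1 hx2
  have cn := S4.cnf4 L
  have kK := dedekindZeta_residue_pos K
  have kL := dedekindZeta_residue_pos L
  have hd' : 0 < √|(discr K : ℝ)| :=
    Real.sqrt_pos.2 (abs_pos.2 (Int.cast_ne_zero.2 (discr_ne_zero _)))
  have e5 : √X * √|(discr K : ℝ)| = √|(discr L : ℝ)| := by
    rw [← Real.sqrt_mul (by linarith), e1, hX, sq, ← mul_assoc]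
  have hp : (2 * Real.pi) ^ Module.finrank ℚ K ≤ (2 * Real.pi) ^ d :=
    pow_le_pow_right₀ (by linarith [Real.pi_gt_three]) ((S4.EZ.rank_le K.subtype).trans hd)
  have key : Units.torsionOrder L * classNumber K * √X * dedekindZeta_residue L ≤
      2 * (2 * Real.pi) ^ d * classNumber L * dedekindZeta_residue K := by
    refine le_of_mul_le_mul_right ?_ hd'
    calc _ = Units.torsionOrder L * classNumber K * (√X * √|(discr K : ℝ)|) *
          dedekindZeta_residue L := by ring
      _ ≤ _ := e5 ▸ cn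
      _ ≤ 2 * (2 * Real.pi) ^ d * classNumber L * √|(discr K : ℝ)| * dedekindZeta_residue K := by
          gcongr
      _ = _ := by ring
  constructor
  · refine le_of_mul_le_mul_right ?_ kK
    calc _ = Units.torsionOrder L * classNumber K * √X *
          (Real.exp (tsumP (fun q => (nI L q : ℝ) - nI K q) x) * dedekindZeta_residue K) := by ring
      _ ≤ Units.torsionOrder L * classNumber K * √X * (C * dedekindZeta_residue L) := by
          gcongr
      _ = C * (Units.torsionOrder L * classNumber K * √X * dedekindZeta_residue L) := by ring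
      _ ≤ C * (2 * (2 * Real.pi) ^ d * classNumber L * dedekindZeta_residue K) := by gcongr
      _ = _ := by ring
  · refine le_of_mul_le_mul_right ?_ kL
    calc _ ≤ 2 * (2 * Real.pi) ^ d * classNumber L * dedekindZeta_residue K := key
      _ ≤ 2 * (2 * Real.pi) ^ d * classNumber L *
          (C * Real.log X ^ Module.finrank ℚ K * dedekindZeta_residue L) := by gcongr
      _ = _ := by ring

end Pool.Agent.Lib.MP_9177b7_ag.SO
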