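import Pool.Agent.Lib.MP_9177b7_ag.SO.StC
import Pool.Agent.Lib.MP_9177b7_ag.SO.ZD
import Pool.Agent.Lib.MP_9177b7_ag.B.Count

/-!
The arithmetic estimate: assembly.
-/

open NumberField Filter Pool.Agent.Shared.PrimeZeta

noncomputable section

namespace Pool.Agent.Lib.MP_9177b7_ag.SO

theorem count (hA : AlgStmt) (hS : SumStmt) (hD : DStmt) : CountStmt := by
  classical
  intro n p _ c R
  have hp1 : (1 : ℝ) ≤ p := by exact_mod_cast (Fact.out : p.Prime).pos
  obtain ⟨C₀, hA⟩ := hA n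
  obtain ⟨κ, R', L, D₀, hS⟩ := hS n R
  obtain ⟨δ, ε, C, hδ, hε, hC, h1⟩ := hD n c.n2 p c.h κ R' Fact.out
  obtain ⟨CZ, X₀, hCZ, hz⟩ := zd (2 * n + 2) δ hδ
  refine ⟨L * (C * (2 * CZ)), fun K hK => ?_⟩
  obtain ⟨D₁, h1⟩ := h1 ((K + 1) / 2) (by omega)
  set q : ℝ := (p : ℝ) ^ (-(((K + 1) / 2 : ℕ) : ℝ) / 2) with hqd
  have hq : 0 < q := by positivity
  have hq' : q ≤ (p : ℝ) ^ (-(K : ℝ) / 4) := by
    refine Real.rpow_le_rpow_of_exponent_le hp1 ?_
    have : (K : ℝ) ≤ 2 * ((K + 1) / 2 : ℕ) := by exact_mod_cast (by omega : K ≤ 2 * ((K + 1) / 2))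
    linarith
  obtain ⟨X₁, hX₁⟩ := eventually_atTop.1 (B.CountAux.ev_log (n + 1) 1 ε _ zero_le_one hε hq)
  refine ⟨max (max D₀ D₁) ⌈max X₀ X₁⌉₊, fun D hDn Sy I c₀ K₀ hI hK₀ => ?_⟩
  obtain ⟨A⟩ := hA p c D
  have hL : (0 : ℝ) < classNumber D.E := by exact_mod_cast classNumber_pos D.E
  have hK0 : (0 : ℝ) < K₀ := by exact_mod_cast hK₀
  set w : ℝ := Units.torsionOrder D.E * classNumber D.F with hw
  have hw0 : 0 < w := mul_pos (by exact_mod_cast Units.torsionOrder_pos D.E)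
    (by exact_mod_cast classNumber_pos D.F)
  have hsum := hS p c D Sy I c₀ K K₀ (C * (2 * CZ) * classNumber D.E * q / w) hI
    (le_of_max_le_left (le_of_max_le_left hDn)) (by positivity) fun S U e1 e2 e3 e4 hR => by
      obtain ⟨x, x1, x2, x3⟩ := h1 S (e1 ▸ le_of_max_le_right (le_of_max_le_left hDn)) trivial U hR
      have eX : S.X = (D.Dn : ℝ) * D.dF := by rw [SD.X, e1, e2]
      have hX : max X₀ X₁ ≤ S.X := by
        have h2 : (1 : ℝ) ≤ D.dF := by exact_mod_cast e2 ▸ S.dF1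
        have h3 : max X₀ X₁ ≤ (D.Dn : ℝ) := Nat.ceil_le.1 (le_of_max_le_right hDn)
        rw [eX]
        exact h3.trans (le_mul_of_one_le_right (Nat.cast_nonneg _) h2)
      obtain ⟨z1, z2⟩ := hz D.E S.X x (by have := c.n2; rw [A.rankE]; omega) A.rankE.le D.sp.weyl
        eX (le_of_max_le_left hX) x1 x2
      have l1 := hX₁ S.X (le_of_max_le_right hX)
      rw [one_mul] at l1
      rw [e3, e4] at x3
      rw [A.rankF] at z2
      have hy : 0 ≤ S.X ^ (-ε) := Real.rpow_nonneg (by rw [eX]; positivity) _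
      rw [le_div_iff₀' hw0]
      set e : ℝ := Real.exp (B.tsumP (fun q => (nI D.E q : ℝ) - nI D.F q) x)
      calc _ ≤ w * (C * √S.X * (e * q + S.X ^ (-ε))) := by gcongr
        _ = C * (w * √S.X * e * q + w * √S.X * S.X ^ (-ε)) := by ring
        _ ≤ C * (CZ * classNumber D.E * q +
            CZ * Real.log S.X ^ (n + 1) * classNumber D.E * S.X ^ (-ε)) := by gcongr
        _ = C * (CZ * classNumber D.E * q +
            CZ * classNumber D.E * (Real.log S.X ^ (n + 1) * S.X ^ (-ε))) := by ring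
        _ ≤ C * (CZ * classNumber D.E * q + CZ * classNumber D.E * q) := by gcongr
        _ = _ := by ring
  rw [Dat.pr, show (Fintype.card D.Cl : ℝ) = classNumber D.E from rfl, div_le_div_iff₀ hL hK0,
    mul_comm]
  refine hsum.trans ?_
  calc _ = L * (C * (2 * CZ)) * q * classNumber D.E := by rw [← hw]; field_simp
    _ ≤ _ := by gcongr

end Pool.Agent.Lib.MP_9177b7_ag.SO
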