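import Pool.Agent.Lib.MP_9177b7_ag.SO.Tw

/-!
Linear algebra of frames.
-/

open NumberField Matrix
open scoped nonZeroDivisors ComplexConjugate

noncomputable section

namespace Pool.Agent.Lib.MP_9177b7_ag.SO

namespace Fr0

variable {E : Type} [Field E] [NumberField E] [IsCMField E] {N : ℕ}
  {A : Matrix (Fin N) (Fin N) ℤ} {lam g : E} {a : FI E} {x : Fin N → E} {t : Fin N → ℤ}

theorem tf_q (lam y : E) (u : Fin N → ℚ) (x : Fin N → E) :
    tf lam y (∑ i, u i * x i) = ∑ i, u i * tf lam y (x i) := by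
  simp only [← Rat.smul_def, map_sum, map_smul, smul_eq_mul]

theorem tf_q' (lam y : E) (u : Fin N → ℚ) (x : Fin N → E) :
    tf lam (∑ i, u i * x i) y = ∑ i, u i * tf lam (x i) y := by
  simp only [← Rat.smul_def, map_sum, map_smul, LinearMap.sum_apply, LinearMap.smul_apply,
    smul_eq_mul]

theorem Am_symm (hs : Aᵀ = A) (R : Type) [CommRing R] : (Am A R)ᵀ = Am A R := by
  rw [Am, ← transpose_map, hs]

theorem pairQ (H : Hyp A lam) (h : Frame A lam a g x t) (u : Fin N → ℚ) (j : Fin N) :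
    tf lam (∑ i, u i * x i) (x j) + cf A E * (∑ i, u i * t i) * t j = (Am A ℚ *ᵥ u) j := by
  rw [← Am_symm H.symm, mulVec_transpose]
  simp only [tf_q', vecMul, dotProduct, map_apply, ← gram h, Finset.mul_sum, Finset.sum_mul,
    ← Finset.sum_add_distrib]
  exact Finset.sum_congr rfl fun i _ => by ring

theorem Am_unit (hA : A.det ≠ 0) (R : Type) [Field R] [CharZero R] : IsUnit (Am A R).det := by
  rw [isUnit_iff_ne_zero, show (Am A R).det = (A.det : R) from
    ((Int.castRingHom R).map_det A).symm]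
  exact Int.cast_ne_zero.2 hA

theorem Am_inj (hA : A.det ≠ 0) (R : Type) [Field R] [CharZero R] :
    Function.Injective (Am A R).mulVec := mulVec_injective_of_det_ne_zero (Am_unit hA R).ne_zero

theorem coord (H : Hyp A lam) (a0 : a ≠ 0) (h : Frame A lam a g x t) {y : E} {s : ℚ}
    {u : Fin N → ℚ} (hu : ∀ j, (Am A ℚ *ᵥ u) j = tf lam y (x j) + cf A E * s * t j) :
    y = ∑ i, u i * x i ∧ s = ∑ i, u i * t i := by
  have := eq_zero H a0 h (y := y - ∑ i, u i * x i) (s := s - ∑ i, u i * t i) fun i => by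
    rw [map_sub, LinearMap.sub_apply]
    linear_combination -hu i - pairQ H h u i
  exact ⟨sub_eq_zero.1 this.1, sub_eq_zero.1 this.2⟩

theorem span (H : Hyp A lam) (a0 : a ≠ 0) (h : Frame A lam a g x t) (y : E) (s : ℚ) :
    ∃ u : Fin N → ℚ, y = ∑ i, u i * x i ∧ s = ∑ i, u i * t i :=
  ⟨(Am A ℚ)⁻¹ *ᵥ fun j => tf lam y (x j) + cf A E * s * t j, coord H a0 h fun j => by
    rw [mulVec_mulVec, mul_nonsing_inv _ (Am_unit H.det ℚ), one_mulVec]⟩

theorem indep (H : Hyp A lam) (h : Frame A lam a g x t) (u : Fin N → ℚ)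
    (h1 : ∑ i, u i * x i = 0) (h2 : ∑ i, u i * t i = 0) : u = 0 :=
  Am_inj H.det ℚ (funext fun j => by rw [← pairQ H h, h1, h2]; simp)

theorem normQ (H : Hyp A lam) (h : Frame A lam a g x t) (u u' : Fin N → ℚ) :
    tf lam (∑ i, u i * x i) (∑ i, u' i * x i) + cf A E * (∑ i, u i * t i) * (∑ i, u' i * t i) =
      bf (Am A ℚ) u u' := by
  rw [bf, dotProduct_mulVec, ← Am_symm H.symm, vecMul_transpose, tf_q, dotProduct, Finset.mul_sum,
    ← Finset.sum_add_distrib]
  exact Finset.sum_congr rfl fun i _ => by rw [← pairQ H h]; ring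

theorem norm_one (H : Hyp A lam) (a0 : a ≠ 0) (h : Frame A lam a g x t) :
    FractionalIdeal.spanSingleton _ lam * a * cF a *
      (((differentIdeal ℤ (𝓞 (maximalRealSubfield E))).map (algebraMap _ (𝓞 E)) : Ideal (𝓞 E)) :
        FI E) = 1 := by
  have e := differentIdeal_eq_differentIdeal_mul_differentIdeal ℤ (𝓞 (maximalRealSubfield E)) (𝓞 E)
  rw [S4.Quad.diff_eq h2 (IsCMField.complexConj_ne_one E)] at e
  rw [norm_eq H a0 h, mul_right_comm, ← FractionalIdeal.coeIdeal_mul, ← e,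
    coeIdeal_differentIdeal ℤ ℚ E, inv_mul_cancel₀ (by simp)]

theorem level (H : Hyp A lam) (a0 : a ≠ 0) (h : Frame A lam a g x t) :
    ∃ e : Fin N → ℚ, Am A ℚ *ᵥ e = (fun i => (t i : ℚ)) ∧ ∑ i, e i * x i = 0 ∧
      ∑ i, e i * t i = (rd E / A.det.natAbs : ℚ) ∧
      ∀ (u : Fin N → ℚ) (z : Fin N → ℤ), Am A ℚ *ᵥ u = (fun i => (z i : ℚ)) →
        ∃ (k : ℤ) (z' : Fin N → ℤ), u = fun i => k * e i + z' i := by
  obtain ⟨e, h1, h2⟩ := span H a0 h 0 (cf A E)⁻¹
  have h3 : Am A ℚ *ᵥ e = fun i => (t i : ℚ) := funext fun j => by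
    rw [← pairQ H h, ← h1, ← h2, mul_inv_cancel₀ (cf_ne H)]
    simp
  refine ⟨e, h3, h1.symm, by rw [← h2, inv_div], fun u z hu => ?_⟩
  obtain ⟨k, c, rfl⟩ := lev H a0 h z
  refine ⟨k, c, Am_inj H.det ℚ ?_⟩
  rw [hu, show (fun i => k * e i + c i) = (k : ℚ) • e + fun i => (c i : ℚ) from rfl, mulVec_add,
    mulVec_smul, h3]
  funext i
  simp [mulVec, dotProduct]

open Classical in
/-- Orthogonality relations for the embeddings. -/
theorem orth (H : Hyp A lam) (a0 : a ≠ 0) (h : Frame A lam a g x t) (σ τ : E →ₐ[ℚ] ℂ)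
    {v : Fin N → ℂ} (hv : Am A ℂ *ᵥ v = fun i => σ (x i)) :
    τ lam * ∑ i, v i * conj (τ (x i)) = if τ = σ then 1 else 0 := by
  have key : ∀ y : E, ∑ τ : E →ₐ[ℚ] ℂ, (τ lam * ∑ i, v i * conj (τ (x i))) * τ y = σ y := by
    intro y
    obtain ⟨u, h1, h2⟩ := span H a0 h y 0
    have e1 : ∀ j, ∑ τ : E →ₐ[ℚ] ℂ, τ lam * τ y * conj (τ (x j)) =
        (Am A ℂ *ᵥ fun i => (u i : ℂ)) j := fun j => by
      have e := pairQ H h u j
      rw [← h1, ← h2, mul_zero, zero_mul, add_zero, tf_apply] at e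
      have e' := trace_eq_sum_embeddings (K := ℚ) (L := E) ℂ (x := lam * y * bar (x j))
      rw [e] at e'
      simp only [map_mul] at e'
      rw [Finset.sum_congr rfl fun τ _ => congrArg (τ lam * τ y * ·)
        (IsCMField.complexEmbedding_complexConj E τ.toRingHom (x j)).symm]
      refine e'.symm.trans ?_
      simp [mulVec, dotProduct]
    calc _ = v ⬝ᵥ Am A ℂ *ᵥ fun i => (u i : ℂ) := by
          simp only [dotProduct, ← e1, Finset.mul_sum, Finset.sum_mul]
          rw [Finset.sum_comm]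
          exact Finset.sum_congr rfl fun i _ => Finset.sum_congr rfl fun τ _ => by ring
      _ = _ := by
          rw [dotProduct_mulVec, ← Am_symm H.symm, vecMul_transpose, hv, h1, map_sum, dotProduct]
          exact Finset.sum_congr rfl fun i _ => by rw [map_mul, map_ratCast, mul_comm]
  have li := Fintype.linearIndependent_iff.1 (linearIndependent_algHom_toLinearMap ℚ E ℂ)
    (fun τ => (τ lam * ∑ i, v i * conj (τ (x i))) - if τ = σ then 1 else 0) (by
      ext y
      simp only [LinearMap.sum_apply, LinearMap.smul_apply, AlgHom.toLinearMap_apply, smul_eq_mul,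
        sub_mul, Finset.sum_sub_distrib, key]
      simp) τ
  exact sub_eq_zero.1 li

theorem pt_norm (H : Hyp A lam) (a0 : a ≠ 0) (h : Frame A lam a g x t) (φ : E →+* ℂ)
    {v : Fin N → ℂ} (hv : Am A ℂ *ᵥ v = fun i => φ (x i)) :
    v ⬝ᵥ Am A ℂ *ᵥ v = 0 ∧ star v ⬝ᵥ Am A ℂ *ᵥ v * φ lam = 1 := by
  have r : conj (φ lam) = φ lam := by
    rw [← IsCMField.complexEmbedding_complexConj E φ]
    exact congrArg φ H.real
  have l0 : φ lam ≠ 0 := (map_ne_zero φ).2 H.ne
  constructor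
  · have e := orth H a0 h φ.toRatAlgHom (ComplexEmbedding.conjugate φ).toRatAlgHom hv
    have k : (ComplexEmbedding.conjugate φ).toRatAlgHom ≠ φ.toRatAlgHom := fun k =>
      IsTotallyComplex.complexEmbedding_not_isReal φ
        (ComplexEmbedding.isReal_iff.2 (RingHom.ext fun y => DFunLike.congr_fun k y))
    rw [if_neg k] at e
    simp only [RingHom.toRatAlgHom_apply, ComplexEmbedding.conjugate_coe_eq, Complex.conj_conj,
      r] at e
    rw [hv]
    exact (mul_eq_zero.1 e).resolve_left l0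
  · have e := congrArg conj (orth H a0 h φ.toRatAlgHom φ.toRatAlgHom hv)
    simp only [RingHom.toRatAlgHom_apply, if_true, map_mul, map_sum, Complex.conj_conj, r,
      map_one] at e
    rw [hv, mul_comm]
    exact e

theorem exists_pt (H : Hyp A lam) (a0 : a ≠ 0) (h : Frame A lam a g x t) {φ : E →+* ℂ}
    (hn : (φ lam).re < 0) : ∃ v : Per A, Am A ℂ *ᵥ v.1 = fun i => φ (x i) := by
  have hv : Am A ℂ *ᵥ ((Am A ℂ)⁻¹ *ᵥ fun i => φ (x i)) = fun i => φ (x i) := by
    rw [mulVec_mulVec, mul_nonsing_inv _ (Am_unit H.det ℂ), one_mulVec]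
  obtain ⟨h1, h2⟩ := pt_norm H a0 h φ hv
  refine ⟨⟨_, h1, ?_⟩, hv⟩
  rw [eq_inv_of_mul_eq_one_left h2, Complex.inv_re]
  exact div_neg_of_neg_of_pos hn (Complex.normSq_pos.2 ((map_ne_zero φ).2 H.ne))

theorem norm_unit {z : E} (hz : z * bar z = 1) : Algebra.norm ℚ z = 1 := by
  obtain ⟨w, w0, hw⟩ : ∃ w : E, w ≠ 0 ∧ z * bar w = w := by
    have k : ∀ y : E, z * bar (y + z * bar y) = y + z * bar y := fun y => by
      simp only [bar, map_add, map_mul, IsCMField.complexConj_apply_apply] at hz ⊢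
      linear_combination y * hz
    by_contra! e
    have e1 : ∀ y : E, y + z * bar y = 0 := fun y => by_contra fun h => e _ h (k y)
    have e2 := e1 1
    rw [bar, map_one] at e2
    exact IsCMField.complexConj_ne_one E (AlgEquiv.ext fun y => by
      change bar y = y
      linear_combination bar y * e2 - e1 y)
  have e1 : Algebra.norm ℚ (bar w) = Algebra.norm ℚ w :=
    Algebra.norm_eq_of_algEquiv ((IsCMField.complexConj E).restrictScalars ℚ) w
  have e2 := congrArg (Algebra.norm ℚ) hw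
  rwa [map_mul, e1, mul_eq_right₀ (Algebra.norm_ne_zero_iff.2 w0)] at e2

theorem unit_fr (h : Frame A lam a g x t) {z : E} (hz : z * bar z = 1) :
    Frame A lam (FractionalIdeal.spanSingleton _ z * a) (z * g) (fun i => z * x i) t := by
  have z0 : z ≠ 0 := left_ne_zero_of_mul_eq_one hz
  refine ⟨fun i j => ?_, fun y s => ?_⟩
  · rw [← h.1 i j]
    congr 2
    rw [map_mul]
    linear_combination (lam * x i * bar (x j)) * hz
  · have e1 : y - s * (z * g) ∈ FractionalIdeal.spanSingleton (𝓞 E)⁰ z * a ↔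
        z⁻¹ * y - s * g ∈ a := by
      rw [FractionalIdeal.mem_singleton_mul]
      constructor
      · rintro ⟨w, hw, e⟩
        rwa [show z⁻¹ * y - s * g = w by field_simp; linear_combination e]
      · exact fun k => ⟨_, k, by field_simp⟩
    rw [e1, h.2]
    refine exists_congr fun c => and_congr_left' ?_
    rw [inv_mul_eq_iff_eq_mul₀ z0, Finset.mul_sum]
    simp only [mul_left_comm]

theorem unit_sl (H : Hyp A lam) (a0 : a ≠ 0) (h : Frame A lam a g x t) {z : E}
    (hz : z * bar z = 1) : ∃ M : SpecialLinearGroup (Fin N) ℚ, ∀ k, z * x k = ∑ i, M i k * x i ∧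
      (t k : ℚ) = ∑ i, M i k * t i := by
  have e1 : ∀ u : Fin N → ℚ, ∑ i, u i • ((x i, (t i : ℚ)) : E × ℚ) =
      (∑ i, u i * x i, ∑ i, u i * t i) := fun u => by
    refine Prod.ext ?_ ?_ <;> simp [Prod.fst_sum, Prod.snd_sum, Rat.smul_def]
  let b : Module.Basis (Fin N) ℚ (E × ℚ) := Module.Basis.mk (v := fun i => (x i, (t i : ℚ)))
    (Fintype.linearIndependent_iff.2 fun u hu i => by
      rw [e1, Prod.mk_eq_zero] at hu
      exact congrFun (indep H h u hu.1 hu.2) i)
    fun y _ => by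
      obtain ⟨u, h1, h2⟩ := span H a0 h y.1 y.2
      exact (Submodule.mem_span_range_iff_exists_fun ℚ).2 ⟨u, by rw [e1, ← h1, ← h2]⟩
  let T : E × ℚ →ₗ[ℚ] E × ℚ := (Algebra.lmul ℚ E z).prodMap LinearMap.id
  refine ⟨⟨LinearMap.toMatrix b b T, ?_⟩, fun k => ?_⟩
  · rw [LinearMap.det_toMatrix, LinearMap.det_prodMap, LinearMap.det_id, mul_one]
    exact norm_unit hz
  · have e := b.sum_repr (T (b k))
    simp only [b, Module.Basis.mk_apply, e1] at e
    simp only [LinearMap.toMatrix_apply, b, Module.Basis.mk_apply]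
    exact ⟨(congrArg Prod.fst e).symm, (congrArg Prod.snd e).symm⟩

theorem glue_fr (h : Frame A lam a g x t) {g' : E} (e : g' - g ∈ a) : Frame A lam a g' x t := by
  refine ⟨h.1, fun y s => Iff.trans ⟨fun k => ?_, fun k => ?_⟩ (h.2 y s)⟩
  · convert add_mem' k (int_mem s e) using 1
    ring
  · convert sub_mem' k (int_mem s e) using 1
    ring

theorem gam_fr (h : Frame A lam a g x t) {γ : SpecialLinearGroup (Fin N) ℤ} (hγ : γ ∈ Ort A) :
    Frame A lam a g (fun k => ∑ i, γ.1 i k * x i) fun k => ∑ i, γ.1 i k * t i := by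
  have e1 : ∀ {R : Type} [CommRing R] (c : Fin N → ℤ) (w : Fin N → R),
      ∑ k, c k * ∑ i, γ.1 i k * w i = ∑ i, (γ.1 *ᵥ c) i * w i := fun c w => by
    simp only [mulVec, dotProduct, Int.cast_sum, Int.cast_mul, Finset.mul_sum, Finset.sum_mul]
    rw [Finset.sum_comm]
    exact Finset.sum_congr rfl fun i _ => Finset.sum_congr rfl fun k _ => by ring
  refine ⟨fun k l => ?_, fun y s => (h.2 y s).trans ⟨?_, ?_⟩⟩
  · refine (norm_sum h (fun i => γ.1 i k) fun i => γ.1 i l).trans (congrArg _ ?_)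
    refine Eq.trans ?_ (congrFun (congrFun (show γ.1ᵀ * A * γ.1 = A from hγ) k) l)
    rw [Matrix.mul_assoc]
    rfl
  · rintro ⟨c, rfl, rfl⟩
    have e : γ.1 *ᵥ γ⁻¹.1 *ᵥ c = c := by
      rw [mulVec_mulVec, show γ.1 * γ⁻¹.1 = 1 from congrArg Subtype.val (mul_inv_cancel γ),
        one_mulVec]
    exact ⟨γ⁻¹.1 *ᵥ c, by rw [e1, e], by simpa only [e, Int.cast_id] using (e1 (γ⁻¹.1 *ᵥ c) t).symm⟩
  · rintro ⟨c, rfl, rfl⟩
    exact ⟨γ.1 *ᵥ c, e1 c x, by simpa only [Int.cast_id] using e1 c t⟩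

end Fr0

open Fr0 in
theorem frame : FrameStmt := by
  intro n p _ c D
  have H := hyp D
  refine ⟨mem_cF, cF_coe, cF_span, cF_cF, cI_Df, H.ne, rd_ne, fun a g x t h => ?_⟩
  have a0 := fm_ne D h
  exact ⟨a0, mem h, span H a0 h, indep H h, normQ H h, norm_one H a0 h,
    fun y => mul_comm a _ ▸ mem_dual_iff H a0 h y,
    fun y => by rw [mul_comm, ← dual_eq H a0 h]; exact mem_dual H.ne a0 y, ord H a0 h,
    level H a0 h, exists_pt H a0 h D.sp.neg, fun v hv => (pt_norm H a0 h D.φ hv).2,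
    fun z hz => ⟨unit_fr h hz, unit_sl H a0 h hz⟩, fun g' => glue_fr h, fun γ => gam_fr h⟩

end Pool.Agent.Lib.MP_9177b7_ag.SO
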