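import Pool.Agent.Lib.MP_9177b7_ag.SO.Lift0
import Pool.Agent.Lib.MP_9177b7_ag.SO.Frame

/-!
The context of a CM datum.
-/

open NumberField Matrix
open scoped nonZeroDivisors ComplexConjugate

noncomputable section

namespace Pool.Agent.Lib.MP_9177b7_ag.SO

namespace CtxA

/-- Numbering of a finite set with an involution without fixed points. -/
theorem number {H : Type} [Finite H] (n : ℕ) (τ : H → H) (h1 : ∀ x, τ (τ x) = x)
    (h2 : ∀ x, τ x ≠ x) (hc : Nat.card H = 2 * n + 2) :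
    ∃ ψ : Ix n → H, (∀ i, i ≠ cn n → ψ i.rev = τ (ψ i)) ∧
      ∀ i j, i ≠ cn n → j ≠ cn n → ψ i = ψ j → i = j := by
  classical
  have := Fintype.ofFinite H
  let e := Finite.equivFin H
  let R : H → Prop := fun x => e x < e (τ x)
  have r : ∀ x, R (τ x) ↔ ¬ R x := fun x => by
    have : e (τ x) ≠ e x := e.injective.ne (h2 x)
    simp only [R, h1]
    omega
  have c1 : Fintype.card {x // R x} = Fintype.card {x // ¬ R x} := Fintype.card_congr
    ⟨fun x => ⟨τ x, fun h => (r x).1 h x.2⟩, fun x => ⟨τ x, (r x).2 x.2⟩,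
      fun x => Subtype.ext (h1 x), fun x => Subtype.ext (h1 x)⟩
  have c2 := Fintype.card_subtype_le R
  rw [Fintype.card_subtype_compl] at c1
  rw [Nat.card_eq_fintype_card] at hc
  let f := (Fintype.equivFinOfCardEq (show Fintype.card {x // R x} = n + 1 by omega)).symm
  let ψ : Ix n → H := fun i => if h : i.1 < n + 1 then f ⟨i.1, h⟩ else
    τ (f ⟨min (2 * n + 2 - i.1) n, by omega⟩)
  have lo : ∀ (i : Ix n) (h : i.1 < n + 1), ψ i = f ⟨i.1, h⟩ := fun i h => dif_pos h
  have hi : ∀ (i : Ix n) (h : n + 1 < i.1), ψ i = τ (f ⟨2 * n + 2 - i.1, by omega⟩) := fun i h => by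
    refine (dif_neg (by omega)).trans ?_
    congr 4
    omega
  have cs : ∀ i : Ix n, i ≠ cn n → i.1 < n + 1 ∨ n + 1 < i.1 := fun i h =>
    lt_or_gt_of_ne fun e => h (Fin.ext e)
  refine ⟨ψ, fun i h => ?_, fun i j h h' e => ?_⟩
  · have rv : i.rev.1 = 2 * n + 3 - (i.1 + 1) := Fin.val_rev i
    rcases cs i h with l | l
    · rw [lo i l, hi i.rev (by omega)]
      congr 4
      omega
    · rw [hi i l, h1, lo i.rev (by omega)]
      congr 3
      omega
  · rcases cs i h with l | l <;> rcases cs j h' with l' | l'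
    · rw [lo i l, lo j l'] at e
      have := congrArg Fin.val (f.injective (Subtype.ext e))
      exact Fin.ext this
    · rw [lo i l, hi j l'] at e
      exact absurd (f _).2 ((r _).1 (e ▸ (f _).2))
    · rw [hi i l, lo j l'] at e
      exact absurd (f _).2 ((r _).1 (e ▸ (f _).2))
    · rw [hi i l, hi j l'] at e
      have := congrArg τ e
      rw [h1, h1] at this
      have := congrArg Fin.val (f.injective (Subtype.ext this))
      have := i.2
      have := j.2
      ext
      simp only at *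
      omega

variable {N : ℕ} {A : Matrix (Fin N) (Fin N) ℤ}

/-- A form that is positive on the kernel of a map to `ℂ` has negative index at most two. -/
theorem posC (hs : Aᵀ = A) (L : (Fin N → ℝ) →ₗ[ℝ] ℂ)
    (hL : ∀ y, y ≠ 0 → L y = 0 → 0 < bf (Am A ℝ) y y) (v : Per A) : PosC v := by
  intro y y0 hy
  by_contra! hn
  let Bf : (Fin N → ℝ) →ₗ[ℝ] (Fin N → ℝ) →ₗ[ℝ] ℝ := toLinearMap₂' ℝ (Am A ℝ)
  have eB : ∀ u w, Bf u w = bf (Am A ℝ) u w := fun u w => toLinearMap₂'_apply' _ u w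
  have sy : ∀ u w, Bf u w = Bf w u := fun u w => by
    rw [eB, eB, bf, bf, dotProduct_mulVec, ← Fr0.Am_symm hs, vecMul_transpose, dotProduct_comm,
      Fr0.Am_symm hs]
  let a : Fin N → ℝ := fun i => (v.1 i).re
  let b : Fin N → ℝ := fun i => (v.1 i).im
  have k : ∀ u w : Fin N → ℂ, u ⬝ᵥ Am A ℂ *ᵥ w =
      ⟨Bf (fun i => (u i).re) (fun i => (w i).re) - Bf (fun i => (u i).im) (fun i => (w i).im),
        Bf (fun i => (u i).re) (fun i => (w i).im) + Bf (fun i => (u i).im) (fun i => (w i).re)⟩ :=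
    fun u w => by
      apply Complex.ext <;>
        simp [eB, bf, dotProduct, mulVec, Finset.mul_sum, ← Finset.sum_sub_distrib,
          ← Finset.sum_add_distrib]
  have n1 : Bf (fun i => (star v.1 i).im) b = -Bf b b := by
    rw [← LinearMap.neg_apply, ← map_neg]
    rfl
  have z : (fun i : Fin N => ((y i : ℂ)).im) = 0 := funext fun i => Complex.ofReal_im _
  have e1 := v.2.1
  have e2 := v.2.2
  rw [bf] at hy
  rw [k] at e1 e2 hy
  rw [n1] at e2
  rw [z] at hy
  have a1 : Bf a a - Bf b b = 0 := congrArg Complex.re e1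
  have a2 : Bf a b + Bf b a = 0 := congrArg Complex.im e1
  have a3 : Bf a a - -Bf b b < 0 := e2
  have a4 : Bf a y - Bf b 0 = 0 := congrArg Complex.re hy
  have a5 : Bf a 0 + Bf b y = 0 := congrArg Complex.im hy
  rw [map_zero] at a4 a5
  rw [sy b a] at a2
  let T : (Fin 3 → ℝ) →ₗ[ℝ] (Fin N → ℝ) := Fintype.linearCombination ℝ ![a, b, y]
  obtain ⟨c, hc, c0⟩ := (Submodule.ne_bot_iff _).1
    (LinearMap.ker_ne_bot_of_finrank_lt (f := L ∘ₗ T) (by simp))
  have eT : T c = c 0 • a + c 1 • b + c 2 • y := by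
    simp [T, Fintype.linearCombination_apply, Fin.sum_univ_three]
  have b1 : Bf a b = 0 := by linarith
  have b2 : Bf a y = 0 := by linarith
  have b3 : Bf b y = 0 := by linarith
  have b4 : Bf b b = Bf a a := by linarith
  have b5 : Bf a a < 0 := by linarith
  rw [← eB] at hn
  by_cases t0 : T c = 0
  · have h1 := congrArg (Bf a) t0
    have h2 := congrArg (Bf b) t0
    simp only [eT, map_add, map_smul, smul_eq_mul, sy b a, b1, b2, b3, b4, mul_zero, add_zero,
      zero_add, map_zero, mul_eq_zero, b5.ne, or_false] at h1 h2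
    rw [eT, h1, h2, zero_smul, zero_smul, zero_add, zero_add, smul_eq_zero] at t0
    refine c0 (funext fun i => ?_)
    fin_cases i
    exacts [h1, h2, t0.resolve_right y0]
  · have := hL _ t0 hc
    rw [← eB, eT] at this
    simp only [map_add, map_smul, LinearMap.add_apply, LinearMap.smul_apply, smul_eq_mul, sy b a,
      sy y a, sy y b, b1, b2, b3, b4] at this
    nlinarith [mul_nonneg (sq_nonneg (c 0)) (neg_nonneg.2 b5.le),
      mul_nonneg (sq_nonneg (c 1)) (neg_nonneg.2 b5.le),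
      mul_nonneg (sq_nonneg (c 2)) (neg_nonneg.2 hn)]

variable {E : Type} [Field E] [NumberField E] [IsCMField E] {lam g : E}
  {a : FractionalIdeal (𝓞 E)⁰ E} {x : Fin N → E} {t : Fin N → ℤ}

theorem gramC (h : Frame A lam a g x t) (i j : Fin N) : (A i j : ℂ) =
    ∑ τ : E →ₐ[ℚ] ℂ, τ lam * τ (x i) * conj (τ (x j)) + (Fr0.cf A E : ℚ) * t i * t j := by
  have e := congrArg (Rat.cast (K := ℂ)) (h.1 i j)
  have e' := trace_eq_sum_embeddings (K := ℚ) (L := E) ℂ
    (x := lam * x i * IsCMField.complexConj E (x j))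
  rw [eq_ratCast] at e'
  rw [Rat.cast_intCast, Rat.cast_add, e'] at e
  rw [← e, Rat.cast_mul, Rat.cast_mul, Rat.cast_intCast, Rat.cast_intCast]
  congr 1
  refine Finset.sum_congr rfl fun τ _ => ?_
  rw [map_mul, map_mul]
  exact congrArg _ (IsCMField.complexEmbedding_complexConj E τ.toRingHom (x j))

theorem pos {φ : E →+* ℂ} (H : Fr0.Hyp A lam) (h : Frame A lam a g x t)
    (hp : ∀ ψ : E →+* ℂ, ψ ≠ φ → ψ ≠ ComplexEmbedding.conjugate φ → 0 < (ψ lam).re)
    (y : Fin N → ℝ) (y0 : y ≠ 0) (hy : ∑ i, (y i : ℂ) * φ (x i) = 0) : 0 < bf (Am A ℝ) y y := by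
  let L : (E →ₐ[ℚ] ℂ) → ℂ := fun τ => ∑ i, (y i : ℂ) * τ (x i)
  let T : ℝ := ∑ i, y i * t i
  have r : ∀ j, ((y ᵥ* Am A ℝ) j : ℂ) =
      ∑ τ : E →ₐ[ℚ] ℂ, τ lam * L τ * conj (τ (x j)) + (Fr0.cf A E : ℚ) * T * t j := fun j => by
    simp only [vecMul, dotProduct, map_apply, Complex.ofReal_sum, Complex.ofReal_mul,
      Complex.ofReal_intCast, gramC h, L, T, mul_add, Finset.sum_add_distrib, Finset.mul_sum,
      Finset.sum_mul]
    rw [Finset.sum_comm]
    congr 1
    · exact Finset.sum_congr rfl fun _ _ => Finset.sum_congr rfl fun _ _ => by ring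
    · exact Finset.sum_congr rfl fun _ _ => by ring
  have q : bf (Am A ℝ) y y =
      ∑ τ : E →ₐ[ℚ] ℂ, (τ lam).re * Complex.normSq (L τ) + (Fr0.cf A E : ℚ) * T ^ 2 := by
    have : ((bf (Am A ℝ) y y : ℝ) : ℂ) =
        ∑ τ : E →ₐ[ℚ] ℂ, τ lam * Complex.normSq (L τ) + ((Fr0.cf A E : ℚ) * T ^ 2 : ℝ) := by
      rw [bf, dotProduct_mulVec, dotProduct, Complex.ofReal_sum]
      simp only [Complex.ofReal_mul, r, add_mul, Finset.sum_add_distrib, Finset.sum_mul,
        ← Complex.mul_conj]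
      rw [Finset.sum_comm]
      congr 1
      · refine Finset.sum_congr rfl fun τ _ => ?_
        conv_rhs => rw [← mul_assoc, show conj (L τ) = ∑ i, conj (τ (x i)) * y i by
          simp [L, mul_comm], Finset.mul_sum]
        exact Finset.sum_congr rfl fun _ _ => by ring
      · rw [sq, Complex.ofReal_mul, Complex.ofReal_ratCast, ← mul_assoc]
        conv_rhs => rw [show (T : ℂ) = ∑ i, (t i : ℂ) * y i by simp [T, mul_comm], Finset.mul_sum]
        refine Finset.sum_congr rfl fun _ _ => ?_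
        rw [show (T : ℂ) = ∑ i, (t i : ℂ) * y i by simp [T, mul_comm]]
        ring
    have := congrArg Complex.re this
    simpa only [Complex.ofReal_re, Complex.add_re, Complex.re_sum, Complex.re_mul_ofReal] using this
  have c : ∀ τ : E →ₐ[ℚ] ℂ, L τ = 0 ∨ 0 < (τ lam).re := fun τ => by
    by_cases h1 : τ.toRingHom = φ
    · subst h1
      exact Or.inl hy
    by_cases h2 : τ.toRingHom = ComplexEmbedding.conjugate φ
    · refine Or.inl ?_
      have := congrArg conj hy
      simp only [map_sum, map_mul, Complex.conj_ofReal, map_zero] at this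
      refine Eq.trans (Finset.sum_congr rfl fun i _ => congrArg _ ?_) this
      exact DFunLike.congr_fun h2 (x i)
    exact Or.inr (hp _ h1 h2)
  have n0 : ∀ τ : E →ₐ[ℚ] ℂ, 0 ≤ (τ lam).re * Complex.normSq (L τ) := fun τ =>
    (c τ).elim (fun e => by simp [e]) fun e => mul_nonneg e.le (Complex.normSq_nonneg _)
  have c0 : (0 : ℝ) < (Fr0.cf A E : ℚ) :=
    Rat.cast_pos.2 ((by positivity : 0 ≤ Fr0.cf A E).lt_of_ne' (Fr0.cf_ne H))
  have s0 := Finset.sum_nonneg fun τ (_ : τ ∈ Finset.univ) => n0 τ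
  have s1 := mul_nonneg c0.le (sq_nonneg T)
  by_contra! hn
  rw [q] at hn
  have z1 := (Finset.sum_eq_zero_iff_of_nonneg fun τ _ => n0 τ).1 (by linarith)
  have z2 : T = 0 := by
    have : (Fr0.cf A E : ℚ) * T ^ 2 = 0 := by linarith
    exact pow_eq_zero_iff two_ne_zero |>.1 ((mul_eq_zero.1 this).resolve_left c0.ne')
  have z3 : ∀ τ, L τ = 0 := fun τ => (c τ).elim id fun e =>
    Complex.normSq_eq_zero.1 ((mul_eq_zero.1 (z1 τ (Finset.mem_univ τ))).resolve_left e.ne')
  refine y0 (Fr0.Am_inj H.det ℝ (funext fun j => ?_))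
  have := r j
  rw [← Fr0.Am_symm H.symm, vecMul_transpose] at this
  simpa [z2, z3] using this

end CtxA

open CtxA Lift0 in
theorem ctx : CtxStmt := by
  intro n p _ A E _ _ _ φ lam a g x t sp hA hp
  have d0 : A.det ≠ 0 := fun h => hp (h ▸ dvd_zero _)
  have H : Fr0.Hyp A lam :=
    ⟨hA.symm, d0, sp.sqf, sp.cop, sp.real, fun h => by simpa [h] using sp.neg⟩
  have a0 : a ≠ 0 := Fr0.a_ne hA (by simp) sp.frame
  have hc : Nat.card (E →+* ℚ_[p]) = 2 * n + 2 := by
    have := sp.dim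
    have := sp.split
    omega
  have : Finite (E →+* ℚ_[p]) := Nat.finite_of_card_ne_zero (by omega)
  obtain ⟨ψ, h1, h2⟩ := number n
    (fun σ : E →+* ℚ_[p] => σ.comp (IsCMField.complexConj E).toRingEquiv.toRingHom)
    (fun σ => RingHom.ext fun y => congrArg σ (IsCMField.complexConj_apply_apply E y))
    (fun σ e => IsCMField.complexConj_ne_one E
      (AlgEquiv.ext fun y => σ.injective (DFunLike.congr_fun e y))) hc
  have N : Num ψ := ⟨fun i y hi => DFunLike.congr_fun (h1 i hi) y, h2, sp.dim⟩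
  refine ⟨⟨ψ, N.rev, h2⟩, fun e => hp ?_, posC hA.symm
    (Fintype.linearCombination ℝ fun i => φ (x i)) fun y y0 hy => pos H sp.frame sp.pos y y0 hy, ?_⟩
  · rw [e]
    exact Fr0.det_even hA.symm hA.even (by omega)
  have n1 : ‖(A.det : ℚ_[p])‖ = 1 :=
    (Padic.norm_int_le_one _).eq_of_not_lt fun l => hp (Padic.norm_intCast_lt_one_iff.1 l)
  have hk : ‖((A.det.natAbs / rd E : ℚ) : ℚ_[p])‖ = 1 := by
    rw [Rat.cast_div, Rat.cast_natCast, Rat.cast_natCast, norm_div, norm_nat (pD N), div_one]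
    exact norm_nat fun l => hp (Int.natCast_dvd.2 l)
  obtain ⟨s, hs⟩ := exs N H a0 sp.frame hk
  set κ := ((A.det.natAbs / rd E : ℚ) : ℚ_[p]) with eκ
  let g₀ := diagonal (fun i => if i = cn n then 1 else s i) * Ps ψ x t
  have i0 : ∀ i j, ‖g₀ i j‖ ≤ 1 := fun i j => by
    simp only [g₀, diagonal_mul, Ps, of_apply]
    split_ifs with h
    · rw [one_mul]
      exact Padic.norm_int_le_one _
    · exact (hs i h).2 j
  have e0 : diagonal (dl A ψ lam) * Jr n ℚ_[p] =
      κ • (diagonal (fun i => if i = cn n then 1 else s i) * Jr n ℚ_[p] *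
        diagonal fun i => if i = cn n then 1 else s i) := by
    ext i j
    simp only [Matrix.smul_apply, mul_diagonal, diagonal_mul, Jr, of_apply, dl, smul_eq_mul]
    by_cases hj : j = i.rev
    · subst hj
      by_cases hi : i = cn n
      · simp only [hi, cn_rev, if_true, mul_one, eκ]
      · simp only [if_neg hi, if_neg (rev_ne hi), if_true, ← (hs i hi).1]
        ring
    · simp only [if_neg hj, mul_zero, zero_mul]
  have e1 : κ • (g₀ᵀ * Jr n ℚ_[p] * g₀) = Am A ℚ_[p] := by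
    rw [← gram N sp.frame, e0, transpose_mul, diagonal_transpose, Matrix.mul_smul,
      Matrix.smul_mul]
    simp only [g₀, Matrix.mul_assoc]
  have dn : (A.det : ℚ_[p]) ≠ 0 := Int.cast_ne_zero.2 d0
  let R : Subring (Mx n ℚ_[p]) := (PadicInt.subring p).matrix
  have m : (adjugate A).map (Int.castRingHom ℚ_[p]) * (g₀ᵀ * Jr n ℚ_[p]) ∈ R :=
    mul_mem (fun i j => Padic.norm_int_le_one _) (mul_mem (fun i j => i0 j i) fun i j => by
      change ‖Jr n ℚ_[p] i j‖ ≤ 1
      simp only [Jr, of_apply]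
      split_ifs <;> simp)
  refine ⟨κ, g₀, (κ / A.det) • ((adjugate A).map (Int.castRingHom ℚ_[p]) * (g₀ᵀ * Jr n ℚ_[p])),
    hk, mul_eq_one_comm.1 ?_, i0, fun i j => ?_, e1⟩
  · have e2 : (adjugate A).map (Int.castRingHom ℚ_[p]) * Am A ℚ_[p] = (A.det : ℚ_[p]) • 1 := by
      rw [show Am A ℚ_[p] = A.map (Int.castRingHom ℚ_[p]) from rfl, ← Matrix.map_mul, adjugate_mul]
      ext i j
      simp only [map_apply, Matrix.smul_apply, one_apply, smul_eq_mul, mul_ite, mul_one, mul_zero,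
        apply_ite (Int.castRingHom ℚ_[p]), map_zero, eq_intCast]
    rw [Matrix.smul_mul, Matrix.mul_assoc, div_eq_inv_mul, mul_smul, ← Matrix.mul_smul, e1, e2,
      smul_smul, inv_mul_cancel₀ dn, one_smul]
  · rw [Matrix.smul_apply, smul_eq_mul, norm_mul, norm_div, hk, n1, div_one, one_mul]
    exact m i j

end Pool.Agent.Lib.MP_9177b7_ag.SO
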