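import Pool.Agent.Lib.MP_9177b7_ag.SO.D1a

/-!
The sieve bound on a slice with finitely many forced primes.
-/

noncomputable section

namespace Pool.Agent.Lib.MP_9177b7_ag.SO.D1a

open Finset B B.ShiuN B.Slice Classical

variable {d p e : ℕ} {κ : ℝ} {P : Finset ℕ} {N : (Fin d → ℤ) → ℕ} {n : ℕ → (Fin d → ℤ) → ℕ}
  {R : ℕ → (Fin d → ℤ) → Prop} {a b : ℕ → ℕ} {Sg : ℕ → (Fin d → ℤ) → Prop}

lemma side {M A : ℕ} (hM : 0 < M) {z : ℝ} (h1 : (M : ℝ) ≤ z) (h2 : z * z ≤ A) :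
    z ≤ ((A / M + 2 : ℕ) : ℝ) ∧ ((A / M + 2 : ℕ) : ℝ) * M ≤ 3 * A := by
  have m1 : (1 : ℝ) ≤ M := by exact_mod_cast hM
  have a1 : (A : ℝ) < ((A / M : ℕ) + 1) * M := by
    have := Nat.lt_mul_div_succ A hM
    rw [mul_comm] at this
    exact_mod_cast this
  have a2 : ((A / M : ℕ) : ℝ) * M ≤ A := by exact_mod_cast Nat.div_mul_le_self A M
  have a3 : (0 : ℝ) ≤ (A / M : ℕ) := Nat.cast_nonneg _
  push_cast
  constructor
  · by_contra h
    push Not at h
    nlinarith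
  · nlinarith

/-- One pattern. -/
lemma HE.pat (H : HE p e κ P N n R a b Sg) (hp : p.Prime) {π : P → ℕ} {a₀ : Fin d → ℤ}
    {A : Fin d → ℕ} {V : Finset (Fin d → ℤ)} {z Z : ℝ} {Q : (Fin d → ℤ) → Prop} {E : ℝ}
    (hM : (MM π : ℝ) ≤ z) (hA : ∀ i, z * z ≤ A i) (hV : V ⊆ boxN a₀ A) (Z0 : 0 ≤ Z)
    (hx : ∀ u ∈ V, N u ≠ 0 ∧ (N u : ℝ) ≤ E ∧ Q u ∧ ∀ i : P, Ex N i (π i) u)
    (hc : ∀ (u₀ a₁ : Fin d → ℤ) (A₁ : Fin d → ℕ) (U : Finset (Fin d → ℤ)),
      (∀ i : P, Ex N i (π i) u₀) → (∀ i, z ≤ A₁ i) → U ⊆ boxN a₁ A₁ →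
      (∀ s ∈ U, N (af (MM π) u₀ s) / mm π ≠ 0 ∧ ((N (af (MM π) u₀ s) / mm π : ℕ) : ℝ) ≤ E ∧
        Q (af (MM π) u₀ s)) →
      ∑ s ∈ U, ∏ q ∈ (N (af (MM π) u₀ s) / mm π).primeFactors,
        ww p e (fun q s => if q ∈ P then 0 else n q (af (MM π) u₀ s)) q
          ((N (af (MM π) u₀ s) / mm π).factorization q) s ≤ (∏ i, (A₁ i : ℝ)) * Z) :
    ∑ u ∈ V, ∏ q ∈ (N u).primeFactors, GE p e P n Sg q ((N u).factorization q) u ≤
      3 ^ d * (∏ i, (A i : ℝ)) * Z * ∏ i : P, denN (i.1 ^ (π i + 1)) (hq e N Sg i (π i)) := by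
  have M0 := H.MM_pos π
  have M1 : (0 : ℤ) < MM π := by exact_mod_cast M0
  have M2 : (0 : ℝ) < MM π := by exact_mod_cast M0
  set W : (Fin d → ℤ) → ℝ := fun u =>
    ∏ q ∈ (N u).primeFactors, GE p e P n Sg q ((N u).factorization q) u with hW
  have W0 : ∀ u, 0 ≤ W u := fun u => prod_nonneg fun _ _ => GE_nonneg _ _ _
  set G : (Fin d → ℤ) → ℝ := fun u => ∏ i : P, hq e N Sg i (π i) u with hG
  have G0 : ∀ u, 0 ≤ G u := fun u => prod_nonneg fun _ _ => hq_nonneg _ _ _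
  have Gp : Per (MM π) G := fun u v c => prod_congr rfl fun i _ => H.hq_per (H.prm _ i.2).1 _ u v
    (CgN.of_dvd (dvd_prod_of_mem (fun i : P => i.1 ^ (π i + 1)) (mem_univ i)) c)
  set T := boxN (fun i => a₀ i / MM π) fun i => A i / MM π + 2 with hT
  have h1 := sum_split M0 V T (F := fun u => if u ∈ V then W u else 0) (fun u hu => ?_)
    fun u => by split_ifs; exacts [W0 u, le_rfl]
  · rw [sum_congr rfl fun u hu => if_pos hu] at h1
    refine h1.trans ((sum_le_sum (g := fun u₀ => G u₀ *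
      ((∏ i, ((A i / MM π + 2 : ℕ) : ℝ)) * Z)) fun u₀ _ => ?_).trans ?_)
    · rw [← sum_filter]
      by_cases x : ∀ i : P, Ex N i (π i) u₀
      · refine le_trans (le_of_eq ?_) (mul_le_mul_of_nonneg_left (hc u₀ _ _
          (T.filter fun s => af (MM π) u₀ s ∈ V) x (fun i => (side M0 hM (hA i)).1)
          (filter_subset _ _) fun s hs => ?_) (G0 u₀))
        · rw [mul_sum]
          refine sum_congr rfl fun s hs => ?_
          obtain ⟨b1, -, -, b2⟩ := hx _ (mem_filter.1 hs).2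
          rw [← Gp _ _ (cg_af _ u₀ s)]
          exact H.split hp b1 b2 fun q hq => if_neg hq
        · obtain ⟨b1, b2, b3, b4⟩ := hx _ (mem_filter.1 hs).2
          refine ⟨fun h => b1 (by rw [← Nat.mul_div_cancel' (H.mm_dvd b4), h, mul_zero]),
            le_trans ?_ b2, b3⟩
          exact_mod_cast Nat.div_le_self _ _
      · rw [sum_eq_zero fun s hs =>
          (x (H.pat_per (cg_af _ u₀ s) (hx _ (mem_filter.1 hs).2).2.2.2)).elim]
        have := G0 u₀
        positivity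
    · have e1 : ∑ u₀ ∈ boxN 0 fun _ => MM π, G u₀ = (MM π : ℝ) ^ d *
          ∏ i : P, denN (i.1 ^ (π i + 1)) (hq e N Sg i (π i)) := by
        rw [← den_prod univ (fun i : P => i.1 ^ (π i + 1))
          (fun i => pow_pos (H.prm _ i.2).1.pos _) (H.cop _) _
          fun i => H.hq_per (H.prm _ i.2).1 _, denN]
        exact (mul_div_cancel₀ _ (pow_pos M2 d).ne').symm
      have e2 : (∏ i, ((A i / MM π + 2 : ℕ) : ℝ)) * (MM π : ℝ) ^ d ≤ 3 ^ d * ∏ i, (A i : ℝ) := by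
        calc _ = ∏ i, (((A i / MM π + 2 : ℕ) : ℝ) * MM π) := by
              rw [prod_mul_distrib, prod_const, card_univ, Fintype.card_fin]
          _ ≤ ∏ i, (3 * (A i : ℝ)) :=
              prod_le_prod (fun i _ => by positivity) fun i _ => (side M0 hM (hA i)).2
          _ = _ := by rw [prod_mul_distrib, prod_const, card_univ, Fintype.card_fin]
      have e3 : 0 ≤ ∏ i : P, denN (i.1 ^ (π i + 1)) (hq e N Sg i (π i)) :=
        prod_nonneg fun i _ => den_nonneg _ (hq_nonneg _ _)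
      rw [← sum_mul, e1]
      calc _ = (∏ i, ((A i / MM π + 2 : ℕ) : ℝ)) * (MM π : ℝ) ^ d * Z *
            ∏ i : P, denN (i.1 ^ (π i + 1)) (hq e N Sg i (π i)) := by ring
        _ ≤ _ := by gcongr
  · have := mem_box.1 (hV hu)
    exact mem_box.2 fun i => J.Shiu.div_mem M0 (this i).1 (this i).2

lemma tsum_le {c : ℕ → ℝ} {B : ℝ} (B0 : 0 ≤ B)
    (h1 : ∀ q : ℕ, q.Prime → q ∉ P → (a q : ℝ) - b q ≤ c q) (h2 : ∀ q ∈ P, -B ≤ c q) (x : ℝ) :
    tsumP (fun q => ((if q ∈ P then 0 else a q : ℕ) : ℝ) - (if q ∈ P then 0 else b q : ℕ)) x ≤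
      B * ∑ q ∈ P, 1 / (q : ℝ) + tsumP c x := by
  unfold tsumP
  set T := (range (⌊x⌋₊ + 1)).filter Nat.Prime
  have e1 : ∑ q ∈ T, (if q ∈ P then B * (1 / (q : ℝ)) else 0) ≤ B * ∑ q ∈ P, 1 / (q : ℝ) := by
    rw [← sum_filter, mul_sum]
    exact sum_le_sum_of_subset_of_nonneg (fun q hq => (mem_filter.1 hq).2) fun _ _ _ => by
      positivity
  refine le_trans ?_ (add_le_add_left e1 _)
  rw [← sum_add_distrib]
  refine sum_le_sum fun q hq => ?_
  have hq := (mem_filter.1 hq).2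
  have q0 : (0 : ℝ) < q := by exact_mod_cast hq.pos
  by_cases h : q ∈ P
  · simp only [if_pos h, Nat.cast_zero, sub_self, zero_div, mul_one_div, ← add_div]
    exact div_nonneg (by linarith [h2 q h]) q0.le
  · simp only [if_neg h, zero_add]
    exact div_le_div_of_nonneg_right (h1 q hq h) q0.le

theorem coreE (E B : ℝ) (hp : p.Prime) (hd : 0 < d) (he : 1 ≤ e) (hκ : 1 ≤ κ) (B0 : 0 ≤ B) :
    ∃ δ ε σ C : ℝ, 0 < δ ∧ δ ≤ 1 ∧ 0 < ε ∧ 0 < σ ∧ 0 < C ∧ ∀ k : ℕ, 2 ≤ k → ∃ y₀ : ℝ,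
      ∀ y : ℝ, y₀ ≤ y → ∀ (P : Finset ℕ) (N : (Fin d → ℤ) → ℕ) (n : ℕ → (Fin d → ℤ) → ℕ)
        (R : ℕ → (Fin d → ℤ) → Prop) (a b : ℕ → ℕ) (Sg : ℕ → (Fin d → ℤ) → Prop) (c : ℕ → ℝ)
        (a₀ : Fin d → ℤ) (A : Fin d → ℕ) (U : Finset (Fin d → ℤ)), HE p e κ P N n R a b Sg →
        ∏ q ∈ P, (q : ℝ) ≤ y ^ σ → (∀ q : ℕ, q.Prime → q ∉ P → (a q : ℝ) - b q ≤ c q) →
        (∀ q ∈ P, -B ≤ c q) → (∀ i, y ≤ A i) → U ⊆ boxN a₀ A →
        (∀ t ∈ U, N t ≠ 0 ∧ (N t : ℝ) ≤ y ^ E ∧ R k t) →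
        ∑ t ∈ U, ∏ q ∈ (N t).primeFactors, GE p e P n Sg q ((N t).factorization q) t ≤
          C * (∏ i, (A i : ℝ)) * Real.exp (C * ∑ q ∈ P, 1 / (q : ℝ)) *
            (Real.exp (tsumP c (y ^ δ)) * (p : ℝ) ^ (-(k : ℝ) / 2) + y ^ (-ε)) := by
  obtain ⟨δ, ε, C, c1, c2, c3, c4, hc⟩ :=
    core (e := e) (shiuN sieveN) (2 * E) hp hd hp.ne_zero dvd_rfl hκ
  obtain ⟨δs, Cs, s1, s2, hs⟩ := sieveN d κ hd
  have k0 : 0 ≤ κ := zero_le_one.trans hκ
  obtain ⟨K, K0, hbad⟩ := bad (θ := 1 / 4) k0 (by norm_num) s2 hs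
  obtain ⟨S, S1, hS⟩ := geo e
  obtain ⟨σ, σ0, σ1, σ2⟩ : ∃ σ : ℝ, 0 < σ ∧ σ ≤ δs / 2 ∧ σ ≤ 1 / 12 :=
    ⟨min (δs / 2) (1 / 12), by positivity, min_le_left _ _, min_le_right _ _⟩
  obtain ⟨y₁, hy₁⟩ := dvb e E (show 0 < σ / 16 by positivity)
  obtain ⟨C₁, hC₁⟩ : ∃ C₁, C₁ = 1 + 3 ^ e * κ + κ * S := ⟨_, rfl⟩
  have C0 : 0 ≤ C₁ := by rw [hC₁]; positivity
  have C3 : 0 < 3 ^ d * C := by positivity
  refine ⟨δ / 2, min (ε / 2) (σ / 16), σ, 3 ^ d * C + K + C₁ + B, by positivity, by linarith,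
    by positivity, σ0, by positivity, fun k hk => ?_⟩
  obtain ⟨y₀, hc⟩ := hc k hk
  refine ⟨max (max 1 y₁) (y₀ ^ 2), fun y hy P N n R a b Sg c a₀ A U H hP h1 h2 hA hU hN => ?_⟩
  have y1 : 1 ≤ y := le_of_max_le_left (le_of_max_le_left hy)
  have y0 : 0 < y := by linarith
  have y2 : y₀ ≤ √y := Real.le_sqrt_of_sq_le (le_of_max_le_right hy)
  have sq : √y = y ^ (1 / 2 : ℝ) := Real.sqrt_eq_rpow y
  have sq' : ∀ x : ℝ, √y ^ x = y ^ (x / 2) := fun x => by
    rw [sq, ← Real.rpow_mul y0.le]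
    congr 1
    ring
  have z1 : 1 ≤ y ^ σ := Real.one_le_rpow y1 σ0.le
  have p1 : ∀ q ∈ P, (1 : ℝ) ≤ q := fun q h => by exact_mod_cast (H.prm q h).1.one_le
  have pz : ∀ i : P, (i.1 : ℝ) ≤ y ^ σ := fun i => by
    refine le_trans ?_ hP
    rw [← Nat.cast_prod]
    exact Nat.cast_le.2 (single_le_prod' (fun q h => (H.prm q h).1.one_le) i.2)
  set W : (Fin d → ℤ) → ℝ := fun u =>
    ∏ q ∈ (N u).primeFactors, GE p e P n Sg q ((N u).factorization q) u with hW
  set s := ∑ q ∈ P, 1 / (q : ℝ) with hs'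
  have s0 : 0 ≤ s := by positivity
  set Z := Real.exp (tsumP c (y ^ (δ / 2))) * (p : ℝ) ^ (-(k : ℝ) / 2) +
    y ^ (-min (ε / 2) (σ / 16)) with hZ
  have Z0 : 0 ≤ Z := by positivity
  have A0 : (0 : ℝ) ≤ ∏ i, (A i : ℝ) := by positivity
  let pt : (Fin d → ℤ) → P → ℕ := fun u i => (N u).factorization i
  let Bd : (Fin d → ℤ) → Prop := fun u =>
    y ^ σ < ∏ i : P, (i.1 : ℝ) ^ (if 2 ≤ pt u i - 1 then pt u i - 1 else 0)
  have g1 : ∑ u ∈ U.filter Bd, W u ≤ K * (∏ i, (A i : ℝ)) * Z := by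
    have b1 := hbad a₀ (fun i : P => i.1) 2 (y ^ σ) (y ^ σ) (fun i j u => i.1 ^ (j + 1) ∣ N u)
      (fun u i => pt u i - 1) (U.filter Bd) y1 hA Subtype.val_injective
      (fun i => (H.prm _ i.2).1) (fun i => (pz i).trans ?_) pz z1 ?_ (fun i j u v c w => ?_)
      (fun i j hj => ?_) ((filter_subset _ _).trans hU) (fun u hu i j hj hl => ?_)
      fun u hu => (mem_filter.1 hu).2
    · refine (sum_le_card_nsmul _ _ (y ^ (σ / 16)) fun u hu => ?_).trans ?_
      · obtain ⟨u1, u2, -⟩ := hN u (mem_filter.1 hu).1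
        refine le_trans (prod_le_prod (fun _ _ => GE_nonneg _ _ _) fun q hq => ?_)
          (hy₁ y (le_of_max_le_right (le_of_max_le_left hy)) _ u1 u2)
        unfold GE
        have t2 : (2 : ℝ) ≤ 2 ^ e := le_self_pow₀ one_le_two (by omega)
        split_ifs with w1 w2 w3
        · rw [w1.1]
          norm_num
          exact t2
        · positivity
        · rw [w1.1]
          norm_num
          exact_mod_cast (H.nle q u (Nat.prime_of_mem_primeFactors hq)).trans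
            Nat.lt_two_pow_self.le
        · exact le_rfl
      · rw [nsmul_eq_mul]
        refine (mul_le_mul_of_nonneg_right b1 (by positivity)).trans ?_
        rw [mul_assoc, ← Real.rpow_mul y0.le, ← Real.rpow_add y0]
        refine mul_le_mul_of_nonneg_left (le_add_of_nonneg_of_le (by positivity)
          (Real.rpow_le_rpow_of_exponent_le y1 ?_)) (by positivity)
        linarith [min_le_right (ε / 2) (σ / 16)]
    · rw [sq']
      exact Real.rpow_le_rpow_of_exponent_le y1 σ1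
    · rw [sq, ← pow_succ, ← pow_mul, ← Real.rpow_mul_natCast y0.le]
      refine Real.rpow_le_rpow_of_exponent_le y1 ?_
      push_cast
      linarith
    · rcases j.eq_zero_or_pos with rfl | hj
      · simpa using H.dvd _ i.2 v
      · exact H.per _ _ u v (H.prm _ i.2).1 (CgN.of_dvd (pow_dvd_pow _ (by omega)) c) w
    · have := den_bd (pow_dvd_pow i.1 (by omega : j + 1 ≤ 2 * j))
        (pow_pos (H.prm _ i.2).1.pos _) zero_le_one (fun u v => H.per _ _ u v (H.prm _ i.2).1)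
        (fun u => (one_mul _).ge) (H.lv2' _ i.2 j hj)
      rw [one_mul] at this
      convert this using 4
      ring
    · exact ((H.prm _ i.2).1.pow_dvd_iff_le_factorization (hN u (mem_filter.1 hu).1).1).2
        (by simp only [pt] at hl; omega)
  have g2 : ∑ u ∈ U.filter (¬ Bd ·), W u ≤
      3 ^ d * (∏ i, (A i : ℝ)) * (C * Real.exp (B * s) * Z) * Real.exp (C₁ * s) := by
    rw [← sum_fiberwise_of_maps_to (g := pt)
      (t := Fintype.piFinset fun _ => range (U.sup N + 1)) fun u hu => ?_]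
    · refine (sum_le_sum (g := fun π : P → ℕ => 3 ^ d * (∏ i, (A i : ℝ)) *
        (C * Real.exp (B * s) * Z) * ∏ i : P, denN (i.1 ^ (π i + 1)) (hq e N Sg i (π i)))
        fun π _ => ?_).trans ?_
      · rcases ((U.filter (¬ Bd ·)).filter fun u => pt u = π).eq_empty_or_nonempty with
          w | ⟨u₁, w⟩
        · rw [w, sum_empty]
          exact mul_nonneg (by positivity) (prod_nonneg fun i _ => den_nonneg _ (hq_nonneg _ _))
        refine H.pat hp (z := √y) (Q := R k) (E := y ^ E) ?_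
          (fun i => (Real.mul_self_sqrt y0.le).trans_le (hA i))
          (((filter_subset _ _).trans (filter_subset _ _)).trans hU) (by positivity)
          (fun u hu => ?_) fun u₀ a₁ A₁ U₁ x hA₁ hU₁ hN₁ => ?_
        · obtain ⟨w1, w2⟩ := mem_filter.1 w
          have w3 := not_lt.1 (mem_filter.1 w1).2
          rw [w2] at w3
          calc (MM π : ℝ) = ∏ i : P, (i.1 : ℝ) ^ (π i + 1) := by simp [MM]
            _ ≤ ∏ i : P, ((i.1 : ℝ) ^ 3 * (i.1 : ℝ) ^ (if 2 ≤ π i - 1 then π i - 1 else 0)) := by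
              refine prod_le_prod (fun _ _ => by positivity) fun i _ => ?_
              rw [← pow_add]
              refine pow_le_pow_right₀ (p1 _ i.2) ?_
              split_ifs <;> omega
            _ ≤ (y ^ σ) ^ 3 * y ^ σ := by
              rw [prod_mul_distrib, prod_pow, prod_coe_sort P fun q => (q : ℝ)]
              gcongr
            _ ≤ √y := by
              rw [sq, ← pow_succ, ← Real.rpow_mul_natCast y0.le]
              refine Real.rpow_le_rpow_of_exponent_le y1 ?_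
              push_cast
              linarith
        · obtain ⟨w1, w2⟩ := mem_filter.1 hu
          obtain ⟨u1, u2, u3⟩ := hN u (mem_filter.1 w1).1
          exact ⟨u1, u2, u3, fun i => (ex_fac (H.prm _ i.2).1 u1 _).2 (congrFun w2 i)⟩
        · refine (hc _ y2 _ _ _ _ _ a₁ A₁ U₁ (H.hyp hp hκ x) hA₁ hU₁ fun t ht => ?_).trans ?_
          · rw [sq', mul_div_cancel_left₀ _ two_ne_zero]
            exact hN₁ t ht
          · have e1 := Real.exp_le_exp.2
              (tsum_le B0 h1 h2 (y ^ (δ / 2)))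
            have e2 : 1 ≤ Real.exp (B * s) := Real.one_le_exp (by positivity)
            have e3 : y ^ (-ε / 2) ≤ Real.exp (B * s) * y ^ (-min (ε / 2) (σ / 16)) :=
              le_trans (Real.rpow_le_rpow_of_exponent_le y1
                (by linarith [min_le_left (ε / 2) (σ / 16)]))
                (le_mul_of_one_le_left (by positivity) e2)
            rw [Real.exp_add] at e1
            rw [sq', sq', mul_comm C, mul_assoc, mul_assoc C, hZ, mul_add (Real.exp (B * s)),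
              ← mul_assoc (Real.exp (B * s))]
            gcongr
      · rw [← mul_sum, ← prod_univ_sum (fun _ : P => range (U.sup N + 1))
          fun (i : P) j => denN (i.1 ^ (j + 1)) (hq e N Sg i j)]
        refine mul_le_mul_of_nonneg_left ?_ (by positivity)
        rw [hs', mul_sum, Real.exp_sum, ← prod_coe_sort P, hC₁]
        exact prod_le_prod (fun i _ => sum_nonneg fun j _ => den_nonneg _ (hq_nonneg _ _))
          fun i _ => H.loc hκ hS i.2 _
    · have hu := (mem_filter.1 hu).1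
      exact Fintype.mem_piFinset.2 fun i => mem_range.2
        (((Nat.factorization_lt _ (hN u hu).1).trans_le (le_sup (f := N) hu)).trans (by omega))
  rw [← sum_filter_add_sum_filter_not U Bd]
  have e1 : 1 ≤ Real.exp ((3 ^ d * C + K + C₁ + B) * s) := Real.one_le_exp (by positivity)
  have e2 : Real.exp (B * s) * Real.exp (C₁ * s) ≤ Real.exp ((3 ^ d * C + K + C₁ + B) * s) := by
    rw [← Real.exp_add]
    refine Real.exp_le_exp.2 ?_
    nlinarith
  set X := Real.exp ((3 ^ d * C + K + C₁ + B) * s)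
  have AZ : 0 ≤ (∏ i, (A i : ℝ)) * Z := mul_nonneg A0 Z0
  calc _ ≤ K * 1 * ((∏ i, (A i : ℝ)) * Z) + 3 ^ d * C * (Real.exp (B * s) * Real.exp (C₁ * s)) *
        ((∏ i, (A i : ℝ)) * Z) := add_le_add (g1.trans_eq (by ring)) (g2.trans_eq (by ring))
    _ ≤ K * X * ((∏ i, (A i : ℝ)) * Z) + 3 ^ d * C * X * ((∏ i, (A i : ℝ)) * Z) := by gcongr
    _ = (3 ^ d * C + K) * (X * ((∏ i, (A i : ℝ)) * Z)) := by ring
    _ ≤ (3 ^ d * C + K + C₁ + B) * (X * ((∏ i, (A i : ℝ)) * Z)) :=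
        mul_le_mul_of_nonneg_right (by linarith) (by positivity)
    _ = _ := by ring

end Pool.Agent.Lib.MP_9177b7_ag.SO.D1a
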