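import Pool.Agent.Lib.MP_9177b7_ag.SO.D1s
import Pool.Agent.Lib.MP_9177b7_ag.SO.D1b

/-!
The sieve bound on one slice.
-/

noncomputable section

namespace Pool.Agent.Lib.MP_9177b7_ag.SO

open Finset B B.ShiuN B.Slice Classical

namespace D1Sl

variable {n p h : ℕ} {κ : ℝ} (S : SD n p h κ) (t : ℤ)

lemma mem_iff {q : ℕ} (hq : q.Prime) :
    q ∈ (t.natAbs.gcd S.D).primeFactors ↔ q ∣ S.D ∧ (q : ℤ) ∣ t := by
  rw [Nat.mem_primeFactors, Nat.dvd_gcd_iff, Int.natCast_dvd]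
  exact ⟨fun h => ⟨h.2.1.2, h.2.1.1⟩,
    fun h => ⟨hq, ⟨h.2, h.1⟩, Nat.gcd_ne_zero_right S.sqf.ne_zero⟩⟩

lemma shf_one {q : ℕ} (h : q ∈ (t.natAbs.gcd S.D).primeFactors) : shf S.D q (S.nt t) = 1 := by
  have hq := Nat.prime_of_mem_primeFactors h
  obtain ⟨h1, h2⟩ := (mem_iff S t hq).1 h
  exact if_pos ⟨h1, (S.dvd_nt hq h1 t).2 h2⟩

lemma shf_zero {q : ℕ} (hq : q.Prime) (h : q ∉ (t.natAbs.gcd S.D).primeFactors) :
    shf S.D q (S.nt t) = 0 :=
  if_neg fun w => h ((mem_iff S t hq).2 ⟨w.1, (S.dvd_nt hq w.1 t).1 w.2⟩)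

lemma a_pos {q : ℕ} (hq : q.Prime) (h : q ∣ S.D) : 1 ≤ S.a q := by
  have h1 := (den_nonneg _ fun _ => Nat.cast_nonneg _).trans
    (S.nden q 1 hq (if_neg fun w => hq.not_dvd_one (by exact_mod_cast w.2)))
  rw [if_pos h, le_div_iff₀ (by exact_mod_cast hq.pos), zero_mul, sub_nonneg] at h1
  exact_mod_cast h1

lemma he {κ' : ℝ} (hκ : κ ≤ κ') {Rc : ℕ → (Fin n → ℤ) → Prop}
    (r1 : ∀ j k k', CgN (p ^ j) k k' → Rc j k → Rc j k')
    (r2 : ∀ j, denN (p ^ j) (fun k => if Rc j k then 1 else 0) ≤ ((p : ℝ) ^ j)⁻¹)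
    (r3 : ∀ i j k, i ≤ j → Rc j k → Rc i k) :
    D1a.HE p (2 * n + 3) κ' (t.natAbs.gcd S.D).primeFactors (S.NQ (S.nt t))
      (fun q => S.n1 q (S.nt t)) Rc (fun q => S.a q - if q ∣ S.D then 1 else 0)
      (fun q => S.b q - if q ∣ S.D then 1 else 0) S.Sg := by
  have pr : ∀ q ∈ (t.natAbs.gcd S.D).primeFactors, q.Prime := fun q =>
    Nat.prime_of_mem_primeFactors
  refine ⟨fun q h => ⟨pr q h, fun e => S.pD (e ▸ ((mem_iff S t (pr q h)).1 h).1)⟩,
    fun q j k k' hq => S.per q j _ _ k k' hq (by simp), fun q h k => ?_, fun q hq h => ?_,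
    fun q hq h => ?_, fun q j hq h => ?_, fun q j hq h hj => ?_, fun q h => ?_,
    fun q h j hj => ?_, fun q k k' hq => S.nper q _ _ k k' hq (by simp),
    fun q k hq => (S.nle q _ k hq).trans (by omega), fun q hq h => ?_,
    fun q hq => (Nat.sub_le _ _).trans ((S.ale q hq).trans (by omega)), r1, r2, r3, S.Sg_per,
    fun q h => S.Sg_den q (pr q h) ((mem_iff S t (pr q h)).1 h).1⟩
  · obtain ⟨h1, h2⟩ := (mem_iff S t (pr q h)).1 h
    exact S.dvd q _ k (pr q h) h1 ((S.dvd_nt (pr q h) h1 t).2 h2)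
  · have := S.up q (S.nt t) hq
    rw [shf_zero S t hq h] at this
    exact this.trans (by gcongr)
  · have := S.lo q (S.nt t) hq (shf_zero S t hq h)
    have q0 : (0 : ℝ) < q := by exact_mod_cast hq.pos
    have k1 : κ / (q : ℝ) ^ 2 ≤ κ' / q ^ 2 := by gcongr
    have k0 : 0 ≤ κ := by
      have := (den_nonneg _ fun _ => by positivity).trans (S.up q 0 hq)
      rwa [le_div_iff₀ q0, zero_mul] at this
    have k2 : 0 ≤ κ / (q : ℝ) ^ 2 := by positivity
    simp only [pow_one]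
    by_cases w : q ∣ S.D
    · rw [if_pos w] at this ⊢
      rcases (S.b q).eq_zero_or_pos with z | z
      · rw [z, Nat.zero_sub, Nat.cast_zero, zero_div]
        exact le_trans (by linarith) (den_nonneg _ fun _ => by positivity)
      · rw [Nat.cast_sub z, Nat.cast_one]
        linarith
    · rw [if_neg w] at this ⊢
      rw [Nat.sub_zero]
      rw [sub_zero] at this
      linarith
  · have := S.lv q j (S.nt t) hq
    rw [shf_zero S t hq h] at this
    exact this.trans (by gcongr)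
  · have := S.lv2 q j (S.nt t) hq hj
    rw [shf_zero S t hq h] at this
    exact this.trans (by gcongr)
  · have := S.up q (S.nt t) (pr q h)
    rw [shf_one S t h] at this
    exact this.trans (by gcongr)
  · have := S.lv2 q j (S.nt t) (pr q h) hj
    rw [shf_one S t h] at this
    exact this.trans (by gcongr)
  · refine (S.nden q (S.nt t) hq (shf_zero S t hq h)).trans (le_of_eq ?_)
    split_ifs with w
    · rw [Nat.cast_sub (a_pos S hq w), Nat.cast_one]
    · rw [Nat.sub_zero, sub_zero]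

lemma W_le (k : Fin n → ℤ) : S.W t k ≤ ∏ q ∈ (S.NQ (S.nt t) k).primeFactors,
    D1a.GE p (2 * n + 3) (t.natAbs.gcd S.D).primeFactors (fun q => S.n1 q (S.nt t)) S.Sg q
      ((S.NQ (S.nt t) k).factorization q) k := by
  refine prod_le_prod (fun _ _ => S.G_nonneg _ _ _ _) fun q hq => ?_
  have h1 := Nat.prime_of_mem_primeFactors hq
  have h2 : (1 : ℝ) ≤ (S.NQ (S.nt t) k).factorization q := by
    exact_mod_cast h1.factorization_pos_of_dvd (Nat.mem_primeFactors.1 hq).2.2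
      (Nat.dvd_of_mem_primeFactors hq)
  simp only [SD.G, D1a.GE, mem_iff S t h1]
  split_ifs
  exacts [le_rfl, le_rfl, le_rfl, by rw [pow_succ' _ (2 * n + 2)]; gcongr; linarith]

end D1Sl

open D1Sl in
theorem sl : SlStmt := by
  intro n p h κ E hn hp
  obtain ⟨δ, ε, σ, C, c1, c2, c3, c4, c5, H⟩ := D1a.coreE (e := 2 * n + 3) (κ := max κ 1) E (n + 1)
    hp hn (by omega) (le_max_right _ _) (by positivity)
  refine ⟨δ, ε, σ, C, c1, c2, c3, c4, c5, fun K hK => (H K hK).imp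
    fun y₀ H y hy S t Rc a₀ A U hg r1 r2 r3 hA hU hN => ?_⟩
  refine (sum_le_sum fun k _ => W_le S t k).trans (H y hy _ _ _ _ _ _ _ _ a₀ A U
    (he S t (le_max_left _ _) r1 r2 r3) (le_trans ?_ hg) (fun q hq _ => ?_) (fun q hq => ?_)
    hA hU hN)
  · rw [← Nat.cast_prod]
    exact Nat.cast_le.2 (Nat.le_of_dvd (Nat.gcd_pos_of_pos_right _ S.sqf.ne_zero.bot_lt)
      (Nat.prod_primeFactors_dvd _))
  · split_ifs with w
    · have : S.b q ≤ S.b q - 1 + 1 := by omega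
      have : (S.b q : ℝ) ≤ (S.b q - 1 : ℕ) + 1 := by exact_mod_cast this
      rw [Nat.cast_sub (a_pos S hq w), Nat.cast_one]
      linarith
    · rw [Nat.sub_zero, Nat.sub_zero]
  · have : (S.b q : ℝ) ≤ n + 1 := by exact_mod_cast S.ble q (Nat.prime_of_mem_primeFactors hq)
    have : (0 : ℝ) ≤ S.a q := Nat.cast_nonneg _
    linarith

end Pool.Agent.Lib.MP_9177b7_ag.SO
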