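import Pool.Agent.Lib.MP_9177b7_ag.SO.D1s
import Pool.Agent.Lib.MP_30b5ba_nt.Variance

/-!
The points whose first coordinate has a large common divisor with `D`.
-/

open Finset

noncomputable section

namespace Pool.Agent.Lib.MP_9177b7_ag.SO

namespace D1e

theorem dv (e : ℕ) {η : ℝ} (hη : 0 < η) : ∃ C : ℝ, 0 < C ∧ ∀ n : ℕ, n ≠ 0 →
    (#n.divisors : ℝ) ^ e ≤ C * (n : ℝ) ^ η := by
  obtain ⟨r, hr⟩ := exists_nat_gt (e / η)
  have r0 : (0 : ℝ) < r := lt_of_le_of_lt (by positivity) hr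
  obtain ⟨C, hC⟩ := Pool.Agent.Lib.MP_30b5ba_nt.card_divisors_pow_le r
  refine ⟨(C : ℝ) ^ ((e : ℝ) / r) + 1, by positivity, fun n hn => ?_⟩
  have h1 : (#n.divisors : ℝ) ^ r ≤ (C : ℝ) * n := by exact_mod_cast hC n hn
  have n1 : (1 : ℝ) ≤ n := by exact_mod_cast Nat.one_le_iff_ne_zero.2 hn
  have h2 : (#n.divisors : ℝ) ^ e = ((#n.divisors : ℝ) ^ r) ^ ((e : ℝ) / r) := by
    rw [← Real.rpow_natCast, ← Real.rpow_natCast, ← Real.rpow_mul (by positivity)]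
    congr 1
    field_simp
  have h3 : (e : ℝ) / r ≤ η := by
    rw [div_lt_iff₀ hη] at hr
    rw [div_le_iff₀ r0]
    linarith
  rw [h2]
  calc _ ≤ ((C : ℝ) * n) ^ ((e : ℝ) / r) := by gcongr
    _ = (C : ℝ) ^ ((e : ℝ) / r) * (n : ℝ) ^ ((e : ℝ) / r) :=
        Real.mul_rpow (by positivity) (by positivity)
    _ ≤ _ := by
        gcongr
        linarith

/-- The integers `k` with `|a + d k| ≤ B`. -/
def I (a d : ℤ) (B : ℝ) : Finset ℤ := Icc ⌈(-B - a) / d⌉ ⌊(B - a) / d⌋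

theorem mem_I {a d k : ℤ} {B : ℝ} (hd : 0 < d) (h : |((a + d * k : ℤ) : ℝ)| ≤ B) :
    k ∈ I a d B := by
  have hd' : (0 : ℝ) < d := by exact_mod_cast hd
  rw [abs_le] at h
  push_cast at h
  simp only [I, mem_Icc, Int.ceil_le, Int.le_floor, div_le_iff₀ hd', le_div_iff₀ hd']
  constructor <;> linarith [h.1, h.2]

theorem card_I (a : ℤ) {d : ℤ} {B : ℝ} (hd : 0 < d) (hB : 0 ≤ B) :
    (#(I a d B) : ℝ) ≤ 2 * B / d + 1 := by
  have hd' : (0 : ℝ) < d := by exact_mod_cast hd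
  rw [I, Int.card_Icc]
  have h1 := Int.floor_le ((B - a) / d)
  have h2 := Int.le_ceil ((-B - a) / d)
  have h3 : (B - a) / d - (-B - a) / d = 2 * B / d := by ring
  have h4 : 0 ≤ 2 * B / d := by positivity
  rcases le_total 0 (⌊(B - a) / d⌋ + 1 - ⌈(-B - a) / d⌉) with h | h
  · have : (((⌊(B - a) / d⌋ + 1 - ⌈(-B - a) / d⌉).toNat : ℕ) : ℝ) =
        ((⌊(B - a) / d⌋ + 1 - ⌈(-B - a) / d⌉ : ℤ) : ℝ) := by
      rw [← Int.cast_natCast, Int.toNat_of_nonneg h]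
    rw [this]; push_cast; linarith
  · rw [Int.toNat_eq_zero.2 h]; push_cast; linarith

theorem card_biU {α β : Type*} [DecidableEq β] (s : Finset α) (f : α → Finset β) (K : ℝ)
    (h : ∀ a ∈ s, (#(f a) : ℝ) ≤ K) : (#(s.biUnion f) : ℝ) ≤ #s * K := by
  calc (#(s.biUnion f) : ℝ) ≤ ((∑ a ∈ s, #(f a) : ℕ) : ℝ) := by
        exact_mod_cast card_biUnion_le
    _ = ∑ a ∈ s, (#(f a) : ℝ) := by push_cast; rfl
    _ ≤ ∑ _a ∈ s, K := sum_le_sum h
    _ = #s * K := by simp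

variable {n p h : ℕ} {κ : ℝ} (S : SD n p h κ)

theorem G_le {q j : ℕ} (hq : q.Prime) (hj : 1 ≤ j) (t : ℤ) (k : Fin n → ℤ) :
    S.G q j t k ≤ ((j : ℝ) + 1) ^ (2 * n + 3) := by
  have j1 : (1 : ℝ) ≤ j := by exact_mod_cast hj
  have a : (2 : ℝ) ^ (2 * n + 3) ≤ ((j : ℝ) + 1) ^ (2 * n + 3) := by gcongr; linarith
  have b : ((2 * n + 3 : ℕ) : ℝ) ≤ (2 : ℝ) ^ (2 * n + 3) := by
    exact_mod_cast (Nat.lt_two_pow_self (n := 2 * n + 3)).le
  have c : (S.n1 q (S.nt t) k : ℝ) ≤ ((2 * n + 2 : ℕ) : ℝ) := by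
    exact_mod_cast S.nle q (S.nt t) k hq
  have n0 : (0 : ℝ) ≤ n := n.cast_nonneg
  push_cast at b c
  unfold SD.G
  split_ifs
  · linarith
  · linarith
  · linarith
  · rw [pow_succ' _ (2 * n + 2)]
    gcongr
    linarith

theorem W_le (t : ℤ) (k : Fin n → ℤ) (h0 : S.NQ (S.nt t) k ≠ 0) :
    S.W t k ≤ (#(S.NQ (S.nt t) k).divisors : ℝ) ^ (2 * n + 3) := by
  rw [Nat.card_divisors h0, SD.W]
  push_cast
  rw [← prod_pow]
  refine prod_le_prod (fun q _ => S.G_nonneg _ _ _ _) fun q hq => ?_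
  have hq' := Nat.prime_of_mem_primeFactors hq
  exact G_le S hq' (hq'.factorization_pos_of_dvd h0 (Nat.dvd_of_mem_primeFactors hq)) t k

end D1e

open D1e in
theorem tail : TailStmt := by
  intro n p h κ R σ hσ
  have s8 : 0 < σ / 8 := by positivity
  obtain ⟨C₁, c1, h1⟩ := dv 1 s8
  obtain ⟨C₂, c2, h2⟩ := dv (2 * n + 3) s8
  refine ⟨σ / 4, C₁ * (2 * |R| + 1) * ((2 * |R| + 1) ^ n * (|κ| + 1)) *
    (C₂ * (|R| + 1) ^ (σ / 8)), by positivity, by positivity, fun S K U hU hg => ?_⟩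
  have hX := S.one_le_X
  have X0 : 0 < S.X := by linarith
  rcases U.eq_empty_or_nonempty with rfl | ⟨u₀, hu₀⟩
  · rw [sum_empty]; positivity
  have D0 : S.D ≠ 0 := S.sqf.ne_zero
  have D0' : (0 : ℤ) < S.D := by exact_mod_cast Nat.pos_of_ne_zero D0
  have D0r : (0 : ℝ) < S.D := by exact_mod_cast Nat.pos_of_ne_zero D0
  have F1 : (1 : ℝ) ≤ S.dF := by exact_mod_cast S.dF1
  have DX : (S.D : ℝ) ≤ S.X := le_mul_of_one_le_right D0r.le F1
  have hR := le_abs_self R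
  have R0 := abs_nonneg R
  -- the weights
  have hW : ∀ u ∈ U, S.W u.1 u.2 ≤ C₂ * (|R| + 1) ^ (σ / 8) * S.X ^ (σ / 8) := fun u hu => by
    obtain ⟨-, -, a, b⟩ := hU.1 u hu
    refine (W_le S _ _ a).trans ((h2 _ a).trans ?_)
    rw [mul_assoc, ← Real.mul_rpow (by positivity) X0.le]
    gcongr
    exact b.trans (by gcongr; linarith)
  -- the first coordinates
  have e1 : 1 ≤ √(S.D : ℝ) * S.X ^ (-(σ / 2)) := by
    have a : S.X ^ σ ≤ S.D := (hg u₀ hu₀).le.trans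
      (by exact_mod_cast Nat.gcd_le_right _ (Nat.pos_of_ne_zero D0))
    have b : S.X ^ (σ / 2) ≤ √(S.D : ℝ) := Real.le_sqrt_of_sq_le (by
      rw [← Real.rpow_natCast, ← Real.rpow_mul X0.le]
      convert a using 2
      push_cast; ring)
    rw [Real.rpow_neg X0.le, ← div_eq_mul_inv, le_div_iff₀ (by positivity), one_mul]
    exact b
  let T : Finset ℤ := (S.D.divisors.filter fun d : ℕ => S.X ^ σ < (d : ℝ)).biUnion fun d =>
    (I 0 d (|R| * √(S.D : ℝ))).image fun k => (d : ℤ) * k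
  have hT : (#T : ℝ) ≤ C₁ * S.X ^ (σ / 8) * ((2 * |R| + 1) * (√(S.D : ℝ) * S.X ^ (-(σ / 2)))) := by
    refine (card_biU _ _ ((2 * |R| + 1) * (√(S.D : ℝ) * S.X ^ (-(σ / 2)))) fun d hd => ?_).trans ?_
    · obtain ⟨a, b⟩ := mem_filter.1 hd
      have d0 : (0 : ℤ) < d := by exact_mod_cast Nat.pos_of_mem_divisors a
      refine le_trans (by exact_mod_cast card_image_le) ((card_I 0 d0 (by positivity)).trans ?_)
      have c : S.X ^ (σ / 2) ≤ (d : ℝ) :=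
        (Real.rpow_le_rpow_of_exponent_le hX (by linarith)).trans b.le
      have c' : 2 * (|R| * √(S.D : ℝ)) / ((d : ℤ) : ℝ) ≤
          2 * |R| * (√(S.D : ℝ) * S.X ^ (-(σ / 2))) := by
        rw [Real.rpow_neg X0.le, ← div_eq_mul_inv, ← mul_assoc, mul_div_assoc]
        push_cast
        gcongr
      linarith
    · gcongr
      have a := h1 _ D0
      rw [pow_one] at a
      refine le_trans (by exact_mod_cast card_filter_le _ _) (a.trans ?_)
      gcongr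
  -- the other coordinates
  let B : ℤ → Finset (ℤ × (Fin n → ℤ)) := fun t =>
    (Fintype.piFinset fun i => I (S.c i * S.nt t) S.D (|R| * S.D * S.w i)).image fun k => (t, k)
  have hB : ∀ t, (#(B t) : ℝ) ≤ (2 * |R| + 1) ^ n * ((|κ| + 1) * √(S.dF : ℝ)) := fun t => by
    refine le_trans (Nat.cast_le.2 card_image_le) ?_
    rw [Fintype.card_piFinset]
    push_cast
    calc _ ≤ ∏ i, (2 * |R| + 1) * S.w i := by
          refine prod_le_prod (fun _ _ => by positivity) fun i _ => ?_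
          have w1 := S.w1 i
          refine (card_I _ D0' (by positivity)).trans ?_
          have : 2 * (|R| * S.D * S.w i) / ((S.D : ℤ) : ℝ) = 2 * |R| * S.w i := by
            push_cast; field_simp
          rw [this]; linarith
      _ = (2 * |R| + 1) ^ n * ∏ i, S.w i := by
          rw [prod_mul_distrib, prod_const, card_univ, Fintype.card_fin]
      _ ≤ _ := by
          gcongr
          exact S.wp.trans (by gcongr; linarith [le_abs_self κ])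
  have hs : U ⊆ T.biUnion B := fun u hu => by
    obtain ⟨a, b, -, -⟩ := hU.1 u hu
    refine mem_biUnion.2 ⟨u.1, mem_biUnion.2 ⟨u.1.natAbs.gcd S.D, mem_filter.2
      ⟨Nat.mem_divisors.2 ⟨Nat.gcd_dvd_right _ _, D0⟩, hg u hu⟩, ?_⟩, mem_image.2 ⟨u.2, ?_, rfl⟩⟩
    · obtain ⟨k, hk⟩ : ((u.1.natAbs.gcd S.D : ℕ) : ℤ) ∣ u.1 :=
        Int.natCast_dvd.2 (Nat.gcd_dvd_left _ _)
      refine mem_image.2 ⟨k, mem_I (by
        exact_mod_cast Nat.gcd_pos_of_pos_right _ (Nat.pos_of_ne_zero D0)) ?_, hk.symm⟩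
      rw [zero_add, ← hk]
      exact a.trans (by gcongr)
    · refine Fintype.mem_piFinset.2 fun i => mem_I D0' ((b i).trans ?_)
      have w1 := S.w1 i
      gcongr
  have hc : (#U : ℝ) ≤ C₁ * S.X ^ (σ / 8) * ((2 * |R| + 1) * (√(S.D : ℝ) * S.X ^ (-(σ / 2)))) *
      ((2 * |R| + 1) ^ n * ((|κ| + 1) * √(S.dF : ℝ))) :=
    le_trans (by exact_mod_cast card_le_card hs) ((card_biU _ _ _ fun t _ => hB t).trans
      (by gcongr))
  have e2 : √S.X = √(S.D : ℝ) * √(S.dF : ℝ) := Real.sqrt_mul D0r.le _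
  have e3 : S.X ^ (-(σ / 4)) = S.X ^ (σ / 8) * S.X ^ (-(σ / 2)) * S.X ^ (σ / 8) := by
    rw [← Real.rpow_add X0, ← Real.rpow_add X0]
    congr 1
    ring
  calc _ ≤ ∑ _u ∈ U, C₂ * (|R| + 1) ^ (σ / 8) * S.X ^ (σ / 8) := sum_le_sum hW
    _ = #U * (C₂ * (|R| + 1) ^ (σ / 8) * S.X ^ (σ / 8)) := by rw [sum_const, nsmul_eq_mul]
    _ ≤ _ := mul_le_mul_of_nonneg_right hc (by positivity)
    _ = _ := by rw [e2, e3]; ring

end Pool.Agent.Lib.MP_9177b7_ag.SO
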