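import Pool.Agent.Lib.MP_9177b7_ag.SO.StI

/-!
The first regime of the sieve problem: statements of the steps.
-/

open Finset

noncomputable section

namespace Pool.Agent.Lib.MP_9177b7_ag.SO

open B (tsumP denN CgN boxN)

open Classical in
/-- The sieve bound on one slice. -/
def SlStmt : Prop :=
  ∀ (n p h : ℕ) (κ E : ℝ), 0 < n → p.Prime → ∃ δ ε σ C : ℝ, 0 < δ ∧ δ ≤ 1 ∧ 0 < ε ∧ 0 < σ ∧ 0 < C ∧
    ∀ K : ℕ, 2 ≤ K → ∃ y₀ : ℝ, ∀ y : ℝ, y₀ ≤ y → ∀ (S : SD n p h κ) (t : ℤ)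
      (Rc : ℕ → (Fin n → ℤ) → Prop) (a₀ : Fin n → ℤ) (A : Fin n → ℕ) (U : Finset (Fin n → ℤ)),
      (t.natAbs.gcd S.D : ℝ) ≤ y ^ σ →
      (∀ j k k', CgN (p ^ j) k k' → Rc j k → Rc j k') →
      (∀ j, denN (p ^ j) (fun k => if Rc j k then 1 else 0) ≤ ((p : ℝ) ^ j)⁻¹) →
      (∀ i j k, i ≤ j → Rc j k → Rc i k) → (∀ i, y ≤ A i) → U ⊆ boxN a₀ A →
      (∀ k ∈ U, S.NQ (S.nt t) k ≠ 0 ∧ (S.NQ (S.nt t) k : ℝ) ≤ y ^ E ∧ Rc K k) →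
      ∑ k ∈ U, S.W t k ≤ C * (∏ i, (A i : ℝ)) *
        Real.exp (C * ∑ q ∈ (t.natAbs.gcd S.D).primeFactors, 1 / (q : ℝ)) *
        (Real.exp (tsumP (fun q => (S.a q : ℝ) - S.b q) (y ^ δ)) * (p : ℝ) ^ (-(K : ℝ) / 2) +
          y ^ (-ε))

/-- The average over `t` of the loss at the common prime divisors of `t` and `D`. -/
def AvgStmt : Prop :=
  ∀ B R : ℝ, 0 ≤ B → ∃ C : ℝ, 0 < C ∧ ∀ (D M : ℕ) (t₀ : ℤ) (T : Finset ℤ), Squarefree D → 0 < M →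
    M.Coprime D → (∀ t ∈ T, |(t : ℝ)| ≤ R * √(D : ℝ) ∧ (M : ℤ) ∣ t - t₀) →
    ∑ t ∈ T, Real.exp (B * ∑ q ∈ (t.natAbs.gcd D).primeFactors, 1 / (q : ℝ)) ≤
      C * (√(D : ℝ) / M + (D : ℝ) ^ (1 / 4 : ℝ))

/-- The points whose first coordinate has a large common divisor with `D`. -/
def TailStmt : Prop :=
  ∀ (n p h : ℕ) (κ R σ : ℝ), 0 < σ → ∃ ε C : ℝ, 0 < ε ∧ 0 < C ∧ ∀ (S : SD n p h κ) (K : ℕ)
    (U : Finset (ℤ × (Fin n → ℤ))), S.Reg R K U →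
    (∀ u ∈ U, S.X ^ σ < (u.1.natAbs.gcd S.D : ℝ)) →
    ∑ u ∈ U, S.W u.1 u.2 ≤ C * √S.X * S.X ^ (-ε)

end Pool.Agent.Lib.MP_9177b7_ag.SO
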