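import Pool.Agent.Lib.MP_9177b7_ag.S4.Tail
import Pool.Agent.Lib.MP_9177b7_ag.SO.D1s

/-!
The mean of a product over the common prime divisors of `t` and `D`.
-/

open Finset

namespace Pool.Agent.Lib.MP_9177b7_ag.SO

namespace D1t

theorem sq_le {C : ℝ} (hC : 0 ≤ C) (P : Finset ℕ) (hP : ∀ q ∈ P, q ≠ 0) :
    ∏ q ∈ P, (1 + C / q / q) ≤ Real.exp (2 * C) := by
  refine (Real.prod_one_add_le_exp_sum _ fun q => by positivity).trans (Real.exp_le_exp.2 ?_)
  have a := sum_Ioo_inv_sq_le (α := ℝ) 0 (P.sup id + 1)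
  have b : ∑ q ∈ P, ((q : ℝ) ^ 2)⁻¹ ≤ ∑ q ∈ Ioo 0 (P.sup id + 1), ((q : ℝ) ^ 2)⁻¹ :=
    sum_le_sum_of_subset_of_nonneg (fun q hq => mem_Ioo.2 ⟨Nat.pos_of_ne_zero (hP q hq),
      Nat.lt_succ_of_le (le_sup (f := id) hq)⟩) fun _ _ _ => by positivity
  calc _ = C * ∑ q ∈ P, ((q : ℝ) ^ 2)⁻¹ := by
        rw [mul_sum]
        exact sum_congr rfl fun q _ => by ring
    _ ≤ C * 2 := mul_le_mul_of_nonneg_left (b.trans (by simpa using a)) hC
    _ = _ := mul_comm _ _

theorem lin_le {C ε : ℝ} (hC : 0 ≤ C) (hε : 0 < ε) : ∃ A : ℝ, 0 < A ∧ ∀ D : ℕ, D ≠ 0 →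
    ∏ q ∈ D.primeFactors, (1 + C / q) ≤ A * (D : ℝ) ^ ε := by
  obtain ⟨B, B1, hB⟩ := S4.Tail.tau_le hε
  obtain ⟨m, hm⟩ := exists_nat_ge C
  refine ⟨(1 + C) ^ m * B, by positivity, fun D hD => ?_⟩
  have a : (2 : ℝ) ^ #D.primeFactors ≤ #D.divisors := by
    rw [Nat.card_divisors hD, ← prod_const, Nat.cast_prod]
    refine prod_le_prod (fun _ _ => zero_le_two) fun q hq => ?_
    have := (Nat.prime_of_mem_primeFactors hq).factorization_pos_of_dvd hD
      (Nat.dvd_of_mem_primeFactors hq)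
    exact_mod_cast Nat.succ_le_succ this
  rw [mul_assoc]
  refine le_trans ?_ (mul_le_mul_of_nonneg_left (a.trans (hB D hD)) (by positivity))
  calc _ ≤ ∏ q ∈ D.primeFactors, (if q < m then 1 + C else 1) * 2 := by
        refine prod_le_prod (fun _ _ => by positivity) fun q hq => ?_
        have q1 : (1 : ℝ) ≤ q := by exact_mod_cast (Nat.prime_of_mem_primeFactors hq).one_le
        split_ifs with h
        · have := div_le_self hC q1
          linarith
        · have : C / q ≤ 1 := div_le_one_of_le₀ (hm.trans (by exact_mod_cast not_lt.1 h))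
            (by positivity)
          linarith
    _ ≤ _ := by
        rw [prod_mul_distrib, prod_const, ← prod_filter, prod_const]
        gcongr
        · linarith
        · exact (card_le_card fun q hq => mem_range.2 (mem_filter.1 hq).2).trans_eq (card_range m)

/-- The mean over one class. -/
theorem tavg {C ε : ℝ} (hC : 0 ≤ C) (hε : 0 < ε) : ∃ A : ℝ, 0 < A ∧
    ∀ (D M : ℕ) (L : ℝ) (T : Finset ℤ), D ≠ 0 → 0 < M → D.Coprime M → 0 ≤ L →
      (∀ t ∈ T, |(t : ℝ)| ≤ L) → (∀ t ∈ T, ∀ s ∈ T, (M : ℤ) ∣ t - s) →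
      ∑ t ∈ T, ∏ q ∈ D.primeFactors.filter fun q : ℕ => (q : ℤ) ∣ t, (1 + C / q) ≤
        A * (L / M + (D : ℝ) ^ ε) := by
  obtain ⟨A, A0, hA⟩ := lin_le hC hε
  refine ⟨2 * Real.exp (2 * C) + A, by positivity, fun D M L T hD hM cop L0 h1 h2 => ?_⟩
  have pr : ∀ {q}, q ∈ D.primeFactors → q.Prime := Nat.prime_of_mem_primeFactors
  have c : ∀ s ∈ D.primeFactors.powerset, (#(T.filter fun t => ∀ q ∈ s, (q : ℤ) ∣ t) : ℝ) ≤
      2 * (L / M) * ∏ q ∈ s, (q : ℝ)⁻¹ + 1 := fun s hs => by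
    have hs := mem_powerset.1 hs
    have d : ∏ q ∈ s, q ∣ D := (prod_dvd_prod_of_subset _ _ _ hs).trans (Nat.prod_primeFactors_dvd D)
    refine (S4.Tail.card_cg _ id (fun _ _ _ _ e => e) (M := (∏ q ∈ s, q) * M)
      (Nat.mul_pos (prod_pos fun q hq => (pr (hs hq)).pos) hM) L0
      (fun t ht => h1 t (mem_filter.1 ht).1) fun t ht u hu => ?_).trans_eq ?_
    · rw [Nat.cast_mul]
      refine (Nat.isCoprime_iff_coprime.2 (cop.coprime_dvd_left d)).mul_dvd ?_
        (h2 t (mem_filter.1 ht).1 u (mem_filter.1 hu).1)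
      rw [Nat.cast_prod]
      exact prod_dvd_of_coprime (fun a ha b hb e => Nat.isCoprime_iff_coprime.2
        ((Nat.coprime_primes (pr (hs ha)) (pr (hs hb))).2 e)) fun q hq =>
          ((mem_filter.1 ht).2 q hq).sub ((mem_filter.1 hu).2 q hq)
    · rw [prod_inv_distrib]
      push_cast
      ring
  calc _ = ∑ t ∈ T, ∑ s ∈ D.primeFactors.powerset,
        if ∀ q ∈ s, (q : ℤ) ∣ t then ∏ q ∈ s, C / q else 0 := by
        refine sum_congr rfl fun t _ => ?_
        rw [prod_one_add, ← sum_filter]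
        refine sum_congr ?_ fun _ _ => rfl
        ext s
        simp only [mem_powerset, mem_filter, subset_iff]
        exact ⟨fun h => ⟨fun q hq => (h hq).1, fun q hq => (h hq).2⟩,
          fun h q hq => ⟨h.1 hq, h.2 q hq⟩⟩
    _ ≤ ∑ s ∈ D.primeFactors.powerset,
        (2 * (L / M) * ∏ q ∈ s, C / q / q + ∏ q ∈ s, C / q) := by
        rw [sum_comm]
        refine sum_le_sum fun s hs => ?_
        rw [← sum_filter, sum_const, nsmul_eq_mul]
        refine (mul_le_mul_of_nonneg_right (c s hs) (prod_nonneg fun _ _ => by positivity)).trans_eq ?_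
        rw [add_mul, one_mul, mul_assoc, ← prod_mul_distrib]
        congr 2
        exact prod_congr rfl fun q _ => by ring
    _ ≤ _ := by
        rw [sum_add_distrib, ← mul_sum, ← prod_one_add, ← prod_one_add]
        have a := sq_le hC _ fun q (hq : q ∈ D.primeFactors) => (pr hq).ne_zero
        have b := hA D hD
        have e : 0 ≤ L / M := by positivity
        have f : 0 ≤ (D : ℝ) ^ ε := by positivity
        have g := Real.exp_pos (2 * C)
        nlinarith [mul_le_mul_of_nonneg_left a e, mul_nonneg e A0.le, mul_nonneg f g.le]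

end D1t

theorem avg : AvgStmt := by
  intro B R hB
  obtain ⟨A, A0, hA⟩ := D1t.tavg (C := B * Real.exp B) (ε := 1 / 4) (by positivity) (by norm_num)
  refine ⟨A * (|R| + 1), by positivity, fun D M t₀ T hD hM cop hT => ?_⟩
  refine le_trans (sum_le_sum fun t _ => ?_) ((hA D M (|R| * √(D : ℝ)) T hD.ne_zero hM cop.symm
    (by positivity) (fun t ht => (hT t ht).1.trans (by gcongr; exact le_abs_self R))
    fun t ht s hs => by simpa using (hT t ht).2.sub (hT s hs).2).trans ?_)
  · have e : (t.natAbs.gcd D).primeFactors = D.primeFactors.filter fun q : ℕ => (q : ℤ) ∣ t := by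
      ext q
      simp only [Nat.mem_primeFactors, mem_filter, Nat.dvd_gcd_iff, Int.natCast_dvd, ne_eq,
        Nat.gcd_eq_zero_iff, hD.ne_zero]
      tauto
    rw [e, mul_sum, Real.exp_sum]
    refine prod_le_prod (fun _ _ => (Real.exp_pos _).le) fun q hq => ?_
    have q1 : (1 : ℝ) ≤ q := by
      exact_mod_cast (Nat.prime_of_mem_primeFactors (mem_filter.1 hq).1).one_le
    have a : B * (1 / q) ≤ B := mul_le_of_le_one_right hB (div_le_one_of_le₀ q1 (by positivity))
    have b := mul_le_mul_of_nonneg_left (Real.add_one_le_exp (-(B * (1 / q))))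
      (Real.exp_pos (B * (1 / q))).le
    rw [← Real.exp_add, add_neg_cancel, Real.exp_zero] at b
    have c := mul_le_mul_of_nonneg_left (Real.exp_le_exp.2 a) (show 0 ≤ B * (1 / q) by positivity)
    calc _ ≤ 1 + B * (1 / q) * Real.exp B := by linarith
      _ = _ := by ring
  · rw [mul_assoc, mul_div_assoc]
    have e : 0 ≤ √(D : ℝ) / M := by positivity
    have f : 0 ≤ (D : ℝ) ^ (1 / 4 : ℝ) := by positivity
    gcongr
    nlinarith [mul_nonneg (abs_nonneg R) f]

end Pool.Agent.Lib.MP_9177b7_ag.SO
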