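import Pool.Agent.Lib.MP_9177b7_ag.B.StE
import Pool.Agent.Lib.MP_9177b7_ag.B.StS

/-!
The sieve problem on a family of slices: definitions and statements.
-/

open Finset

noncomputable section

namespace Pool.Agent.Lib.MP_9177b7_ag.SO

open B (tsumP denN CgN)

/-- The shift of the level at the primes that divide `D` and `N`. -/
def shf (D q : ℕ) (N : ℤ) : ℕ := if q ∣ D ∧ (q : ℤ) ∣ N then 1 else 0

open Classical in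
/-- Integer data of the sieve problem. -/
structure SD (n p h : ℕ) (κ : ℝ) where
  D : ℕ
  dF : ℕ
  q₀ : ℤ
  c : Fin n → ℤ
  w : Fin n → ℝ
  NQ : ℤ → (Fin n → ℤ) → ℕ
  n1 : ℕ → ℤ → (Fin n → ℤ) → ℕ
  Sg : ℕ → (Fin n → ℤ) → Prop
  a : ℕ → ℕ
  b : ℕ → ℕ
  sqf : Squarefree D
  cop : D.Coprime (2 * h)
  h_pos : 0 < h
  pD : ¬ p ∣ D
  dF1 : 1 ≤ dF
  w1 : ∀ i, 1 ≤ w i
  wp : ∏ i, w i ≤ κ * √(dF : ℝ)
  wd : ∀ i, (dF : ℝ) ≤ (2 * w i) ^ ((n + 1) * n)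
  dio : ∀ (u : Fin n → ℤ) (j r : ℤ), u ≠ 0 → j ≠ 0 → (D : ℤ) ∣ j * ∑ i, u i * c i - r →
    (D : ℝ) ≤ (|(j : ℝ)| * ∑ i, |(u i : ℝ)| * w i + |(r : ℝ)|) ^ (n + 1)
  per : ∀ (q j : ℕ) N N' k k', q.Prime → (q : ℤ) ^ j ∣ N - N' → CgN (q ^ j) k k' →
    q ^ j ∣ NQ N k → q ^ j ∣ NQ N' k'
  nper : ∀ (q : ℕ) N N' k k', q.Prime → (q : ℤ) ∣ N - N' → CgN q k k' → n1 q N k = n1 q N' k'
  nle : ∀ (q : ℕ) N k, q.Prime → n1 q N k ≤ 2 * n + 2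
  ale : ∀ q : ℕ, q.Prime → a q ≤ 2 * n + 2
  ble : ∀ q : ℕ, q.Prime → b q ≤ n + 1
  dvd : ∀ (q : ℕ) N k, q.Prime → q ∣ D → (q : ℤ) ∣ N → q ∣ NQ N k
  up : ∀ (q : ℕ) N, q.Prime → denN (q ^ (1 + shf D q N))
    (fun k => if q ^ (1 + shf D q N) ∣ NQ N k then 1 else 0) ≤ κ / q
  lv : ∀ (q j : ℕ) N, q.Prime → denN (q ^ (j + shf D q N))
    (fun k => if q ^ (j + shf D q N) ∣ NQ N k then 1 else 0) ≤ κ * (q : ℝ) ^ (-(j : ℝ) / 4)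
  lv2 : ∀ (q j : ℕ) N, q.Prime → 2 ≤ j → denN (q ^ (j + shf D q N))
    (fun k => if q ^ (j + shf D q N) ∣ NQ N k then 1 else 0) ≤ κ * (q : ℝ) ^ (-1 - (j : ℝ) / 4)
  lo : ∀ (q : ℕ) N, q.Prime → shf D q N = 0 →
    ((b q : ℝ) - if q ∣ D then 1 else 0) / q - κ / q ^ 2 ≤
      denN q fun k => if q ∣ NQ N k then 1 else 0
  nden : ∀ (q : ℕ) N, q.Prime → shf D q N = 0 →
    denN q (fun k => n1 q N k) ≤ ((a q : ℝ) - if q ∣ D then 1 else 0) / q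
  Sg_per : ∀ (q : ℕ) k k', CgN q k k' → Sg q k → Sg q k'
  Sg_den : ∀ q : ℕ, q.Prime → q ∣ D →
    denN q (fun k => if Sg q k then 1 else 0) ≤ (q + 1) / (2 * q)

namespace SD

variable {n p h : ℕ} {κ : ℝ} (S : SD n p h κ)

/-- The numerator of the trace. -/
def nt (t : ℤ) : ℤ := S.D * S.q₀ - h * t ^ 2

/-- The size parameter. -/
def X : ℝ := (S.D : ℝ) * S.dF

open Classical in
/-- The local weights. -/
def G (q j : ℕ) (t : ℤ) (k : Fin n → ℤ) : ℝ :=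
  if j = 1 ∧ q ≠ p then
    if q ∣ S.D ∧ (q : ℤ) ∣ t then (if S.Sg q k then 2 else 0) else S.n1 q (S.nt t) k
  else 2 * ((j : ℝ) + 1) ^ (2 * n + 2)

/-- The product of the local weights. -/
def W (t : ℤ) (k : Fin n → ℤ) : ℝ :=
  ∏ q ∈ (S.NQ (S.nt t) k).primeFactors, S.G q ((S.NQ (S.nt t) k).factorization q) t k

open Classical in
/-- `U` lies in the region of size `R` and satisfies one congruence modulo `p ^ K`. -/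
def Reg (R : ℝ) (K : ℕ) (U : Finset (ℤ × (Fin n → ℤ))) : Prop :=
  (∀ u ∈ U, |(u.1 : ℝ)| ≤ R * √(S.D : ℝ) ∧
    (∀ i, |((S.c i * S.nt u.1 + S.D * u.2 i : ℤ) : ℝ)| ≤ R * S.D * S.w i) ∧
    S.NQ (S.nt u.1) u.2 ≠ 0 ∧ (S.NQ (S.nt u.1) u.2 : ℝ) ≤ R * S.X) ∧
  ((∃ t₀ : ℤ, ∀ u ∈ U, (p : ℤ) ^ K ∣ u.1 - t₀) ∨
    ∃ Rc : ℕ → ℤ → (Fin n → ℤ) → Prop,
      (∀ (j : ℕ) N N' k k', (p : ℤ) ^ j ∣ N - N' → CgN (p ^ j) k k' → Rc j N k → Rc j N' k') ∧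
      (∀ j N, denN (p ^ j) (fun k => if Rc j N k then 1 else 0) ≤ ((p : ℝ) ^ j)⁻¹) ∧
      (∀ i j N k, i ≤ j → Rc j N k → Rc i N k) ∧ ∀ u ∈ U, Rc K (S.nt u.1) u.2)

theorem G_nonneg (q j : ℕ) (t : ℤ) (k : Fin n → ℤ) : 0 ≤ S.G q j t k := by
  unfold G
  split_ifs <;> positivity

theorem W_nonneg (t : ℤ) (k : Fin n → ℤ) : 0 ≤ S.W t k :=
  prod_nonneg fun _ _ => S.G_nonneg _ _ _ _

theorem one_le_X : 1 ≤ S.X :=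
  one_le_mul_of_one_le_of_one_le (by exact_mod_cast S.sqf.ne_zero.bot_lt) (by exact_mod_cast S.dF1)

theorem dvd_nt {q : ℕ} (hq : q.Prime) (hD : q ∣ S.D) (t : ℤ) :
    (q : ℤ) ∣ S.nt t ↔ (q : ℤ) ∣ t := by
  have h1 : (q : ℤ) ∣ S.D * S.q₀ := (Int.natCast_dvd_natCast.2 hD).mul_right _
  have h2 := Nat.prime_iff_prime_int.1 hq
  rw [nt, dvd_sub_right h1]
  refine ⟨fun e => (h2.dvd_or_dvd e).elim (fun e => ?_) h2.dvd_of_dvd_pow,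
    fun e => (e.trans (dvd_pow_self t two_ne_zero)).mul_left _⟩
  exact absurd (Nat.eq_one_of_dvd_coprimes S.cop hD
    ((Int.natCast_dvd_natCast.1 e).mul_left 2)) hq.ne_one

end SD

/-- The sieve bound for the data with property `H`. -/
def DOn (n : ℕ) (H : ℕ → ℕ → Prop) : Prop :=
  ∀ (p h : ℕ) (κ R : ℝ), p.Prime → ∃ δ ε C : ℝ, 0 < δ ∧ 0 < ε ∧ 0 < C ∧
    ∀ K : ℕ, 2 ≤ K → ∃ D₀ : ℕ, ∀ S : SD n p h κ, D₀ ≤ S.D → H S.D S.dF →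
      ∀ U : Finset (ℤ × (Fin n → ℤ)), S.Reg R K U → ∃ x : ℝ, S.X ^ δ ≤ x ∧ x ≤ S.X ∧
        ∑ u ∈ U, S.W u.1 u.2 ≤ C * √S.X *
          (Real.exp (tsumP (fun q => (S.a q : ℝ) - S.b q) x) * (p : ℝ) ^ (-(K : ℝ) / 2) +
            S.X ^ (-ε))

/-- The first regime. -/
def D1Stmt : Prop := ∀ n g : ℕ, 2 ≤ n → DOn n fun D dF => D < dF ^ g

/-- The second regime. -/
def D2Stmt : Prop := ∀ n : ℕ, 2 ≤ n → ∃ g : ℕ, DOn n fun D dF => dF ^ g ≤ D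

/-- The sieve bound. -/
def DStmt : Prop := ∀ n : ℕ, 2 ≤ n → DOn n fun _ _ => True

theorem dstmt (h1 : D1Stmt) (h2 : D2Stmt) : DStmt := by
  intro n hn p h κ R hp
  obtain ⟨g, h2⟩ := h2 n hn
  obtain ⟨δ₁, ε₁, C₁, a1, b1, c1, h1⟩ := h1 n g hn p h κ R hp
  obtain ⟨δ₂, ε₂, C₂, a2, b2, c2, h2⟩ := h2 p h κ R hp
  refine ⟨min δ₁ δ₂, min ε₁ ε₂, max C₁ C₂, lt_min a1 a2, lt_min b1 b2, lt_max_of_lt_left c1,
    fun K hK => ?_⟩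
  obtain ⟨D₁, h1⟩ := h1 K hK
  obtain ⟨D₂, h2⟩ := h2 K hK
  refine ⟨max D₁ D₂, fun S hS _ U hU => ?_⟩
  have hX := S.one_le_X
  rcases lt_or_ge S.D (S.dF ^ g) with h | h
  · obtain ⟨x, x1, x2, x3⟩ := h1 S (le_of_max_le_left hS) h U hU
    refine ⟨x, (Real.rpow_le_rpow_of_exponent_le hX (min_le_left _ _)).trans x1, x2,
      x3.trans ?_⟩
    gcongr
    · exact le_max_left _ _
    · exact min_le_left _ _
  · obtain ⟨x, x1, x2, x3⟩ := h2 S (le_of_max_le_right hS) h U hU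
    refine ⟨x, (Real.rpow_le_rpow_of_exponent_le hX (min_le_right _ _)).trans x1, x2,
      x3.trans ?_⟩
    gcongr
    · exact le_max_right _ _
    · exact min_le_right _ _

end Pool.Agent.Lib.MP_9177b7_ag.SO
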