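import Pool.Agent.Lib.MP_9177b7_ag.S4.Eqd
import Pool.Agent.Lib.MP_9177b7_ag.S4.ShiuA1

/-!
Equidistribution in residue classes of a smoothed neighbourhood of a parabola: statement.
-/

open Finset

noncomputable section

namespace Pool.Agent.Lib.MP_9177b7_ag.SO

variable {n : ℕ}

/-- The values `c i (A - h t²) + D k i` at `u = (t, k)`. -/
def nn (c : Fin n → ℤ) (A : ℤ) (h D : ℕ) (u : Fin (n + 1) → ℤ) (i : Fin n) : ℤ :=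
  c i * (A - h * u 0 ^ 2) + D * u i.succ

/-- Equidistribution of the product of the trapezoid weights in classes to small moduli. -/
def EqdStmt : Prop :=
  ∀ n : ℕ, ∃ N : ℕ, 0 < N ∧ ∀ (h : ℕ) (R : ℝ), 0 < h → ∃ y₀ : ℝ, ∀ (y : ℝ) (D T : ℕ)
    (K : Fin n → ℕ) (c B : Fin n → ℤ) (w : Fin n → ℝ) (A a : ℤ) (S : Finset (Fin (n + 1) → ℤ)),
    y₀ ≤ y → (D : ℝ) = y ^ N → (∀ i, 1 ≤ w i ∧ w i ≤ y) →
    (∀ (u : Fin n → ℤ) (j r : ℤ), u ≠ 0 → j ≠ 0 → (D : ℤ) ∣ j * ∑ i, u i * c i - r →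
      (D : ℝ) ≤ (|(j : ℝ)| * ∑ i, |(u i : ℝ)| * w i + |(r : ℝ)|) ^ (n + 1)) →
    (∀ i, 1 ≤ K i) → √(D : ℝ) ≤ T → (T : ℝ) ≤ R * √(D : ℝ) →
    (∀ u, u ∈ S ↔ a ≤ u 0 ∧ u 0 < a + T ∧
      ∀ i, B i ≤ nn c A h D u i ∧ nn c A h D u i < B i + (K i + 1) * D) →
    S4.PB S (fun u => ∏ i, S4.Wt D (K i) (B i) (nn c A h D u i)) (T * ∏ i, (K i : ℝ)) y

/-- The region of `EqdStmt` is finite. -/
theorem exists_region {D : ℕ} (hD : 0 < D) (h T : ℕ) (K : Fin n → ℕ) (c B : Fin n → ℤ) (A a : ℤ) :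
    ∃ S : Finset (Fin (n + 1) → ℤ), ∀ u, u ∈ S ↔ a ≤ u 0 ∧ u 0 < a + T ∧
      ∀ i, B i ≤ nn c A h D u i ∧ nn c A h D u i < B i + (K i + 1) * D := by
  classical
  refine ⟨(((Ico a (a + T) ×ˢ Fintype.piFinset fun i => Ico (B i) (B i + (K i + 1) * D)).image
    fun x => Fin.cons x.1 fun i => (x.2 i - c i * (A - h * x.1 ^ 2)) / D).filter fun u =>
      a ≤ u 0 ∧ u 0 < a + T ∧ ∀ i, B i ≤ nn c A h D u i ∧ nn c A h D u i < B i + (K i + 1) * D),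
    fun u => ⟨fun h => (mem_filter.1 h).2, fun h' => mem_filter.2 ⟨mem_image.2
      ⟨(u 0, nn c A h D u), by simpa using ⟨⟨h'.1, h'.2.1⟩, h'.2.2⟩, ?_⟩, h'⟩⟩⟩
  ext i
  refine Fin.cases rfl (fun i => ?_) i
  simp only [nn, add_sub_cancel_left, Fin.cons_succ]
  exact Int.mul_ediv_cancel_left _ (by positivity)

end Pool.Agent.Lib.MP_9177b7_ag.SO
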