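import Pool.Agent.Lib.MP_9177b7_ag.S4.D2a
import Pool.Agent.Lib.MP_9177b7_ag.S4.SliceA
import Pool.Agent.Lib.MP_9177b7_ag.SO.StI
import Pool.Agent.Lib.MP_9177b7_ag.SO.StQ

/-!
The sieve bound in the second regime.
-/

open Finset Classical

noncomputable section

namespace Pool.Agent.Lib.MP_9177b7_ag.SO

namespace D2

open B B.Slice

variable {n p h q : ℕ} {κ : ℝ}

lemma avg {M M' : ℕ} (hd : M ∣ M') (h0 : 0 < M') (x z : ℝ) (t₀ : ℤ) :
    (∑ s ∈ range M', (x + z * if (M : ℤ) ∣ s - t₀ then 1 else 0)) / M' = x + z / M := by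
  have h1 : (0 : ℝ) < M' := by exact_mod_cast h0
  rw [S4.D2.sum_aff _ _ _ fun t => (M : ℤ) ∣ t - t₀, S4.D2.cn_cls hd h0]
  field_simp

lemma avg_le {M M' : ℕ} (hd : M ∣ M') (h0 : 0 < M') {F : (Fin (n + 1) → ℤ) → ℝ} {x z : ℝ} (t₀ : ℤ)
    (H : ∀ s : ℤ, denN M' (fun v => F (Fin.cons s v)) ≤
      x + z * if (M : ℤ) ∣ s - t₀ then 1 else 0) : denN M' F ≤ x + z / M := by
  rw [SieveN.den_cons, ← avg hd h0 x z t₀]
  exact div_le_div_of_nonneg_right (sum_le_sum fun s _ => H s) (by positivity)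

lemma avg_ge {M M' : ℕ} (hd : M ∣ M') (h0 : 0 < M') {F : (Fin (n + 1) → ℤ) → ℝ} {x z : ℝ} (t₀ : ℤ)
    (H : ∀ s : ℤ, (x + z * if (M : ℤ) ∣ s - t₀ then 1 else 0) ≤
      denN M' fun v => F (Fin.cons s v)) : x + z / M ≤ denN M' F := by
  rw [SieveN.den_cons, ← avg hd h0 x z t₀]
  exact div_le_div_of_nonneg_right (sum_le_sum fun s _ => H s) (by positivity)

lemma den_le_one {d M : ℕ} (h0 : 0 < M) (P : (Fin d → ℤ) → Prop) {_ : DecidablePred P} :
    denN M (fun u => if P u then 1 else 0) ≤ 1 :=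
  (den_le _ fun u => by split_ifs <;> norm_num).trans_eq (ShiuN.den_const h0 1)

variable (S : SD n p h κ)

/-- The norm as a function of all variables. -/
def NN (u : Fin (n + 1) → ℤ) : ℕ := S.NQ (S.nt (u 0)) (Fin.tail u)

/-- The weights at level one. -/
def nw (q : ℕ) (u : Fin (n + 1) → ℤ) : ℕ :=
  if q ∣ S.D ∧ (q : ℤ) ∣ u 0 then (if S.Sg q (Fin.tail u) then 2 else 0)
  else S.n1 q (S.nt (u 0)) (Fin.tail u)

lemma NN_cons (s : ℤ) (v : Fin n → ℤ) : NN S (Fin.cons s v) = S.NQ (S.nt s) v := by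
  simp [NN]

lemma nw_cons (s : ℤ) (v : Fin n → ℤ) : nw S q (Fin.cons s v) =
    if q ∣ S.D ∧ (q : ℤ) ∣ s then (if S.Sg q v then 2 else 0) else S.n1 q (S.nt s) v := by
  simp [nw]

lemma cg {M : ℕ} {u v : Fin (n + 1) → ℤ} (c : CgN M u v) :
    (M : ℤ) ∣ S.nt (u 0) - S.nt (v 0) ∧ CgN M (Fin.tail u) (Fin.tail v) :=
  ⟨S4.D2.dv ((c 0).mul_left (-(h * (u 0 + v 0)))) (by rw [SD.nt, SD.nt]; ring),
    fun i => c i.succ⟩

lemma shf_cases (hq : q.Prime) (s : ℤ) : shf S.D q (S.nt s) = 0 ∧ ¬ (q ∣ S.D ∧ (q : ℤ) ∣ s) ∨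
    shf S.D q (S.nt s) = 1 ∧ q ∣ S.D ∧ (q : ℤ) ∣ s := by
  by_cases e : q ∣ S.D ∧ (q : ℤ) ∣ s
  · exact Or.inr ⟨if_pos ⟨e.1, (S.dvd_nt hq e.1 s).2 e.2⟩, e⟩
  · exact Or.inl ⟨if_neg fun e' => e ⟨e'.1, (S.dvd_nt hq e'.1 s).1 e'.2⟩, e⟩

include S in
lemma k0 : 0 ≤ κ := by
  have := (ShiuN.den_nonneg _ fun _ => by positivity).trans (S.lv 2 0 0 Nat.prime_two)
  simpa using this

lemma lev (hq : q.Prime) {j : ℕ} (hj : j ≠ 0) {x z : ℝ} (z0 : 0 ≤ z) (x0 : 0 ≤ x)
    (h0 : ∀ N, shf S.D q N = 0 →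
      denN (q ^ j) (fun k => if q ^ j ∣ S.NQ N k then 1 else 0) ≤ x)
    (h1 : ∀ N, shf S.D q N = 1 →
      denN (q ^ j) (fun k => if q ^ j ∣ S.NQ N k then 1 else 0) ≤ z) :
    denN (q ^ j) (fun u => if q ^ j ∣ NN S u then 1 else 0) ≤ x + z / q := by
  refine avg_le (dvd_pow_self q hj) (pow_pos hq.pos j) 0 fun s => ?_
  simp only [NN_cons, sub_zero]
  rcases shf_cases S hq s with e | e
  · exact (h0 _ e.1).trans (le_add_of_nonneg_right (by positivity))
  · rw [if_pos e.2.2, mul_one]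
    exact (h1 _ e.1).trans (le_add_of_nonneg_left x0)

lemma nw_den (hq : q.Prime) :
    denN q (fun u => (nw S q u : ℝ)) ≤ (S.a q : ℝ) / q + 2 / q ^ 2 := by
  have q0 : (0 : ℝ) < q := by exact_mod_cast hq.pos
  have a0 : (0 : ℝ) ≤ S.a q := Nat.cast_nonneg _
  by_cases e : q ∣ S.D
  · refine (avg_le (x := (S.a q - 1) / q) (z := (q + 1) / q - (S.a q - 1) / q) dvd_rfl hq.pos 0
      fun s => ?_).trans ?_
    · simp only [nw_cons, sub_zero]
      rcases shf_cases S hq s with e1 | e1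
      · have := S.nden q _ hq e1.1
        rw [if_pos e] at this
        simpa only [if_neg e1.2, if_neg fun e2 => e1.2 ⟨e, e2⟩, mul_zero, add_zero] using this
      · have := S.Sg_den q hq e
        simp only [if_pos e1.2, if_pos e1.2.2, mul_one, add_sub_cancel]
        calc _ = 2 * denN q fun k => if S.Sg q k then 1 else 0 := by
              rw [← den_smul]
              congr 1
              ext k
              split_ifs <;> simp
          _ ≤ 2 * ((q + 1) / (2 * q)) := by gcongr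
          _ = _ := by field_simp
    · field_simp
      linarith
  · refine (avg_le (x := S.a q / q) (z := 0) dvd_rfl hq.pos 0 fun s => ?_).trans
      (by rw [zero_div]; gcongr; positivity)
    have := S.nden q (S.nt s) hq (if_neg fun e1 => e e1.1)
    simpa only [nw_cons, e, false_and, if_false, sub_zero, zero_mul, add_zero] using this

lemma hyp {κ' : ℝ} (k1 : 2 * κ + n + 1 ≤ κ') {R : ℕ → (Fin (n + 1) → ℤ) → Prop}
    (h1 : ∀ j t t', CgN (p ^ j) t t' → R j t → R j t')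
    (h2 : ∀ j, denN (p ^ j) (fun t => if R j t then 1 else 0) ≤ ((p : ℝ) ^ j)⁻¹)
    (h3 : ∀ i j t, i ≤ j → R j t → R i t) :
    Hyp p (2 * n + 3) κ' (NN S) (nw S) R (fun _ => 2 * n + 3) S.b where
  per q j t t' hq c := S.per q j _ _ _ _ hq (by exact_mod_cast (cg S c).1) (cg S c).2
  up q hq := by
    have := k0 S
    have n0 : (0 : ℝ) ≤ n := n.cast_nonneg
    refine (lev S hq one_ne_zero zero_le_one (x := κ / q) (by positivity)
      (fun N e => by simpa only [e, add_zero] using S.up q N hq)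
      fun N _ => den_le_one (pow_pos hq.pos 1) _).trans ?_
    rw [← add_div]
    gcongr
    linarith
  lo q hq := by
    have := k0 S
    have q1 : (1 : ℝ) ≤ q := by exact_mod_cast hq.one_le
    have n0 : (0 : ℝ) ≤ n := n.cast_nonneg
    have b1 : (S.b q : ℝ) ≤ n + 1 := by exact_mod_cast S.ble q hq
    simp only [pow_one]
    by_cases e : q ∣ S.D
    · refine le_trans ?_ (avg_ge (x := (S.b q - 1) / q - κ / q ^ 2)
        (z := 1 - ((S.b q - 1) / q - κ / q ^ 2)) dvd_rfl hq.pos 0 fun s => ?_)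
      · field_simp
        nlinarith
      · simp only [NN_cons, sub_zero]
        rcases shf_cases S hq s with e1 | e1
        · have := S.lo q _ hq e1.1
          rw [if_pos e] at this
          simpa only [if_neg fun e2 => e1.2 ⟨e, e2⟩, mul_zero, add_zero] using this
        · simp only [if_pos e1.2.2, mul_one, add_sub_cancel,
            if_pos (S.dvd q _ _ hq e ((S.dvd_nt hq e s).2 e1.2.2)), ShiuN.den_const hq.pos, le_refl]
    · refine le_trans ?_ (avg_ge (x := S.b q / q - κ / q ^ 2) (z := 0) dvd_rfl hq.pos 0 fun s => ?_)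
      · rw [zero_div, add_zero]
        gcongr
        linarith
      · have := S.lo q (S.nt s) hq (if_neg fun e1 => e e1.1)
        simpa only [NN_cons, e, if_false, sub_zero, zero_mul, add_zero] using this
  lv q j hq := by
    have := k0 S
    have q1 : (1 : ℝ) ≤ q := by exact_mod_cast hq.one_le
    have n0 : (0 : ℝ) ≤ n := n.cast_nonneg
    rcases j with _ | j
    · refine (den_le_one (pow_pos hq.pos 0) _).trans ?_
      simp only [Nat.cast_zero, neg_zero, zero_div, Real.rpow_zero, mul_one]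
      linarith
    refine (lev S hq j.succ_ne_zero (z := κ * (q : ℝ) ^ (-(j : ℝ) / 4)) (by positivity)
      (x := κ * (q : ℝ) ^ (-((j + 1 : ℕ) : ℝ) / 4)) (by positivity)
      (fun N e => by simpa only [e, add_zero] using S.lv q (j + 1) N hq)
      fun N e => by simpa only [e] using S.lv q j N hq).trans ?_
    have : (q : ℝ) ^ (-(j : ℝ) / 4) / q ≤ (q : ℝ) ^ (-((j + 1 : ℕ) : ℝ) / 4) := by
      rw [← Real.rpow_sub_one (by positivity)]
      exact Real.rpow_le_rpow_of_exponent_le q1 (by push_cast; linarith)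
    rw [mul_div_assoc, ← mul_add]
    calc _ ≤ κ * (2 * (q : ℝ) ^ (-((j + 1 : ℕ) : ℝ) / 4)) := by gcongr; linarith
      _ ≤ _ := by rw [← mul_assoc]; gcongr; linarith
  lv2 q j hq hj := by
    have := k0 S
    have q1 : (1 : ℝ) ≤ q := by exact_mod_cast hq.one_le
    have n0 : (0 : ℝ) ≤ n := n.cast_nonneg
    obtain ⟨j, rfl⟩ : ∃ i, j = i + 1 := ⟨j - 1, by omega⟩
    refine (lev S hq j.succ_ne_zero (z := κ * (q : ℝ) ^ (-((j + 1 : ℕ) : ℝ) / 4)) (by positivity)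
      (x := κ * (q : ℝ) ^ (-1 - ((j + 1 : ℕ) : ℝ) / 4)) (by positivity)
      (fun N e => by simpa only [e, add_zero] using S.lv2 q (j + 1) N hq hj)
      fun N e => ?_).trans ?_
    · rcases (show j = 1 ∨ 2 ≤ j by omega) with rfl | h2
      · refine le_trans (by simpa only [e] using S.up q N hq) ?_
        rw [div_eq_mul_inv, ← Real.rpow_neg_one]
        gcongr
        norm_num
      · refine le_trans (by simpa only [e] using S.lv2 q j N hq h2) ?_
        gcongr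
        push_cast
        linarith
    rw [mul_div_assoc, ← Real.rpow_sub_one (by positivity), ← mul_add,
      show -((j + 1 : ℕ) : ℝ) / 4 - 1 = -1 - ((j + 1 : ℕ) : ℝ) / 4 by ring, ← two_mul, ← mul_assoc]
    gcongr
    linarith
  nper q t t' hq c := by
    obtain ⟨c1, c2⟩ := cg S c
    have c3 : (q : ℤ) ∣ t 0 ↔ (q : ℤ) ∣ t' 0 := dvd_iff_dvd_of_dvd_sub (c 0)
    have c4 : S.Sg q (Fin.tail t) ↔ S.Sg q (Fin.tail t') :=
      ⟨S.Sg_per _ _ _ c2, S.Sg_per _ _ _ (ShiuN.CgN.symm c2)⟩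
    simp only [nw, c3, c4, S.nper q _ _ _ _ hq c1 c2]
  nle q t hq := by
    have := S.nle q (S.nt (t 0)) (Fin.tail t) hq
    unfold nw
    split_ifs <;> omega
  nden q hq := by
    have q2 : (2 : ℝ) ≤ q := by exact_mod_cast hq.two_le
    have a4 : (S.a q : ℝ) ≤ 2 * n + 2 := by exact_mod_cast S.ale q hq
    refine (nw_den S hq).trans ?_
    push_cast
    field_simp
    nlinarith
  ale _ _ := le_rfl
  rper := h1
  rden := h2
  ranti := h3

lemma W_le (hp : p.Prime) (t : ℤ) (k : Fin n → ℤ) :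
    S.W t k ≤ ∏ q ∈ (NN S (Fin.cons t k)).primeFactors, ww p (2 * n + 3) (nw S) q
      ((NN S (Fin.cons t k)).factorization q) (Fin.cons t k) := by
  rw [NN_cons]
  refine prod_le_prod (fun q _ => S.G_nonneg _ _ _ _) fun q hq => ?_
  have h1 := Nat.prime_of_mem_primeFactors hq
  have h3 : 0 < (S.NQ (S.nt t) k).factorization q :=
    h1.factorization_pos_of_dvd (Nat.mem_primeFactors.1 hq).2.2 (Nat.dvd_of_mem_primeFactors hq)
  generalize (S.NQ (S.nt t) k).factorization q = j at *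
  simp only [SD.G, ww, nw_cons, Nat.prime_dvd_prime_iff_eq h1 hp, ne_eq]
  split_ifs <;> try simp
  have : (1 : ℝ) ≤ j := by exact_mod_cast h3
  rw [pow_succ' _ (2 * n + 2)]
  gcongr
  linarith

lemma tube (hp : p.Prime) {κ' r : ℝ} (k1 : 2 * κ + n + 1 ≤ κ') {K : ℕ}
    {U : Finset (ℤ × (Fin n → ℤ))} (H : S.Reg r K U) :
    ∃ R, Hyp p (2 * n + 3) κ' (NN S) (nw S) R (fun _ => 2 * n + 3) S.b ∧
      ∀ u ∈ U, R K (Fin.cons u.1 u.2) := by
  rcases H.2 with ⟨t₀, H⟩ | ⟨Rc, a1, a2, a3, a4⟩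
  · refine ⟨fun j u => ((p ^ j : ℕ) : ℤ) ∣ u 0 - t₀, hyp S k1
      (fun j u v c e => S4.D2.dv (dvd_sub e (c 0)) (by ring)) (fun j => ?_)
      fun i j u hij => (Int.natCast_dvd_natCast.2 (pow_dvd_pow p hij)).trans,
      fun u hu => by simpa using H u hu⟩
    refine (avg_le (x := 0) (z := 1) dvd_rfl (pow_pos hp.pos j) t₀ fun s => ?_).trans (by simp)
    simp only [Fin.cons_zero, ShiuN.den_const (pow_pos hp.pos j), zero_add, one_mul]
    exact le_of_eq (by congr)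
  · refine ⟨fun j u => Rc j (S.nt (u 0)) (Fin.tail u), hyp S k1
      (fun j u v c => a1 j _ _ _ _ (by exact_mod_cast (cg S c).1) (cg S c).2) (fun j => ?_)
      fun i j u => a3 i j _ _, fun u hu => by simpa using a4 u hu⟩
    refine (avg_le (x := ((p : ℝ) ^ j)⁻¹) (z := 0) dvd_rfl (pow_pos hp.pos j) 0 fun s => ?_).trans
      (by simp)
    simpa only [Fin.cons_zero, Fin.tail_cons, zero_mul, add_zero] using a2 j (S.nt s)

end D2

open D2 B in
theorem d2 (hE : EqdStmt) : D2Stmt := by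
  intro n _
  obtain ⟨N, N0, hE⟩ := hE n
  refine ⟨N, fun p h κ R hp => ?_⟩
  rcases h.eq_zero_or_pos with rfl | h0
  · exact ⟨1, 1, 1, one_pos, one_pos, one_pos, fun K _ => ⟨0, fun S => absurd S.h_pos (by simp)⟩⟩
  obtain ⟨κ', k1, k2, k3⟩ : ∃ κ' : ℝ, 2 * κ + n + 1 ≤ κ' ∧ 1 ≤ κ' ∧ κ ≤ κ' :=
    ⟨2 * |κ| + n + 1, by linarith [le_abs_self κ], by
      linarith [abs_nonneg κ, n.cast_nonneg (α := ℝ)], by
      linarith [abs_nonneg κ, le_abs_self κ, n.cast_nonneg (α := ℝ)]⟩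
  obtain ⟨δ, ε, C, d0, d1, e0, C0, hc⟩ := S4.coreA (d := n + 1) (bad := p) (e := 2 * n + 3)
    (κ := 2 * κ') ((N + 2 : ℕ) : ℝ) hp n.succ_pos hp.ne_zero dvd_rfl (by linarith)
  obtain ⟨r, hr, r0⟩ : ∃ r : ℝ, R ≤ r ∧ 0 ≤ r := ⟨|R|, le_abs_self R, abs_nonneg R⟩
  obtain ⟨y₁, hE⟩ := hE h (2 * r + 4) h0
  refine ⟨δ / (N + 1 : ℕ), ε / (N + 1 : ℕ), C * ((2 * r + 4) ^ (n + 1) * κ'), by positivity,
    by positivity, by positivity, fun K hK => ?_⟩
  obtain ⟨y₀, hc⟩ := hc K hK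
  refine ⟨⌈max (max y₀ y₁) (max r (κ' ^ 2))⌉₊ ^ N, fun S hD hdF U hU => ?_⟩
  obtain ⟨y, hy⟩ : ∃ y, y = (S.D : ℝ) ^ (N : ℝ)⁻¹ := ⟨_, rfl⟩
  have hD' : (S.D : ℝ) = y ^ N := by
    rw [hy]
    exact (Real.rpow_inv_natCast_pow (Nat.cast_nonneg _) N0.ne').symm
  have D0 : 0 < S.D := S.sqf.ne_zero.bot_lt
  have D1 : (1 : ℝ) ≤ S.D := by exact_mod_cast D0
  have F1 : (1 : ℝ) ≤ S.dF := by exact_mod_cast S.dF1
  have y1 : 1 ≤ y := hy ▸ Real.one_le_rpow D1 (by positivity)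
  have y0 : 0 < y := by linarith
  have hy1 : max (max y₀ y₁) (max r (κ' ^ 2)) ≤ y := by
    refine (Nat.le_ceil _).trans (le_of_pow_le_pow_left₀ N0.ne' y0.le ?_)
    rw [← hD']
    exact_mod_cast hD
  simp only [max_le_iff] at hy1
  obtain ⟨⟨hy0, hy1⟩, hy2, hy3⟩ := hy1
  have Fy : (S.dF : ℝ) ≤ y := by
    refine le_of_pow_le_pow_left₀ N0.ne' y0.le ?_
    rw [← hD']
    exact_mod_cast hdF
  have w0 : ∀ i, 0 ≤ S.w i := fun i => zero_le_one.trans (S.w1 i)
  have wp : ∏ i, S.w i ≤ κ' * √(S.dF : ℝ) := S.wp.trans (by gcongr)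
  have wy : ∀ i, S.w i ≤ y := fun i => by
    calc S.w i = S.w i * 1 := (mul_one _).symm
      _ ≤ S.w i * ∏ j ∈ univ.erase i, S.w j := by
          gcongr
          exacts [w0 i, prod_induction _ (1 ≤ ·) (fun _ _ => one_le_mul_of_one_le_of_one_le) le_rfl
            fun j _ => S.w1 j]
      _ = _ := mul_prod_erase _ _ (mem_univ i)
      _ ≤ _ := wp
      _ ≤ √y * √y := by
          gcongr
          exact Real.le_sqrt_of_sq_le hy3
      _ = y := Real.mul_self_sqrt y0.le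
  have s1 : 1 ≤ √(S.D : ℝ) := Real.one_le_sqrt.2 D1
  obtain ⟨T, t1, t2⟩ : ∃ T : ℕ, (r + 1) * √(S.D : ℝ) ≤ T ∧ T < (r + 1) * √(S.D : ℝ) + 1 :=
    ⟨_, Nat.le_ceil _, Nat.ceil_lt_add_one (by positivity)⟩
  obtain ⟨L, l1, l2⟩ : ∃ L : Fin n → ℕ, (∀ i, r * S.w i ≤ L i) ∧ ∀ i, L i < r * S.w i + 1 :=
    ⟨fun i => ⌈r * S.w i⌉₊, fun i => Nat.le_ceil _,
      fun i => Nat.ceil_lt_add_one (mul_nonneg r0 (w0 i))⟩
  have r1 : 0 ≤ r * √(S.D : ℝ) := by positivity
  have t3 : ((2 * T : ℕ) : ℝ) ≤ (2 * r + 4) * √(S.D : ℝ) := by push_cast; linarith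
  have l3 : ∀ i, ((2 * L i + 2 : ℕ) : ℝ) ≤ (2 * r + 4) * S.w i := fun i => by
    push_cast
    linarith [l2 i, S.w1 i]
  obtain ⟨W, hW⟩ := exists_region D0 h (2 * T) (fun i => 2 * L i + 2) S.c
    (fun i => -((L i + 1) * S.D)) (S.D * S.q₀) (-T)
  obtain ⟨Rr, H, hR⟩ := tube S hp (κ' := 2 * κ') (by linarith) hU
  have e1 : ∀ (u : ℤ × (Fin n → ℤ)) i, nn S.c (S.D * S.q₀) h S.D (Fin.cons u.1 u.2) i =
      S.c i * S.nt u.1 + S.D * u.2 i := fun u i => by simp [nn, SD.nt]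
  have b2 : ∀ u ∈ U, |u.1| < T ∧ ∀ i, |S.c i * S.nt u.1 + S.D * u.2 i| ≤ L i * S.D := fun u hu => by
    obtain ⟨c1, c2, -⟩ := hU.1 u hu
    refine ⟨?_, fun i => ?_⟩
    · have : |(u.1 : ℝ)| < T := by nlinarith
      exact_mod_cast this
    · have := w0 i
      have : |((S.c i * S.nt u.1 + S.D * u.2 i : ℤ) : ℝ)| ≤ L i * S.D := (c2 i).trans (by
        rw [mul_right_comm]
        exact mul_le_mul_of_nonneg_right (le_trans (by gcongr) (l1 i)) (by positivity))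
      exact_mod_cast this
  have D2 : (0 : ℤ) < S.D := by exact_mod_cast D0
  have X1 : S.X ≤ y ^ (N + 1) := by
    rw [pow_succ, ← hD', SD.X]
    gcongr
  have X0 : 0 < S.X := zero_lt_one.trans_le S.one_le_X
  have key := hc y hy0 (NN S) _ Rr _ S.a S.b _ W _ (U.image fun u => Fin.cons u.1 u.2) H
    (fun q hq => ⟨(S.ale q hq).trans (by omega), (nw_den S hq).trans (by gcongr; linarith)⟩)
    (by positivity) (fun u => prod_nonneg fun i _ => S4.Wt_nonneg _ _ _ _)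
    (hE y S.D _ _ _ _ S.w _ _ W hy1 hD' (fun i => ⟨S.w1 i, wy i⟩) S.dio (fun i => by omega)
      (by push_cast; linarith) t3 hW) (fun v hv => ?_) fun v hv => ?_
  · have X2 : ∀ η : ℝ, 0 ≤ η → S.X ^ (η / (N + 1 : ℕ)) ≤ y ^ η := fun η h0 => by
      refine (Real.rpow_le_rpow X0.le X1 (by positivity)).trans (le_of_eq ?_)
      rw [← Real.rpow_natCast, ← Real.rpow_mul y0.le]
      congr 1
      field_simp
    refine ⟨y ^ δ, X2 δ d0.le, ?_, ?_⟩
    · calc y ^ δ ≤ y ^ (N : ℝ) :=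
            Real.rpow_le_rpow_of_exponent_le y1 (d1.trans (by exact_mod_cast N0))
        _ = S.D * 1 := by rw [Real.rpow_natCast, hD', mul_one]
        _ ≤ _ := by rw [SD.X]; gcongr
    rw [sum_image fun u _ v _ e => Prod.ext (Fin.cons_injective2 e).1 (Fin.cons_injective2 e).2]
      at key
    refine le_trans (sum_le_sum fun u hu => ?_) (key.trans ?_)
    · rw [prod_eq_one fun i _ => ?_, one_mul]
      · exact W_le S hp _ _
      have c2 := abs_le.1 ((b2 u hu).2 i)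
      rw [e1]
      exact S4.Wt_eq_one D0 (by linarith) (by push_cast; linarith)
    · have X3 : y ^ (-ε) ≤ S.X ^ (-(ε / (N + 1 : ℕ))) := by
        rw [Real.rpow_neg y0.le, Real.rpow_neg X0.le]
        exact inv_anti₀ (by positivity) (X2 ε e0.le)
      have X4 : ((2 * T : ℕ) : ℝ) * ∏ i, ((2 * L i + 2 : ℕ) : ℝ) ≤
          (2 * r + 4) ^ (n + 1) * κ' * √S.X := by
        rw [SD.X, Real.sqrt_mul (by linarith)]
        calc _ ≤ (2 * r + 4) * √(S.D : ℝ) * ∏ i, ((2 * r + 4) * S.w i) := by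
              gcongr with i
              exact l3 i
          _ = (2 * r + 4) * √(S.D : ℝ) * ((2 * r + 4) ^ n * ∏ i, S.w i) := by
              rw [prod_mul_distrib, prod_const, card_univ, Fintype.card_fin]
          _ ≤ (2 * r + 4) * √(S.D : ℝ) * ((2 * r + 4) ^ n * (κ' * √(S.dF : ℝ))) := by gcongr
          _ = _ := by ring
      rw [mul_assoc C _ (√S.X)]
      gcongr
  · obtain ⟨u, hu, rfl⟩ := mem_image.1 hv
    obtain ⟨c1, c2⟩ := b2 u hu
    rw [abs_lt] at c1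
    rw [hW, Fin.cons_zero]
    refine ⟨by omega, by push_cast; omega, fun i => ?_⟩
    have := abs_le.1 (c2 i)
    rw [e1]
    push_cast
    constructor <;> linarith
  · obtain ⟨u, hu, rfl⟩ := mem_image.1 hv
    obtain ⟨-, -, c1, c2⟩ := hU.1 u hu
    rw [NN_cons, Real.rpow_natCast, pow_succ' y]
    exact ⟨c1, c2.trans (by gcongr; exact hr.trans hy2), hR u hu⟩

end Pool.Agent.Lib.MP_9177b7_ag.SO
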