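import Pool.Agent.Lib.MP_9177b7_ag.SO.Eqd0

/-!
Equidistribution in residue classes of a smoothed neighbourhood of a parabola in `ℤ ^ (n + 1)`.
-/

open Finset

noncomputable section

namespace Pool.Agent.Lib.MP_9177b7_ag.SO

namespace Eqd

open S4.Eqd Eqd0
open S4 (Wt)
open B (boxN denN CgN)

variable {n : ℕ}

lemma strip {D M : ℕ} (K : ℕ) (hD : 0 < D) (x B κ : ℤ) {R : Finset ℤ}
    (hR : ∀ k, k ∈ R ↔ B ≤ x + D * k ∧ x + D * k < B + (K + 1) * D) :
    ∑ k ∈ R, Wt D K B (x + D * k) * (if (M : ℤ) ∣ k - κ then 1 else 0) =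
      P D K M (x - B + D * κ) := by
  have hD' : (0 : ℤ) < D := by exact_mod_cast hD
  have hKD : ((K * D : ℕ) : ℤ) = K * D := Nat.cast_mul _ _
  have h1 : ∀ k, Wt D K B (x + D * k) * (if (M : ℤ) ∣ k - κ then 1 else 0) =
      (∑ j ∈ range D, if (B ≤ x + D * k - j ∧ x + D * k - j < B + K * D) ∧ (M : ℤ) ∣ k - κ
        then (1 : ℝ) else 0) / D := by
    intro k
    by_cases h : (M : ℤ) ∣ k - κ
    · simp only [h, and_true, if_true, mul_one, Wt, sum_boole]
    · simp [h]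
  simp only [h1]
  rw [← sum_div, P, sum_comm, sum_comm (s := range (K * D))]
  congr 1
  refine sum_congr rfl fun j hj => ?_
  have hj' := mem_range.1 hj
  rw [sum_boole, sum_boole]
  congr 1
  refine card_nbij' (fun k => (x + D * k - j - B).toNat) (fun m => (B + m + j - x) / D)
    (fun k hk => ?_) (fun m hm => ?_) (fun k hk => ?_) fun m hm => ?_
  · simp only [coe_filter, Set.mem_ofPred_eq, mem_range] at hk ⊢
    obtain ⟨-, ⟨h2, h3⟩, z, hz⟩ := hk
    refine ⟨by omega, -z, ?_⟩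
    rw [Int.toNat_of_nonneg (by omega)]
    push_cast
    linear_combination (-(D : ℤ)) * hz
  · simp only [coe_filter, Set.mem_ofPred_eq, mem_range, hR] at hm ⊢
    obtain ⟨h2, z, hz⟩ := hm
    have h3 : B + m + j - x = D * (κ - M * z) := by push_cast at hz; linear_combination -hz
    rw [h3, Int.mul_ediv_cancel_left _ hD'.ne', ← h3, add_one_mul]
    exact ⟨by omega, by omega, -z, by ring⟩
  · simp only [coe_filter, Set.mem_ofPred_eq] at hk
    obtain ⟨-, ⟨h2, h3⟩, -⟩ := hk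
    simp only
    rw [Int.toNat_of_nonneg (by omega), show B + (x + D * k - j - B) + j - x = D * k by ring,
      Int.mul_ediv_cancel_left _ hD'.ne']
  · simp only [coe_filter, Set.mem_ofPred_eq] at hm
    obtain ⟨h2, z, hz⟩ := hm
    have h3 : B + m + j - x = D * (κ - M * z) := by push_cast at hz; linear_combination -hz
    simp only
    rw [h3, Int.mul_ediv_cancel_left _ hD'.ne', ← h3]
    omega

lemma expand {M : ℕ} (hM : 0 < M) {g : (Fin n → ℤ) → ℝ} (hg : ∀ u v, CgN M u v → g u = g v)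
    (k : Fin n → ℤ) : g k = ∑ κ ∈ boxN 0 fun _ => M,
      g κ * ∏ a, if (M : ℤ) ∣ k a - κ a then (1 : ℝ) else 0 := by
  have hM' : (0 : ℤ) < M := by exact_mod_cast hM
  have h0 : ∀ a, (M : ℤ) ∣ k a - k a % M := fun a => Int.dvd_self_sub_of_emod_eq rfl
  rw [sum_eq_single_of_mem (fun a => k a % M)]
  · simp only [h0, if_true, prod_const_one, mul_one]
    exact hg _ _ h0
  · refine Fintype.mem_piFinset.2 fun a => mem_Ico.2 ⟨Int.emod_nonneg _ hM'.ne', ?_⟩
    simpa using Int.emod_lt_of_pos _ hM'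
  · intro κ hκ hne
    obtain ⟨a, ha⟩ := Function.ne_iff.1 hne
    rw [prod_eq_zero (mem_univ a), mul_zero]
    rw [if_neg]
    rintro ⟨z, hz⟩
    have h1 := mem_Ico.1 (Fintype.mem_piFinset.1 hκ a)
    simp only [Pi.zero_apply, zero_add] at h1
    refine ha ?_
    rw [show k a = κ a + M * z by linarith, Int.add_mul_emod_self_left,
      Int.emod_eq_of_lt h1.1 h1.2]

lemma colN {D M : ℕ} (K : Fin n → ℕ) (hD : 0 < D) (hM : 0 < M) (x B : Fin n → ℤ)
    {R : Fin n → Finset ℤ}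
    (hR : ∀ a k, k ∈ R a ↔ B a ≤ x a + D * k ∧ x a + D * k < B a + (K a + 1) * D)
    {g : (Fin n → ℤ) → ℝ} (hg : ∀ u v, CgN M u v → g u = g v) :
    ∑ k ∈ Fintype.piFinset R, (∏ a, Wt D (K a) (B a) (x a + D * k a)) * g k =
      ∑ κ ∈ boxN 0 fun _ => M, g κ * ∏ a, P D (K a) M (x a - B a + D * κ a) := by
  rw [sum_congr rfl fun k _ => by rw [expand hM hg k, mul_sum], sum_comm]
  refine sum_congr rfl fun κ _ => ?_
  rw [prod_congr rfl fun a _ => (strip (M := M) (K a) hD (x a) (B a) (κ a) (hR a)).symm,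
    prod_univ_sum, mul_sum]
  refine sum_congr rfl fun k _ => ?_
  rw [prod_mul_distrib]
  ring

lemma P_nonneg (D K M : ℕ) (z : ℤ) : 0 ≤ P D K M z := by
  unfold P
  positivity

lemma mass {D M : ℕ} (K : Fin n → ℕ) (hD : 0 < D) (hM : 0 < M) (x : Fin n → ℤ) :
    ∑ κ ∈ boxN 0 fun _ => M, ∏ a, P D (K a) M (x a + D * κ a) = ∏ a, (K a : ℝ) := by
  rw [boxN, ← prod_univ_sum _ fun a k => P D (K a) M (x a + D * k)]
  refine prod_congr rfl fun a _ => ?_
  have h := col (K a) hD hM (g := fun _ => 1) (fun _ _ _ => rfl) (x a)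
  have hD' : (D : ℝ) ≠ 0 := by positivity
  simp only [sum_const, card_range, nsmul_eq_mul, mul_one, one_mul, Nat.cast_mul,
    mul_div_cancel_right₀ _ hD'] at h
  rw [h]
  refine sum_nbij' Int.toNat (fun m => (m : ℤ)) (fun k hk => ?_) (fun k hk => ?_)
    (fun k hk => ?_) (fun k hk => ?_) fun k hk => ?_ <;>
  simp only [mem_Ico, mem_range, Pi.zero_apply] at hk ⊢
  · omega
  · omega
  · omega
  · omega
  · rw [Int.toNat_of_nonneg hk.1]

lemma den {M : ℕ} (hM : 0 < M) {f : (Fin (n + 1) → ℤ) → ℝ} (hf : ∀ u v, CgN M u v → f u = f v)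
    (a : ℤ) : ∑ r ∈ range M, ∑ κ ∈ boxN 0 fun _ => M, f (Fin.cons (a + r) κ) =
      M ^ (n + 1) * denN M f := by
  have hM' : (M : ℝ) ≠ 0 := by positivity
  rw [J.Sieve.shift (p := M) (f := fun t => ∑ κ ∈ boxN 0 fun _ => M, f (Fin.cons t κ))
    fun t => sum_congr rfl fun k _ => B.SieveN.Per.add hf t k, denN, B.SieveN.sum_cons,
    mul_div_cancel₀ _ (by positivity)]
  simp only [Pi.zero_apply, zero_add]
  rfl

lemma sumS {D T h : ℕ} {K : Fin n → ℕ} {c B : Fin n → ℤ} {A a : ℤ}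
    {S : Finset (Fin (n + 1) → ℤ)} (hS : ∀ u, u ∈ S ↔ a ≤ u 0 ∧ u 0 < a + T ∧
      ∀ i, B i ≤ nn c A h D u i ∧ nn c A h D u i < B i + (K i + 1) * D)
    {R : ℤ → Fin n → Finset ℤ} (hR : ∀ t i k, k ∈ R t i ↔ B i ≤ c i * (A - h * t ^ 2) + D * k ∧
      c i * (A - h * t ^ 2) + D * k < B i + (K i + 1) * D) (F : (Fin (n + 1) → ℤ) → ℝ) :
    ∑ u ∈ S, F u = ∑ s ∈ range T, ∑ k ∈ Fintype.piFinset (R (a + s)), F (Fin.cons (a + s) k) := by
  rw [sum_sigma']
  refine sum_nbij' (fun u => ⟨(u 0 - a).toNat, Fin.tail u⟩) (fun x => Fin.cons (a + x.1) x.2)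
    (fun u hu => ?_) (fun x hx => ?_) (fun u hu => ?_) (fun x _ => ?_) fun u hu => ?_
  · obtain ⟨h1, h2, h3⟩ := (hS u).1 hu
    refine mem_sigma.2 ⟨mem_range.2 (by simp only; omega), Fintype.mem_piFinset.2 fun i => ?_⟩
    simp only
    rw [show a + ((u 0 - a).toNat : ℤ) = u 0 by omega, hR]
    exact h3 i
  · obtain ⟨h1, h2⟩ := mem_sigma.1 hx
    have h3 := mem_range.1 h1
    refine (hS _).2 ⟨by simp, by rw [Fin.cons_zero]; omega, fun i => ?_⟩
    exact (hR _ _ _).1 (Fintype.mem_piFinset.1 h2 i)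
  · obtain ⟨h1, -⟩ := (hS u).1 hu
    simp only
    rw [show a + ((u 0 - a).toNat : ℤ) = u 0 by omega, Fin.cons_self_tail]
  · simp
  · obtain ⟨h1, -⟩ := (hS u).1 hu
    simp only
    rw [show a + ((u 0 - a).toNat : ℤ) = u 0 by omega, Fin.cons_self_tail]

lemma exists_strip {D : ℕ} (hD : 0 < D) (x B C : ℤ) :
    ∃ R : Finset ℤ, ∀ k, k ∈ R ↔ B ≤ x + D * k ∧ x + D * k < C := by
  refine ⟨((Ico B C).image fun z => (z - x) / D).filter fun k => B ≤ x + D * k ∧ x + D * k < C,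
    fun k => ⟨fun h => (mem_filter.1 h).2, fun h => mem_filter.2 ⟨mem_image.2
      ⟨x + D * k, mem_Ico.2 h, ?_⟩, h⟩⟩⟩
  rw [add_sub_cancel_left, Int.mul_ediv_cancel_left _ (show (D : ℤ) ≠ 0 by positivity)]

end Eqd

open Eqd Eqd0 S4.Eqd B in
theorem eqd : EqdStmt := by
  intro n
  refine ⟨2 * (n + 1) * (6 * n + 6), by positivity, fun h R hh =>
    ⟨max (max R 117) (max (4 * h * n) ((2 * (n + 1) * (6 * n + 6) : ℕ) + 1)),
      fun y D T K c B w A a S hy hD hw dio hK hT1 hT2 hS M f hM hMy hf1 hf => ?_⟩⟩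
  simp only [max_le_iff] at hy
  obtain ⟨⟨hR, hy⟩, hhy, hyN⟩ := hy
  have y1 : 1 ≤ y := by linarith
  have y0 : 0 < y := by linarith
  have lg : ∀ z : ℝ, 0 < z → z ≤ y * D → 1 + Real.log z ≤ y ^ 2 := by
    intro z h0 h1
    rw [hD, ← pow_succ'] at h1
    have h2 := Real.log_le_log h0 h1
    rw [Real.log_pow, Nat.cast_succ] at h2
    have h3 := Real.log_le_sub_one_of_pos y0
    have h4 := Real.log_nonneg y1
    nlinarith
  obtain ⟨u, hu⟩ : ∃ u, u = y ^ (6 * n + 6) := ⟨_, rfl⟩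
  obtain ⟨v, hv⟩ : ∃ v, v = u ^ n := ⟨_, rfl⟩
  have u1 : 1 ≤ u := hu ▸ one_le_pow₀ y1
  have v1 : 1 ≤ v := hv ▸ one_le_pow₀ u1
  replace hD : (D : ℝ) = u ^ 2 * v ^ 2 := by rw [hD, hv, hu]; ring
  have hD' : (0 : ℝ) < D := by rw [hD]; positivity
  have hD0 : 0 < D := by exact_mod_cast hD'
  have hM' : (0 : ℝ) < M := by exact_mod_cast hM
  have hsq : √(D : ℝ) = u * v := by rw [hD, ← mul_pow, Real.sqrt_sq (by positivity)]
  rw [hsq] at hT1 hT2
  obtain ⟨N, ρ, hρ, rfl⟩ : ∃ N ρ, ρ < M ∧ T = M * N + ρ :=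
    ⟨T / M, T % M, Nat.mod_lt _ hM, (Nat.div_add_mod T M).symm⟩
  have hN : (N : ℝ) ≤ y * (u * v) := by
    have h1 : N ≤ M * N + ρ := le_add_right (Nat.le_mul_of_pos_left N hM)
    calc (N : ℝ) ≤ (M * N + ρ : ℕ) := by exact_mod_cast h1
      _ ≤ R * (u * v) := hT2
      _ ≤ _ := by gcongr
  have hρ' : (ρ : ℝ) ≤ y := le_trans (by exact_mod_cast hρ.le) hMy
  obtain ⟨Kp, hKp⟩ : ∃ Kp, Kp = ∏ i, (K i : ℝ) := ⟨_, rfl⟩
  have K0 : 0 ≤ Kp := by rw [hKp]; positivity
  choose Rr hRr using fun (t : ℤ) (i : Fin n) => exists_strip hD0 (c i * (A - h * t ^ 2)) (B i)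
    (B i + (K i + 1) * D)
  set F : ℕ → ℝ := fun s => ∑ κ ∈ boxN 0 fun _ => M, f (Fin.cons (a + s) κ) *
    ∏ i, P D (K i) M (c i * (A - h * (a + s) ^ 2) - B i + D * κ i) with hF
  have h0 : ∑ u ∈ S, (∏ i, S4.Wt D (K i) (B i) (nn c A h D u i)) * f u =
      ∑ s ∈ range (M * N + ρ), F s := by
    rw [sumS hS hRr]
    exact sum_congr rfl fun s _ => colN K hD0 hM _ B (hRr (a + s)) (SieveN.Per.cons hf _)
  have h1 : ∑ s ∈ range ρ, F (M * N + s) ≤ y * Kp := by
    refine (sum_le_card_nsmul _ _ Kp fun s _ => ?_).trans ?_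
    · rw [hKp, ← mass K hD0 hM fun i => c i * (A - h * (a + (M * N + s : ℕ)) ^ 2) - B i]
      exact sum_le_sum fun κ _ => mul_le_of_le_one_left (prod_nonneg fun _ _ => P_nonneg _ _ _ _)
        (abs_le.1 (hf1 _)).2
    · rw [card_range, nsmul_eq_mul]
      gcongr
  have h2 : ∀ r : ℕ, ∑ i ∈ range N, F (M * i + r) = ∑ κ ∈ boxN 0 fun _ => M,
      f (Fin.cons (a + r) κ) * ∑ i ∈ range N,
        ∏ j, P D (K j) M (c j * (A - h * (a + r + M * i) ^ 2) + (D * κ j - B j)) := by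
    intro r
    simp only [mul_sum]
    rw [sum_comm]
    refine sum_congr rfl fun κ _ => sum_congr rfl fun i _ => ?_
    congr 1
    · refine hf _ _ fun j => Fin.cases ?_ (fun j => ?_) j
      · exact ⟨i, by simp only [Fin.cons_zero]; push_cast; ring⟩
      · simp
    · refine prod_congr rfl fun j _ => ?_
      congr 1
      push_cast
      ring
  obtain ⟨E, hE⟩ : ∃ E, E = Kp * (y ^ 4) ^ n * (v * y ^ 3) := ⟨_, rfl⟩
  have E0 : 0 ≤ E := by rw [hE]; positivity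
  have h3 : ∑ s ∈ range (M * N), F s - M ^ (n + 1) * denN M f * (N * ∏ i, ((K i : ℝ) / M)) ≤
      y * (y ^ n * E) := by
    rw [blocks, ← den hM hf a, sum_mul, ← sum_sub_distrib]
    refine (sum_le_card_nsmul _ _ (y ^ n * E) fun r _ => ?_).trans ?_
    · rw [h2, sum_mul, ← sum_sub_distrib]
      refine (sum_le_card_nsmul _ _ E fun κ _ => ?_).trans ?_
      · rw [← mul_sub]
        refine (le_abs_self _).trans ?_
        rw [abs_mul]
        refine (mul_le_of_le_one_left (abs_nonneg _) (hf1 _)).trans ?_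
        have h4 := perN (range N) _ hK hD0 hM (by positivity)
          (weyl A (a + r) (fun j => D * κ j - B j) hy hh hhy u1 hv hD lg hw dio hM hMy hN)
        rw [card_range, ← hKp] at h4
        refine h4.trans ?_
        have h5 := lg (D * M : ℕ) (by positivity) (by push_cast; rw [mul_comm]; gcongr)
        have h6 : 0 ≤ 1 + Real.log (D * M : ℕ) := by
          have := Real.log_natCast_nonneg (D * M); linarith
        have h7 : M * (1 + Real.log (D * M : ℕ)) ≤ y * y ^ 2 := by gcongr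
        have h8 : 1 ≤ y ^ 3 := one_le_pow₀ y1
        rw [hE]
        gcongr
        nlinarith
      · rw [SieveN.card_full, nsmul_eq_mul]
        push_cast
        gcongr
    · rw [card_range, nsmul_eq_mul]
      gcongr
  have h4 : -(y * Kp) ≤ ρ * Kp * denN M f := by
    have := (abs_le.1 (SieveN.den_abs hM hf1)).1
    have h5 : (ρ : ℝ) * Kp ≤ y * Kp := by gcongr
    have h6 : 0 ≤ (ρ : ℝ) * Kp := by positivity
    nlinarith
  have h5 : Kp * v * y ^ (5 * n + 4) * y ≤ (M * N + ρ : ℕ) * Kp / y ^ (n + 1) := by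
    rw [le_div_iff₀ (by positivity)]
    calc _ = u * v * Kp := by rw [hu]; ring
      _ ≤ _ := by gcongr
  have h6 : M ^ (n + 1) * denN M f * (N * ∏ i, ((K i : ℝ) / M)) + ρ * Kp * denN M f =
      (M * N + ρ : ℕ) * Kp * denN M f := by
    rw [prod_div_distrib, prod_const, card_univ, Fintype.card_fin, ← hKp]
    push_cast
    field_simp
    ring
  have h7 : y * (y ^ n * E) = Kp * v * y ^ (5 * n + 4) := by rw [hE]; ring
  have h8 : y * Kp ≤ Kp * v * y ^ (5 * n + 4) := by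
    rw [mul_comm, mul_assoc]
    gcongr
    exact (le_self_pow₀ y1 (by omega)).trans (le_mul_of_one_le_left (by positivity) v1)
  have h9 : 0 ≤ Kp * v * y ^ (5 * n + 4) := by positivity
  rw [h0, sum_range_add, ← hKp, ← h6]
  nlinarith

end Pool.Agent.Lib.MP_9177b7_ag.SO
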