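import Pool.Agent.Lib.MP_9177b7_ag.SO.D1
import Pool.Agent.Lib.MP_9177b7_ag.SO.D1Sl
import Pool.Agent.Lib.MP_9177b7_ag.SO.D1e
import Pool.Agent.Lib.MP_9177b7_ag.SO.D1t
import Pool.Agent.Lib.MP_9177b7_ag.SO.D2
import Pool.Agent.Lib.MP_9177b7_ag.SO.Eqd

/-!
The sieve bound.
-/

namespace Pool.Agent.Lib.MP_9177b7_ag.SO

theorem dall : DStmt := dstmt (d1 sl avg tail) (d2 eqd)

end Pool.Agent.Lib.MP_9177b7_ag.SO
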