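import Pool.Agent.Lib.MP_9177b7_ag.SO.Tw
import Pool.Agent.Lib.MP_9177b7_ag.S4.Genus

/-!
The genus condition at the primes that divide both `D` and `t`.
-/

open NumberField Finset
open scoped nonZeroDivisors

noncomputable section

namespace Pool.Agent.Lib.MP_9177b7_ag.SO

namespace Genus

open B (denN CgN boxN)

open Classical in
/-- The density of a square class of a nonconstant affine function. -/
theorem den {d q : ℕ} [Fact q.Prime] (h2 : q % 2 = 1) (β : ZMod q) (c : Fin d → ZMod q) (a : Fin d)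
    (ha : c a ≠ 0) {m : ZMod q} (hm : m ≠ 0) :
    denN q (fun t => if IsSquare ((β + ∑ b, c b * t b) * m) then 1 else 0) ≤ (q + 1) / (2 * q) := by
  have hq : (0 : ℝ) < q := Nat.cast_pos.2 (Fact.out : q.Prime).pos
  set T := (range q).filter fun x : ℕ => IsSquare (((x : ℤ) : ZMod q) * m)
  have hT' : 2 * T.card ≤ q + 1 := by convert S4.Genus.count h2 hm
  have hT : (2 * T.card : ℝ) ≤ q + 1 := by exact_mod_cast hT'
  rw [denN, sum_boole, div_le_iff₀ (by positivity)]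
  refine (Nat.cast_le.2 (card_le_card_of_injOn (t := Fintype.piFinset fun i =>
    if i = a then T.image (Nat.cast : ℕ → ℤ) else Ico (0 : ℤ) q)
    (fun t => Function.update t a (β + ∑ b, c b * t b).val)
    (fun t ht => ?_) fun t ht t' ht' e => ?_)).trans ?_
  · have := Fintype.mem_piFinset.1 (mem_filter.1 ht).1
    refine mem_coe.2 (Fintype.mem_piFinset.2 fun i => ?_)
    by_cases h : i = a
    · simp only [h, if_true, Function.update_self]
      refine mem_image_of_mem _ (mem_filter.2 ⟨mem_range.2 (ZMod.val_lt _), ?_⟩)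
      rw [Int.cast_natCast, ZMod.natCast_zmod_val]
      exact (mem_filter.1 ht).2
    · simpa [h] using this i
  · have e' : ∀ i, i ≠ a → t i = t' i := fun i h => by simpa [h] using congrFun e i
    have h5 := congrFun e a
    simp only [Function.update_self, Nat.cast_inj] at h5
    have h5 := sub_eq_zero.2 (add_left_cancel (ZMod.val_injective q h5))
    rw [← sum_sub_distrib, sum_eq_single a (fun i _ h => by rw [e' i h, sub_self]) (by simp),
      ← mul_sub, mul_eq_zero, or_iff_right ha, ← Int.cast_sub,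
      ZMod.intCast_zmod_eq_zero_iff_dvd] at h5
    have h6 := mem_Ico.1 (Fintype.mem_piFinset.1 (mem_filter.1 ht).1 a)
    have h7 := mem_Ico.1 (Fintype.mem_piFinset.1 (mem_filter.1 ht').1 a)
    simp only [Pi.zero_apply, zero_add] at h6 h7
    have := Int.eq_zero_of_abs_lt_dvd h5 (abs_lt.2 ⟨by omega, by omega⟩)
    funext i
    by_cases h : i = a
    · rw [h]; omega
    · exact e' i h
  · rw [Fintype.card_piFinset, ← mul_prod_erase _ _ (mem_univ a),
      prod_congr rfl (g := fun _ => q) fun i hi => by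
        rw [if_neg (ne_of_mem_erase hi), Int.card_Ico, sub_zero, Int.toNat_natCast],
      if_pos rfl, card_image_of_injective _ Nat.cast_injective]
    obtain ⟨d, rfl⟩ := Nat.exists_eq_succ_of_ne_zero a.pos.ne'
    simp only [prod_const, card_erase_of_mem (mem_univ a), card_univ, Fintype.card_fin,
      Nat.succ_sub_one, Nat.cast_mul, Nat.cast_pow, pow_succ]
    rw [show ((q : ℝ) + 1) / (2 * q) * (q ^ d * q) = (q + 1) / 2 * q ^ d by field_simp]
    gcongr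
    linarith

variable {n p : ℕ} [Fact p.Prime] {c : Ctx n p} {D : Dat c} {C : ℝ} (A : D.Ar C)

theorem sqf : Squarefree (Ideal.absNorm A.dd) := A.dd_nrm ▸ D.sp.sqf

/-- The element that detects the residue at the prime of norm `q`. -/
theorem detect {q e : ℕ} (hq : q.Prime) (h : D.Dn = q * e) : ∃ y : 𝓞 D.F,
    (∀ w ∈ A.dd, ∃ y' ∈ A.dd ⊔ Ideal.span {(e : 𝓞 D.F)}, w * y = q * y') ∧
      y ∈ A.dd ⊔ Ideal.span {(e : 𝓞 D.F)} ∧ ∃ a : Fin n, ¬ (q : ℤ) ∣ A.B.ω.repr y a.succ := by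
  have h1 : Ideal.absNorm (A.dd ⊔ Ideal.span {(q : 𝓞 D.F)}) = q :=
    S4.Quad.sup_norm (sqf A) (A.dd_nrm ▸ ⟨e, h⟩)
  set P := A.dd ⊔ Ideal.span {(q : 𝓞 D.F)}
  set d' := A.dd ⊔ Ideal.span {(e : 𝓞 D.F)}
  obtain ⟨J, hJ⟩ : P ∣ Ideal.span {(q : 𝓞 D.F)} := Ideal.dvd_iff_le.2 le_sup_right
  have q0 : (q : 𝓞 D.F) ≠ 0 := Nat.cast_ne_zero.2 hq.ne_zero
  have J0 : J ≠ 0 := fun e => q0 (Ideal.span_singleton_eq_bot.1 (by rw [hJ, e, mul_zero]; rfl))
  have J1 : J ≠ ⊤ := fun e => by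
    have := congrArg Ideal.absNorm hJ
    rw [e, Ideal.mul_top, h1, Ideal.absNorm_span_natCast, RingOfIntegers.rank, A.rankF,
      pow_succ, mul_eq_right₀ hq.ne_zero] at this
    have n2 := c.n2
    exact hq.ne_one ((Nat.pow_eq_one.1 this).resolve_right (by omega))
  obtain ⟨y, hy, hy'⟩ : ∃ y ∈ J * d', y ∉ Ideal.span {(q : 𝓞 D.F)} := by
    by_contra! k
    have k1 : J * d' ≤ J * P := by rw [mul_comm J P, ← hJ]; exact k
    rw [← Ideal.dvd_iff_le, mul_dvd_mul_iff_left J0, Ideal.dvd_iff_le] at k1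
    have k2 := (S4.Quad.int_mem (I := P) (h1 ▸ hq.squarefree) e).1
      (by simpa using k1 (Ideal.mem_sup_right (Ideal.mem_span_singleton_self _)))
    rw [h1, Int.natCast_dvd_natCast] at k2
    exact hq.not_isUnit (D.sp.sqf q ((mul_dvd_mul_left q k2).trans (dvd_of_eq h.symm)))
  refine ⟨y, fun w hw => ?_, Ideal.mul_le_right hy, ?_⟩
  · have := Ideal.mul_mem_mul (Ideal.mem_sup_left hw : w ∈ P) hy
    rw [← mul_assoc, ← hJ] at this
    obtain ⟨y', h1, h2⟩ := Ideal.mem_span_singleton_mul.1 this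
    exact ⟨y', h1, h2.symm⟩
  · by_contra! k
    choose m hm using k
    have e1 : y = A.B.ω.repr y 0 + q * ∑ a, m a * A.B.ω a.succ := by
      conv_lhs => rw [← A.B.ω.sum_repr y, Fin.sum_univ_succ, A.B.one]
      simp only [hm, zsmul_eq_mul, mul_sum, mul_one, Int.cast_mul, Int.cast_natCast, mul_assoc]
    have qJ : (q : 𝓞 D.F) ∈ J := Ideal.mul_le_right (hJ ▸ Ideal.mem_span_singleton_self _)
    by_cases k : (q : ℤ) ∣ A.B.ω.repr y 0
    · obtain ⟨l, hl⟩ := k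
      refine hy' (Ideal.mem_span_singleton.2 ⟨l + ∑ a, m a * A.B.ω a.succ, ?_⟩)
      rw [mul_add, ← Int.cast_natCast, ← Int.cast_mul, ← hl, Int.cast_natCast]
      exact e1
    · refine J1 (S4.Quad.top_of_coprime
        ((Nat.prime_iff_prime_int.1 hq).irreducible.coprime_iff_not_dvd.2 k) (by simpa using qJ) ?_)
      rw [eq_sub_of_add_eq e1.symm]
      exact sub_mem (Ideal.mul_le_left hy) (Ideal.mul_mem_right _ _ qJ)

/-- Integrality of the traces. -/
theorem tr_int (hC : CoStmt) {q e : ℕ} (h : D.Dn = q * e) {N : ℤ} (hN : (q : ℤ) ∣ N)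
    (k : Fin n → ℤ) {y : 𝓞 D.F} (hy : y ∈ A.dd ⊔ Ideal.span {(e : 𝓞 D.F)}) :
    ∃ z : ℤ, Algebra.trace ℚ D.F (A.et N k * y) = z := by
  obtain ⟨h1, h2⟩ := hC n p c D C A
  obtain ⟨u, hu, v, hv, rfl⟩ := Submodule.mem_sup.1 hy
  obtain ⟨w, rfl⟩ := Ideal.mem_span_singleton'.1 hv
  obtain ⟨s, hs⟩ := S4.Quad.cyc (sqf A) w
  obtain ⟨z, hz⟩ := (h1 _).2 ⟨N, k, rfl⟩ _ (add_mem hu (Ideal.mul_mem_right (e : 𝓞 D.F) _ hs))
  obtain ⟨M, rfl⟩ := hN
  refine ⟨z + s * M, ?_⟩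
  have e1 : A.et (q * M) k * (u + w * e : 𝓞 D.F) =
      A.et (q * M) k * (u + (w - s) * e : 𝓞 D.F) + ((s * e : ℤ) : ℚ) • A.et (q * M) k := by
    simp only [Rat.smul_def, map_add, map_mul, map_sub,
      map_intCast, map_natCast]
    push_cast
    ring
  have h0 : (D.Dn : ℚ) ≠ 0 := Nat.cast_ne_zero.2 Fr0.rd_ne
  rw [e1, map_add, hz, map_smul, (h2 _ k).1, smul_eq_mul]
  field_simp
  rw [h]
  push_cast
  ring

/-- The trace against an integer in coordinates. -/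
theorem tr_co (hC : CoStmt) (N : ℤ) (k : Fin n → ℤ) (y : 𝓞 D.F) :
    Algebra.trace ℚ D.F (A.et N k * y) = N * Algebra.trace ℚ D.F (A.et 1 0 * y) +
      ∑ a, (A.B.ω.repr y a.succ * k a : ℚ) := by
  have h2 := (hC n p c D C A).2
  have e : ∀ N k, Algebra.trace ℚ D.F (A.et N k * y) = A.B.ω.repr y 0 * (N / D.Dn : ℚ) +
      ∑ a, A.B.ω.repr y a.succ * ((A.cc a * N + D.Dn * k a) / D.Dn : ℚ) := fun N k => by
    conv_lhs => rw [← A.B.ω.sum_repr y, RingOfIntegers.coe_eq_algebraMap, map_sum, mul_sum, map_sum,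
      Fin.sum_univ_succ, A.B.one]
    simp only [map_zsmul, mul_smul_comm, map_one, mul_one]
    simp only [← RingOfIntegers.coe_eq_algebraMap, (h2 N k).1, (h2 N k).2.1, zsmul_eq_mul]
  have h0 : (D.Dn : ℚ) ≠ 0 := Nat.cast_ne_zero.2 Fr0.rd_ne
  rw [e, e, mul_add, mul_sum, add_assoc, ← sum_add_distrib]
  congr 1
  · push_cast
    ring
  · refine sum_congr rfl fun a _ => ?_
    simp only [Pi.zero_apply, Int.cast_zero, Int.cast_one]
    field_simp
    ring

/-- Reduction modulo the ramified prime above `q`. -/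
theorem hom {q : ℕ} [Fact q.Prime] (hq : q ∣ D.Dn) :
    ∃ f : 𝓞 D.E →+* ZMod q, ∀ z ∈ D.Df, f z = 0 := by
  have h0 : Ideal.absNorm D.Df = D.Dn := Fr0.norm_Df
  have h := S4.Quad.sup_norm (I := D.Df) (h0 ▸ D.sp.sqf) (h0 ▸ hq)
  set P := D.Df ⊔ Ideal.span {(q : 𝓞 D.E)}
  have l0 : q ≠ 0 := (Fact.out : q.Prime).ne_zero
  rw [Ideal.absNorm_apply, Submodule.cardQuot_apply] at h
  have : Finite (𝓞 D.E ⧸ P) := Nat.finite_of_card_ne_zero (h ▸ l0)
  have := Fintype.ofFinite (𝓞 D.E ⧸ P)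
  let e := ZMod.ringEquivOfPrime (𝓞 D.E ⧸ P) Fact.out (Nat.card_eq_fintype_card.symm.trans h)
  refine ⟨(e.symm : 𝓞 D.E ⧸ P →+* ZMod q).comp (Ideal.Quotient.mk P), fun z hz => ?_⟩
  change e.symm (Ideal.Quotient.mk P z) = 0
  rw [Ideal.Quotient.eq_zero_iff_mem.2 (Ideal.mem_sup_left hz), map_zero]

/-- Two hermitian norms have residues in the same square class. -/
theorem pair {q e : ℕ} [Fact q.Prime] (hq : q ∣ D.Dn) {y : 𝓞 D.F}
    (hy : ∀ w ∈ A.dd, ∃ y' ∈ A.dd ⊔ Ideal.span {(e : 𝓞 D.F)}, w * y = q * y') {η η' : D.F}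
    {v v' : D.E} {r r' : ℤ} (v0 : v' ≠ 0) (h : (η : D.E) = D.lam * v * D.bar v)
    (h' : (η' : D.E) = D.lam * v' * D.bar v')
    (k : ∀ y ∈ A.dd ⊔ Ideal.span {(e : 𝓞 D.F)}, ∃ z : ℤ, Algebra.trace ℚ D.F (η * y) = z)
    (k' : ∀ y ∈ A.dd ⊔ Ideal.span {(e : 𝓞 D.F)}, ∃ z : ℤ, Algebra.trace ℚ D.F (η' * y) = z)
    (hr : Algebra.trace ℚ D.F (η * y) = r) (hr' : Algebra.trace ℚ D.F (η' * y) = r') :
    IsSquare ((r : ZMod q) * r') := by
  obtain ⟨f, hf⟩ := hom hq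
  obtain ⟨x₀, y₀, hy₀, e0⟩ := IsFractionRing.div_surjective (A := 𝓞 D.E) (v / v')
  have y0 := nonZeroDivisors.ne_zero hy₀
  obtain ⟨x, z, e1, hx⟩ := S4.Genus.red (RingHom.ker f) (RingHom.ker_ne_top f) x₀ y₀ y0
  have y1 : algebraMap (𝓞 D.E) D.E y₀ ≠ 0 := RingOfIntegers.coe_ne_zero_iff.2 y0
  have e2 : (z : D.E) * v = x * v' := by
    have := congrArg (algebraMap (𝓞 D.E) D.E) e1
    simp only [map_mul] at this
    rw [div_eq_div_iff y1 v0] at e0
    refine mul_left_cancel₀ y1 ?_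
    linear_combination v' * this - (z : D.E) * e0
  have key : ∀ (u : 𝓞 D.E) (η : D.F) (r : ℤ),
      (∀ y ∈ A.dd ⊔ Ideal.span {(e : 𝓞 D.F)}, ∃ z : ℤ, Algebra.trace ℚ D.F (η * y) = z) →
      Algebra.trace ℚ D.F (η * y) = r → ∃ (w : 𝓞 D.F) (s : ℤ), ((w : D.F) : D.E) = u * D.bar u ∧
        Algebra.trace ℚ D.F (w * η * y) = s ∧ (s : ZMod q) = f u ^ 2 * r := fun u η r k hr => by
    obtain ⟨w, hw⟩ := S4.Quad.fixO Fr0.h2 (IsCMField.complexConj_ne_one D.E)
      (x := u * S4.Quad.oa (IsCMField.complexConj D.E) u) (by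
        rw [map_mul, S4.Quad.oa_oa Fr0.h2 (IsCMField.complexConj_ne_one D.E), mul_comm])
    obtain ⟨a, ha⟩ := S4.Quad.cyc (sqf A) w
    obtain ⟨y', h1, h2⟩ := hy _ ha
    obtain ⟨s, hs⟩ := k y' h1
    have h3 := hf _ (Ideal.mul_le_left (A.Df_sq.le (Ideal.mem_map_of_mem _ ha)))
    have h4 := hf _ (S4.Quad.sub_mem_Df u)
    rw [map_sub, map_intCast, hw, map_sub, map_mul, map_intCast] at h3
    rw [map_sub] at h4
    refine ⟨w, a * r + q * s, congrArg (fun t : 𝓞 D.E => (t : D.E)) hw, ?_, ?_⟩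
    · have h5 := congrArg (algebraMap (𝓞 D.F) D.F) h2
      simp only [map_mul, map_sub, map_intCast, map_natCast] at h5
      rw [show w * η * y = (a : ℚ) • (η * y) + (q : ℚ) • (η * y') by
        rw [Rat.smul_def, Rat.smul_def]
        push_cast
        linear_combination η * h5, map_add, map_smul, map_smul, hr, hs]
      simp
    · push_cast
      rw [ZMod.natCast_self]
      linear_combination -(r : ZMod q) * h3 - r * f u * h4
  obtain ⟨w, s, a1, a2, a3⟩ := key z η r k hr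
  obtain ⟨w', s', b1, b2, b3⟩ := key x η' r' k' hr'
  have e3 : (w : D.F) * η = w' * η' := Subtype.ext (by
    have := congrArg D.bar e2
    simp only [Dat.bar, map_mul] at this
    push_cast
    rw [a1, b1, h, h']
    linear_combination D.lam * D.bar z * D.bar v * e2 + D.lam * x * v' * this)
  rw [e3, b2, Int.cast_inj] at a2
  rw [← a2, b3] at a3
  rcases hx with hx | hx
  · exact ⟨f z * r / f x, by
      have : f x ≠ 0 := hx
      field_simp
      linear_combination r * a3⟩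
  · exact ⟨f x * r' / f z, by
      have : f z ≠ 0 := hx
      field_simp
      linear_combination -r' * a3⟩

end Genus

open Genus Classical in
theorem genus (hC : CoStmt) : GenusStmt := by
  intro n p _ c D C A q₀
  have ex : ∀ q : ℕ, ∃ (β : ZMod q) (l : Fin n → ZMod q) (m : ZMod q), q.Prime → q ∣ D.Dn →
      (∃ a, l a ≠ 0) ∧ m ≠ 0 ∧ ∀ f v t k g, A.Inv f v q₀ t k g → (q : ℤ) ∣ t →
        IsSquare ((β + ∑ b, l b * k b) * m) := fun q => by
    by_cases hq : q.Prime ∧ q ∣ D.Dn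
    swap
    · exact ⟨0, 0, 0, fun h h' => absurd ⟨h, h'⟩ hq⟩
    obtain ⟨hq, e, he⟩ := hq
    have := Fact.mk hq
    obtain ⟨y, h1, h2, a, ha⟩ := detect A hq he
    obtain ⟨b, hb⟩ := tr_int A hC he dvd_rfl 0 h2
    have hN : ∀ t : ℤ, (q : ℤ) ∣ t → (q : ℤ) ∣ A.nt q₀ t := fun t ht =>
      dvd_sub (Dvd.dvd.mul_right (Int.natCast_dvd_natCast.2 ⟨e, he⟩) _)
        ((ht.trans (dvd_pow_self t two_ne_zero)).mul_left _)
    have hr : ∀ (t : ℤ) (k : Fin n → ℤ), (q : ℤ) ∣ t → ∃ r : ℤ,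
        Algebra.trace ℚ D.F (A.et (A.nt q₀ t) k * y) = r ∧
        (r : ZMod q) = e * q₀ * b + ∑ a, (A.B.ω.repr y a.succ : ZMod q) * k a := by
      rintro _ k ⟨u, rfl⟩
      refine ⟨(e * q₀ - c.h * q * u ^ 2) * b + ∑ a, A.B.ω.repr y a.succ * k a, ?_, by simp⟩
      rw [tr_co A hC] at hb ⊢
      simp only [Pi.zero_apply, Int.cast_zero, mul_zero, sum_const_zero, add_zero] at hb
      rw [Dat.Ar.nt, he]
      push_cast at hb ⊢
      rw [← hb]
      ring
    have l0 : ∃ a : Fin n, (A.B.ω.repr y a.succ : ZMod q) ≠ 0 :=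
      ⟨a, fun h => ha ((ZMod.intCast_zmod_eq_zero_iff_dvd _ q).1 h)⟩
    by_cases h : ∃ f v t k g, A.Inv f v q₀ t k g ∧ (q : ℤ) ∣ t ∧
        (e * q₀ * b + ∑ a, (A.B.ω.repr y a.succ : ZMod q) * k a : ZMod q) ≠ 0
    · obtain ⟨f', v', t', k', g', hI, ht', h0⟩ := h
      refine ⟨e * q₀ * b, _, _, fun _ _ => ⟨l0, h0, fun f v t k g hJ ht => ?_⟩⟩
      obtain ⟨r, r1, r2⟩ := hr t k ht
      obtain ⟨r', r1', r2'⟩ := hr t' k' ht'
      rw [← r2, ← r2']
      exact pair A ⟨e, he⟩ h1 hI.ne hJ.eta hI.eta (fun y => tr_int A hC he (hN t ht) k)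
        (fun y => tr_int A hC he (hN t' ht') k') r1 r1'
    · push Not at h
      refine ⟨e * q₀ * b, _, 1, fun _ _ => ⟨l0, one_ne_zero, fun f v t k g hJ ht => ?_⟩⟩
      rw [h f v t k g hJ ht, zero_mul]
      exact IsSquare.zero
  choose β l m hm using ex
  refine ⟨fun q k => IsSquare ((β q + ∑ b, l q b * k b) * m q), fun q k k' h h' => ?_,
    fun q hq hD => ?_, fun f v t k g hI q hq hD ht => (hm q hq hD).2.2 f v t k g hI ht⟩
  · simpa only [fun b => (ZMod.intCast_eq_intCast_iff_dvd_sub (k' b) (k b) q).2 (h b)] using h'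
  · have := Fact.mk hq
    obtain ⟨⟨a, ha⟩, h0, -⟩ := hm q hq hD
    convert den (Nat.odd_iff.1 ((Fr0.odd_rd D).of_dvd_nat hD)) (β q) (l q) a ha h0

end Pool.Agent.Lib.MP_9177b7_ag.SO
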