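import Pool.Agent.Lib.MP_9177b7_ag.SO.Defs
import Pool.Agent.Lib.MP_9177b7_ag.S4.Quad

/-!
The lattice of a CM datum: integrality, the dual lattice, the dual ideal.
-/

open NumberField Matrix
open scoped nonZeroDivisors

noncomputable section

namespace Pool.Agent.Lib.MP_9177b7_ag.SO.Fr0

open B (Cyc)

/-- A vector whose order in the discriminant group is the determinant generates that group. -/
theorem gen {N : ℕ} {A : Matrix (Fin N) (Fin N) ℤ} (hA : A.det ≠ 0) {t : Fin N → ℤ}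
    (h : ∀ k : ℤ, (∃ c, k • t = A *ᵥ c) → (A.det.natAbs : ℤ) ∣ k) (w : Fin N → ℤ) :
    ∃ (k : ℤ) (c : Fin N → ℤ), w = k • t + A *ᵥ c := by
  have hi : Function.Injective (toLin' A) := fun u v e => mulVec_injective_of_det_ne_zero hA e
  set S := LinearMap.range (toLin' A)
  have hc : A.det.natAbs = Nat.card ((Fin N → ℤ) ⧸ S) := by
    rw [← Submodule.natAbs_det_equiv S (LinearEquiv.ofInjective _ hi), ← LinearMap.det_toLin']
    rfl
  have h0 : A.det.natAbs ≠ 0 := Int.natAbs_ne_zero.2 hA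
  have : Finite ((Fin N → ℤ) ⧸ S) := Nat.finite_of_card_ne_zero (hc ▸ h0)
  have h1 : addOrderOf (S.mkQ t) = Nat.card ((Fin N → ℤ) ⧸ S) := by
    refine Nat.dvd_antisymm (addOrderOf_dvd_natCard _) ?_
    rw [← hc, ← Int.natCast_dvd_natCast]
    refine h _ ?_
    have := addOrderOf_nsmul_eq_zero (S.mkQ t)
    rw [← map_nsmul, Submodule.mkQ_apply, Submodule.Quotient.mk_eq_zero] at this
    obtain ⟨c, e⟩ := this
    exact ⟨c, by rw [natCast_zsmul]; exact e.symm⟩
  have h2 : AddSubgroup.zmultiples (S.mkQ t) = ⊤ :=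
    AddSubgroup.eq_top_of_card_eq _ (by rw [Nat.card_zmultiples, h1])
  obtain ⟨k, hk⟩ := AddSubgroup.mem_zmultiples_iff.1 (h2 ▸ AddSubgroup.mem_top (S.mkQ w))
  rw [← map_zsmul, Submodule.mkQ_apply, Submodule.mkQ_apply, eq_comm, Submodule.Quotient.eq] at hk
  obtain ⟨c, e⟩ := hk
  exact ⟨k, c, by rw [← toLin'_apply, e]; ring⟩

variable {E : Type} [Field E] [NumberField E] [IsCMField E]

/-- Complex conjugation. -/
abbrev bar (y : E) : E := IsCMField.complexConj E y

theorem bar_bar (y : E) : bar (bar y) = y := IsCMField.complexConj_apply_apply E y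

theorem tr_bar (y : E) : Algebra.trace ℚ E (bar y) = Algebra.trace ℚ E y :=
  Algebra.trace_eq_of_algEquiv ((IsCMField.complexConj E).restrictScalars ℚ) y

/-- The relative different. -/
abbrev Df (E : Type) [Field E] [NumberField E] [IsCMField E] : Ideal (𝓞 E) :=
  S4.Quad.Df (IsCMField.complexConj E)

theorem h2 : Module.finrank (maximalRealSubfield E) E = 2 :=
  Algebra.IsQuadraticExtension.finrank_eq_two _ E

theorem norm_Df : Ideal.absNorm (Df E) = rd E := by
  rw [rd, S4.Quad.disc h2 (IsCMField.complexConj_ne_one E), Nat.mul_div_cancel]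
  exact pow_pos (Int.natAbs_pos.2 (discr_ne_zero _)) 2

theorem rd_ne : rd E ≠ 0 := by
  rw [← norm_Df, Ne, Ideal.absNorm_eq_zero_iff]
  exact S4.Quad.Df_ne (IsCMField.complexConj_ne_one E)

/-- The trace form. -/
def tf (lam : E) : E →ₗ[ℚ] E →ₗ[ℚ] ℚ :=
  LinearMap.mk₂ ℚ (fun x y => Algebra.trace ℚ E (lam * x * bar y))
    (fun x x' y => by rw [mul_add, add_mul, map_add])
    (fun q x y => by rw [mul_smul_comm, smul_mul_assoc, map_smul])
    (fun x y y' => by rw [bar, map_add, mul_add, map_add])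
    (fun q x y => by rw [bar, map_rat_smul, mul_smul_comm, map_smul])

theorem tf_apply (lam x y : E) : tf lam x y = Algebra.trace ℚ E (lam * x * bar y) := rfl

theorem tf_symm {lam : E} (hl : bar lam = lam) (x y : E) : tf lam x y = tf lam y x := by
  rw [tf_apply, tf_apply, ← tr_bar]
  congr 1
  simp only [bar, map_mul, hl, IsCMField.complexConj_apply_apply]
  ring

theorem tf_mul (lam w x y : E) : tf lam (w * x) y = tf lam x (bar w * y) := by
  rw [tf_apply, tf_apply]
  congr 1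
  simp only [bar, map_mul, IsCMField.complexConj_apply_apply]
  ring

theorem tf_sum {ι : Type} [Fintype ι] (lam y : E) (c : ι → ℤ) (x : ι → E) :
    tf lam y (∑ i, c i * x i) = ∑ i, c i * tf lam y (x i) := by
  simp only [← zsmul_eq_mul, map_sum, map_zsmul]

theorem tf_sum' {ι : Type} [Fintype ι] (lam y : E) (c : ι → ℤ) (x : ι → E) :
    tf lam (∑ i, c i * x i) y = ∑ i, c i * tf lam (x i) y := by
  simp only [← zsmul_eq_mul, map_sum, map_zsmul, LinearMap.sum_apply, LinearMap.smul_apply]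

omit [NumberField E] [IsCMField E] in
theorem smul_mem {a : FractionalIdeal (𝓞 E)⁰ E} (w : 𝓞 E) {y : E} (h : y ∈ a) : (w : E) * y ∈ a :=
  Submodule.smul_mem (a : Submodule (𝓞 E) E) w h

omit [NumberField E] [IsCMField E] in
theorem int_mem {a : FractionalIdeal (𝓞 E)⁰ E} (w : ℤ) {y : E} (h : y ∈ a) : (w : E) * y ∈ a := by
  simpa using smul_mem (w : 𝓞 E) h

omit [NumberField E] [IsCMField E] in
theorem add_mem' {a : FractionalIdeal (𝓞 E)⁰ E} {x y : E} (h : x ∈ a) (h' : y ∈ a) : x + y ∈ a :=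
  Submodule.add_mem (a : Submodule (𝓞 E) E) h h'

omit [NumberField E] [IsCMField E] in
theorem sub_mem' {a : FractionalIdeal (𝓞 E)⁰ E} {x y : E} (h : x ∈ a) (h' : y ∈ a) : x - y ∈ a :=
  Submodule.sub_mem (a : Submodule (𝓞 E) E) h h'

/-- The form is nondegenerate on a nonzero ideal. -/
theorem nondeg {lam y : E} {a : FractionalIdeal (𝓞 E)⁰ E} (l0 : lam ≠ 0) (a0 : a ≠ 0)
    (h : ∀ z ∈ a, tf lam y z = 0) : y = 0 := by
  obtain ⟨z, hz, z0⟩ : ∃ z ∈ a, z ≠ 0 := by
    by_contra! e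
    exact a0 (FractionalIdeal.eq_zero_iff.2 e)
  by_contra y0
  have u0 : lam * y * bar z ≠ 0 := mul_ne_zero (mul_ne_zero l0 y0) ((map_ne_zero _).2 z0)
  obtain ⟨k, k0, hk⟩ := ((IsFractionRing.isAlgebraic_iff ℤ ℚ E).2
    (Algebra.IsAlgebraic.isAlgebraic (bar (lam * y * bar z)⁻¹))).exists_integral_multiple
  have : tf lam y (k • bar (lam * y * bar z)⁻¹ * z) = 0 := h _ (smul_mem ⟨_, hk⟩ hz)
  rw [tf_apply, show lam * y * bar (k • bar (lam * y * bar z)⁻¹ * z) = algebraMap ℚ E k by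
    rw [bar, map_mul, map_zsmul, IsCMField.complexConj_apply_apply, zsmul_eq_mul, map_intCast]
    linear_combination (k : E) * mul_inv_cancel₀ u0, Algebra.trace_algebraMap, smul_eq_zero] at this
  rcases this with e | e
  · exact Module.finrank_pos.ne' e
  · exact k0 (by exact_mod_cast e)

variable {N : ℕ} {A : Matrix (Fin N) (Fin N) ℤ} {lam g : E} {a : FractionalIdeal (𝓞 E)⁰ E}
  {x : Fin N → E} {t : Fin N → ℤ}

/-- The coefficient of the form on the last coordinate. -/
abbrev cf (A : Matrix (Fin N) (Fin N) ℤ) (E : Type) [Field E] [NumberField E] : ℚ :=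
  (A.det.natAbs / rd E : ℚ)

theorem mem (h : Frame A lam a g x t) (i : Fin N) : x i - t i * g ∈ a :=
  (h.2 _ _).2 ⟨Pi.single i 1, by simp [Pi.single_apply], by simp [Pi.single_apply]⟩

theorem gram (h : Frame A lam a g x t) (i j : Fin N) :
    tf lam (x i) (x j) + cf A E * t i * t j = A i j := h.1 i j

/-- The pairing of a combination of the frame with a vector of the frame. -/
theorem pair (h : Frame A lam a g x t) (c : Fin N → ℤ) (j : Fin N) :
    tf lam (∑ i, c i * x i) (x j) + cf A E * (∑ i, c i * t i : ℤ) * t j = (c ᵥ* A) j := by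
  simp only [tf_sum', vecMul, dotProduct, Int.cast_sum, Int.cast_mul, ← gram h, Finset.mul_sum,
    Finset.sum_mul, ← Finset.sum_add_distrib]
  exact Finset.sum_congr rfl fun i _ => by ring

theorem pair_sum (y : E) (s : ℚ) (c : Fin N → ℤ) :
    tf lam y (∑ i, c i * x i) + cf A E * s * (∑ i, c i * t i : ℤ) =
      ∑ i, c i * (tf lam y (x i) + cf A E * s * t i) := by
  simp only [tf_sum, Int.cast_sum, Int.cast_mul, Finset.mul_sum, ← Finset.sum_add_distrib]
  exact Finset.sum_congr rfl fun i _ => by ring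

/-- A vector that pairs integrally with the frame pairs integrally with the lattice. -/
theorem int_of (h : Frame A lam a g x t) {y : E} {s : ℚ}
    (hy : ∀ i, ∃ k : ℤ, tf lam y (x i) + cf A E * s * t i = k) {y' : E} {s' : ℤ}
    (h' : y' - s' * g ∈ a) : ∃ k : ℤ, tf lam y y' + cf A E * s * s' = k := by
  obtain ⟨c, rfl, rfl⟩ := (h.2 _ _).1 h'
  choose k hk using hy
  exact ⟨∑ i, c i * k i, by rw [pair_sum]; simp only [hk, Int.cast_sum, Int.cast_mul]⟩

/-- The lattice is integral. -/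
theorem int (h : Frame A lam a g x t) {y y' : E} {s s' : ℤ} (hy : y - s * g ∈ a)
    (h' : y' - s' * g ∈ a) : ∃ k : ℤ, tf lam y y' + cf A E * s * s' = k := by
  obtain ⟨c, rfl, rfl⟩ := (h.2 _ _).1 hy
  exact int_of h (fun i => ⟨_, pair h c i⟩) h'

omit [NumberField E] [IsCMField E] in
theorem g_mem : g - (1 : ℤ) * g ∈ a := by simpa using a.zero_mem

omit [NumberField E] [IsCMField E] in
theorem a_mem {y : E} (h : y ∈ a) : y - (0 : ℤ) * g ∈ a := by simpa using h

theorem norm_sum (h : Frame A lam a g x t) (c d : Fin N → ℤ) :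
    tf lam (∑ i, c i * x i) (∑ i, d i * x i) +
      cf A E * (∑ i, c i * t i : ℤ) * (∑ i, d i * t i : ℤ) = (c ⬝ᵥ A *ᵥ d : ℤ) := by
  simp only [pair_sum, pair h, dotProduct_mulVec]
  simp only [dotProduct, Int.cast_sum, Int.cast_mul, mul_comm]

theorem even_form (hs : Aᵀ = A) (he : ∀ i, Even (A i i)) (c : Fin N → ℤ) : Even (c ⬝ᵥ A *ᵥ c) := by
  have e : ∀ s : Finset (Fin N), Even (∑ i ∈ s, ∑ j ∈ s, c i * (A i j * c j)) := fun s => by
    induction s using Finset.induction_on with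
    | empty => simp
    | insert b s hb ih =>
      simp only [Finset.sum_insert hb, Finset.sum_add_distrib]
      have e1 : ∑ i ∈ s, c i * (A i b * c b) = ∑ j ∈ s, c b * (A b j * c j) :=
        Finset.sum_congr rfl fun i _ => by
          rw [show A i b = A b i from (congrFun (congrFun hs i) b).symm]; ring
      rw [e1, add_assoc, ← add_assoc (∑ j ∈ s, _)]
      exact (((he b).mul_right _).mul_left _).add ((Even.add_self _).add ih)
  simpa only [dotProduct, mulVec, Finset.mul_sum] using e Finset.univ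

/-- The lattice is even. -/
theorem even (hs : Aᵀ = A) (he : ∀ i, Even (A i i)) (h : Frame A lam a g x t) {y : E} {s : ℤ}
    (hy : y - s * g ∈ a) : ∃ k : ℤ, tf lam y y + cf A E * s * s = 2 * k := by
  obtain ⟨c, rfl, rfl⟩ := (h.2 _ _).1 hy
  obtain ⟨k, hk⟩ := even_form hs he c
  exact ⟨k, by rw [norm_sum h, hk]; push_cast; ring⟩

theorem tf_int (lam : E) (k : ℤ) (y z : E) : tf lam (k * y) z = k * tf lam y z := by
  rw [← zsmul_eq_mul, map_zsmul, LinearMap.smul_apply, zsmul_eq_mul]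

theorem tf_int' (lam : E) (k : ℤ) (y z : E) : tf lam y (k * z) = k * tf lam y z := by
  rw [← zsmul_eq_mul, map_zsmul, zsmul_eq_mul]

theorem a_ne [NeZero N] (hA : Lat A) (o : (0 : Fin N) ≠ 1) (h : Frame A lam a g x t) : a ≠ 0 := by
  rintro rfl
  have e : ∀ i, x i = t i * g := fun i =>
    sub_eq_zero.1 ((FractionalIdeal.mem_zero_iff _).1 (mem h i))
  have e1 : ∀ i j, (t i * t j : ℚ) * (tf lam g g + cf A E) = A i j := fun i j => by
    rw [← gram h, e, e, tf_int, tf_int']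
    ring
  have a0 := e1 0 0
  have a1 := e1 0 1
  rw [hA.row₀, if_neg o] at a0
  rw [hA.row₀, if_pos rfl] at a1
  push_cast at a0 a1
  have : (t 0 : ℚ) = 0 := by linear_combination (t 1 : ℚ) * a0 - (t 0 : ℚ) * a1
  simp [this] at a1

/-- The standing hypotheses. -/
structure Hyp (A : Matrix (Fin N) (Fin N) ℤ) (lam : E) : Prop where
  symm : Aᵀ = A
  det : A.det ≠ 0
  sqf : Squarefree (rd E)
  cop : (rd E).Coprime A.det.natAbs
  real : bar lam = lam
  ne : lam ≠ 0

theorem cf_ne (H : Hyp A lam) : cf A E ≠ 0 :=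
  div_ne_zero (Nat.cast_ne_zero.2 (Int.natAbs_ne_zero.2 H.det)) (Nat.cast_ne_zero.2 rd_ne)

theorem cf_int (H : Hyp A lam) {s k : ℤ} (h : cf A E * s = k) : (rd E : ℤ) ∣ s := by
  have h0 : (rd E : ℚ) ≠ 0 := Nat.cast_ne_zero.2 rd_ne
  rw [cf, div_mul_eq_mul_div, div_eq_iff h0] at h
  have : (A.det.natAbs : ℤ) * s = k * rd E := by
    generalize A.det.natAbs = d at h
    exact_mod_cast h
  exact (Nat.isCoprime_iff_coprime.2 H.cop).dvd_of_dvd_mul_left ⟨k, by rw [this, mul_comm]⟩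

/-- A vector orthogonal to the frame vanishes. -/
theorem eq_zero (H : Hyp A lam) (a0 : a ≠ 0) (h : Frame A lam a g x t) {y : E} {s : ℚ}
    (hy : ∀ i, tf lam y (x i) + cf A E * s * t i = 0) : y = 0 ∧ s = 0 := by
  have k : ∀ (y' : E) (s' : ℤ), y' - s' * g ∈ a → tf lam y y' + cf A E * s * s' = 0 :=
    fun y' s' h' => by
      obtain ⟨c, rfl, rfl⟩ := (h.2 _ _).1 h'
      rw [pair_sum]
      simp [hy]
  have y0 : y = 0 := nondeg H.ne a0 fun z hz => by simpa using k z 0 (a_mem hz)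
  have := k g 1 g_mem
  rw [y0] at this
  exact ⟨y0, by simpa [cf_ne H] using this⟩

/-- The vector with prescribed pairings. -/
theorem eq_of_pair (H : Hyp A lam) (a0 : a ≠ 0) (h : Frame A lam a g x t) {y : E} {s : ℚ}
    {c : Fin N → ℤ} (hy : ∀ i, tf lam y (x i) + cf A E * s * t i = (A *ᵥ c) i) :
    y = ∑ i, c i * x i ∧ s = (∑ i, c i * t i : ℤ) := by
  have := eq_zero H a0 h (y := y - ∑ i, c i * x i) (s := s - (∑ i, c i * t i : ℤ)) fun i => by
    have e := pair h c i
    rw [← H.symm, vecMul_transpose, H.symm] at e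
    rw [map_sub, LinearMap.sub_apply]
    linear_combination hy i - e
  exact ⟨sub_eq_zero.1 this.1, sub_eq_zero.1 this.2⟩

/-- The order of `g` modulo `a`. -/
theorem ord (H : Hyp A lam) (a0 : a ≠ 0) (h : Frame A lam a g x t) (s : ℤ) :
    s * g ∈ a ↔ (rd E : ℤ) ∣ s := by
  constructor
  · intro hs
    obtain ⟨k, hk⟩ := int h (y := 0) (s := -s) (by simpa using hs) g_mem
    exact dvd_neg.1 (cf_int H (k := k) (by simpa using hk))
  · rintro ⟨k, rfl⟩
    have h0 : (rd E : ℚ) ≠ 0 := Nat.cast_ne_zero.2 rd_ne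
    obtain ⟨e1, e2⟩ := eq_of_pair H a0 h (y := 0) (s := rd E)
      (c := A.det.sign • adjugate A *ᵥ t) fun i => by
        rw [mulVec_smul, mulVec_mulVec, mul_adjugate, smul_mulVec, one_mulVec, smul_smul,
          Int.sign_mul_self_eq_natAbs, div_mul_cancel₀ _ h0]
        simp
    have := (h.2 0 (rd E)).2 ⟨_, e1, by exact_mod_cast e2⟩
    have e3 := int_mem (-k) this
    push_cast at e3 ⊢
    rwa [show -(k : E) * (0 - rd E * g) = rd E * k * g by ring] at e3

/-- The level structure generates the discriminant group. -/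
theorem lev (H : Hyp A lam) (a0 : a ≠ 0) (h : Frame A lam a g x t) (w : Fin N → ℤ) :
    ∃ (k : ℤ) (c : Fin N → ℤ), w = k • t + A *ᵥ c := by
  refine gen H.det (fun k ⟨c, hc⟩ => ?_) w
  obtain ⟨-, e2⟩ := eq_of_pair H a0 h (y := 0) (s := k / cf A E) (c := c) fun i => by
    rw [← hc, mul_div_cancel₀ _ (cf_ne H)]
    simp
  have h0 : (rd E : ℚ) ≠ 0 := Nat.cast_ne_zero.2 rd_ne
  rw [div_eq_iff (cf_ne H), cf, ← mul_div_assoc, eq_div_iff h0] at e2
  have : k * rd E = (∑ i, c i * t i) * A.det.natAbs := by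
    generalize A.det.natAbs = d at e2
    exact_mod_cast e2
  exact (Nat.isCoprime_iff_coprime.2 H.cop.symm).dvd_of_dvd_mul_right ⟨_, this.trans (mul_comm _ _)⟩

/-- The dual lattice. -/
theorem dualL (H : Hyp A lam) (a0 : a ≠ 0) (h : Frame A lam a g x t) {y : E} {s : ℚ}
    (hy : ∀ i, ∃ k : ℤ, tf lam y (x i) + cf A E * s * t i = k) :
    ∃ (k : ℤ) (c : Fin N → ℤ), y = ∑ i, c i * x i ∧ s = (∑ i, c i * t i : ℤ) + k / cf A E := by
  choose w hw using hy
  obtain ⟨k, c, e⟩ := lev H a0 h w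
  obtain ⟨e1, e2⟩ := eq_of_pair H a0 h (y := y) (s := s - k / cf A E) (c := c) fun i => by
    have := congrFun e i
    rw [Pi.add_apply, Pi.smul_apply, smul_eq_mul] at this
    rw [mul_sub, mul_div_cancel₀ _ (cf_ne H), sub_mul, ← add_sub_assoc, hw, this]
    push_cast
    ring
  exact ⟨k, c, e1, by rw [← e2]; ring⟩

/-- The dual of `a`. -/
theorem dual_a (H : Hyp A lam) (a0 : a ≠ 0) (h : Frame A lam a g x t) (y : E) :
    (∀ z ∈ a, ∃ k : ℤ, tf lam y z = k) ↔ ∃ s : ℤ, y - s * g ∈ a := by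
  constructor
  · intro hy
    obtain ⟨k, c, e1, -⟩ := dualL H a0 h (y := y) (s := -tf lam y g / cf A E) fun i => by
      obtain ⟨k, hk⟩ := hy _ (mem h i)
      refine ⟨k, ?_⟩
      rw [mul_div_cancel₀ _ (cf_ne H), ← hk, map_sub, tf_int']
      ring
    exact ⟨_, (h.2 _ _).2 ⟨c, e1, rfl⟩⟩
  · rintro ⟨s, hs⟩ z hz
    simpa using int h hs (a_mem hz)

theorem bidual (H : Hyp A lam) (a0 : a ≠ 0) (h : Frame A lam a g x t) {y : E}
    (h1 : ∀ z ∈ a, ∃ k : ℤ, tf lam y z = k) (h2 : ∃ k : ℤ, tf lam y g = k) : y ∈ a := by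
  obtain ⟨s, hs⟩ := (dual_a H a0 h y).1 h1
  obtain ⟨k, hk⟩ := h2
  obtain ⟨l, hl⟩ := int h hs g_mem
  have := add_mem' hs ((ord H a0 h s).2 (cf_int H (k := l - k) (by
    push_cast at hl ⊢; linear_combination hl - hk)))
  rwa [sub_add_cancel] at this

/-- The dual of `a` is a module over the ring of integers. -/
theorem mul_g (H : Hyp A lam) (a0 : a ≠ 0) (h : Frame A lam a g x t) (w : 𝓞 E) :
    ∃ s : ℤ, w * g - s * g ∈ a := by
  refine (dual_a H a0 h _).1 fun z hz => ?_
  rw [tf_mul]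
  exact (dual_a H a0 h g).2 ⟨1, g_mem⟩ _
    (smul_mem (IsCMField.ringOfIntegersComplexConj E w) hz)

/-- The annihilator of `g` modulo `a` is the relative different. -/
theorem ann (H : Hyp A lam) (a0 : a ≠ 0) (h : Frame A lam a g x t) (w : 𝓞 E) :
    (w : E) * g ∈ a ↔ w ∈ Df E := by
  let I : Ideal (𝓞 E) := (a : Submodule (𝓞 E) E).comap (LinearMap.toSpanSingleton (𝓞 E) E g)
  have hI : ∀ w : 𝓞 E, w ∈ I ↔ (w : E) * g ∈ a := fun w => Iff.rfl
  have hc : Cyc I := fun w => (mul_g H a0 h w).imp fun s hs => by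
    rw [hI]
    push_cast
    rwa [sub_mul]
  have hb : ∀ w ∈ I, IsCMField.ringOfIntegersComplexConj E w ∈ I := fun w hw => by
    have hg := (dual_a H a0 h g).2 ⟨1, g_mem⟩
    refine bidual H a0 h (y := bar (w : E) * g) (fun z hz => ?_) ?_ <;> rw [tf_mul, bar_bar]
    · exact hg _ (smul_mem w hz)
    · exact hg _ hw
  have hn : Ideal.absNorm I = rd E := S4.Quad.norm_of_cyc hc fun z => by
    rw [hI, ← ord H a0 h]
    simp
  have hl : Df E ≤ I := by
    rw [Df, S4.Quad.Df, Ideal.span_le]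
    rintro _ ⟨w, rfl⟩
    obtain ⟨s, hs⟩ := hc w
    have := sub_mem hs (hb _ hs)
    rwa [map_sub, map_intCast, sub_sub_sub_cancel_right] at this
  rw [S4.Quad.eq_of_norm hl (hn ▸ rd_ne) (norm_Df.trans hn.symm), hI]

end Pool.Agent.Lib.MP_9177b7_ag.SO.Fr0
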