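import Pool.Agent.Lib.MP_9177b7_ag.SO.Co
import Pool.Agent.Lib.MP_9177b7_ag.SO.Fr0

/-!
The invariants of a short vector of a twisted lattice.
-/

open NumberField Matrix
open scoped nonZeroDivisors

noncomputable section

namespace Pool.Agent.Lib.MP_9177b7_ag.SO

namespace Inv

variable {F E : Type} [Field F] [NumberField F] [Field E] [NumberField E] [Algebra F E]

/-- Integrality descends. -/
theorem le_one_of {η : F} {J : Ideal (𝓞 F)}
    (h : FractionalIdeal.spanSingleton (𝓞 E)⁰ (algebraMap F E η) *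
      ((J.map (algebraMap (𝓞 F) (𝓞 E)) : Ideal (𝓞 E)) : FractionalIdeal (𝓞 E)⁰ E) ≤ 1) :
    FractionalIdeal.spanSingleton (𝓞 F)⁰ η * (J : FractionalIdeal (𝓞 F)⁰ F) ≤ 1 := by
  rw [FractionalIdeal.mul_le]
  intro _ hv _ hz
  obtain ⟨v, rfl⟩ := (FractionalIdeal.mem_spanSingleton _).1 hv
  obtain ⟨z, hz', rfl⟩ := (FractionalIdeal.mem_coeIdeal _).1 hz
  have h1 := h (FractionalIdeal.mul_mem_mul (FractionalIdeal.mem_spanSingleton_self _ _)
    (FractionalIdeal.mem_coeIdeal_of_mem _ (Ideal.mem_map_of_mem _ (J.mul_mem_left v hz'))))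
  obtain ⟨w, hw⟩ := (FractionalIdeal.mem_one_iff _).1 h1
  have e : algebraMap F E (v • η * algebraMap (𝓞 F) F z) = algebraMap (𝓞 E) E w := by
    rw [hw, ← IsScalarTower.algebraMap_apply, IsScalarTower.algebraMap_apply (𝓞 F) F E,
      ← map_mul, Algebra.smul_def, map_mul (algebraMap (𝓞 F) F)]
    congr 1
    ring
  have hi : IsIntegral ℤ (v • η * algebraMap (𝓞 F) F z) :=
    (isIntegral_algebraMap_iff (algebraMap F E).injective).1 (e ▸ w.isIntegral_coe)
  exact (FractionalIdeal.mem_one_iff _).2 ⟨⟨_, hi⟩, rfl⟩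

/-- Extension of an identity between ideals. -/
theorem ext_eq {η : F} {I J : Ideal (𝓞 F)}
    (h : (I : FractionalIdeal (𝓞 F)⁰ F) =
      FractionalIdeal.spanSingleton (𝓞 F)⁰ η * (J : FractionalIdeal (𝓞 F)⁰ F)) :
    ((I.map (algebraMap (𝓞 F) (𝓞 E)) : Ideal (𝓞 E)) : FractionalIdeal (𝓞 E)⁰ E) =
      FractionalIdeal.spanSingleton (𝓞 E)⁰ (algebraMap F E η) *
        ((J.map (algebraMap (𝓞 F) (𝓞 E)) : Ideal (𝓞 E)) : FractionalIdeal (𝓞 E)⁰ E) := by
  obtain ⟨a, b, hb, rfl⟩ := IsFractionRing.div_surjective (A := 𝓞 F) η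
  have b0 : algebraMap (𝓞 F) F b ≠ 0 :=
    RingOfIntegers.coe_ne_zero_iff.2 (nonZeroDivisors.ne_zero hb)
  have h1 : Ideal.span {b} * I = Ideal.span {a} * J := by
    apply FractionalIdeal.coeIdeal_injective (K := F)
    simp only [FractionalIdeal.coeIdeal_mul, FractionalIdeal.coeIdeal_span_singleton]
    rw [h, ← mul_assoc, FractionalIdeal.spanSingleton_mul_spanSingleton, mul_div_cancel₀ _ b0]
  have h2 := congrArg (fun K : Ideal (𝓞 F) =>
    ((K.map (algebraMap (𝓞 F) (𝓞 E)) : Ideal (𝓞 E)) : FractionalIdeal (𝓞 E)⁰ E)) h1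
  simp only [Ideal.map_mul, Ideal.map_span, Set.image_singleton, FractionalIdeal.coeIdeal_mul,
    FractionalIdeal.coeIdeal_span_singleton] at h2
  have t : ∀ x : 𝓞 F, algebraMap (𝓞 E) E (algebraMap (𝓞 F) (𝓞 E) x) =
      algebraMap F E (algebraMap (𝓞 F) F x) := fun x => by
    rw [← IsScalarTower.algebraMap_apply, ← IsScalarTower.algebraMap_apply]
  rw [t, t] at h2
  have b1 : algebraMap F E (algebraMap (𝓞 F) F b) ≠ 0 := (map_ne_zero _).2 b0
  have b2 : FractionalIdeal.spanSingleton (𝓞 E)⁰ (algebraMap F E (algebraMap (𝓞 F) F b)) ≠ 0 :=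
    FractionalIdeal.spanSingleton_ne_zero_iff.2 b1
  apply mul_left_cancel₀ b2
  rw [h2, ← mul_assoc, FractionalIdeal.spanSingleton_mul_spanSingleton, map_div₀,
    mul_div_cancel₀ _ b1]

end Inv

theorem inv (hF : FrameStmt) (hC : CoStmt) : InvStmt := by
  intro n p _ c D C A f v hv hb
  obtain ⟨-, cFb, cFs, -, cID, l0, D0, hfr⟩ := hF n p c D
  obtain ⟨a0, hx, -, inj, hfm, hdual, hDf, -, hord, -⟩ := hfr _ _ _ _ f.fr
  obtain ⟨co1, co2⟩ := hC n p c D C A
  set a := D.tw D.a f.b with ha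
  have D0' : (D.Dn : ℚ) ≠ 0 := Nat.cast_ne_zero.2 D0
  obtain ⟨q₀, hq⟩ : ∃ q₀ : ℤ, bf c.A v v = 2 * q₀ := by
    obtain ⟨r, hr⟩ := Fr0.even_form c.lat.symm c.lat.even v
    exact ⟨r, by rw [bf, hr]; ring⟩
  have hy : f.y v = ∑ i, ((v i : ℚ) : D.E) * f.x i := by simp [Dat.Fr.y]
  have hs : (f.s v : ℚ) = ∑ i, (v i : ℚ) * f.t i := by simp [Dat.Fr.s]
  have hform : Algebra.trace ℚ D.E (f.eta v) +
      (c.A.det.natAbs / D.Dn : ℚ) * f.s v * f.s v = (bf c.A v v : ℤ) := by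
    have h1 := hfm (fun i => v i) (fun i => v i)
    rw [← hy, ← hs] at h1
    refine h1.trans ?_
    simp [bf, dotProduct, mulVec]
  have hmem : f.y v - (f.s v : D.E) * f.g ∈ a := (f.fr.2 _ _).2 ⟨v, rfl, rfl⟩
  have y0 : f.y v ≠ 0 := by
    intro h0
    have s0 : f.s v ≠ 0 := by
      intro h1
      have := inj (fun i => v i) (by rw [← hy, h0]) (by rw [← hs, h1, Int.cast_zero])
      exact hv (funext fun i => by simpa using congrFun this i)
    have h2 : ((-f.s v : ℤ) : D.E) * f.g ∈ a := by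
      rw [h0] at hmem
      simpa using hmem
    obtain ⟨m, hm⟩ := (dvd_neg).1 ((hord _).1 h2)
    have m0 : m ≠ 0 := fun h => s0 (by rw [hm, h, mul_zero])
    have e0 : f.eta v = 0 := by simp [Dat.Fr.eta, h0]
    rw [e0, map_zero, zero_add, hm] at hform
    have e1 : bf c.A v v = c.A.det.natAbs * D.Dn * m ^ 2 := by
      have : ((bf c.A v v : ℤ) : ℚ) = ((c.A.det.natAbs * D.Dn * m ^ 2 : ℤ) : ℚ) := by
        rw [← hform]
        simp only [Int.cast_mul, Int.cast_natCast, Int.cast_pow]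
        field_simp
      exact Int.cast_injective this
    have d1 : 1 ≤ (c.A.det.natAbs : ℤ) := by
      have := A.h_pos
      have := A.two_h
      omega
    have m1 : 1 ≤ m ^ 2 := Int.add_one_le_of_lt (by positivity : 0 < m ^ 2)
    have d2 : (0 : ℤ) ≤ D.Dn := Int.natCast_nonneg _
    have : (D.Dn : ℤ) ≤ bf c.A v v := by
      rw [e1]
      calc (D.Dn : ℤ) = 1 * D.Dn * 1 := by ring
        _ ≤ _ := by gcongr
    have := le_abs_self (bf c.A v v)
    omega
  have h2 : Module.finrank D.F D.E = 2 := Fr0.h2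
  have hσ := IsCMField.complexConj_ne_one D.E
  have hreal : D.bar (f.eta v) = f.eta v := by
    rw [Dat.Fr.eta, Dat.bar, map_mul, map_mul, D.sp.real, IsCMField.complexConj_apply_apply]
    ring
  obtain ⟨η, hη⟩ := S4.Quad.fix h2 hσ hreal
  have Df0 : (D.Df : D.FI) ≠ 0 := FractionalIdeal.coeIdeal_ne_zero.2 (S4.Quad.Df_ne hσ)
  have hyD : f.y v ∈ (D.Df : D.FI)⁻¹ * a := (hDf _).2 ⟨_, hmem⟩
  obtain ⟨g, hg⟩ := FractionalIdeal.le_one_iff_exists_coeIdeal.1
    (show FractionalIdeal.spanSingleton (𝓞 D.E)⁰ (f.y v) * ((D.Df : D.FI) * a⁻¹) ≤ 1 by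
      have := mul_le_mul_left (FractionalIdeal.spanSingleton_le_iff_mem.2 hyD)
        ((D.Df : D.FI) * a⁻¹)
      refine this.trans (le_of_eq ?_)
      field_simp)
  have idl : (g : D.FI) * a = FractionalIdeal.spanSingleton _ (f.y v) * (D.Df : D.FI) := by
    rw [hg]
    field_simp
  have idl' : ((D.cI g : Ideal (𝓞 D.E)) : D.FI) * D.cF a =
      FractionalIdeal.spanSingleton _ (D.bar (f.y v)) * (D.Df : D.FI) := by
    have := congrArg D.cF idl
    rwa [map_mul D.cF _ a, map_mul D.cF _ (D.Df : D.FI), cFb, cFs, cFb, cID] at this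
  have key : ((g * D.cI g : Ideal (𝓞 D.E)) : D.FI) =
      FractionalIdeal.spanSingleton (𝓞 D.E)⁰ (algebraMap D.F D.E η) *
        ((D.xF (A.dd * differentIdeal ℤ (𝓞 D.F)) : Ideal (𝓞 D.E)) : D.FI) := by
    rw [hη, Dat.xF, Ideal.map_mul, show A.dd.map _ = _ from A.Df_sq, Dat.Fr.eta,
      ← FractionalIdeal.spanSingleton_mul_spanSingleton,
      ← FractionalIdeal.spanSingleton_mul_spanSingleton, FractionalIdeal.coeIdeal_mul,
      FractionalIdeal.coeIdeal_mul, FractionalIdeal.coeIdeal_mul]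
    calc _ = (g : D.FI) * ((D.cI g : Ideal (𝓞 D.E)) : D.FI) * 1 := (mul_one _).symm
      _ = FractionalIdeal.spanSingleton _ D.lam * ((g : D.FI) * a) *
          (((D.cI g : Ideal (𝓞 D.E)) : D.FI) * D.cF a) *
          ((D.xF (differentIdeal ℤ (𝓞 D.F)) : Ideal (𝓞 D.E)) : D.FI) := by
        rw [← hdual]
        ring
      _ = _ := by
        rw [idl, idl']
        ring
  have hle := Inv.le_one_of (key ▸ FractionalIdeal.coeIdeal_le_one)
  obtain ⟨N, k, rfl⟩ := (co1 η).1 (Co.le_one_iff.1 hle)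
  obtain ⟨t1, -, t3, -⟩ := co2 N k
  have hN : N = A.nt q₀ (f.s v) := by
    have e1 : Algebra.trace ℚ D.E (f.eta v) = 2 * (N / D.Dn : ℚ) := by
      rw [← hη, ← Algebra.trace_trace (S := D.F), Algebra.trace_algebraMap, h2, map_nsmul, t1,
        nsmul_eq_mul, Nat.cast_ofNat]
    rw [e1, hq, ← A.two_h] at hform
    have : (N : ℚ) = D.Dn * q₀ - c.h * (f.s v) ^ 2 := by
      push_cast at hform
      field_simp at hform
      linear_combination hform
    rw [Dat.Ar.nt]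
    exact_mod_cast this
  subst hN
  refine ⟨q₀, f.s v, k, g, y0, hq, rfl, hη, idl, ?_⟩
  apply FractionalIdeal.coeIdeal_injective (K := D.E)
  exact key.trans (Inv.ext_eq t3).symm

end Pool.Agent.Lib.MP_9177b7_ag.SO
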