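import Pool.Agent.Lib.MP_9177b7_ag.SO.Tw
import Pool.Agent.Lib.MP_9177b7_ag.SO.Lift0
import Pool.Agent.Lib.MP_9177b7_ag.SO.Proj
import Pool.Agent.Lib.MP_9177b7_ag.SO.Disc

/-!
Lifts of frames to the `p`-arithmetic group.
-/

open NumberField Matrix Topology
open scoped nonZeroDivisors ComplexConjugate

noncomputable section

namespace Pool.Agent.Lib.MP_9177b7_ag.SO

namespace Lift

section real

variable {N : ℕ} {A : Matrix (Fin N) (Fin N) ℤ}

theorem bf_iso {R : Type} [CommRing R] {B g : Matrix (Fin N) (Fin N) R} (h : gᵀ * B * g = B)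
    (u w : Fin N → R) : bf B (g *ᵥ u) (g *ᵥ w) = bf B u w := by
  rw [bf, bf, ← vecMul_transpose, mulVec_mulVec, ← dotProduct_mulVec, mulVec_mulVec, ← mul_assoc, h]

theorem iso_c (g : GR A) (u w : Fin N → ℂ) : bf (Am A ℂ) (g.1.1.map Complex.ofReal *ᵥ u)
    (g.1.1.map Complex.ofReal *ᵥ w) = bf (Am A ℂ) u w :=
  bf_iso (Disc.ort_map A Complex.ofRealHom g.2) u w

theorem star_act (g : GR A) (u : Fin N → ℂ) :
    star (g.1.1.map Complex.ofReal *ᵥ u) = g.1.1.map Complex.ofReal *ᵥ star u := by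
  ext i
  simp [mulVec, dotProduct]

theorem re_act (g : GR A) (y : Fin N → ℝ) :
    (fun i => ((g.1.1 *ᵥ y) i : ℂ)) = g.1.1.map Complex.ofReal *ᵥ fun i => (y i : ℂ) := by
  ext i
  simp [mulVec, dotProduct]

theorem act_one (v : Per A) : act 1 v = v := Subtype.ext (by
  change (1 : Matrix (Fin N) (Fin N) ℝ).map Complex.ofReal *ᵥ v.1 = v.1
  rw [Matrix.map_one _ rfl rfl, one_mulVec])

theorem nrm {g : GR A} {v w : Per A} {z : ℂ} (h : w.1 = z • (act g v).1) :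
    bf (Am A ℂ) (star w.1) w.1 = (‖z‖ ^ 2 : ℝ) * bf (Am A ℂ) (star v.1) v.1 := by
  rw [← iso_c g (star v.1), ← star_act, h, bf, bf, star_smul, mulVec_smul, smul_dotProduct,
    dotProduct_smul, smul_smul, smul_eq_mul, Complex.star_def, Complex.conj_mul']
  push_cast
  rfl

theorem pair {g : GR A} {v w : Per A} {z : ℂ} (h : w.1 = z • (act g⁻¹ v).1) (y : Fin N → ℝ) :
    bf (Am A ℂ) (fun i => (y i : ℂ)) w.1 =
      z * bf (Am A ℂ) (fun i => ((g.1.1 *ᵥ y) i : ℂ)) v.1 := by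
  have e : v.1 = g.1.1.map Complex.ofReal *ᵥ (act g⁻¹ v).1 := by
    change _ = (act g (act g⁻¹ v)).1
    rw [Proj.act_mul, mul_inv_cancel, act_one]
  rw [re_act, e, iso_c, h, bf, bf, mulVec_smul, dotProduct_smul, smul_eq_mul]

theorem ne0 (v : Per A) : bf (Am A ℂ) (star v.1) v.1 ≠ 0 := fun e => by
  have := v.2.2
  rw [show star v.1 ⬝ᵥ Am A ℂ *ᵥ v.1 = 0 from e] at this
  simp at this

/-- The majorant. -/
def maj (v : Per A) (y : Fin N → ℝ) : ℝ :=
  bf (Am A ℝ) y y +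
    4 * ‖bf (Am A ℂ) (fun i => (y i : ℂ)) v.1‖ ^ 2 / ‖bf (Am A ℂ) (star v.1) v.1‖

theorem maj_pos (hA : Aᵀ = A) {v : Per A} (h : PosC v) {y : Fin N → ℝ} (hy : y ≠ 0) :
    0 < maj v y := by
  have sy : ∀ u w, bf (Am A ℂ) u w = bf (Am A ℂ) w u := fun u w => by
    rw [bf, bf, dotProduct_mulVec, ← mulVec_transpose, dotProduct_comm, Am, ← transpose_map, hA]
  have cj : ∀ u w, conj (bf (Am A ℂ) u w) = bf (Am A ℂ) (star u) (star w) := fun u w => by
    simp [bf, mulVec, dotProduct]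
  have rc : ∀ u w : Fin N → ℝ, ((bf (Am A ℝ) u w : ℝ) : ℂ) =
      bf (Am A ℂ) (fun i => (u i : ℂ)) fun i => (w i : ℂ) := fun u w => by
    simp [bf, mulVec, dotProduct]
  obtain ⟨r, hr⟩ : ∃ r : ℝ, bf (Am A ℂ) (star v.1) v.1 = r :=
    (Complex.conj_eq_iff_real.1 (by rw [cj, star_star, sy]))
  have r0 : r < 0 := by
    have := v.2.2
    rwa [show star v.1 ⬝ᵥ Am A ℂ *ᵥ v.1 = r from hr, Complex.ofReal_re] at this
  have r1 : (r : ℂ) ≠ 0 := Complex.ofReal_ne_zero.2 r0.ne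
  have vv : bf (Am A ℂ) v.1 v.1 = 0 := v.2.1
  have vv' : bf (Am A ℂ) (star v.1) (star v.1) = 0 := by rw [← cj, vv, map_zero]
  have hr' := (sy _ _).trans hr
  obtain ⟨a, ha⟩ : ∃ a, bf (Am A ℂ) (fun i => (y i : ℂ)) v.1 = a := ⟨_, rfl⟩
  have ha' : bf (Am A ℂ) (fun i => (y i : ℂ)) (star v.1) = conj a := by
    rw [← ha, cj]
    congr 1
    ext i
    simp
  let y' : Fin N → ℝ := fun i => y i - 2 * (conj a * v.1 i).re / r
  have e : (fun i => (y' i : ℂ)) =
      (fun i => (y i : ℂ)) - (conj a / r) • v.1 - (a / r) • star v.1 := by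
    ext i
    have := Complex.add_conj (conj a * v.1 i)
    simp only [y', Pi.sub_apply, Pi.smul_apply, smul_eq_mul, Pi.star_apply, Complex.star_def,
      map_mul, Complex.conj_conj] at this ⊢
    push_cast at this ⊢
    rw [← this]
    ring
  have b1 := (sy _ _).trans ha
  have b2 := (sy _ _).trans ha'
  have n2 : ((‖a‖ ^ 2 : ℝ) : ℂ) = conj a * a := by rw [Complex.conj_mul']; push_cast; rfl
  have q : bf (Am A ℝ) y' y' = bf (Am A ℝ) y y - 2 * ‖a‖ ^ 2 / r := by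
    apply Complex.ofReal_injective
    rw [rc, Complex.ofReal_sub, rc, e, Complex.ofReal_div, Complex.ofReal_mul, n2]
    simp only [bf] at *
    simp only [mulVec_sub, mulVec_smul, dotProduct_sub, sub_dotProduct, dotProduct_smul,
      smul_dotProduct, smul_eq_mul, ha, ha', b1, b2, vv, vv', hr, hr']
    field_simp
    push_cast
    ring
  have z : bf (Am A ℂ) v.1 (fun i => (y' i : ℂ)) = 0 := by
    rw [e]
    simp only [bf] at *
    simp only [mulVec_sub, mulVec_smul, dotProduct_sub, dotProduct_smul, smul_eq_mul, b1, vv, hr']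
    field_simp
    ring
  have k : 0 ≤ -(2 * ‖a‖ ^ 2 / r) := neg_nonneg.2 (div_nonpos_of_nonneg_of_nonpos (by positivity) r0.le)
  have m : maj v y = bf (Am A ℝ) y' y' - 2 * ‖a‖ ^ 2 / r := by
    rw [maj, ha, hr, q, Complex.norm_real, Real.norm_eq_abs, abs_of_neg r0, div_neg]
    ring
  rw [m]
  by_cases c : y' = 0
  · have a0 : a ≠ 0 := fun a0 => hy (funext fun i => by simpa [y', a0] using congrFun c i)
    have := div_neg_of_pos_of_neg (show 0 < 2 * ‖a‖ ^ 2 by positivity) r0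
    simp only [c, bf, zero_dotProduct]
    linarith
  · linarith [h y' c z]

theorem stab (hA : Aᵀ = A) {v : Per A} (h : PosC v) :
    IsCompact {g : GR A | ∃ z : ℂ, (act g v).1 = z • v.1} := by
  have hE : IsClosedEmbedding fun g : GR A => g.1.1 :=
    SpecialLinearGroup.isClosedEmbedding_val.comp (ortClosed _).isClosedEmbedding_subtypeVal
  have ct : Continuous (maj v) := by
    unfold maj bf mulVec dotProduct
    fun_prop
  have hm : ∀ (s : ℝ) y, maj v (s • y) = s ^ 2 * maj v y := fun s y => by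
    have e : (fun i => ((s • y) i : ℂ)) = (s : ℂ) • fun i => (y i : ℂ) := by
      ext i
      simp
    rw [maj, maj, e]
    simp only [bf, mulVec_smul, dotProduct_smul, smul_dotProduct, smul_eq_mul, norm_mul,
      Complex.norm_real, Real.norm_eq_abs, mul_pow, sq_abs]
    ring
  obtain ⟨m, m0, hb⟩ := (isCompact_sphere (0 : Fin N → ℝ) 1).exists_forall_le' ct.continuousOn
    (a := 0) fun y hy => maj_pos hA h fun e => by simp [e] at hy
  have lo : ∀ y, m * ‖y‖ ^ 2 ≤ maj v y := fun y => by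
    by_cases c : y = 0
    · simp [c, maj, bf]
    have n0 := norm_pos_iff.2 c
    have := hb (‖y‖⁻¹ • y) (by simp [norm_smul, n0.ne'])
    rwa [hm, inv_pow, le_inv_mul_iff₀ (by positivity), mul_comm] at this
  obtain ⟨j, hj⟩ : ∃ j, v.1 j ≠ 0 := by
    by_contra! e
    exact ne0 v (by simp [bf, dotProduct, e])
  have K : IsCompact {M : Matrix (Fin N) (Fin N) ℝ | ∀ i k, M i k ∈ Metric.closedBall (0 : ℝ)
      √(maj v (Pi.single k 1) / m)} := isCompact_pi_infinite fun i =>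
    isCompact_pi_infinite fun k => isCompact_closedBall _ _
  refine (hE.isCompact_preimage K).of_isClosed_subset ?_ fun g ⟨z, hz⟩ i k => ?_
  · have e : {g : GR A | ∃ z : ℂ, (act g v).1 = z • v.1} =
        {g | v.1 j • (act g v).1 = (act g v).1 j • v.1} := by
      ext g
      refine ⟨fun ⟨z, hz⟩ => ?_, fun e => ⟨(v.1 j)⁻¹ * (act g v).1 j, ?_⟩⟩
      · simp only [Set.mem_ofPred_eq, hz, Pi.smul_apply, smul_smul, smul_eq_mul, mul_comm]
      · rw [mul_smul, ← show _ = _ from e, inv_smul_smul₀ hj]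
    have c : Continuous fun g : GR A => (act g v).1 :=
      (hE.continuous.matrix_map Complex.continuous_ofReal).matrix_mulVec continuous_const
    rw [e]
    exact isClosed_eq (c.const_smul (v.1 j)) (((continuous_apply j).comp c).smul continuous_const)
  · have e : v.1 = z • (act g⁻¹ v).1 := by
      change _ = z • (g⁻¹.1.1.map Complex.ofReal *ᵥ v.1)
      rw [← mulVec_smul, ← hz]
      change _ = (act g⁻¹ (act g v)).1
      rw [Proj.act_mul, inv_mul_cancel, act_one]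
    have z1 : ‖z‖ ^ 2 = 1 := by
      have := nrm e
      rw [eq_comm, mul_eq_right₀ (ne0 v)] at this
      exact_mod_cast this
    have q : maj v (g.1.1 *ᵥ Pi.single k 1) = maj v (Pi.single k 1) := by
      rw [maj, maj, pair e (Pi.single k 1), norm_mul, mul_pow, z1, one_mul, bf_iso g.2]
    have := lo (g.1.1 *ᵥ Pi.single k 1)
    rw [q, ← le_div_iff₀' m0] at this
    rw [mem_closedBall_zero_iff]
    refine le_trans ?_ (Real.le_sqrt_of_sq_le this)
    simpa using norm_le_pi_norm (g.1.1 *ᵥ Pi.single k 1) i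

end real

variable {n p : ℕ} [Fact p.Prime] {c : Ctx n p}

theorem dJ {R : Type} [CommRing R] (s t : Ix n → R) (i : Ix n) :
    (diagonal s * Jr n R * diagonal t) i i.rev = s i * t i.rev := by
  rw [mul_diagonal, diagonal_mul]
  simp [Jr]

theorem rep {h : HQ n p} (hd : ∀ i j, i ≠ j → h.1.1 i j = 0) :
    h.1.1 = diagonal (diag h.1.1) ∧ ∀ i, h.1.1 i i * h.1.1 i.rev i.rev = 1 := by
  have e : h.1.1 = diagonal (diag h.1.1) := (IsDiag.diagonal_diag hd).symm
  refine ⟨e, fun i => ?_⟩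
  have := congrFun (congrFun (show h.1.1ᵀ * Jr n _ * h.1.1 = Jr n _ from h.2) i) i.rev
  rw [e, diagonal_transpose, dJ] at this
  simpa [Jr] using this

theorem dia_mul {g h : HQ n p} (hg : ∀ i j, i ≠ j → g.1.1 i j = 0)
    (hh : ∀ i j, i ≠ j → h.1.1 i j = 0) :
    (g * h).1.1 = diagonal fun i => g.1.1 i i * h.1.1 i i := by
  change g.1.1 * h.1.1 = _
  rw [(rep hg).1, (rep hh).1, diagonal_mul_diagonal]
  simp

theorem dia_inv {g : HQ n p} (hg : ∀ i j, i ≠ j → g.1.1 i j = 0) :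
    g⁻¹.1.1 = diagonal fun i => g.1.1 i.rev i.rev := by
  refine left_inv_eq_right_inv (a := g.1.1) (congrArg (·.1.1) (inv_mul_cancel g)) ?_
  rw [(rep hg).1, diagonal_mul_diagonal, ← diagonal_one]
  simp [(rep hg).2]

theorem line_inv {u : GR c.A} {z : ℂ} (h : (act u c.v₀).1 = z • c.v₀.1) :
    (act u⁻¹ c.v₀).1 = z⁻¹ • c.v₀.1 := by
  have z0 : z ≠ 0 := fun e => ne0 (act u c.v₀) (by simp [h, e, bf])
  rw [eq_inv_smul_iff₀ z0]
  change z • (u⁻¹.1.1.map Complex.ofReal *ᵥ c.v₀.1) = _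
  rw [← mulVec_smul, ← h]
  change (act u⁻¹ (act u c.v₀)).1 = _
  rw [Proj.act_mul, inv_mul_cancel, act_one]

theorem line_mul (g : GR c.A) {u : GR c.A} {z : ℂ} (h : (act u c.v₀).1 = z • c.v₀.1) :
    (act (g * u) c.v₀).1 = z • (act g c.v₀).1 := by
  rw [← Proj.act_mul]
  change _ *ᵥ (act u c.v₀).1 = _
  rw [h, mulVec_smul]
  rfl

/-- The torus as a subgroup. -/
def MM (c : Ctx n p) : Subgroup c.GG where
  carrier := c.M0
  one_mem' := ⟨Disc.intg_one, fun _ _ h => one_apply_ne h, 1,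
    (congrArg Subtype.val (act_one _)).trans (one_smul _ _).symm⟩
  mul_mem' := by
    rintro a b ⟨a1, a2, z, a3⟩ ⟨b1, b2, w, b3⟩
    refine ⟨Disc.intg_mul a1 b1, fun i j h => ?_, w * z, ?_⟩
    · rw [Prod.fst_mul, dia_mul a2 b2, diagonal_apply_ne _ h]
    · rw [Prod.snd_mul, line_mul _ b3, a3, smul_smul]
  inv_mem' := by
    rintro a ⟨a1, a2, z, a3⟩
    refine ⟨Disc.intg_inv a1, fun i j h => ?_, _, line_inv a3⟩
    rw [Prod.fst_inv, dia_inv a2, diagonal_apply_ne _ h]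

theorem dg_dia (k : Ix n → ℤ) (i j : Ix n) (h : i ≠ j) : (dg p k).1.1 i j = 0 :=
  diagonal_apply_ne _ h

theorem torus (c : Ctx n p) : ∃ M : Subgroup c.GG, (M : Set c.GG) = c.M0 ∧ IsCompact c.M0 ∧
    (∀ m ∈ c.M0, ∀ k, m * (dg p k, 1) = (dg p k, 1) * m) ∧
    ∀ h : HQ n p, (∀ i j, i ≠ j → h.1.1 i j = 0) → ∃ k, ((dg p k)⁻¹ * h, 1) ∈ c.M0 := by
  refine ⟨MM c, rfl, ?_, fun m hm k => ?_, fun h hd => ?_⟩
  · have k : IsClosed {h : HQ n p | ∀ i j, i ≠ j → h.1.1 i j = 0} := by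
      simp only [Set.ofPred_forall]
      exact isClosed_iInter fun i => isClosed_iInter fun j => isClosed_iInter fun _ =>
        isClosed_eq ((SpecialLinearGroup.isClosedEmbedding_val.comp
          (ortClosed (Jr n ℚ_[p])).isClosedEmbedding_subtypeVal).continuous.matrix_elem i j)
          continuous_const
    exact (congrArg IsCompact (Set.ext fun g => and_assoc)).mp
      ((Disc.isCompact_intg.inter_right k).prod (stab c.lat.symm c.pos))
  · refine Prod.ext (Subtype.ext (Subtype.ext ?_)) ((mul_one _).trans (one_mul _).symm)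
    rw [Prod.fst_mul, Prod.fst_mul, dia_mul hm.2.1 (dg_dia k), dia_mul (dg_dia k) hm.2.1]
    simp only [mul_comm]
  · have h0 : ∀ i, h.1.1 i i ≠ 0 := fun i => left_ne_zero_of_mul_eq_one ((rep hd).2 i)
    have hv : ∀ i, (h.1.1 i i).valuation + (h.1.1 i.rev i.rev).valuation = 0 := fun i => by
      rw [← Padic.valuation_mul (h0 i) (h0 _), (rep hd).2, Padic.valuation_one]
    let k : Ix n → ℤ := fun i => if i < i.rev then (h.1.1 i i).valuation else 0
    have e := dia_mul (fun i j q => by rw [dia_inv (dg_dia k), diagonal_apply_ne _ q]) hd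
      (g := (dg p k)⁻¹)
    refine ⟨k, fun i j => ?_, fun i j q => by rw [e, diagonal_apply_ne _ q], (MM c).one_mem.2.2⟩
    change ‖((dg p k)⁻¹ * h).1.1 i j‖ ≤ 1
    rw [e, diagonal_apply]
    split_ifs
    swap
    · simp
    have p0 : (p : ℝ) ≠ 0 := Nat.cast_ne_zero.2 (Fact.out : p.Prime).ne_zero
    rw [dia_inv (dg_dia k), diagonal_apply_eq, norm_mul, Padic.norm_eq_zpow_neg_valuation (h0 i),
      show (dg p k).1.1 i.rev i.rev = _ from diagonal_apply_eq _ _, Padic.norm_p_zpow,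
      ← zpow_add₀ p0]
    refine (congrArg _ ?_).trans_le (zpow_zero _).le
    have := hv i
    simp only [k, Fin.rev_rev]
    rcases lt_trichotomy i i.rev with q | q | q
    · rw [if_pos q, if_neg q.not_gt]
      ring
    · rw [if_neg q.not_lt, if_neg q.not_gt]
      rw [← q] at this
      omega
    · rw [if_pos q, if_neg q.not_gt]
      omega

variable {D : Dat c} {f : D.Fr}

theorem mul_lift {g m : c.GG} (hg : f.IsLift g) (hm : m ∈ c.M0) : f.IsLift (m * g) := by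
  obtain ⟨a1, a2, z, a3⟩ := hm
  obtain ⟨b1, ⟨s, b2⟩, v, w, b3, b4⟩ := hg
  refine ⟨Disc.intg_mul a1 b1, ⟨fun i => m.1.1.1 i i * s i, ?_⟩, v, w * z, b3, ?_⟩
  · change m.1.1.1 * g.1.1.1 * c.g₀ = _
    rw [mul_assoc, b2, (rep a2).1, ← mul_assoc, diagonal_mul_diagonal]
    simp
  · have z0 : z ≠ 0 := fun e => ne0 (act m.2 c.v₀) (by simp [a3, e, bf])
    rw [Prod.snd_mul, _root_.mul_inv_rev, line_mul _ (line_inv a3), smul_smul,
      mul_inv_cancel_right₀ z0, b4]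

/-- The diagonal entries of the form. -/
def ll (D : Dat c) (i : Ix n) : ℚ_[p] :=
  if i = cn n then ((c.A.det.natAbs / D.Dn : ℚ) : ℚ_[p]) else D.ψ i D.lam

theorem det_A (c : Ctx n p) : (Am c.A ℚ_[p]).det ≠ 0 := by
  rw [← Disc.Am_map c.A (Int.castRingHom _), Disc.det_map, Disc.Am_int, eq_intCast, Int.cast_ne_zero]
  exact fun e => c.pd (e ▸ dvd_zero _)

theorem κ0 (c : Ctx n p) : c.κ ≠ 0 := norm_ne_zero_iff.1 (c.κ1 ▸ one_ne_zero)

theorem tor (G : f.Ψᵀ * (diagonal (ll D) * Jr n _) * f.Ψ = Am c.A ℚ_[p]) {h : HQ n p}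
    {s : Ix n → ℚ_[p]} (e : h.1.1 * c.g₀ = diagonal s * f.Ψ) (i : Ix n) :
    c.κ * (s i * s i.rev) = ll D i := by
  have u : IsUnit f.Ψ.det := isUnit_iff_ne_zero.2 fun q => det_A c (by rw [← G, det_mul, q, mul_zero])
  have a : f.Ψᵀ * (c.κ • (diagonal s * Jr n _ * diagonal s)) * f.Ψ =
      f.Ψᵀ * (diagonal (ll D) * Jr n _) * f.Ψ := by
    calc _ = c.κ • ((diagonal s * f.Ψ)ᵀ * Jr n _ * (diagonal s * f.Ψ)) := by
          simp only [transpose_mul, diagonal_transpose, mul_assoc, Matrix.mul_smul, Matrix.smul_mul]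
      _ = c.κ • (c.g₀ᵀ * (h.1.1ᵀ * Jr n _ * h.1.1) * c.g₀) := by
          simp only [← e, transpose_mul, mul_assoc]
      _ = _ := by rw [show h.1.1ᵀ * Jr n _ * h.1.1 = Jr n _ from h.2, G, c.gram]
  have u1 := (isUnit_iff_isUnit_det _).2 u
  have u2 := (isUnit_iff_isUnit_det _).2 (isUnit_det_transpose _ u)
  have b := congrFun (congrFun (u2.mul_left_cancel (u1.mul_right_cancel a)) i) i.rev
  rw [Matrix.smul_apply, dJ, diagonal_mul] at b
  simpa [Jr] using b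

theorem exists_p (G : f.Ψᵀ * (diagonal (ll D) * Jr n _) * f.Ψ = Am c.A ℚ_[p]) (hD : ¬ p ∣ D.Dn)
    {s : Ix n → ℚ_[p]} (h1 : ∀ i, i ≠ cn n → s i * s i.rev * c.κ = D.ψ i D.lam)
    (h2 : ∀ i, i ≠ cn n → ∀ k, ‖s i * D.ψ i (f.x k)‖ ≤ 1) :
    ∃ (h : HQ n p) (s : Ix n → ℚ_[p]), Intg h ∧ h.1.1 * c.g₀ = diagonal s * f.Ψ := by
  have rv : ∀ i : Ix n, i ≠ cn n → i.rev ≠ cn n := fun i => Lift0.rev_ne
  obtain ⟨P, hP⟩ : ∃ P, P = ∏ i ∈ Finset.univ.erase (cn n), s i := ⟨_, rfl⟩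
  have d1 : c.g₀.det * c.g₁.det = 1 := by rw [← det_mul, c.inv, det_one]
  have l1 : ∏ i, ll D i = ll D (cn n) * (P * P * c.κ ^ (2 * n + 2)) := by
    rw [← Finset.mul_prod_erase _ _ (Finset.mem_univ (cn n)), Finset.prod_congr (f := ll D) rfl
      fun i hi => (if_neg (Finset.ne_of_mem_erase hi)).trans (h1 i (Finset.ne_of_mem_erase hi)).symm,
      Finset.prod_mul_distrib, Finset.prod_mul_distrib, Finset.prod_const, ← hP,
      Finset.card_erase_of_mem (Finset.mem_univ _), Finset.card_fin]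
    congr 3
    rw [hP]
    refine Finset.prod_bij' (fun i _ => i.rev) (fun i _ => i.rev) ?_ ?_ ?_ ?_ ?_ <;>
      simp +contextual [rv]
  have d2 := congrArg det (G.trans c.gram.symm)
  have d3 := det_A c
  rw [← c.gram] at d3
  simp only [det_mul, det_transpose, det_diagonal, det_smul, l1, Fintype.card_fin] at d2 d3
  have J0 : (Jr n ℚ_[p]).det ≠ 0 := fun q => d3 (by rw [q]; ring)
  have t0 : P * f.Ψ.det * c.g₁.det ≠ 0 := mul_ne_zero (mul_ne_zero
    (fun q => d3 (by rw [← d2, q]; ring)) fun q => d3 (by rw [← d2, q]; ring))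
    (right_ne_zero_of_mul_eq_one d1)
  obtain ⟨τ, hτ⟩ : ∃ τ, τ * (P * f.Ψ.det * c.g₁.det) = 1 := ⟨_, inv_mul_cancel₀ t0⟩
  have t1 : τ * τ * c.κ = ll D (cn n) := by
    refine mul_right_cancel₀ (mul_ne_zero J0 (pow_ne_zero (2 * n + 2) (κ0 c))) ?_
    linear_combination (-τ ^ 2 * c.g₁.det ^ 2) * d2 - τ ^ 2 * c.κ ^ (2 * n + 3) * (Jr n ℚ_[p]).det *
      (c.g₀.det * c.g₁.det + 1) * d1 + ll D (cn n) * (Jr n ℚ_[p]).det * c.κ ^ (2 * n + 2) *
      (τ * (P * f.Ψ.det * c.g₁.det) + 1) * hτ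
  let s' : Ix n → ℚ_[p] := fun i => if i = cn n then τ else s i
  have e : c.κ • (diagonal s' * Jr n _ * diagonal s') = diagonal (ll D) * Jr n _ := by
    ext i j
    rw [Matrix.smul_apply, mul_diagonal, diagonal_mul, diagonal_mul, Jr, of_apply]
    split_ifs with q
    swap
    · simp
    by_cases r : i = cn n
    · simp only [q, r, Lift0.cn_rev, s', if_true, ← t1, smul_eq_mul]
      ring
    · simp only [q, s', if_neg r, if_neg (rv i r), ll, ← h1 i r, smul_eq_mul]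
      ring
  refine ⟨⟨⟨diagonal s' * f.Ψ * c.g₁, ?_⟩, smul_right_injective _ (κ0 c) ?_⟩, s', fun i j => ?_, ?_⟩
  · rw [det_mul, det_mul, det_diagonal, ← Finset.mul_prod_erase _ _ (Finset.mem_univ (cn n)),
      Finset.prod_congr rfl fun i hi => if_neg (Finset.ne_of_mem_erase hi), ← hP, ← hτ]
    simp only [s', if_true, mul_assoc]
  · calc _ = c.g₁ᵀ * (f.Ψᵀ * (c.κ • (diagonal s' * Jr n _ * diagonal s')) * f.Ψ) * c.g₁ := by
          simp only [transpose_mul, diagonal_transpose, mul_assoc, Matrix.mul_smul, Matrix.smul_mul]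
      _ = c.κ • ((c.g₀ * c.g₁)ᵀ * Jr n _ * (c.g₀ * c.g₁)) := by
          rw [e, G, ← c.gram]
          simp only [transpose_mul, mul_assoc, Matrix.mul_smul, Matrix.smul_mul]
      _ = _ := by rw [c.inv, transpose_one, one_mul, mul_one]
  · refine (Disc.IG n p).mul_mem (fun i k => ?_) c.int₁ i j
    change ‖(diagonal s' * f.Ψ) i k‖ ≤ 1
    rw [diagonal_mul, Dat.Fr.Ψ, of_apply]
    by_cases r : i = cn n
    · have a := congrArg norm t1
      rw [norm_mul, norm_mul, c.κ1, mul_one, ll, if_pos rfl, Rat.cast_div, Rat.cast_natCast,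
        Rat.cast_natCast, norm_div,
        Padic.norm_natCast_eq_one_iff.2 ((Nat.Prime.coprime_iff_not_dvd Fact.out).2 hD),
        div_one] at a
      have b : ‖(c.A.det.natAbs : ℚ_[p])‖ ≤ 1 := by
        simpa only [Int.cast_natCast] using Padic.norm_int_le_one (p := p) c.A.det.natAbs
      simp only [s', if_pos r, norm_mul]
      exact mul_le_one₀ (by nlinarith [norm_nonneg τ]) (norm_nonneg _) (Padic.norm_int_le_one _)
    · simpa only [s', if_neg r] using h2 i r k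
  · change diagonal s' * f.Ψ * c.g₁ * c.g₀ = _
    rw [mul_assoc, Disc.inv', mul_one]

theorem short (hF : FrameStmt) (G : f.Ψᵀ * (diagonal (ll D) * Jr n _) * f.Ψ = Am c.A ℚ_[p])
    {g : c.GG} (hg : f.IsLift g) {I : Finset (Ix n)} (hI : Adm I) {c₀ : ℤ} {k : ℕ} {R : ℝ}
    {v : Ix n → ℤ} (hw : c.Good I c₀ k R g fun i => (v i : ℚ)) :
    f.Good I c₀ k ((∑ i, ∑ j, |(c.A i j : ℝ)| + (∑ i, ‖(Am c.A ℂ *ᵥ c.v₀.1) i‖) ^ 2 /
      ‖bf (Am c.A ℂ) (star c.v₀.1) c.v₀.1‖) * R ^ 2) v := by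
  obtain ⟨-, ⟨s, g1⟩, w, z, g2, g3⟩ := hg
  have sz : ∀ i, |(g.2.1.1 *ᵥ fun i => (v i : ℝ)) i| ≤ R := fun i => by
    simpa [Ctx.oR] using (hw.sz i).le
  have R0 := (abs_nonneg _).trans (sz 0)
  have r0 := norm_pos_iff.2 (ne0 c.v₀)
  refine ⟨fun e => hw.ne (by simp [e, funext_iff]), ?_, ?_, ?_⟩
  · have e : ((bf c.A v v : ℤ) : ℝ) = bf (Am c.A ℝ) (fun i => (v i : ℝ)) fun i => (v i : ℝ) := by
      simp [bf, mulVec, dotProduct]
    rw [e, ← bf_iso g.2.2]
    generalize (g.2.1.1 *ᵥ fun i => (v i : ℝ)) = y at sz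
    refine le_trans ?_ (mul_le_mul_of_nonneg_right (le_add_of_nonneg_right (by positivity))
      (sq_nonneg _))
    simp only [bf, mulVec, dotProduct, Finset.sum_mul, Finset.mul_sum]
    refine (Finset.abs_sum_le_sum_abs _ _).trans (Finset.sum_le_sum fun i _ =>
      (Finset.abs_sum_le_sum_abs _ _).trans (Finset.sum_le_sum fun j _ => ?_))
    rw [mul_left_comm, abs_mul, abs_mul, sq]
    exact mul_le_mul_of_nonneg_left (mul_le_mul (sz i) (sz j) (abs_nonneg _) R0) (abs_nonneg _)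
  · obtain ⟨-, -, -, -, -, -, -, hF⟩ := hF n p c D
    obtain ⟨-, -, -, -, -, -, -, -, -, -, -, f1, -⟩ := hF _ _ _ _ f.fr
    have a := congrArg norm (f1 w g2)
    have g4 : w.1 = z • (act g.2⁻¹ c.v₀).1 := g3
    rw [nrm g4, norm_mul, norm_mul, norm_one, Complex.norm_real, Real.norm_eq_abs,
      abs_of_nonneg (sq_nonneg _)] at a
    have b : D.φ (f.y v) = bf (Am c.A ℂ) (fun i => ((v i : ℝ) : ℂ)) w.1 := by
      rw [bf, show Am c.A ℂ *ᵥ w.1 = _ from g2]
      simp [Dat.Fr.y, dotProduct]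
    rw [pair g4] at b
    generalize (g.2.1.1 *ᵥ fun i => (v i : ℝ)) = y at sz b
    have d : ‖bf (Am c.A ℂ) (fun i => (y i : ℂ)) c.v₀.1‖ ≤
        (∑ i, ‖(Am c.A ℂ *ᵥ c.v₀.1) i‖) * R := by
      rw [bf, dotProduct, Finset.sum_mul]
      refine (norm_sum_le _ _).trans (Finset.sum_le_sum fun i _ => ?_)
      rw [norm_mul, mul_comm, Complex.norm_real]
      exact mul_le_mul_of_nonneg_left (sz i) (norm_nonneg _)
    refine le_trans ?_ (mul_le_mul_of_nonneg_right (le_add_of_nonneg_left (by positivity))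
      (sq_nonneg _))
    rw [Dat.Fr.eta, map_mul, map_mul, IsCMField.complexEmbedding_complexConj, norm_mul, norm_mul,
      Complex.norm_conj, b, norm_mul, div_mul_eq_mul_div, le_div_iff₀ r0, ← mul_pow]
    refine le_trans (le_of_eq ?_) (pow_le_pow_left₀ (norm_nonneg _) d 2)
    linear_combination ‖bf (Am c.A ℂ) (fun i => (y i : ℂ)) c.v₀.1‖ ^ 2 * a
  · have nc : ∀ i ∈ I, i ≠ cn n := fun i hi e => (hI.2 i hi).2 (by rw [e, Lift0.cn_rev])
    have q : ∀ i ∈ I, c.oq g (fun i => (v i : ℚ)) i = s i * D.ψ i (f.y v) := fun i hi => by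
      rw [Ctx.oq, g1, ← mulVec_mulVec, mulVec_diagonal]
      simp [Dat.Fr.y, Dat.Fr.Ψ, mulVec, dotProduct, nc i hi, mul_comm]
    refine le_of_eq_of_le ?_ hw.cg
    rw [← one_mul ‖mv _ _ - _‖, ← c.κ1, ← norm_mul, mul_sub, mv, Finset.mul_sum]
    congr 2
    refine Finset.sum_congr rfl fun i hi => ?_
    have := tor G g1 i
    rw [ll, if_neg (nc i hi)] at this
    rw [q i hi, q _ (hI.2 i hi).1, D.ψ_rev i _ (nc i hi), Dat.Fr.eta, map_mul, map_mul, ← this]
    ring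

end Lift

open Lift in
theorem lift (hF : FrameStmt) (hW : WittStmt) (hT : TubeStmt) : LiftStmt := by
  intro n p _ c
  refine ⟨torus c, ∑ i, ∑ j, |(c.A i j : ℝ)| + (∑ i, ‖(Am c.A ℂ *ᵥ c.v₀.1) i‖) ^ 2 /
    ‖bf (Am c.A ℂ) (star c.v₀.1) c.v₀.1‖, fun D f => ?_⟩
  have N := D.num
  have G : f.Ψᵀ * (diagonal (ll D) * Jr n _) * f.Ψ = Am c.A ℚ_[p] := Lift0.gram N f.fr
  refine ⟨?_, fun g hg => ⟨fun m hm => mul_lift hg hm, fun I c₀ k R K₀ hI ⟨s, hs, hw⟩ => ?_⟩⟩
  · obtain ⟨s, hs⟩ := Lift0.exs N (Fr0.hyp D) (Fr0.fm_ne D f.fr) f.fr c.κ1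
    obtain ⟨h, s', a1, a2⟩ := exists_p G (Lift0.pD N) (fun i hi => (hs i hi).1)
      fun i hi => (hs i hi).2
    obtain ⟨-, -, -, -, -, -, -, hF⟩ := hF n p c D
    obtain ⟨-, -, -, -, -, -, -, -, -, -, ⟨v, hv⟩, -⟩ := hF _ _ _ _ f.fr
    obtain ⟨u, z, e⟩ := hW _ c.A c.v₀ v c.lat.symm (Fr0.det_ne c) (by omega)
    exact ⟨(h, u⁻¹), a1, ⟨s', a2⟩, v, z, hv, by rwa [inv_inv]⟩
  · classical
    choose! F hF' using fun v hv => (hT n p c).2.1 I c₀ k R g v hg.1 (hw v hv)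
    refine ⟨s.image F, ?_, fun v' hv' => ?_⟩
    · rwa [Finset.card_image_of_injOn fun x hx y hy e => by rw [hF' x hx, hF' y hy, e]]
    · obtain ⟨v, hv, rfl⟩ := Finset.mem_image.1 hv'
      exact short hF G hg hI (hF' v hv ▸ hw v hv)

end Pool.Agent.Lib.MP_9177b7_ag.SO
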