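import Pool.Agent.Lib.MP_9177b7_ag.SO.StB
import Pool.Agent.Lib.MP_9177b7_ag.SO.StI
import Pool.Agent.Lib.MP_9177b7_ag.S4.Quad

/-!
CM data, their lattices and invariants: definitions and statements.
-/

open NumberField Matrix MeasureTheory Filter Topology Pool.Agent.Shared.PrimeZeta
open scoped nonZeroDivisors ComplexConjugate ENNReal BoundedContinuousFunction

noncomputable section

namespace Pool.Agent.Lib.MP_9177b7_ag.SO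

open B (Pp Cyc Bas denN CgN)

/-- The central index. -/
def cn (n : ℕ) : Ix n := ⟨n + 1, by omega⟩

/-- Half of the discriminant of the lattice. -/
def Ctx.h {n p : ℕ} [Fact p.Prime] (c : Ctx n p) : ℕ := c.A.det.natAbs / 2

/-- A CM datum together with a numbering of the embeddings into `ℚ_p`. -/
structure Dat {n p : ℕ} [Fact p.Prime] (c : Ctx n p) where
  E : Type
  [fE : Field E]
  [nE : NumberField E]
  [cE : IsCMField E]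
  φ : E →+* ℂ
  lam : E
  a : FractionalIdeal (𝓞 E)⁰ E
  g : E
  x : Ix n → E
  t : Ix n → ℤ
  sp : Special c.A p φ lam a g x t
  ψ : Ix n → (E →+* ℚ_[p])
  ψ_rev : ∀ i y, i ≠ cn n → ψ i.rev y = ψ i (IsCMField.complexConj E y)
  ψ_inj : ∀ i j, i ≠ cn n → j ≠ cn n → ψ i = ψ j → i = j

attribute [instance] Dat.fE Dat.nE Dat.cE

namespace Dat

variable {n p : ℕ} [Fact p.Prime] {c : Ctx n p} (D : Dat c)

/-- The real subfield. -/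
abbrev F : Type := maximalRealSubfield D.E

/-- Fractional ideals of `E`. -/
abbrev FI : Type := FractionalIdeal (𝓞 D.E)⁰ D.E

/-- The class group. -/
abbrev Cl : Type := ClassGroup (𝓞 D.E)

/-- Complex conjugation. -/
abbrev bar (y : D.E) : D.E := IsCMField.complexConj D.E y

/-- The conjugate of an ideal. -/
abbrev cI (b : Ideal (𝓞 D.E)) : Ideal (𝓞 D.E) := b.map (IsCMField.ringOfIntegersComplexConj D.E)

/-- Conjugation of fractional ideals. -/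
def cF : D.FI ≃+* D.FI :=
  FractionalIdeal.ringEquivOfRingEquiv D.E D.E
    (IsCMField.ringOfIntegersComplexConj D.E).toRingEquiv

/-- Extension of ideals from `F` to `E`. -/
abbrev xF (I : Ideal (𝓞 D.F)) : Ideal (𝓞 D.E) := I.map (algebraMap (𝓞 D.F) (𝓞 D.E))

/-- The relative different. -/
abbrev Df : Ideal (𝓞 D.E) := S4.Quad.Df (IsCMField.complexConj D.E)

/-- The norm of the relative discriminant. -/
abbrev Dn : ℕ := rd D.E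

/-- The discriminant of `F`. -/
abbrev dF : ℕ := (discr D.F).natAbs

/-- Frames for the form of the datum. -/
abbrev Fm (a : D.FI) (g : D.E) (x : Ix n → D.E) (t : Ix n → ℤ) : Prop := Frame c.A D.lam a g x t

/-- The twist of a fractional ideal. -/
abbrev tw (a : D.FI) (b : Ideal (𝓞 D.E)) : D.FI := b * ((D.cI b : Ideal (𝓞 D.E)) : D.FI)⁻¹ * a

/-- The twist of a glue vector. -/
def Tw (a : D.FI) (b : Ideal (𝓞 D.E)) (g g' : D.E) : Prop :=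
  ∀ β ∈ b, D.bar β * g' - β * g ∈ (b : D.FI) * a

/-- The form on `E × ℚ`. -/
def fm (y : D.E) (s : ℚ) (y' : D.E) (s' : ℚ) : ℚ :=
  Algebra.trace ℚ D.E (D.lam * y * D.bar y') + (c.A.det.natAbs / D.Dn : ℚ) * s * s'

/-- A twisted lattice with a frame. -/
structure Fr where
  b : (Ideal (𝓞 D.E))⁰
  g : D.E
  x : Ix n → D.E
  t : Ix n → ℤ
  htw : D.Tw D.a b D.g g
  fr : D.Fm (D.tw D.a b) g x t
  ori : ∃ M : SpecialLinearGroup (Ix n) ℚ, ∀ k, x k = ∑ i, M i k * D.x i ∧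
    (t k : ℚ) = ∑ i, M i k * D.t i
  lev : ∃ z : Ix n → ℤ, t = D.t + c.A *ᵥ z

/-- A choice of a framed lattice in every class. -/
structure Sys where
  f : D.Cl → D.Fr
  hb : ∀ x, ClassGroup.mk0 (f x).b = x

namespace Fr

variable {D} (f : D.Fr)

/-- The first component of a lattice vector. -/
def y (v : Ix n → ℤ) : D.E := ∑ i, v i * f.x i

/-- The second component of a lattice vector. -/
def s (v : Ix n → ℤ) : ℤ := ∑ i, v i * f.t i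

/-- The hermitian norm of a lattice vector. -/
def eta (v : Ix n → ℤ) : D.E := D.lam * f.y v * D.bar (f.y v)

/-- The matrix of the `p`-adic coordinates of a frame. -/
def Ψ : Mx n ℚ_[p] := Matrix.of fun i k => if i = cn n then (f.t k : ℚ_[p]) else D.ψ i (f.x k)

/-- `v` is the period point of the frame. -/
def IsPt (v : Per c.A) : Prop := Am c.A ℂ *ᵥ v.1 = fun i => D.φ (f.x i)

/-- A short vector that satisfies a congruence. -/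
def Good (I : Finset (Ix n)) (c₀ : ℤ) (k : ℕ) (R : ℝ) (v : Ix n → ℤ) : Prop :=
  v ≠ 0 ∧ |((bf c.A v v : ℤ) : ℝ)| ≤ R ∧ ‖D.φ (f.eta v)‖ ≤ R ∧
    ‖∑ i ∈ I, D.ψ i (f.eta v) - c.κ * c₀‖ ≤ ((p : ℝ) ^ k)⁻¹

/-- The lattice has many good vectors. -/
def Ev (I : Finset (Ix n)) (c₀ : ℤ) (k : ℕ) (R : ℝ) (K₀ : ℕ) : Prop :=
  ∃ S : Finset (Ix n → ℤ), K₀ ≤ S.card ∧ ∀ v ∈ S, f.Good I c₀ k R v

/-- `g` is a lift of the frame to the `p`-arithmetic group. -/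
def IsLift (g : c.GG) : Prop :=
  Intg g.1 ∧ (∃ s : Ix n → ℚ_[p], g.1.1.1 * c.g₀ = diagonal s * f.Ψ) ∧
    ∃ (v : Per c.A) (z : ℂ), f.IsPt v ∧ v.1 = z • (act g.2⁻¹ c.v₀).1

end Fr

open Classical in
/-- The proportion of classes with a given property. -/
def pr (P : D.Cl → Prop) : ℝ := ((Finset.univ.filter P).card : ℝ) / Fintype.card D.Cl

/-- The arithmetic invariants of a datum. -/
structure Ar (C : ℝ) where
  dd : Ideal (𝓞 D.F)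
  B : Bas D.F n
  cc : Fin n → ℤ
  w : Fin n → ℝ
  Df_nrm : Ideal.absNorm D.Df = D.Dn
  disc : (discr D.E).natAbs = D.Dn * D.dF ^ 2
  Df_sq : D.xF dd = D.Df * D.Df
  dd_nrm : Ideal.absNorm dd = D.Dn
  two_h : 2 * c.h = c.A.det.natAbs
  h_pos : 0 < c.h
  pD : ¬ p ∣ D.Dn
  rankE : Module.finrank ℚ D.E = 2 * n + 2
  rankF : Module.finrank ℚ D.F = n + 1
  cc_mem : ∀ i, B.ω i.succ - cc i ∈ dd
  w_bd : ∀ i (σ : D.E →+* ℂ), ‖σ ((B.ω i.succ : D.F) : D.E)‖ ≤ w i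
  w1 : ∀ i, 1 ≤ w i
  wp : ∏ i, w i ≤ C * √(D.dF : ℝ)
  wd : ∀ i, (D.dF : ℝ) ≤ (2 * w i) ^ ((n + 1) * n)

namespace Ar

variable {D} {C : ℝ} (A : D.Ar C)

/-- The element of `𝔡⁻¹ 𝔇_F⁻¹` with trace `N / D` and further coordinates `k`. -/
def et (N : ℤ) (k : Fin n → ℤ) : D.F :=
  N * ((A.B.u 0 + ∑ i, A.cc i * A.B.u i.succ) / D.Dn) + ∑ i, k i * A.B.u i.succ

/-- The ideal `η 𝔡 𝔇_F`. -/
def jd (η : D.F) : Ideal (𝓞 D.F) :=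
  Submodule.comap (Algebra.linearMap (𝓞 D.F) D.F)
    ((FractionalIdeal.spanSingleton (𝓞 D.F)⁰ η *
      ((A.dd * differentIdeal ℤ (𝓞 D.F) : Ideal (𝓞 D.F)) : FractionalIdeal (𝓞 D.F)⁰ D.F) :
        FractionalIdeal (𝓞 D.F)⁰ D.F) : Submodule (𝓞 D.F) D.F)

/-- The numerator of the trace. -/
def nt (_ : D.Ar C) (q₀ t : ℤ) : ℤ := D.Dn * q₀ - c.h * t ^ 2

/-- The number of ideals with relative norm `η 𝔡 𝔇_F`. -/
def rr (η : D.F) : ℕ := Nat.card {g : Ideal (𝓞 D.E) // g * D.cI g = D.xF (A.jd η)}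

/-- The number of ideals of norm `q` of `E` that divide `η 𝔡 𝔇_F`. -/
def n1 (q : ℕ) (η : D.F) : ℕ :=
  Nat.card {Q : Ideal (𝓞 D.E) // Ideal.absNorm Q = q ∧ D.xF (A.jd η) ≤ Q}

/-- The invariants of a vector of a twisted lattice. -/
structure Inv (f : D.Fr) (v : Ix n → ℤ) (q₀ t : ℤ) (k : Fin n → ℤ) (g : Ideal (𝓞 D.E)) : Prop where
  ne : f.y v ≠ 0
  q : bf c.A v v = 2 * q₀
  s : f.s v = t
  eta : (A.et (A.nt q₀ t) k : D.E) = f.eta v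
  idl : (g : D.FI) * D.tw D.a f.b = FractionalIdeal.spanSingleton _ (f.y v) * (D.Df : D.FI)
  rel : g * D.cI g = D.xF (A.jd (A.et (A.nt q₀ t) k))

/-- The integer data `S` are those of `A`. -/
structure Match {κ : ℝ} (S : SD n p c.h κ) : Prop where
  hD : S.D = D.Dn
  hF : S.dF = D.dF
  hc : S.c = A.cc
  hw : S.w = A.w
  hN : S.NQ = fun N k => Ideal.absNorm (A.jd (A.et N k))
  h1 : S.n1 = fun q N k => A.n1 q (A.et N k)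
  ha : S.a = nI D.E
  hb : S.b = nI D.F

end Ar

end Dat

/-- The compact group. -/
def Ctx.M0 {n p : ℕ} [Fact p.Prime] (c : Ctx n p) : Set c.GG :=
  {g | Intg g.1 ∧ (∀ i j, i ≠ j → g.1.1.1 i j = 0) ∧ ∃ z : ℂ, (act g.2 c.v₀).1 = z • c.v₀.1}

/-- The arithmetic invariants exist. -/
def AlgStmt : Prop :=
  ∀ n : ℕ, ∃ C : ℝ, ∀ (p : ℕ) [Fact p.Prime] (c : Ctx n p) (D : Dat c), Nonempty (D.Ar C)

/-- Linear algebra and ideal theory of frames. -/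
def FrameStmt : Prop :=
  ∀ (n p : ℕ) [Fact p.Prime] (c : Ctx n p) (D : Dat c),
    (∀ (a : D.FI) y, y ∈ D.cF a ↔ D.bar y ∈ a) ∧
    (∀ b : Ideal (𝓞 D.E), D.cF b = (D.cI b : Ideal (𝓞 D.E))) ∧
    (∀ y, D.cF (FractionalIdeal.spanSingleton _ y) = FractionalIdeal.spanSingleton _ (D.bar y)) ∧
    (∀ a : D.FI, D.cF (D.cF a) = a) ∧ D.cI D.Df = D.Df ∧ D.lam ≠ 0 ∧ D.Dn ≠ 0 ∧
    ∀ a g x t, D.Fm a g x t →
      a ≠ 0 ∧ (∀ i, x i - t i * g ∈ a) ∧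
      (∀ (y : D.E) (s : ℚ), ∃ u : Ix n → ℚ, y = ∑ i, u i * x i ∧ s = ∑ i, u i * t i) ∧
      (∀ u : Ix n → ℚ, ∑ i, u i * x i = 0 → ∑ i, u i * t i = 0 → u = 0) ∧
      (∀ u u' : Ix n → ℚ, D.fm (∑ i, u i * x i) (∑ i, u i * t i) (∑ i, u' i * x i)
        (∑ i, u' i * t i) = bf (Am c.A ℚ) u u') ∧
      FractionalIdeal.spanSingleton _ D.lam * a * D.cF a *
        ((D.xF (differentIdeal ℤ (𝓞 D.F)) : Ideal (𝓞 D.E)) : D.FI) = 1 ∧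
      (∀ y, y ∈ (D.Df : D.FI)⁻¹ * a ↔ ∃ k : ℤ, y - k * g ∈ a) ∧
      (∀ y, y ∈ (D.Df : D.FI)⁻¹ * a ↔
        ∀ y' ∈ a, ∃ k : ℤ, Algebra.trace ℚ D.E (D.lam * y * D.bar y') = k) ∧
      (∀ k : ℤ, k * g ∈ a ↔ (D.Dn : ℤ) ∣ k) ∧
      (∃ e : Ix n → ℚ, Am c.A ℚ *ᵥ e = (fun i => (t i : ℚ)) ∧ ∑ i, e i * x i = 0 ∧
        ∑ i, e i * t i = (D.Dn / c.A.det.natAbs : ℚ) ∧
        ∀ (u : Ix n → ℚ) (z : Ix n → ℤ), Am c.A ℚ *ᵥ u = (fun i => (z i : ℚ)) →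
          ∃ (k : ℤ) (z' : Ix n → ℤ), u = fun i => k * e i + z' i) ∧
      (∃ v : Per c.A, Am c.A ℂ *ᵥ v.1 = fun i => D.φ (x i)) ∧
      (∀ v : Per c.A, (Am c.A ℂ *ᵥ v.1 = fun i => D.φ (x i)) →
        bf (Am c.A ℂ) (star v.1) v.1 * D.φ D.lam = 1) ∧
      (∀ z : D.E, z * D.bar z = 1 →
        D.Fm (FractionalIdeal.spanSingleton _ z * a) (z * g) (fun i => z * x i) t ∧
        ∃ M : SpecialLinearGroup (Ix n) ℚ, ∀ k, z * x k = ∑ i, M i k * x i ∧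
          (t k : ℚ) = ∑ i, M i k * t i) ∧
      (∀ g', g' - g ∈ a → D.Fm a g' x t) ∧
      ∀ γ ∈ Ort c.A, D.Fm a g (fun k => ∑ i, γ.1 i k * x i) fun k => ∑ i, γ.1 i k * t i

/-- Twisting of glue vectors. -/
def TwStmt : Prop :=
  ∀ (n p : ℕ) [Fact p.Prime] (c : Ctx n p) (D : Dat c) (a : D.FI), a ≠ 0 →
    (∀ b g, b ≠ ⊥ → g ∈ (D.Df : D.FI)⁻¹ * a → ∃ g', D.Tw a b g g') ∧
    (∀ b g g' g'', b ≠ ⊥ → D.Tw a b g g' → (D.Tw a b g g'' ↔ g'' - g' ∈ D.tw a b)) ∧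
    (∀ b g g', b ≠ ⊥ → g ∈ (D.Df : D.FI)⁻¹ * a → D.Tw a b g g' →
      g' ∈ (D.Df : D.FI)⁻¹ * D.tw a b) ∧
    (∀ b b' g g' g'', b ≠ ⊥ → D.Tw a b g g' → D.Tw (D.tw a b) b' g' g'' →
      D.Tw a (b * b') g g'') ∧
    (∀ b b', b ≠ ⊥ → b' ≠ ⊥ → D.tw (D.tw a b) b' = D.tw a (b * b')) ∧
    (∀ (z : 𝓞 D.E) g, z ≠ 0 → g ∈ (D.Df : D.FI)⁻¹ * a →
      D.Tw a (Ideal.span {z}) g (z / D.bar z * g) ∧
      D.tw a (Ideal.span {z}) = FractionalIdeal.spanSingleton _ (z / D.bar z : D.E) * a) ∧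
    (∀ (b : Ideal (𝓞 D.E)), b ≠ ⊥ → D.cI b = b → D.tw a b = a) ∧
    (∀ (I : Ideal (𝓞 D.F)) g, g ∈ (D.Df : D.FI)⁻¹ * a → D.Tw a (D.xF I) g g) ∧
    (∀ (z : D.E) b g g', z ≠ 0 → D.Tw a b g g' →
      D.Tw (FractionalIdeal.spanSingleton _ z * a) b (z * g) (z * g')) ∧
    (∀ (k : ℤ) b g g', D.Tw a b g g' → D.Tw a b (k * g) (k * g')) ∧
    (∀ b g g' α, α ∈ a → D.Tw a b g g' → D.Tw a b (g + α) g') ∧
    ∀ (e : ℕ) g, e ∣ D.Dn → D.Tw a (D.Df ⊔ Ideal.span {(e : 𝓞 D.E)}) g g →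
      ((D.Dn / e : ℕ) : D.E) * g ∈ a

/-- The matrix of a change of frame. -/
def ChgStmt : Prop :=
  ∀ (n p : ℕ) [Fact p.Prime] (c : Ctx n p) (D : Dat c) (f f' : D.Fr) (z : D.E), z * D.bar z = 1 →
    ∃ M : SpecialLinearGroup (Ix n) ℚ, M ∈ Ort (Am c.A ℚ) ∧
      (∀ k, z * f'.x k = ∑ i, M i k * f.x i ∧ (f'.t k : ℚ) = ∑ i, M i k * f.t i) ∧
      (∀ d : ℤ, (∀ (y : D.E) (s : ℤ), y - s * f'.g ∈ D.tw D.a f'.b →
        d * (z * y) - d * s * f.g ∈ D.tw D.a f.b) → ∀ i k, ∃ m : ℤ, d * M i k = m) ∧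
      (∀ R : Subring ℚ, (∀ i k, M i k ∈ R) →
        ∃ M' : Mx n ℚ, (∀ i k, M' i k ∈ R) ∧ M.1 = 1 + M' * Am c.A ℚ) ∧
      ∀ v v' : Per c.A, f.IsPt v → f'.IsPt v' →
        v.1 = D.φ z • (M.1.map (Rat.castHom ℂ) *ᵥ v'.1)

/-- Two framed lattices in the same class give the same lattice up to an element of norm one. -/
def SameStmt : Prop :=
  ∀ (n p : ℕ) [Fact p.Prime] (c : Ctx n p) (D : Dat c) (f f' : D.Fr) (b : (Ideal (𝓞 D.E))⁰),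
    ClassGroup.mk0 f'.b = ClassGroup.mk0 f.b * ClassGroup.mk0 b →
    ∃ z g : D.E, z * D.bar z = 1 ∧ D.Tw (D.tw D.a f.b) b f.g g ∧
      FractionalIdeal.spanSingleton _ z * D.tw D.a f'.b = D.tw (D.tw D.a f.b) b ∧
      z * f'.g - g ∈ D.tw (D.tw D.a f.b) b

/-- Every class contains a framed lattice. -/
def NbrStmt : Prop := ∀ (n p : ℕ) [Fact p.Prime] (c : Ctx n p) (D : Dat c), Nonempty D.Sys

/-- The mean over the orbit is the mean over the class group. -/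
def OrbStmt : Prop :=
  ∀ (n p : ℕ) [Fact p.Prime] (c : Ctx n p) (D : Dat c) (S : D.Sys) (v : D.Cl → Per c.A),
    (∀ x, (S.f x).IsPt (v x)) → (orbit c.A D.φ D.lam D.a D.g D.x D.t).Finite ∧ ∀ f : SS c.A → ℝ,
      mean (orbit c.A D.φ D.lam D.a D.g D.x D.t) f =
        (∑ x, f (Quot.mk _ (v x))) / Fintype.card D.Cl

/-- Lifts of frames. -/
def LiftStmt : Prop :=
  ∀ (n p : ℕ) [Fact p.Prime] (c : Ctx n p),
    (∃ M : Subgroup c.GG, (M : Set c.GG) = c.M0 ∧ IsCompact c.M0 ∧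
      (∀ m ∈ c.M0, ∀ k, m * (dg p k, 1) = (dg p k, 1) * m) ∧
      ∀ h : HQ n p, (∀ i j, i ≠ j → h.1.1 i j = 0) → ∃ k, ((dg p k)⁻¹ * h, 1) ∈ c.M0) ∧
    ∃ C : ℝ, ∀ (D : Dat c) (f : D.Fr), (∃ g, f.IsLift g) ∧ ∀ g, f.IsLift g →
      (∀ m ∈ c.M0, f.IsLift (m * g)) ∧
      ∀ I c₀ k R K₀, Adm I → g ∈ c.Wg I c₀ k R K₀ → f.Ev I c₀ k (C * R ^ 2) K₀

/-- Moving a frame by a prime above `p`. -/
def MoveStmt : Prop :=
  ∀ (n p : ℕ) [Fact p.Prime] (c : Ctx n p) (D : Dat c) (i : Ix n), ∃ z : D.Cl,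
    ∀ (f f' : D.Fr) (g g' : c.GG), ClassGroup.mk0 f'.b = ClassGroup.mk0 f.b * z →
      f.IsLift g → f'.IsLift g' →
      ∃ m ∈ c.M0, ∃ γ ∈ c.Gp, (dg p (Pi.single i 1), 1) * g = m * g' * γ

/-- The measure attached to a datum. -/
def MeasStmt : Prop :=
  ∀ (n p : ℕ) [Fact p.Prime] (c : Ctx n p) (π : c.XX → YY c.A), c.IsProj π → ∃ C : ℝ,
    ∀ (D : Dat c) (S : D.Sys), ∃ ν : Measure c.XX, IsProbabilityMeasure ν ∧
      (∀ h : HQ n p, (∀ i j, i ≠ j → h.1.1 i j = 0) → ν.map (((h, 1) : c.GG) • ·) = ν) ∧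
      (orbit c.A D.φ D.lam D.a D.g D.x D.t).Finite ∧
      (∀ f : SS c.A →ᵇ ℝ,
        mean (orbit c.A D.φ D.lam D.a D.g D.x D.t) f = ∫ x, f (proj c.v₀ (π x)) ∂ν) ∧
      ∀ I c₀ k R K₀, Adm I → ν (c.WW I c₀ k R K₀) ≤ ENNReal.ofReal
        (D.pr fun x => (S.f x).Ev I c₀ k (C * R ^ 2) K₀)

/-- The lattice `𝔡⁻¹ 𝔇_F⁻¹` in coordinates. -/
def CoStmt : Prop :=
  ∀ (n p : ℕ) [Fact p.Prime] (c : Ctx n p) (D : Dat c) (C : ℝ) (A : D.Ar C),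
    (∀ η : D.F, (∀ y ∈ A.dd, ∃ z : ℤ, Algebra.trace ℚ D.F (η * y) = z) ↔ ∃ N k, η = A.et N k) ∧
    ∀ N k, Algebra.trace ℚ D.F (A.et N k) = (N / D.Dn : ℚ) ∧
      (∀ i, Algebra.trace ℚ D.F (A.et N k * A.B.ω i.succ) = (A.cc i * N + D.Dn * k i) / D.Dn) ∧
      ((A.jd (A.et N k) : Ideal (𝓞 D.F)) : FractionalIdeal (𝓞 D.F)⁰ D.F) =
        FractionalIdeal.spanSingleton _ (A.et N k) *
          ((A.dd * differentIdeal ℤ (𝓞 D.F) : Ideal (𝓞 D.F)) : FractionalIdeal (𝓞 D.F)⁰ D.F) ∧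
      (Ideal.absNorm (A.jd (A.et N k)) : ℚ) = |Algebra.norm ℚ (A.et N k)| * D.Dn * D.dF ∧
      ∀ q : ℕ, q ∣ D.Dn →
        (A.jd (A.et N k) ≤ A.dd ⊔ Ideal.span {(q : 𝓞 D.F)} ↔ (q : ℤ) ∣ N)

/-- Every vector has invariants. -/
def InvStmt : Prop :=
  ∀ (n p : ℕ) [Fact p.Prime] (c : Ctx n p) (D : Dat c) (C : ℝ) (A : D.Ar C) (f : D.Fr)
    (v : Ix n → ℤ), v ≠ 0 → |bf c.A v v| < D.Dn → ∃ q₀ t k g, A.Inv f v q₀ t k g

/-- The fibres of the invariants. -/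
def FibStmt : Prop :=
  ∀ (n p : ℕ) [Fact p.Prime] (c : Ctx n p) (D : Dat c) (C : ℝ) (A : D.Ar C) (S : D.Sys)
    (q₀ t : ℤ) (k : Fin n → ℤ) (T : Finset (D.Cl × (Ix n → ℤ))),
    (∀ x ∈ T, ∃ g, A.Inv (S.f x.1) x.2 q₀ t k g) →
    T.card ≤ Units.torsionOrder D.E * classNumber D.F *
      (t.natAbs.gcd D.Dn).divisors.card * A.rr (A.et (A.nt q₀ t) k)

open Classical in
/-- The genus condition. -/
def GenusStmt : Prop :=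
  ∀ (n p : ℕ) [Fact p.Prime] (c : Ctx n p) (D : Dat c) (C : ℝ) (A : D.Ar C) (q₀ : ℤ),
    ∃ Sg : ℕ → (Fin n → ℤ) → Prop, (∀ (q : ℕ) k k', CgN q k k' → Sg q k → Sg q k') ∧
      (∀ q : ℕ, q.Prime → q ∣ D.Dn →
        denN q (fun k => if Sg q k then 1 else 0) ≤ (q + 1) / (2 * q)) ∧
      ∀ f v t k g, A.Inv f v q₀ t k g → ∀ q : ℕ, q.Prime → q ∣ D.Dn → (q : ℤ) ∣ t → Sg q k

open Classical in
/-- The integer data exist. -/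
def LocStmt : Prop :=
  ∀ (n : ℕ) (C : ℝ), ∃ κ : ℝ, ∀ (p : ℕ) [Fact p.Prime] (c : Ctx n p) (D : Dat c) (A : D.Ar C)
    (q₀ : ℤ) (Sg : ℕ → (Fin n → ℤ) → Prop), (∀ (q : ℕ) k k', CgN q k k' → Sg q k → Sg q k') →
    (∀ q : ℕ, q.Prime → q ∣ D.Dn →
      denN q (fun k => if Sg q k then 1 else 0) ≤ (q + 1) / (2 * q)) →
    ∃ S : SD n p c.h κ, A.Match S ∧ S.q₀ = q₀ ∧ S.Sg = Sg

/-- The bound for the number of ideals of given relative norm. -/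
def RepStmt : Prop :=
  ∀ (n p : ℕ) [Fact p.Prime] (c : Ctx n p) (D : Dat c) (C κ : ℝ) (A : D.Ar C) (S : SD n p c.h κ)
    (t : ℤ) (k : Fin n → ℤ), A.Match S → A.et (A.nt S.q₀ t) k ≠ 0 →
    (∀ q : ℕ, q.Prime → q ∣ D.Dn → (q : ℤ) ∣ t → S.Sg q k) →
    (((t.natAbs.gcd D.Dn).divisors.card * A.rr (A.et (A.nt S.q₀ t) k) : ℕ) : ℝ) ≤ S.W t k

/-- Sizes and congruences of the invariants of good vectors. -/
def SizeStmt : Prop :=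
  ∀ (n : ℕ) (R : ℝ), ∃ R' : ℝ, ∀ (p : ℕ) [Fact p.Prime] (c : Ctx n p) (D : Dat c) (C κ : ℝ)
    (A : D.Ar C) (S : SD n p c.h κ) (I : Finset (Ix n)) (c₀ : ℤ) (K : ℕ)
    (U : Finset (ℤ × (Fin n → ℤ))), A.Match S → Adm I →
    (∀ u ∈ U, ∃ f v g, A.Inv f v S.q₀ u.1 u.2 g ∧ f.Good I c₀ K R v) →
    ∃ U₁ U₂, U ⊆ U₁ ∪ U₂ ∧ S.Reg R' ((K + 1) / 2) U₁ ∧ S.Reg R' ((K + 1) / 2) U₂

open Classical in
/-- From classes with many good vectors to the weights. -/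
def SumStmt : Prop :=
  ∀ (n : ℕ) (R : ℝ), ∃ (κ R' : ℝ) (L D₀ : ℕ), ∀ (p : ℕ) [Fact p.Prime] (c : Ctx n p) (D : Dat c)
    (Sy : D.Sys) (I : Finset (Ix n)) (c₀ : ℤ) (K K₀ : ℕ) (Bd : ℝ), Adm I → D₀ ≤ D.Dn → 0 ≤ Bd →
    (∀ (S : SD n p c.h κ) U, S.D = D.Dn → S.dF = D.dF → S.a = nI D.E → S.b = nI D.F →
      S.Reg R' ((K + 1) / 2) U → ∑ u ∈ U, S.W u.1 u.2 ≤ Bd) →
    (K₀ * (Finset.univ.filter fun x => (Sy.f x).Ev I c₀ K R K₀).card : ℝ) ≤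
      Units.torsionOrder D.E * classNumber D.F * (L * Bd)

/-- The arithmetic estimate. -/
def CountStmt : Prop :=
  ∀ (n p : ℕ) [Fact p.Prime] (c : Ctx n p) (R : ℝ), ∃ C : ℝ, ∀ K : ℕ, 4 ≤ K → ∃ D₀ : ℕ,
    ∀ D : Dat c, D₀ ≤ D.Dn → ∀ (Sy : D.Sys) (I : Finset (Ix n)) (c₀ : ℤ) (K₀ : ℕ), Adm I →
      1 ≤ K₀ → (D.pr fun x => (Sy.f x).Ev I c₀ K R K₀) ≤ C * (p : ℝ) ^ (-(K : ℝ) / 4) / K₀

/-- The context and the numbering of the embeddings exist. -/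
def CtxStmt : Prop :=
  ∀ (n p : ℕ) [Fact p.Prime] (A : Mx n ℤ) (E : Type) [Field E] [NumberField E] [IsCMField E]
    (φ : E →+* ℂ) (lam : E) (a : FractionalIdeal (𝓞 E)⁰ E) (g : E) (x : Ix n → E) (t : Ix n → ℤ),
    Special A p φ lam a g x t → Lat A → ¬ (p : ℤ) ∣ A.det →
    (∃ ψ : Ix n → (E →+* ℚ_[p]),
      (∀ i y, i ≠ cn n → ψ i.rev y = ψ i (IsCMField.complexConj E y)) ∧
      ∀ i j, i ≠ cn n → j ≠ cn n → ψ i = ψ j → i = j) ∧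
    p ≠ 2 ∧ (∀ v : Per A, PosC v) ∧
    ∃ (κ : ℚ_[p]) (g₀ g₁ : Mx n ℚ_[p]), ‖κ‖ = 1 ∧ g₀ * g₁ = 1 ∧ (∀ i j, ‖g₀ i j‖ ≤ 1) ∧
      (∀ i j, ‖g₁ i j‖ ≤ 1) ∧ κ • (g₀ᵀ * Jr n ℚ_[p] * g₀) = Am A ℚ_[p]

/-- The theorem. -/
def FinalStmt : Prop :=
  ∀ (n p : ℕ) [Fact p.Prime] (A : Matrix (Fin (2 * n + 3)) (Fin (2 * n + 3)) ℤ) (v₀ : Per A),
    2 ≤ n → Lat A → ¬ (p : ℤ) ∣ A.det →
    ∀ (E : ℕ → Type) [∀ m, Field (E m)] [∀ m, NumberField (E m)] [∀ m, IsCMField (E m)]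
      (φ : ∀ m, E m →+* ℂ) (lam : ∀ m, E m) (a : ∀ m, FractionalIdeal (𝓞 (E m))⁰ (E m))
      (g : ∀ m, E m) (x : ∀ m, Fin (2 * n + 3) → E m) (t : ℕ → Fin (2 * n + 3) → ℤ),
      (∀ m, Special A p (φ m) (lam m) (a m) (g m) (x m) (t m)) →
      Tendsto (fun m => rd (E m)) atTop atTop →
      (∀ m, (orbit A (φ m) (lam m) (a m) (g m) (x m) (t m)).Finite) ∧
      ∃ μ : @Measure (YY A) (borel _),
        (∀ ν : @Measure (YY A) (borel _), (ν Set.univ = 1 ∧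
          ∀ u : GR A, @Measure.map _ _ (borel _) (borel _) (u • ·) ν = ν) ↔ ν = μ) ∧
        ∀ f : SS A →ᵇ ℝ, Tendsto
          (fun m => mean (orbit A (φ m) (lam m) (a m) (g m) (x m) (t m)) f) atTop
          (𝓝 (∫ y, f (proj v₀ y) ∂μ))

theorem main (hN : NbrStmt) (hP : ProjStmt) (hM : MeasStmt) (hC : CountStmt) (hE : EquiStmt)
    (n p : ℕ) [Fact p.Prime] (c : Ctx n p) (D : ℕ → Dat c)
    (hlim : Tendsto (fun m => (D m).Dn) atTop atTop) :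
    (∀ m, (orbit c.A (D m).φ (D m).lam (D m).a (D m).g (D m).x (D m).t).Finite) ∧
      ∃ μ : @Measure (YY c.A) (borel _),
        (∀ ν : @Measure (YY c.A) (borel _), (ν Set.univ = 1 ∧
          ∀ u : GR c.A, @Measure.map _ _ (borel _) (borel _) (u • ·) ν = ν) ↔ ν = μ) ∧
        ∀ f : SS c.A →ᵇ ℝ, Tendsto
          (fun m => mean (orbit c.A (D m).φ (D m).lam (D m).a (D m).g (D m).x (D m).t) f) atTop
          (𝓝 (∫ y, f (proj c.v₀ y) ∂μ)) := by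
  have S : ∀ m, (D m).Sys := fun m => (hN n p c (D m)).some
  obtain ⟨⟨π, hπ⟩, hpr, -⟩ := hP n p c
  obtain ⟨C₀, hM⟩ := hM n p c π hπ
  choose ν hν hA hfin hmean hW using fun m => hM (D m) (S m)
  obtain ⟨μ, h1, h2⟩ := hE n p c π ν hπ hν hA fun R => by
    obtain ⟨C, h⟩ := hC n p c (C₀ * R ^ 2)
    refine ⟨C, fun k K₀ hk hK => ?_⟩
    obtain ⟨D₀, h⟩ := h k hk
    filter_upwards [hlim.eventually_ge_atTop D₀] with m hm I hI c₀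
    exact (hW m I c₀ k R K₀ hI).trans (ENNReal.ofReal_le_ofReal (h _ hm (S m) I c₀ K₀ hI hK))
  refine ⟨hfin, μ, h1, fun f => ?_⟩
  simp only [hmean]
  exact h2 (f.compContinuous ⟨proj c.v₀, hpr⟩)

theorem fin (hX : CtxStmt) (hN : NbrStmt) (hP : ProjStmt) (hM : MeasStmt) (hC : CountStmt)
    (hE : EquiStmt) : FinalStmt := by
  intro n p _ A v₀ hn hA hp E _ _ _ φ lam a g x t sp hlim
  obtain ⟨-, p2, pos, κ, g₀, g₁, h1, h2, h3, h4, h5⟩ := hX n p A _ _ _ _ _ _ _ (sp 0) hA hp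
  choose ψ hψ hψ' using fun m => (hX n p A _ _ _ _ _ _ _ (sp m) hA hp).1
  exact main hN hP hM hC hE n p ⟨A, v₀, κ, g₀, g₁, hn, hA, pos v₀, p2, hp, h1, h2, h3, h4, h5⟩
    (fun m => ⟨E m, φ m, lam m, a m, g m, x m, t m, sp m, ψ m, hψ m, hψ' m⟩) hlim

end Pool.Agent.Lib.MP_9177b7_ag.SO
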