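import Pool.Agent.Lib.MP_9177b7_ag.SO.Loc2
import Pool.Agent.Lib.MP_9177b7_ag.SO.StC

/-!
The integer data of the sieve problem exist.
-/

open NumberField Finset Pool.Agent.Shared.PrimeZeta

noncomputable section

namespace Pool.Agent.Lib.MP_9177b7_ag.SO

open B B.Lv

namespace Loc

variable {n p : ℕ} [Fact p.Prime] {c : Ctx n p} {D : Dat c} {C : ℝ} (hC : CoStmt) (A : D.Ar C)

/-- The coordinate map. -/
def T : (Fin (n + 1) → ℤ) →+ D.F :=
  AddMonoidHom.mk' (fun v => A.et (v 0) (Fin.tail v)) fun v w => by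
    simp only [Dat.Ar.et, Fin.tail, Pi.add_apply, Int.cast_add, add_mul, sum_add_distrib]
    ring

/-- The coordinates of a datum. -/
def lt : Lt D.F n where
  D := D.Dn
  dd := A.dd
  T := T A
  J v := A.jd (A.et (v 0) (Fin.tail v))
  d2 := c.n2
  sqf := D.sp.sqf
  nrm := A.dd_nrm
  rk := rank A.B
  coe v := ((hC n p c D C A).2 _ _).2.2.1
  sur η h := by
    obtain ⟨N, k, e⟩ := ((hC n p c D C A).1 η).1 h
    exact ⟨Fin.cons N k, e⟩
  tr v := ((hC n p c D C A).2 _ _).1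
  low v := ((hC n p c D C A).2 _ _).2.2.2.2

end Loc

theorem loc (hI : IdcStmt) (hC : CoStmt) : LocStmt := by
  classical
  intro d C
  obtain ⟨K, K0, hK⟩ := Lv.poly (d + 2)
  obtain ⟨e, he⟩ : ∃ c : ℝ, c = (d + 2) * (((1 : ℕ) : ℝ) + (d + 2 : ℕ) + 1) ^ (d + 2) := ⟨_, rfl⟩
  have e0 : 0 ≤ e := by
    rw [he]
    positivity
  have k0 : 0 ≤ ((d : ℝ) + 2) * K := by positivity
  have n0 : 0 ≤ ((d : ℝ) + 1) ^ 2 := by positivity
  have c0 := abs_nonneg C
  have c1 := le_abs_self C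
  refine ⟨|C| + e + (d + 1) ^ 2 + (d + 2) * K, fun p _ c D A q₀ Sg s1 s2 => ?_⟩
  have key : ∀ (q j : ℕ) (x : ℝ), q.Prime → (j : ℝ) / 12 - (j - j / 3 : ℕ) ≤ x →
      ((d : ℝ) + 2) * ((j : ℝ) + (d + 2 : ℕ) + 1) ^ (d + 2) / q ^ (j - j / 3) ≤
        (|C| + e + (d + 1) ^ 2 + (d + 2) * K) * (q : ℝ) ^ x := fun q j x hq hx => by
    have q2 : (2 : ℝ) ≤ q := by exact_mod_cast hq.two_le
    have a := Real.rpow_le_rpow_of_exponent_le (by linarith : (1 : ℝ) ≤ q) hx
    rw [Real.rpow_sub (by linarith), Real.rpow_natCast] at a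
    calc _ ≤ ((d : ℝ) + 2) * (K * (q : ℝ) ^ ((j : ℝ) / 12)) / q ^ (j - j / 3) :=
          div_le_div_of_nonneg_right (mul_le_mul_of_nonneg_left (hK j q q2) (by positivity))
            (by positivity)
      _ = ((d : ℝ) + 2) * K * ((q : ℝ) ^ ((j : ℝ) / 12) / q ^ (j - j / 3)) := by ring
      _ ≤ _ := mul_le_mul (by linarith) a (by positivity) (by linarith)
  let L := Loc.lt hC A
  refine ⟨{
    D := D.Dn
    dF := D.dF
    q₀ := q₀
    c := A.cc
    w := A.w
    NQ := fun N k => Ideal.absNorm (A.jd (A.et N k))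
    n1 := fun q N k => A.n1 q (A.et N k)
    Sg := Sg
    a := nI D.E
    b := nI D.F
    sqf := D.sp.sqf
    cop := A.two_h ▸ D.sp.cop
    h_pos := A.h_pos
    pD := A.pD
    dF1 := Int.natAbs_pos.2 (discr_ne_zero D.F)
    w1 := A.w1
    wp := A.wp.trans (mul_le_mul_of_nonneg_right (by linarith) (Real.sqrt_nonneg _))
    wd := A.wd
    dio := fun u j r hu hj h => ?_
    per := fun q j N N' k k' hq h1 h2 => L.per hq j h1 h2
    nper := fun q N N' k k' hq h1 h2 => L.nper D.E hq h1 h2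
    nle := fun q N k hq => (L.nle D.E hq (Fin.cons N k)).trans A.rankE.le
    ale := fun q hq => (nI_le hq).trans ((RingOfIntegers.rank D.E).trans A.rankE).le
    ble := fun q hq => (nI_le hq).trans (rank A.B).le
    dvd := fun q N k hq h1 h2 => ?_
    up := fun q N hq => ?_
    lv := fun q j N hq => (L.lev hI hq N j).trans (key q j _ hq ?_)
    lv2 := fun q j N hq hj => (L.lev hI hq N j).trans (key q j _ hq ?_)
    lo := fun q N hq h0 => le_trans (sub_le_sub_left
      (div_le_div_of_nonneg_right (by linarith) (by positivity)) _) (L.lo hq h0)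
    nden := fun q N hq h0 => L.nden D.E hq h0 A.Df_nrm (A.Df_sq.le.trans Ideal.mul_le_right)
    Sg_per := s1
    Sg_den := s2 }, ⟨rfl, rfl, rfl, rfl, rfl, rfl, rfl, rfl⟩, rfl, rfl⟩
  · have := Loc.dio A.B A.cc_mem (w := A.w) (fun i σ => by
      have := A.w_bd i (ComplexEmbedding.lift D.E σ)
      rwa [show ((A.B.ω i.succ : D.F) : D.E) = algebraMap D.F D.E (A.B.ω i.succ) from rfl,
        ComplexEmbedding.lift_algebraMap_apply] at this) u j r hu hj (A.dd_nrm ▸ h)
    rwa [A.dd_nrm] at this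
  · exact Loc.norm_sup hq (L.nrm ▸ L.sqf) (L.nrm ▸ h1) ▸ Ideal.absNorm_dvd_absNorm_of_le
      ((L.low (Fin.cons N k) q h1).2 h2)
  · have a := L.lev hI hq N 1
    rw [← he] at a
    simp only [pow_one, Nat.reduceDiv, Nat.sub_zero] at a
    exact a.trans (div_le_div_of_nonneg_right (by linarith) (by positivity))
  · have : (j : ℝ) ≤ 3 * (j - j / 3 : ℕ) := by exact_mod_cast (by omega : j ≤ 3 * (j - j / 3))
    linarith
  · have : (j : ℝ) + 3 ≤ 3 * (j - j / 3 : ℕ) := by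
      exact_mod_cast (by omega : j + 3 ≤ 3 * (j - j / 3))
    linarith

end Pool.Agent.Lib.MP_9177b7_ag.SO
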