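import Pool.Agent.Lib.MP_9177b7_ag.SO.StA
import Pool.Agent.Lib.MP_9177b7_ag.B.Bow
import Pool.Agent.Lib.MP_9177b7_ag.B.Sec
import Pool.Agent.Lib.MP_9177b7_ag.B.EK

/-!
Entries of orthogonal matrices, root groups and groups defined by radii.
-/

open Filter Topology Set Matrix

noncomputable section

namespace Pool.Agent.Lib.MP_9177b7_ag.SO

open B

variable {n : ℕ}

/-- The position `(i, j)` names a root; it is short if `j = j.rev`. -/
def Rt (i j : Ix n) : Prop := i ≠ j ∧ i ≠ i.rev ∧ j ≠ i.rev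

instance (i j : Ix n) : Decidable (Rt i j) := inferInstanceAs (Decidable (_ ∧ _))

/-- The centre of the index set. -/
def ctr (n : ℕ) : Ix n := ⟨n + 1, by omega⟩

theorem eq_rev {j : Ix n} : j = j.rev ↔ j = ctr n := by
  simp only [Fin.ext_iff, Fin.val_rev, ctr]
  omega

theorem ctr_rev : (ctr n).rev = ctr n := (eq_rev.2 rfl).symm

theorem Rt.dual {i j : Ix n} (h : Rt i j) (e : j ≠ j.rev) : Rt j.rev i.rev := by
  simp only [Rt, ne_eq, Fin.ext_iff, Fin.val_rev] at *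
  omega

theorem rt_ctr {i : Ix n} (h : i ≠ ctr n) : Rt i (ctr n) := by
  simp only [Rt, ne_eq, Fin.ext_iff, Fin.val_rev, ctr] at *
  omega

section ring

variable {F : Type} [Field F] {i j : Ix n}

/-- The entries of `g - 1`. -/
def D (g : Ort (Jr n F)) (i j : Ix n) : F := g.1.1 i j - (1 : Mx n F) i j

theorem D_ext {g h : Ort (Jr n F)} (e : ∀ i j, D g i j = D h i j) : g = h :=
  Subtype.ext (Subtype.ext (Matrix.ext fun i j => sub_left_injective (e i j)))

theorem D_one (i j : Ix n) : D (1 : Ort (Jr n F)) i j = 0 := sub_self _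

theorem D_ne (g : Ort (Jr n F)) (h : i ≠ j) : D g i j = g.1.1 i j := by
  rw [D, one_apply_ne h, sub_zero]

theorem D_mul (g h : Ort (Jr n F)) (i j : Ix n) :
    D (g * h) i j = D g i j + D h i j + ∑ m, D g i m * D h m j := by
  have : (g.1.1 * h.1.1) - 1 = (g.1.1 - 1) + (h.1.1 - 1) + (g.1.1 - 1) * (h.1.1 - 1) := by
    noncomm_ring
  exact congrFun (congrFun this i) j

theorem J_mul (g : Mx n F) (a b : Ix n) : (Jr n F * g) a b = g a.rev b := by
  simp [Jr, mul_apply]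

theorem mul_J (g : Mx n F) (a b : Ix n) : (g * Jr n F) a b = g a b.rev := by
  rw [mul_apply, Finset.sum_eq_single b.rev]
  · simp [Jr]
  · intro c _ e
    rw [Jr, of_apply, if_neg fun e' => e (by rw [e', Fin.rev_rev]), mul_zero]
  · simp

theorem rel (g : Ort (Jr n F)) (i j : Ix n) :
    D g j.rev i.rev + D g i j + ∑ m, D g m i.rev * D g m.rev j = 0 := by
  have e : (g.1.1 - 1)ᵀ * Jr n F + Jr n F * (g.1.1 - 1) +
      (g.1.1 - 1)ᵀ * (Jr n F * (g.1.1 - 1)) = 0 := by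
    have e : g.1.1ᵀ * Jr n F * g.1.1 = Jr n F := g.2
    rw [transpose_sub, transpose_one, ← sub_eq_zero.2 e]
    noncomm_ring
  have e := congrFun (congrFun e i.rev) j
  rw [Matrix.add_apply, Matrix.add_apply, mul_J, J_mul, Fin.rev_rev, mul_apply] at e
  simp only [J_mul] at e
  exact e

theorem rel0 (g : Ort (Jr n F)) (h : ∀ m, D g m i.rev * D g m.rev j = 0) :
    D g j.rev i.rev = -D g i j := by
  have e := rel g i j
  simp only [h, Finset.sum_const_zero] at e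
  linear_combination e

/-- The entries of `g - 1` vanish outside `S`. -/
def Sup (g : Ort (Jr n F)) (S : Ix n → Ix n → Prop) : Prop := ∀ a b, ¬ S a b → D g a b = 0

theorem Sup.mul0 {S S' : Ix n → Ix n → Prop} {g g' : Ort (Jr n F)} (hg : Sup g S) (hg' : Sup g' S')
    {a b c d : Ix n} (h : ¬ (S a b ∧ S' c d)) : D g a b * D g' c d = 0 := by
  rcases not_and_or.1 h with e | e
  · rw [hg _ _ e, zero_mul]
  · rw [hg' _ _ e, mul_zero]

theorem Sup.dual {S : Ix n → Ix n → Prop} {g : Ort (Jr n F)} (hg : Sup g S)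
    (h : ∀ m, ¬ (S m i.rev ∧ S m.rev j)) : D g j.rev i.rev = -D g i j :=
  rel0 g fun m => hg.mul0 hg (h m)

theorem Sup.rel1 {S : Ix n → Ix n → Prop} {g : Ort (Jr n F)} (hg : Sup g S) (c : Ix n)
    (h : ∀ m, m ≠ c → ¬ (S m i.rev ∧ S m.rev j)) :
    D g j.rev i.rev = -D g i j - D g c i.rev * D g c.rev j := by
  have e := rel g i j
  rw [Finset.sum_eq_single c (fun m _ e => hg.mul0 hg (h m e)) (by simp)] at e
  linear_combination e

theorem Sup.mul {S S' : Ix n → Ix n → Prop} {g g' : Ort (Jr n F)} (hg : Sup g S) (hg' : Sup g' S')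
    (s : Finset (Ix n)) (h : ∀ m, m ∉ s → ¬ (S i m ∧ S' m j)) :
    D (g * g') i j = D g i j + D g' i j + ∑ m ∈ s, D g i m * D g' m j := by
  rw [D_mul, Finset.sum_subset (Finset.subset_univ s) fun m _ hm => hg.mul0 hg' (h m hm)]

theorem Sup.add {S S' : Ix n → Ix n → Prop} {g g' : Ort (Jr n F)} (hg : Sup g S) (hg' : Sup g' S')
    (h : ∀ m, ¬ (S i m ∧ S' m j)) : D (g * g') i j = D g i j + D g' i j := by
  rw [hg.mul hg' ∅ fun m _ => h m, Finset.sum_empty, add_zero]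

/-- The coefficient of the quadratic entry of a root element. -/
def cf (F : Type) [Field F] (j : Ix n) : F := if j = j.rev then -(1 / 2) else 0

/-- The matrix of a root element. -/
def um (i j : Ix n) (s : F) : Mx n F :=
  1 + single i j s + single j.rev i.rev (-s) + single i i.rev (cf F j * s ^ 2)

theorem um_det (h : Rt i j) (s : F) : (um i j s).det = 1 := by
  obtain ⟨h1, h2, h3⟩ := h
  have h4 : j.rev ≠ i.rev := fun e => h1 (Fin.rev_injective e).symm
  have h5 : i.rev ≠ i := h2.symm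
  have e : um i j s = transvection j.rev i.rev (-s) * (transvection i i.rev (cf F j * s ^ 2) *
      transvection i j s) := by
    simp only [um, transvection, mul_add, add_mul, mul_one, one_mul,
      single_mul_single_of_ne _ _ _ _ h5, add_zero]
    abel
  rw [e, det_mul, det_mul, det_transvection_of_ne _ _ h4, det_transvection_of_ne _ _ h2,
    det_transvection_of_ne _ _ h1, mul_one, mul_one]

variable [CharZero F]

theorem um_mem (h : Rt i j) (s : F) : (um i j s)ᵀ * Jr n F * um i j s = Jr n F := by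
  obtain ⟨h1, h2, h3⟩ := h
  have J1 : ∀ (a b : Ix n) (t : F), Jr n F * single a b t = single a.rev b t := fun a b t => by
    ext c d
    simp only [J_mul, single_apply, Fin.rev_eq_iff]
  have J2 : ∀ (a b : Ix n) (t : F), single a b t * Jr n F = single a b.rev t := fun a b t => by
    ext c d
    simp only [mul_J, single_apply, Fin.rev_eq_iff]
  have h4 : i.rev ≠ i := h2.symm
  have h6 : j ≠ i := h1.symm
  have h7 : i.rev ≠ j.rev := fun e => h1 (Fin.rev_injective e)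
  simp only [um, transpose_add, transpose_one, transpose_single, mul_add, add_mul, mul_one, one_mul,
    J1, J2, Fin.rev_rev, single_mul_single_of_ne _ _ _ _ h4, single_mul_single_of_ne _ _ _ _ h6,
    single_mul_single_of_ne _ _ _ _ h7, add_zero]
  by_cases e : j = j.rev
  · rw [← e, single_mul_single_same, cf, if_pos e]
    ext a b
    simp only [Matrix.add_apply, single_apply]
    split_ifs <;> ring
  · rw [single_mul_single_of_ne _ _ _ _ e, cf, if_neg e]
    ext a b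
    simp only [Matrix.add_apply, single_apply, Matrix.zero_apply]
    split_ifs <;> ring

/-- Root elements: the entry `(i, j)` is `s`. -/
def ur (h : Rt i j) (s : F) : Ort (Jr n F) := ⟨⟨um i j s, um_det h s⟩, um_mem h s⟩

theorem D_ur (h : Rt i j) (s : F) (a b : Ix n) : D (ur h s) a b =
    (if i = a ∧ j = b then s else 0) + (if j.rev = a ∧ i.rev = b then -s else 0) +
      if i = a ∧ i.rev = b then cf F j * s ^ 2 else 0 := by
  change um i j s a b - _ = _
  simp only [um, Matrix.add_apply, single_apply]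
  ring

/-- The positions of a root. -/
def Pos (i j a b : Ix n) : Prop :=
  (i = a ∧ j = b) ∨ (j.rev = a ∧ i.rev = b) ∨ (j = j.rev ∧ i = a ∧ i.rev = b)

theorem D_ur_self (h : Rt i j) (s : F) : D (ur h s) i j = s := by
  rw [D_ur, if_pos ⟨rfl, rfl⟩, if_neg fun e => h.2.2 e.2.symm, if_neg fun e => h.2.2 e.2.symm,
    add_zero, add_zero]

theorem D_ur_dual (h : Rt i j) (s : F) : D (ur h s) j.rev i.rev = -s := by
  have e : i ≠ j.rev := fun e => h.2.2 (by rw [e, Fin.rev_rev])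
  rw [D_ur, if_neg fun q => e q.1, if_pos ⟨rfl, rfl⟩, if_neg fun q => e q.1, add_zero, zero_add]

theorem D_ur_sq (h : Rt i j) (s : F) : D (ur h s) i i.rev = cf F j * s ^ 2 := by
  have e : j.rev ≠ i := fun e => h.2.2 (by rw [← e, Fin.rev_rev])
  rw [D_ur, if_neg fun q => h.2.2 q.2, if_neg fun q => e q.1, if_pos ⟨rfl, rfl⟩, add_zero, zero_add]

theorem ur_sup (h : Rt i j) (s : F) : Sup (ur h s) (Pos i j) := fun a b e => by
  simp only [Pos, not_or] at e
  rw [D_ur, if_neg e.1, if_neg e.2.1, add_zero, zero_add]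
  split_ifs with q
  · rw [cf, if_neg fun r => e.2.2 ⟨r, q⟩, zero_mul]
  · rfl

theorem ur_zero (h : Rt i j) : ur h (0 : F) = 1 := D_ext fun a b => by simp [D_ur, D_one]

theorem eq_ur' (h : Rt i j) (g : Ort (Jr n F))
    (e : ∀ a b, ¬ (i = a ∧ j = b) → ¬ (j.rev = a ∧ i.rev = b) → ¬ (i = a ∧ i.rev = b) →
      D g a b = 0) : g = ur h (D g i j) := by
  have s : Sup g fun a b => (i = a ∧ j = b) ∨ (j.rev = a ∧ i.rev = b) ∨ (i = a ∧ i.rev = b) :=
    fun a b q => e a b (fun r => q (.inl r)) (fun r => q (.inr (.inl r))) fun r => q (.inr (.inr r))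
  have d1 : D g j.rev i.rev = -D g i j := s.dual fun m => by
    simp only [Rt, ne_eq, Fin.ext_iff, Fin.val_rev] at *
    omega
  have d2 := s.rel1 (i := i) (j := i.rev) j.rev fun m => by
    simp only [Rt, ne_eq, Fin.ext_iff, Fin.val_rev] at *
    omega
  rw [Fin.rev_rev, Fin.rev_rev] at d2
  refine D_ext fun a b => ?_
  by_cases h1 : i = a ∧ j = b
  · rw [← h1.1, ← h1.2, D_ur_self]
  by_cases h2 : j.rev = a ∧ i.rev = b
  · rw [← h2.1, ← h2.2, D_ur_dual, d1]
  by_cases h3 : i = a ∧ i.rev = b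
  · rw [← h3.1, ← h3.2, D_ur_sq, cf]
    split_ifs with q
    · rw [← q] at d1 d2
      rw [d1] at d2
      linear_combination d2 / 2
    · rw [e j i.rev (fun r => h.1 r.1) (fun r => q r.1.symm) fun r => h.1 r.1] at d2
      linear_combination d2 / 2
  · rw [e a b h1 h2 h3, D_ur, if_neg h1, if_neg h2, if_neg h3, add_zero, add_zero]

theorem eq_ur (h : Rt i j) {g : Ort (Jr n F)} (e : Sup g (Pos i j)) : g = ur h (D g i j) :=
  D_ext fun a b => by
    by_cases q : Pos i j a b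
    · refine congrArg (D · a b) (eq_ur' h g fun a b h1 h2 h3 => e a b ?_)
      rintro (r | r | r)
      exacts [h1 r, h2 r, h3 r.2]
    · rw [e a b q, ur_sup h _ a b q]

omit [CharZero F] in
theorem RootEl.rt {g : Mx n F} (h : RootEl i j g) : Rt i j := ⟨h.1, h.2.1, h.2.2.1⟩

theorem RootEl.eq_ur {g : Ort (Jr n F)} (h : RootEl i j g.1.1) : g = ur h.rt (D g i j) :=
  eq_ur' h.rt g fun a b h1 h2 h3 => sub_eq_zero.2 (h.2.2.2 a b (fun r => h1 ⟨r.1.symm, r.2.symm⟩)
    (fun r => h2 ⟨r.1.symm, r.2.symm⟩) fun r => h3 ⟨r.1.symm, r.2.symm⟩)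

theorem ur_add (h : Rt i j) (s t : F) : ur h (s + t) = ur h s * ur h t := by
  have e : D (ur h s * ur h t) i j = s + t := by
    rw [(ur_sup h s).add (ur_sup h t) fun m => by
      simp only [Pos, Rt, ne_eq, Fin.ext_iff, Fin.val_rev] at *
      omega, D_ur_self, D_ur_self]
  rw [← e]
  refine (eq_ur h fun a b q => ?_).symm
  rw [(ur_sup h s).add (ur_sup h t) fun m => by
    have k := h
    simp only [Pos, Rt, ne_eq, Fin.ext_iff, Fin.val_rev] at k q ⊢
    omega, ur_sup h s a b q, ur_sup h t a b q, add_zero]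

theorem ur_inv (h : Rt i j) (s : F) : (ur h s)⁻¹ = ur h (-s) :=
  inv_eq_of_mul_eq_one_right (by rw [← ur_add, add_neg_cancel, ur_zero])

theorem ur_dual (h : Rt i j) (e : j ≠ j.rev) (s : F) : ur (h.dual e) s = ur h (-s) := by
  have d := D_ur_dual (h.dual e) s
  rw [Fin.rev_rev, Fin.rev_rev] at d
  rw [← d]
  refine eq_ur h fun a b q => ur_sup _ s a b fun r => q ?_
  have k := h
  simp only [Pos, Fin.rev_rev] at r ⊢
  simp only [Rt, ne_eq, Fin.ext_iff, Fin.val_rev] at k e r ⊢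
  omega

end ring

variable {p : ℕ} [Fact p.Prime] {i j : Ix n}

theorem pne : (p : ℚ_[p]) ≠ 0 := Nat.cast_ne_zero.2 (Fact.out : p.Prime).ne_zero

theorem p1 : (1 : ℝ) < p := Nat.one_lt_cast.2 (Fact.out : p.Prime).one_lt

theorem n_two (hp : p ≠ 2) : ‖(2 : ℚ_[p])‖ = 1 := by
  have := (Padic.norm_natCast_eq_one_iff (p := p) (n := 2)).2
    ((Nat.coprime_primes Fact.out Nat.prime_two).2 hp)
  simpa using this

theorem norm_cf (hp : p ≠ 2) (j : Ix n) : ‖cf ℚ_[p] j‖ ≤ 1 := by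
  rw [cf]
  split_ifs <;> simp [n_two hp]

theorem D_cont (i j : Ix n) : Continuous fun g : HQ n p => D g i j :=
  (Bow.cont i j).comp continuous_subtype_val

theorem ur_cont (h : Rt i j) : Continuous fun s : ℚ_[p] => ur h s := by
  refine Continuous.subtype_mk (Continuous.subtype_mk (f := fun s : ℚ_[p] => um i j s) ?_ _) _
  refine continuous_matrix fun a b => ?_
  simp only [um, Matrix.add_apply, single_apply]
  split_ifs <;> fun_prop

/-- The weight of an entry. -/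
def wt (k : Ix n → ℤ) (i j : Ix n) : ℤ := (k i - k i.rev) - (k j - k j.rev)

theorem wt_add (k : Ix n → ℤ) (i m j : Ix n) : wt k i j = wt k i m + wt k m j := by
  simp only [wt]
  ring

theorem wt_dual (k : Ix n → ℤ) (i j : Ix n) : wt k j.rev i.rev = wt k i j := by
  simp only [wt, Fin.rev_rev]
  ring

theorem wt_smul (l : ℤ) (k : Ix n → ℤ) (i j : Ix n) : wt (l • k) i j = l * wt k i j := by
  simp only [wt, Pi.smul_apply, smul_eq_mul]
  ring

theorem dg_add (k k' : Ix n → ℤ) : dg p (k + k') = dg p k * dg p k' := by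
  refine Subtype.ext (Subtype.ext ?_)
  change Matrix.diagonal _ = Matrix.diagonal _ * Matrix.diagonal _
  rw [diagonal_mul_diagonal]
  refine congrArg _ (funext fun i => ?_)
  rw [← zpow_add₀ pne, Pi.add_apply, Pi.add_apply]
  congr 1
  ring

theorem dg_zpow (k : Ix n → ℤ) (l : ℤ) : dg p k ^ l = dg p (l • k) :=
  (map_zpow (MonoidHom.mk' (M := Multiplicative (Ix n → ℤ)) (fun k => dg p k.toAdd)
    fun k k' => dg_add k.toAdd k'.toAdd) (Multiplicative.ofAdd k) l).symm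

theorem dg_pow (k : Ix n → ℤ) (l : ℕ) : dg p k ^ l = dg p ((l : ℤ) • k) := by
  rw [← dg_zpow, zpow_natCast]

theorem dg_inv (k : Ix n → ℤ) : (dg p k)⁻¹ = dg p ((-1 : ℤ) • k) := by
  rw [← dg_zpow, _root_.zpow_neg_one]

theorem D_conj (k : Ix n → ℤ) (g : HQ n p) (i j : Ix n) :
    D (dg p k * g * (dg p k)⁻¹) i j = (p : ℚ_[p]) ^ wt k i j * D g i j := by
  have e : ((dg p k * g * (dg p k)⁻¹).1.1 * (dg p k).1.1) i j = ((dg p k).1.1 * g.1.1) i j :=
    congrArg (fun g : HQ n p => g.1.1 i j) (inv_mul_cancel_right (dg p k * g) (dg p k))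
  have e' : (dg p k).1.1 = Matrix.diagonal fun i => (p : ℚ_[p]) ^ (k i - k i.rev) := rfl
  rw [e', mul_diagonal, diagonal_mul] at e
  have e2 : (dg p k * g * (dg p k)⁻¹).1.1 i j = (p : ℚ_[p]) ^ wt k i j * g.1.1 i j := by
    rw [wt, zpow_sub₀ pne, div_mul_eq_mul_div, eq_div_iff (zpow_ne_zero _ pne)]
    exact e
  rw [D, D, e2, mul_sub, one_apply]
  split_ifs with h
  · simp [h, wt]
  · simp

theorem norm_conj (k : Ix n → ℤ) (g : HQ n p) (i j : Ix n) :
    ‖D (dg p k * g * (dg p k)⁻¹) i j‖ = (p : ℝ) ^ (-wt k i j) * ‖D g i j‖ := by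
  rw [D_conj, norm_mul, Padic.norm_p_zpow]

theorem wt_self (k : Ix n → ℤ) (i : Ix n) : wt k i i = 0 := sub_self _

theorem wt_sq (k : Ix n → ℤ) (i : Ix n) (e : j = j.rev) : wt k i i.rev = 2 * wt k i j := by
  simp only [wt, Fin.rev_rev, ← e]
  ring

theorem wt_pos (k : Ix n → ℤ) {a b : Ix n} (q : Pos i j a b) :
    wt k a b = wt k i j ∨ wt k a b = 2 * wt k i j := by
  rcases q with ⟨rfl, rfl⟩ | ⟨rfl, rfl⟩ | ⟨e, rfl, rfl⟩
  exacts [.inl rfl, .inl (wt_dual _ _ _), .inr (wt_sq _ _ e)]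

theorem Sup.conj {S : Ix n → Ix n → Prop} {g : HQ n p} (hg : Sup g S) (k : Ix n → ℤ) :
    Sup (dg p k * g * (dg p k)⁻¹) S := fun a b e => by rw [D_conj, hg a b e, mul_zero]

theorem dg_ur (k : Ix n → ℤ) (h : Rt i j) (s : ℚ_[p]) :
    dg p k * ur h s * (dg p k)⁻¹ = ur h ((p : ℚ_[p]) ^ wt k i j * s) := by
  rw [eq_ur h ((ur_sup h s).conj k), D_conj, D_ur_self]

theorem dg_comm (k : Ix n → ℤ) (h : Rt i j) (e : wt k i j = 0) (s : ℚ_[p]) :
    dg p k * ur h s = ur h s * dg p k := by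
  have := dg_ur k h s
  rw [e, zpow_zero, one_mul] at this
  exact mul_inv_eq_iff_eq_mul.1 this

/-- The integral points of a root group. -/
def U (p : ℕ) [Fact p.Prime] (h : Rt i j) : Subgroup (HQ n p) where
  carrier := {u | ∃ s : ℚ_[p], ‖s‖ ≤ 1 ∧ u = ur h s}
  one_mem' := ⟨0, by simp, (ur_zero h).symm⟩
  mul_mem' := by
    rintro _ _ ⟨s, hs, rfl⟩ ⟨t, ht, rfl⟩
    exact ⟨s + t, EK.nadd hs ht, (ur_add h s t).symm⟩
  inv_mem' := by
    rintro _ ⟨s, hs, rfl⟩
    exact ⟨-s, EK.nneg hs, ur_inv h s⟩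

theorem U_cpt (h : Rt i j) : IsCompact (U p h : Set (HQ n p)) := EK.cpt (ur_cont h) fun _ => Iff.rfl

theorem U_unit (h : Rt i j) {c : ℚ_[p]} (hc : ‖c‖ = 1) (g : HQ n p) :
    g ∈ U p h ↔ ∃ s : ℚ_[p], ‖s‖ ≤ 1 ∧ g = ur h (c * s) := by
  have c0 : c ≠ 0 := norm_ne_zero_iff.1 (hc ▸ one_ne_zero)
  constructor
  · rintro ⟨s, hs, rfl⟩
    exact ⟨s / c, by rwa [norm_div, hc, div_one], by rw [mul_div_cancel₀ _ c0]⟩
  · rintro ⟨s, hs, rfl⟩
    exact ⟨_, by rwa [norm_mul, hc, one_mul], rfl⟩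

theorem U_dual (h : Rt i j) (e : j ≠ j.rev) : U p (h.dual e) = U p h := by
  ext g
  rw [U_unit h (c := -1) (by simp)]
  simp only [neg_one_mul, ← ur_dual h e]
  rfl

/-- Admissible radii. -/
def Rad (r : Ix n → Ix n → ℝ) : Prop := (∀ i j, 0 ≤ r i j) ∧ ∀ i k j, r i k * r k j ≤ r i j

/-- The elements with bounded entries. -/
def GS (p : ℕ) [Fact p.Prime] (r : Ix n → Ix n → ℝ) : Set (HQ n p) := {g | ∀ i j, ‖D g i j‖ ≤ r i j}

theorem GS_cpt (r : Ix n → Ix n → ℝ) : IsCompact (GS p r) :=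
  (ortClosed (Jr n ℚ_[p])).isClosedEmbedding_subtypeVal.isCompact_preimage (Bow.cpt r)

theorem GS_opn {r : Ix n → Ix n → ℝ} (h : ∀ i j, 0 < r i j) : IsOpen (GS p r) :=
  (Bow.opn h).preimage continuous_subtype_val

/-- The group defined by admissible radii. -/
def Gr (p : ℕ) [Fact p.Prime] {r : Ix n → Ix n → ℝ} (h : Rad r) : Subgroup (HQ n p) :=
  (Bow.sub_ex (p := p) h.1 h.2).choose.subgroupOf _

theorem mem_Gr {r : Ix n → Ix n → ℝ} (h : Rad r) (g : HQ n p) :
    g ∈ Gr p h ↔ ∀ i j, ‖D g i j‖ ≤ r i j := by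
  rw [Gr, Subgroup.mem_subgroupOf, ← SetLike.mem_coe, (Bow.sub_ex (p := p) h.1 h.2).choose_spec]
  rfl

theorem coe_Gr {r : Ix n → Ix n → ℝ} (h : Rad r) : (Gr p h : Set (HQ n p)) = GS p r :=
  Set.ext (mem_Gr h)

theorem intg_iff (g : HQ n p) : Intg g ↔ ∀ i j, ‖D g i j‖ ≤ 1 := by
  refine ⟨fun h i j => Bow.sub_le (h i j) ?_, fun h i j => Bow.int_le (h i j)⟩
  rw [one_apply]
  split_ifs <;> simp

theorem ur_GS (hp : p ≠ 2) (h : Rt i j) {s : ℚ_[p]} {r : Ix n → Ix n → ℝ} (h0 : ∀ i j, 0 ≤ r i j)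
    (h1 : ‖s‖ ≤ r i j) (h2 : ‖s‖ ≤ r j.rev i.rev) (h3 : j = j.rev → ‖s‖ ^ 2 ≤ r i i.rev) :
    ur h s ∈ GS p r := fun a b => by
  by_cases q : Pos i j a b
  · rcases q with ⟨rfl, rfl⟩ | ⟨rfl, rfl⟩ | ⟨e, rfl, rfl⟩
    · rwa [D_ur_self]
    · rwa [D_ur_dual, norm_neg]
    · rw [D_ur_sq, norm_mul, norm_pow]
      exact (mul_le_of_le_one_left (by positivity) (norm_cf hp j)).trans (h3 e)
  · rw [ur_sup h s a b q, norm_zero]
    exact h0 a b

/-- Sets of positions which are closed under composition. -/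
def Tr (S : Ix n → Ix n → Prop) : Prop := ∀ a b c, S a b → S b c → S a c

open Classical in
theorem rad_S {S : Ix n → Ix n → Prop} (h : Tr S) : Rad fun i j => if S i j then 1 else 0 := by
  refine ⟨fun i j => by dsimp only; split_ifs <;> simp, fun i m j => ?_⟩
  have := h i m j
  dsimp only
  split_ifs <;> first | tauto | simp

/-- The integral elements with `g - 1` supported on a set of positions. -/
def NS (p : ℕ) [Fact p.Prime] {S : Ix n → Ix n → Prop} (h : Tr S) : Subgroup (HQ n p) :=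
  Gr p (rad_S h)

theorem mem_NS {S : Ix n → Ix n → Prop} (h : Tr S) (g : HQ n p) :
    g ∈ NS p h ↔ (∀ i j, ‖D g i j‖ ≤ 1) ∧ Sup g S := by
  rw [NS, mem_Gr]
  constructor
  · intro h
    refine ⟨fun i j => (h i j).trans ?_, fun i j e => norm_le_zero_iff.1 ?_⟩
    · split_ifs <;> simp
    · simpa [e] using h i j
  · intro h i j
    split_ifs with e
    · exact h.1 i j
    · simp [h.2 i j e]

theorem NS_cpt {S : Ix n → Ix n → Prop} (h : Tr S) : IsCompact (NS p h : Set (HQ n p)) := by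
  rw [NS, coe_Gr]
  exact GS_cpt _

theorem ur_int (hp : p ≠ 2) (h : Rt i j) {s : ℚ_[p]} (hs : ‖s‖ ≤ 1) (a b : Ix n) :
    ‖D (ur h s) a b‖ ≤ 1 :=
  ur_GS (r := fun _ _ => 1) hp h (fun _ _ => zero_le_one) hs hs
    (fun _ => pow_le_one₀ (norm_nonneg _) hs) a b

theorem ur_NS (hp : p ≠ 2) {S : Ix n → Ix n → Prop} (hS : Tr S) (h : Rt i j)
    (e : ∀ a b, Pos i j a b → S a b) {s : ℚ_[p]} (hs : ‖s‖ ≤ 1) : ur h s ∈ NS p hS :=
  (mem_NS hS _).2 ⟨ur_int hp h hs, fun a b q => ur_sup h s a b fun r => q (e a b r)⟩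

theorem NS_sub {S S' : Ix n → Ix n → Prop} {h : Tr S} (h' : Tr S') {g : HQ n p} (hg : g ∈ NS p h)
    (e : ∀ i j, S i j → ¬ S' i j → D g i j = 0) : g ∈ NS p h' := by
  rw [mem_NS] at hg ⊢
  refine ⟨hg.1, fun i j r => ?_⟩
  by_cases q : S i j
  exacts [e i j q r, hg.2 i j q]

theorem tr_wt (k : Ix n → ℤ) {c : ℤ} (hc : 0 ≤ c) : Tr fun i j => c < wt k i j := fun a b d h1 h2 => by
  have := wt_add k a b d
  omega

/-- The integral points of the unipotent group contracted by `dg k`. -/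
def N (p : ℕ) [Fact p.Prime] (k : Ix n → ℤ) : Subgroup (HQ n p) := NS p (tr_wt k le_rfl)

theorem mem_N (k : Ix n → ℤ) (g : HQ n p) :
    g ∈ N p k ↔ (∀ i j, ‖D g i j‖ ≤ 1) ∧ ∀ i j, ¬ 0 < wt k i j → D g i j = 0 := mem_NS _ g

theorem N_cpt (k : Ix n → ℤ) : IsCompact (N p k : Set (HQ n p)) := NS_cpt _

theorem ur_N (hp : p ≠ 2) {k : Ix n → ℤ} (h : Rt i j) (e : 0 < wt k i j) {s : ℚ_[p]}
    (hs : ‖s‖ ≤ 1) : ur h s ∈ N p k :=
  ur_NS hp _ h (fun a b q => by have := wt_pos k q; omega) hs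

theorem N_sub {S : Ix n → Ix n → Prop} {h : Tr S} {k : Ix n → ℤ} {g : HQ n p} (hg : g ∈ NS p h)
    (e : ∀ i j, S i j → ¬ 0 < wt k i j → D g i j = 0) : g ∈ N p k := NS_sub _ hg e

/-- The part of level at least two. -/
def V (p : ℕ) [Fact p.Prime] (k : Ix n → ℤ) : Subgroup (HQ n p) := NS p (tr_wt k zero_le_one)

theorem mem_V (k : Ix n → ℤ) (g : HQ n p) :
    g ∈ V p k ↔ (∀ i j, ‖D g i j‖ ≤ 1) ∧ ∀ i j, ¬ 1 < wt k i j → D g i j = 0 := mem_NS _ g

theorem V_cpt (k : Ix n → ℤ) : IsCompact (V p k : Set (HQ n p)) := NS_cpt _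

theorem V_N (k : Ix n → ℤ) : V p k ≤ N p k := fun _ hg => N_sub hg fun _ _ a b => by omega

theorem contr (k : Ix n → ℤ) {V : Set (HQ n p)} (hV : V ⊆ N p k) :
    ∀ O ∈ 𝓝 (1 : HQ n p), ∀ᶠ l : ℕ in atTop, ∀ w ∈ V, dg p k ^ l * w * (dg p k ^ l)⁻¹ ∈ O := by
  intro O hO
  obtain ⟨O', h1, h2⟩ := (mem_nhds_induced _ _ _).1 hO
  obtain ⟨ε, h0, hε⟩ := Sec.nhds_one (n := 2 * n) h1
  have hp := p1 (p := p)
  filter_upwards [(tendsto_pow_atTop_nhds_zero_of_lt_one (inv_nonneg.2 (zero_lt_one.trans hp).le)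
    (inv_lt_one_of_one_lt₀ hp)).eventually (gt_mem_nhds h0)] with m hm w hw
  refine h2 (hε _ fun i j => ?_)
  change ‖D _ i j‖ < ε
  obtain ⟨a, b⟩ := (mem_N k w).1 (hV hw)
  rw [dg_pow, norm_conj, wt_smul]
  by_cases e : 0 < wt k i j
  · refine lt_of_le_of_lt ?_ hm
    rw [inv_pow, ← zpow_natCast, ← _root_.zpow_neg]
    refine (mul_le_of_le_one_right (by positivity) (a i j)).trans (zpow_le_zpow_right₀ hp.le ?_)
    nlinarith [Int.natCast_nonneg m]
  · rwa [b i j e, norm_zero, mul_zero]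

/-- The weight attached to a set of indices. -/
def kJ (J : Finset (Ix n)) (i : Ix n) : ℤ := if i ∈ J then 1 else 0

end Pool.Agent.Lib.MP_9177b7_ag.SO
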