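import Pool.Agent.Lib.MP_9177b7_ag.SO.StC
import Pool.Agent.Lib.MP_9177b7_ag.SO.Rel
import Pool.Agent.Lib.MP_9177b7_ag.SO.Equi
import Pool.Agent.Lib.MP_9177b7_ag.SO.Disc
import Pool.Agent.Lib.MP_9177b7_ag.B.Meas

/-!
The measure attached to a CM datum.
-/

open NumberField Matrix MeasureTheory Filter Topology
open scoped nonZeroDivisors ENNReal BoundedContinuousFunction

noncomputable section

namespace Pool.Agent.Lib.MP_9177b7_ag.SO

namespace Meas

variable {n p : ℕ} [Fact p.Prime]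

theorem dg_mem (T : Subgroup (HQ n p)) (h : ∀ i, dg p (Pi.single i 1) ∈ T) (k : Ix n → ℤ) :
    dg p k ∈ T := by
  let A : AddSubgroup (Ix n → ℤ) :=
    { carrier := {k | dg p k ∈ T}
      zero_mem' := by
        have := dg_zpow (n := n) (p := p) 0 0
        rw [zpow_zero, zero_smul] at this
        exact (this ▸ T.one_mem : dg p 0 ∈ T)
      add_mem' := fun {k k'} e e' => by
        have := T.mul_mem e e'
        rwa [← dg_add] at this
      neg_mem' := fun {k} e => by
        have := T.inv_mem e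
        rwa [dg_inv, neg_one_smul] at this }
  have e : k = ∑ r, k r • (Pi.single r 1 : Ix n → ℤ) := by
    funext i
    simp [Finset.sum_apply, Pi.single_apply]
  have : k ∈ A := by
    rw [e]
    exact A.sum_mem fun r _ => A.zsmul_mem (h r) _
  exact this

theorem comm {g h : HQ n p} (a : ∀ i j, i ≠ j → g.1.1 i j = 0) (b : ∀ i j, i ≠ j → h.1.1 i j = 0) :
    g * h = h * g := by
  refine Subtype.ext (Subtype.ext ?_)
  change g.1.1 * h.1.1 = h.1.1 * g.1.1
  rw [← IsDiag.diagonal_diag (A := g.1.1) a, ← IsDiag.diagonal_diag (A := h.1.1) b]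
  exact commute_diagonal _ _

theorem pt_eq {c : Ctx n p} {D : Dat c} {f : D.Fr} {v w : Per c.A} (a : f.IsPt v) (b : f.IsPt w) :
    v = w := by
  have d : (Am c.A ℂ).det ≠ 0 := by
    rw [show (Am c.A ℂ).det = (c.A.det : ℂ) from (Int.cast_det c.A).symm, Int.cast_ne_zero]
    exact fun h => c.pd (h ▸ dvd_zero _)
  refine Subtype.ext (sub_eq_zero.1 (eq_zero_of_mulVec_eq_zero d ?_))
  rw [mulVec_sub, a, b, sub_self]

end Meas

open Meas B.Meas in
theorem meas (hO : OrbStmt) (hL : LiftStmt) (hM : MoveStmt) (hJ : ProjStmt) (hT : TubeStmt) :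
    MeasStmt := by
  intro n p _ c π hπ
  classical
  have := Disc.discGp c
  have : PolishSpace c.XX := J.pol _ _
  obtain ⟨⟨M, hM0, hMc, hMd, hMe⟩, C, L2⟩ := hL n p c
  refine ⟨C, fun D S => ?_⟩
  obtain ⟨μ, hμ, h1, h2⟩ := B.Cond.exists_haar M (hM0 ▸ hMc)
  have hmem : ∀ g, g ∈ M ↔ g ∈ c.M0 := fun g => by rw [← hM0]; rfl
  simp only [hmem] at h1 h2
  choose g hg using fun x => (L2 D (S.f x)).1
  choose v z hv hz using fun x => (hg x).2.2
  obtain ⟨O1, O2⟩ := hO n p c D S v hv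
  refine ⟨avg c.Gp μ g, avg_prob _ _ _, fun h hh => ?_, O1, fun f => ?_,
    fun I c₀ k R K₀ hI => ?_⟩
  · let T := (Equi.stab (fun g : c.GG => (continuous_const_smul g).measurable)
      (avg c.Gp μ g)).comap (MonoidHom.inl (HQ n p) (GR c.A))
    obtain ⟨k, hk⟩ := hMe h hh
    have t1 : dg p k ∈ T := dg_mem T (fun i => by
      obtain ⟨y, hy⟩ := hM n p c D i
      refine avg_move (d := ((dg p _, 1) : c.GG)) (· * y) (mul_left_injective y) fun x => ?_
      obtain ⟨m, hm, γ, hγ, e⟩ := hy (S.f x) (S.f (x * y)) _ _ (by rw [S.hb, S.hb]) (hg x)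
        (hg (x * y))
      exact orb_move h1 h2 (fun m hm => hMd m hm _) hm hγ e) k
    have t2 : (dg p k)⁻¹ * h ∈ T :=
      avg_move (d := (((dg p k)⁻¹ * h, 1) : c.GG)) id Function.injective_id fun x =>
        orb_move h1 h2 (fun m hm => Prod.ext (comm hm.2.1 hk.2.1)
          ((mul_one _).trans (one_mul _).symm)) hk (one_mem _) (mul_one _).symm
    have t3 := T.mul_mem t1 t2
    rw [mul_inv_cancel_left] at t3
    exact t3
  · obtain ⟨-, hpr, J3⟩ := hJ n p c
    have := avg_int h1 g (f.compContinuous ⟨fun x => proj c.v₀ (π x), hpr.comp hπ.cont⟩)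
      (fun x => f (Quot.mk _ (v x))) fun x m hm => by
        obtain ⟨l1, -, w, y, l2, l3⟩ := ((L2 D _).2 _ (hg x)).1 m hm
        change f (proj c.v₀ (π _)) = _
        rw [hπ.mk' _ l1, J3 _ w y l3, pt_eq l2 (hv x)]
    exact (O2 f).trans this.symm
  · obtain ⟨T1, T2⟩ := (hT n p c).1 I c₀ k R K₀
    refine (avg_le h1 g T1 (Finset.univ.filter fun x => (S.f x).Ev I c₀ k (C * R ^ 2) K₀)
      fun x m hm hy => ?_).trans (le_of_eq ?_)
    · have l := ((L2 D _).2 _ (hg x)).1 m hm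
      simpa using ((L2 D _).2 _ l).2 I c₀ k R K₀ hI ((T2 _).1 hy)
    · rw [Dat.pr, ENNReal.ofReal_div_of_pos (Nat.cast_pos.2 Fintype.card_pos),
        ENNReal.ofReal_natCast, ENNReal.ofReal_natCast, mul_comm, ← div_eq_mul_inv]

end Pool.Agent.Lib.MP_9177b7_ag.SO
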