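import Pool.Agent.Lib.MP_9177b7_ag.SO.StC

/-!
Moving a frame by a prime above `p`.
-/

open NumberField Matrix
open scoped nonZeroDivisors

noncomputable section

namespace Pool.Agent.Lib.MP_9177b7_ag.SO

open B (Pp)

namespace Move

variable {n p : ℕ} [Fact p.Prime] {c : Ctx n p}

theorem rev_eq {i : Ix n} : i.rev = i ↔ i = cn n := by
  rw [Fin.ext_iff, Fin.ext_iff, Fin.val_rev]
  have := i.2
  simp only [cn]
  omega

theorem rev_ne {i : Ix n} (h : i ≠ cn n) : i.rev ≠ cn n := fun k =>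
  h (by rw [← Fin.rev_rev i, k]; exact rev_eq.2 rfl)

theorem int_mul {X Y : Mx n ℚ_[p]} (hX : ∀ i j, ‖X i j‖ ≤ 1) (hY : ∀ i j, ‖Y i j‖ ≤ 1) (i j : Ix n) :
    ‖(X * Y) i j‖ ≤ 1 := by
  rw [mul_apply, ← PadicInt.mem_subring_iff]
  exact sum_mem fun l _ => mul_mem (hX i l) (hY l j)

theorem row_one (hD : DiscStmt) (c : Ctx n p) {g : HQ n p} (hg : Intg g) (r : Ix n) :
    ∃ k, 1 ≤ ‖(g.1.1 * c.g₀) r k‖ := by
  have hi := (hD n p c).2.2.2.2.2.2.1 g hg
  have e : g.1.1 * c.g₀ * (c.g₁ * g⁻¹.1.1) = 1 := by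
    rw [mul_assoc, ← mul_assoc c.g₀, c.inv, one_mul]
    exact congrArg (fun x : HQ n p => x.1.1) (mul_inv_cancel g)
  obtain ⟨k, -, hk⟩ := IsUltrametricDist.exists_norm_finsetSum_le_of_nonempty
    Finset.univ_nonempty fun k => (g.1.1 * c.g₀) r k * (c.g₁ * g⁻¹.1.1) k r
  rw [← mul_apply, e, one_apply_eq, norm_one, norm_mul] at hk
  exact ⟨k, hk.trans (mul_le_of_le_one_right (norm_nonneg _) (int_mul c.int₁ hi k r))⟩

theorem act_mul {A : Mx n ℤ} (g h : GR A) (v : Per A) : act g (act h v) = act (g * h) v := by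
  refine Subtype.ext ?_
  change g.1.1.map Complex.ofRealHom *ᵥ h.1.1.map Complex.ofRealHom *ᵥ v.1 =
    (g.1.1 * h.1.1).map Complex.ofRealHom *ᵥ v.1
  rw [mulVec_mulVec, Matrix.map_mul]

theorem act_one {A : Mx n ℤ} (v : Per A) : act 1 v = v := by
  refine Subtype.ext ?_
  change (1 : Mx n ℝ).map Complex.ofRealHom *ᵥ v.1 = v.1
  rw [Matrix.map_one _ (map_zero _) (map_one _), one_mulVec]

/-- The exponents of the diagonal element. -/
abbrev ex (i r : Ix n) : ℤ := (Pi.single i 1 : Ix n → ℤ) r - (Pi.single i 1 : Ix n → ℤ) r.rev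

theorem prime (hP : B.PadStmt) (D : Dat c) (i : Ix n) :
    ∃ P : (Ideal (𝓞 D.E))⁰, (p : 𝓞 D.E) ∈ P.1 ∧ ∀ r, r ≠ cn n → ∃ u ∈ D.cI P, D.ψ r u ≠ 0 ∧
      ∀ x ∈ P.1, ‖(p : ℚ_[p]) ^ ex i r * D.ψ r x‖ ≤ ‖D.ψ r u‖ := by
  have p0 : (p : ℚ_[p]) ≠ 0 := Nat.cast_ne_zero.2 (Fact.out : p.Prime).ne_zero
  have hI := fun r => ((hP D.E p).1 (D.ψ r)).1
  by_cases hi : i = cn n
  · refine ⟨1, by simp, fun r hr => ⟨1, by simp [Ideal.map_top], by simp, fun x _ => ?_⟩⟩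
    rw [hi, ex, Pi.single_eq_of_ne hr, Pi.single_eq_of_ne (rev_ne hr)]
    simpa using hI r x
  have pm : ∀ j, (p : 𝓞 D.E) ∈ Pp (D.ψ j) := fun j => by
    change ‖D.ψ j ((p : 𝓞 D.E) : D.E)‖ < 1
    rw [RingOfIntegers.coe_eq_algebraMap, map_natCast, map_natCast]
    exact Padic.norm_p_lt_one
  have ne : ∀ j, Pp (D.ψ j) ≠ ⊥ := fun j h =>
    Nat.cast_ne_zero.2 (Fact.out : p.Prime).ne_zero (Ideal.mem_bot.1 (h ▸ pm j))
  have cm : ∀ u ∈ Pp (D.ψ i), u ∈ D.cI (Pp (D.ψ i.rev)) := fun u hu => by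
    have : IsCMField.ringOfIntegersComplexConj D.E u ∈ Pp (D.ψ i.rev) := by
      change ‖D.ψ i.rev (IsCMField.complexConj D.E u)‖ < 1
      rw [D.ψ_rev i _ hi, IsCMField.complexConj_apply_apply]
      exact hu
    convert Ideal.mem_map_of_mem (IsCMField.ringOfIntegersComplexConj D.E) this using 1
    exact RingOfIntegers.ext (IsCMField.complexConj_apply_apply D.E _).symm
  refine ⟨⟨Pp (D.ψ i.rev), mem_nonZeroDivisors_of_ne_zero (ne _)⟩, pm _, fun r hr => ?_⟩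
  by_cases h1 : r = i
  · subst h1
    have e : D.ψ r ((p : 𝓞 D.E) : D.E) = p := by
      rw [RingOfIntegers.coe_eq_algebraMap, map_natCast, map_natCast]
    refine ⟨p, cm _ (pm _), e ▸ p0, fun x _ => ?_⟩
    rw [ex, Pi.single_eq_same, Pi.single_eq_of_ne fun h => hi (rev_eq.1 h), sub_zero, zpow_one,
      norm_mul, e]
    exact mul_le_of_le_one_right (norm_nonneg _) (hI r x)
  obtain ⟨-, -, -, -, v, v1, -, -, v4⟩ := (hP D.E p).1 (D.ψ r)
  obtain ⟨y, hy, ny⟩ := (v1 _ (FractionalIdeal.coeIdeal_ne_zero.2 (ne i))).2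
  obtain ⟨u, hu, rfl⟩ := (FractionalIdeal.mem_coeIdeal _).1 hy
  rw [v4 _ fun h => h1 (D.ψ_inj _ _ hi hr h).symm, neg_zero, zpow_zero] at ny
  have ny' : ‖D.ψ r u‖ = 1 := ny
  refine ⟨u, cm u hu, norm_ne_zero_iff.1 (ny' ▸ one_ne_zero), fun x hx => ?_⟩
  rw [ny', ex, Pi.single_eq_of_ne h1, zero_sub, norm_mul, Padic.norm_p_zpow, neg_neg]
  by_cases h2 : r.rev = i
  · subst h2
    rw [Fin.rev_rev] at hx
    have h3 : ‖D.ψ r x‖ ≤ (p : ℝ) ^ (-1 : ℤ) := by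
      rw [Padic.norm_le_pow_iff_norm_lt_pow_add_one]
      exact lt_of_lt_of_eq hx (by simp)
    have pp : (0 : ℝ) < p := Nat.cast_pos.2 (Fact.out : p.Prime).pos
    rw [Pi.single_eq_same, zpow_one, ← le_div_iff₀' pp, one_div, ← _root_.zpow_neg_one]
    exact h3
  · rw [Pi.single_eq_of_ne h2, zpow_zero, one_mul]
    exact hI r x

theorem key {D : Dat c} {P : Ideal (𝓞 D.E)} (hP : (p : 𝓞 D.E) ∈ D.cI P) (a : D.FI) {u : 𝓞 D.E}
    (hu : u ∈ D.cI P) {w : D.E} (hw : w ∈ D.tw a P) : (u : D.E) * w ∈ (P : D.FI) * a := by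
  have h0 : ((D.cI P : Ideal (𝓞 D.E)) : D.FI) ≠ 0 := FractionalIdeal.coeIdeal_ne_zero.2 fun h =>
    Nat.cast_ne_zero.2 (Fact.out : p.Prime).ne_zero (Ideal.mem_bot.1 (h ▸ hP))
  have := FractionalIdeal.mul_mem_mul (FractionalIdeal.mem_coeIdeal_of_mem (𝓞 D.E)⁰ hu) hw
  rwa [Dat.tw, ← mul_assoc, mul_left_comm, mul_inv_cancel₀ h0, mul_one] at this

end Move

open Move in
theorem move (hP : B.PadStmt) (hD : DiscStmt) (hF : FrameStmt) (hS : SameStmt) (hC : ChgStmt) :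
    MoveStmt := by
  intro n p _ c D i
  obtain ⟨P, pP, hu⟩ := prime hP D i
  refine ⟨ClassGroup.mk0 P, fun f f' g g' hcl ⟨gi, ⟨s, gp⟩, v, z₁, hv, gr⟩
    ⟨gi', ⟨s', gp'⟩, v', z₂, hv', gr'⟩ => ?_⟩
  obtain ⟨z, g'', hz, tw, ea, eg⟩ := hS n p c D f f' P hcl
  obtain ⟨M, hM, mx, md, mR, mv⟩ := hC n p c D f f' z hz
  have pC : (p : 𝓞 D.E) ∈ D.cI P := by
    simpa using Ideal.mem_map_of_mem (IsCMField.ringOfIntegersComplexConj D.E) pP
  have ep : ((p : 𝓞 D.E) : D.E) = p := by rw [RingOfIntegers.coe_eq_algebraMap, map_natCast]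
  obtain ⟨M', hM', eM⟩ := mR (J.RM p) fun r k => by
    obtain ⟨m, hm⟩ := md p (fun y t hy => by
      have a1 := FractionalIdeal.mul_mem_mul
        (FractionalIdeal.mem_spanSingleton_self (𝓞 D.E)⁰ z) hy
      rw [ea] at a1
      have a2 := key pC _ pC a1
      have a3 := key pC _ pC eg
      have a4 := tw _ pP
      rw [ep] at a2 a3 a4
      rw [Dat.bar, map_natCast] at a4
      have a5 := Submodule.add_mem _ a2 (zsmul_mem (Submodule.add_mem _ a3 a4) t)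
      have a6 : (P.1 : D.FI) * D.tw D.a f.b ≤ D.tw D.a f.b := by
        simpa only [one_mul] using mul_le_mul_left
          (FractionalIdeal.coeIdeal_le_one (I := P.1) : (P.1 : D.FI) ≤ 1) (D.tw D.a f.b)
      convert a6 a5 using 1
      rw [zsmul_eq_mul]
      push_cast
      ring) r k
    exact ⟨1, m, by rw [pow_one, mul_comm, ← hm, Int.cast_natCast]⟩
  obtain ⟨G, hG, G1, G2⟩ := (hD n p c).2.1 M' M.1 hM' eM hM M.2
  have en : ∀ r k, (g.1.1.1 * c.g₀) r k = s r * f.Ψ r k := fun r k => by rw [gp, diagonal_mul]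
  have en' : ∀ r k, (g'.1.1.1 * c.g₀) r k = s' r * f'.Ψ r k := fun r k => by
    rw [gp', diagonal_mul]
  have s0 : ∀ r, s' r ≠ 0 := fun r h0 => by
    obtain ⟨k, hk⟩ := row_one hD c gi' r
    rw [en', h0, zero_mul, norm_zero] at hk
    exact not_lt.2 hk one_pos
  let ζ : Ix n → ℚ_[p] := fun r => if r = cn n then 1 else D.ψ r z
  have hΨ : f.Ψ * M.1.map (Rat.castHom ℚ_[p]) = diagonal ζ * f'.Ψ := by
    ext r k
    rw [mul_apply, diagonal_mul]
    simp only [Dat.Fr.Ψ, of_apply, map_apply, ζ, eq_ratCast]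
    split_ifs
    · have := congrArg (Rat.castHom ℚ_[p]) (mx k).2
      simp only [map_sum, map_mul, map_intCast, eq_ratCast] at this
      rw [one_mul, this]
      exact Finset.sum_congr rfl fun l _ => mul_comm _ _
    · rw [← map_mul, (mx k).1, map_sum]
      exact Finset.sum_congr rfl fun l _ => by rw [map_mul, map_ratCast, mul_comm]
  let μ : Ix n → ℚ_[p] := fun r => (p : ℚ_[p]) ^ ex i r * s r * ζ r / s' r
  have e1 : (dg p (Pi.single i 1)).1.1 * g.1.1.1 * G.1.1.1 * c.g₀ =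
      diagonal μ * g'.1.1.1 * c.g₀ := by
    rw [mul_assoc, G1, ← mul_assoc, mul_assoc _ _ c.g₀, gp, mul_assoc, mul_assoc, hΨ,
      mul_assoc, gp']
    change diagonal (fun r => (p : ℚ_[p]) ^ ex i r) * _ = _
    simp only [← mul_assoc, diagonal_mul_diagonal]
    congr 2
    funext r
    rw [div_mul_cancel₀ _ (s0 r)]
  have e2 : ((dg p (Pi.single i 1), 1) * g * G * g'⁻¹ : c.GG).1.1.1 = diagonal μ := by
    have i1 : g'.1.1.1 * g'⁻¹.1.1.1 = 1 := congrArg (fun x : c.GG => x.1.1.1) (mul_inv_cancel g')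
    have := congrArg (· * c.g₁) e1
    simp only [mul_assoc _ c.g₀, c.inv, mul_one] at this
    exact (congrArg (· * g'⁻¹.1.1.1) this).trans (by rw [mul_assoc, i1, mul_one])
  have hμ : ∀ r, ‖μ r‖ ≤ 1 := fun r => by
    by_cases hr : r = cn n
    · have a1 : _ᵀ * Jr n ℚ_[p] * _ = Jr n ℚ_[p] :=
        ((dg p (Pi.single i 1), 1) * g * G * g'⁻¹ : c.GG).1.2
      have a2 := congrFun (congrFun a1 r) r
      rw [e2, diagonal_transpose, mul_diagonal, diagonal_mul, Jr, of_apply,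
        if_pos (rev_eq.2 hr).symm, mul_one] at a2
      have a3 := congrArg norm a2
      rw [norm_mul, norm_one] at a3
      nlinarith [norm_nonneg (μ r)]
    obtain ⟨k, hk⟩ := row_one hD c gi' r
    obtain ⟨u, uC, u0, nu⟩ := hu r hr
    obtain ⟨-, -, -, -, -, -, fa, -⟩ := (hF n p c D).2.2.2.2.2.2.2 _ _ _ _ f.fr
    obtain ⟨-, fx, -, -, -, -, fa', -⟩ := (hF n p c D).2.2.2.2.2.2.2 _ _ _ _ f'.fr
    have b1 : ∀ y ∈ (D.Df : D.FI)⁻¹ * D.tw D.a f.b, ‖s r * D.ψ r y‖ ≤ 1 := fun y hy => by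
      obtain ⟨t, ht⟩ := (fa y).1 hy
      obtain ⟨e, rfl, -⟩ := (f.fr.2 y t).1 ht
      rw [map_sum, Finset.mul_sum, ← PadicInt.mem_subring_iff]
      refine sum_mem fun l _ => ?_
      have := int_mul gi c.int₀ r l
      rw [en, Dat.Fr.Ψ, of_apply, if_neg hr] at this
      rw [map_mul, map_intCast, mul_left_comm]
      exact mul_mem (intCast_mem _ _) this
    have b2 : z * f'.x k ∈ D.tw ((D.Df : D.FI)⁻¹ * D.tw D.a f.b) P := by
      have := FractionalIdeal.mul_mem_mul (FractionalIdeal.mem_spanSingleton_self (𝓞 D.E)⁰ z)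
        ((fa' _).2 ⟨_, fx k⟩)
      rwa [mul_left_comm, ea, mul_left_comm] at this
    have b3 : ‖(p : ℚ_[p]) ^ ex i r * s r * D.ψ r (u * (z * f'.x k))‖ ≤ ‖D.ψ r u‖ := by
      refine FractionalIdeal.mul_induction_on
        (C := fun x => ‖(p : ℚ_[p]) ^ ex i r * s r * D.ψ r x‖ ≤ _) (key pC _ uC b2)
        (fun x hx y hy => ?_) fun x y hx hy => ?_
      · obtain ⟨x, hx', rfl⟩ := (FractionalIdeal.mem_coeIdeal _).1 hx
        rw [map_mul, mul_mul_mul_comm, norm_mul]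
        exact (mul_le_of_le_one_right (norm_nonneg _) (b1 y hy)).trans (nu x hx')
      · rw [map_add, mul_add]
        exact (IsUltrametricDist.norm_add_le_max _ _).trans (max_le hx hy)
    rw [map_mul, mul_left_comm, norm_mul, mul_le_iff_le_one_right (norm_pos_iff.2 u0)] at b3
    refine (le_mul_of_one_le_right (norm_nonneg _) hk).trans (le_of_eq_of_le ?_ b3)
    rw [← norm_mul, en', Dat.Fr.Ψ, of_apply, if_neg hr, ← mul_assoc, div_mul_cancel₀ _ (s0 r),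
      map_mul, ← mul_assoc]
    simp only [ζ, if_neg hr]
  refine ⟨(dg p (Pi.single i 1), 1) * g * G * g'⁻¹, ⟨fun r k => ?_, fun r k hk => ?_, ?_⟩,
    G⁻¹, inv_mem hG, by group⟩
  · rw [e2, diagonal_apply]
    split_ifs
    exacts [hμ r, by simp]
  · rw [e2, diagonal_apply_ne _ hk]
  · have a1 : v.1 = (D.φ z * z₂) • (act G.2 (act g'.2⁻¹ c.v₀)).1 := by
      rw [mv v v' hv hv', gr', mulVec_smul, smul_smul]
      congr 2
      rw [G2]
      ext r k
      simp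
    have a2 : D.φ z * z₂ ≠ 0 := fun h => by
      have := v.2.2
      rw [a1, h, zero_smul] at this
      simp at this
    have a3 := congrArg (g.2.1.1.map Complex.ofReal *ᵥ ·) (gr.symm.trans a1)
    simp only [mulVec_smul] at a3
    change z₁ • (act g.2 _).1 = _ • (act g.2 _).1 at a3
    rw [act_mul, act_mul, act_mul, mul_inv_cancel, act_one] at a3
    refine ⟨(D.φ z * z₂)⁻¹ * z₁, ?_⟩
    rw [mul_smul, a3, inv_smul_smul₀ a2]
    simp

end Pool.Agent.Lib.MP_9177b7_ag.SO
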