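import Pool.Agent.Lib.MP_9177b7_ag.SO.Frame

/-!
Twisted lattices are neighbours, hence have frames.
-/

open NumberField Matrix
open scoped nonZeroDivisors

noncomputable section

namespace Pool.Agent.Lib.MP_9177b7_ag.SO

open B (Cyc)

namespace Nbr

open Fr0

variable {E : Type} [Field E] [NumberField E] [IsCMField E] {N : ℕ}
  {A : Matrix (Fin N) (Fin N) ℤ} {lam g g' : E} {a a' : FI E} {x : Fin N → E} {t : Fin N → ℤ}
  {b : Ideal (𝓞 E)} {q : ℕ}

/-- The scaling of the frame. -/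
def dd [NeZero N] (q : ℕ) (k : Fin N) : ℚ := if k = 0 then (q : ℚ)⁻¹ else if k = 1 then q else 1

theorem dd_A [NeZero N] (hA : Lat A) (o : (0 : Fin N) ≠ 1) (q0 : q ≠ 0) (i j : Fin N) :
    dd q i * dd q j * A i j = A i j := by
  have q1 : (q : ℚ) ≠ 0 := Nat.cast_ne_zero.2 q0
  have s : ∀ i j, A i j = A j i := fun i j => (congrFun (congrFun hA.symm i) j).symm
  by_cases i0 : i = 0
  · subst i0
    rw [hA.row₀]
    split_ifs with h <;> simp [dd, h, o.symm, q1]
  by_cases i1 : i = 1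
  · subst i1
    rw [hA.row₁]
    split_ifs with h <;> simp [dd, h, o.symm, q1]
  by_cases j0 : j = 0
  · simp [j0, s i, hA.row₀, i1]
  by_cases j1 : j = 1
  · simp [j1, s i, hA.row₁, i0]
  simp [dd, i0, i1, j0, j1]

omit [NumberField E] [IsCMField E] in
theorem comb (m : ∀ k, x k - t k * g ∈ a) (e : Fin N → ℤ) :
    ∑ i, e i * x i - (∑ i, e i * t i : ℤ) * g ∈ a := by
  have := Submodule.sum_mem (a : Submodule (𝓞 E) E) fun i (_ : i ∈ Finset.univ) =>
    int_mem (e i) (m i)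
  convert (FractionalIdeal.mem_coe.1 this) using 1
  simp only [Int.cast_sum, Int.cast_mul, Finset.sum_mul, mul_sub, Finset.sum_sub_distrib, mul_assoc]

theorem nb [NeZero N] (hA : Lat A) (o : (0 : Fin N) ≠ 1) (h : Frame A lam a g x t) (q0 : q ≠ 0)
    (cop : q.Coprime (2 * A.det.natAbs)) {v : E} {c : Fin N → ℤ} (hv : q * v = ∑ i, c i * x i)
    (ht : ∑ i, c i * t i = 0) (c0 : IsCoprime (c 0) q) (c1 : ∀ i, i ≠ 0 → (q : ℤ) ∣ c i)
    (P1 : v ∈ a') (P2 : ∀ (y : E) (s : ℤ), y - s * g ∈ a → (∃ k : ℤ, tf lam y v = k) →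
      y - s * g' ∈ a')
    (P3 : ∀ (y y' : E) (s s' : ℤ), y - s * g' ∈ a' → y' - s' * g' ∈ a' →
      ∃ k : ℤ, tf lam y y' + cf A E * s * s' = k)
    (P4 : ∀ (y : E) (s : ℤ), y - s * g' ∈ a' → q * y - (q * s : ℤ) * g ∈ a) :
    ∃ t' z : Fin N → ℤ, Frame A lam a' g' (fun k => dd q k * x k) t' ∧
      (∀ k, (t' k : ℚ) = dd q k * t k) ∧ t' = t + A *ᵥ z := by
  have q1 : (q : ℚ) ≠ 0 := Nat.cast_ne_zero.2 q0
  have q2 : (q : E) ≠ 0 := Nat.cast_ne_zero.2 q0
  have q3 : (q : ℤ) ≠ 0 := Nat.cast_ne_zero.2 q0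
  have sy : ∀ i j, A i j = A j i := fun i j => (congrFun (congrFun hA.symm i) j).symm
  obtain ⟨w, w0, hw⟩ : ∃ w : Fin N → ℤ, w 0 = 0 ∧ c = c 0 • Pi.single 0 1 + (q : ℤ) • w := by
    refine ⟨fun i => if i = 0 then 0 else c i / q, if_pos rfl, funext fun i => ?_⟩
    by_cases i0 : i = 0
    · simp [i0]
    · simp [i0, Int.mul_ediv_cancel' (c1 i i0)]
  have r0 : ∀ e : Fin N → ℤ, e ⬝ᵥ A *ᵥ Pi.single 0 1 = e 1 := fun e => by
    simp [dotProduct, sy _ 0, hA.row₀]
  have pv : ∀ e : Fin N → ℤ, q * tf lam (∑ i, e i * x i) v =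
      (c 0 * e 1 + q * (e ⬝ᵥ A *ᵥ w) : ℤ) := fun e => by
    have := norm_sum h e c
    rw [← hv, ht, ← Int.cast_natCast, tf_int', Int.cast_zero, mul_zero, add_zero,
      Int.cast_natCast] at this
    rw [this]
    congr 1
    conv_lhs => rw [hw]
    rw [mulVec_add, mulVec_smul, mulVec_smul, dotProduct_add, dotProduct_smul, dotProduct_smul, r0]
    rfl
  have L : ∀ e : Fin N → ℤ, (q : ℤ) ∣ e 1 →
      ∑ i, e i * x i - (∑ i, e i * t i : ℤ) * g' ∈ a' := fun e ⟨k, hk⟩ =>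
    P2 _ _ ((h.2 _ _).2 ⟨e, rfl, rfl⟩) ⟨c 0 * k + e ⬝ᵥ A *ᵥ w, mul_left_cancel₀ q1 (by
      rw [pv, hk]; push_cast; ring)⟩
  have w1 : (q : ℤ) ∣ w 1 := by
    obtain ⟨k, hk⟩ := P3 v v 0 0 (a_mem P1) (a_mem P1)
    have e1 := pv c
    have e2 : c ⬝ᵥ A *ᵥ w = c 0 * w 1 + q * (w ⬝ᵥ A *ᵥ w) := by
      conv_lhs => rw [hw]
      rw [add_dotProduct, smul_dotProduct, smul_dotProduct, single_one_dotProduct]
      simp [mulVec, dotProduct, hA.row₀]
    have e3 : c 1 = q * w 1 := by rw [hw]; simp [o.symm]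
    rw [← hv, ← Int.cast_natCast (R := E), tf_int, e2, e3] at e1
    rw [Int.cast_zero, mul_zero, add_zero] at hk
    rw [hk] at e1
    have e4 : (q : ℤ) * (q * k) = c 0 * (q * w 1) + q * (c 0 * w 1 + q * (w ⬝ᵥ A *ᵥ w)) := by
      exact_mod_cast e1
    have e5 : (q : ℤ) ∣ 2 * c 0 * w 1 :=
      ⟨k - w ⬝ᵥ A *ᵥ w, mul_left_cancel₀ q3 (by linear_combination -e4)⟩
    exact (IsCoprime.mul_right (Nat.isCoprime_iff_coprime.2
      (Nat.Coprime.coprime_mul_right_right cop)) c0.symm).dvd_of_dvd_mul_left e5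
  have sx : ∀ {R : Type} [CommRing R] (y : Fin N → R),
      ∑ i, c i * y i = c 0 * y 0 + q * ∑ i, w i * y i := fun y => by
    conv_lhs => rw [hw]
    simp [add_mul, Finset.sum_add_distrib, Pi.single_apply, Finset.mul_sum, mul_assoc]
  have st := sx t
  simp only [Int.cast_id] at st
  obtain ⟨t0, ht0⟩ : (q : ℤ) ∣ t 0 := c0.symm.dvd_of_dvd_mul_left
    ⟨-∑ i, w i * t i, by linear_combination ht - st⟩
  have sg : ∀ (k : Fin N) (r : ℤ), (q : ℤ) ∣ (Pi.single k r : Fin N → ℤ) 1 →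
      r * x k - (r * t k : ℤ) * g' ∈ a' := fun k r hk => by
    simpa [Pi.single_apply] using L _ hk
  let t' : Fin N → ℤ := fun k => if k = 0 then t0 else if k = 1 then q * t 1 else t k
  have e' : ∀ k, (t' k : ℚ) = dd q k * t k := fun k => by
    simp only [t', dd]
    split_ifs with k0 k1
    · rw [k0, ht0]; push_cast; field_simp
    · rw [k1]; push_cast; rfl
    · rw [one_mul]
  have m' : ∀ k, (dd q k : E) * x k - t' k * g' ∈ a' := fun k => by
    simp only [t', dd]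
    split_ifs with k0 k1
    · obtain ⟨α, β, hαβ⟩ := c0
      have e1 : ∑ i, w i * t i = -(c 0 * t0) := mul_left_cancel₀ q3 (by
        linear_combination ht - st - c 0 * ht0)
      have e2 : v = c 0 * ((q : E)⁻¹ * x 0) + ∑ i, w i * x i := mul_left_cancel₀ q2 (by
        rw [hv, sx]; field_simp)
      have e3 : (α : E) * c 0 + β * q = 1 := by exact_mod_cast congrArg (Int.cast (R := E)) hαβ
      have e4 : x 0 = q * ((q : E)⁻¹ * x 0) := by field_simp
      have := add_mem' (int_mem α (sub_mem' P1 (L w w1))) (int_mem β (sg 0 1 (by simp [o.symm])))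
      rw [e1, ht0, e2] at this
      convert this using 1
      rw [k0]
      push_cast
      linear_combination (-((q : E)⁻¹ * x 0) + t0 * g') * e3 - β * e4
    · simpa [k1] using sg 1 q (by simp)
    · simpa using sg k 1 (by simp [Ne.symm k1])
  have gr : ∀ (y : E) (s : ℚ) j, tf lam y (dd q j * x j) + cf A E * s * t' j =
      dd q j * (tf lam y (x j) + cf A E * s * t j) := fun y s j => by
    rw [← Rat.smul_def, map_smul, e', smul_eq_mul]
    ring
  refine ⟨t', Pi.single 1 (t' 0 - t 0) + Pi.single 0 (t' 1 - t 1), ⟨fun i j => ?_, fun y s =>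
    ⟨fun hy => ?_, ?_⟩⟩, e', funext fun k => ?_⟩
  · refine (gr (dd q i * x i) _ j).trans ?_
    rw [← dd_A hA o q0 i j, ← gram h, ← Rat.smul_def, map_smul, e', LinearMap.smul_apply,
      smul_eq_mul]
    ring
  · obtain ⟨e, e1, e2⟩ := (h.2 _ _).1 (P4 y s hy)
    choose k hk using fun j => P3 y _ s _ hy (m' j)
    have e3 : ∀ j, dd q j * (e ᵥ* A) j = q * k j := fun j => by
      rw [← pair h, ← e1, ← e2, ← hk, gr, ← Int.cast_natCast (R := E), tf_int]
      push_cast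
      ring
    have e4 : e 1 = q * (q * k 0) := by
      have := e3 0
      rw [dd, if_pos rfl, inv_mul_eq_iff_eq_mul₀ q1] at this
      have e5 : (e ᵥ* A) 0 = e 1 := by simp [vecMul, dotProduct, sy _ 0, hA.row₀]
      rw [e5] at this
      exact_mod_cast this
    have e5 : ∀ j, (q : ℤ) ∣ ((e - e 0 • Pi.single 0 1) ᵥ* A) j := fun j => by
      rw [sub_vecMul, smul_vecMul, single_one_vecMul, Pi.sub_apply, Pi.smul_apply, row_apply,
        hA.row₀]
      by_cases j1 : j = 1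
      · simp [j1, vecMul, dotProduct, sy _ 1, hA.row₁]
      by_cases j0 : j = 0
      · simp [j0, o, vecMul, dotProduct, sy _ 0, hA.row₀, e4]
      have := e3 j
      rw [dd, if_neg j0, if_neg j1, one_mul] at this
      rw [if_neg j1, smul_zero, sub_zero]
      exact ⟨k j, by exact_mod_cast this⟩
    have e6 : ∀ j, j ≠ 0 → (q : ℤ) ∣ e j := fun j j0 => by
      have e7 := congrFun (vecMul_vecMul (e - e 0 • Pi.single 0 1) A A.adjugate) j
      rw [mul_adjugate, vecMul_smul, vecMul_one] at e7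
      have e8 : (q : ℤ) ∣ A.det * e j := by
        have := Finset.dvd_sum fun l (_ : l ∈ Finset.univ) => (e5 l).mul_right (A.adjugate l j)
        simpa [j0] using this.trans (dvd_of_eq e7)
      have e10 : IsCoprime (q : ℤ) A.det :=
        Int.isCoprime_iff_gcd_eq_one.2 (Nat.Coprime.coprime_mul_left_right cop :)
      exact e10.dvd_of_dvd_mul_left e8
    have e9 : ∀ j, ∃ u : ℤ, (e j : ℚ) = q * (u * dd q j) := fun j => by
      simp only [dd]
      split_ifs with j0 j1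
      · exact ⟨e j, by field_simp⟩
      · exact ⟨k 0, by rw [j1, e4]; push_cast; ring⟩
      · obtain ⟨u, hu⟩ := e6 j j0
        exact ⟨u, by rw [hu]; push_cast; ring⟩
    choose u hu using e9
    refine ⟨u, mul_left_cancel₀ q2 ?_, Int.cast_injective (α := ℚ) (mul_left_cancel₀ q1 ?_)⟩
    · rw [e1, Finset.mul_sum]
      refine Finset.sum_congr rfl fun j _ => ?_
      have := congrArg (Rat.cast (K := E)) (hu j)
      push_cast at this
      rw [this]
      ring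
    · have := congrArg (Int.cast (R := ℚ)) e2
      push_cast at this ⊢
      rw [this, Finset.mul_sum]
      exact Finset.sum_congr rfl fun j _ => by rw [hu, e']; ring
  · rintro ⟨e, rfl, rfl⟩
    exact comb m' e
  · rw [Pi.add_apply, mulVec_add, mulVec_single, mulVec_single, Pi.add_apply]
    simp only [Pi.smul_apply, col_apply, sy k, hA.row₀, hA.row₁, t', if_pos rfl, if_neg o.symm]
    split_ifs with k0 k1
    · exact absurd (k0.symm.trans k1) o
    all_goals simp [*]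

theorem one_eq (hc : Cyc b) (hq : (q : 𝓞 E) ∈ b) (cop : q.Coprime (rd E)) :
    ∃ β ∈ b, ∃ γ ∈ cI b, β + γ = 1 := by
  have h1 : Df E ≤ b ⊔ cI b := by
    rw [Df, S4.Quad.Df, Ideal.span_le]
    rintro _ ⟨w, rfl⟩
    obtain ⟨s, hs⟩ := hc w
    have := sub_mem (Ideal.mem_sup_left (T := cI b) hs) (Ideal.mem_sup_right (S := b)
      (Ideal.mem_map_of_mem (IsCMField.ringOfIntegersComplexConj E) hs))
    rwa [map_sub, map_intCast, sub_sub_sub_cancel_right] at this
  obtain ⟨u, v, huv⟩ := Nat.Coprime.cast (R := 𝓞 E) cop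
  exact Submodule.mem_sup.1 (huv ▸ add_mem (Ideal.mul_mem_left _ u (Ideal.mem_sup_left hq))
    (Ideal.mul_mem_left _ v (h1 rd_mem)) : (1 : 𝓞 E) ∈ b ⊔ cI b)

theorem vec (a0 : a ≠ 0) (b0 : b ≠ ⊥) (hc : Cyc b) (hq : (q : 𝓞 E) ∈ b) (cop : q.Coprime (rd E)) :
    ∃ v ∈ tw a b, ∀ z ∈ ((cI b : Ideal (𝓞 E)) : FI E)⁻¹ * a, ∃ m : ℤ, z - m * v ∈ a := by
  obtain ⟨β, hβ, γ, hγ, e⟩ := one_eq hc hq cop
  have c0 := cI_ne b0
  have k : ∀ δ ∈ cI b, ∀ z ∈ ((cI b : Ideal (𝓞 E)) : FI E)⁻¹ * a, (δ : E) * z ∈ a :=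
    fun δ hδ z hz => by
      have := FractionalIdeal.mul_mem_mul (FractionalIdeal.mem_coeIdeal_of_mem (𝓞 E)⁰ hδ) hz
      rwa [mul_inv_cancel_left₀ c0] at this
  obtain ⟨v, hv⟩ := IsDedekindDomain.exists_add_spanSingleton_mul_eq (a := a) (b := 1)
    (c := ((cI b : Ideal (𝓞 E)) : FI E)⁻¹ * a) (fun z hz => by
      rw [mul_comm]
      refine (mem_mul_inv c0).2 fun δ hδ => ?_
      obtain ⟨δ, -, rfl⟩ := (FractionalIdeal.mem_coeIdeal _).1 hδ
      rw [mul_comm]
      exact smul_mem δ hz) a0 one_ne_zero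
  rw [mul_one] at hv
  have m : v ∈ ((cI b : Ideal (𝓞 E)) : FI E)⁻¹ * a := hv ▸ (FractionalIdeal.mem_add _ _ _).2
    ⟨0, a.zero_mem, v, FractionalIdeal.mem_spanSingleton_self _ _, zero_add _⟩
  refine ⟨β * v, ?_, fun z hz => ?_⟩
  · rw [tw, mul_assoc]
    exact FractionalIdeal.mul_mem_mul (FractionalIdeal.mem_coeIdeal_of_mem _ hβ) m
  · obtain ⟨z, h0, _, h1, rfl⟩ := (FractionalIdeal.mem_add _ _ _).1 (hv.symm ▸ hz)
    obtain ⟨w, rfl⟩ := (FractionalIdeal.mem_spanSingleton _).1 h1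
    obtain ⟨s, hs⟩ := hc (IsCMField.ringOfIntegersComplexConj E w)
    have h2 := Ideal.mem_map_of_mem (IsCMField.ringOfIntegersComplexConj E) hs
    rw [map_sub, map_intCast, show IsCMField.ringOfIntegersComplexConj E
      (IsCMField.ringOfIntegersComplexConj E w) = w from RingOfIntegers.ext (bar_bar (w : E))] at h2
    have e' : (β : E) + γ = 1 := by exact_mod_cast congrArg (fun y : 𝓞 E => (y : E)) e
    refine ⟨s, ?_⟩
    convert add_mem' h0 (add_mem' (k _ h2 v m) (int_mem s (k _ hγ v m))) using 1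
    rw [Algebra.smul_def, RingOfIntegers.coe_eq_algebraMap (w - (s : 𝓞 E)), map_sub, map_intCast]
    linear_combination -s * v * e'

theorem ker (H : Hyp A lam) (a0 : a ≠ 0) (h : Frame A lam a g x t) (b0 : b ≠ ⊥) (k : Tw a b g g')
    {v : E} (hv : ∀ z ∈ ((cI b : Ideal (𝓞 E)) : FI E)⁻¹ * a, ∃ m : ℤ, z - m * v ∈ a)
    (y : E) (s : ℤ) (hy : y - s * g ∈ a) (hk : ∃ k : ℤ, tf lam y v = k) : y - s * g' ∈ tw a b := by
  have c0 := cI_ne b0
  have h1 := (mem_dual H.ne (mul_ne_zero (inv_ne_zero c0) a0) y).2 fun z hz => by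
    obtain ⟨m, hm⟩ := hv z hz
    obtain ⟨k1, e1⟩ := (dual_a H a0 h y).2 ⟨s, hy⟩ _ hm
    obtain ⟨k2, e2⟩ := hk
    rw [map_sub, tf_int'] at e1
    exact ⟨k1 + m * k2, by push_cast; linear_combination e1 + m * e2⟩
  have h2 : y ∈ (b : FI E) * a * (Df E : FI E)⁻¹ := by
    rw [mul_assoc, ← dual_eq H a0 h]
    rw [map_mul, map_inv₀, ← cF_coe, cF_cF] at h1
    convert h1 using 1
    simp only [mul_inv, inv_inv]
    ring
  refine (mem_tw b0).2 fun β hβ => ?_
  convert sub_mem' (add_mem' (bar_sub_mul h2 β) (FractionalIdeal.mul_mem_mul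
    (FractionalIdeal.mem_coeIdeal_of_mem (𝓞 E)⁰ hβ) hy)) (int_mem s (k β hβ)) using 1
  change _ = _ + (β : E) * _ - _
  ring

end Nbr

open Nbr Fr0 in
theorem nbr (hT : TransStmt) (hC : B.CycStmt) : NbrStmt := by
  intro n p _ c D
  suffices k : ∀ x : D.Cl, ∃ f : D.Fr, ClassGroup.mk0 f.b = x from
    ⟨⟨fun x => (k x).choose, fun x => (k x).choose_spec⟩⟩
  intro cl
  have H := hyp D
  have h := D.sp.frame
  have a0 := fm_ne D h
  obtain ⟨b, hb, cop, hc⟩ := hC D.E (2 * c.A.det.natAbs * rd D.E) cl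
    (mul_ne_zero (mul_ne_zero two_ne_zero (Int.natAbs_ne_zero.2 H.det)) rd_ne)
  have b0 : b.1 ≠ ⊥ := nonZeroDivisors.coe_ne_zero b
  have hd := Int.absNorm_under_dvd_absNorm b.1
  have hz := fun d : ℤ => Int.cast_mem_ideal_iff (I := b.1) (d := d)
  have hq := Int.absNorm_under_mem b.1
  generalize Ideal.absNorm (Ideal.under ℤ b.1) = q at hd hz hq
  have q0 : q ≠ 0 := fun e => b0 (Ideal.absNorm_eq_zero_iff.1 (zero_dvd_iff.1 (e ▸ hd)))
  replace cop := cop.coprime_dvd_left hd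
  have cop1 := Nat.Coprime.coprime_mul_right_right cop
  obtain ⟨ρ, k, -⟩ := exists_tw ((mem_dual_iff H a0 h D.g).2 ⟨1, g_mem⟩) b0
  obtain ⟨v, P1, hv⟩ := vec a0 b0 hc hq (Nat.Coprime.coprime_mul_left_right cop)
  have le : (b.1 : FI D.E) * D.a ≤ D.a := by
    simpa only [one_mul] using mul_le_mul_left
      (FractionalIdeal.coeIdeal_le_one (I := b.1) : (b.1 : FI D.E) ≤ 1) D.a
  have bq : bar ((q : 𝓞 D.E) : D.E) = q := map_natCast (IsCMField.complexConj D.E) q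
  have P4 : ∀ (y : D.E) (s : ℤ), y - s * (ρ * D.g) ∈ tw D.a b.1 →
      q * y - (q * s : ℤ) * D.g ∈ D.a := fun y s hy => by
    have := add_mem' ((mem_tw b0).1 hy _ hq) (int_mem s (k _ hq))
    rw [bq] at this
    convert (le this : _ ∈ D.a) using 1
    push_cast
    ring
  obtain ⟨e, e1, e2⟩ := (h.2 _ _).1 (P4 v 0 (a_mem P1))
  rw [mul_zero] at e2
  obtain ⟨γ, ⟨⟨M, hM⟩, hγ⟩, g0, g1⟩ : ∃ γ ∈ DK c.A ⊓ Ort c.A, IsCoprime ((γ⁻¹.1 *ᵥ e) 0) q ∧
      ∀ i, i ≠ 0 → (q : ℤ) ∣ (γ⁻¹.1 *ᵥ e) i := by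
    obtain ⟨γ, hγ, k⟩ := hT n c.A q e c.lat cop1 (fun l hl ⟨r, hr⟩ => by
      by_contra! hl'
      choose u hu using hl'
      have l0 : (l : ℤ) ≠ 0 := Nat.cast_ne_zero.2 hl.ne_zero
      have m1 : (r : D.E) * v ∈ D.a := by
        simpa using (h.2 (r * v) 0).2 ⟨u, mul_left_cancel₀ (Nat.cast_ne_zero.2 hl.ne_zero :
          (l : D.E) ≠ 0) (by
            rw [← mul_assoc, ← Nat.cast_mul, ← hr, e1, Finset.mul_sum]
            exact Finset.sum_congr rfl fun i _ => by rw [hu]; push_cast; ring),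
          mul_left_cancel₀ l0 (by
            rw [mul_zero, e2, Finset.mul_sum]
            exact Finset.sum_congr rfl fun i _ => by rw [hu]; ring)⟩
      have m2 := (mem_mul_inv (a := D.a) (mul_ne_zero (inv_ne_zero (cI_ne b0)) a0)
        (y := r)).2 fun z hz => by
          obtain ⟨m, hm⟩ := hv z hz
          convert add_mem' (int_mem r hm) (int_mem m m1) using 1
          push_cast
          ring
      rw [mul_inv, inv_inv, mul_left_comm, mul_inv_cancel₀ a0, mul_one, ← cF_coe, mem_cF, bar,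
        map_natCast, FractionalIdeal.mem_coeIdeal] at m2
      obtain ⟨r', m3, m4⟩ := m2
      have m5 : r' = ((r : ℤ) : 𝓞 D.E) := RingOfIntegers.ext (by simpa using m4)
      have m6 : q ∣ r := by exact_mod_cast (hz r).1 (m5 ▸ m3)
      have r0 : r ≠ 0 := fun e => q0 (by rw [hr, e, mul_zero])
      have := Nat.le_of_dvd (Nat.pos_of_ne_zero r0) m6
      have := hl.two_le
      nlinarith [Nat.pos_of_ne_zero r0]) (by
      obtain ⟨m, hm⟩ := tw_int H a0 h b0 k (a_mem P1) (a_mem P1)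
      have := norm_sum h e e
      rw [← e1, ← e2, ← Int.cast_natCast (R := D.E), tf_int, tf_int'] at this
      refine ⟨q * m, Int.cast_injective (α := ℚ) ?_⟩
      rw [bf, ← this]
      push_cast at hm ⊢
      linear_combination (q : ℚ) * q * hm)
    exact ⟨γ⁻¹, inv_mem hγ, by rwa [inv_inv]⟩
  have s1 : ∀ {R : Type} [CommRing R] (w : Ix n → R),
      ∑ i, e i * w i = ∑ l, (γ⁻¹.1 *ᵥ e) l * ∑ i, γ.1 i l * w i := fun w => by
    have e3 : γ.1 *ᵥ γ⁻¹.1 *ᵥ e = e := by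
      rw [mulVec_mulVec, show γ.1 * γ⁻¹.1 = 1 from congrArg Subtype.val (mul_inv_cancel γ),
        one_mulVec]
    generalize γ⁻¹.1 *ᵥ e = d at e3
    simp only [← e3, mulVec, dotProduct, Int.cast_sum, Int.cast_mul, Finset.mul_sum,
      Finset.sum_mul]
    rw [Finset.sum_comm]
    exact Finset.sum_congr rfl fun i _ => Finset.sum_congr rfl fun k _ => by ring
  obtain ⟨t', z, F, ht, hz⟩ := nb c.lat (by simp) (gam_fr h hγ) q0 cop1 (e1.trans (s1 _))
    (by simpa only [Int.cast_id] using (s1 D.t).symm.trans e2.symm) g0 g1 P1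
    (ker H a0 h b0 k hv) (fun y y' s s' => tw_int H a0 h b0 k) P4
  refine ⟨⟨b, ρ * D.g, _, t', k, F, ⟨⟨γ.1.map (Int.castRingHom ℚ) * diagonal (dd q), ?_⟩,
    fun l => ?_⟩, Mᵀ *ᵥ D.t + z, ?_⟩, hb⟩
  · rw [det_mul, ← RingHom.mapMatrix_apply, ← RingHom.map_det, γ.2, map_one, one_mul, det_diagonal,
      Finset.prod_eq_mul_of_mem 0 1 (Finset.mem_univ _) (Finset.mem_univ _) (by simp)
        fun i _ hi => by rw [dd, if_neg hi.1, if_neg hi.2]]
    simp [dd, q0]
  · simp only [ht, mul_diagonal, map_apply, eq_intCast, Finset.mul_sum, Int.cast_sum, Int.cast_mul,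
      Rat.cast_mul, Rat.cast_intCast]
    exact ⟨Finset.sum_congr rfl fun i _ => by ring, Finset.sum_congr rfl fun i _ => by ring⟩
  · rw [hz, mulVec_add, ← add_assoc, mulVec_mulVec]
    congr 1
    have : γ.1ᵀ *ᵥ D.t = D.t + (c.A * Mᵀ) *ᵥ D.t := by
      rw [hM, transpose_add, transpose_one, transpose_mul, c.lat.symm, add_mulVec, one_mulVec]
    exact this

end Pool.Agent.Lib.MP_9177b7_ag.SO
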