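import Pool.Agent.Lib.MP_9177b7_ag.SO.StC
import Pool.Agent.Lib.MP_9177b7_ag.SO.Proj
import Pool.Agent.Lib.MP_9177b7_ag.SO.Fr0
import Pool.Agent.Lib.MP_9177b7_ag.B.Orb

/-!
The mean over the orbit of a CM point is the mean over the class group.
-/

open NumberField Matrix
open scoped nonZeroDivisors ComplexConjugate

noncomputable section

namespace Pool.Agent.Lib.MP_9177b7_ag.SO

namespace Orb

open FractionalIdeal (spanSingleton mem_singleton_mul spanSingleton_mul_spanSingleton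
  spanSingleton_one)

section rel

variable {N : ℕ} {A : Matrix (Fin N) (Fin N) ℤ}

/-- The relation that defines the Shimura variety. -/
abbrev Rel (v w : Per A) : Prop := ∃ g ∈ G1 A, ∃ c : ℂ, w.1 = c • (act g v).1

theorem act_val (g : GR A) (v : Per A) : (act g v).1 = g.1.1.map Complex.ofReal *ᵥ v.1 := rfl

theorem act_one (v : Per A) : act 1 v = v := Subtype.ext (by
  rw [act_val, show (1 : GR A).1.1 = 1 from rfl, Matrix.map_one _ rfl rfl, one_mulVec])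

theorem act_smul {v w : Per A} {c : ℂ} (h : w.1 = c • v.1) (g : GR A) :
    (act g w).1 = c • (act g v).1 := by rw [act_val, h, mulVec_smul, act_val]

theorem rel_equiv : Equivalence (Rel (A := A)) where
  refl v := ⟨1, one_mem _, 1, by rw [act_one, one_smul]⟩
  symm := by
    rintro v w ⟨g, hg, c, e⟩
    have hc : c ≠ 0 := fun h => by simpa [e, h] using w.2.2
    exact ⟨g⁻¹, inv_mem hg, c⁻¹, by
      rw [act_smul e, Proj.act_mul, inv_mul_cancel, act_one, smul_smul, inv_mul_cancel₀ hc,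
        one_smul]⟩
  trans := by
    rintro u v w ⟨g, hg, c, e⟩ ⟨h, hh, d, e'⟩
    exact ⟨h * g, mul_mem hh hg, d * c, by rw [e', act_smul e, Proj.act_mul, smul_smul]⟩

theorem mk_eq (v w : Per A) : (Quot.mk _ v : SS A) = Quot.mk _ w ↔ Rel v w :=
  Quot.eq.trans rel_equiv.eqvGen_iff

end rel

variable {n p : ℕ} [Fact p.Prime] {c : Ctx n p} {D : Dat c}

theorem sm (z : D.E) {a : D.FI} {y : D.E} (h : y ∈ a) : z * y ∈ spanSingleton _ z * a :=
  mem_singleton_mul.2 ⟨y, h, rfl⟩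

variable (D) in
/-- Isomorphic lattices. -/
def Is (a : D.FI) (g : D.E) (a' : D.FI) (g' : D.E) : Prop :=
  ∃ z : D.E, z * D.bar z = 1 ∧ spanSingleton _ z * a' = a ∧ z * g' - g ∈ a

variable {a a' a'' : D.FI} {g g' g'' : D.E}

theorem Is.symm (h : Is D a g a' g') : Is D a' g' a g := by
  obtain ⟨z, h1, rfl, h3⟩ := h
  have z0 : z ≠ 0 := left_ne_zero_of_mul_eq_one h1
  have e : spanSingleton _ z⁻¹ * (spanSingleton _ z * a') = a' := by
    rw [← mul_assoc, spanSingleton_mul_spanSingleton, inv_mul_cancel₀ z0, spanSingleton_one, one_mul]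
  refine ⟨z⁻¹, by rw [Dat.bar, map_inv₀, ← mul_inv, h1, inv_one], e, ?_⟩
  have := Fr0.int_mem (-1) (e ▸ sm z⁻¹ h3)
  convert this using 1
  field_simp
  push_cast
  ring

theorem Is.trans (h : Is D a g a' g') (h' : Is D a' g' a'' g'') : Is D a g a'' g'' := by
  obtain ⟨z, h1, rfl, h3⟩ := h
  obtain ⟨w, k1, rfl, k3⟩ := h'
  refine ⟨z * w, by rw [Dat.bar, map_mul, mul_mul_mul_comm, h1, k1, one_mul],
    by rw [← mul_assoc, spanSingleton_mul_spanSingleton], ?_⟩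
  convert Fr0.add_mem' (sm z k3) h3 using 1
  ring

theorem Is.tw (hT : TwStmt) (h : Is D a g a' g') (a0 : a' ≠ 0) {b : Ideal (𝓞 D.E)} (hb : b ≠ ⊥)
    {g₁ g₂ : D.E} (t1 : D.Tw a b g g₁) (t2 : D.Tw a' b g' g₂) :
    Is D (D.tw a b) g₁ (D.tw a' b) g₂ := by
  obtain ⟨z, h1, rfl, h3⟩ := h
  have z0 : z ≠ 0 := left_ne_zero_of_mul_eq_one h1
  obtain ⟨-, -, -, -, -, -, -, -, k1, -⟩ := hT n p c D a' a0
  obtain ⟨-, k2, -, -, -, -, -, -, -, -, k3, -⟩ := hT n p c D (spanSingleton _ z * a')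
    (mul_ne_zero (FractionalIdeal.spanSingleton_ne_zero_iff.2 z0) a0)
  refine ⟨z, h1, mul_left_comm _ _ _, (k2 b _ g₁ _ hb ?_).1 (k1 z b g' g₂ z0 t2)⟩
  simpa using k3 b g g₁ _ h3 t1

theorem nz (b : (Ideal (𝓞 D.E))⁰) : (b : Ideal (𝓞 D.E)) ≠ ⊥ := nonZeroDivisors.ne_zero b.2

theorem ne (hF : FrameStmt) (f : D.Fr) : D.tw D.a f.b ≠ 0 :=
  ((hF n p c D).2.2.2.2.2.2.2 _ _ _ _ f.fr).1

/-- Isomorphic lattices give the same point. -/
theorem rel_of (hC : ChgStmt) {f f' : D.Fr} (h : Is D (D.tw D.a f.b) f.g (D.tw D.a f'.b) f'.g)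
    {v v' : Per c.A} (hv : f.IsPt v) (hv' : f'.IsPt v') : Rel v' v := by
  obtain ⟨z, h1, h2, h3⟩ := h
  obtain ⟨M, m1, -, m3, m4, m5⟩ := hC n p c D f f' z h1
  obtain ⟨M', k1, k2⟩ := m4 ⊥ fun i k => by
    obtain ⟨m, hm⟩ := m3 1 (fun y s hy => by
      convert Fr0.add_mem' (h2 ▸ sm z hy) (Fr0.int_mem s h3) using 1
      push_cast
      ring) i k
    exact Subring.mem_bot.2 ⟨m, by simpa using hm.symm⟩
  choose m hm using fun i k => Subring.mem_bot.1 (k1 i k)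
  refine ⟨⟨⟨M.1.map (Rat.castHom ℝ), by rw [Disc.det_map, M.2, map_one]⟩, Disc.ort_map _ _ m1⟩,
    (Disc.mem_G1 _).2 ⟨Matrix.of m, ?_⟩, D.φ z, (m5 v v' hv hv').trans ?_⟩
  · change M.1.map (Rat.castHom ℝ) = _
    rw [k2]
    ext i j
    simp [mul_apply, one_apply, ← hm, apply_ite (Rat.cast : ℚ → ℝ)]
  · congr 2

/-- An isometry of determinant one that fixes the first components fixes the frame. -/
theorem fix (hF : FrameStmt) {x : Ix n → D.E} {t : Ix n → ℤ} (h : D.Fm a g x t) {N : Mx n ℚ}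
    (h1 : Nᵀ * Am c.A ℚ * N = Am c.A ℚ) (h2 : N.det = 1)
    (h3 : x ᵥ* N.map (Rat.castHom D.E) = x) : (fun i => (t i : ℚ)) ᵥ* N = fun i => (t i : ℚ) := by
  obtain ⟨-, -, -, -, -, -, d0, k⟩ := hF n p c D
  obtain ⟨-, -, -, ind, -, -, -, -, -, ⟨e, e1, e2, e3, -⟩, -⟩ := k _ _ _ _ h
  have k0 : (D.Dn / c.A.det.natAbs : ℚ) ≠ 0 := div_ne_zero (Nat.cast_ne_zero.2 d0)
    (Nat.cast_ne_zero.2 (Int.natAbs_ne_zero.2 fun e => c.pd (e ▸ dvd_zero _)))
  generalize (D.Dn / c.A.det.natAbs : ℚ) = κ at e3 k0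
  obtain ⟨w, hw⟩ : ∃ w, N = 1 + vecMulVec e w := by
    refine ⟨fun k => (∑ i, N i k * t i - t k) / κ, ?_⟩
    ext i k
    have := congrFun (ind (fun i => N i k - (1 : Mx n ℚ) i k - (∑ i, N i k * t i - t k) / κ * e i)
      ?_ ?_) i
    · simp only [Matrix.add_apply, vecMulVec_apply, Pi.zero_apply] at this ⊢
      linear_combination this
    · have := congrFun h3 k
      simp only [vecMul, dotProduct, map_apply, Rat.coe_castHom, mul_comm (x _)] at this
      simp only [Rat.cast_sub, Rat.cast_mul, sub_mul, Finset.sum_sub_distrib, mul_assoc,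
        ← Finset.mul_sum, e2, this]
      simp [one_apply, apply_ite (Rat.cast : ℚ → D.E)]
    · simp only [sub_mul, Finset.sum_sub_distrib, mul_assoc, ← Finset.mul_sum, e3]
      simp [one_apply, k0]
  have h4 : N *ᵥ e = e := by
    rw [hw, vecMulVec_eq Unit, det_one_add_replicateCol_mul_replicateRow, add_eq_left] at h2
    rw [hw, add_mulVec, one_mulVec, vecMulVec_mulVec, h2]
    simp
  have := congrArg (· *ᵥ e) h1
  simp only [← mulVec_mulVec, h4, e1] at this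
  rwa [mulVec_transpose] at this

/-- The same point comes from isomorphic lattices. -/
theorem of_rel (hF : FrameStmt) (hC : ChgStmt) {f f' : D.Fr} {v v' : Per c.A} (hv : f.IsPt v)
    (hv' : f'.IsPt v') (h : Rel v' v) : Is D (D.tw D.a f.b) f.g (D.tw D.a f'.b) f'.g := by
  obtain ⟨u, hu, r, e⟩ := h
  obtain ⟨M₀, hM⟩ := (Disc.mem_G1 u).1 hu
  generalize 1 + M₀ * c.A = γ at hM
  have g1 : γᵀ * Am c.A ℤ * γ = Am c.A ℤ :=
    Disc.ort_of_map c.A (Int.castRingHom ℝ) Int.cast_injective (hM ▸ u.2)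
  have g2 : γ.det = 1 := (Int.castRingHom ℝ).injective_int (by
    rw [← Disc.det_map, ← hM, map_one]; exact u.1.2)
  have g3 := Disc.ort_map c.A (Int.castRingHom ℂ) g1
  have e' : v.1 = r • γ.map (Int.castRingHom ℂ) *ᵥ v'.1 := by
    rw [e, act_val, hM]
    congr 2
  obtain ⟨-, -, -, -, -, -, -, k⟩ := hF n p c D
  obtain ⟨-, -, -, -, -, -, -, -, -, -, -, n1, -, -, ga⟩ := k _ _ _ _ f.fr
  obtain ⟨-, -, sp, -, -, -, -, -, -, -, -, n2, zz, -⟩ := k _ _ _ _ f'.fr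
  have key : ∀ k, D.φ (∑ i, γ i k * f.x i) = r * D.φ (f'.x k) := fun k => by
    have a1 := congrArg ((γ.map (Int.castRingHom ℂ))ᵀ *ᵥ ·) hv
    rw [e', mulVec_smul, mulVec_smul, mulVec_mulVec, mulVec_mulVec, g3, hv'] at a1
    have := congrFun a1 k
    simpa [mulVec, dotProduct] using this.symm
  obtain ⟨j, hj⟩ : ∃ j, f'.x j ≠ 0 := by
    by_contra! h
    obtain ⟨u, hu, -⟩ := sp 1 0
    simp [h] at hu
  obtain ⟨z, rfl⟩ : ∃ z, D.φ z = r := ⟨(∑ i, γ i j * f.x i) / f'.x j, by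
    rw [map_div₀, key, mul_div_cancel_right₀ _ ((map_ne_zero _).2 hj)]⟩
  have kx : ∀ k, ∑ i, γ i k * f.x i = z * f'.x k := fun k => D.φ.injective (by rw [key, map_mul])
  have hz : z * D.bar z = 1 := D.φ.injective (by
    have a1 := n1 v hv
    have a2 := n2 v' hv'
    have a3 : star (γ.map (Int.castRingHom ℂ) *ᵥ v'.1) = γ.map (Int.castRingHom ℂ) *ᵥ star v'.1 := by
      ext i
      simp [mulVec, dotProduct]
    rw [e', star_smul, a3, bf, smul_dotProduct, mulVec_smul, dotProduct_smul, ← vecMul_transpose,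
      ← dotProduct_mulVec, mulVec_mulVec, mulVec_mulVec, g3, smul_eq_mul, smul_eq_mul] at a1
    rw [map_mul, IsCMField.complexEmbedding_complexConj, map_one, starRingEnd_apply]
    rw [bf] at a2
    linear_combination a1 - D.φ z * star (D.φ z) * a2)
  obtain ⟨M, m1, m2, -⟩ := hC n p c D f f' z hz
  have i1 : M.1 * M⁻¹.1 = 1 := congrArg Subtype.val (mul_inv_cancel M)
  have i2 : M⁻¹.1ᵀ * Am c.A ℚ * M⁻¹.1 = Am c.A ℚ := inv_mem m1
  have kt := fix hF f.fr (N := γ.map (Int.castRingHom ℚ) * M⁻¹.1) (by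
      rw [transpose_mul, mul_assoc M⁻¹.1ᵀ, ← mul_assoc, mul_assoc M⁻¹.1ᵀ,
        Disc.ort_map c.A (Int.castRingHom ℚ) g1, i2])
    (by rw [det_mul, Disc.det_map, g2, map_one, one_mul, M⁻¹.2]) (by
      rw [Matrix.map_mul, ← vecMul_vecMul, show f.x ᵥ* _ = f.x ᵥ* M.1.map (Rat.castHom D.E) from
        funext fun k => by simpa [vecMul, dotProduct, mul_comm] using (kx k).trans (m2 k).1,
        vecMul_vecMul, ← Matrix.map_mul, i1, Matrix.map_one _ (map_zero _) (map_one _), vecMul_one])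
  have kt' : (fun k => ∑ i, γ i k * f.t i) = f'.t := funext fun k => Int.cast_injective (α := ℚ) (by
    have := congrFun (congrArg (· ᵥ* M.1) kt) k
    simp only [vecMul_vecMul, mul_assoc, mul_eq_one_comm.1 i1, mul_one] at this
    rw [(m2 k).2]
    simpa [vecMul, dotProduct, mul_comm] using this)
  have f0 : D.Fm _ _ (fun k => ∑ i, γ i k * f.x i) fun k => ∑ i, γ i k * f.t i :=
    ga ⟨γ, g2⟩ (by rwa [Disc.Am_int] at g1)
  rw [kt', funext kx] at f0
  have f1 := f0.2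
  have f2 := (zz z hz).1.2
  refine ⟨z, hz, FractionalIdeal.ext fun y => ?_, ?_⟩
  · simpa using (f2 y 0).trans (f1 y 0).symm
  · simpa using (f1 (z * f'.g) 1).2 ((f2 _ 1).1 (by simpa using FractionalIdeal.zero_mem _))

end Orb

open Orb in
theorem orb (hF : FrameStmt) (hT : TwStmt) (hC : ChgStmt) (hS : SameStmt) : OrbStmt := by
  intro n p _ c D S v hv
  have hR : orbit c.A D.φ D.lam D.a D.g D.x D.t =
      Set.range fun x => (Quot.mk _ (v x) : SS c.A) := by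
    ext o
    constructor
    · rintro ⟨b, g', x', t', z, M, w, hb, h1, h2, h3, h4, h5, rfl⟩
      let f : D.Fr := ⟨⟨b, mem_nonZeroDivisors_of_ne_zero hb⟩, g', x', t', h1, h2, ⟨M, h3⟩, z, h4⟩
      obtain ⟨y, g, k1, k2, k3, k4⟩ := hS n p c D f (S.f (ClassGroup.mk0 f.b)) 1
        (by rw [S.hb, map_one, mul_one])
      have e : ∀ a : D.FI, D.tw a (1 : (Ideal (𝓞 D.E))⁰) = a := fun a => by
        simp [Dat.tw, Dat.cI, Ideal.map_top]
      rw [e] at k3 k4
      refine ⟨_, (mk_eq _ _).2 (rel_of hC (f := f) ⟨y, k1, k3, ?_⟩ h5 (hv _))⟩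
      have := k2 1 (by simp)
      convert Fr0.add_mem' k4 (show g - f.g ∈ _ by simpa using this) using 1
      ring
    · rintro ⟨x, rfl⟩
      obtain ⟨M, h⟩ := (S.f x).ori
      obtain ⟨z, h'⟩ := (S.f x).lev
      exact ⟨_, _, _, _, z, M, v x, nz _, (S.f x).htw, (S.f x).fr, h, h', hv x, rfl⟩
  have hE : ∀ x y, (Quot.mk _ (v y) : SS c.A) = Quot.mk _ (v x) ↔
      Is D (D.tw D.a (S.f x).b) (S.f x).g (D.tw D.a (S.f y).b) (S.f y).g := fun x y =>
    (mk_eq _ _).trans ⟨of_rel hF hC (hv x) (hv y), fun h => rel_of hC h (hv x) (hv y)⟩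
  have hM : ∀ x y t, (Quot.mk _ (v y) : SS c.A) = Quot.mk _ (v x) →
      (Quot.mk _ (v (y * t)) : SS c.A) = Quot.mk _ (v (x * t)) := fun x y t h => by
    obtain ⟨z, g, k1, k2, k3⟩ := hS n p c D (S.f x) (S.f (x * t)) (S.f t).b (by simp only [S.hb])
    obtain ⟨z', g', l1, l2, l3⟩ := hS n p c D (S.f y) (S.f (y * t)) (S.f t).b (by simp only [S.hb])
    exact (hE _ _).2 ((Is.symm ⟨z, k1, k3⟩).trans
      ((((hE _ _).1 h).tw hT (ne hF _) (nz _) k2 l2).trans ⟨z', l1, l3⟩))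
  refine ⟨hR ▸ Set.finite_range _, fun f => ?_⟩
  rw [hR]
  have : Nonempty {y // (Quot.mk _ (v y) : SS c.A) = Quot.mk _ (v 1)} := ⟨⟨1, rfl⟩⟩
  refine B.Orb.mean_range _ (Nat.card {y // (Quot.mk _ (v y) : SS c.A) = Quot.mk _ (v 1)})
    Nat.card_pos.ne' (fun x => Nat.card_congr ((Equiv.mulRight x⁻¹).subtypeEquiv fun y => ?_)) f
  rw [Equiv.coe_mulRight]
  exact ⟨fun h => by simpa using hM _ _ x⁻¹ h, fun h => by simpa using hM _ _ x h⟩

end Pool.Agent.Lib.MP_9177b7_ag.SO
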