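import Pool.Agent.Lib.MP_9177b7_ag.SO.StC
import Pool.Agent.Lib.MP_9177b7_ag.B.Rep
import Pool.Agent.Lib.MP_9177b7_ag.B.Idc

/-!
The bound for the number of ideals of given relative norm.
-/

open NumberField Module Pool.Agent.Shared.PrimeZeta

noncomputable section

namespace Pool.Agent.Lib.MP_9177b7_ag.SO

namespace RepL

open S4.Quad

variable {n p : ℕ} [Fact p.Prime] {c : Ctx n p} {D : Dat c}

theorem norm_rel {J : Ideal (𝓞 D.F)} {g : Ideal (𝓞 D.E)} (h : g * D.cI g = D.xF J) :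
    Ideal.absNorm g = Ideal.absNorm J := by
  have q2 : finrank D.F D.E = 2 := Algebra.IsQuadraticExtension.finrank_eq_two _ _
  have e1 := congrArg Ideal.absNorm h
  have e2 : Ideal.absNorm (D.cI g) = Ideal.absNorm g :=
    norm_map (IsCMField.ringOfIntegersComplexConj D.E).toRingEquiv g
  rw [map_mul, e2, norm_ext q2, ← sq] at e1
  exact (pow_left_inj₀ (Nat.zero_le _) (Nat.zero_le _) two_ne_zero).1 e1

theorem le_Lq {C : ℝ} (A : D.Ar C) {q : ℕ} (hq : q.Prime)
    (hn : Ideal.absNorm (D.Df ⊔ Ideal.span {(q : 𝓞 D.E)}) = q) {J : Ideal (𝓞 D.F)}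
    (hJ : J ≤ A.dd ⊔ Ideal.span {(q : 𝓞 D.F)}) {g : Ideal (𝓞 D.E)} (h : g * D.cI g = D.xF J) :
    g ≤ D.Df ⊔ Ideal.span {(q : 𝓞 D.E)} := by
  have hP : (D.Df ⊔ Ideal.span {(q : 𝓞 D.E)}).IsPrime :=
    Ideal.isPrime_of_irreducible_absNorm (hn.symm ▸ (Nat.irreducible_iff_nat_prime q).2 hq)
  have h1 : g * D.cI g ≤ D.Df ⊔ Ideal.span {(q : 𝓞 D.E)} := by
    refine h.trans_le ((Ideal.map_mono hJ).trans ?_)
    rw [Ideal.map_sup, Ideal.map_span, Set.image_singleton, map_natCast]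
    exact sup_le_sup_right (A.Df_sq.trans_le Ideal.mul_le_left) _
  refine (hP.mul_le.1 h1).elim id fun h2 x hx => ?_
  have := add_mem (Ideal.mem_sup_left (sub_mem_Df (σ := IsCMField.complexConj D.E) x))
    (h2 (Ideal.mem_map_of_mem _ hx))
  rwa [show oa (IsCMField.complexConj D.E) x = IsCMField.ringOfIntegersComplexConj D.E x from rfl,
    sub_add_cancel] at this

end RepL

open RepL B.Rep S4.Quad in
theorem rep (hC : CoStmt) : RepStmt := by
  classical
  intro n p _ c D C κ A S t k hM hη hS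
  have hnt : S.nt t = A.nt S.q₀ t := by rw [SD.nt, hM.hD, Dat.Ar.nt]
  have sq : Squarefree D.Dn := hM.hD ▸ S.sqf
  obtain ⟨-, -, -, C4, C5⟩ := (hC n p c D C A).2 (A.nt S.q₀ t) k
  set η := A.et (A.nt S.q₀ t) k with hη'
  set d := t.natAbs.gcd D.Dn with hn
  set m := S.NQ (S.nt t) k with hm
  have em : m = Ideal.absNorm (A.jd η) := by rw [hm, hM.hN, hnt]
  have m0 : m ≠ 0 := by
    rw [em, ← Nat.cast_ne_zero (R := ℚ), C4]
    exact mul_ne_zero (mul_ne_zero (abs_ne_zero.2 (Algebra.norm_ne_zero_iff.2 hη))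
      (Nat.cast_ne_zero.2 sq.ne_zero)) (Nat.cast_ne_zero.2 (Int.natAbs_ne_zero.2 (discr_ne_zero _)))
  have hd : ∀ q : ℕ, q ∣ d ↔ q ∣ S.D ∧ (q : ℤ) ∣ t := fun q => by
    rw [hn, Nat.dvd_gcd_iff, Int.natCast_dvd, hM.hD, and_comm]
  have hs : Squarefree d := sq.squarefree_of_dvd (Nat.gcd_dvd_right _ _)
  let e : ℕ → ℝ := fun q => if q ∣ d then 2 else 1
  have e0 : ∀ q, 1 ≤ e q ∧ e q ≤ 2 := fun q => by
    simp only [e]
    split_ifs <;> norm_num
  have h1 : (d.divisors.card : ℝ) ≤ ∏ q ∈ m.primeFactors, e q := by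
    rw [Nat.card_divisors hs.ne_zero, Nat.cast_prod]
    refine (Finset.prod_le_prod (fun _ _ => Nat.cast_nonneg _) fun q hq => ?_).trans
      (Finset.prod_le_prod_of_subset_of_one_le (fun q hq => ?_) (fun q _ => ?_)
        fun q _ _ => (e0 q).1)
    · have := hs.natFactorization_le_one q
      simp only [e, if_pos (Nat.dvd_of_mem_primeFactors hq)]
      exact_mod_cast (by omega)
    · have hq' := Nat.prime_of_mem_primeFactors hq
      obtain ⟨a, b⟩ := (hd q).1 (Nat.dvd_of_mem_primeFactors hq)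
      exact Nat.mem_primeFactors.2 ⟨hq', S.dvd q _ k hq' a ((S.dvd_nt hq' a t).2 b), m0⟩
    · exact zero_le_one.trans (e0 q).1
  have hN : ∀ g, g * D.cI g = D.xF (A.jd η) → Ideal.absNorm g = m := fun g hg =>
    (norm_rel hg).trans em.symm
  have h3 : (A.rr η : ℝ) ≤ ∏ q ∈ m.primeFactors, S.G q (m.factorization q) t k / e q := by
    refine card_le (fun g => g * D.cI g = D.xF (A.jd η)) _ _
      (fun g hg => by rw [hN g hg]; exact ⟨m0, subset_rfl⟩) fun q hq => ?_
    have hq' := Nat.prime_of_mem_primeFactors hq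
    have hp : ∀ g, g * D.cI g = D.xF (A.jd η) →
        Ideal.absNorm (part q g) = q ^ m.factorization q := fun g hg => by
      rw [norm_part hq' (hN g hg ▸ m0), hN g hg]
    unfold SD.G
    split_ifs with c1 c2 c3
    · have c4 : q ∣ D.Dn := hM.hD ▸ c2.1
      have a1 : Ideal.absNorm (D.Df ⊔ Ideal.span {(q : 𝓞 D.E)}) = q :=
        sup_norm (A.Df_nrm ▸ sq) (A.Df_nrm ▸ c4)
      refine ⟨{D.Df ⊔ Ideal.span {(q : 𝓞 D.E)}}, Set.finite_singleton _, ?_, fun g hg => ?_⟩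
      · simp [e, (hd q).2 c2]
      · refine eq_of_norm (sup_le (le_Lq A hq' a1 ((C5 q c4).2 ?_) hg) ?_)
          (a1.trans_ne hq'.ne_zero) (by rw [hp g hg, a1, c1.1, pow_one])
        · exact hnt ▸ (S.dvd_nt hq' c2.1 t).2 c2.2
        · rw [hN g hg, c1.1, pow_one]
          exact le_sup_right
    · exact (c3 (hS q hq' (hM.hD ▸ c2.1) c2.2)).elim
    · refine ⟨{Q | Ideal.absNorm Q = q ∧ D.xF (A.jd η) ≤ Q},
        (Ideal.finite_setOfPred_absNorm_eq q).subset fun _ h => h.1, ?_, fun g hg =>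
          ⟨by rw [hp g hg, c1.1, pow_one], hg.symm.trans_le (Ideal.mul_le_left.trans le_sup_left)⟩⟩
      simp only [e, if_neg fun h => c2 ((hd q).1 h), div_one, hM.h1, hnt]
      exact le_rfl
    · refine ⟨_, Ideal.finite_setOfPred_absNorm_eq (q ^ m.factorization q), ?_, hp⟩
      have a1 := B.Idc.count (M := D.E) (i := m.factorization q) hq'
      rw [A.rankE] at a1
      have a3 : ((nI D.E (q ^ m.factorization q) : ℕ) : ℝ) ≤
          ((m.factorization q : ℝ) + 1) ^ (2 * n + 2) := by exact_mod_cast a1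
      rw [le_div_iff₀ (one_pos.trans_le (e0 q).1), mul_comm 2]
      exact mul_le_mul a3 (e0 q).2 (zero_le_one.trans (e0 q).1) (by positivity)
  rw [Nat.cast_mul]
  refine (mul_le_mul h1 h3 (Nat.cast_nonneg _) ((Nat.cast_nonneg _).trans h1)).trans_eq ?_
  rw [← Finset.prod_mul_distrib]
  exact Finset.prod_congr rfl fun q _ => mul_div_cancel₀ _ (one_pos.trans_le (e0 q).1).ne'

end Pool.Agent.Lib.MP_9177b7_ag.SO
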