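import Pool.Agent.Lib.MP_9177b7_ag.SO.StC

/-!
From classes with many good vectors to the weights.
-/

open NumberField Finset

noncomputable section

namespace Pool.Agent.Lib.MP_9177b7_ag.SO

theorem sum (hA : AlgStmt) (hX : FrameStmt) (hI : InvStmt) (hF : FibStmt) (hG : GenusStmt)
    (hL : LocStmt) (hR : RepStmt) (hS : SizeStmt) : SumStmt := by
  classical
  intro n R
  obtain ⟨C, hA⟩ := hA n
  obtain ⟨κ, hL⟩ := hL n C
  obtain ⟨R', hS⟩ := hS n R
  refine ⟨κ, R', 2 * (Icc (-⌈R⌉) ⌈R⌉).card, ⌈R⌉₊ + 1, ?_⟩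
  intro p _ c D Sy I c₀ K K₀ Bd hI₀ hD hBd hB
  obtain ⟨A⟩ := hA p c D
  set X := univ.filter fun x => (Sy.f x).Ev I c₀ K R K₀ with hXd
  have hO : ∀ x, ∃ O : Finset (Ix n → ℤ), (x ∈ X → K₀ ≤ O.card) ∧
      ∀ v ∈ O, (Sy.f x).Good I c₀ K R v := fun x => by
    by_cases hx : x ∈ X
    · obtain ⟨O, h1, h2⟩ := (mem_filter.1 hx).2
      exact ⟨O, fun _ => h1, h2⟩
    · exact ⟨∅, fun h => absurd h hx, by simp⟩
  choose O hO1 hO2 using hO
  have hu : ∀ y : D.Cl × (Ix n → ℤ), ∃ u : ℤ × ℤ × (Fin n → ℤ), (Sy.f y.1).Good I c₀ K R y.2 →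
      ∃ g, A.Inv (Sy.f y.1) y.2 u.1 u.2.1 u.2.2 g := fun y => by
    by_cases hy : (Sy.f y.1).Good I c₀ K R y.2
    · obtain ⟨q₀, t, k, h⟩ := hI n p c D C A (Sy.f y.1) y.2 hy.1 (by
        have h1 := hy.2.1.trans (Nat.le_ceil R)
        have h2 : ((⌈R⌉₊ + 1 : ℕ) : ℝ) ≤ D.Dn := by exact_mod_cast hD
        have h3 : |((bf c.A y.2 y.2 : ℤ) : ℝ)| < D.Dn := by
          push_cast at h2
          linarith
        exact_mod_cast h3)
      exact ⟨(q₀, t, k), fun _ => h⟩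
    · exact ⟨0, fun h => absurd h hy⟩
  choose u hu using hu
  set T : Finset (D.Cl × (Ix n → ℤ)) := X.biUnion fun x => (O x).image fun P => (x, P) with hT
  have hTm : ∀ y ∈ T, (Sy.f y.1).Good I c₀ K R y.2 := fun y hy => by
    obtain ⟨x, -, hx⟩ := mem_biUnion.1 hy
    obtain ⟨P, hP, rfl⟩ := mem_image.1 hx
    exact hO2 _ _ hP
  have hTc : K₀ * X.card ≤ T.card := by
    rw [hT, card_biUnion, mul_comm, ← smul_eq_mul]
    · refine card_nsmul_le_sum _ _ _ fun x hx => ?_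
      rw [card_image_of_injective _ (Prod.mk_right_injective x)]
      exact hO1 x hx
    · intro x _ x' _ hne
      refine disjoint_left.2 fun y h1 h2 => hne ?_
      obtain ⟨P, -, rfl⟩ := mem_image.1 h1
      obtain ⟨P', -, h⟩ := mem_image.1 h2
      exact (congrArg Prod.fst h).symm
  have hq : ∀ y ∈ T, (u y).1 ∈ Icc (-⌈R⌉) ⌈R⌉ := fun y hy => by
    obtain ⟨g, h⟩ := hu y (hTm y hy)
    have h1 := (hTm y hy).2.1.trans (Int.le_ceil R)
    rw [h.q] at h1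
    have h2 : |2 * (u y).1| ≤ ⌈R⌉ := by exact_mod_cast h1
    rw [mem_Icc]
    have := abs_le.1 h2
    omega
  have key : ∀ q₀ : ℤ, ((T.filter fun y => (u y).1 = q₀).card : ℝ) ≤
      Units.torsionOrder D.E * classNumber D.F * (2 * Bd) := fun q₀ => by
    obtain ⟨Sg, g1, g2, g3⟩ := hG n p c D C A q₀
    obtain ⟨S, hm, rfl, hSg⟩ := hL p c D A q₀ Sg g1 g2
    set T' := T.filter fun y => (u y).1 = S.q₀ with hT'
    have hT'm : ∀ y ∈ T', ∃ g, A.Inv (Sy.f y.1) y.2 S.q₀ (u y).2.1 (u y).2.2 g := fun y hy => by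
      obtain ⟨h1, h2⟩ := mem_filter.1 hy
      exact h2 ▸ hu y (hTm y h1)
    have hU : ∀ v ∈ T'.image fun y => (u y).2, ∃ f w g, A.Inv f w S.q₀ v.1 v.2 g ∧
        f.Good I c₀ K R w := fun v hv => by
      obtain ⟨y, hy, rfl⟩ := mem_image.1 hv
      obtain ⟨g, h⟩ := hT'm y hy
      exact ⟨_, _, g, h, hTm y (mem_filter.1 hy).1⟩
    obtain ⟨U₁, U₂, hU', r1, r2⟩ := hS p c D C κ A S I c₀ K _ hm hI₀ hU
    have b1 := hB S U₁ hm.hD hm.hF hm.ha hm.hb r1
    have b2 := hB S U₂ hm.hD hm.hF hm.ha hm.hb r2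
    have b3 : ∑ v ∈ T'.image fun y => (u y).2, S.W v.1 v.2 ≤ 2 * Bd := by
      refine (sum_le_sum_of_subset_of_nonneg hU' fun v _ _ => S.W_nonneg _ _).trans ?_
      have := sum_union_inter (s₁ := U₁) (s₂ := U₂) (f := fun v => S.W v.1 v.2)
      have h0 : 0 ≤ ∑ v ∈ U₁ ∩ U₂, S.W v.1 v.2 := sum_nonneg fun v _ => S.W_nonneg _ _
      linarith
    refine le_trans ?_ (mul_le_mul_of_nonneg_left b3 (by positivity))
    rw [card_eq_sum_card_image (fun y => (u y).2) T', Nat.cast_sum, mul_sum]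
    refine sum_le_sum fun v hv => ?_
    have h2 := hF n p c D C A Sy S.q₀ v.1 v.2 (T'.filter fun y => (u y).2 = v) fun y hy => by
      obtain ⟨hy', e⟩ := mem_filter.1 hy
      exact e ▸ hT'm y hy'
    obtain ⟨f, w, g, h, -⟩ := hU v hv
    have h3 := hR n p c D C κ A S v.1 v.2 hm (fun e => by
        have e' := h.eta
        rw [e] at e'
        have h0 : D.lam * f.y w * D.bar (f.y w) ≠ 0 :=
          mul_ne_zero (mul_ne_zero (hX n p c D).2.2.2.2.2.1 h.ne) ((map_ne_zero _).2 h.ne)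
        exact h0 e'.symm) fun l hl h1 h2 => by
      rw [hSg]
      exact g3 f w _ _ g h l hl h1 h2
    calc ((T'.filter fun y => (u y).2 = v).card : ℝ)
        ≤ Units.torsionOrder D.E * classNumber D.F *
          (((v.1.natAbs.gcd D.Dn).divisors.card * A.rr (A.et (A.nt S.q₀ v.1) v.2) : ℕ) : ℝ) := by
          rw [mul_assoc] at h2
          exact_mod_cast h2
      _ ≤ _ := by gcongr
  have h1 : ((K₀ * X.card : ℕ) : ℝ) ≤ T.card := by exact_mod_cast hTc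
  rw [Nat.cast_mul] at h1
  refine h1.trans ?_
  rw [card_eq_sum_card_fiberwise (f := fun y => (u y).1) (t := Icc (-⌈R⌉) ⌈R⌉) hq, Nat.cast_sum]
  refine (sum_le_card_nsmul _ _ _ fun q₀ _ => key q₀).trans (le_of_eq ?_)
  rw [nsmul_eq_mul]
  push_cast
  ring

end Pool.Agent.Lib.MP_9177b7_ag.SO
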