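import Pool.Agent.Lib.MP_9177b7_ag.SO.StB

/-!
The real special orthogonal group is transitive on the period domain.
-/

open Matrix

noncomputable section

namespace Pool.Agent.Lib.MP_9177b7_ag.SO

namespace Witt

variable {N : ℕ} {B : Matrix (Fin N) (Fin N) ℝ}

theorem symm (hB : Bᵀ = B) (x y : Fin N → ℝ) : bf B x y = bf B y x := by
  unfold bf
  rw [dotProduct_mulVec, ← mulVec_transpose, hB, dotProduct_comm]

theorem addl (x y z : Fin N → ℝ) : bf B (x + y) z = bf B x z + bf B y z := by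
  simp [bf, add_dotProduct]

theorem addr (x y z : Fin N → ℝ) : bf B x (y + z) = bf B x y + bf B x z := by
  simp [bf, mulVec_add, dotProduct_add]

theorem subl (x y z : Fin N → ℝ) : bf B (x - y) z = bf B x z - bf B y z := by
  simp [bf, sub_dotProduct]

theorem subr (x y z : Fin N → ℝ) : bf B x (y - z) = bf B x y - bf B x z := by
  simp [bf, mulVec_sub, dotProduct_sub]

theorem smull (c : ℝ) (x z : Fin N → ℝ) : bf B (c • x) z = c * bf B x z := by
  simp [bf, smul_dotProduct]

theorem smulr (c : ℝ) (x z : Fin N → ℝ) : bf B x (c • z) = c * bf B x z := by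
  simp [bf, mulVec_smul, dotProduct_smul]

/-- `g` preserves the form. -/
def Iso (B g : Matrix (Fin N) (Fin N) ℝ) : Prop := ∀ x y, bf B (g *ᵥ x) (g *ᵥ y) = bf B x y

theorem Iso.mul {g h : Matrix (Fin N) (Fin N) ℝ} (hg : Iso B g) (hh : Iso B h) :
    Iso B (g * h) := fun x y => by
  rw [← mulVec_mulVec, ← mulVec_mulVec, hg, hh]

theorem Iso.mat {g : Matrix (Fin N) (Fin N) ℝ} (hg : Iso B g) : gᵀ * B * g = B := by
  have e : ∀ (M : Matrix (Fin N) (Fin N) ℝ) i j,
      Pi.single i 1 ⬝ᵥ M *ᵥ Pi.single j 1 = M i j := fun M i j => by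
    simp
  ext i j
  rw [← e (gᵀ * B * g), ← e B]
  have := hg (Pi.single i 1) (Pi.single j 1)
  unfold bf at this
  rw [← this, ← mulVec_mulVec, ← mulVec_mulVec, dotProduct_mulVec, vecMul_transpose]

/-- The reflection in `u`. -/
def rf (B : Matrix (Fin N) (Fin N) ℝ) (u : Fin N → ℝ) : Matrix (Fin N) (Fin N) ℝ :=
  1 + vecMulVec ((-(2 / bf B u u)) • u) (u ᵥ* B)

theorem rf_apply (u x : Fin N → ℝ) : rf B u *ᵥ x = x - (2 / bf B u u * bf B u x) • u := by
  have e : (u ᵥ* B) ⬝ᵥ x = bf B u x := (dotProduct_mulVec u B x).symm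
  rw [rf, add_mulVec, one_mulVec, vecMulVec_mulVec, e]
  ext i
  simp
  ring

theorem rf_iso (hB : Bᵀ = B) {u : Fin N → ℝ} (hu : bf B u u ≠ 0) : Iso B (rf B u) := fun x y => by
  rw [rf_apply, rf_apply, subl, subr, subr, smull, smulr, smulr, smull, symm hB x u]
  field_simp
  ring

theorem rf_det {u : Fin N → ℝ} (hu : bf B u u ≠ 0) : (rf B u).det = -1 := by
  have e : (u ᵥ* B) ⬝ᵥ u = bf B u u := (dotProduct_mulVec u B u).symm
  rw [rf, vecMulVec_eq Unit, det_one_add_replicateCol_mul_replicateRow, dotProduct_smul, e]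
  simp only [smul_eq_mul]
  field_simp
  ring

theorem rf_fix {u x : Fin N → ℝ} (h : bf B u x = 0) : rf B u *ᵥ x = x := by
  rw [rf_apply, h]
  simp

/-- Two vectors of the same nonzero length are related by an isometry that fixes the vectors
orthogonal to both. -/
theorem step (hB : Bᵀ = B) {x y : Fin N → ℝ} (h : bf B x x = bf B y y) (h0 : bf B y y ≠ 0) :
    ∃ g, Iso B g ∧ g *ᵥ x = y ∧ ∀ z, bf B x z = 0 → bf B y z = 0 → g *ᵥ z = z := by
  have s := symm hB x y
  by_cases h1 : bf B (x - y) (x - y) = 0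
  · have e1 : bf B x y = bf B y y := by
      rw [subl, subr, subr] at h1
      linarith
    have e2 : bf B (x + y) (x + y) = 4 * bf B y y := by
      rw [addl, addr, addr]
      linarith
    have e3 : bf B (x + y) x = 2 * bf B y y := by
      rw [addl]
      linarith
    have h2 : bf B (x + y) (x + y) ≠ 0 := by
      rw [e2]
      exact mul_ne_zero (by norm_num) h0
    refine ⟨rf B y * rf B (x + y), (rf_iso hB h0).mul (rf_iso hB h2), ?_, fun z a b => ?_⟩
    · have a : rf B (x + y) *ᵥ x = (-1 : ℝ) • y := by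
        rw [rf_apply, e2, e3, show 2 / (4 * bf B y y) * (2 * bf B y y) = 1 by field_simp; ring]
        simp
      rw [← mulVec_mulVec, a, rf_apply, smulr,
        show 2 / bf B y y * (-1 * bf B y y) = -2 by field_simp]
      ext i
      simp
      ring
    · rw [← mulVec_mulVec, rf_fix (x := z) (by rw [addl, a, b, add_zero]), rf_fix b]
  · refine ⟨rf B (x - y), rf_iso hB h1, ?_, fun z a b => ?_⟩
    · have e : bf B (x - y) (x - y) = 2 * bf B (x - y) x := by
        rw [subl, subr, subr, subl]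
        linarith
      have e0 : bf B (x - y) x ≠ 0 := fun a => h1 (by rw [e, a, mul_zero])
      rw [rf_apply, e, show 2 / (2 * bf B (x - y) x) * bf B (x - y) x = 1 by field_simp]
      simp
    · exact rf_fix (by rw [subl, a, b, sub_zero])

/-- The orthogonal complement of a nondegenerate plane contains an anisotropic vector. -/
theorem exists_aniso (hB : Bᵀ = B) (hd : B.det ≠ 0) (hN : 3 ≤ N) {a b : Fin N → ℝ}
    (ha : bf B a a ≠ 0) (hb : bf B b b ≠ 0) (hab : bf B a b = 0) :
    ∃ u, bf B u u ≠ 0 ∧ bf B u a = 0 ∧ bf B u b = 0 := by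
  by_contra hc
  have h : ∀ u, bf B u a = 0 → bf B u b = 0 → bf B u u = 0 := fun u p q => by
    by_contra r
    exact hc ⟨u, r, p, q⟩
  have hba : bf B b a = 0 := by rw [symm hB, hab]
  have pr : ∀ x, bf B (x - (bf B x a / bf B a a) • a - (bf B x b / bf B b b) • b) a = 0 ∧
      bf B (x - (bf B x a / bf B a a) • a - (bf B x b / bf B b b) • b) b = 0 := fun x => by
    rw [subl, subl, subl, subl, smull, smull, smull, smull, hab, hba]
    constructor <;> field_simp <;> ring
  have z : ∀ u, bf B u a = 0 → bf B u b = 0 → u = 0 := fun u p q => by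
    have k : ∀ x, bf B x u = 0 := fun x => by
      obtain ⟨p', q'⟩ := pr x
      have e := h (u + (x - (bf B x a / bf B a a) • a - (bf B x b / bf B b b) • b))
        (by rw [addl, p, p', add_zero]) (by rw [addl, q, q', add_zero])
      rw [addl, addr, addr, h u p q, h _ p' q', symm hB u, subl, subl, smull, smull,
        symm hB a u, symm hB b u, p, q] at e
      linarith
    refine eq_zero_of_mulVec_eq_zero hd ?_
    ext i
    have := k (Pi.single i 1)
    simpa [bf] using this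
  have top : Submodule.span ℝ (({a, b} : Finset (Fin N → ℝ)) : Set (Fin N → ℝ)) = ⊤ := by
    rw [eq_top_iff]
    intro x _
    have e := z _ (pr x).1 (pr x).2
    rw [sub_sub, sub_eq_zero] at e
    rw [e]
    exact Submodule.add_mem _
      (Submodule.smul_mem _ _ (Submodule.subset_span (by simp)))
      (Submodule.smul_mem _ _ (Submodule.subset_span (by simp)))
  have c := finrank_span_finset_le_card (R := ℝ) ({a, b} : Finset (Fin N → ℝ))
  have c2 : ({a, b} : Finset (Fin N → ℝ)).card ≤ 2 := Finset.card_le_two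
  rw [Set.finrank, top, finrank_top, Module.finrank_fin_fun] at c
  omega

/-- Witt's theorem for orthogonal pairs of equal nonzero length, inside the special group. -/
theorem pair (hB : Bᵀ = B) (hd : B.det ≠ 0) (hN : 3 ≤ N) {a b a' b' : Fin N → ℝ}
    (h1 : bf B a a = bf B a' a') (h2 : bf B b b = bf B b' b') (h3 : bf B a b = 0)
    (h4 : bf B a' b' = 0) (ha : bf B a' a' ≠ 0) (hb : bf B b' b' ≠ 0) :
    ∃ g : Ort B, g.1.1 *ᵥ a = a' ∧ g.1.1 *ᵥ b = b' := by
  obtain ⟨g, i1, e1, -⟩ := step hB h1 ha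
  obtain ⟨k, i2, e2, f2⟩ := step hB (x := g *ᵥ b) (y := b') (by rw [i1, h2]) hb
  have e3 : k *ᵥ a' = a' :=
    f2 _ (by rw [← e1, i1, symm hB, h3]) (by rw [symm hB, h4])
  have i3 := i2.mul i1
  have m1 : (k * g) *ᵥ a = a' := by rw [← mulVec_mulVec, e1, e3]
  have m2 : (k * g) *ᵥ b = b' := by rw [← mulVec_mulVec, e2]
  have dd : (k * g).det * (k * g).det = 1 := by
    have := congrArg det i3.mat
    rw [det_mul, det_mul, det_transpose] at this
    apply mul_right_cancel₀ hd
    linarith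
  rcases mul_self_eq_one_iff.1 dd with d | d
  · exact ⟨⟨⟨k * g, d⟩, i3.mat⟩, m1, m2⟩
  · obtain ⟨u, u0, u1, u2⟩ := exists_aniso hB hd hN ha hb h4
    refine ⟨⟨⟨rf B u * (k * g), by rw [det_mul, d, rf_det u0]; norm_num⟩,
      ((rf_iso hB u0).mul i3).mat⟩, ?_, ?_⟩
    · change (rf B u * (k * g)) *ᵥ a = a'
      rw [← mulVec_mulVec, m1, rf_fix u1]
    · change (rf B u * (k * g)) *ᵥ b = b'
      rw [← mulVec_mulVec, m2, rf_fix u2]

/-- The real part of a complex vector. -/
def re (v : Fin N → ℂ) : Fin N → ℝ := fun i => (v i).re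

/-- The imaginary part of a complex vector. -/
def im (v : Fin N → ℂ) : Fin N → ℝ := fun i => (v i).im

theorem per {A : Matrix (Fin N) (Fin N) ℤ} (hA : (Am A ℝ)ᵀ = Am A ℝ) (v : Per A) :
    bf (Am A ℝ) (re v.1) (re v.1) = bf (Am A ℝ) (im v.1) (im v.1) ∧
      bf (Am A ℝ) (re v.1) (im v.1) = 0 ∧ bf (Am A ℝ) (re v.1) (re v.1) < 0 := by
  obtain ⟨v, h1, h2⟩ := v
  have a1 : (v ⬝ᵥ Am A ℂ *ᵥ v).re =
      bf (Am A ℝ) (re v) (re v) - bf (Am A ℝ) (im v) (im v) := by
    simp [bf, dotProduct, mulVec, re, im, Finset.sum_sub_distrib]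
  have a2 : (v ⬝ᵥ Am A ℂ *ᵥ v).im =
      bf (Am A ℝ) (re v) (im v) + bf (Am A ℝ) (im v) (re v) := by
    simp [bf, dotProduct, mulVec, re, im, Finset.sum_add_distrib]
  have a3 : (star v ⬝ᵥ Am A ℂ *ᵥ v).re =
      bf (Am A ℝ) (re v) (re v) + bf (Am A ℝ) (im v) (im v) := by
    simp [bf, dotProduct, mulVec, re, im, Finset.sum_add_distrib]
  rw [h1] at a1 a2
  rw [a3] at h2
  rw [symm hA (im v)] at a2
  simp only [Complex.zero_re, Complex.zero_im] at a1 a2
  refine ⟨?_, ?_, ?_⟩ <;> dsimp only <;> linarith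

end Witt

open _root_.Pool.Agent.Lib.MP_9177b7_ag.SO.Witt in
theorem witt : WittStmt := by
  intro N A v w hA hd hN
  have hB : (Am A ℝ)ᵀ = Am A ℝ := by rw [← transpose_map, hA]
  have hd' : (Am A ℝ).det ≠ 0 := by
    have := (Int.castRingHom ℝ).map_det A
    rw [show Am A ℝ = (Int.castRingHom ℝ).mapMatrix A from rfl, ← this]
    simpa using hd
  obtain ⟨v1, v2, v3⟩ := per hB v
  obtain ⟨w1, w2, w3⟩ := per hB w
  obtain ⟨c, hc⟩ : ∃ c : ℝ,
      c * (c * bf (Am A ℝ) (re v.1) (re v.1)) = bf (Am A ℝ) (re w.1) (re w.1) := by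
    refine ⟨√(bf (Am A ℝ) (re w.1) (re w.1) / bf (Am A ℝ) (re v.1) (re v.1)), ?_⟩
    rw [← mul_assoc, Real.mul_self_sqrt (div_nonneg_of_nonpos w3.le v3.le),
      div_mul_cancel₀ _ v3.ne]
  obtain ⟨g, g1, g2⟩ := pair hB hd' hN (a := c • re v.1) (b := c • im v.1) (a' := re w.1)
    (b' := im w.1) (by rw [smull, smulr, hc]) (by rw [smull, smulr, ← v1, hc, w1])
    (by rw [smull, smulr, v2, mul_zero, mul_zero]) w2 w3.ne (w1 ▸ w3.ne)
  refine ⟨g, c, ?_⟩
  change w.1 = (c : ℂ) • (g.1.1.map Complex.ofReal *ᵥ v.1)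
  rw [mulVec_smul] at g1 g2
  ext i
  have k1 := congrFun g1 i
  have k2 := congrFun g2 i
  apply Complex.ext
  · simpa [mulVec, dotProduct, re] using k1.symm
  · simpa [mulVec, dotProduct, im] using k2.symm

end Pool.Agent.Lib.MP_9177b7_ag.SO
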