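import Pool.Agent.Lib.MP_9177b7_ag.B.Cyc
import Pool.Agent.Lib.MP_9177b7_ag.B.Idc
import Pool.Agent.Lib.MP_9177b7_ag.B.Pad
import Pool.Agent.Lib.MP_9177b7_ag.SO.Alg
import Pool.Agent.Lib.MP_9177b7_ag.SO.BAll
import Pool.Agent.Lib.MP_9177b7_ag.SO.Chg
import Pool.Agent.Lib.MP_9177b7_ag.SO.Co
import Pool.Agent.Lib.MP_9177b7_ag.SO.Count
import Pool.Agent.Lib.MP_9177b7_ag.SO.Ctx
import Pool.Agent.Lib.MP_9177b7_ag.SO.DAll
import Pool.Agent.Lib.MP_9177b7_ag.SO.Fib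
import Pool.Agent.Lib.MP_9177b7_ag.SO.Frame
import Pool.Agent.Lib.MP_9177b7_ag.SO.Genus
import Pool.Agent.Lib.MP_9177b7_ag.SO.Inv
import Pool.Agent.Lib.MP_9177b7_ag.SO.Lift
import Pool.Agent.Lib.MP_9177b7_ag.SO.Loc
import Pool.Agent.Lib.MP_9177b7_ag.SO.Meas
import Pool.Agent.Lib.MP_9177b7_ag.SO.Move
import Pool.Agent.Lib.MP_9177b7_ag.SO.Nbr
import Pool.Agent.Lib.MP_9177b7_ag.SO.Orb
import Pool.Agent.Lib.MP_9177b7_ag.SO.Rep
import Pool.Agent.Lib.MP_9177b7_ag.SO.Size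
import Pool.Agent.Lib.MP_9177b7_ag.SO.Sum
import Pool.Agent.Lib.MP_9177b7_ag.SO.Tw
import Pool.Agent.Lib.MP_9177b7_ag.SO.Witt

/-!
Assembly.
-/

namespace Pool.Agent.Lib.MP_9177b7_ag.SO

theorem final_all : FinalStmt :=
  have hC := chg frame
  have hS := same tw_stmt
  fin ctx (nbr trans' B.cyc) proj'
    (meas (orb frame tw_stmt hC hS) (lift frame witt tube') (move B.pad disc frame hS hC) proj'
      tube')
    (count alg (sum alg frame (inv frame co) fib (genus co) (loc B.idc co) (rep co)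
      (size B.pad co frame)) dall)
    equi'

end Pool.Agent.Lib.MP_9177b7_ag.SO
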