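import Pool.Agent.Lib.MP_9177b7_ag.SO.Rel
import Pool.Agent.Lib.MP_9177b7_ag.S4.Bow

/-!
Bowen balls of a diagonal element of `SO_{2 n + 3}(ℚ_p)`.
-/

open MeasureTheory Filter Topology Set
open scoped ENNReal

noncomputable section

namespace Pool.Agent.Lib.MP_9177b7_ag.SO

open S4 (colour cov_ex par cov2 p0 pz_le)

variable {n p : ℕ} [Fact p.Prime]

/-- The elements whose entries have bounded valuation. -/
def GP (p : ℕ) [Fact p.Prime] (e : Ix n → Ix n → ℤ) : Set (HQ n p) :=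
  GS p fun i j => (p : ℝ) ^ (-e i j)

theorem GP_mono {e e' : Ix n → Ix n → ℤ} (h : ∀ i j, e' i j ≤ e i j) : GP p e ⊆ GP p e' :=
  fun _ hg i j => (hg i j).trans (pz_le (h i j))

theorem GP_opn (e : Ix n → Ix n → ℤ) : IsOpen (GP p e) := GS_opn fun _ _ => zpow_pos p0 _

theorem GP_conj (k : Ix n → ℤ) (l : ℕ) (e : Ix n → Ix n → ℤ) (g : HQ n p) :
    (dg p k ^ l)⁻¹ * g * dg p k ^ l ∈ GP p e ↔ g ∈ GP p fun i j => e i j + l * wt k i j := by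
  have a : (dg p k ^ l)⁻¹ = dg p ((-l : ℤ) • k) := by
    rw [← dg_zpow, zpow_neg, zpow_natCast]
  have b : dg p k ^ l = (dg p ((-l : ℤ) • k))⁻¹ := by rw [← a, inv_inv]
  rw [a, b]
  refine forall₂_congr fun i j => ?_
  dsimp only
  rw [norm_conj, wt_smul, neg_mul, neg_neg, neg_add, zpow_add₀ p0.ne', zpow_neg _ (_ * _),
    ← div_eq_mul_inv, le_div_iff₀' (zpow_pos p0 _)]

theorem rad_pow {e : Ix n → Ix n → ℤ} (h : ∀ i m j, e i j ≤ e i m + e m j) :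
    Rad fun i j => (p : ℝ) ^ (-e i j) :=
  ⟨fun _ _ => (zpow_pos p0 _).le, fun i m j => by
    dsimp only
    rw [← zpow_add₀ p0.ne', ← neg_add]
    exact pz_le (h i m j)⟩

/-- The valuations of the Bowen balls. -/
def be (m : ℕ) (k : Ix n → ℤ) (l : ℕ) (i j : Ix n) : ℤ := if 0 < wt k i j then l * wt k i j else m

theorem be_add (m : ℕ) (k : Ix n → ℤ) (l : ℕ) (i a j : Ix n) :
    be m k l i j ≤ be m k l i a + be m k l a j := by
  have := wt_add k i a j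
  have := Int.natCast_nonneg m
  have := Int.natCast_nonneg l
  simp only [be]
  split_ifs <;> first | omega | nlinarith

/-- The Bowen balls. -/
def Bl (p : ℕ) [Fact p.Prime] (m : ℕ) (k : Ix n → ℤ) (l : ℕ) : Subgroup (HQ n p) :=
  Gr p (rad_pow (p := p) (be_add m k l))

variable {m l L : ℕ} {k : Ix n → ℤ} {g : HQ n p}

theorem coe_Bl : (Bl p m k l : Set (HQ n p)) = GP p (be m k l) := coe_Gr _

theorem Bl_cpt : IsCompact (Bl p m k l : Set (HQ n p)) := by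
  rw [coe_Bl]
  exact GS_cpt _

theorem Bl_opn : IsOpen (Bl p m k l : Set (HQ n p)) := by
  rw [coe_Bl]
  exact GP_opn _

theorem mem_Bl : g ∈ Bl p m k l ↔ g ∈ GP p (be m k l) := mem_Gr _ g

theorem Bl_mono {m' : ℕ} (h : m' ≤ m) (hg : g ∈ Bl p m k l) : g ∈ Bl p m' k l :=
  mem_Bl.2 (GP_mono (fun i j => by simp only [be]; split_ifs <;> omega) (mem_Bl.1 hg))

theorem Bl_conj (hg : g ∈ Bl p m k l) : (dg p k ^ l)⁻¹ * g * dg p k ^ l ∈ Bl p m k 0 := by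
  refine mem_Bl.2 ((GP_conj _ _ _ _).2 (GP_mono (fun i j => ?_) (mem_Bl.1 hg)))
  have := Int.natCast_nonneg l
  simp only [be]
  split_ifs
  · simp
  · nlinarith

theorem Bl_step (A : Set (HQ n p)) (hA : A ⊆ Bl p m k l) (s : Finset (HQ n p))
    (hs : ∀ h ∈ A, ∃ g ∈ s, (dg p k ^ l)⁻¹ * h * dg p k ^ l * g⁻¹ ∈ Bl p 0 k L) :
    ∃ t : Finset (HQ n p), t.card ≤ s.card ∧ ∀ h ∈ A, ∃ g ∈ t, h * g⁻¹ ∈ Bl p m k (l + L) := by
  obtain ⟨t, h1, h2⟩ := colour A _ _ s hs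
  refine ⟨t, h1, fun h hh => (h2 h hh).imp fun g hg => ⟨hg.1, mem_Bl.2 fun i j => ?_⟩⟩
  have a := mem_Bl.1 (mul_mem (hA hh) (inv_mem (hA hg.2.1))) i j
  have b := (GP_conj k l _ (h * g⁻¹)).1 (mem_Bl.1 (by simpa [mul_assoc] using hg.2.2)) i j
  simp only [be] at a b ⊢
  split_ifs at a b ⊢
  · rwa [Nat.cast_add, add_mul, add_comm (_ * _ : ℤ)]
  · exact a

theorem index (p : ℕ) [Fact p.Prime] (k : Ix n → ℤ) : ∃ W : ℕ, ∀ m l L, ∃ s : Finset (HQ n p),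
    s.card ≤ W ^ L ∧ ∀ h ∈ Bl p m k l, ∃ g ∈ s, h * g⁻¹ ∈ Bl p m k (l + L) := by
  classical
  obtain ⟨s₀, h₀⟩ := cov_ex (A := Bl p 0 k 0) Bl_cpt (P := Bl p 0 k 1)
    Bl_opn
  refine ⟨s₀.card, fun m l L => ?_⟩
  induction L with
  | zero => exact ⟨{1}, by simp, fun h hh => ⟨1, by simp, by simpa using hh⟩⟩
  | succ L ih =>
    obtain ⟨s, h1, h2⟩ := ih
    obtain ⟨t, h3, h4⟩ := Bl_step (Bl p m k (l + L)) subset_rfl s₀ fun h hh =>
      h₀ _ (Bl_mono m.zero_le (Bl_conj hh))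
    refine ⟨Finset.image₂ (· * ·) t s, (Finset.card_image₂_le _ _ _).trans ?_, fun h hh => ?_⟩
    · rw [pow_succ']
      exact Nat.mul_le_mul h3 h1
    · obtain ⟨g, a, b⟩ := h2 h hh
      obtain ⟨g', c, d⟩ := h4 _ b
      exact ⟨_, Finset.mem_image₂_of_mem c a, by rwa [mul_inv_rev, ← mul_assoc]⟩

theorem near (S : Sp n p) (k : Ix n → ℤ) {Q Q' : Set S.X} (cQ : IsCompact Q) (cQ' : IsClosed Q')
    {P : Set (HQ n p)} (oP : IsOpen P) (h : ∀ u ∈ N p k, ∀ x ∈ Q, u • x ∈ Q' → u ∈ P) :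
    ∃ m, ∃ V ∈ 𝓝 (1 : S.C), ∀ h ∈ Bl p m k 0, ∀ c ∈ V, ∀ x ∈ Q,
      ((h, c) : HQ n p × S.C) • x ∈ Q' → h ∈ P := by
  let K : ℕ → Set (HQ n p) := fun m => Bl p m k 0 \ P
  have cK : ∀ m, IsCompact (K m) := fun m => IsCompact.diff Bl_cpt oP
  have h1 : (⋂ m, K m) ×ˢ {1} ⊆ interior {g : HQ n p × S.C | ∀ y ∈ Q, g • y ∉ Q'} := by
    rintro ⟨u, c⟩ ⟨hu, rfl⟩
    have hu := mem_iInter.1 hu
    have uI : u ∈ N p k := by
      refine (mem_N k u).2 ⟨fun i j => ?_, fun i j e => ?_⟩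
      · simpa [be] using mem_Bl.1 (hu 0).1 i j
      · refine norm_le_zero_iff.1 (ge_of_tendsto' (tendsto_pow_atTop_nhds_zero_of_lt_one
          (inv_nonneg.2 (p0 (p := p)).le) (inv_lt_one_of_one_lt₀ p1)) fun m => ?_)
        simpa [be, e] using mem_Bl.1 (hu m).1 i j
    refine mem_interior_iff_mem_nhds.2 (cQ.eventually_forall_of_forall_eventually
      (P := fun (g : HQ n p × S.C) y => g • y ∉ Q') fun y hy => ?_)
    exact (cQ'.isOpen_compl.preimage continuous_smul).mem_nhds fun e => (hu 0).2 (h u uI y hy e)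
  obtain ⟨U, V, oU, oV, hU, hV, hUV⟩ := generalized_tube_lemma
    ((cK 0).of_isClosed_subset (isClosed_iInter fun m => (cK m).isClosed) (iInter_subset K 0))
    isCompact_singleton isOpen_interior h1
  obtain ⟨m, hm⟩ := exists_subset_nhds_of_isCompact' (V := K) (U := U)
    (Antitone.directed_ge fun a b hab h hh => ⟨Bl_mono hab hh.1, hh.2⟩) cK
    (fun m => (cK m).isClosed) fun x hx => oU.mem_nhds (hU hx)
  refine ⟨m, V, oV.mem_nhds (hV rfl), fun h hh c hc x hx e => ?_⟩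
  by_contra q
  exact interior_subset (hUV (mk_mem_prod (hm ⟨hh, q⟩) hc)) _ hx e

theorem inv_pow (S : Sp n p) {ν : Measure S.X} {T : HQ n p} (hν : ν.map (T • ·) = ν) (r : ℕ) :
    ν.map (T ^ r • ·) = ν := by
  induction r with
  | zero => simp
  | succ r ih =>
    have e : (T ^ (r + 1) • · : S.X → S.X) = (T ^ r • ·) ∘ (T • ·) :=
      funext fun x => by simp [pow_succ, mul_smul]
    rw [e, ← Measure.map_map (continuous_const_smul _).measurable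
      (continuous_const_smul _).measurable, hν, ih]

theorem inv_set (S : Sp n p) {ν : Measure S.X} {T : HQ n p} (hν : ν.map (T • ·) = ν) (A : Set S.X) :
    ν ((T • ·) ⁻¹' A) = ν A :=
  ((Homeomorph.smul T).measurableEmbedding.map_apply ν _).symm.trans
    (congrFun (congrArg DFunLike.coe hν) _)

/-- A piece of an orbit. -/
def Sp.orb (S : Sp n p) (A : Set (HQ n p)) (O : Set S.C) (y : S.X) : Set S.X :=
  {z | ∃ h ∈ A, ∃ c ∈ O, z = ((h, c) : HQ n p × S.C) • y}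

theorem bowG (p : ℕ) [Fact p.Prime] (k : Ix n → ℤ) : ∃ W : ℕ, ∀ (S : Sp n p) (ν : Measure S.X)
    (ι : Type) [Finite ι] (Q : ι → Set S.X) (s : ι → Finset (HQ n p)) (K L Wg : ℕ) (w σ C₀ : ℝ)
    (δ : ℝ≥0∞) (O : Set S.C) (G : ℕ → Set S.X), ν.map (dg p k • ·) = ν →
    (∀ θ, IsCompact (Q θ)) → (∀ θ, (s θ).card ≤ Wg) →
    (∀ θ, ∀ u ∈ N p k, ∀ x ∈ Q θ, u • x ∈ ⋃ θ, Q θ → ∃ g ∈ s θ, u * g⁻¹ ∈ Bl p 0 k (2 * L)) →
    O ∈ 𝓝 (1 : S.C) → (∀ (r : ℕ) (y : S.X), ν (S.orb (GP p fun i j => r * |wt k i j|) O y ∩ G r) ≤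
      ENNReal.ofReal (C₀ * σ ^ r)) → (∀ᶠ r in atTop, ν (G r)ᶜ ≤ δ) → L ≠ 0 → 1 ≤ Wg → 1 ≤ w →
    W ≤ w ^ K → 0 ≤ σ → 2 * (w ^ 2 * σ) ^ L * Wg < 1 →
    ν univ ≤ (1 + K) * ν (⋃ θ, Q θ)ᶜ + δ := by
  obtain ⟨W, hW⟩ := index p k
  refine ⟨W, fun S ν ι _ Q s K L Wg w σ C₀ δ O G hν cQ hs hQ hO h3 h4 L0 g1 w1 w2 σ0 r1 => ?_⟩
  have cU := isCompact_iUnion cQ
  choose m V hV hm using fun θ => near S k (cQ θ) cU.isClosed
    (P := ⋃ g ∈ s θ, {u | u * g⁻¹ ∈ Bl p 0 k (2 * L)}) (isOpen_biUnion fun g _ =>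
      IsOpen.preimage (continuous_mul_const g⁻¹) (t := Bl p 0 k (2 * L)) Bl_opn)
    fun u hu x hx e => by simpa using hQ θ u hu x hx e
  obtain ⟨m₀, hm₀⟩ := (finite_range m).bddAbove
  set T := dg p k with hT
  have act : ∀ (g h : HQ n p) (c : S.C) (y : S.X), ((g⁻¹ * h * g, c) : HQ n p × S.C) • g⁻¹ • y =
      g⁻¹ • ((h, c) : HQ n p × S.C) • y := fun g h c y => by
    simp only [Sp.smul_def, ← mul_smul, Prod.mk_mul_mk, mul_inv_cancel_right, mul_one, one_mul]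
  refine cov2 ν (T ^ (2 * L)) _ K (W ^ (2 * L)) Wg (w ^ (2 * L)) (σ ^ L) C₀ δ
    (fun l => Bl p m₀ k (2 * L * l)) (O ∩ ⋂ θ, V θ) (fun M => {z | (T ^ (L * M))⁻¹ • z ∈ G (L * M)})
    S.opn (inv_pow S hν _) cU (inter_mem hO (iInter_mem.2 hV)) Bl_opn
    (fun l => hW m₀ _ _) (fun l y hy => ?_) (fun M y => ?_) ?_ g1 (one_le_pow₀ w1) ?_
    (pow_nonneg σ0 _) ?_
  · obtain ⟨θ, hθ⟩ := mem_iUnion.1 hy
    rw [← pow_mul] at hθ ⊢
    obtain ⟨t, a, b⟩ := Bl_step (L := 2 * L) {h | h ∈ Bl p m₀ k (2 * L * l) ∧ ∃ c ∈ V θ,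
        (T ^ (2 * L * l))⁻¹ • ((h, c) : HQ n p × S.C) • y ∈ ⋃ θ, Q θ} (fun h hh => hh.1) (s θ)
      fun h ⟨h1, c, h2, h3⟩ => by
        simpa using hm θ _ (Bl_mono (hm₀ ⟨θ, rfl⟩) (Bl_conj h1)) c h2 _ hθ (act _ h c y ▸ h3)
    exact ⟨t, a.trans (hs θ), fun h hh c hc e => b h ⟨hh, c, mem_iInter.1 hc.2 θ, e⟩⟩
  · rw [← inv_set S (inv_pow S hν (L * M)), ← pow_mul]
    refine (measure_mono ?_).trans (h3 (L * M) ((T ^ (L * M))⁻¹ • y))
    rintro z ⟨⟨h, hh, c, hc, hz⟩, hG⟩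
    refine ⟨⟨_, (GP_conj k (L * M) _ h).2 (GP_mono (fun i j => ?_) (mem_Bl.1 hh)), c, hc.1, ?_⟩,
      by simpa using hG⟩
    · simp only [be]
      split_ifs with e
      · rw [abs_of_pos e]
        push_cast
        linarith
      · rw [abs_of_nonpos (not_lt.1 e)]
        simp
    · rw [act, ← hz, inv_smul_smul]
  · filter_upwards [(tendsto_id.const_mul_atTop' (Nat.pos_of_ne_zero L0)).eventually h4] with M hM
    rw [← inv_set S (inv_pow S hν (L * M))]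
    simpa [preimage, compl_def] using hM
  · rw [← pow_mul, mul_comm _ K, pow_mul w, Nat.cast_pow]
    exact pow_le_pow_left₀ (Nat.cast_nonneg _) w2 _
  · rw [mul_pow, ← pow_mul] at r1
    linarith

theorem GP_KI {I : Finset (Ix n)} {e : Ix n → Ix n → ℤ} {r : ℕ} (h0 : ∀ i j, 0 ≤ e i j)
    (h : ∀ i j, ¬ (i ∈ I ↔ j ∈ I) → r ≤ e i j) : GP p e ⊆ KI p I r := fun g hg =>
  ⟨(intg_iff g).2 fun i j => by simpa using (hg i j).trans (pz_le (h0 i j)), fun i j v => by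
    rw [← D_ne g fun w => v (by rw [w])]
    simpa using (hg i j).trans (pz_le (h i j v))⟩

theorem tube_pow {S : Sp n p} {ν : Measure S.X} (h : S.Tube ν) : ∃ O ∈ 𝓝 (1 : S.C), ∃ C₀ τ : ℝ,
    0 ≤ C₀ ∧ 0 < τ ∧ τ < 1 ∧ ∀ I : Finset (Ix n), Adm I → ∀ (m : ℕ) (x : S.X),
      ν (S.orb (KI p I m) O x) ≤ ENNReal.ofReal (C₀ * τ ^ m) := by
  obtain ⟨O, hO, C₀, κ, κ0, h⟩ := h
  refine ⟨O, hO, |C₀|, (p : ℝ) ^ (-κ), abs_nonneg _, Real.rpow_pos_of_pos p0 _,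
    Real.rpow_lt_one_of_one_lt_of_neg p1 (neg_lt_zero.2 κ0), fun I hI m x =>
      (h I hI m x).trans (ENNReal.ofReal_le_ofReal ?_)⟩
  rw [← Real.rpow_natCast, ← Real.rpow_mul p0.le, neg_mul]
  exact mul_le_mul_of_nonneg_right (le_abs_self _) (Real.rpow_pos_of_pos p0 _).le

theorem bow (S : Sp n p) (ν : Measure S.X) [IsFiniteMeasure ν] (k : Ix n → ℤ) (I : Finset (Ix n))
    (Z : Set S.X) (hI : Adm I) (hk : ∀ i j, ¬ (i ∈ I ↔ j ∈ I) → wt k i j ≠ 0)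
    (hν : ν.map (dg p k • ·) = ν) (hT : S.Tube ν) (mZ : MeasurableSet Z) (aZ : ∀ᵐ x ∂ν, x ∈ Z)
    (sZ : ∀ u ∈ N p k, ∀ x ∈ Z, u • x ∈ Z → u = 1) : ν = 0 := by
  obtain ⟨O, hO, C₀, τ, -, t0, t1, h⟩ := tube_pow hT
  obtain ⟨W, hW⟩ := bowG p k
  obtain ⟨ε, e0, he⟩ := par t1
  obtain ⟨K, hK⟩ := pow_unbounded_of_one_lt (W : ℝ) (Real.one_lt_exp_iff.2 e0)
  have r1 : Real.exp ε ^ 2 * τ < 1 := by
    refine lt_of_le_of_lt (mul_le_mul_of_nonneg_right ?_ t0.le) he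
    rw [← Real.exp_nat_mul]
    exact Real.exp_le_exp.2 (by push_cast; linarith)
  obtain ⟨L, L0, hL⟩ := ((eventually_ne_atTop 0).and ((tendsto_pow_atTop_nhds_zero_of_lt_one
    (by positivity) r1).eventually (gt_mem_nhds (show (0 : ℝ) < 1 / 2 by norm_num)))).exists
  rw [← Measure.measure_univ_eq_zero]
  by_contra hne
  have hK1 : (1 + K : ℝ≥0∞) ≠ 0 := by simp
  have hK' : (1 + K : ℝ≥0∞) ≠ ∞ := by simp
  obtain ⟨Q, hQZ, hQ, hlt⟩ := mZ.exists_isCompact_sdiff_lt (μ := ν) (measure_ne_top _ _)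
    (ε := ν univ / (1 + K)) (ENNReal.div_ne_zero.2 ⟨hne, hK'⟩)
  have hc : ν Qᶜ ≤ ν (Z \ Q) := measure_mono_ae (aZ.mono fun x hx hq => ⟨hx, hq⟩)
  have := hW S ν Unit (fun _ => Q) (fun _ => {1}) K L 1 (Real.exp ε) τ C₀ 0 O (fun _ => univ) hν
    (fun _ => hQ) (fun _ => by simp) (fun _ u hu x hx e => ⟨1, by simp, by
      rw [sZ u hu x (hQZ hx) (hQZ (by simpa using e))]
      simp⟩) hO (fun r y => (measure_mono ?_).trans (h I hI r y)) (by simp) L0 le_rfl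
    (Real.one_le_exp e0.le) hK.le t0.le (by push_cast; linarith)
  · rw [iUnion_const, add_zero] at this
    have := this.trans_lt ((ENNReal.mul_lt_mul_iff_right hK1 hK').2 (hc.trans_lt hlt))
    rw [ENNReal.mul_div_cancel hK1 hK'] at this
    exact lt_irrefl _ this
  · rintro z ⟨⟨g, hg, e⟩, -⟩
    exact ⟨g, GP_KI (fun i j => by positivity) (fun i j v => le_mul_of_one_le_right
      (Int.natCast_nonneg r) (Int.one_le_abs (hk i j v))) hg, e⟩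

end Pool.Agent.Lib.MP_9177b7_ag.SO
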