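import Pool.Agent.Lib.MP_9177b7_ag.SO.D1s
import Pool.Agent.Lib.MP_9177b7_ag.B.SieveN

/-!
The first regime of the sieve problem: assembly.
-/

open Finset

noncomputable section

namespace Pool.Agent.Lib.MP_9177b7_ag.SO

open B (tsumP denN CgN boxN)

namespace D1J

/-- A sum split along residue classes. -/
theorem split {ι : Type} {m : ℕ} (hm : 0 < m) (V : Finset ι) (c : ι → ℤ) (f : ι → ℝ) (b : ℝ)
    (h : ∀ r : ℤ, ∀ V' ⊆ V, (∀ k ∈ V', (m : ℤ) ∣ c k - r) → ∑ k ∈ V', f k ≤ b) :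
    ∑ k ∈ V, f k ≤ m * b := by
  have h0 : (0 : ℤ) < m := by exact_mod_cast hm
  rw [← sum_fiberwise_of_maps_to (s := V) (t := range m) (g := fun k => (c k % m).toNat)
    fun k _ => mem_range.2 (by
      have := Int.emod_lt_of_pos (c k) h0
      have := Int.emod_nonneg (c k) h0.ne'
      omega)]
  refine (sum_le_card_nsmul (range m) _ b fun r _ =>
    h r _ (filter_subset _ _) fun k hk => ?_).trans_eq (by simp)
  have e := (mem_filter.1 hk).2
  have := Int.emod_nonneg (c k) h0.ne'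
  refine ⟨c k / m, ?_⟩
  have e2 := Int.emod_add_mul_ediv (c k) m
  omega

/-- A sum over pairs, by the first coordinate. -/
theorem pairs {ι : Type} [DecidableEq ι] (U : Finset (ℤ × ι)) (f : ℤ → ι → ℝ) (b : ℤ → ℝ)
    (h : ∀ t ∈ U.image Prod.fst, ∀ V : Finset ι, (∀ k ∈ V, (t, k) ∈ U) → ∑ k ∈ V, f t k ≤ b t) :
    ∑ u ∈ U, f u.1 u.2 ≤ ∑ t ∈ U.image Prod.fst, b t := by
  rw [← sum_fiberwise_of_maps_to (s := U) (t := U.image Prod.fst) (g := Prod.fst)
    fun u hu => mem_image_of_mem _ hu]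
  refine sum_le_sum fun t ht => le_trans (le_of_eq ?_)
    (h t ht ((U.filter fun u => u.1 = t).image Prod.snd) fun k hk => ?_)
  · rw [sum_image fun u hu v hv e => Prod.ext
      ((mem_filter.1 hu).2.trans (mem_filter.1 hv).2.symm) e]
    exact sum_congr rfl fun u hu => by rw [(mem_filter.1 hu).2]
  · obtain ⟨u, hu, rfl⟩ := mem_image.1 hk
    rw [← (mem_filter.1 hu).2]
    exact (mem_filter.1 hu).1

open Classical in
/-- The density of one class of one coordinate. -/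
theorem den {d M : ℕ} (hM : 0 < M) (r : ℤ) :
    denN M (fun k : Fin (d + 1) → ℤ =>
      @ite _ ((M : ℤ) ∣ k 0 - r) (propDecidable _) (1 : ℝ) 0) ≤ (M : ℝ)⁻¹ := by
  have e : ∀ c : ℝ, denN M (fun _ : Fin d → ℤ => c) = c := fun c => by
    simpa using B.SieveN.den_aff (d := d) hM c 0 fun _ => 0
  rw [B.SieveN.den_cons, div_eq_inv_mul]
  simp only [Fin.cons_zero, e]
  refine mul_le_of_le_one_right (by positivity) ?_
  rw [sum_boole, Nat.cast_le_one, card_le_one]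
  intro a ha b hb
  obtain ⟨a1, a2⟩ := mem_filter.1 ha
  obtain ⟨b1, b2⟩ := mem_filter.1 hb
  rw [mem_range] at a1 b1
  have := Int.eq_zero_of_abs_lt_dvd (a2.sub b2) (abs_lt.2 ⟨by omega, by omega⟩)
  omega

variable {n p h : ℕ} {κ : ℝ} (S : SD n p h κ)

theorem size {g : ℕ} (hn : 0 < n) (H : S.D < S.dF ^ g) (i : Fin n) :
    (S.X ^ (1 / (2 * ((g + 1) * ((n + 1) * n)) : ℕ) : ℝ)) ^ 2 ≤ 2 * S.w i := by
  have h1 := S.one_le_X
  have w := S.w1 i
  refine le_of_pow_le_pow_left₀ (n := (g + 1) * ((n + 1) * n)) (by positivity) (by positivity) ?_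
  rw [← pow_mul, one_div, Real.rpow_inv_natCast_pow (by positivity) (by positivity), mul_comm (g + 1),
    pow_mul]
  refine le_trans ?_ (pow_le_pow_left₀ (by positivity) (S.wd i) _)
  rw [pow_succ]
  exact mul_le_mul_of_nonneg_right (by exact_mod_cast H.le) (by positivity)

theorem box {R : ℝ} (N : ℤ) : ∃ a : Fin n → ℤ, ∀ k : Fin n → ℤ,
    (∀ i, |((S.c i * N + S.D * k i : ℤ) : ℝ)| ≤ R * S.D * S.w i) →
      k ∈ boxN a fun i => ⌈(2 * |R| + 1) * S.w i⌉₊ := by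
  refine ⟨fun i => ⌈-(S.c i * N : ℝ) / S.D - |R| * S.w i⌉, fun k hk =>
    Fintype.mem_piFinset.2 fun i => mem_Ico.2 ?_⟩
  have D0 : (0 : ℝ) < S.D := by exact_mod_cast S.sqf.ne_zero.bot_lt
  have w := S.w1 i
  obtain ⟨a, b⟩ := abs_le.1 ((hk i).trans (show _ ≤ |R| * S.D * S.w i by
    gcongr
    exact le_abs_self R))
  push_cast at a b
  have a' : -(S.c i * N : ℝ) / S.D - |R| * S.w i ≤ k i := by
    rw [sub_le_iff_le_add, div_le_iff₀ D0]
    linarith
  have b' : k i - |R| * S.w i ≤ -(S.c i * N : ℝ) / S.D := by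
    rw [le_div_iff₀ D0]
    linarith
  refine ⟨Int.ceil_le.2 a', ?_⟩
  have c := Int.le_ceil (-(S.c i * N : ℝ) / S.D - |R| * S.w i)
  have d := Nat.le_ceil ((2 * |R| + 1) * S.w i)
  have : (k i : ℝ) < ⌈-(S.c i * N : ℝ) / S.D - |R| * S.w i⌉ + ⌈(2 * |R| + 1) * S.w i⌉₊ := by
    linarith
  exact_mod_cast this

theorem vol (R : ℝ) : ∏ i, (⌈(2 * |R| + 1) * S.w i⌉₊ : ℝ) ≤
    (2 * |R| + 2) ^ n * (|κ| + 1) * √(S.dF : ℝ) := by
  calc _ ≤ ∏ i, (2 * |R| + 2) * S.w i := prod_le_prod (fun _ _ => by positivity) fun i _ => by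
        have w := S.w1 i
        have := (Nat.ceil_lt_add_one (show 0 ≤ (2 * |R| + 1) * S.w i by positivity)).le
        linarith
    _ ≤ _ := by
        rw [prod_mul_distrib, prod_const, card_univ, Fintype.card_fin, mul_assoc]
        gcongr
        refine S.wp.trans ?_
        gcongr
        linarith [le_abs_self κ]

end D1J

open D1J in
theorem d1 (hS : SlStmt) (hA : AvgStmt) (hT : TailStmt) : D1Stmt := by
  classical
  intro n g hn p h κ R hp
  obtain ⟨n, rfl⟩ : ∃ m, n = m + 1 := ⟨n - 1, by omega⟩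
  obtain ⟨G, hG⟩ : ∃ G : ℕ, G = 2 * ((g + 1) * ((n + 1 + 1) * (n + 1))) := ⟨_, rfl⟩
  have G1 : (1 : ℝ) ≤ G := by
    rw [hG]
    exact_mod_cast Nat.one_le_iff_ne_zero.2 (by positivity)
  have G0 : (0 : ℝ) < G := by linarith
  obtain ⟨δ, ε, σ, C, δ0, δ1, ε0, σ0, C0, hS⟩ := hS (n + 1) p h κ (2 * G) n.succ_pos hp
  obtain ⟨CA, A0, hA⟩ := hA C R C0.le
  obtain ⟨ε', CT, ε1, T0, hT⟩ := hT (n + 1) p h κ R (σ / G) (by positivity)
  have p1 : (1 : ℝ) ≤ p := by exact_mod_cast hp.one_le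
  have p0 : (0 : ℝ) < p := by linarith
  obtain ⟨P, hP⟩ : ∃ P, P = (2 * |R| + 2) ^ (n + 1) * (|κ| + 1) := ⟨_, rfl⟩
  have P0 : 0 < P := by rw [hP]; positivity
  refine ⟨δ / G, min (ε / G) ε', p ^ 2 * C * P * (2 * CA) + CT, by positivity, by positivity,
    by positivity, fun K hK => ?_⟩
  obtain ⟨y₁, h1⟩ := hS K hK
  obtain ⟨y₂, h2⟩ := hS 2 le_rfl
  refine ⟨max (max ((p ^ K) ^ 4) ⌈|R|⌉₊) ⌈(max (max y₁ y₂) 2) ^ G⌉₊, fun S hD hH U hU => ?_⟩
  have X1 := S.one_le_X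
  have X0 : 0 < S.X := by linarith
  have D0 : (0 : ℝ) < S.D := by exact_mod_cast S.sqf.ne_zero.bot_lt
  have DX : (S.D : ℝ) ≤ S.X := le_mul_of_one_le_right D0.le (by exact_mod_cast S.dF1)
  obtain ⟨y, hy⟩ : ∃ y, y = S.X ^ (1 / G : ℝ) := ⟨_, rfl⟩
  have y0 : 0 < y := hy ▸ Real.rpow_pos_of_pos X0 _
  have ex : ∀ a : ℝ, y ^ a = S.X ^ (a / G) := fun a => by
    rw [hy, ← Real.rpow_mul X0.le]
    congr 1
    ring
  have yl : max (max y₁ y₂) 2 ≤ y := by
    refine le_of_pow_le_pow_left₀ (n := G) (by exact_mod_cast G0.ne') y0.le ?_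
    rw [← Real.rpow_natCast y, ex, div_self G0.ne', Real.rpow_one]
    exact (Nat.ceil_le.1 (le_of_max_le_right hD)).trans DX
  have yw : ∀ i, y ≤ (⌈(2 * |R| + 1) * S.w i⌉₊ : ℕ) := fun i => by
    have a := size S n.succ_pos hH i
    rw [← hG, ← hy] at a
    have b := le_of_max_le_right yl
    have c := Nat.le_ceil ((2 * |R| + 1) * S.w i)
    have w := S.w1 i
    nlinarith [mul_nonneg (abs_nonneg R) (zero_le_one.trans w)]
  have yN : R * S.X ≤ y ^ (2 * G : ℝ) := by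
    rw [ex, mul_div_cancel_right₀ _ G0.ne', Real.rpow_two, sq]
    exact mul_le_mul_of_nonneg_right ((le_abs_self R).trans ((Nat.ceil_le.1
      (le_of_max_le_right (le_of_max_le_left hD))).trans DX)) X0.le
  have eε : y ^ (-ε) ≤ S.X ^ (-min (ε / G) ε') := by
    rw [ex, neg_div]
    exact Real.rpow_le_rpow_of_exponent_le X1 (neg_le_neg (min_le_left _ _))
  have eT : S.X ^ (-ε') ≤ S.X ^ (-min (ε / G) ε') :=
    Real.rpow_le_rpow_of_exponent_le X1 (neg_le_neg (min_le_right _ _))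
  refine ⟨y ^ δ, (ex δ).ge, ex δ ▸ (Real.rpow_le_rpow_of_exponent_le X1
    (div_le_one_of_le₀ (δ1.trans G1) G0.le)).trans (Real.rpow_one _).le, ?_⟩
  obtain ⟨E, hE⟩ : ∃ E, E = Real.exp (tsumP (fun q => (S.a q : ℝ) - S.b q) (y ^ δ)) := ⟨_, rfl⟩
  have E0 : 0 < E := hE ▸ Real.exp_pos _
  have q0 : ∀ a : ℝ, 0 < (p : ℝ) ^ a := Real.rpow_pos_of_pos p0
  have q1 : ∀ n : ℕ, (p : ℝ) ^ (-(n : ℝ) / 2) ≤ 1 := fun n =>
    Real.rpow_le_one_of_one_le_of_nonpos p1 (by have : (0 : ℝ) ≤ n := n.cast_nonneg; linarith)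
  have yε : 0 < y ^ (-ε) := Real.rpow_pos_of_pos y0 _
  have sX : √S.X = √(S.D : ℝ) * √(S.dF : ℝ) := Real.sqrt_mul (Nat.cast_nonneg _) _
  have s0 : 0 ≤ √S.X := Real.sqrt_nonneg _
  have s1 : 0 ≤ √(S.dF : ℝ) := Real.sqrt_nonneg _
  have s2 : 0 ≤ √(S.D : ℝ) := Real.sqrt_nonneg _
  have sub : ∀ U' ⊆ U, S.Reg R K U' := fun U' h => ⟨fun u hu => hU.1 u (h hu),
    hU.2.imp (fun ⟨t, ht⟩ => ⟨t, fun u hu => ht u (h hu)⟩)
      fun ⟨a, b, c, d, ht⟩ => ⟨a, b, c, d, fun u hu => ht u (h hu)⟩⟩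
  have b2 := hT S K _ (sub _ (filter_subset
    (fun u => S.X ^ (σ / G) < (u.1.natAbs.gcd S.D : ℝ)) U)) fun u hu => (mem_filter.1 hu).2
  obtain ⟨U1, hU1⟩ : ∃ U1, U1 = U.filter fun u => ¬ S.X ^ (σ / G) < (u.1.natAbs.gcd S.D : ℝ) :=
    ⟨_, rfl⟩
  have m1 : ∀ u ∈ U1, u ∈ U ∧ (u.1.natAbs.gcd S.D : ℝ) ≤ y ^ σ := fun u hu => by
    rw [hU1, mem_filter] at hu
    exact ⟨hu.1, ex σ ▸ not_lt.1 hu.2⟩
  have m2 : ∀ t ∈ U1.image Prod.fst, (t.natAbs.gcd S.D : ℝ) ≤ y ^ σ ∧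
      |(t : ℝ)| ≤ R * √(S.D : ℝ) := fun t ht => by
    obtain ⟨u, hu, rfl⟩ := mem_image.1 ht
    exact ⟨(m1 u hu).2, (hU.1 u (m1 u hu).1).1⟩
  choose a₀ ha using fun t => box S (R := R) (S.nt t)
  have vl := hP ▸ vol S R
  have d4 : (S.D : ℝ) ^ (1 / 4 : ℝ) ≤ √(S.D : ℝ) / (p ^ K : ℕ) := by
    have a : ((p ^ K : ℕ) : ℝ) ≤ (S.D : ℝ) ^ (1 / 4 : ℝ) := by
      rw [one_div, Real.le_rpow_inv_iff_of_pos (by positivity) D0.le (by norm_num)]
      exact_mod_cast le_of_max_le_left (le_of_max_le_left hD)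
    rw [le_div_iff₀ (by exact_mod_cast pow_pos hp.pos K)]
    refine (mul_le_mul_of_nonneg_left a (by positivity)).trans_eq ?_
    rw [← Real.rpow_add D0, Real.sqrt_eq_rpow]
    norm_num
  have b1 : ∑ u ∈ U1, S.W u.1 u.2 ≤
      p ^ 2 * C * P * (2 * CA) * √S.X * (E * (p : ℝ) ^ (-(K : ℝ) / 2) + y ^ (-ε)) := by
    rcases hU.2 with ⟨t₀, ht⟩ | ⟨Rc, r1, r2, r3, ht⟩
    · have hF : 0 ≤ E * (p : ℝ) ^ (-((2 : ℕ) : ℝ) / 2) + y ^ (-ε) := by
        have := q0 (-((2 : ℕ) : ℝ) / 2)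
        positivity
      refine (pairs U1 S.W (fun t => p ^ 2 * (C * (P * √(S.dF : ℝ)) *
        (E * (p : ℝ) ^ (-((2 : ℕ) : ℝ) / 2) + y ^ (-ε))) *
          Real.exp (C * ∑ q ∈ (t.natAbs.gcd S.D).primeFactors, 1 / (q : ℝ)))
        fun t ht V hV => ?_).trans ?_
      · refine (split (pow_pos hp.pos 2) V (· 0) _ _ fun r V' h3 h4 =>
          h2 y (((le_max_right _ _).trans (le_max_left _ _)).trans yl) S t
            (fun j k => ((p ^ j : ℕ) : ℤ) ∣ k 0 - r) (a₀ t) _ V' (m2 t ht).1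
            (fun j k k' c e => by simpa using e.sub (c 0))
            (fun j => by simpa using den (pow_pos hp.pos j) r)
            (fun i j k c e => (Int.natCast_dvd_natCast.2 (pow_dvd_pow p c)).trans e) yw
            (fun k hk => ha t k (hU.1 _ (m1 _ (hV k (h3 hk))).1).2.1) fun k hk =>
            ⟨(hU.1 _ (m1 _ (hV k (h3 hk))).1).2.2.1,
              (hU.1 _ (m1 _ (hV k (h3 hk))).1).2.2.2.trans yN, h4 k hk⟩).trans ?_
        rw [← hE, Nat.cast_pow, mul_assoc ((p : ℝ) ^ 2), mul_right_comm (C * _)]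
        gcongr
      · rw [← mul_sum]
        refine (mul_le_mul_of_nonneg_left (hA S.D (p ^ K) t₀ _ S.sqf (pow_pos hp.pos K)
          (((Nat.Prime.coprime_iff_not_dvd hp).2 S.pD).pow_left K) fun t h => ⟨(m2 t h).2, ?_⟩)
          (by positivity)).trans ?_
        · obtain ⟨u, hu, rfl⟩ := mem_image.1 h
          exact_mod_cast ht u (m1 u hu).1
        · have k : (E * (p : ℝ) ^ (-((2 : ℕ) : ℝ) / 2) + y ^ (-ε)) * (p : ℝ) ^ (-(K : ℝ) / 2) ≤
              E * (p : ℝ) ^ (-(K : ℝ) / 2) + y ^ (-ε) := by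
            rw [add_mul]
            exact add_le_add (mul_le_mul_of_nonneg_right (mul_le_of_le_one_right E0.le (q1 2))
              (q0 _).le) (mul_le_of_le_one_right yε.le (q1 K))
          have k' : √(S.D : ℝ) / (p ^ K : ℕ) ≤ √(S.D : ℝ) * (p : ℝ) ^ (-(K : ℝ) / 2) := by
            rw [div_eq_mul_inv, Nat.cast_pow, ← Real.rpow_natCast, ← Real.rpow_neg p0.le]
            exact mul_le_mul_of_nonneg_left (Real.rpow_le_rpow_of_exponent_le p1
              (by linarith [K.cast_nonneg (α := ℝ)])) s2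
          refine le_trans ?_ (mul_le_mul_of_nonneg_left k (by positivity))
          refine (mul_le_mul_of_nonneg_left (mul_le_mul_of_nonneg_left
            (add_le_add k' (d4.trans k')) A0.le) (by positivity)).trans_eq ?_
          rw [sX]
          ring
    · have hF : 0 ≤ E * (p : ℝ) ^ (-(K : ℝ) / 2) + y ^ (-ε) := by
        have := q0 (-(K : ℝ) / 2)
        positivity
      refine (pairs U1 S.W (fun t => C * (P * √(S.dF : ℝ)) *
        (E * (p : ℝ) ^ (-(K : ℝ) / 2) + y ^ (-ε)) *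
          Real.exp (C * ∑ q ∈ (t.natAbs.gcd S.D).primeFactors, 1 / (q : ℝ)))
        fun t h V hV => ?_).trans ?_
      · refine (h1 y (((le_max_left _ _).trans (le_max_left _ _)).trans yl) S t
          (fun j k => Rc j (S.nt t) k) (a₀ t) _ V (m2 t h).1
          (fun j k k' => r1 j _ _ k k' (by simp)) (fun j => r2 j _) (fun i j k => r3 i j _ k) yw
          (fun k hk => ha t k (hU.1 _ (m1 _ (hV k hk)).1).2.1) fun k hk =>
          ⟨(hU.1 _ (m1 _ (hV k hk)).1).2.2.1, (hU.1 _ (m1 _ (hV k hk)).1).2.2.2.trans yN,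
            ht _ (m1 _ (hV k hk)).1⟩).trans ?_
        rw [← hE, mul_right_comm (C * _)]
        gcongr
      · rw [← mul_sum]
        refine (mul_le_mul_of_nonneg_left (hA S.D 1 0 _ S.sqf one_pos (Nat.coprime_one_left _)
          fun t h => ⟨(m2 t h).2, by simp⟩) (by positivity)).trans ?_
        have k := d4.trans (div_le_self s2 (by exact_mod_cast Nat.one_le_pow K p hp.pos))
        rw [Nat.cast_one, div_one]
        refine (mul_le_mul_of_nonneg_left (mul_le_mul_of_nonneg_left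
          (add_le_add le_rfl k) A0.le) (by positivity)).trans ?_
        refine le_trans (le_of_eq ?_) (mul_le_mul_of_nonneg_right (mul_le_mul_of_nonneg_right
          (mul_le_mul_of_nonneg_right (mul_le_mul_of_nonneg_right
            (le_mul_of_one_le_left C0.le (one_le_pow₀ p1)) P0.le) (by positivity)) s0) hF)
        rw [sX]
        ring
  rw [← sum_filter_add_sum_filter_not U fun u => S.X ^ (σ / G) < (u.1.natAbs.gcd S.D : ℝ), ← hU1,
    ← hE]
  have k0 := mul_pos E0 (q0 (-(K : ℝ) / 2))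
  have k1 : p ^ 2 * C * P * (2 * CA) * √S.X * (E * (p : ℝ) ^ (-(K : ℝ) / 2) + y ^ (-ε)) ≤
      p ^ 2 * C * P * (2 * CA) * √S.X *
        (E * (p : ℝ) ^ (-(K : ℝ) / 2) + S.X ^ (-min (ε / G) ε')) :=
    mul_le_mul_of_nonneg_left (by linarith) (by positivity)
  have k2 : CT * √S.X * S.X ^ (-ε') ≤
      CT * √S.X * (E * (p : ℝ) ^ (-(K : ℝ) / 2) + S.X ^ (-min (ε / G) ε')) :=
    mul_le_mul_of_nonneg_left (by linarith) (by positivity)
  linarith

end Pool.Agent.Lib.MP_9177b7_ag.SO
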