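import Pool.Agent.Lib.MP_9177b7_ag.B.Slice
import Pool.Agent.Lib.MP_9177b7_ag.B.ShiuN
import Pool.Agent.Lib.MP_9177b7_ag.B.SieveN

/-!
The sieve bound on a slice with finitely many forced primes: one class.
-/

noncomputable section

namespace Pool.Agent.Lib.MP_9177b7_ag.SO.D1a

open Finset B B.ShiuN B.Slice Classical

variable {d : ℕ}

/-- The local data; the primes of `P` always divide `N`. -/
structure HE (p e : ℕ) (κ : ℝ) (P : Finset ℕ) (N : (Fin d → ℤ) → ℕ) (n : ℕ → (Fin d → ℤ) → ℕ)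
    (R : ℕ → (Fin d → ℤ) → Prop) (a b : ℕ → ℕ) (Sg : ℕ → (Fin d → ℤ) → Prop) : Prop where
  prm : ∀ q ∈ P, q.Prime ∧ q ≠ p
  per : ∀ (q j : ℕ) t t', q.Prime → CgN (q ^ j) t t' → q ^ j ∣ N t → q ^ j ∣ N t'
  dvd : ∀ q ∈ P, ∀ t, q ∣ N t
  up : ∀ q : ℕ, q.Prime → q ∉ P → denN (q ^ 1) (fun t => if q ^ 1 ∣ N t then 1 else 0) ≤ κ / q
  lo : ∀ q : ℕ, q.Prime → q ∉ P →
    (b q : ℝ) / q - κ / q ^ 2 ≤ denN q fun t => if q ^ 1 ∣ N t then 1 else 0
  lv : ∀ q j : ℕ, q.Prime → q ∉ P →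
    denN (q ^ j) (fun t => if q ^ j ∣ N t then 1 else 0) ≤ κ * (q : ℝ) ^ (-(j : ℝ) / 4)
  lv2 : ∀ q j : ℕ, q.Prime → q ∉ P → 2 ≤ j →
    denN (q ^ j) (fun t => if q ^ j ∣ N t then 1 else 0) ≤ κ * (q : ℝ) ^ (-1 - (j : ℝ) / 4)
  up' : ∀ q ∈ P, denN (q ^ 2) (fun t => if q ^ 2 ∣ N t then 1 else 0) ≤ κ / q
  lv2' : ∀ q ∈ P, ∀ j : ℕ, 2 ≤ j → denN (q ^ (j + 1))
    (fun t => if q ^ (j + 1) ∣ N t then 1 else 0) ≤ κ * (q : ℝ) ^ (-1 - (j : ℝ) / 4)
  nper : ∀ (q : ℕ) t t', q.Prime → CgN q t t' → n q t = n q t'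
  nle : ∀ (q : ℕ) t, q.Prime → n q t ≤ e
  nden : ∀ q : ℕ, q.Prime → q ∉ P → denN q (fun t => n q t) ≤ (a q : ℝ) / q
  ale : ∀ q : ℕ, q.Prime → a q ≤ e
  rper : ∀ j t t', CgN (p ^ j) t t' → R j t → R j t'
  rden : ∀ j, denN (p ^ j) (fun t => if R j t then 1 else 0) ≤ ((p : ℝ) ^ j)⁻¹
  ranti : ∀ i j t, i ≤ j → R j t → R i t
  sper : ∀ (q : ℕ) t t', CgN q t t' → Sg q t → Sg q t'
  sden : ∀ q ∈ P, denN q (fun t => if Sg q t then 1 else 0) ≤ (q + 1) / (2 * q)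

/-- The local weights. -/
def GE (p e : ℕ) (P : Finset ℕ) (n : ℕ → (Fin d → ℤ) → ℕ) (Sg : ℕ → (Fin d → ℤ) → Prop)
    (q j : ℕ) (u : Fin d → ℤ) : ℝ :=
  if j = 1 ∧ q ≠ p then (if q ∈ P then (if Sg q u then 2 else 0) else n q u)
  else ((j : ℝ) + 1) ^ e

/-- The exact level. -/
def Ex (N : (Fin d → ℤ) → ℕ) (q j : ℕ) (u : Fin d → ℤ) : Prop := q ^ j ∣ N u ∧ ¬ q ^ (j + 1) ∣ N u

/-- The weight at a forced prime, restricted to one level. -/
def hq (e : ℕ) (N : (Fin d → ℤ) → ℕ) (Sg : ℕ → (Fin d → ℤ) → Prop) (q j : ℕ) (u : Fin d → ℤ) : ℝ :=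
  if Ex N q j u then (if j = 1 then (if Sg q u then 2 else 0) else ((j : ℝ) + 1) ^ e) else 0

/-- The modulus of a pattern. -/
def MM {P : Finset ℕ} (π : P → ℕ) : ℕ := ∏ i : P, i.1 ^ (π i + 1)

/-- The forced part of `N`. -/
def mm {P : Finset ℕ} (π : P → ℕ) : ℕ := ∏ i : P, i.1 ^ π i

variable {p e : ℕ} {κ : ℝ} {P : Finset ℕ} {N : (Fin d → ℤ) → ℕ} {n : ℕ → (Fin d → ℤ) → ℕ}
  {R : ℕ → (Fin d → ℤ) → Prop} {a b : ℕ → ℕ} {Sg : ℕ → (Fin d → ℤ) → Prop}

lemma GE_nonneg (q j : ℕ) (u : Fin d → ℤ) : 0 ≤ GE p e P n Sg q j u := by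
  unfold GE
  split_ifs <;> positivity

lemma hq_nonneg (q j : ℕ) (u : Fin d → ℤ) : 0 ≤ hq e N Sg q j u := by
  unfold hq
  split_ifs <;> positivity

lemma ex_fac {q : ℕ} (h : q.Prime) {u : Fin d → ℤ} (h0 : N u ≠ 0) (j : ℕ) :
    Ex N q j u ↔ (N u).factorization q = j := by
  rw [Ex, h.pow_dvd_iff_le_factorization h0, h.pow_dvd_iff_le_factorization h0]
  omega

lemma den_bd {M M' : ℕ} (hd : M ∣ M') (hM : 0 < M') {Ω : (Fin d → ℤ) → Prop} [DecidablePred Ω]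
    {f : (Fin d → ℤ) → ℝ} {c x : ℝ} (hc : 0 ≤ c) (hΩ : ∀ u v, CgN M u v → Ω u → Ω v)
    (h : ∀ u, f u ≤ c * if Ω u then 1 else 0)
    (hx : denN M (fun u => if Ω u then 1 else 0) ≤ x) : denN M' f ≤ c * x := by
  refine (den_le _ h).trans ?_
  rw [den_smul, den_of_dvd (h := fun u => if Ω u then 1 else 0)
    (fun u v c => if_congr ⟨hΩ u v c, hΩ v u (CgN.symm c)⟩ rfl rfl) hd hM]
  exact mul_le_mul_of_nonneg_left hx hc

namespace HE

variable (H : HE p e κ P N n R a b Sg)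
include H

lemma cop (f : P → ℕ) (i j : P) (h : i ≠ j) : (i.1 ^ f i).Coprime (j.1 ^ f j) :=
  Nat.coprime_pow_primes _ _ (H.prm _ i.2).1 (H.prm _ j.2).1 fun e => h (Subtype.ext e)

lemma cop' (f : P → ℕ) {q : ℕ} (h : q.Prime) (h' : q ∉ P) (j : ℕ) :
    (∏ i : P, i.1 ^ f i).Coprime (q ^ j) :=
  Nat.Coprime.prod_left fun i _ =>
    Nat.coprime_pow_primes _ _ (H.prm _ i.2).1 h fun e => h' (e ▸ i.2)

lemma MM_pos (π : P → ℕ) : 0 < MM π := prod_pos fun i _ => pow_pos (H.prm _ i.2).1.pos _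

lemma ex_per {q j : ℕ} (h : q.Prime) {u v : Fin d → ℤ} (c : CgN (q ^ (j + 1)) u v)
    (x : Ex N q j u) : Ex N q j v :=
  ⟨H.per q j u v h (CgN.of_dvd (pow_dvd_pow q j.le_succ) c) x.1,
    fun y => x.2 (H.per q _ v u h (CgN.symm c) y)⟩

lemma hq_per {q : ℕ} (h : q.Prime) (j : ℕ) : Per (q ^ (j + 1)) (hq e N Sg q j) := fun u v c => by
  have c1 : CgN q u v := CgN.of_dvd (dvd_pow_self q j.succ_ne_zero) c
  have a1 : Ex N q j u ↔ Ex N q j v := ⟨H.ex_per h c, H.ex_per h (CgN.symm c)⟩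
  have a2 : Sg q u ↔ Sg q v := ⟨H.sper q u v c1, H.sper q v u (CgN.symm c1)⟩
  simp only [hq, a1, a2]

lemma pat_per {π : P → ℕ} {u v : Fin d → ℤ} (c : CgN (MM π) u v) (x : ∀ i : P, Ex N i (π i) u)
    (i : P) : Ex N i (π i) v :=
  H.ex_per (H.prm _ i.2).1
    (CgN.of_dvd (dvd_prod_of_mem (fun i : P => i.1 ^ (π i + 1)) (mem_univ i)) c) (x i)

lemma mm_dvd {π : P → ℕ} {u : Fin d → ℤ} (x : ∀ i : P, Ex N i (π i) u) : mm π ∣ N u :=
  Finset.prod_dvd_of_isRelPrime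
    (fun i _ j _ h => Nat.coprime_iff_isRelPrime.1 (H.cop π i j h)) fun i _ => (x i).1

lemma not_dvd {π : P → ℕ} {u : Fin d → ℤ} (x : ∀ i : P, Ex N i (π i) u) {q : ℕ} (h : q ∈ P) :
    ¬ q ∣ N u / mm π := fun y => by
  refine (x ⟨q, h⟩).2 ?_
  rw [← Nat.mul_div_cancel' (H.mm_dvd x), pow_succ]
  exact mul_dvd_mul (dvd_prod_of_mem (fun i : P => i.1 ^ π i) (mem_univ (⟨q, h⟩ : P))) y

lemma dvd_iff {π : P → ℕ} {u : Fin d → ℤ} (x : ∀ i : P, Ex N i (π i) u) {q : ℕ} (h : q.Prime)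
    (h' : q ∉ P) (j : ℕ) : q ^ j ∣ N u / mm π ↔ q ^ j ∣ N u := by
  conv_rhs => rw [← Nat.mul_div_cancel' (H.mm_dvd x)]
  exact ((H.cop' π h h' j).symm.dvd_mul_left).symm

/-- The data on one class. -/
lemma hyp (hp : p.Prime) (hκ : 1 ≤ κ) {π : P → ℕ} {u₀ : Fin d → ℤ}
    (x : ∀ i : P, Ex N i (π i) u₀) :
    Hyp p e κ (fun s => N (af (MM π) u₀ s) / mm π)
      (fun q s => if q ∈ P then 0 else n q (af (MM π) u₀ s)) (fun j s => R j (af (MM π) u₀ s))
      (fun q => if q ∈ P then 0 else a q) (fun q => if q ∈ P then 0 else b q) := by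
  have y : ∀ s, ∀ i : P, Ex N i (π i) (af (MM π) u₀ s) := fun s =>
    H.pat_per (CgN.symm (cg_af _ _ s)) x
  have pP : p ∉ P := fun h => (H.prm p h).2 rfl
  have z : ∀ q ∈ P, ∀ j, j ≠ 0 → ∀ M, denN M
      (fun s => if q ^ j ∣ N (af (MM π) u₀ s) / mm π then (1 : ℝ) else 0) = 0 := fun q h j hj M => by
    have : ∀ s, ¬ q ^ j ∣ N (af (MM π) u₀ s) / mm π := fun s w =>
      H.not_dvd (y s) h ((dvd_pow_self q hj).trans w)
    simp [denN, this]
  have w : ∀ q : ℕ, q.Prime → q ∉ P → ∀ j, denN (q ^ j)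
      (fun s => if q ^ j ∣ N (af (MM π) u₀ s) / mm π then (1 : ℝ) else 0) =
      denN (q ^ j) fun s => if q ^ j ∣ N s then 1 else 0 := fun q h h' j => by
    rw [← den_af (pow_pos h.pos j) (H.cop' (fun i => π i + 1) h h' j)
      (h := fun s => if q ^ j ∣ N s then 1 else 0)
      (fun u v c => if_congr ⟨H.per q j u v h c, H.per q j v u h (CgN.symm c)⟩ rfl rfl) u₀]
    simp only [H.dvd_iff (y _) h h']
    rfl
  have k0 : 0 ≤ κ := zero_le_one.trans hκ
  refine ⟨fun q j t t' h c w => ?_, fun q h => ?_, fun q h => ?_, fun q j h => ?_,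
    fun q j h hj => ?_, fun q t t' h c => ?_, fun q t h => ?_, fun q h => ?_, fun q h => ?_,
    fun j t t' c => H.rper j _ _ (cg_af' _ _ c), fun j => ?_, fun i j t => H.ranti i j _⟩
  · by_cases h' : q ∈ P
    · rcases j.eq_zero_or_pos with rfl | hj
      · simp
      · exact absurd ((dvd_pow_self q hj.ne').trans w) (H.not_dvd (y t) h')
    · rw [H.dvd_iff (y _) h h'] at w ⊢
      exact H.per q j _ _ h (cg_af' _ _ c) w
  · by_cases h' : q ∈ P
    · rw [z q h' 1 one_ne_zero]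
      positivity
    · rw [w q h h']
      exact H.up q h h'
  · by_cases h' : q ∈ P
    · rw [z q h' 1 one_ne_zero, if_pos h', Nat.cast_zero, zero_div, zero_sub, neg_nonpos]
      positivity
    · have := w q h h' 1
      rw [if_neg h']
      refine (H.lo q h h').trans (le_of_eq ?_)
      simpa only [pow_one] using this.symm
  · by_cases h' : q ∈ P
    · rcases j.eq_zero_or_pos with rfl | hj
      · simp [den_one, hκ]
      · rw [z q h' j hj.ne']
        positivity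
    · rw [w q h h']
      exact H.lv q j h h'
  · by_cases h' : q ∈ P
    · rw [z q h' j (by omega)]
      positivity
    · rw [w q h h']
      exact H.lv2 q j h h' hj
  · rw [H.nper q _ _ h (cg_af' _ _ c)]
  · split_ifs
    exacts [Nat.zero_le _, H.nle q _ h]
  · by_cases h' : q ∈ P
    · simp [h', denN]
    · simp only [if_neg h']
      exact (den_af h.pos (pow_one q ▸ H.cop' (fun i => π i + 1) h h' 1)
        (h := fun s => (n q s : ℝ)) (fun u v c => congrArg _ (H.nper q u v h c)) u₀).trans_le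
        (H.nden q h h')
  · split_ifs
    exacts [Nat.zero_le _, H.ale q h]
  · exact (den_af (pow_pos hp.pos j) (H.cop' (fun i => π i + 1) hp pP j)
      (h := fun s => if R j s then 1 else 0) (per_ind (H.rper j)) u₀).trans_le (H.rden j)

/-- The weight splits. -/
lemma split (hp : p.Prime) {π : P → ℕ} {u : Fin d → ℤ} (h0 : N u ≠ 0)
    (x : ∀ i : P, Ex N i (π i) u) {n' : ℕ → (Fin d → ℤ) → ℕ} {s : Fin d → ℤ}
    (hn : ∀ q, q ∉ P → n' q s = n q u) :
    ∏ q ∈ (N u).primeFactors, GE p e P n Sg q ((N u).factorization q) u =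
      (∏ i : P, hq e N Sg i (π i) u) * ∏ q ∈ (N u / mm π).primeFactors,
        ww p e n' q ((N u / mm π).factorization q) s := by
  have h1 : N u / mm π ≠ 0 := fun h => h0 (by rw [← Nat.mul_div_cancel' (H.mm_dvd x), h, mul_zero])
  have e1 : (N u).primeFactors.filter (· ∈ P) = P := by
    ext q
    simp only [mem_filter, Nat.mem_primeFactors]
    exact ⟨fun h => h.2, fun h => ⟨⟨(H.prm q h).1, H.dvd q h u, h0⟩, h⟩⟩
  have e2 : (N u).primeFactors.filter (· ∉ P) = (N u / mm π).primeFactors := by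
    ext q
    simp only [mem_filter, Nat.mem_primeFactors]
    refine ⟨fun h => ⟨h.1.1, ?_, h1⟩, fun h => ?_⟩
    · simpa using (H.dvd_iff x h.1.1 h.2 1).2 (by simpa using h.1.2.1)
    · have : q ∉ P := fun w => H.not_dvd x w h.2.1
      exact ⟨⟨h.1, h.2.1.trans (Nat.div_dvd_of_dvd (H.mm_dvd x)), h0⟩, this⟩
  rw [← prod_filter_mul_prod_filter_not _ (· ∈ P), e1, e2, ← prod_coe_sort P]
  congr 1
  · refine prod_congr rfl fun i _ => ?_
    rw [(ex_fac (H.prm _ i.2).1 h0 _).1 (x i), GE, hq, if_pos (x i), if_pos i.2]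
    simp only [(H.prm _ i.2).2, ne_eq, not_false_eq_true, and_true]
  · refine prod_congr rfl fun q hq => ?_
    rw [← e2, mem_filter] at hq
    have h := Nat.prime_of_mem_primeFactors hq.1
    have : (N u / mm π).factorization q = (N u).factorization q :=
      eq_of_forall_le_iff fun j => by
        rw [← h.pow_dvd_iff_le_factorization h0, ← h.pow_dvd_iff_le_factorization h1,
          H.dvd_iff x h hq.2]
    rw [this, GE, ww, if_neg hq.2, hn q hq.2]
    simp only [Nat.prime_dvd_prime_iff_eq h hp, ne_eq]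

/-- The local sum over the levels. -/
lemma loc (hκ : 1 ≤ κ) {S : ℝ} (hS : ∀ (k : ℕ) (s : Finset ℕ),
    ∑ j ∈ s, (if j < k then 0 else (((j - k : ℕ) : ℝ) + 3) ^ e * rt ^ (j - k)) ≤ S)
    {q : ℕ} (h : q ∈ P) (J : ℕ) :
    ∑ j ∈ range J, denN (q ^ (j + 1)) (hq e N Sg q j) ≤
      Real.exp ((1 + 3 ^ e * κ + κ * S) * (1 / q)) := by
  have hp := (H.prm q h).1
  have q0 : (0 : ℝ) < q := by exact_mod_cast hp.pos
  have q1 : (1 : ℝ) ≤ q := by exact_mod_cast hp.one_le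
  have k0 : 0 ≤ κ := zero_le_one.trans hκ
  have r0 : 0 < rt := Real.rpow_pos_of_pos zero_lt_two _
  have a1 : ∀ j, denN (q ^ (j + 1)) (hq e N Sg q j) ≤ (if j = 1 then 1 + 1 / (q : ℝ) else 0) +
      (if j = 2 then 3 ^ e * (κ / q) else 0) +
      κ / q * (if j < 1 then 0 else (((j - 1 : ℕ) : ℝ) + 3) ^ e * rt ^ (j - 1)) := fun j => by
    have t1 : 0 ≤ if j = 1 then 1 + 1 / (q : ℝ) else 0 := by split_ifs <;> positivity
    have t2 : 0 ≤ if j = 2 then 3 ^ e * (κ / q) else 0 := by split_ifs <;> positivity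
    have t3 : 0 ≤ κ / q * (if j < 1 then 0 else (((j - 1 : ℕ) : ℝ) + 3) ^ e * rt ^ (j - 1)) := by
      split_ifs <;> positivity
    have hM : 0 < q ^ (j + 1) := pow_pos hp.pos _
    rcases j with _ | _ | _ | j
    · have : ∀ u, hq e N Sg q 0 u = 0 := fun u =>
        if_neg fun x => x.2 (by simpa using H.dvd q h u)
      simp [denN, this]
    · refine (den_bd (dvd_pow_self q (by omega)) hM zero_le_two (H.sper q) (fun u => ?_)
        (H.sden q h)).trans ?_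
      · unfold hq
        split_ifs <;> simp_all
      · rw [if_pos rfl] at *
        have : 2 * (((q : ℝ) + 1) / (2 * q)) = 1 + 1 / q := by field_simp
        linarith
    · refine (den_bd (pow_dvd_pow q (by omega)) hM (c := 3 ^ e) (by positivity)
        (fun u v => H.per q 2 u v hp) (fun u => ?_) (H.up' q h)).trans ?_
      · unfold hq
        by_cases x : Ex N q (0 + 1 + 1) u
        · rw [if_pos x, if_neg (by omega), if_pos x.1]
          norm_num
        · rw [if_neg x]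
          positivity
      · rw [if_pos (by rfl : 0 + 1 + 1 = 2)] at *
        linarith
    · refine (den_bd (pow_dvd_pow q (by omega)) hM (c := (((j + 2 : ℕ) : ℝ) + 3) ^ e)
        (by positivity) (fun u v => H.per q (j + 2 + 1) u v hp) (fun u => ?_)
        (H.lv2' q h (j + 2) (by omega))).trans ?_
      · unfold hq
        by_cases x : Ex N q (j + 1 + 1 + 1) u
        · rw [if_pos x, if_neg (by omega), if_pos x.1, mul_one]
          refine pow_le_pow_left₀ (by positivity) ?_ _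
          push_cast
          linarith
        · rw [if_neg x]
          positivity
      · rw [if_neg (by omega : ¬ j + 1 + 1 + 1 < 1), show j + 1 + 1 + 1 - 1 = j + 2 by omega] at *
        have b1 : (q : ℝ) ^ (-1 - ((j + 2 : ℕ) : ℝ) / 4) ≤ 1 / q * rt ^ (j + 2) := by
          rw [sub_eq_add_neg, Real.rpow_add q0, Real.rpow_neg_one, one_div]
          refine mul_le_mul_of_nonneg_left (le_trans ?_ (rt_pow hp _)) (by positivity)
          refine Real.rpow_le_rpow_of_exponent_le q1 ?_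
          have : (0 : ℝ) ≤ ((j + 2 : ℕ) : ℝ) := Nat.cast_nonneg _
          linarith
        have b2 : (((j + 2 : ℕ) : ℝ) + 3) ^ e * (κ * (q : ℝ) ^ (-1 - ((j + 2 : ℕ) : ℝ) / 4)) ≤
            κ / q * ((((j + 2 : ℕ) : ℝ) + 3) ^ e * rt ^ (j + 2)) := by
          calc _ ≤ (((j + 2 : ℕ) : ℝ) + 3) ^ e * (κ * (1 / q * rt ^ (j + 2))) := by gcongr
            _ = _ := by ring
        linarith
  refine (sum_le_sum fun j _ => a1 j).trans (le_trans ?_ (Real.add_one_le_exp _))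
  rw [sum_add_distrib, sum_add_distrib, ← mul_sum, sum_ite_eq', sum_ite_eq']
  have s1 : (if 1 ∈ range J then 1 + 1 / (q : ℝ) else 0) ≤ 1 + 1 / q := by
    split_ifs
    exacts [le_rfl, by positivity]
  have s2 : (if 2 ∈ range J then (3 : ℝ) ^ e * (κ / q) else 0) ≤ 3 ^ e * (κ / q) := by
    split_ifs
    exacts [le_rfl, by positivity]
  have s3 := mul_le_mul_of_nonneg_left (hS 1 (range J)) (show 0 ≤ κ / q by positivity)
  have s4 : (1 + 3 ^ e * κ + κ * S) * (1 / (q : ℝ)) + 1 =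
      1 + 1 / q + 3 ^ e * (κ / q) + κ / q * S := by ring
  linarith

end HE

end Pool.Agent.Lib.MP_9177b7_ag.SO.D1a
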