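import Mathlib

/-!
Orthogonal Shimura varieties of signature `(2 m - 1, 2)`, their CM points, and the orbits given by
the reciprocity law.
-/

open NumberField Matrix
open scoped nonZeroDivisors ComplexConjugate

noncomputable section

namespace Pool.Agent.Lib.MP_9177b7_ag.SO

section groups

variable {ι R : Type} [Fintype ι] [DecidableEq ι] [CommRing R] (B : Matrix ι ι R)

/-- The special orthogonal group of the bilinear form with Gram matrix `B`. -/
def Ort : Subgroup (SpecialLinearGroup ι R) where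
  carrier := {g | g.1ᵀ * B * g.1 = B}
  one_mem' := by simp
  mul_mem' {g h} hg hh := by
    change (g.1 * h.1)ᵀ * B * (g.1 * h.1) = B
    calc _ = h.1ᵀ * (g.1ᵀ * B * g.1) * h.1 := by simp only [transpose_mul, mul_assoc]
      _ = _ := by rw [hg, hh]
  inv_mem' {g} hg := by
    change g⁻¹.1ᵀ * B * g⁻¹.1 = B
    have e : g.1 * g⁻¹.1 = 1 := congrArg Subtype.val (mul_inv_cancel g)
    calc _ = g⁻¹.1ᵀ * (g.1ᵀ * B * g.1) * g⁻¹.1 := by rw [hg]
      _ = (g.1 * g⁻¹.1)ᵀ * B * (g.1 * g⁻¹.1) := by simp only [transpose_mul, mul_assoc]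
      _ = _ := by rw [e, transpose_one, one_mul, mul_one]

/-- The matrices that act trivially on the discriminant group of `B`. -/
def DK : Subgroup (SpecialLinearGroup ι R) where
  carrier := {g | ∃ M : Matrix ι ι R, g.1 = 1 + M * B}
  one_mem' := ⟨0, by simp⟩
  mul_mem' := by
    rintro g h ⟨M, hg⟩ ⟨M', hh⟩
    refine ⟨M + M' + M * B * M', ?_⟩
    change g.1 * h.1 = _
    rw [hg, hh]
    noncomm_ring
  inv_mem' := by
    rintro g ⟨M, hg⟩
    refine ⟨-(g⁻¹.1 * M), ?_⟩
    have e : g⁻¹.1 * g.1 = 1 := congrArg Subtype.val (inv_mul_cancel g)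
    rw [hg] at e
    rw [← e]
    noncomm_ring

end groups

variable {N : ℕ} (A : Matrix (Fin N) (Fin N) ℤ)

/-- The Gram matrix with entries in `R`. -/
abbrev Am (R : Type) [CommRing R] : Matrix (Fin N) (Fin N) R := A.map (Int.cast : ℤ → R)

/-- The real group `SO(A)(ℝ)`. -/
abbrev GR : Type := Ort (Am A ℝ)

/-- The discriminant kernel of the lattice `(ℤ ^ N, A)`, inside `SO(A)(ℝ)`. -/
def G1 : Subgroup (GR A) :=
  ((DK A).map (SpecialLinearGroup.map (Int.castRingHom ℝ))).subgroupOf (Ort (Am A ℝ))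

/-- The homogeneous space. -/
abbrev YY : Type := GR A ⧸ G1 A

/-- The period domain is the space of lines in this cone. -/
abbrev Per : Type :=
  {v : Fin N → ℂ // v ⬝ᵥ Am A ℂ *ᵥ v = 0 ∧ (star v ⬝ᵥ Am A ℂ *ᵥ v).re < 0}

variable {A} in
/-- The action of the real group on the cone. -/
def act (g : GR A) (v : Per A) : Per A :=
  ⟨g.1.1.map Complex.ofReal *ᵥ v.1, by
    have h : (g.1.1.map Complex.ofReal)ᵀ * Am A ℂ * g.1.1.map Complex.ofReal = Am A ℂ := by
      have := congrArg (·.map Complex.ofRealHom) (show g.1.1ᵀ * Am A ℝ * g.1.1 = Am A ℝ from g.2)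
      have j : (Am A ℝ).map Complex.ofRealHom = Am A ℂ := by
        ext i j
        simp
      simp only [Matrix.map_mul, transpose_map, j] at this
      exact this
    have e : (g.1.1.map Complex.ofReal)ᴴ = (g.1.1.map Complex.ofReal)ᵀ := by
      ext i j
      simp
    have a : ∀ w : Fin N → ℂ, w ᵥ* (g.1.1.map Complex.ofReal)ᵀ ⬝ᵥ
        Am A ℂ *ᵥ g.1.1.map Complex.ofReal *ᵥ v.1 = w ⬝ᵥ Am A ℂ *ᵥ v.1 := fun w => by
      rw [mulVec_mulVec, ← dotProduct_mulVec, mulVec_mulVec, ← mul_assoc, h]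
    rw [star_mulVec, e, a]
    refine ⟨?_, v.2.2⟩
    have := a v.1
    rwa [vecMul_transpose, v.2.1] at this⟩

/-- The Shimura variety: the quotient of the period domain by the discriminant kernel, with the
quotient topology. -/
abbrev SS : Type := Quot fun v w : Per A => ∃ g ∈ G1 A, ∃ c : ℂ, w.1 = c • (act g v).1

variable {A} in
/-- The projection `g Γ ↦ [g⁻¹ v₀]`. -/
def proj (v₀ : Per A) (y : YY A) : SS A := Quot.mk _ (act y.out⁻¹ v₀)

/-- An even lattice whose first two basis vectors span a hyperbolic plane that splits off. -/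
structure Lat {N : ℕ} [NeZero N] (A : Matrix (Fin N) (Fin N) ℤ) : Prop where
  symm : Aᵀ = A
  even : ∀ i, Even (A i i)
  row₀ : ∀ j, A 0 j = if j = 1 then 1 else 0
  row₁ : ∀ j, A 1 j = if j = 0 then 1 else 0

/-- The norm `|d_E| / d_F ^ 2` of the relative discriminant of `E` over its real subfield. -/
def rd (E : Type) [Field E] [NumberField E] : ℕ :=
  (discr E).natAbs / (discr (maximalRealSubfield E)).natAbs ^ 2

variable {E : Type} [Field E] [NumberField E] [IsCMField E]

/-- The vectors `(x i, t i)` form a basis of the lattice `{(y, s) : s ∈ ℤ, y - s g ∈ a}` in `E × ℚ`,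
with Gram matrix `A` for the form `Tr(λ y ȳ') + (|det A| / D) s s'`. -/
def Frame (lam : E) (a : FractionalIdeal (𝓞 E)⁰ E) (g : E) (x : Fin N → E) (t : Fin N → ℤ) : Prop :=
  (∀ i j, Algebra.trace ℚ E (lam * x i * IsCMField.complexConj E (x j)) +
    (A.det.natAbs / rd E : ℚ) * t i * t j = A i j) ∧
  ∀ (y : E) (s : ℤ), y - s * g ∈ a ↔ ∃ c : Fin N → ℤ, y = ∑ i, c i * x i ∧ s = ∑ i, c i * t i

/-- A CM datum: `E` is a Weyl CM field of degree `N - 1` in which `p` splits completely, `D` is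
squarefree and prime to `det A`, `λ` is real and negative exactly at the place of `φ`, and the
lattice given by `a` and `g` has the frame `(x, t)`. -/
structure Special (p : ℕ) [Fact p.Prime] (φ : E →+* ℂ) (lam : E)
    (a : FractionalIdeal (𝓞 E)⁰ E) (g : E) (x : Fin N → E) (t : Fin N → ℤ) : Prop where
  dim : Module.finrank ℚ E + 1 = N
  weyl : ∀ π : Equiv.Perm (E →+* ℂ),
    (∀ ψ, π (ComplexEmbedding.conjugate ψ) = ComplexEmbedding.conjugate (π ψ)) →
    ∃ σ : ℂ ≃+* ℂ, ∀ ψ y, π ψ y = σ (ψ y)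
  split : Nat.card (E →+* ℚ_[p]) = Module.finrank ℚ E
  sqf : Squarefree (rd E)
  cop : (rd E).Coprime A.det.natAbs
  real : IsCMField.complexConj E lam = lam
  neg : (φ lam).re < 0
  pos : ∀ ψ : E →+* ℂ, ψ ≠ φ → ψ ≠ ComplexEmbedding.conjugate φ → 0 < (ψ lam).re
  frame : Frame A lam a g x t

/-- The orbit given by the reciprocity law `s ↦ s / s̄`: for a nonzero ideal `b` of `O_E` the lattice
given by `(a, g)` is replaced by the one given by `(b b̄⁻¹ a, g')`, `g' ≡ (s / s̄) g`; the new frame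
has the same orientation and the same level structure. -/
def orbit (φ : E →+* ℂ) (lam : E) (a : FractionalIdeal (𝓞 E)⁰ E) (g : E) (x : Fin N → E)
    (t : Fin N → ℤ) : Set (SS A) :=
  {y | ∃ (b : Ideal (𝓞 E)) (g' : E) (x' : Fin N → E) (t' z : Fin N → ℤ)
      (M : SpecialLinearGroup (Fin N) ℚ) (v : Per A), b ≠ ⊥ ∧
    (∀ β ∈ b, IsCMField.complexConj E β * g' - β * g ∈ (b : FractionalIdeal (𝓞 E)⁰ E) * a) ∧
    Frame A lam (b * ((b.map (IsCMField.ringOfIntegersComplexConj E) : Ideal (𝓞 E)) :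
      FractionalIdeal (𝓞 E)⁰ E)⁻¹ * a) g' x' t' ∧
    (∀ k, x' k = ∑ i, M i k * x i ∧ (t' k : ℚ) = ∑ i, M i k * t i) ∧ t' = t + A *ᵥ z ∧
    (Am A ℂ *ᵥ v.1 = fun i => φ (x' i)) ∧ y = Quot.mk _ v}

/-- The mean of a function over a finite set. -/
def mean {X : Type} (O : Set X) (f : X → ℝ) : ℝ := (∑ᶠ x ∈ O, f x) / O.ncard

end Pool.Agent.Lib.MP_9177b7_ag.SO
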