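import Pool.Agent.Lib.MP_9177b7_ag.SO.Unimod
import Pool.Agent.Lib.MP_9177b7_ag.B.DensP

/-!
Density of the `p`-arithmetic group at `p` and at the real place.
-/

open Matrix Topology

noncomputable section

namespace Pool.Agent.Lib.MP_9177b7_ag.SO

namespace Dens

open Unimod

section map

variable {N : ℕ} {R S : Type} [CommRing R] [CommRing S] (f : R →+* S)
  (B : Matrix (Fin N) (Fin N) R)

theorem ei_map (u v : Fin N → R) (q : R) :
    (ei B u v q).map f = ei (B.map f) (f ∘ u) (f ∘ v) (f q) := by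
  ext i j
  simp [ei, mul_apply, vecMulVec_apply, one_apply, apply_ite f]

theorem dt_map (u v : Fin N → R) (t t' : R) :
    (dt B u v t t').map f = dt (B.map f) (f ∘ u) (f ∘ v) (f t) (f t') := by
  ext i j
  simp [dt, mul_apply, vecMulVec_apply, one_apply, apply_ite f]

theorem bf_map (u v : Fin N → R) : f (bf B u v) = bf (B.map f) (f ∘ u) (f ∘ v) := by
  simp [bf, dotProduct, mulVec]

theorem single_map (a : Fin N) : f ∘ (Pi.single a 1 : Fin N → R) = Pi.single a 1 := by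
  funext i
  simp [Pi.single_apply, apply_ite f]

theorem Am_map (A : Matrix (Fin N) (Fin N) ℤ) : (Am A R).map f = Am A S := by
  ext i j
  simp

end map

variable {n : ℕ} {A : Mx n ℤ}

theorem half (h : Lat A) (T : Subring ℚ) (w : Ix n → ℚ) (hw : ∀ i, w i ∈ T) :
    bf (Am A ℚ) w w / 2 ∈ T := by
  let U : Mx n ℤ := Matrix.of fun i j => if i < j then A i j else if i = j then A i i / 2 else 0
  have hU : A = U + Uᵀ := by
    ext i j
    have hs : A j i = A i j := congrFun (congrFun h.symm i) j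
    simp only [U, Matrix.add_apply, transpose_apply, of_apply]
    rcases lt_trichotomy i j with e | rfl | e
    · simp [e, e.not_gt, e.ne']
    · obtain ⟨k, hk⟩ := h.even i
      simp only [lt_irrefl, if_false, if_true]
      omega
    · simp [e, e.not_gt, e.ne', hs]
  have e : Am A ℚ = Am U ℚ + (Am U ℚ)ᵀ := by
    ext i j
    have := congrFun (congrFun hU i) j
    simp only [Matrix.add_apply, transpose_apply, map_apply] at this ⊢
    exact_mod_cast this
  have e2 : bf (Am A ℚ) w w / 2 = bf (Am U ℚ) w w := by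
    unfold bf
    rw [e, add_mulVec, dotProduct_add, mulVec_transpose, dotProduct_comm w (w ᵥ* _),
      ← dotProduct_mulVec]
    ring
  rw [e2]
  simp only [bf, dotProduct, mulVec, map_apply]
  exact sum_mem fun i _ => mul_mem (hw i)
    (sum_mem fun j _ => mul_mem (intCast_mem T (U i j)) (hw j))

/-- The projection onto the complement of the hyperbolic plane. -/
def pr {R : Type} [Zero R] (v : Ix n → R) : Ix n → R := fun i => if i = 0 ∨ i = 1 then 0 else v i

theorem bf0 (h : Lat A) {R : Type} [CommRing R] (v : Ix n → R) :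
    bf (Am A R) (Pi.single 0 1) v = v 1 := by
  rw [bf_single]
  simp [mulVec, dotProduct, h.row₀]

theorem bf1 (h : Lat A) {R : Type} [CommRing R] (v : Ix n → R) :
    bf (Am A R) (Pi.single 1 1) v = v 0 := by
  rw [bf_single]
  simp [mulVec, dotProduct, h.row₁]

theorem bf_pr (h : Lat A) {R : Type} [CommRing R] {a : Ix n} (ha : a = 0 ∨ a = 1)
    (v : Ix n → R) : bf (Am A R) (Pi.single a 1) (pr v) = 0 := by
  rcases ha with rfl | rfl
  · rw [bf0 h]; simp [pr]
  · rw [bf1 h]; simp [pr]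

theorem bf_aa (h : Lat A) {R : Type} [CommRing R] {a : Ix n} (ha : a = 0 ∨ a = 1) :
    bf (Am A R) (Pi.single a 1) (Pi.single a 1) = 0 := by
  rcases ha with rfl | rfl
  · exact (Am_hy R h).1
  · exact (Am_hy R h).2.1

/-- `S` contains the points of the discriminant kernel over `T`. -/
def Big (T : Subring ℚ) (A : Mx n ℤ) (F : Type) [Field F] [CharZero F]
    (S : Subgroup (Ort (Am A F))) : Prop :=
  ∀ M γ : Mx n ℚ, (∀ i j, M i j ∈ T) → γ = 1 + M * Am A ℚ → γᵀ * Am A ℚ * γ = Am A ℚ →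
    γ.det = 1 → ∀ g : Ort (Am A F), g.1.1 = γ.map (Rat.castHom F) → g ∈ S

theorem single_mem (T : Subring ℚ) (a i : Ix n) : (Pi.single a 1 : Ix n → ℚ) i ∈ T := by
  rw [Pi.single_apply]
  split_ifs
  exacts [one_mem _, zero_mem _]

theorem dt_mem (hE : EichStmt) (h : Lat A) {T : Subring ℚ} {F : Type} [Field F] [CharZero F]
    {S : Subgroup (Ort (Am A F))} (hS : Big T A F S) {t t' : ℚ} (ht : t ∈ T) (ht' : t' ∈ T)
    (e : t * t' = 1) (g : Ort (Am A F))
    (hg : g.1.1 = dt (Am A F) (Pi.single 0 1) (Pi.single 1 1) (t : F) (t' : F)) : g ∈ S := by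
  obtain ⟨h1, h2, -⟩ := (hE _ ℚ _ (Am_symm ℚ h)).2 _ _ t t' (Am_hy ℚ h) e
  refine hS _ _ (fun i j => ?_) rfl h1 h2 g ?_
  · simp only [Matrix.add_apply, Matrix.smul_apply, vecMulVec_apply, smul_eq_mul]
    exact add_mem (mul_mem (sub_mem ht (one_mem _)) (mul_mem (single_mem _ _ _) (single_mem _ _ _)))
      (mul_mem (sub_mem ht' (one_mem _)) (mul_mem (single_mem _ _ _) (single_mem _ _ _)))
  · rw [hg]
    change _ = (dt (Am A ℚ) (Pi.single 0 1) (Pi.single 1 1) t t').map (Rat.castHom F)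
    rw [dt_map, Am_map, single_map, single_map]
    rfl

section top

variable {F : Type} [NormedField F] [CharZero F]

/-- The transvection attached to the projection of a vector. -/
def tv (hE : EichStmt) (h : Lat A) {a : Ix n} (ha : a = 0 ∨ a = 1) (v : Ix n → F) :
    Ort (Am A F) :=
  eE hE (Am_symm F h) (u := Pi.single a 1) (v := pr v) (q := bf (Am A F) (pr v) (pr v) / 2)
    (bf_aa h ha) (bf_pr h ha v) (by ring)

theorem tv_cont (hE : EichStmt) (h : Lat A) {a : Ix n} (ha : a = 0 ∨ a = 1) :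
    Continuous (tv (F := F) hE h ha) := by
  have hp : Continuous (pr : (Ix n → F) → Ix n → F) := continuous_pi fun i => by
    unfold pr
    split_ifs
    exacts [continuous_const, continuous_apply i]
  refine continuous_induced_rng.2 (continuous_induced_rng.2 (continuous_matrix fun i j => ?_))
  change Continuous fun v : Ix n → F =>
    ei (Am A F) (Pi.single a 1) (pr v) (bf (Am A F) (pr v) (pr v) / 2) i j
  simp only [ei, bf, Matrix.add_apply, mul_apply, Matrix.sub_apply, Matrix.smul_apply, vecMulVec_apply, smul_eq_mul,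
    dotProduct, mulVec]
  fun_prop

theorem ei_mem (hE : EichStmt) (h : Lat A) {T : Subring ℚ} {S : Subgroup (Ort (Am A F))}
    (hS : Big T A F S) (hT : Dense {x : F | ∃ r ∈ T, (r : F) = x}) (g : Ort (Am A F))
    (v : Ix n → F) (q : F) (hp : Pe (Am A F) (Pi.single 0 1) (Pi.single 1 1) v q)
    (hg : g.1.1 = ei (Am A F) (Pi.single 0 1) v q ∨ g.1.1 = ei (Am A F) (Pi.single 1 1) v q) :
    g ∈ S.topologicalClosure := by
  have key : ∀ {a : Ix n} (ha : a = 0 ∨ a = 1) (v : Ix n → F),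
      tv hE h ha v ∈ S.topologicalClosure := fun {a} ha v => by
    refine (dense_pi Set.univ fun _ _ => hT).induction
      (P := fun v => tv hE h ha v ∈ S.topologicalClosure) (fun x hx => subset_closure ?_)
      (isClosed_closure.preimage (tv_cont hE h ha)) v
    choose w hw1 hw2 using fun i => hx i (Set.mem_univ i)
    have hw : ∀ i, pr w i ∈ T := fun i => by
      unfold pr
      split_ifs
      exacts [zero_mem _, hw1 i]
    obtain ⟨h1, h2, -⟩ := (hE _ ℚ _ (Am_symm ℚ h)).1 (Pi.single a 1) (pr w)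
      (bf (Am A ℚ) (pr w) (pr w) / 2) (bf_aa h ha) (bf_pr h ha w) (by ring)
    refine hS _ _ (fun i j => ?_) rfl h1 h2 _ ?_
    · simp only [Matrix.sub_apply, Matrix.smul_apply, vecMulVec_apply, smul_eq_mul]
      exact sub_mem (sub_mem (mul_mem (hw i) (single_mem _ _ _)) (mul_mem (single_mem _ _ _) (hw j)))
        (mul_mem (half h T _ hw) (mul_mem (single_mem _ _ _) (single_mem _ _ _)))
    · have e : Rat.castHom F ∘ pr w = pr x := by
        funext i
        simp only [pr, Function.comp]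
        split_ifs
        · exact map_zero _
        · exact hw2 i
      change ei (Am A F) (Pi.single a 1) (pr x) (bf (Am A F) (pr x) (pr x) / 2) =
        (ei (Am A ℚ) (Pi.single a 1) (pr w) (bf (Am A ℚ) (pr w) (pr w) / 2)).map (Rat.castHom F)
      rw [ei_map, Am_map, single_map, map_div₀, bf_map, Am_map, e, map_ofNat]
  have e1 : pr v = v := by
    funext i
    have a0 := hp.1
    have a1 := hp.2.1
    rw [bf0 h] at a0
    rw [bf1 h] at a1
    unfold pr
    split_ifs with hi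
    · rcases hi with rfl | rfl
      exacts [a1.symm, a0.symm]
    · rfl
  have e2 : bf (Am A F) v v / 2 = q := by
    rw [hp.2.2]
    ring
  have e3 : ∀ {a : Ix n} (ha : a = 0 ∨ a = 1),
      (tv hE h ha v).1.1 = ei (Am A F) (Pi.single a 1) v q := fun {a} ha => by
    change ei (Am A F) (Pi.single a 1) (pr v) (bf (Am A F) (pr v) (pr v) / 2) = _
    rw [e1, e2]
  rcases hg with hg | hg
  · exact ort_ext ((e3 (Or.inl rfl)).trans hg.symm) ▸ key (Or.inl rfl) v
  · exact ort_ext ((e3 (Or.inr rfl)).trans hg.symm) ▸ key (Or.inr rfl) v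

end top

/-- Transport of the orthogonal group along a similitude. -/
def cj {N : ℕ} {R : Type} [CommRing R] {B B' P Q : Matrix (Fin N) (Fin N) R} {c : R}
    (hPQ : P * Q = 1) (h : Pᵀ * B' * P = c • B) : Ort B →* Ort B' where
  toFun g := ⟨⟨P * g.1.1 * Q, by
    rw [det_mul, det_mul, g.1.2, mul_one, ← det_mul, hPQ, det_one]⟩, by
    have hg : g.1.1ᵀ * B * g.1.1 = B := g.2
    change (P * g.1.1 * Q)ᵀ * B' * (P * g.1.1 * Q) = B'
    calc _ = Qᵀ * (g.1.1ᵀ * (Pᵀ * B' * P) * g.1.1) * Q := by simp only [transpose_mul, mul_assoc]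
      _ = Qᵀ * (Pᵀ * B' * P) * Q := by rw [h, Matrix.mul_smul, Matrix.smul_mul, hg]
      _ = (P * Q)ᵀ * B' * (P * Q) := by simp only [transpose_mul, mul_assoc]
      _ = B' := by rw [hPQ, transpose_one, one_mul, mul_one]⟩
  map_one' := ort_ext (by
    change P * 1 * Q = 1
    rw [mul_one, hPQ])
  map_mul' g g' := ort_ext (by
    change P * (g.1.1 * g'.1.1) * Q = P * g.1.1 * Q * (P * g'.1.1 * Q)
    have e : Q * P = 1 := mul_eq_one_comm.1 hPQ
    calc _ = P * g.1.1 * (Q * P) * g'.1.1 * Q := by rw [e, mul_one]; simp only [mul_assoc]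
      _ = _ := by simp only [mul_assoc])

variable {p : ℕ} [hp : Fact p.Prime]

theorem mem_RM (q : ℤ × ℕ) : (q.1 : ℚ) / (p : ℚ) ^ q.2 ∈ J.RM p :=
  ⟨q.2, q.1, div_mul_cancel₀ _ (pow_ne_zero _ (Nat.cast_ne_zero.2 hp.out.ne_zero))⟩

theorem zpow_RM (k : ℤ) : (p : ℚ) ^ k ∈ J.RM p := by
  obtain ⟨m, rfl | rfl⟩ := k.eq_nat_or_neg
  · rw [zpow_natCast]
    exact pow_mem (natCast_mem _ _) _
  · have := mem_RM (p := p) (1, m)
    simpa using this

theorem dense_R : Dense {x : ℝ | ∃ r ∈ J.RM p, (r : ℝ) = x} := by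
  have h1 : (1 : ℝ) < p := by exact_mod_cast hp.out.one_lt
  refine AddSubgroup.dense_of_not_isolated_zero ((J.RM p).toAddSubgroup.map
    (Rat.castHom ℝ).toAddMonoidHom) fun ε h => ?_
  obtain ⟨m, hm⟩ := exists_pow_lt_of_lt_one h (inv_lt_one_of_one_lt₀ h1)
  exact ⟨_, ⟨_, mem_RM (1, m), by simp⟩, by positivity, hm⟩

theorem dense_P : Dense {x : ℚ_[p] | ∃ r ∈ J.RM p, (r : ℚ_[p]) = x} :=
  (B.DensP.dense_zp (p := p)).mono (by
    rintro _ ⟨q, rfl⟩
    exact ⟨_, mem_RM q, by simp⟩)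

variable (c : Ctx n p)

theorem kne : c.κ ≠ 0 := fun h => by
  have := c.κ1
  rw [h, norm_zero] at this
  exact zero_ne_one this

theorem gram0 : c.g₀ᵀ * Jr n ℚ_[p] * c.g₀ = c.κ⁻¹ • Am c.A ℚ_[p] := by
  rw [← c.gram, smul_smul, inv_mul_cancel₀ (kne c), one_smul]

theorem gram1 : c.g₁ᵀ * Am c.A ℚ_[p] * c.g₁ = c.κ • Jr n ℚ_[p] := by
  rw [← c.gram, Matrix.mul_smul, Matrix.smul_mul]
  congr 1
  calc _ = (c.g₀ * c.g₁)ᵀ * Jr n ℚ_[p] * (c.g₀ * c.g₁) := by simp only [transpose_mul, mul_assoc]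
    _ = _ := by rw [c.inv, transpose_one, one_mul, mul_one]

/-- The identification of `SO(A)(ℚ_p)` with the split group. -/
def τ : Ort (Am c.A ℚ_[p]) →* HQ n p := cj c.inv (gram0 c)

theorem τ_val (g : Ort (Am c.A ℚ_[p])) : (τ c g).1.1 = c.g₀ * g.1.1 * c.g₁ := rfl

theorem τ_surj : Function.Surjective (τ c) := fun h =>
  ⟨cj (mul_eq_one_comm.1 c.inv) (gram1 c) h, ort_ext (by
    change c.g₀ * (c.g₁ * h.1.1 * c.g₀) * c.g₁ = h.1.1
    calc _ = (c.g₀ * c.g₁) * h.1.1 * (c.g₀ * c.g₁) := by simp only [mul_assoc]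
      _ = _ := by rw [c.inv, one_mul, mul_one])⟩

theorem τ_cont : Continuous (τ c) := by
  refine continuous_induced_rng.2 (continuous_induced_rng.2 ?_)
  change Continuous fun g : Ort (Am c.A ℚ_[p]) => c.g₀ * g.1.1 * c.g₁
  have h : Continuous fun g : Ort (Am c.A ℚ_[p]) => g.1.1 :=
    continuous_subtype_val.comp continuous_subtype_val
  exact (continuous_const.matrix_mul h).matrix_mul continuous_const

theorem mul_int {M M' : Mx n ℚ_[p]} (h : ∀ i j, ‖M i j‖ ≤ 1) (h' : ∀ i j, ‖M' i j‖ ≤ 1)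
    (i j : Ix n) : ‖(M * M') i j‖ ≤ 1 := by
  rw [mul_apply]
  refine IsUltrametricDist.norm_sum_le_of_forall_le_of_nonneg zero_le_one fun k _ => ?_
  rw [norm_mul]
  exact mul_le_one₀ (h _ _) (norm_nonneg _) (h' _ _)

theorem add_int {x y : ℚ_[p]} (h : ‖x‖ ≤ 1) (h' : ‖y‖ ≤ 1) : ‖x + y‖ ≤ 1 :=
  (IsUltrametricDist.norm_add_le_max x y).trans (max_le h h')

theorem mul_int' {x y : ℚ_[p]} (h : ‖x‖ ≤ 1) (h' : ‖y‖ ≤ 1) : ‖x * y‖ ≤ 1 := by
  rw [norm_mul]
  exact mul_le_one₀ h (norm_nonneg _) h'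

theorem dt_int {t t' : ℚ_[p]} (ht : ‖t‖ ≤ 1) (ht' : ‖t'‖ ≤ 1) (i j : Ix n) :
    ‖dt (Am A ℚ_[p]) (Pi.single 0 1) (Pi.single 1 1) t t' i j‖ ≤ 1 := by
  have h1 : ∀ a i : Ix n, ‖(Pi.single a 1 : Ix n → ℚ_[p]) i‖ ≤ 1 := fun a i => by
    rw [Pi.single_apply]
    split_ifs <;> simp
  have h2 : ∀ {x : ℚ_[p]}, ‖x‖ ≤ 1 → ‖x - 1‖ ≤ 1 := fun hx => by
    rw [sub_eq_add_neg]
    exact add_int hx (by simp)
  unfold dt
  rw [Matrix.add_apply]
  refine add_int ?_ (mul_int (fun i j => ?_) (fun i j => Padic.norm_int_le_one _) i j)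
  · rw [one_apply]
    split_ifs <;> simp
  · simp only [Matrix.add_apply, Matrix.smul_apply, vecMulVec_apply, smul_eq_mul]
    exact add_int (mul_int' (h2 ht) (mul_int' (h1 _ _) (h1 _ _)))
      (mul_int' (h2 ht') (mul_int' (h1 _ _) (h1 _ _)))

end Dens

open Dens Unimod

theorem densP (hE : EichStmt) (hG : GenStmt) (hD : DiscStmt) : DensPStmt := by
  intro n p hp c h
  obtain ⟨g, rfl⟩ := τ_surj c h
  obtain ⟨-, d2, -, -, -, d6, -, -, d9, -⟩ := hD n p c
  have hp0 : (p : ℚ_[p]) ≠ 0 := Nat.cast_ne_zero.2 hp.out.ne_zero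
  have hS : Big (J.RM p) c.A ℚ_[p] ((c.Gp.map (MonoidHom.fst _ _)).comap (τ c)) := by
    intro M γ h1 h2 h3 h4 g hg
    obtain ⟨x, hx, e, -⟩ := d2 M γ h1 h2 h3 h4
    refine ⟨x, hx, ort_ext ?_⟩
    change x.1.1.1 = c.g₀ * g.1.1 * c.g₁
    rw [hg, ← e, mul_assoc, c.inv, mul_one]
  have hs := Am_symm ℚ_[p] c.lat
  have hy := Am_hy ℚ_[p] c.lat
  obtain ⟨d, t, t', e, hd, hm⟩ := (hG _ ℚ_[p] _ _ _ _ two_ne_zero hs (Am_det _ (det_ne c)) hy
    (ei_mem hE c.lat hS dense_P)).1 g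
  have ht : t ≠ 0 := left_ne_zero_of_mul_eq_one e
  set k := t.valuation
  have e1 : (p : ℚ_[p]) ^ k * (p : ℚ_[p]) ^ (-k) = 1 := by
    rw [← zpow_add₀ hp0, add_neg_cancel, zpow_zero]
  have e2 : t * (p : ℚ_[p]) ^ (-k) * (t' * (p : ℚ_[p]) ^ k) = 1 := by
    linear_combination ((p : ℚ_[p]) ^ k * (p : ℚ_[p]) ^ (-k)) * e + e1
  have n1 : ‖t * (p : ℚ_[p]) ^ (-k)‖ = 1 := by
    rw [norm_mul, Padic.norm_eq_zpow_neg_valuation ht, Padic.norm_p_zpow, ← zpow_add₀
      (Nat.cast_ne_zero.2 hp.out.ne_zero), add_neg_cancel, zpow_zero]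
  have n2 : ‖t' * (p : ℚ_[p]) ^ k‖ = 1 := by
    have := congrArg norm e2
    rwa [norm_mul, n1, one_mul, norm_one] at this
  have m1 : dE hE hs hy _ _ e1 ∈ (c.Gp.map (MonoidHom.fst _ _)).comap (τ c) :=
    dt_mem hE c.lat hS (zpow_RM k) (zpow_RM (-k)) (by
      rw [← zpow_add₀ (Nat.cast_ne_zero.2 hp.out.ne_zero), add_neg_cancel, zpow_zero]) _ (by
      push_cast
      rfl)
  have e3 : d = dE hE hs hy _ _ e2 * dE hE hs hy _ _ e1 := ort_ext (by
    rw [hd, ort_mul]
    refine Eq.trans ?_ (((hE _ _ _ hs).2 _ _ _ _ hy e2).2.2.1 _ _).symm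
    congr 1
    · linear_combination -t * e1
    · linear_combination -t' * e1)
  have m2 := inv_mem (mul_mem (Subgroup.le_topologicalClosure _ m1) hm)
  set s := dE hE hs hy _ _ e1 * (d⁻¹ * g) with hs'
  obtain ⟨x, hx1, y, hy1, hy2⟩ := mem_closure_iff.1 m2 {x | Intg (τ c (s * x))}
    (d9.preimage ((τ_cont c).comp (continuous_const_mul s))) (by
      change Intg (τ c (s * s⁻¹))
      rw [mul_inv_cancel, map_one]
      intro i j
      change ‖(1 : Mx n ℚ_[p]) i j‖ ≤ 1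
      rw [one_apply]
      split_ifs <;> simp)
  refine ⟨y, hy1, ?_⟩
  have e4 : τ c g * y.1 = τ c (dE hE hs hy _ _ e2) * τ c (s * x) := by
    rw [show y.1 = τ c x from hy2, ← map_mul, ← map_mul, hs', ← mul_assoc, ← mul_assoc, ← e3,
      mul_inv_cancel_left]
  rw [e4]
  exact d6 _ _ (mul_int (mul_int c.int₀ (dt_int n1.le n2.le)) c.int₁) hx1

theorem densR (hE : EichStmt) (hG : GenStmt) (hD : DiscStmt) : DensRStmt := by
  intro n p hp c
  obtain ⟨-, d2, -⟩ := hD n p c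
  have hS : Big (J.RM p) c.A ℝ (c.Gp.map (MonoidHom.snd _ _)) := by
    intro M γ h1 h2 h3 h4 g hg
    obtain ⟨x, hx, -, e⟩ := d2 M γ h1 h2 h3 h4
    exact ⟨x, hx, ort_ext (e.trans hg.symm)⟩
  have hs := Am_symm ℝ c.lat
  have hy := Am_hy ℝ c.lat
  obtain ⟨g1, g2⟩ := hG _ ℝ _ _ _ _ two_ne_zero hs (Am_det _ (det_ne c)) hy
    (ei_mem hE c.lat hS dense_R)
  have pos : ∀ (d : GR c.A) (t t' : ℝ), t * t' = 1 → 0 < t →
      d.1.1 = dt (Am c.A ℝ) (Pi.single 0 1) (Pi.single 1 1) t t' →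
      d ∈ (c.Gp.map (MonoidHom.snd _ _)).topologicalClosure := fun d t t' e ht hd => by
    have ht' : 0 < t' := (mul_pos_iff_of_pos_left ht).1 (e ▸ one_pos)
    refine g2 (by omega) d (√t) (√t') (by rw [← Real.sqrt_mul ht.le, e, Real.sqrt_one]) ?_
    rw [Real.sq_sqrt ht.le, Real.sq_sqrt ht'.le, hd]
  have hd : Dense (c.Gp.map (MonoidHom.snd _ _) : Set (GR c.A)) := fun g => by
    obtain ⟨d, t, t', e, hd, hm⟩ := g1 g
    have m : d ∈ (c.Gp.map (MonoidHom.snd _ _)).topologicalClosure := by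
      rcases (left_ne_zero_of_mul_eq_one e).lt_or_gt with ht | ht
      · have e1 : (-1 : ℝ) * -1 = 1 := by ring
        have e2 : -t * -t' = 1 := by rw [neg_mul_neg, e]
        have e3 : d = dE hE hs hy _ _ e1 * dE hE hs hy _ _ e2 := ort_ext (by
          rw [hd, ort_mul]
          refine Eq.trans ?_ (((hE _ _ _ hs).2 _ _ _ _ hy e1).2.2.1 _ _).symm
          congr 1 <;> ring)
        rw [e3]
        refine mul_mem (Subgroup.le_topologicalClosure _ (dt_mem hE c.lat hS (t := -1) (t' := -1)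
          (neg_mem (one_mem _)) (neg_mem (one_mem _)) (by ring) _ ?_))
          (pos _ _ _ e2 (neg_pos.2 ht) rfl)
        push_cast
        rfl
      · exact pos d t t' e ht hd
    have := mul_mem m hm
    rwa [mul_inv_cancel_left] at this
  refine (dense_univ.prod hd).mono ?_
  rintro ⟨h, _⟩ ⟨-, γ, hγ, rfl⟩
  exact ⟨h * γ.1⁻¹, γ, hγ, Prod.ext (by simp) (by simp)⟩

end Pool.Agent.Lib.MP_9177b7_ag.SO
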