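import Pool.Agent.Lib.MP_9177b7_ag.SO.StQ

/-!
Fourier expansion of products of periodised trapezoid weights, and the Weyl bound.
-/

open Finset Pool.Agent.Lib.MP_028aa5_nt Pool.Agent.Lib.MP_786755_nt

noncomputable section

namespace Pool.Agent.Lib.MP_9177b7_ag.SO

namespace Eqd0

open S4.Eqd

variable {n : ℕ}

/-- The Fourier coefficients of the periodised weight. -/
def co (D K M : ℕ) (g : ℤ) : ℂ :=
  (∑ m ∈ range (K * D), e (m * (-g / (D * M : ℕ)))) * (∑ j ∈ range D, e (j * (-g / (D * M : ℕ)))) /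
    (D * (D * M : ℕ))

lemma e_sum {ι : Type*} (I : Finset ι) (x : ι → ℝ) : e (∑ i ∈ I, x i) = ∏ i ∈ I, e (x i) := by
  classical
  induction I using Finset.induction_on with
  | empty => simp
  | insert a s ha ih => rw [sum_insert ha, prod_insert ha, e_add, ih]

lemma four {D M : ℕ} (K : ℕ) (hD : 0 < D) (hM : 0 < M) (L z : ℤ) :
    (P D K M z : ℂ) = ∑ h ∈ range (D * M),
      co D K M (h - L) * e ((((h : ℤ) - L : ℤ) : ℝ) * z / (D * M : ℕ)) := by
  have hQ0 : 0 < D * M := Nat.mul_pos hD hM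
  have hDc : (D : ℂ) ≠ 0 := by exact_mod_cast hD.ne'
  have hQc : ((D * M : ℕ) : ℂ) ≠ 0 := by exact_mod_cast hQ0.ne'
  have h0 : ∀ h : ℕ, co D K M (h - L) * e ((((h : ℤ) - L : ℤ) : ℝ) * z / (D * M : ℕ)) =
      (∑ m ∈ range (K * D), ∑ j ∈ range D,
        e ((((h : ℤ) - L : ℤ) : ℝ) * ((z - m - j : ℤ) : ℝ) / (D * M : ℕ))) / (D * (D * M : ℕ)) := by
    intro h
    rw [co, div_mul_eq_mul_div, sum_mul_sum (range _), sum_mul]
    congr 1
    refine sum_congr rfl fun m _ => ?_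
    rw [sum_mul]
    refine sum_congr rfl fun j _ => ?_
    rw [← e_add, ← e_add]
    congr 1
    push_cast
    ring
  simp only [h0]
  rw [← sum_div, sum_comm, eq_div_iff (mul_ne_zero hDc hQc), P, Complex.ofReal_div,
    Complex.ofReal_natCast, ← mul_assoc, div_mul_cancel₀ _ hDc, Complex.ofReal_sum, sum_mul]
  refine sum_congr rfl fun m _ => ?_
  rw [sum_comm, Complex.ofReal_sum, sum_mul]
  refine sum_congr rfl fun j _ => ?_
  rw [orth hQ0 L]
  split_ifs <;> simp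

lemma co_zero {D M : ℕ} (K : ℕ) (hD : 0 < D) (hM : 0 < M) : co D K M 0 = K / M := by
  have hDc : (D : ℂ) ≠ 0 := by exact_mod_cast hD.ne'
  have hMc : (M : ℂ) ≠ 0 := by exact_mod_cast hM.ne'
  simp only [co, Int.cast_zero, neg_zero, zero_div, mul_zero, e_zero, sum_const, card_range,
    nsmul_eq_mul, mul_one]
  push_cast
  field_simp

lemma co_le {D M : ℕ} (K : ℕ) (hD : 0 < D) (hM : 0 < M) {g : ℤ} (g0 : g ≠ 0)
    (hg : |g| * 2 ≤ 1 * (D * M : ℕ)) :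
    ‖co D K M g‖ * max 1 |(g : ℝ)| ≤ M / 4 * (1 / |(g : ℝ)|) := by
  have hD' : (0 : ℝ) < D := by exact_mod_cast hD
  have hM' : (0 : ℝ) < M := by exact_mod_cast hM
  have hQ' : (0 : ℝ) < (D * M : ℕ) := by positivity
  have g1 : 1 ≤ |(g : ℝ)| := by exact_mod_cast Int.one_le_abs g0
  have g2 : |(-g / (D * M : ℕ) : ℝ)| = |(g : ℝ)| / (D * M : ℕ) := by
    rw [abs_div, abs_neg, abs_of_pos hQ']
  have g3 : |(-g / (D * M : ℕ) : ℝ)| ≤ 1 / 2 := by
    rw [g2, div_le_div_iff₀ hQ' two_pos]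
    exact_mod_cast hg
  have g4 : (-g / (D * M : ℕ) : ℝ) ≠ 0 := by rw [← abs_pos, g2]; positivity
  have g5 := geo g4 g3
  rw [g2] at g5
  rw [max_eq_right g1, co, norm_div, norm_mul, norm_mul, Complex.norm_natCast,
    Complex.norm_natCast]
  calc _ ≤ (1 / (2 * (|(g : ℝ)| / (D * M : ℕ))) * (1 / (2 * (|(g : ℝ)| / (D * M : ℕ))))) /
        (D * (D * M : ℕ)) * |(g : ℝ)| := by
        gcongr
        exacts [g5 _, g5 _]
    _ = _ := by
      push_cast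
      field_simp
      norm_num

lemma co_sum {D M K : ℕ} (hK : 1 ≤ K) (hD : 0 < D) (hM : 0 < M) :
    ∑ h ∈ range (D * M), ‖co D K M (h - (D * M / 2 : ℕ))‖ *
      max 1 |(((h : ℤ) - (D * M / 2 : ℕ) : ℤ) : ℝ)| ≤ K * (1 + M * (1 + Real.log (D * M : ℕ))) := by
  have hQ0 : 0 < D * M := Nat.mul_pos hD hM
  have hM' : (1 : ℝ) ≤ M := by exact_mod_cast hM
  have hK' : (1 : ℝ) ≤ K := by exact_mod_cast hK
  have h6 : 0 ≤ 1 + Real.log (D * M : ℕ) := by have := Real.log_natCast_nonneg (D * M); linarith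
  rw [← add_sum_erase _ _ (show D * M / 2 ∈ range (D * M) from mem_range.2 (by omega))]
  have h1 : ‖co D K M ((D * M / 2 : ℕ) - (D * M / 2 : ℕ))‖ *
      max 1 |((((D * M / 2 : ℕ) : ℤ) - (D * M / 2 : ℕ) : ℤ) : ℝ)| ≤ K := by
    rw [sub_self, co_zero K hD hM, norm_div, Complex.norm_natCast, Complex.norm_natCast]
    simp only [Int.cast_zero, abs_zero, zero_le_one, max_eq_left, mul_one]
    exact div_le_self (by positivity) hM'
  have h2 : ∑ h ∈ (range (D * M)).erase (D * M / 2), ‖co D K M (h - (D * M / 2 : ℕ))‖ *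
      max 1 |(((h : ℤ) - (D * M / 2 : ℕ) : ℤ) : ℝ)| ≤
      M / 4 * (2 * (1 + Real.log (D * M : ℕ))) := by
    refine (sum_le_sum fun h hh => co_le K hD hM ?_ ?_).trans ?_
    · simp only [mem_erase, mem_range] at hh
      omega
    · simp only [mem_erase, mem_range] at hh
      rcases abs_choice ((h : ℤ) - (D * M / 2 : ℕ)) with h | h <;> rw [h] <;> omega
    · rw [← mul_sum]
      gcongr
      exact harm (Nat.div_le_self _ _)
  have h3 : 0 ≤ M * (1 + Real.log (D * M : ℕ)) := by positivity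
  nlinarith

lemma perN {ι : Type*} (I : Finset ι) (z : ι → Fin n → ℤ) {D M : ℕ} {K : Fin n → ℕ}
    (hK : ∀ a, 1 ≤ K a) (hD : 0 < D) (hM : 0 < M) {W : ℝ} (hW0 : 0 ≤ W)
    (hW : ∀ g : Fin n → ℤ, g ≠ 0 → ‖∑ i ∈ I, e (∑ a, (g a : ℝ) * z i a / (D * M : ℕ))‖ ≤
      (∏ a, max 1 |(g a : ℝ)|) * W) :
    |∑ i ∈ I, ∏ a, P D (K a) M (z i a) - #I * ∏ a, ((K a : ℝ) / M)| ≤
      (∏ a, (K a : ℝ)) * (1 + M * (1 + Real.log (D * M : ℕ))) ^ n * W := by
  have hQ0 : 0 < D * M := Nat.mul_pos hD hM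
  set L := D * M / 2 with hL
  set H := Fintype.piFinset fun _ : Fin n => range (D * M) with hH
  set t : (Fin n → ℕ) → ℂ := fun h => (∏ a, co D (K a) M (h a - L)) *
    ∑ i ∈ I, e (∑ a, (((h a : ℤ) - L : ℤ) : ℝ) * z i a / (D * M : ℕ)) with ht
  have h1 : ((∑ i ∈ I, ∏ a, P D (K a) M (z i a) : ℝ) : ℂ) = ∑ h ∈ H, t h := by
    simp only [ht, mul_sum]
    rw [sum_comm, Complex.ofReal_sum]
    refine sum_congr rfl fun i _ => ?_
    rw [Complex.ofReal_prod, prod_congr rfl fun a _ => four (K a) hD hM L (z i a), prod_univ_sum]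
    refine sum_congr rfl fun h _ => ?_
    rw [prod_mul_distrib, e_sum]
  have h2 : t (fun _ => L) = ((#I * ∏ a, ((K a : ℝ) / M) : ℝ) : ℂ) := by
    simp only [ht, sub_self, co_zero _ hD hM]
    simp [mul_comm]
  have h3 : (fun _ => L) ∈ H := Fintype.mem_piFinset.2 fun _ => mem_range.2 (by omega)
  rw [← Real.norm_eq_abs, ← Complex.norm_real, Complex.ofReal_sub, h1, ← h2, ← sum_erase_eq_sub h3]
  have h4 : ∀ h ∈ H.erase fun _ => L, ‖t h‖ ≤
      (∏ a, ‖co D (K a) M (h a - L)‖ * max 1 |(((h a : ℤ) - L : ℤ) : ℝ)|) * W := by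
    intro h hh
    have h5 := hW (fun a => (h a : ℤ) - L) fun h0 => (mem_erase.1 hh).1 (funext fun a => by
      have := congrFun h0 a
      simp only [Pi.zero_apply] at this
      omega)
    simp only [ht]
    rw [norm_mul, norm_prod, prod_mul_distrib, mul_assoc]
    gcongr
  refine (norm_sum_le _ _).trans ((sum_le_sum h4).trans ?_)
  refine (sum_le_sum_of_subset_of_nonneg (erase_subset _ _) fun _ _ _ => by positivity).trans ?_
  rw [← sum_mul, hH, ← prod_univ_sum (fun _ : Fin n => range (D * M)) fun a h =>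
    ‖co D (K a) M (h - L)‖ * max 1 |(((h : ℤ) - L : ℤ) : ℝ)|]
  gcongr
  refine (prod_le_prod (fun a _ => by positivity) fun a _ => co_sum (hK a) hD hM).trans ?_
  rw [prod_mul_distrib, prod_const, card_univ, Fintype.card_fin]

lemma dioph {D Z : ℕ} (hD : 0 < D) (hZ : 0 < Z) (C : ℤ) : ∃ (q : ℕ) (r : ℤ), 1 ≤ q ∧ q ≤ Z ∧
    IsCoprime r q ∧ |(C / D : ℝ) - r / q| ≤ 1 / (q : ℝ) ^ 2 ∧
      |((q * C - r * D : ℤ) : ℝ)| * (Z + 1) ≤ D := by
  obtain ⟨ρ, h1, h2⟩ := Real.exists_rat_abs_sub_le_and_den_le (C / D : ℝ) hZ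
  rw [Rat.cast_def] at h1
  have hq : (0 : ℝ) < ρ.den := by exact_mod_cast ρ.pos
  have hD' : (0 : ℝ) < D := by exact_mod_cast hD
  have h3 : (ρ.den : ℝ) ≤ Z := by exact_mod_cast h2
  refine ⟨ρ.den, ρ.num, ρ.pos, h2, Int.isCoprime_iff_gcd_eq_one.2 ρ.reduced, h1.trans ?_, ?_⟩
  · rw [sq]
    gcongr
    linarith
  · have : ((ρ.den * C - ρ.num * D : ℤ) : ℝ) = D * ρ.den * ((C / D : ℝ) - ρ.num / ρ.den) := by
      push_cast
      field_simp
    rw [this, abs_mul, abs_of_pos (mul_pos hD' hq)]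
    rw [le_div_iff₀ (by positivity)] at h1
    nlinarith

lemma weyl {D M N h : ℕ} {c : Fin n → ℤ} {w : Fin n → ℝ} (A t : ℤ) (x : Fin n → ℤ) {y u v : ℝ}
    (hy : 117 ≤ y) (hh : 0 < h) (hhy : 4 * (h : ℝ) * n ≤ y) (hu : 1 ≤ u) (hv : v = u ^ n)
    (hD : (D : ℝ) = u ^ 2 * v ^ 2) (lg : ∀ z : ℝ, 0 < z → z ≤ y * D → 1 + Real.log z ≤ y ^ 2)
    (hw : ∀ i, 1 ≤ w i ∧ w i ≤ y)
    (dio : ∀ (u : Fin n → ℤ) (j r : ℤ), u ≠ 0 → j ≠ 0 → (D : ℤ) ∣ j * ∑ i, u i * c i - r →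
      (D : ℝ) ≤ (|(j : ℝ)| * ∑ i, |(u i : ℝ)| * w i + |(r : ℝ)|) ^ (n + 1))
    (hM : 1 ≤ M) (hMy : (M : ℝ) ≤ y) (hN : (N : ℝ) ≤ y * (u * v)) (g : Fin n → ℤ) (hg : g ≠ 0) :
    ‖∑ i ∈ range N, e (∑ a, (g a : ℝ) * ((c a * (A - h * (t + M * i) ^ 2) + x a : ℤ) : ℝ) /
      (D * M : ℕ))‖ ≤ (∏ a, max 1 |(g a : ℝ)|) * (v * y ^ 3) := by
  have y0 : 0 < y := by linarith
  have y1 : 1 ≤ y := by linarith
  have hn : n ≠ 0 := by
    rintro rfl
    exact hg (Subsingleton.elim _ _)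
  have uv : u ≤ v := hv ▸ le_self_pow₀ hu hn
  have v1 : 1 ≤ v := hu.trans uv
  have hD' : (0 : ℝ) < D := by rw [hD]; positivity
  have hD0 : 0 < D := by exact_mod_cast hD'
  have hM' : (0 : ℝ) < M := by exact_mod_cast hM
  obtain ⟨H, hH⟩ : ∃ H, H = ∏ a, max 1 |(g a : ℝ)| := ⟨_, rfl⟩
  have H1 : 1 ≤ H := hH ▸ Finset.one_le_prod fun a _ => le_max_left _ _
  have H2 : ∀ a, |(g a : ℝ)| ≤ H := fun a => by
    rw [hH, ← mul_prod_erase _ _ (mem_univ a)]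
    exact (le_max_right _ _).trans (le_mul_of_one_le_right (by positivity)
      (Finset.one_le_prod fun a _ => le_max_left _ _))
  rw [← hH]
  obtain ⟨C, hC⟩ : ∃ C, C = ∑ a, g a * c a := ⟨_, rfl⟩
  obtain ⟨q, r, hq, hqZ, hr, ha, hb⟩ := dioph hD0 (Z := ⌈2 * v ^ 2⌉₊) (Nat.ceil_pos.2 (by positivity))
    (-(2 * h * M) * C)
  have hq' : (1 : ℝ) ≤ q := by exact_mod_cast hq
  have hqv : (q : ℝ) ≤ 3 * v ^ 2 := by
    have h1 : (q : ℝ) ≤ ⌈2 * v ^ 2⌉₊ := by exact_mod_cast hqZ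
    have h2 := Nat.ceil_lt_add_one (show 0 ≤ 2 * v ^ 2 by positivity)
    nlinarith
  have h1 : |((q * (-(2 * h * M) * C) - r * D : ℤ) : ℝ)| ≤ u ^ 2 / 2 := by
    have h2 := Nat.le_ceil (2 * v ^ 2)
    refine le_of_mul_le_mul_right ?_ (show 0 < 2 * v ^ 2 by positivity)
    calc _ ≤ |((q * (-(2 * h * M) * C) - r * D : ℤ) : ℝ)| * (⌈2 * v ^ 2⌉₊ + 1) := by
          gcongr
          linarith
      _ ≤ D := hb
      _ = _ := by rw [hD]; ring
  have h2 : u ^ 2 ≤ y ^ 3 * q * H := by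
    have h3 := dio g (-(2 * h * M) * q) (q * (-(2 * h * M) * C) - r * D) hg
      (mul_ne_zero (neg_ne_zero.2 (by positivity)) (by positivity)) ⟨r, by rw [← hC]; ring⟩
    rw [hD, hv, show u ^ 2 * (u ^ n) ^ 2 = (u ^ 2) ^ (n + 1) by ring] at h3
    have h4 := le_of_pow_le_pow_left₀ (Nat.succ_ne_zero n)
      (add_nonneg (mul_nonneg (abs_nonneg _) (sum_nonneg fun i _ => mul_nonneg (abs_nonneg _)
        (zero_le_one.trans (hw i).1))) (abs_nonneg _)) h3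
    have h5 : ∑ i, |(g i : ℝ)| * w i ≤ n * (H * y) := by
      have := sum_le_card_nsmul univ (fun i => |(g i : ℝ)| * w i) (H * y) fun i _ =>
        mul_le_mul (H2 i) (hw i).2 (zero_le_one.trans (hw i).1) (by linarith)
      rwa [card_univ, Fintype.card_fin, nsmul_eq_mul] at this
    have h6 : |((-(2 * h * M) * q : ℤ) : ℝ)| = 2 * h * M * q := by
      push_cast
      rw [abs_mul, abs_neg, abs_of_nonneg (by positivity), abs_of_nonneg (by positivity)]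
    rw [h6] at h4
    have h7 : 2 * (h : ℝ) * M * q * ∑ i, |(g i : ℝ)| * w i ≤ 2 * h * y * q * (n * (H * y)) := by
      gcongr
      exact sum_nonneg fun i _ => mul_nonneg (abs_nonneg _) (zero_le_one.trans (hw i).1)
    have h8 : 4 * (h : ℝ) * n * (y ^ 2 * q * H) ≤ y * (y ^ 2 * q * H) := by gcongr
    nlinarith
  have h3 := weyl2 (β := -(h * M * C / D)) (-(2 * h * t * C / D))
    ((C * (A - h * t ^ 2) + ∑ a, g a * x a) / (D * M)) hq hr
    (by convert ha using 3; push_cast; ring) N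
  have h6 : ∑ i ∈ range N, e (∑ a, (g a : ℝ) *
      ((c a * (A - h * (t + M * i) ^ 2) + x a : ℤ) : ℝ) / (D * M : ℕ)) =
      ∑ i ∈ range N, e (-(h * M * C / D) * i ^ 2 + -(2 * h * t * C / D) * i +
        (C * (A - h * t ^ 2) + ∑ a, g a * x a) / (D * M)) := by
    refine sum_congr rfl fun i _ => ?_
    congr 1
    have : ∑ a, (g a : ℝ) * ((c a * (A - h * (t + M * i) ^ 2) + x a : ℤ) : ℝ) =
        C * (A - h * (t + M * i) ^ 2) + ∑ a, g a * x a := by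
      rw [hC]
      push_cast
      rw [sum_mul, ← sum_add_distrib]
      exact sum_congr rfl fun a _ => by ring
    rw [← sum_div, this]
    push_cast
    field_simp
    ring
  rw [h6]
  refine le_of_pow_le_pow_left₀ (n := 2) (by norm_num) (by positivity) (h3.trans ?_)
  have l1 := lg q (by linarith) (by
    rw [hD]
    have : v ^ 2 ≤ u ^ 2 * v ^ 2 := le_mul_of_one_le_left (by positivity) (one_le_pow₀ hu)
    nlinarith)
  have l0 : 0 ≤ 1 + Real.log q := by have := Real.log_natCast_nonneg q; linarith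
  obtain ⟨l, hl⟩ : ∃ l, l = 1 + Real.log q := ⟨_, rfl⟩
  rw [← hl] at l1 l0 ⊢
  obtain ⟨X, hX⟩ : ∃ X, X = H * v ^ 2 * y ^ 5 := ⟨_, rfl⟩
  have b0 : v ^ 2 * y ^ 3 ≤ X := by
    rw [hX, mul_assoc]
    refine le_trans ?_ (le_mul_of_one_le_left (by positivity) H1)
    gcongr
    norm_num
  have b1 : (N : ℝ) ≤ y * v ^ 2 := hN.trans (by rw [sq]; gcongr)
  have b2 : (N : ℝ) * l ≤ X := by
    refine le_trans ?_ b0
    calc _ ≤ y * v ^ 2 * y ^ 2 := by gcongr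
      _ = _ := by ring
  have b3 : (N : ℝ) ≤ X := by
    refine b1.trans (le_trans ?_ b0)
    rw [mul_comm]
    gcongr
    exact le_self_pow₀ y1 (by norm_num)
  have b4 : (q : ℝ) * l ≤ 3 * X := by
    refine le_trans ?_ (mul_le_mul_of_nonneg_left b0 (by norm_num))
    calc _ ≤ 3 * v ^ 2 * y ^ 2 := by gcongr
      _ ≤ 3 * v ^ 2 * y ^ 3 := by gcongr; norm_num
      _ = _ := by ring
  have b5 : (N : ℝ) ^ 2 / q ≤ X := by
    rw [div_le_iff₀ (by linarith)]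
    calc _ ≤ (y * (u * v)) ^ 2 := by gcongr
      _ = y ^ 2 * v ^ 2 * u ^ 2 := by ring
      _ ≤ y ^ 2 * v ^ 2 * (y ^ 3 * q * H) := by gcongr
      _ = _ := by rw [hX]; ring
  have b6 : (2 * (N : ℝ) / q + 1) * (3 * N + 4 * q * l) =
      6 * (N ^ 2 / q) + 8 * (N * l) + 3 * N + 4 * (q * l) := by
    field_simp
    ring
  have b7 : (H * (v * y ^ 3)) ^ 2 = H * y * X := by rw [hX]; ring
  have b8 : 117 ≤ H * y := by nlinarith
  have b9 : 0 ≤ X := le_trans (by positivity) b0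
  rw [b6, b7]
  nlinarith

end Eqd0

end Pool.Agent.Lib.MP_9177b7_ag.SO
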