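import Pool.Agent.Lib.MP_9177b7_ag.SO.Frame
import Pool.Agent.Lib.MP_9177b7_ag.S4.Fib
import Pool.Agent.Lib.MP_9177b7_ag.S4.Nrm

/-!
The fibres of the invariants.
-/

open NumberField FractionalIdeal IsCMField
open scoped nonZeroDivisors

noncomputable section

namespace Pool.Agent.Lib.MP_9177b7_ag.SO

namespace Fib

open Fr0

section cm

variable {E : Type} [Field E] [NumberField E] [IsCMField E]

theorem cI_cI (b : Ideal (𝓞 E)) : cI (cI b) = b :=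
  coeIdeal_injective (K := E) (by
    change ((cI (cI b) : Ideal (𝓞 E)) : FI E) = b
    rw [← cF_coe, ← cF_coe, cF_cF])

theorem cI_ne' {b : Ideal (𝓞 E)} (h : b ≠ ⊥) : cI b ≠ ⊥ := coeIdeal_ne_zero.1 (cI_ne h)

theorem cI_real (I : Ideal (𝓞 (maximalRealSubfield E))) :
    cI (I.map (algebraMap _ (𝓞 E))) = I.map (algebraMap _ (𝓞 E)) := by
  refine (Ideal.map_map (algebraMap _ (𝓞 E)) (ringOfIntegersComplexConj E : 𝓞 E →+* 𝓞 E)).trans ?_
  congr 1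
  exact RingHom.ext (ringOfIntegersComplexConj E).commutes

theorem cI_ram (e : ℕ) :
    cI (Df E ⊔ Ideal.span {(e : 𝓞 E)}) = Df E ⊔ Ideal.span {(e : 𝓞 E)} := by
  rw [cI, Ideal.map_sup, Ideal.map_span, Set.image_singleton, map_natCast]
  exact congrArg (· ⊔ _) cI_Df

theorem ram_ne (e : ℕ) : Df E ⊔ Ideal.span {(e : 𝓞 E)} ≠ ⊥ := fun h =>
  S4.Quad.Df_ne (complexConj_ne_one E) (sup_eq_bot_iff.1 h).1

theorem dvd_t {a : FI E} {g g₁ g₀ y : E} {b b₀ : Ideal (𝓞 E)} (hg : g ∈ a * (Df E : FI E)⁻¹)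
    (hb : b ≠ ⊥) (hb₀ : b₀ ≠ ⊥) (t1 : Tw a b g g₁) (t0 : Tw a b₀ g g₀)
    (ho : ∀ s : ℤ, s * g₁ ∈ tw a b → (rd E : ℤ) ∣ s) (hodd : Odd (rd E)) {v : 𝓞 E} (v0 : v ≠ 0)
    {f : Ideal (𝓞 (maximalRealSubfield E))} {e : ℕ} (he : e ∣ rd E)
    (hf : Ideal.span {v} * (b * cI b₀) * (Df E ⊔ Ideal.span {(e : 𝓞 E)}) =
      f.map (algebraMap _ (𝓞 E))) {t : ℤ} (y1 : y - t * g₁ ∈ tw a b)
    (y0 : v / bar (v : E) * y - t * g₀ ∈ tw a b₀) : (e : ℤ) ∣ t := by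
  have hN := S4.Nrm.rel_cm b₀
  set N := (Ideal.relNorm (𝓞 (maximalRealSubfield E)) b₀).map (algebraMap _ (𝓞 E)) with hN'
  have N0 : N ≠ ⊥ := hN ▸ mul_ne_zero hb₀ (cI_ne' hb₀)
  have s0 : Ideal.span {v} ≠ ⊥ := by simpa using v0
  have g1 := t1.dual hg hb
  have T1 : Tw a (b * N) g g₁ := t1.mul hb (tw_real g1 _)
  have e1 : tw a (b * N) = tw a b := by rw [← tw_tw, tw_inv N0 (cI_real _)]
  have c1 : b * N ≠ ⊥ := mul_ne_zero hb N0
  have T2 : Tw a (b * N * Ideal.span {v}) g (v / bar (v : E) * g₁) :=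
    T1.mul c1 (e1 ▸ (tw_span g1 v0).1)
  have e2 : tw a (b * N * Ideal.span {v}) = spanSingleton _ (v / bar (v : E)) * tw a b := by
    rw [← tw_tw, e1, (tw_span g1 v0).2]
  have c2 : b * N * Ideal.span {v} ≠ ⊥ := mul_ne_zero c1 s0
  obtain ⟨ρ, h3, -⟩ := exists_tw (T2.dual hg c2) (ram_ne e)
  have T3 := T2.mul c2 h3
  have e3 := (tw_tw (a := a)).symm.trans ((tw_inv (ram_ne e) (cI_ram e)).trans e2)
  have ec : b * N * Ideal.span {v} * (Df E ⊔ Ideal.span {(e : 𝓞 E)}) =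
      b₀ * f.map (algebraMap _ (𝓞 E)) := by
    rw [← hf, hN]
    ring
  have f0 : f.map (algebraMap _ (𝓞 E)) ≠ ⊥ :=
    hf ▸ mul_ne_zero (mul_ne_zero s0 (mul_ne_zero hb (cI_ne' hb₀))) (ram_ne e)
  rw [ec] at T3 e3
  have T4 := (T3.iff (mul_ne_zero hb₀ f0)).1 (t0.mul hb₀ (tw_real (t0.dual hg hb₀) f))
  have e4 : tw a (b₀ * f.map (algebraMap _ (𝓞 E))) = tw a b₀ := by
    rw [← tw_tw, tw_inv f0 (cI_real _)]
  have w0 : (v : E) / bar (v : E) ≠ 0 :=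
    have := RingOfIntegers.coe_ne_zero_iff.2 v0
    div_ne_zero this ((_root_.map_ne_zero _).2 this)
  rw [e2] at h3
  rw [e3] at T4
  rw [← e4, e3] at y0
  generalize (v : E) / bar (v : E) = w at *
  refine dvd_of_tw (fun s hs => ho s ?_) hodd he h3 ?_
  · obtain ⟨z, h1, h2⟩ := mem_singleton_mul.1 hs
    rw [mul_left_comm] at h2
    rwa [mul_left_cancel₀ w0 h2]
  · have y2 : w * (y - t * g₁) ∈ spanSingleton _ w * tw a b := mem_singleton_mul.2 ⟨_, y1, rfl⟩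
    convert sub_mem' (sub_mem' y0 y2) (int_mem t T4) using 1
    ring

omit [IsCMField E] in
theorem cls_eq {f f' : (Ideal (𝓞 (maximalRealSubfield E)))⁰} {b b' : (Ideal (𝓞 E))⁰} {v v' : 𝓞 E}
    {I J : Ideal (𝓞 E)} (hI : I ≠ ⊥) (hJ : J ≠ ⊥) (v0 : v ≠ 0) (v1 : v' ≠ 0)
    (hf : Ideal.span {v} * (b * I) * J = f.1.map (algebraMap _ (𝓞 E)))
    (hf' : Ideal.span {v'} * (b' * I) * J = f'.1.map (algebraMap _ (𝓞 E)))
    (h : ClassGroup.mk0 f = ClassGroup.mk0 f') : ClassGroup.mk0 b = ClassGroup.mk0 b' := by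
  obtain ⟨x, y, hx, hy, h⟩ := ClassGroup.mk0_eq_mk0_iff.1 h
  have inj := FaithfulSMul.algebraMap_injective (𝓞 (maximalRealSubfield E)) (𝓞 E)
  have h1 := congrArg (Ideal.map (algebraMap _ (𝓞 E))) h
  simp only [Ideal.map_mul, Ideal.map_span, Set.image_singleton] at h1
  rw [← hf, ← hf'] at h1
  refine ClassGroup.mk0_eq_mk0_iff.2 ⟨algebraMap _ _ x * v, algebraMap _ _ y * v',
    mul_ne_zero ((map_ne_zero_iff _ inj).2 hx) v0, mul_ne_zero ((map_ne_zero_iff _ inj).2 hy) v1,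
    mul_right_cancel₀ (mul_ne_zero hI hJ) ?_⟩
  rw [← Ideal.span_singleton_mul_span_singleton, ← Ideal.span_singleton_mul_span_singleton]
  simpa only [mul_assoc] using h1

end cm

variable {n p : ℕ} [Fact p.Prime] {c : Ctx n p} {D : Dat c} {C : ℝ} {A : D.Ar C} {f f₀ : D.Fr}
  {v v₀ : Ix n → ℤ} {q₀ t : ℤ} {k : Fin n → ℤ} {g : Ideal (𝓞 D.E)}

theorem nz (f : D.Fr) : (f.b : Ideal (𝓞 D.E)) ≠ ⊥ := nonZeroDivisors.ne_zero f.b.2

theorem cmp_nrm (h : A.Inv f v q₀ t k g) (h₀ : A.Inv f₀ v₀ q₀ t k g) :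
    f₀.y v₀ * D.bar (f₀.y v₀) = f.y v * D.bar (f.y v) :=
  mul_left_cancel₀ (hyp D).ne (by
    rw [← mul_assoc, ← mul_assoc]
    exact h₀.eta.symm.trans h.eta)

theorem cmp_idl (h : A.Inv f v q₀ t k g) (h₀ : A.Inv f₀ v₀ q₀ t k g) :
    spanSingleton _ (f₀.y v₀) * D.tw D.a f.b = spanSingleton _ (f.y v) * D.tw D.a f₀.b := by
  refine mul_left_cancel₀ (Df_ne (E := D.E)) ?_
  have a := h.idl
  have b := h₀.idl
  rw [mul_comm (spanSingleton _ _)] at a b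
  exact (mul_assoc _ _ _).symm.trans ((congrArg (· * _) b.symm).trans
    ((mul_right_comm _ _ _).trans ((congrArg (· * _) a).trans (mul_assoc _ _ _))))

theorem mem_lat (h : A.Inv f v q₀ t k g) : f.y v - t * f.g ∈ D.tw D.a f.b :=
  (f.fr.2 _ _).2 ⟨v, rfl, h.s.symm⟩

theorem amb_of (h : A.Inv f v q₀ t k g) (h₀ : A.Inv f₀ v₀ q₀ t k g) :
    ∃ (I : (Ideal (𝓞 D.F))⁰) (e : ℕ) (u : 𝓞 D.E), e ∣ D.Dn ∧ (e : ℤ) ∣ t ∧ u ≠ 0 ∧
      Ideal.span {u} * (f.b.1 * cI f₀.b.1) * (Df D.E ⊔ Ideal.span {(e : 𝓞 D.E)}) =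
        I.1.map (algebraMap _ (𝓞 D.E)) := by
  have g0 := h₀.ne
  have g1 : D.bar (f₀.y v₀) ≠ 0 := (_root_.map_ne_zero _).2 g0
  have a0 : D.a ≠ 0 := fm_ne D D.sp.frame
  obtain ⟨u, u0, hu⟩ := S4.FibAux.h90 (f.y v / f₀.y v₀) (by
    rw [map_div₀, div_mul_div_comm, ← cmp_nrm h h₀, div_self (mul_ne_zero g0 g1)])
  have u1 : (u : D.E) ≠ 0 := RingOfIntegers.coe_ne_zero_iff.2 u0
  have hy : u / bar (u : D.E) * f.y v = f₀.y v₀ := by
    have := h.ne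
    rw [bar, hu]
    field_simp
  have I0 : Ideal.span {u} * (f.b.1 * cI f₀.b.1) ≠ ⊥ :=
    mul_ne_zero (by simpa using u0) (mul_ne_zero (nz f) (cI_ne' (nz f₀)))
  have inv : cI (Ideal.span {u} * (f.b.1 * cI f₀.b.1)) = Ideal.span {u} * (f.b.1 * cI f₀.b.1) := by
    refine coeIdeal_injective (K := D.E) ?_
    change ((cI _ : Ideal (𝓞 D.E)) : D.FI) = ((_ : Ideal (𝓞 D.E)) : D.FI)
    have a := cmp_idl h h₀
    have n1 := cI_ne (nz f)
    have n0 := cI_ne (nz f₀)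
    have n2 : (spanSingleton _ (f.y v) : D.FI) ≠ 0 := spanSingleton_ne_zero_iff.2 h.ne
    have n3 : (spanSingleton _ (bar (u : D.E)) : D.FI) ≠ 0 :=
      spanSingleton_ne_zero_iff.2 ((_root_.map_ne_zero _).2 u1)
    rw [← hy, div_eq_mul_inv, ← spanSingleton_mul_spanSingleton, ← spanSingleton_mul_spanSingleton,
      ← spanSingleton_inv D.E, Dat.tw, Dat.tw] at a
    rw [← cF_coe, coeIdeal_mul, coeIdeal_mul, coeIdeal_span_singleton, map_mul, map_mul, cF_span,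
      cF_coe, cF_coe, cI_cI]
    field_simp at a
    rw [← mul_assoc, ← mul_assoc]
    exact a.symm
  obtain ⟨I, e, i0, he, hI⟩ := S4.Quad.amb h2 (complexConj_ne_one D.E)
    (norm_Df (E := D.E) ▸ D.sp.sqf) I0
    fun x hx => inv ▸ Ideal.mem_map_of_mem (ringOfIntegersComplexConj D.E) hx
  rw [norm_Df] at he
  exact ⟨⟨I, mem_nonZeroDivisors_of_ne_zero i0⟩, e, u, he,
    dvd_t ((mem_dual_iff (hyp D) a0 D.sp.frame _).2 ⟨1, g_mem⟩) (nz f) (nz f₀) f.htw f₀.htw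
      (fun s => (ord (hyp D) (fm_ne D f.fr) f.fr s).1) (odd_rd D) u0 he hI (mem_lat h)
      (hy ▸ mem_lat h₀), u0, hI⟩

theorem v_eq (h : A.Inv f v q₀ t k g) (h₀ : A.Inv f v₀ q₀ t k g) (e : f.y v = f.y v₀) : v = v₀ := by
  obtain ⟨-, -, -, ind, -⟩ := (frame n p c D).2.2.2.2.2.2.2 _ _ _ _ f.fr
  have := ind (fun i => v i - v₀ i) (by
    simp only [Rat.cast_sub, Rat.cast_intCast, sub_mul, Finset.sum_sub_distrib]
    exact sub_eq_zero.2 e) (by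
    have := congrArg (Int.cast (R := ℚ)) (h.s.trans h₀.s.symm)
    simp only [Dat.Fr.s, Int.cast_sum, Int.cast_mul] at this
    simpa only [sub_mul, Finset.sum_sub_distrib] using sub_eq_zero.2 this)
  exact funext fun i => Int.cast_injective (α := ℚ) (sub_eq_zero.1 (congrFun this i))

theorem rel_ne (h : A.Inv f v q₀ t k g) : D.xF (A.jd (A.et (A.nt q₀ t) k)) ≠ 0 := by
  have g0 : g ≠ ⊥ := fun e => by
    have := h.idl
    rw [e, coeIdeal_bot, zero_mul] at this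
    exact mul_ne_zero (spanSingleton_ne_zero_iff.2 h.ne) Df_ne this.symm
  exact h.rel ▸ mul_ne_zero g0 (cI_ne' g0)

end Fib

open Fib Fr0 in
theorem fib : FibStmt := by
  classical
  intro n p _ c D C A S q₀ t k T hT
  rcases T.eq_empty_or_nonempty with rfl | ⟨x₀, hx₀⟩
  · exact Nat.zero_le _
  choose! g h using hT
  have fin : {g | g * D.cI g = D.xF (A.jd (A.et (A.nt q₀ t) k))}.Finite :=
    Set.Finite.subset (s := {x | x ∣ D.xF (A.jd (A.et (A.nt q₀ t) k))})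
      (UniqueFactorizationMonoid.fintypeSubtypeDvd _ (rel_ne (h x₀ hx₀))).finite
      fun g hg => ⟨_, hg.symm⟩
  have hr : A.rr (A.et (A.nt q₀ t) k) = fin.toFinset.card := by
    rw [← Set.ncard_eq_toFinset_card _ fin]
    rfl
  rw [hr]
  refine Finset.card_le_mul_card_image_of_maps_to (f := g)
    (fun x hx => fin.mem_toFinset.2 (h x hx).rel) _ fun g₀ _ => ?_
  set T' := T.filter fun x => g x = g₀ with hT'
  have h' : ∀ x ∈ T', A.Inv (S.f x.1) x.2 q₀ t k g₀ := fun x hx => by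
    obtain ⟨a, rfl⟩ := Finset.mem_filter.1 hx
    exact h x a
  rcases T'.eq_empty_or_nonempty with e | ⟨z₀, hz₀⟩
  · rw [e]; exact Nat.zero_le _
  rw [mul_assoc]
  refine (Finset.card_le_mul_card_image (f := Prod.fst) T' (Units.torsionOrder D.E)
    fun x hx => ?_).trans (Nat.mul_le_mul_left _ ?_)
  · obtain ⟨z₁, hz₁, rfl⟩ := Finset.mem_image.1 hx
    have := Fintype.ofFinite (Units.torsion D.E)
    rw [Units.torsionOrder, Nat.card_eq_fintype_card, ← Finset.card_univ]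
    refine Finset.card_le_card_of_forall_subsingleton
      (fun q (ζ : Units.torsion D.E) =>
        (S.f z₁.1).y q.2 = ((ζ : (𝓞 D.E)ˣ) : D.E) * (S.f z₁.1).y z₁.2) (fun q hq => ?_)
      fun ζ _ q hq q' hq' => ?_
    · obtain ⟨a, e⟩ := Finset.mem_filter.1 hq
      have a1 := h' q a
      have a2 := h' z₁ hz₁
      rw [e] at a1
      obtain ⟨ζ, hζ⟩ := S4.FibAux.tors _ _ a2.ne
        (mul_right_cancel₀ (fm_ne D (S.f z₁.1).fr) (cmp_idl a1 a2)) (cmp_nrm a1 a2)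
      exact ⟨ζ, Finset.mem_univ _, hζ⟩
    · obtain ⟨a, e⟩ := Finset.mem_filter.1 hq.1
      obtain ⟨a', e'⟩ := Finset.mem_filter.1 hq'.1
      have a1 := h' q a
      have a2 := h' q' a'
      rw [e] at a1
      rw [e'] at a2
      exact Prod.ext (e.trans e'.symm) (v_eq a1 a2 (hq.2.trans hq'.2.symm))
  · rw [classNumber, ← Finset.card_univ, ← Finset.card_product]
    refine Finset.card_le_card_of_forall_subsingleton
      (fun x (u : ClassGroup (𝓞 D.F) × ℕ) => ∃ (I : (Ideal (𝓞 D.F))⁰) (v : 𝓞 D.E),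
        ClassGroup.mk0 I = u.1 ∧ v ≠ 0 ∧ Ideal.span {v} * ((S.f x).b.1 * cI (S.f z₀.1).b.1) *
          (Df D.E ⊔ Ideal.span {(u.2 : 𝓞 D.E)}) = I.1.map (algebraMap _ (𝓞 D.E)))
      (fun x hx => ?_) fun u hu x hx x' hx' => ?_
    · obtain ⟨q, hq, rfl⟩ := Finset.mem_image.1 hx
      obtain ⟨I, e, v, a1, a2, a3, a4⟩ := amb_of (h' q hq) (h' z₀ hz₀)
      exact ⟨(ClassGroup.mk0 I, e), Finset.mem_product.2 ⟨Finset.mem_univ _,
        Nat.mem_divisors.2 ⟨Nat.dvd_gcd (Int.natCast_dvd.1 a2) a1,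
          Nat.gcd_ne_zero_right rd_ne⟩⟩, I, v, rfl, a3, a4⟩
    · obtain ⟨I, v, a1, a2, a3⟩ := hx.2
      obtain ⟨I', v', c1, c2, c3⟩ := hx'.2
      rw [← S.hb x, ← S.hb x']
      exact cls_eq (cI_ne' (nz _)) (ram_ne _) a2 c2 a3 c3 (a1.trans c1.symm)

end Pool.Agent.Lib.MP_9177b7_ag.SO
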