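import Pool.Agent.Lib.MP_9177b7_ag.SO.StB

/-!
The special orthogonal group of an isotropic form is generated by Eichler transvections and a torus.
-/

open Matrix

noncomputable section

namespace Pool.Agent.Lib.MP_9177b7_ag.SO

namespace Gen

variable {N : ℕ} {F : Type} [Field F] {B : Matrix (Fin N) (Fin N) F}

theorem add_l (x y z : Fin N → F) : bf B (x + y) z = bf B x z + bf B y z := add_dotProduct ..

theorem add_r (x y z : Fin N → F) : bf B x (y + z) = bf B x y + bf B x z := by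
  simp only [bf, mulVec_add, dotProduct_add]

theorem sub_l (x y z : Fin N → F) : bf B (x - y) z = bf B x z - bf B y z := sub_dotProduct ..

theorem sub_r (x y z : Fin N → F) : bf B x (y - z) = bf B x y - bf B x z := by
  simp only [bf, mulVec_sub, dotProduct_sub]

theorem smul_l (c : F) (x z : Fin N → F) : bf B (c • x) z = c * bf B x z := smul_dotProduct ..

theorem smul_r (c : F) (x z : Fin N → F) : bf B x (c • z) = c * bf B x z := by
  simp only [bf, mulVec_smul, dotProduct_smul, smul_eq_mul]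

theorem comm (hB : Bᵀ = B) (x y : Fin N → F) : bf B x y = bf B y x := by
  rw [bf, bf, dotProduct_mulVec, ← mulVec_transpose, hB, dotProduct_comm]

theorem vv (a b x : Fin N → F) : vecMulVec a b *ᵥ B *ᵥ x = bf B b x • a := by
  rw [vecMulVec_mulVec, bf]
  ext i
  simp [mul_comm]

theorem ei_v (u v : Fin N → F) (q : F) (x : Fin N → F) :
    ei B u v q *ᵥ x = x + bf B u x • v - bf B v x • u - (q * bf B u x) • u := by
  rw [ei, add_mulVec, one_mulVec, ← mulVec_mulVec, sub_mulVec, sub_mulVec, smul_mulVec, vv, vv, vv,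
    smul_smul]
  abel

theorem dt_v (u₀ u₁ : Fin N → F) (t t' : F) (x : Fin N → F) :
    dt B u₀ u₁ t t' *ᵥ x = x + ((t - 1) * bf B u₁ x) • u₀ + ((t' - 1) * bf B u₀ x) • u₁ := by
  rw [dt, add_mulVec, one_mulVec, ← mulVec_mulVec, add_mulVec, smul_mulVec, smul_mulVec, vv, vv,
    smul_smul, smul_smul, add_assoc]

variable (B) in
/-- The reflection in `x`. -/
def rf (x : Fin N → F) : Matrix (Fin N) (Fin N) F := 1 + vecMulVec ((-2 / bf B x x) • x) x * B

theorem rf_v (x y : Fin N → F) : rf B x *ᵥ y = y - (2 * bf B x y / bf B x x) • x := by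
  rw [rf, add_mulVec, one_mulVec, ← mulVec_mulVec, vv, smul_smul, sub_eq_add_neg, ← neg_smul]
  congr 2
  ring

variable (B) in
/-- Isometries. -/
def Is (g : Matrix (Fin N) (Fin N) F) : Prop := ∀ x y, bf B (g *ᵥ x) (g *ᵥ y) = bf B x y

theorem Is.mul {g h : Matrix (Fin N) (Fin N) F} (a : Is B g) (b : Is B h) : Is B (g * h) :=
  fun x y => by rw [← mulVec_mulVec, ← mulVec_mulVec, a, b]

theorem is_of {g : Matrix (Fin N) (Fin N) F} (h : gᵀ * B * g = B) : Is B g := fun x y => by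
  rw [bf, bf, ← vecMul_transpose, ← dotProduct_mulVec, mulVec_mulVec, mulVec_mulVec, h]

theorem rf_is (hB : Bᵀ = B) {x : Fin N → F} (hx : bf B x x ≠ 0) : Is B (rf B x) := fun y z => by
  simp only [rf_v, sub_l, sub_r, smul_l, smul_r, comm hB y x]
  field_simp
  ring

theorem rf_rf {x : Fin N → F} (hx : bf B x x ≠ 0) : rf B x * rf B x = 1 :=
  ext_iff_mulVec.2 fun y => by
    rw [← mulVec_mulVec, one_mulVec, rf_v, rf_v, sub_r, smul_r, sub_sub, ← add_smul]
    convert sub_zero y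
    rw [smul_eq_zero]
    left
    field_simp
    ring

theorem rf_det {x : Fin N → F} (hx : bf B x x ≠ 0) : (rf B x).det = -1 := by
  rw [rf, vecMulVec_mul, vecMulVec_eq Unit, det_one_add_replicateCol_mul_replicateRow,
    dotProduct_smul, ← dotProduct_mulVec]
  change 1 + (-2 / bf B x x) * bf B x x = -1
  field_simp
  ring

theorem Is.rf {g : Matrix (Fin N) (Fin N) F} (a : Is B g) (x : Fin N → F) :
    g * rf B x = rf B (g *ᵥ x) * g :=
  ext_iff_mulVec.2 fun y => by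
    rw [← mulVec_mulVec, ← mulVec_mulVec, rf_v, rf_v, a, a, mulVec_sub, mulVec_smul]

theorem Is.ei {g : Matrix (Fin N) (Fin N) F} (a : Is B g) (u v : Fin N → F) (q : F) :
    g * ei B u v q = ei B (g *ᵥ u) (g *ᵥ v) q * g :=
  ext_iff_mulVec.2 fun y => by
    rw [← mulVec_mulVec, ← mulVec_mulVec, ei_v, ei_v, a, a]
    simp only [mulVec_sub, mulVec_add, mulVec_smul]

theorem Is.dt {g : Matrix (Fin N) (Fin N) F} (a : Is B g) (u v : Fin N → F) (t t' : F) :
    g * dt B u v t t' = dt B (g *ᵥ u) (g *ᵥ v) t t' * g :=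
  ext_iff_mulVec.2 fun y => by
    rw [← mulVec_mulVec, ← mulVec_mulVec, dt_v, dt_v, a, a]
    simp only [mulVec_add, mulVec_smul]

theorem dt_swap (u v : Fin N → F) {c c' : F} (h : c * c' = 1) (t t' : F) :
    dt B (c • v) (c' • u) t t' = dt B u v t' t :=
  ext_iff_mulVec.2 fun y => by
    rw [dt_v, dt_v, smul_l, smul_l, smul_smul, smul_smul, add_right_comm]
    congr 2
    · congr 1
      linear_combination (t' - 1) * bf B v y * h
    · linear_combination (t - 1) * bf B u y * h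

/-- A space on which the quadratic form vanishes is totally isotropic. -/
theorem pol (h2 : (2 : F) ≠ 0) (hB : Bᵀ = B) {x y : Fin N → F} (a : bf B x x = 0)
    (b : bf B y y = 0) (c : bf B (x + y) (x + y) = 0) : bf B x y = 0 := by
  rw [add_l, add_r, add_r, a, b, comm hB y x] at c
  exact (mul_eq_zero.1 (show 2 * bf B x y = 0 by linear_combination c)).resolve_left h2

theorem nd (hd : B.det ≠ 0) {y : Fin N → F} (h : ∀ x, bf B x y = 0) : y = 0 :=
  eq_zero_of_mulVec_eq_zero hd (funext fun i => by simpa [bf] using h (Pi.single i 1))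

/-- The orthogonal group is generated by reflections. -/
theorem cd (h2 : (2 : F) ≠ 0) (hB : Bᵀ = B) (hd : B.det ≠ 0) {P : Matrix (Fin N) (Fin N) F → Prop}
    (p1 : P 1) (pr : ∀ x g, bf B x x ≠ 0 → P g → P (rf B x * g)) (W : Submodule F (Fin N → F)) :
    (∀ z, ∃ w ∈ W, ∀ w' ∈ W, bf B w' (z - w) = 0) → ∀ g, Is B g → (∀ w ∈ W, g *ᵥ w = w) → P g := by
  induction W using WellFoundedGT.induction with
  | _ W ih =>
  intro hW g hg hf
  by_cases hx : ∃ x, (∀ w ∈ W, bf B w x = 0) ∧ bf B x x ≠ 0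
  · obtain ⟨x, xW, hx⟩ := hx
    have lt : W < W ⊔ Submodule.span F {x} :=
      lt_of_le_of_ne le_sup_left fun e =>
        hx (xW x (e ▸ Submodule.mem_sup_right (Submodule.mem_span_singleton_self x)))
    have mem : ∀ w ∈ W ⊔ Submodule.span F {x}, ∃ w₀ ∈ W, ∃ c : F, w = w₀ + c • x := fun w h => by
      obtain ⟨a, ha, b, hb, rfl⟩ := Submodule.mem_sup.1 h
      obtain ⟨c, rfl⟩ := Submodule.mem_span_singleton.1 hb
      exact ⟨a, ha, c, rfl⟩
    have key : ∀ g, Is B g → (∀ w ∈ W, g *ᵥ w = w) → g *ᵥ x = x → P g := fun g a b c => by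
      refine ih _ lt (fun z => ?_) g a fun w h => ?_
      · obtain ⟨w, h1, h3⟩ := hW z
        refine ⟨w + (bf B x z / bf B x x) • x, Submodule.add_mem_sup h1
          (Submodule.smul_mem _ _ (Submodule.mem_span_singleton_self x)), fun w' h => ?_⟩
        obtain ⟨w₀, h0, c, rfl⟩ := mem w' h
        have := h3 w₀ h0
        rw [sub_r] at this
        simp only [add_l, sub_r, add_r, smul_l, smul_r, xW w₀ h0, comm hB x w, xW w h1]
        field_simp
        linear_combination bf B x x * this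
      · obtain ⟨w₀, h0, e, rfl⟩ := mem w h
        rw [mulVec_add, mulVec_smul, b _ h0, c]
    have yW : ∀ w ∈ W, bf B w (g *ᵥ x) = 0 := fun w h => by rw [← hf w h, hg, xW w h]
    have un : ∀ y g, bf B y y ≠ 0 → P (rf B y * g) → P g := fun y g h a => by
      have := pr y _ h a
      rwa [← mul_assoc, rf_rf h, one_mul] at this
    have fx : ∀ y, (∀ w ∈ W, bf B w y = 0) → ∀ w ∈ W, rf B y *ᵥ w = w := fun y h w hw => by
      rw [rf_v, comm hB y w, h w hw]
      simp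
    have yy := hg x x
    generalize hy : g *ᵥ x = y at yy yW
    by_cases hm : bf B (y - x) (y - x) = 0
    · have e : bf B x y = bf B x x := by
        rw [sub_l, sub_r, sub_r, yy, comm hB y x] at hm
        exact mul_left_cancel₀ h2 (by linear_combination -hm)
      have e2 : bf B (y + x) (y + x) = 2 * 2 * bf B x x := by
        rw [add_l, add_r, add_r, yy, comm hB y x, e]
        ring
      have hp : bf B (y + x) (y + x) ≠ 0 := e2 ▸ mul_ne_zero (mul_ne_zero h2 h2) hx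
      refine un _ _ hp (un _ _ hx (key _ ((rf_is hB hx).mul ((rf_is hB hp).mul hg))
        (fun w h => ?_) ?_))
      · rw [← mulVec_mulVec, ← mulVec_mulVec, hf w h, fx _ _ w h, fx _ xW w h]
        intro w h
        rw [add_r, yW w h, xW w h, add_zero]
      · rw [← mulVec_mulVec, ← mulVec_mulVec, hy, rf_v (y + x), e2, add_l, yy, e,
          show 2 * (bf B x x + bf B x x) / (2 * 2 * bf B x x) = 1 by field_simp; ring, one_smul,
          sub_add_cancel_left, mulVec_neg, rf_v, mul_div_assoc, div_self hx]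
        module
    · refine un _ _ hm (key _ ((rf_is hB hm).mul hg) (fun w h => ?_) ?_)
      · rw [← mulVec_mulVec, hf w h, fx _ _ w h]
        intro w h
        rw [sub_r, yW w h, xW w h, sub_zero]
      · rw [← mulVec_mulVec, hy, rf_v, show 2 * bf B (y - x) y = bf B (y - x) (y - x) by
          simp only [sub_l, sub_r, yy, comm hB y x]; ring, div_self hm, one_smul, sub_sub_cancel]
  · push Not at hx
    convert p1
    refine ext_iff_mulVec.2 fun z => ?_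
    obtain ⟨w, h1, h3⟩ := hW z
    have : z - w = 0 := nd hd fun y => by
      obtain ⟨w', h4, h5⟩ := hW y
      rw [← sub_add_cancel y w', add_l, h3 w' h4, add_zero]
      refine pol h2 hB (hx _ h5) (hx _ h3) (hx _ fun w h => ?_)
      rw [add_r, h5 w h, h3 w h, add_zero]
    rw [one_mulVec, sub_eq_zero.1 this, hf w h1]

section grp

variable (B) (u₀ u₁ : Fin N → F)

/-- The transvections. -/
def ES : Set (Ort B) := {g | ∃ v q, Pe B u₀ u₁ v q ∧ (g.1.1 = ei B u₀ v q ∨ g.1.1 = ei B u₁ v q)}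

/-- The torus. -/
def DS : Set (Ort B) := {g | ∃ t t', t * t' = 1 ∧ g.1.1 = dt B u₀ u₁ t t'}

/-- The group generated by both. -/
def PG : Subgroup (Ort B) := Subgroup.closure (ES B u₀ u₁ ∪ DS B u₀ u₁)

/-- The group generated by both and by the swap of the pair. -/
def PP (m : Matrix (Fin N) (Fin N) F) : Prop :=
  ∃ g ∈ PG B u₀ u₁, m = g.1.1 ∨ m = g.1.1 * rf B (u₀ - u₁)

variable {B u₀ u₁} (hE : EichStmt) (h2 : (2 : F) ≠ 0) (hB : Bᵀ = B) (hy : Hy B u₀ u₁)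

theorem cm (g h : Ort B) : (g * h).1.1 = g.1.1 * h.1.1 := rfl

theorem oe {g h : Ort B} (e : g.1.1 = h.1.1) : g = h := Subtype.ext (Subtype.ext e)

include hB hy in
theorem h10 : bf B u₁ u₀ = 1 := by rw [comm hB, hy.2.2]

include hB hy in
theorem ww : bf B (u₀ - u₁) (u₀ - u₁) = -2 := by
  rw [sub_l, sub_r, sub_r, hy.1, hy.2.1, hy.2.2, h10 hB hy]
  ring

include h2 hB hy in
theorem wn : bf B (u₀ - u₁) (u₀ - u₁) ≠ 0 := by
  rw [ww hB hy]
  exact neg_ne_zero.2 h2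

include hE hB hy

theorem exE {v : Fin N → F} {q : F} (h : Pe B u₀ u₁ v q) :
    (∃ g ∈ ES B u₀ u₁, g.1.1 = ei B u₀ v q) ∧ ∃ g ∈ ES B u₀ u₁, g.1.1 = ei B u₁ v q :=
  have a := (hE N F B hB).1 u₀ v q hy.1 h.1 h.2.2
  have b := (hE N F B hB).1 u₁ v q hy.2.1 h.2.1 h.2.2
  ⟨⟨⟨⟨_, a.2.1⟩, a.1⟩, ⟨v, q, h, Or.inl rfl⟩, rfl⟩, ⟨⟨_, b.2.1⟩, b.1⟩, ⟨v, q, h, Or.inr rfl⟩, rfl⟩

theorem exD {t t' : F} (h : t * t' = 1) : ∃ g ∈ DS B u₀ u₁, g.1.1 = dt B u₀ u₁ t t' :=
  have a := (hE N F B hB).2 u₀ u₁ t t' hy h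
  ⟨⟨⟨_, a.2.1⟩, a.1⟩, ⟨t, t', h, rfl⟩, rfl⟩

theorem nrm {d : Ort B} (hd : d ∈ DS B u₀ u₁) {g : Ort B}
    (hg : g ∈ Subgroup.closure (ES B u₀ u₁)) : d * g * d⁻¹ ∈ Subgroup.closure (ES B u₀ u₁) := by
  obtain ⟨t, t', h, e⟩ := hd
  induction hg using Subgroup.closure_induction with
  | one => simp
  | mul a b _ _ ha hb => simpa [mul_assoc] using mul_mem ha hb
  | inv a _ ha => simpa [mul_assoc] using inv_mem ha
  | mem g hg =>
    obtain ⟨v, q, hv, hg⟩ := hg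
    have a := ((hE N F B hB).2 u₀ u₁ t t' hy h).2.2.2 v q hv
    have pe : ∀ s : F, Pe B u₀ u₁ (s • v) (s ^ 2 * q) := fun s =>
      ⟨by rw [smul_r, hv.1, mul_zero], by rw [smul_r, hv.2.1, mul_zero],
        by rw [smul_l, smul_r, hv.2.2]; ring⟩
    refine Subgroup.subset_closure ?_
    rcases hg with hg | hg
    · obtain ⟨g', m, e'⟩ := (exE hE hB hy (pe t)).1
      rwa [show d * g = g' * d from oe (by rw [cm, cm, e, hg, e', a.1]), mul_inv_cancel_right]
    · obtain ⟨g', m, e'⟩ := (exE hE hB hy (pe t')).2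
      rwa [show d * g = g' * d from oe (by rw [cm, cm, e, hg, e', a.2]), mul_inv_cancel_right]

theorem d_mul {d e : Ort B} (hd : d ∈ DS B u₀ u₁) (he : e ∈ DS B u₀ u₁) : d * e ∈ DS B u₀ u₁ := by
  obtain ⟨t, t', h, a⟩ := hd
  obtain ⟨s, s', k, b⟩ := he
  exact ⟨t * s, t' * s', by linear_combination s * s' * h + k,
    by rw [cm, a, b, ((hE N F B hB).2 u₀ u₁ t t' hy h).2.2.1]⟩

omit hE hB hy in
theorem d_one : 1 ∈ DS B u₀ u₁ := ⟨1, 1, mul_one 1, by simp [dt]⟩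

theorem d_inv {d : Ort B} (hd : d ∈ DS B u₀ u₁) : d⁻¹ ∈ DS B u₀ u₁ := by
  obtain ⟨t, t', h, a⟩ := hd
  obtain ⟨e, he, b⟩ := exD hE hB hy (t := t') (t' := t) (by rw [mul_comm, h])
  rwa [inv_eq_of_mul_eq_one_right (a := d) (b := e) (oe ?_)]
  rw [cm, a, b, ((hE N F B hB).2 u₀ u₁ t t' hy h).2.2.1, h, mul_comm t', h]
  simp [dt]

theorem dec {g : Ort B} (hg : g ∈ PG B u₀ u₁) :
    ∃ d ∈ DS B u₀ u₁, d⁻¹ * g ∈ Subgroup.closure (ES B u₀ u₁) := by
  induction hg using Subgroup.closure_induction with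
  | one => exact ⟨1, d_one, by simp⟩
  | mul a b _ _ ha hb =>
    obtain ⟨d, m, ha⟩ := ha
    obtain ⟨e, k, hb⟩ := hb
    exact ⟨d * e, d_mul hE hB hy m k, by
      simpa [mul_assoc] using mul_mem (nrm hE hB hy (d_inv hE hB hy k) ha) hb⟩
  | inv a _ ha =>
    obtain ⟨d, m, ha⟩ := ha
    exact ⟨d⁻¹, d_inv hE hB hy m, by simpa [mul_assoc] using nrm hE hB hy m (inv_mem ha)⟩
  | mem g hg =>
    rcases hg with hg | hg
    · exact ⟨1, d_one, by simpa using Subgroup.subset_closure hg⟩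
    · exact ⟨g, hg, by simp⟩

include h2

omit hE in
theorem sw : rf B (u₀ - u₁) *ᵥ u₀ = u₁ ∧ rf B (u₀ - u₁) *ᵥ u₁ = u₀ ∧
    ∀ v q, Pe B u₀ u₁ v q → rf B (u₀ - u₁) *ᵥ v = v := by
  refine ⟨?_, ?_, fun v q h => ?_⟩
  · rw [rf_v, ww hB hy, sub_l, hy.1, h10 hB hy, show (2 : F) * (0 - 1) / -2 = 1 by field_simp; ring]
    module
  · rw [rf_v, ww hB hy, sub_l, hy.2.1, hy.2.2, show (2 : F) * (1 - 0) / -2 = -1 by field_simp; ring]
    module
  · simp [rf_v, sub_l, h.1, h.2.1]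

theorem scj {g : Ort B} (hg : g ∈ PG B u₀ u₁) :
    ∃ g' ∈ PG B u₀ u₁, rf B (u₀ - u₁) * g.1.1 = g'.1.1 * rf B (u₀ - u₁) := by
  have s := sw h2 hB hy
  have i := rf_is hB (wn h2 hB hy)
  induction hg using Subgroup.closure_induction with
  | one => exact ⟨1, one_mem _, by simp⟩
  | mul a b _ _ ha hb =>
    obtain ⟨d, m, ha⟩ := ha
    obtain ⟨e, k, hb⟩ := hb
    exact ⟨d * e, mul_mem m k, by rw [cm, cm, ← mul_assoc, ha, mul_assoc, hb, mul_assoc]⟩
  | inv a _ ha =>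
    obtain ⟨d, m, ha⟩ := ha
    refine ⟨d⁻¹, inv_mem m, ?_⟩
    have e1 : d⁻¹.1.1 * d.1.1 = 1 := congrArg (·.1.1) (inv_mul_cancel d)
    have e2 : a.1.1 * a⁻¹.1.1 = 1 := congrArg (·.1.1) (mul_inv_cancel a)
    rw [← one_mul (rf B _ * _), ← e1, mul_assoc, ← mul_assoc d.1.1, ← ha, mul_assoc, e2, mul_one]
  | mem g hg =>
    rcases hg with ⟨v, q, hv, hg | hg⟩ | ⟨t, t', h, hg⟩
    · obtain ⟨g', m, e⟩ := (exE hE hB hy hv).2
      exact ⟨g', Subgroup.subset_closure (Or.inl m), by rw [hg, e, i.ei, s.1, s.2.2 v q hv]⟩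
    · obtain ⟨g', m, e⟩ := (exE hE hB hy hv).1
      exact ⟨g', Subgroup.subset_closure (Or.inl m), by rw [hg, e, i.ei, s.2.1, s.2.2 v q hv]⟩
    · obtain ⟨g', m, e⟩ := exD hE hB hy (t := t') (t' := t) (by rw [mul_comm, h])
      refine ⟨g', Subgroup.subset_closure (Or.inr m), ?_⟩
      rw [hg, e, i.dt, s.1, s.2.1, ← dt_swap u₀ u₁ (mul_one 1), one_smul, one_smul]

theorem PP.mul {a b : Matrix (Fin N) (Fin N) F} (ha : PP B u₀ u₁ a) (hb : PP B u₀ u₁ b) :
    PP B u₀ u₁ (a * b) := by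
  obtain ⟨g, m, ha⟩ := ha
  obtain ⟨h, k, hb⟩ := hb
  obtain ⟨h', k', e⟩ := scj hE h2 hB hy k
  rcases ha with rfl | rfl <;> rcases hb with rfl | rfl
  · exact ⟨g * h, mul_mem m k, Or.inl rfl⟩
  · exact ⟨g * h, mul_mem m k, Or.inr (by rw [cm, mul_assoc])⟩
  · exact ⟨g * h', mul_mem m k', Or.inr (by rw [cm, mul_assoc, e, mul_assoc])⟩
  · refine ⟨g * h', mul_mem m k', Or.inl ?_⟩
    rw [cm, mul_assoc, ← mul_assoc (rf B _), e, mul_assoc, rf_rf (wn h2 hB hy), mul_one]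

theorem tr {g : Ort B} (hg : g ∈ PG B u₀ u₁) {x : Fin N → F}
    (h : PP B u₀ u₁ (rf B (g.1.1 *ᵥ x))) : PP B u₀ u₁ (rf B x) := by
  have e : g⁻¹.1.1 * g.1.1 = 1 := congrArg (·.1.1) (inv_mul_cancel g)
  rw [← one_mul (rf B x), ← e, mul_assoc, (is_of g.2).rf]
  exact PP.mul hE h2 hB hy ⟨_, inv_mem hg, Or.inl rfl⟩ (h.mul hE h2 hB hy ⟨_, hg, Or.inl rfl⟩)

theorem pl {a b : F} (ha : a ≠ 0) (hb : b ≠ 0) : PP B u₀ u₁ (rf B (a • u₀ + b • u₁)) := by
  obtain ⟨d, m, e⟩ := exD hE hB hy (t := -a / b) (t' := -b / a) (by field_simp)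
  refine ⟨d, Subgroup.subset_closure (Or.inr m), Or.inr (ext_iff_mulVec.2 fun y => ?_)⟩
  have n : bf B (a • u₀ + b • u₁) (a • u₀ + b • u₁) = 2 * a * b := by
    simp only [add_l, add_r, smul_l, smul_r, hy.1, hy.2.1, hy.2.2, h10 hB hy]
    ring
  rw [e, ← mulVec_mulVec, dt_v, rf_v, rf_v, ww hB hy, n]
  simp only [add_l, sub_l, sub_r, smul_l, smul_r, hy.1, hy.2.1, hy.2.2, h10 hB hy]
  match_scalars <;> field_simp <;> ring

omit hE h2 in
theorem pe (h2 : (2 : F) ≠ 0) (x : Fin N → F) (c : F) :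
    Pe B u₀ u₁ (c • (x - bf B u₁ x • u₀ - bf B u₀ x • u₁))
      (c ^ 2 * (bf B x x / 2 - bf B u₀ x * bf B u₁ x)) := by
  refine ⟨?_, ?_, ?_⟩ <;>
    simp only [sub_l, sub_r, smul_l, smul_r, hy.1, hy.2.1, hy.2.2, h10 hB hy, comm hB x u₀,
      comm hB x u₁]
  · ring
  · ring
  · field_simp
    ring

theorem r1 {x : Fin N → F} (hx : bf B x x ≠ 0) (hb : bf B u₀ x ≠ 0) : PP B u₀ u₁ (rf B x) := by
  obtain ⟨g, m, e⟩ := (exE hE hB hy (pe hB hy h2 x (-(bf B u₀ x)⁻¹))).1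
  refine tr hE h2 hB hy (Subgroup.subset_closure (Or.inl m)) ?_
  convert pl hE h2 hB hy (a := bf B x x / (2 * bf B u₀ x)) (div_ne_zero hx (mul_ne_zero h2 hb)) hb
  rw [e, ei_v]
  simp only [sub_l, smul_l]
  match_scalars <;> field_simp <;> ring

theorem r2 {x : Fin N → F} (hx : bf B x x ≠ 0) (hb : bf B u₁ x ≠ 0) : PP B u₀ u₁ (rf B x) := by
  have i := rf_is hB (wn h2 hB hy)
  have s : PP B u₀ u₁ (rf B (u₀ - u₁)) := ⟨1, one_mem _, Or.inr (by simp)⟩
  rw [← one_mul (rf B x), ← rf_rf (wn h2 hB hy), mul_assoc, i.rf]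
  refine s.mul hE h2 hB hy (PP.mul hE h2 hB hy (r1 hE h2 hB hy (by rwa [i]) ?_) s)
  rwa [← i, (sw h2 hB hy).2.1] at hb

theorem r3 {x : Fin N → F} (hx : bf B x x ≠ 0) : PP B u₀ u₁ (rf B x) := by
  by_cases h0 : bf B u₀ x = 0
  · by_cases h1 : bf B u₁ x = 0
    · obtain ⟨g, m, e⟩ := (exE hE hB hy (v := x) (q := bf B x x / 2) ⟨h0, h1, by field_simp⟩).1
      refine tr hE h2 hB hy (Subgroup.subset_closure (Or.inl m))
        (r2 hE h2 hB hy (by rwa [is_of g.2]) ?_)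
      rw [e, ei_v]
      simpa [sub_r, add_r, smul_r, h0, h1, h10 hB hy] using hx
    · exact r2 hE h2 hB hy hx h1
  · exact r1 hE h2 hB hy hx h0

theorem top (hd : B.det ≠ 0) (g : Ort B) : g ∈ PG B u₀ u₁ := by
  obtain ⟨h, m, e | e⟩ : PP B u₀ u₁ g.1.1 :=
    cd h2 hB hd ⟨1, one_mem _, Or.inl rfl⟩ (fun x g hx h => (r3 hE h2 hB hy hx).mul hE h2 hB hy h) ⊥
      (fun z => ⟨0, zero_mem _, fun w h => by simp [(Submodule.mem_bot F).1 h, bf]⟩) _ (is_of g.2)
      fun w h => by simp [(Submodule.mem_bot F).1 h]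
  · exact oe e ▸ m
  · have := congrArg det e
    rw [det_mul, g.1.2, h.1.2, rf_det (wn h2 hB hy)] at this
    exact absurd (by linear_combination this) h2

omit hE in
theorem ani (hd : B.det ≠ 0) (hN : 3 ≤ N) : ∃ v q, Pe B u₀ u₁ v q ∧ q ≠ 0 := by
  by_contra h
  push Not at h
  have z : ∀ x, x - bf B u₁ x • u₀ - bf B u₀ x • u₁ = 0 := fun x => nd hd fun y => by
    have a := pe hB hy h2 x 1
    have b := pe hB hy h2 y 1
    have c := pe hB hy h2 (y + x) 1
    rw [h _ _ a, one_smul] at a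
    rw [h _ _ b, one_smul] at b
    rw [h _ _ c, one_smul] at c
    have := pol h2 hB (b.2.2.trans (mul_zero 2)) (a.2.2.trans (mul_zero 2)) (by
      convert c.2.2.trans (mul_zero 2) using 2 <;> rw [add_r, add_r] <;> module)
    rwa [sub_l, sub_l, smul_l, smul_l, a.1, a.2.1, mul_zero, mul_zero, sub_zero, sub_zero] at this
  have : Module.finrank F (Fin N → F) ≤ Fintype.card (Fin 2) :=
    finrank_le_of_span_eq_top (v := ![u₀, u₁]) (top_unique fun x _ => by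
      rw [sub_eq_zero.1 ((sub_sub x _ _).symm.trans (z x))]
      exact add_mem (Submodule.smul_mem _ _ (Submodule.subset_span ⟨0, rfl⟩))
        (Submodule.smul_mem _ _ (Submodule.subset_span ⟨1, rfl⟩)))
  simp at this
  omega

theorem sq (hd : B.det ≠ 0) (hN : 3 ≤ N) (d : Ort B) (s s' : F) (hs : s * s' = 1)
    (e : d.1.1 = dt B u₀ u₁ (s ^ 2) (s' ^ 2)) : d ∈ Subgroup.closure (ES B u₀ u₁) := by
  obtain ⟨v, q, hv, hq⟩ := ani h2 hB hy hd hN
  obtain ⟨a, ma, ea⟩ := (exE hE hB hy hv).1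
  obtain ⟨b, mb, eb⟩ := (exE hE hB hy (v := q⁻¹ • v) (q := q⁻¹) ⟨by rw [smul_r, hv.1, mul_zero],
    by rw [smul_r, hv.2.1, mul_zero], by rw [smul_l, smul_r, hv.2.2]; field_simp⟩).2
  obtain ⟨c, mc, ec⟩ := exD hE hB hy hs
  obtain ⟨c', -, ec'⟩ := exD hE hB hy (t := s') (t' := s) (by rw [mul_comm, hs])
  have w : a * b * a ∈ Subgroup.closure (ES B u₀ u₁) := mul_mem (mul_mem
    (Subgroup.subset_closure ma) (Subgroup.subset_closure mb)) (Subgroup.subset_closure ma)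
  have w0 : (a * b * a).1.1 *ᵥ u₀ = (-q⁻¹) • u₁ ∧ (a * b * a).1.1 *ᵥ u₁ = (-q) • u₀ := by
    constructor <;> rw [cm, cm, ← mulVec_mulVec, ← mulVec_mulVec, ea, eb] <;>
      simp only [ei_v, add_r, sub_r, smul_l, smul_r, hy.1, hy.2.1, hy.2.2, h10 hB hy, hv.1, hv.2.1,
        hv.2.2, comm hB v u₀, comm hB v u₁] <;> match_scalars <;> field_simp <;> ring
  generalize a * b * a = w' at w w0
  have k : w' * c' = c * w' := oe (by
    rw [cm, cm, ec', ec, (is_of w'.2).dt, w0.1, w0.2, dt_swap u₀ u₁ (by field_simp)])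
  have k2 : c * c' = 1 := oe (by
    rw [cm, ec, ec', ((hE N F B hB).2 u₀ u₁ s s' hy hs).2.2.1, hs, mul_comm s', hs]
    simp [dt])
  have k3 : d = c * c := oe (by
    rw [cm, ec, e, ((hE N F B hB).2 u₀ u₁ s s' hy hs).2.2.1, _root_.sq, _root_.sq])
  have := mul_mem (nrm hE hB hy mc w) (inv_mem w)
  rwa [inv_eq_of_mul_eq_one_right k2, mul_assoc c, k, ← mul_assoc c, mul_inv_cancel_right,
    ← k3] at this

end grp

end Gen

open Gen in
theorem gen (hE : EichStmt) : GenStmt := by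
  intro N F _ B u₀ u₁ S h2 hB hd hy hS
  have le : Subgroup.closure (ES B u₀ u₁) ≤ S :=
    (Subgroup.closure_le S).2 fun g ⟨v, q, h, e⟩ => hS g v q h e
  refine ⟨fun g => ?_, fun hN d s s' hs e => le (Gen.sq hE h2 hB hy hd hN d s s' hs e)⟩
  obtain ⟨d, ⟨t, t', h, e⟩, m⟩ := dec hE hB hy (top hE h2 hB hy hd g)
  exact ⟨d, t, t', h, e, le m⟩

end Pool.Agent.Lib.MP_9177b7_ag.SO
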