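import Pool.Agent.Lib.MP_9177b7_ag.B.Den
import Pool.Agent.Lib.MP_9177b7_ag.B.Lv
import Pool.Agent.Lib.MP_9177b7_ag.SO.StI

/-!
Densities of divisibility conditions on slices of the lattice `𝔡⁻¹ 𝔇⁻¹`.
-/

open NumberField Finset Pool.Agent.Shared.PrimeZeta
open scoped nonZeroDivisors

noncomputable section

namespace Pool.Agent.Lib.MP_9177b7_ag.SO.Loc

open B B.Den B.Lv FractionalIdeal

variable {F : Type} [Field F] [NumberField F] {d q : ℕ}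

theorem pow_dvd_sup (hq : q.Prime) (j : ℕ) {I : Ideal (𝓞 F)} (h : q ^ j ∣ Ideal.absNorm I) :
    q ^ j ∣ Ideal.absNorm (I ⊔ Ideal.span {((q ^ j : ℕ) : 𝓞 F)}) := by
  obtain ⟨I', hI⟩ : ∃ I', I' = I ⊔ Ideal.span {((q ^ j : ℕ) : 𝓞 F)} := ⟨_, rfl⟩
  obtain ⟨K, hK⟩ : I' ∣ I := Ideal.dvd_iff_le.2 (le_sup_left.trans hI.ge)
  have hr : Ideal.span {((q ^ j : ℕ) : 𝓞 F)} ≤ I' := le_sup_right.trans hI.ge
  obtain ⟨K', hK'⟩ := Ideal.dvd_iff_le.2 hr
  rw [← hI]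
  by_cases a : q ∣ Ideal.absNorm K
  swap
  · rw [hK, map_mul] at h
    exact (Nat.Coprime.pow_left j ((Nat.Prime.coprime_iff_not_dvd hq).2 a)).dvd_of_dvd_mul_right h
  obtain ⟨P, hP, h1, h2⟩ := Ideal.exists_isMaximal_dvd_of_dvd_absNorm' hq K a
  have hqP : (q : 𝓞 F) ∈ P := by
    have : (q : ℤ) ∈ P.under ℤ := h1 ▸ Ideal.mem_span_singleton_self _
    simpa using this
  have h0 : I' ≠ ⊥ := fun e => pow_ne_zero j hq.ne_zero (by
    have := Ideal.span_singleton_eq_bot.1 (le_bot_iff.1 (hr.trans e.le))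
    exact_mod_cast this)
  have hp : Prime P := Ideal.prime_of_isPrime (fun e => hq.ne_zero (by simpa [e] using hqP))
    hP.isPrime
  have h3 : ¬ P ∣ K' := fun h3 => hp.not_isUnit (isUnit_of_dvd_one
    ((mul_dvd_mul_iff_left h0).1 (by
    rw [mul_one, Ideal.dvd_iff_le]
    exact hI.le.trans (sup_le (Ideal.dvd_iff_le.1 ((mul_dvd_mul_left I' h2).trans hK.symm.dvd))
      (Ideal.dvd_iff_le.1 ((mul_dvd_mul_left I' h3).trans hK'.symm.dvd))))))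
  have h4 : P ^ j ∣ I' := hp.pow_dvd_of_dvd_mul_right j h3 (by
    rw [← hK', Ideal.dvd_iff_le, Ideal.span_singleton_le_iff_mem, Nat.cast_pow]
    exact Ideal.pow_mem_pow hqP j)
  refine (pow_dvd_pow_of_dvd ?_ j).trans (map_pow Ideal.absNorm P j ▸ map_dvd Ideal.absNorm h4)
  have h5 := Ideal.absNorm_dvd_absNorm_of_le ((Ideal.span_singleton_le_iff_mem P).2 hqP)
  rw [Ideal.absNorm_span_natCast] at h5
  obtain ⟨s, -, e⟩ := (Nat.dvd_prime_pow hq).1 h5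
  rw [e]
  refine dvd_pow_self q ?_
  rintro rfl
  exact hP.ne_top (Ideal.absNorm_eq_one_iff.1 e)

theorem norm_sup (hq : q.Prime) {I : Ideal (𝓞 F)} (hs : Squarefree (Ideal.absNorm I))
    (h : q ∣ Ideal.absNorm I) : Ideal.absNorm (I ⊔ Ideal.span {(q : 𝓞 F)}) = q := by
  have h1 := pow_dvd_sup hq 1 (I := I) (by rwa [pow_one])
  rw [pow_one] at h1
  have h2 := Ideal.absNorm_dvd_absNorm_of_le (le_sup_right : _ ≤ I ⊔ Ideal.span {(q : 𝓞 F)})
  rw [Ideal.absNorm_span_natCast] at h2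
  obtain ⟨s, -, e⟩ := (Nat.dvd_prime_pow hq).1 h2
  exact Nat.dvd_antisymm (((hs.squarefree_of_dvd (Ideal.absNorm_dvd_absNorm_of_le
    le_sup_left)).dvd_pow_iff_dvd (Module.finrank_pos (R := ℤ) (M := 𝓞 F)).ne').1 h2) h1

theorem index_comap {G : Type} [AddCommGroup G] (T : G →+ F) {M : FractionalIdeal (𝓞 F)⁰ F}
    (hM : M ≠ 0) (hr : T.range = M.coeToSubmodule.toAddSubgroup) (E : Ideal (𝓞 F)) (hE : E ≠ ⊥) :
    (((E : FractionalIdeal (𝓞 F)⁰ F) * M).coeToSubmodule.toAddSubgroup.comap T).index =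
      Ideal.absNorm E := by
  rw [AddSubgroup.index_comap, hr]
  have h1 : Ideal.absNorm E = (IsLocalization.coeSubmodule F E).toAddSubgroup.relIndex
      (AddSubgroup.map (algebraMap (𝓞 F) F).toAddMonoidHom ⊤) := by
    refine E.toAddSubgroup.relIndex_top_right.symm.trans ?_
    conv_lhs => rw [← Submodule.comap_map_eq_of_injective (f := Algebra.linearMap (𝓞 F) F)
      (FaithfulSMul.algebraMap_injective (𝓞 F) F) E]
    exact AddSubgroup.relIndex_comap (IsLocalization.coeSubmodule F E).toAddSubgroup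
      (algebraMap (𝓞 F) F).toAddMonoidHom ⊤
  have h2 : AddSubgroup.map (algebraMap (𝓞 F) F).toAddMonoidHom ⊤ =
      (1 : FractionalIdeal (𝓞 F)⁰ F).coeToSubmodule.toAddSubgroup := by
    ext x
    exact Iff.trans (by simp) (FractionalIdeal.mem_one_iff (𝓞 F)⁰).symm
  rw [h1, h2]
  symm
  have := FractionalIdeal.quotientEquiv (R := 𝓞 F) (K := F) 1 E M (E * M)
    (by rw [one_mul, mul_comm]) FractionalIdeal.coeIdeal_le_one
    (by simpa using mul_le_mul_left (FractionalIdeal.coeIdeal_le_one (I := E)) M)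
    (mul_ne_zero (FractionalIdeal.coeIdeal_ne_zero.2 hE) hM) one_ne_zero
  exact Nat.card_congr this.toEquiv

/-- Coordinates on the lattice `𝔡⁻¹ 𝔇⁻¹`. -/
structure Lt (F : Type) [Field F] [NumberField F] (d : ℕ) where
  D : ℕ
  dd : Ideal (𝓞 F)
  T : (Fin (d + 1) → ℤ) →+ F
  J : (Fin (d + 1) → ℤ) → Ideal (𝓞 F)
  d2 : 2 ≤ d
  sqf : Squarefree D
  nrm : Ideal.absNorm dd = D
  rk : Module.finrank ℤ (𝓞 F) = d + 1
  coe : ∀ v, (J v : FractionalIdeal (𝓞 F)⁰ F) = spanSingleton _ (T v) *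
    ((dd * differentIdeal ℤ (𝓞 F) : Ideal (𝓞 F)) : FractionalIdeal (𝓞 F)⁰ F)
  sur : ∀ η : F, (∀ y ∈ dd, ∃ z : ℤ, Algebra.trace ℚ F (η * y) = z) → ∃ v, η = T v
  tr : ∀ v, Algebra.trace ℚ F (T v) = (v 0 / D : ℚ)
  low : ∀ v (q : ℕ), q ∣ D → (J v ≤ dd ⊔ Ideal.span {(q : 𝓞 F)} ↔ (q : ℤ) ∣ v 0)

namespace Lt

variable (L : Lt F d)

/-- The lattice. -/
def M : FractionalIdeal (𝓞 F)⁰ F := (L.dd : FractionalIdeal (𝓞 F)⁰ F)⁻¹ * Du F

theorem dd_ne : (L.dd : FractionalIdeal (𝓞 F)⁰ F) ≠ 0 := coeIdeal_ne_zero.2 fun h =>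
  L.sqf.ne_zero (by rw [← L.nrm, h, Ideal.absNorm_bot])

theorem M_ne : L.M ≠ 0 := mul_ne_zero (inv_ne_zero L.dd_ne) Du_ne

theorem coe' (v) : (L.J v : FractionalIdeal (𝓞 F)⁰ F) = spanSingleton _ (L.T v) * L.M⁻¹ := by
  rw [L.coe, coeIdeal_mul, coeIdeal_differentIdeal ℤ ℚ F (𝓞 F), M, mul_inv, inv_inv]

theorem J_le (v) (E : Ideal (𝓞 F)) :
    L.J v ≤ E ↔ L.T v ∈ (E : FractionalIdeal (𝓞 F)⁰ F) * L.M := by
  rw [← coeIdeal_le_coeIdeal F, L.coe', ← spanSingleton_le_iff_mem]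
  constructor
  · intro h1
    have := mul_le_mul_left h1 L.M
    rwa [mul_assoc, inv_mul_cancel₀ L.M_ne, mul_one] at this
  · intro h1
    have := mul_le_mul_left h1 L.M⁻¹
    rwa [mul_assoc, mul_inv_cancel₀ L.M_ne, mul_one] at this

theorem T_mem (v) : L.T v ∈ L.M := by simpa using (L.J_le v ⊤).1 le_top

theorem ex {η : F} (h : η ∈ L.M) : ∃ v, η = L.T v := L.sur η fun y hy => by
  have := mul_mem_mul ((mem_coeIdeal (𝓞 F)⁰ (P := F)).2 ⟨y, hy, rfl⟩) h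
  rw [M, mul_inv_cancel_left₀ L.dd_ne] at this
  simpa [mul_comm] using mem_Du.1 this 1

/-- The coordinates of `E 𝔡⁻¹ 𝔇⁻¹`. -/
def Lam (E : Ideal (𝓞 F)) : AddSubgroup (Fin (d + 1) → ℤ) :=
  ((E : FractionalIdeal (𝓞 F)⁰ F) * L.M).coeToSubmodule.toAddSubgroup.comap L.T

theorem mem_Lam (E : Ideal (𝓞 F)) (v) : v ∈ L.Lam E ↔ L.J v ≤ E := (L.J_le v E).symm

theorem smul_mem {E : Ideal (𝓞 F)} {M : ℕ} (hM : (M : 𝓞 F) ∈ E) (s : Fin (d + 1) → ℤ) :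
    (M : ℤ) • s ∈ L.Lam E := by
  change L.T _ ∈ (E : FractionalIdeal (𝓞 F)⁰ F) * L.M
  rw [map_zsmul, zsmul_eq_mul]
  exact mul_mem_mul ((mem_coeIdeal _).2 ⟨M, hM, by simp⟩) (L.T_mem s)

theorem perJ {E : Ideal (𝓞 F)} {M : ℕ} (hM : (M : 𝓞 F) ∈ E) {N N' : ℤ} {k k' : Fin d → ℤ}
    (h1 : (M : ℤ) ∣ N - N') (h2 : CgN M k k') (h : L.J (Fin.cons N k) ≤ E) :
    L.J (Fin.cons N' k') ≤ E := by
  rw [← L.mem_Lam] at h ⊢
  have : ∀ i, (M : ℤ) ∣ (Fin.cons N k : Fin (d + 1) → ℤ) i - (Fin.cons N' k' : Fin (d + 1) → ℤ) i :=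
    fun i => Fin.cases h1 (fun j => h2 j) i
  choose s hs using this
  have : (Fin.cons N' k' : Fin (d + 1) → ℤ) = Fin.cons N k - (M : ℤ) • s := by
    funext i
    have := hs i
    simp only [Pi.sub_apply, Pi.smul_apply, smul_eq_mul]
    linarith
  rw [this]
  exact sub_mem h (L.smul_mem hM s)

theorem per (hq : q.Prime) (j : ℕ) {N N' : ℤ} {k k' : Fin d → ℤ} (h1 : (q : ℤ) ^ j ∣ N - N')
    (h2 : CgN (q ^ j) k k') (h : q ^ j ∣ Ideal.absNorm (L.J (Fin.cons N k))) :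
    q ^ j ∣ Ideal.absNorm (L.J (Fin.cons N' k')) :=
  (pow_dvd_sup hq j h).trans (Ideal.absNorm_dvd_absNorm_of_le (L.perJ
    (Ideal.mem_sup_right (Ideal.mem_span_singleton_self _)) (by exact_mod_cast h1) h2 le_sup_left))

theorem rel {E : Ideal (𝓞 F)} {e : ℕ} (he : 0 < e) (h : ∀ v ∈ L.Lam E, (e : ℤ) ∣ v 0) :
    Ideal.span {(L.D : 𝓞 F)} * E ≤ Ideal.span {(e : 𝓞 F)} * L.dd := by
  have e0 : (e : F) ≠ 0 := by exact_mod_cast he.ne'
  have D0 : (L.D : ℚ) ≠ 0 := by exact_mod_cast L.sqf.ne_zero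
  have h1 : spanSingleton _ (L.D / e : F) * ((E : FractionalIdeal (𝓞 F)⁰ F) * L.M) ≤ Du F := by
    rw [← coe_le_coe, FractionalIdeal.coe_mul, coe_spanSingleton, Submodule.span_singleton_mul]
    rintro _ ⟨x, hx, rfl⟩
    refine mem_Du.2 fun y => ?_
    have h2 : (y : F) * x ∈ (E : FractionalIdeal (𝓞 F)⁰ F) * L.M := Submodule.smul_mem _ y hx
    obtain ⟨v, hv⟩ := L.ex (by
      simpa using mul_le_mul_left (coeIdeal_le_one (P := F) (I := E)) L.M h2)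
    obtain ⟨z, hz⟩ := h v (by
      change L.T v ∈ (E : FractionalIdeal (𝓞 F)⁰ F) * L.M
      rwa [← hv])
    refine ⟨z, ?_⟩
    have : (DistribSMul.toLinearMap (𝓞 F) F (L.D / e : F)) x * y = (L.D / e : ℚ) • L.T v := by
      rw [← hv, Algebra.smul_def]
      simp
      ring
    rw [this, map_smul, L.tr, hz]
    have : (e : ℚ) ≠ 0 := by exact_mod_cast he.ne'
    simp
    field_simp
  have h2 := mul_le_mul_right (mul_le_mul_left h1 L.M⁻¹) (spanSingleton (𝓞 F)⁰ (e : F))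
  rw [mul_assoc, mul_inv_cancel_right₀ L.M_ne, ← mul_assoc, spanSingleton_mul_spanSingleton,
    mul_div_cancel₀ _ e0, M, mul_inv, inv_inv, mul_comm _ (Du F)⁻¹,
    mul_inv_cancel_left₀ Du_ne] at h2
  rw [← coeIdeal_le_coeIdeal F, coeIdeal_mul, coeIdeal_mul, coeIdeal_span_singleton,
    coeIdeal_span_singleton]
  simpa using h2

open Classical in
/-- The indicator function of divisibility by `E`. -/
def ind (N : ℤ) (E : Ideal (𝓞 F)) (k : Fin d → ℤ) : ℝ := if L.J (Fin.cons N k) ≤ E then 1 else 0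

theorem ind_nonneg (N : ℤ) (E : Ideal (𝓞 F)) (k : Fin d → ℤ) : 0 ≤ L.ind N E k := by
  unfold ind
  split_ifs
  exacts [zero_le_one, le_rfl]

theorem den_ind (hq : q.Prime) (N : ℤ) {E : Ideal (𝓞 F)} {i a : ℕ} (hE : Ideal.absNorm E = q ^ i)
    (h : ((q ^ a : ℕ) : 𝓞 F) ∈ E) : ∃ s,
      Ideal.span {(L.D : 𝓞 F)} * E ≤ Ideal.span {((q ^ s : ℕ) : 𝓞 F)} * L.dd ∧
      (s = 0 → denN (q ^ a) (L.ind N E) = 1 / q ^ i) ∧
      ∃ r, 3 * r ≤ i + 2 * shf L.D q N ∧ denN (q ^ a) (L.ind N E) ≤ q ^ r / q ^ i := by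
  classical
  have hi : (L.Lam E).index = q ^ i := hE ▸ index_comap L.T L.M_ne (by
    ext x
    exact ⟨by rintro ⟨v, rfl⟩; exact L.T_mem v, fun hx => (L.ex hx).imp fun _ => Eq.symm⟩) E (by
    rintro rfl
    rw [Ideal.absNorm_bot] at hE
    exact pow_ne_zero i hq.ne_zero hE.symm)
  obtain ⟨e, he, h1, h2⟩ := slice (pow_pos hq.pos a) (L.Lam E) (L.smul_mem h)
    (hi ▸ pow_ne_zero i hq.ne_zero)
  have h3 : L.ind N E = fun t => if Fin.cons N t ∈ L.Lam E then 1 else 0 :=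
    funext fun t => if_congr (L.mem_Lam _ _).symm rfl rfl
  have h4 := h1 _ (L.smul_mem h (Pi.single 0 1))
  simp only [Pi.smul_apply, Pi.single_eq_same, smul_eq_mul, mul_one, Int.natCast_dvd_natCast] at h4
  obtain ⟨s, -, rfl⟩ := (Nat.dvd_prime_pow hq).1 h4
  have h5 := L.rel he h1
  have h6 := h2 N
  rw [hi, ← h3] at h6
  push_cast at h6
  refine ⟨s, h5, fun e => h6.2 (by rw [e, pow_zero]), ?_⟩
  by_cases a : ((q ^ s : ℕ) : ℤ) ∣ N
  swap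
  · refine ⟨0, Nat.zero_le _, le_trans (le_of_eq ?_) (by positivity : (0 : ℝ) ≤ _)⟩
    simp only [h3, denN, sum_congr rfl fun t _ => if_neg fun e => a (h1 (Fin.cons N t) e)]
    simp
  refine ⟨s, ?_, h6.1⟩
  have h7 := Ideal.absNorm_dvd_absNorm_of_le h5
  rw [map_mul, map_mul, Ideal.absNorm_span_natCast, Ideal.absNorm_span_natCast, L.rk, L.nrm, hE,
    ← pow_mul] at h7
  have h8 := (Nat.factorization_le_iff_dvd (mul_ne_zero (pow_ne_zero _ hq.ne_zero) L.sqf.ne_zero)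
    (mul_ne_zero (pow_ne_zero _ L.sqf.ne_zero) (pow_ne_zero _ hq.ne_zero))).2 h7 q
  simp [Nat.factorization_mul, hq.ne_zero, L.sqf.ne_zero, hq.factorization_self] at h8
  have h9 := L.sqf.natFactorization_le_one q
  have := L.d2
  rcases s with _ | s
  · omega
  unfold shf
  split_ifs with b
  · nlinarith
  · have : L.D.factorization q = 0 := Nat.factorization_eq_zero_of_not_dvd fun e => b ⟨e,
      (by exact_mod_cast dvd_pow_self q s.succ_ne_zero : (q : ℤ) ∣ (q ^ (s + 1) : ℕ)).trans a⟩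
    nlinarith

end Lt

end Pool.Agent.Lib.MP_9177b7_ag.SO.Loc
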