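import Pool.Agent.Lib.MP_9177b7_ag.SO.Loc1

/-!
Densities of the levels on slices of the lattice `𝔡⁻¹ 𝔇⁻¹`.
-/

open NumberField Finset Pool.Agent.Shared.PrimeZeta

noncomputable section

namespace Pool.Agent.Lib.MP_9177b7_ag.SO.Loc

open B B.Lv

variable {F : Type} [Field F] [NumberField F] {d q : ℕ}

theorem dio (B : Bas F d) {dd : Ideal (𝓞 F)} {c : Fin d → ℤ} {w : Fin d → ℝ}
    (hc : ∀ i, B.ω i.succ - c i ∈ dd) (hw : ∀ i (σ : F →+* ℂ), ‖σ (B.ω i.succ)‖ ≤ w i)
    (u : Fin d → ℤ) (j r : ℤ) (hu : u ≠ 0) (hj : j ≠ 0)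
    (h : (Ideal.absNorm dd : ℤ) ∣ j * ∑ i, u i * c i - r) :
    (Ideal.absNorm dd : ℝ) ≤ (|(j : ℝ)| * ∑ i, |(u i : ℝ)| * w i + |(r : ℝ)|) ^ (d + 1) := by
  obtain ⟨y, hy⟩ : ∃ y : 𝓞 F, y = j * ∑ i, u i * B.ω i.succ - r := ⟨_, rfl⟩
  obtain ⟨z, hz⟩ := h
  have h1 : y ∈ dd := by
    have : y = j * ∑ i, u i * (B.ω i.succ - c i) + Ideal.absNorm dd * z := by
      have := congrArg (Int.cast : ℤ → 𝓞 F) hz
      push_cast at this
      rw [hy, ← this]
      simp only [mul_sub, sum_sub_distrib]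
      ring
    rw [this]
    exact add_mem (dd.mul_mem_left _ (dd.sum_mem fun i _ => dd.mul_mem_left _ (hc i)))
      (dd.mul_mem_right _ (Ideal.absNorm_mem dd))
  have h2 : y ≠ 0 := fun e => hu (funext fun i => by
    have := Fintype.linearIndependent_iff.1 B.ω.linearIndependent
      (Fin.cons (-r) fun i => j * u i) (by
        rw [Fin.sum_univ_succ, ← e, hy, mul_sum]
        simp [B.one, mul_assoc, sub_eq_neg_add]) i.succ
    simpa [hj] using this)
  have h3 := Int.le_of_dvd (abs_pos.2 (Algebra.norm_ne_zero_iff.2 h2))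
    ((dvd_abs _ _).2 (Ideal.absNorm_dvd_norm_of_mem h1))
  have e := congrArg norm (Algebra.norm_eq_prod_embeddings ℚ ℂ (y : F))
  rw [norm_prod, eq_ratCast, Complex.norm_ratCast, ← Algebra.coe_norm_int] at e
  have h4 : (Ideal.absNorm dd : ℝ) ≤ ∏ σ : F →ₐ[ℚ] ℂ, ‖σ (y : F)‖ := by
    rw [← e]
    exact_mod_cast h3
  refine h4.trans ((prod_le_prod (fun _ _ => norm_nonneg _) fun σ _ => ?_).trans (by
    rw [prod_const, card_univ, AlgHom.card, ← RingOfIntegers.rank, rank B]))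
  have : σ (y : F) = j * ∑ i, u i * σ (B.ω i.succ : F) - r := by simp [hy]
  rw [this]
  refine (norm_sub_le _ _).trans (add_le_add ?_ (by simp))
  rw [norm_mul, Complex.norm_intCast]
  refine mul_le_mul_of_nonneg_left ((norm_sum_le _ _).trans (sum_le_sum fun i _ => ?_))
    (abs_nonneg _)
  rw [norm_mul, Complex.norm_intCast]
  exact mul_le_mul_of_nonneg_left (hw i σ.toRingHom) (abs_nonneg _)

namespace Lt

variable (L : Lt F d)

open Classical in
theorem lev (hI : IdcStmt) (hq : q.Prime) (N : ℤ) (j : ℕ) :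
    denN (q ^ (j + shf L.D q N))
      (fun k => if q ^ (j + shf L.D q N) ∣ Ideal.absNorm (L.J (Fin.cons N k)) then 1 else 0) ≤
      (d + 2) * ((j : ℝ) + (d + 2 : ℕ) + 1) ^ (d + 2) / q ^ (j - j / 3) := by
  have hs : shf L.D q N ≤ 1 := by
    unfold shf
    split_ifs <;> omega
  obtain ⟨l, hl⟩ : ∃ l, l = j + shf L.D q N := ⟨_, rfl⟩
  rw [← hl]
  have hN : Module.finrank ℚ F = d + 1 := (RingOfIntegers.rank F).symm.trans L.rk
  have q1 : (1 : ℝ) ≤ q := by exact_mod_cast hq.one_le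
  have hM : 0 < q ^ (l + (d + 1)) := pow_pos hq.pos _
  have per : ShiuN.Per (q ^ l) fun k =>
      if q ^ l ∣ Ideal.absNorm (L.J (Fin.cons N k)) then (1 : ℝ) else 0 :=
    fun u v h => if_congr ⟨L.per hq l (by simp) h, L.per hq l (by simp) (ShiuN.CgN.symm h)⟩ rfl rfl
  rw [← ShiuN.den_of_dvd per (pow_dvd_pow q (Nat.le_add_right l (d + 1))) hM]
  refine (den_mono _ (g := fun t => ∑ i ∈ Icc l (l + (d + 1)), ∑ E ∈ idl F (q ^ i), L.ind N E t)
    fun t => ?_).trans ?_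
  · split_ifs with h
    · obtain ⟨E, i, a, b, c, e⟩ := (hI F q l hq).2 _ h
      rw [hN] at c
      refine le_trans ?_ (single_le_sum (f := fun i => ∑ E ∈ idl F (q ^ i), L.ind N E t)
        (fun i _ => sum_nonneg fun E _ => L.ind_nonneg N E t) (mem_Icc.2 ⟨b, c⟩))
      exact le_trans (le_of_eq (if_pos a).symm)
        (single_le_sum (fun E _ => L.ind_nonneg N E t) (mem_idl.2 e))
    · exact sum_nonneg fun i _ => sum_nonneg fun E _ => L.ind_nonneg N E t
  rw [den_sum]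
  refine (sum_le_card_nsmul _ _ (((j : ℝ) + (d + 2 : ℕ) + 1) ^ (d + 2) / q ^ (j - j / 3))
    fun i hi => ?_).trans (le_of_eq ?_)
  · obtain ⟨a, b⟩ := mem_Icc.1 hi
    rw [den_sum]
    refine (sum_le_card_nsmul _ _ (1 / (q : ℝ) ^ (j - j / 3)) fun E hE => ?_).trans ?_
    · have e := mem_idl.1 hE
      obtain ⟨k, hk⟩ := pow_dvd_pow q b
      obtain ⟨-, -, -, s, h1, h2⟩ := L.den_ind hq N e (a := l + (d + 1)) (by
        rw [hk, ← e, Nat.cast_mul]
        exact E.mul_mem_right _ (Ideal.absNorm_mem E))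
      refine h2.trans ?_
      rw [div_le_div_iff₀ (by positivity) (by positivity), ← pow_add, one_mul]
      exact pow_le_pow_right₀ q1 (by omega)
    · rw [card_idl, nsmul_eq_mul, mul_one_div]
      refine div_le_div_of_nonneg_right ?_ (by positivity)
      have h := (hI F q i hq).1
      rw [hN] at h
      exact_mod_cast h.trans ((Nat.pow_le_pow_left (by omega) _).trans
        (Nat.pow_le_pow_right (by omega) (Nat.le_succ _)))
  · rw [Nat.card_Icc, show l + (d + 1) + 1 - l = d + 2 by omega, nsmul_eq_mul]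
    push_cast
    ring

theorem max_sup (hq : q.Prime) (h : q ∣ L.D) : (L.dd ⊔ Ideal.span {(q : 𝓞 F)}).IsMaximal :=
  max_of hq (norm_sup hq (L.nrm ▸ L.sqf) (L.nrm ▸ h))

theorem eq_sup (hq : q.Prime) {P : Ideal (𝓞 F)} (hP : Ideal.absNorm P = q) (h : L.dd ≤ P) :
    q ∣ L.D ∧ L.dd ⊔ Ideal.span {(q : 𝓞 F)} = P :=
  have h1 : q ∣ L.D := hP ▸ L.nrm ▸ Ideal.absNorm_dvd_absNorm_of_le h
  ⟨h1, (L.max_sup hq h1).eq_of_le (max_of hq hP).ne_top (sup_le h
    ((Ideal.span_singleton_le_iff_mem _).2 (hP ▸ Ideal.absNorm_mem P)))⟩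

theorem den_le (hq : q.Prime) {N : ℤ} (h0 : shf L.D q N = 0) {E : Ideal (𝓞 F)} {i : ℕ}
    (hE : Ideal.absNorm E = q ^ i) (hi : i ≤ 2) (h : (q : 𝓞 F) ∈ E) :
    denN q (L.ind N E) ≤ 1 / q ^ i := by
  obtain ⟨-, -, -, r, a, b⟩ := L.den_ind hq N hE (a := 1) (by rwa [pow_one])
  obtain rfl : r = 0 := by omega
  rwa [pow_one, pow_zero] at b

theorem den_eq (hq : q.Prime) (N : ℤ) {P : Ideal (𝓞 F)} (hP : Ideal.absNorm P = q)
    (h : ¬ L.dd ≤ P) : denN q (L.ind N P) = 1 / q := by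
  obtain ⟨s, a, b, -⟩ := L.den_ind hq N (hP.trans (pow_one q).symm) (a := 1)
    (by rw [pow_one, ← hP]; exact Ideal.absNorm_mem P)
  rw [pow_one, pow_one] at b
  refine b (by_contra fun e => h ?_)
  replace a : Ideal.span {(L.D : 𝓞 F)} * P ≤ Ideal.span {(q : 𝓞 F)} * L.dd :=
    a.trans (Ideal.mul_mono_left (Ideal.span_singleton_le_span_singleton.2
      (Nat.cast_dvd_cast (dvd_pow_self q e))))
  have h1 := Ideal.absNorm_dvd_absNorm_of_le a
  rw [map_mul, map_mul, Ideal.absNorm_span_natCast, Ideal.absNorm_span_natCast, L.rk, hP,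
    pow_succ q] at h1
  have := L.d2
  have h2 : q ∣ L.D := hq.dvd_of_dvd_pow ((dvd_pow_self q (by omega)).trans
    (Nat.dvd_of_mul_dvd_mul_right hq.pos ((dvd_mul_right _ _).trans h1)))
  have hm := L.max_sup hq h2
  obtain ⟨m, hm'⟩ := h2
  have q0 : Ideal.span {(q : 𝓞 F)} ≠ ⊥ := by simpa using hq.ne_zero
  rw [hm', Nat.cast_mul, ← Ideal.span_singleton_mul_span_singleton, mul_assoc,
    ← Ideal.dvd_iff_le, mul_dvd_mul_iff_left q0, Ideal.dvd_iff_le] at a
  rcases hm.isPrime.mul_le.1 (a.trans le_sup_left) with c | c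
  · have c1 := (Ideal.span_singleton_le_iff_mem _).1 c
    have c2 : (q : 𝓞 F) ∈ L.dd ⊔ Ideal.span {(q : 𝓞 F)} :=
      Ideal.mem_sup_right (Ideal.mem_span_singleton_self _)
    obtain ⟨x, y, e⟩ := (Nat.isCoprime_iff_coprime.2
      (Nat.coprime_of_squarefree_mul (hm' ▸ L.sqf))).map (Int.castRingHom (𝓞 F))
    refine absurd ((Ideal.eq_top_iff_one _).2 ?_) hm.ne_top
    rw [← e]
    exact add_mem (Ideal.mul_mem_left _ _ (by simpa using c2))
      (Ideal.mul_mem_left _ _ (by simpa using c1))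
  · exact le_sup_left.trans ((max_of hq hP).eq_of_le hm.ne_top c).ge

open Classical in
theorem lo (hq : q.Prime) {N : ℤ} (h0 : shf L.D q N = 0) :
    ((nI F q : ℝ) - if q ∣ L.D then 1 else 0) / q - (d + 1) ^ 2 / q ^ 2 ≤
      denN q (fun k => if q ∣ Ideal.absNorm (L.J (Fin.cons N k)) then 1 else 0) := by
  have mem : ∀ P ∈ idl F q, (q : 𝓞 F) ∈ P := fun P hP => mem_idl.1 hP ▸ Ideal.absNorm_mem P
  have hn : (nI F q : ℝ) ≤ d + 1 := by exact_mod_cast (nI_le hq).trans L.rk.le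
  have h1 := den_mono (d := d) q (h := fun t => ∑ P ∈ idl F q, L.ind N P t)
    (g := fun t => (if q ∣ Ideal.absNorm (L.J (Fin.cons N t)) then 1 else 0) +
      ∑ P ∈ idl F q, ∑ P' ∈ (idl F q).erase P, L.ind N (P ⊓ P') t) fun t => by
      have n2 : ∀ P ∈ idl F q, 0 ≤ ∑ P' ∈ (idl F q).erase P, L.ind N (P ⊓ P') t :=
        fun P _ => sum_nonneg fun _ _ => L.ind_nonneg N _ t
      by_cases h : ∃ P ∈ idl F q, L.J (Fin.cons N t) ≤ P
      · obtain ⟨P, hP, a⟩ := h
        rw [if_pos (mem_idl.1 hP ▸ Ideal.absNorm_dvd_absNorm_of_le a), ← add_sum_erase _ _ hP]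
        refine add_le_add (le_of_eq (if_pos a)) (le_trans (le_of_eq ?_) (single_le_sum n2 hP))
        exact sum_congr rfl fun P' _ => by simp only [ind, le_inf_iff, a, true_and]
      · rw [sum_eq_zero (f := fun P => L.ind N P t) fun P hP => if_neg fun a => h ⟨P, hP, a⟩]
        exact add_nonneg (by split_ifs <;> norm_num) (sum_nonneg n2)
  rw [den_add, den_sum, den_sum] at h1
  have h2 : ∑ P ∈ idl F q, denN q (fun t => ∑ P' ∈ (idl F q).erase P, L.ind N (P ⊓ P') t) ≤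
      (d + 1) ^ 2 / q ^ 2 := by
    refine (sum_le_card_nsmul _ _ (((d : ℝ) + 1) / q ^ 2) fun P hP => ?_).trans ?_
    · rw [den_sum]
      refine (sum_le_card_nsmul _ _ (1 / (q : ℝ) ^ 2) fun P' hP' => L.den_le hq h0 ?_ le_rfl
        (Ideal.mem_inf.2 ⟨mem P hP, mem P' (mem_of_mem_erase hP')⟩)).trans ?_
      · have := max_of hq (mem_idl.1 hP)
        have := max_of hq (mem_idl.1 (mem_of_mem_erase hP'))
        rw [← Ideal.mul_eq_inf_of_isCoprime
          (Ideal.isCoprime_of_isMaximal (ne_of_mem_erase hP').symm), map_mul, mem_idl.1 hP,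
          mem_idl.1 (mem_of_mem_erase hP'), sq]
      · rw [nsmul_eq_mul, mul_one_div]
        refine div_le_div_of_nonneg_right (le_trans ?_ hn) (by positivity)
        exact_mod_cast card_erase_le.trans (card_idl q).le
    · rw [card_idl, nsmul_eq_mul, sq ((d : ℝ) + 1), mul_div_assoc]
      exact mul_le_mul_of_nonneg_right hn (by positivity)
  have h3 : (((idl F q).filter fun P => L.dd ≤ P).card : ℝ) ≤ if q ∣ L.D then 1 else 0 := by
    split_ifs with a
    · exact_mod_cast card_le_one.2 fun P hP P' hP' =>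
        (L.eq_sup hq (mem_idl.1 (mem_filter.1 hP).1) (mem_filter.1 hP).2).2.symm.trans
          (L.eq_sup hq (mem_idl.1 (mem_filter.1 hP').1) (mem_filter.1 hP').2).2
    · rw [filter_eq_empty_iff.2 fun P hP e => a (L.eq_sup hq (mem_idl.1 hP) e).1]
      simp
  have h4 := card_filter_add_card_filter_not (s := idl F q) fun P => L.dd ≤ P
  have h5 := sum_le_sum_of_subset_of_nonneg (f := fun P => denN q (L.ind N P))
    (filter_subset (fun P => ¬ L.dd ≤ P) (idl F q)) fun P _ _ =>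
      div_nonneg (sum_nonneg fun k _ => L.ind_nonneg N P k) (by positivity)
  rw [sum_congr rfl fun P hP => L.den_eq hq N (mem_idl.1 (mem_filter.1 hP).1) (mem_filter.1 hP).2,
    sum_const, nsmul_eq_mul, mul_one_div] at h5
  rw [card_idl] at h4
  refine le_trans (sub_le_sub_right (le_trans (div_le_div_of_nonneg_right ?_ (by positivity)) h5)
    _) (by linarith)
  rw [← h4]
  push_cast
  linarith

variable (E : Type) [Field E] [NumberField E] [Algebra F E]

/-- The number of ideals of norm `q` of `E` that divide `J v`. -/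
def n1 (q : ℕ) (v : Fin (d + 1) → ℤ) : ℕ :=
  Nat.card {Q : Ideal (𝓞 E) // Ideal.absNorm Q = q ∧ (L.J v).map (algebraMap (𝓞 F) (𝓞 E)) ≤ Q}

open Classical in
theorem n1_eq (v) : L.n1 E q v =
    ((idl E q).filter fun Q => L.J v ≤ Q.comap (algebraMap (𝓞 F) (𝓞 E))).card :=
  Nat.subtype_card _ fun Q => by rw [mem_filter, mem_idl, Ideal.map_le_iff_le_comap]

theorem nper (hq : q.Prime) {N N' : ℤ} {k k' : Fin d → ℤ} (h1 : (q : ℤ) ∣ N - N')
    (h2 : CgN q k k') : L.n1 E q (Fin.cons N k) = L.n1 E q (Fin.cons N' k') := by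
  classical
  rw [n1_eq, n1_eq]
  refine congrArg _ (filter_congr fun Q hQ => ?_)
  have a : (q : 𝓞 F) ∈ Q.comap (algebraMap (𝓞 F) (𝓞 E)) :=
    norm_comap (F := F) E hq (mem_idl.1 hQ) ▸ Ideal.absNorm_mem _
  exact ⟨L.perJ a h1 h2, L.perJ a (dvd_sub_comm.1 h1) (ShiuN.CgN.symm h2)⟩

theorem nle (hq : q.Prime) (v) : L.n1 E q v ≤ Module.finrank ℚ E := by
  classical
  rw [n1_eq, ← RingOfIntegers.rank]
  exact (card_filter_le _ _).trans ((card_idl q).le.trans (nI_le hq))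

theorem nden (hq : q.Prime) {N : ℤ} (h0 : shf L.D q N = 0) {Df : Ideal (𝓞 E)}
    (h1 : Ideal.absNorm Df = L.D) (h2 : L.dd.map (algebraMap (𝓞 F) (𝓞 E)) ≤ Df) :
    denN q (fun k => (L.n1 E q (Fin.cons N k) : ℝ)) ≤
      ((nI E q : ℝ) - if q ∣ L.D then 1 else 0) / q := by
  classical
  have a : ∀ Q ∈ idl E q, denN q (L.ind N (Q.comap (algebraMap (𝓞 F) (𝓞 E)))) ≤ 1 / q :=
    fun Q hQ => by
      have e := norm_comap (F := F) E hq (mem_idl.1 hQ)
      simpa using L.den_le hq h0 (e.trans (pow_one q).symm) one_le_two (e ▸ Ideal.absNorm_mem _)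
  have b : ∀ k, (L.n1 E q (Fin.cons N k) : ℝ) =
      ∑ Q ∈ idl E q, L.ind N (Q.comap (algebraMap (𝓞 F) (𝓞 E))) k := fun k => by
    rw [n1_eq, card_filter]
    simp only [ind, Nat.cast_sum, Nat.cast_ite, Nat.cast_one, Nat.cast_zero]
  simp only [b]
  rw [den_sum]
  split_ifs with h
  · have c := norm_sup hq (h1 ▸ L.sqf) (h1 ▸ h)
    have c1 := (L.eq_sup hq (norm_comap (F := F) E hq c)
      (Ideal.map_le_iff_le_comap.1 (h2.trans le_sup_left))).2
    have c2 : L.ind N ((Df ⊔ Ideal.span {(q : 𝓞 E)}).comap (algebraMap (𝓞 F) (𝓞 E))) =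
        fun _ => 0 := funext fun k => if_neg fun e => by
      rw [← c1, L.low _ q h] at e
      exact one_ne_zero ((if_pos ⟨h, e⟩).symm.trans h0)
    rw [← add_sum_erase _ _ (mem_idl.2 c), c2]
    refine (add_le_add (le_of_eq (b := 0) (by simp [denN])) (sum_le_card_nsmul _ _ _
      fun Q hQ => a Q (mem_of_mem_erase hQ))).trans (le_of_eq ?_)
    rw [zero_add, nsmul_eq_mul, mul_one_div, cast_card_erase_of_mem (mem_idl.2 c), card_idl]
  · refine (sum_le_card_nsmul _ _ _ a).trans (le_of_eq ?_)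
    rw [nsmul_eq_mul, mul_one_div, card_idl, sub_zero]

end Lt

end Pool.Agent.Lib.MP_9177b7_ag.SO.Loc
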