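import Pool.Agent.Lib.MP_9177b7_ag.SO.Bow
import Pool.Agent.Lib.MP_9177b7_ag.S4.Erg

/-!
Mass bounds through conditional measures.
-/

open MeasureTheory ProbabilityTheory Filter Topology Set
open scoped ENNReal

noncomputable section

namespace Pool.Agent.Lib.MP_9177b7_ag.SO

open B (IsCond)
open S4 (Vn coset colour cov_ex p0 pz_le)

variable {n p : ℕ} [Fact p.Prime] {S : Sp n p} {ν : Measure S.X} {κ : Kernel S.X (HQ n p)}

section

variable {U W : Subgroup (HQ n p)}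

theorem me_act {E : Set S.X} (mE : MeasurableSet E) (z : S.X) :
    MeasurableSet {u : HQ n p | u • z ∈ E} := (continuous_id.smul continuous_const).measurable mE

theorem dis_ind (hκ : IsCond U ν κ) {E : Set S.X} (mE : MeasurableSet E) :
    ν E = ∫⁻ z, κ z {u | u • z ∈ E} ∂ν := by
  rw [← lintegral_indicator_one mE, ← hκ.dis _ (measurable_one.indicator mE)]
  exact lintegral_congr fun z => lintegral_indicator_one (me_act mE z)

theorem supp_le (hκ : IsCond U ν κ) (z : S.X) {A B : Set (HQ n p)} (h : ∀ u ∈ U, u ∈ A → u ∈ B) :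
    κ z A ≤ κ z B :=
  measure_mono_ae (Eventually.mono (show ∀ᵐ u ∂κ z, u ∈ U from hκ.supp z) h)

theorem orb_opn {B : Set (HQ n p)} {O : Set S.C} (hB : IsOpen B) (hO : IsOpen O) (y : S.X) :
    IsOpen (S.orb B O y) := by
  refine (congrArg IsOpen (Set.ext fun z => ?_)).mp (S.opn y _ (hB.prod hO))
  exact ⟨fun ⟨g, a, e⟩ => ⟨g.1, a.1, g.2, a.2, e.symm⟩, fun ⟨h, a, c, b, e⟩ => ⟨(h, c), ⟨a, b⟩, e.symm⟩⟩

theorem orb_inv {B : Subgroup (HQ n p)} {O : Set S.C} {y z : S.X} {u : HQ n p} (hu : u ∈ B)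
    (h : u • z ∈ S.orb B O y) : z ∈ S.orb B O y := by
  obtain ⟨b, hb, c, hc, e⟩ := h
  refine ⟨u⁻¹ * b, mul_mem (inv_mem hu) hb, c, hc, ?_⟩
  rw [← inv_smul_smul u z, e, Sp.smul_def, ← mul_smul, Prod.mk_mul_mk, one_mul]

theorem lemP (hκ : IsCond U ν κ) (mV : MeasurableSet (W : Set (HQ n p))) {B B' : Subgroup (HQ n p)}
    (oB : IsOpen (B : Set (HQ n p))) (oB' : IsOpen (B' : Set (HQ n p))) (UB : U ≤ B') (BB : B ≤ B')
    (iB : ∀ h ∈ B', Intg h) (hV : ∀ u ∈ U, u ∈ B → u ∈ W) {Q A : Set S.X} (mQ : MeasurableSet Q)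
    {O O₁ : Set S.C} (oO : IsOpen O) (hO : ∀ v ∈ O, ∀ w ∈ O, v / w ∈ O₁)
    (inj : ∀ x ∈ Q, ∀ h : HQ n p, Intg h → ∀ c ∈ O₁, ((h, c) : HQ n p × S.C) • x = x → h = 1)
    (mA : MeasurableSet A) (iA : ∀ u ∈ U, ∀ x, u • x ∈ A → x ∈ A) (lam : ℝ≥0∞) (y : S.X) :
    ν (S.orb B O y ∩ ((Q ∩ {x | κ x W ≤ lam}) ∩ A)) ≤ lam * ν (S.orb B' O y ∩ A) := by
  have m1 := (orb_opn oB' oO y).measurableSet.inter mA
  rw [dis_ind hκ ((orb_opn oB oO y).measurableSet.inter ((mQ.inter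
    (measurableSet_le (κ.measurable_coe mV) measurable_const)).inter mA)),
    ← lintegral_indicator_const m1]
  refine lintegral_mono fun z => ?_
  by_cases h : ∃ u ∈ U, u • z ∈ S.orb B O y ∩ ((Q ∩ {x | κ x W ≤ lam}) ∩ A)
  swap
  · exact (supp_le hκ z (B := ∅) fun u hu e => h ⟨u, hu, e⟩).trans (by simp)
  obtain ⟨u₀, h₀, ⟨b₀, hb₀, c₀, hc₀, e₀⟩, ⟨q₀, l₀⟩, a₀⟩ := h
  rw [indicator_of_mem (show z ∈ S.orb B' O y ∩ A from
    ⟨orb_inv (UB h₀) ⟨b₀, BB hb₀, c₀, hc₀, e₀⟩, iA _ h₀ _ a₀⟩)]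
  refine (supp_le hκ z (B := {b | b * u₀⁻¹ ∈ W}) ?_).trans
    ((coset hκ mV h₀ (by simp) z).symm.trans_le l₀)
  rintro u hu ⟨⟨b, hb, c, hc, e⟩, -⟩
  refine hV _ (mul_mem hu (inv_mem h₀)) ?_
  have := inj _ q₀ (b₀ * b⁻¹ * (u * u₀⁻¹)) (iB _ (mul_mem (BB (mul_mem hb₀ (inv_mem hb)))
    (UB (mul_mem hu (inv_mem h₀))))) _ (hO _ hc₀ _ hc) (by
      have : ((b₀ * b⁻¹ * (u * u₀⁻¹), c₀ / c) : HQ n p × S.C) • u₀ • z =
          ((b₀ * b⁻¹, c₀ / c) : HQ n p × S.C) • u • z := by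
        simp [Sp.smul_def, ← mul_smul, mul_assoc]
      rw [this, e, e₀, ← mul_smul]
      simp)
  rw [← inv_eq_of_mul_eq_one_right this]
  exact inv_mem (mul_mem hb₀ (inv_mem hb))

theorem thick (hκ : IsCond U ν κ) {G : Set S.X} (mG : MeasurableSet G) (δ : ℝ≥0∞) :
    ∃ G' : Set S.X, MeasurableSet G' ∧ (∀ u ∈ U, ∀ x, u • x ∈ G' → x ∈ G') ∧
      ν (G \ G') ≤ δ * ν univ ∧ ∀ A : Set S.X, MeasurableSet A →
        (∀ u ∈ U, ∀ x ∈ A, u • x ∈ A) → δ * ν (A ∩ G') ≤ ν (A ∩ G) := by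
  have := hκ.markov
  have m : MeasurableSet {z | δ ≤ κ z {u | u • z ∈ G}} := measurableSet_le measurable_const
    (Kernel.measurable_kernel_prodMk_left (t := {q : S.X × HQ n p | q.2 • q.1 ∈ G})
      ((continuous_snd.smul continuous_fst).measurable mG))
  have i : ∀ c ∈ U, ∀ z, κ (c • z) {u | u • c • z ∈ G} = κ z {u | u • z ∈ G} := fun c hc z => by
    rw [hκ.equi c hc, Measure.map_apply (measurable_mul_const _) (me_act mG _)]
    simp [← mul_smul]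
  refine ⟨_, m, fun u hu x hx => (i u hu x ▸ hx : δ ≤ _), ?_, fun A mA iA => ?_⟩
  · rw [dis_ind hκ (mG.diff m), ← lintegral_const]
    refine lintegral_mono fun z => ?_
    by_cases h : δ ≤ κ z {u | u • z ∈ G}
    · exact (supp_le hκ z (B := ∅) fun u hu e => e.2 ((i u hu z).symm ▸ h : δ ≤ _)).trans (by simp)
    · exact (measure_mono fun u e => e.1).trans (not_le.1 h).le
  · rw [dis_ind hκ (mA.inter mG), ← lintegral_indicator_const (mA.inter m)]
    refine lintegral_mono (indicator_le fun z hz => hz.2.trans ?_)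
    exact supp_le hκ z fun u hu e => ⟨iA u hu z hz.1, e⟩

end

variable {k k' : Ix n → ℤ} {g : HQ n p} {r : ℕ} {e : Ix n → Ix n → ℤ}

theorem V_GP (hg : g ∈ V p k) (h : ∀ i j, 1 < wt k i j → e i j ≤ 0) : g ∈ GP p e := fun i j => by
  obtain ⟨a, b⟩ := (mem_V k g).1 hg
  by_cases c : 1 < wt k i j
  · exact (a i j).trans (by simpa using pz_le (p := p) (h i j c))
  · rw [b i j c, norm_zero]
    exact (zpow_pos p0 _).le

theorem V_conj (hg : g ∈ V p k) : dg p k * g * (dg p k)⁻¹ ∈ V p k := by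
  obtain ⟨a, b⟩ := (mem_V k g).1 hg
  refine (mem_V k _).2 ⟨fun i j => ?_, fun i j c => by rw [D_conj, b i j c, mul_zero]⟩
  rw [norm_conj]
  by_cases c : 1 < wt k i j
  · exact mul_le_one₀ (by simpa using pz_le (p := p) (a := 0) (by omega)) (norm_nonneg _) (a i j)
  · simp [b i j c]

theorem Vn_of (hg : g ∈ V p k) (w : ∀ i j, 1 < wt k i j → r * wt k i j ≤ e i j)
    (h1 : g ∈ GP p e) : g ∈ Vn (V p k) (dg p k) r := by
  have a := (GP_conj k r (fun a b => e a b - r * wt k a b) g).2 (by simpa using h1)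
  have b : (dg p k ^ r)⁻¹ = dg p ((-r : ℤ) • k) := by
    rw [← dg_zpow, zpow_neg, zpow_natCast]
  have c := D_conj ((-r : ℤ) • k) g
  rw [← b, inv_inv] at c
  have z : ∀ i j, ¬ 1 < wt k i j → D ((dg p k ^ r)⁻¹ * g * dg p k ^ r) i j = 0 := fun i j q => by
    rw [c, ((mem_V k g).1 hg).2 i j q, mul_zero]
  refine (mem_V k _).2 ⟨fun i j => ?_, z⟩
  by_cases q : 1 < wt k i j
  · exact (a i j).trans (by simpa using pz_le (p := p) (sub_nonneg.2 (w i j q)))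
  · simp [z i j q]

theorem Vn_Bl (hg : g ∈ Vn (V p k) (dg p k) r) : g ∈ Bl p 0 k r := by
  have := (GP_conj k r (fun a b => be 0 k r a b - r * wt k a b) g).1
    (V_GP hg fun a b c => by simp [be, show 0 < wt k a b by omega])
  exact mem_Bl.2 (by simpa using this)

theorem Vn_me : MeasurableSet (Vn (V p k) (dg p k) r : Set (HQ n p)) :=
  ((V_cpt k).isClosed.preimage ((continuous_mul_const (dg p k ^ r)).comp
    (continuous_const_mul (dg p k ^ r)⁻¹))).measurableSet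

theorem Vn_cov (k : Ix n → ℤ) (r : ℕ) : ∃ s : Finset (HQ n p),
    (∀ u ∈ V p k, ∃ g ∈ s, u * g⁻¹ ∈ Vn (V p k) (dg p k) r) ∧
      ∀ g ∈ s, ∀ g' ∈ s, g * g'⁻¹ ∈ Vn (V p k) (dg p k) r → g = g' := by
  classical
  obtain ⟨s, hs⟩ := cov_ex (V_cpt (p := p) k) (Bl_opn (m := 0) (k := k) (l := r))
  obtain ⟨t, -, ht⟩ := colour _ id _ s hs
  let q := Quotient.mk (QuotientGroup.rightRel (Vn (V p k) (dg p k) r))
  have hq : ∀ a b, q a = q b ↔ b * a⁻¹ ∈ Vn (V p k) (dg p k) r := fun a b =>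
    Quotient.eq.trans QuotientGroup.rightRel_apply
  refine ⟨t.image fun g => (q g).out, fun u hu => ?_, ?_⟩
  · obtain ⟨g, a, b, c⟩ := ht u hu
    refine ⟨_, Finset.mem_image_of_mem _ a, (hq _ _).1 ((Quotient.out_eq _).trans ((hq _ _).2 ?_))⟩
    exact Vn_of (mul_mem hu (inv_mem b))
      (fun i j w => by simp [be, show 0 < wt k i j by omega]) (mem_Bl.1 c)
  · simp only [Finset.forall_mem_image]
    intro a _ b _ c
    have := (hq _ _).2 c
    exact congrArg Quotient.out ((Quotient.out_eq _).symm.trans (this.symm.trans (Quotient.out_eq _)))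

/-- The shape of the groups between a Bowen ball and a tube. -/
def ex (k : Ix n → ℤ) (s t : ℤ) (i j : Ix n) : ℤ :=
  if 1 < wt k i j then s else if wt k i j < -1 then t else |wt k i j|

/-- Opposite weights with three levels. -/
structure Op (k k' : Ix n → ℤ) (I : Finset (Ix n)) : Prop where
  lv : ∀ i, |k i - k i.rev| ≤ 1
  op : ∀ i, k' i - k' i.rev = -(k i - k i.rev)
  mem : ∀ i, i ∈ I ↔ k i ≠ k i.rev

theorem Op.symm {I : Finset (Ix n)} (h : Op k k' I) : Op k' k I :=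
  ⟨fun i => by rw [h.op, abs_neg]; exact h.lv i, fun i => by rw [h.op, neg_neg], fun i => by
    have := h.op i
    rw [h.mem]
    omega⟩

theorem Op.wt {I : Finset (Ix n)} (h : Op k k' I) (i j : Ix n) : wt k' i j = -wt k i j := by
  rw [SO.wt, SO.wt, h.op, h.op]
  ring

theorem Op.dg {I : Finset (Ix n)} (h : Op k k' I) : dg p k' = (dg p k)⁻¹ := by
  rw [dg_inv]
  refine Subtype.ext (Subtype.ext (congrArg Matrix.diagonal (funext fun i => congrArg _ ?_)))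
  rw [h.op]
  simp only [Pi.smul_apply, smul_eq_mul]
  ring

theorem rad_mul {e : Ix n → Ix n → ℤ} (h : ∀ i m j, e i j ≤ e i m + e m j) (r : ℕ) :
    Rad fun i j => (p : ℝ) ^ (-(r * e i j)) := rad_pow fun i m j => by
  rw [← mul_add]
  exact mul_le_mul_of_nonneg_left (h i m j) (Int.natCast_nonneg r)

theorem ex_add (h : ∀ i, |k i - k i.rev| ≤ 1) {s t : ℤ} (s0 : 0 ≤ s) (s2 : s ≤ 2) (t0 : 0 ≤ t)
    (t2 : t ≤ 2) (i m j : Ix n) : ex k s t i j ≤ ex k s t i m + ex k s t m j := by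
  have a := abs_le.1 (h i)
  have b := abs_le.1 (h m)
  have c := abs_le.1 (h j)
  simp only [ex, wt, abs_eq_max_neg]
  split_ifs <;> omega

theorem mass {I : Finset (Ix n)} (op : Op k k' I) {κ' : Kernel S.X (HQ n p)}
    (hκ : IsCond (V p k) ν κ) (hκ' : IsCond (V p k') ν κ') {Q : Set S.X} (mQ : MeasurableSet Q)
    {O O₁ : Set S.C} (oO : IsOpen O) (hO : ∀ v ∈ O, ∀ w ∈ O, v / w ∈ O₁)
    (inj : ∀ x ∈ Q, ∀ h : HQ n p, Intg h → ∀ c ∈ O₁, ((h, c) : HQ n p × S.C) • x = x → h = 1)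
    (lam δ : ℝ≥0∞) (r : ℕ) : ∃ G' : Set S.X,
      ν ((Q ∩ {x | κ' x (Vn (V p k') (dg p k') r) ≤ lam}) \ G') ≤ δ * ν univ ∧
      ∀ y, δ * ν (S.orb (GP p fun i j => r * |wt k i j|) O y ∩
        ((Q ∩ {x | κ x (Vn (V p k) (dg p k) r) ≤ lam}) ∩ G')) ≤
          lam * (lam * ν (S.orb (KI p I r) O y)) := by
  obtain ⟨G', g1, g2, g3, g4⟩ := thick hκ (mQ.inter (measurableSet_le
    (κ'.measurable_coe (Vn_me (k := k') (r := r))) measurable_const)) δ
  refine ⟨G', g3, fun y => ?_⟩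
  have n0 := Int.natCast_nonneg r
  have r1 := rad_mul (p := p) (ex_add op.lv zero_le_two le_rfl zero_le_two le_rfl) r
  have r2 := rad_mul (p := p) (ex_add op.lv le_rfl zero_le_two zero_le_two le_rfl) r
  have r3 := rad_mul (p := p) (ex_add op.lv le_rfl zero_le_two le_rfl zero_le_two) r
  have d : ∀ i j, ex k 0 2 i j ≤ ex k 2 2 i j ∧ ex k 0 0 i j ≤ ex k 0 2 i j ∧ 0 ≤ ex k 0 0 i j ∧
      |wt k i j| = ex k 2 2 i j ∧ (1 < wt k i j → ex k 0 2 i j = 0 ∧ wt k i j = ex k 2 2 i j) ∧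
      (1 < wt k' i j → ex k 0 0 i j = 0 ∧ wt k' i j = ex k 0 2 i j) ∧
      (¬ (i ∈ I ↔ j ∈ I) → ex k 0 0 i j = 1) := fun i j => by
    have a := abs_le.1 (op.lv i)
    have b := abs_le.1 (op.lv j)
    rw [op.wt, op.mem, op.mem]
    simp only [ex, wt, abs_eq_max_neg]
    split_ifs <;> omega
  have o : ∀ {e : Ix n → Ix n → ℤ} (r : Rad fun i j => (p : ℝ) ^ (-e i j)),
      IsOpen (Gr p r : Set (HQ n p)) := fun r => by
    rw [coe_Gr]
    exact GP_opn _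
  have l1 : Gr p r1 ≤ Gr p r2 := fun g hg => (mem_Gr _ g).2 (GP_mono
    (fun i j => mul_le_mul_of_nonneg_left (d i j).1 n0) ((mem_Gr _ g).1 hg))
  have l2 : Gr p r2 ≤ Gr p r3 := fun g hg => (mem_Gr _ g).2 (GP_mono
    (fun i j => mul_le_mul_of_nonneg_left (d i j).2.1 n0) ((mem_Gr _ g).1 hg))
  have l3 : (Gr p r3 : Set (HQ n p)) ⊆ KI p I r := fun g hg => GP_KI
    (fun i j => mul_nonneg n0 (d i j).2.2.1) (fun i j v => by simp [(d i j).2.2.2.2.2.2 v])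
    ((mem_Gr _ g).1 hg)
  have u1 : V p k ≤ Gr p r2 := fun g hg => (mem_Gr _ g).2
    (V_GP (e := fun i j => r * ex k 0 2 i j) hg fun i j w => by simp [((d i j).2.2.2.2.1 w).1])
  have u2 : V p k' ≤ Gr p r3 := fun g hg => (mem_Gr _ g).2
    (V_GP (e := fun i j => r * ex k 0 0 i j) hg fun i j w => by simp [((d i j).2.2.2.2.2.1 w).1])
  have s1 := lemP hκ (Vn_me (k := k) (r := r)) (o r1) (o r2) u1 l1
    (fun h hh => (l3 (l2 hh)).1) (fun u hu h => Vn_of (e := fun i j => r * ex k 2 2 i j) hu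
      (fun i j w => by rw [← ((d i j).2.2.2.2.1 w).2]) ((mem_Gr _ u).1 h)) mQ oO hO inj g1 g2 lam y
  have s2 := g4 _ (orb_opn (o r2) oO y).measurableSet fun u hu x hx =>
    orb_inv (inv_mem (u1 hu)) (by rwa [inv_smul_smul])
  have s3 := lemP hκ' (Vn_me (k := k') (r := r)) (o r2) (o r3) u2 l2
    (fun h hh => (l3 hh).1) (fun u hu h => Vn_of (e := fun i j => r * ex k 0 2 i j) hu
      (fun i j w => by rw [← ((d i j).2.2.2.2.2.1 w).2]) ((mem_Gr _ u).1 h)) mQ oO hO inj .univ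
      (fun _ _ _ _ => trivial) lam y
  rw [inter_univ, inter_univ] at s3
  simp only [fun i j => (d i j).2.2.2.1]
  rw [coe_Gr] at s1
  refine (mul_le_mul_right s1 _).trans ?_
  rw [mul_left_comm]
  refine mul_le_mul_right (s2.trans (s3.trans (mul_le_mul_right (measure_mono ?_) _))) _
  exact fun z ⟨h, hh, r⟩ => ⟨h, l3 hh, r⟩

end Pool.Agent.Lib.MP_9177b7_ag.SO
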