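import Pool.Agent.Lib.MP_9177b7_ag.SO.StC
import Pool.Agent.Lib.MP_9177b7_ag.SO.Fr0
import Pool.Agent.Lib.MP_9177b7_ag.B.PLv
import Pool.Agent.Lib.MP_9177b7_ag.B.Den

/-!
Sizes and congruences of the invariants of good vectors.
-/

open NumberField Finset
open scoped ComplexConjugate

noncomputable section

namespace Pool.Agent.Lib.MP_9177b7_ag.SO

open B (CgN denN)

namespace Size

theorem pow_dvd {p K : ℕ} [Fact p.Prime] {a b : ℤ} (h : (p : ℤ) ^ K ∣ a * b) :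
    (p : ℤ) ^ ((K + 1) / 2) ∣ a ∨ (p : ℤ) ^ ((K + 1) / 2) ∣ b := by
  by_cases ha : a = 0
  · simp [ha]
  by_cases hb : b = 0
  · simp [hb]
  rw [padicValInt_dvd_iff, padicValInt.mul ha hb] at h
  simp only [padicValInt_dvd_iff, ha, hb, false_or, mul_eq_zero] at h ⊢
  omega

theorem tr_sum (M : Type) [Field M] [NumberField M] (x : M) :
    ((Algebra.trace ℚ M x : ℚ) : ℂ) = ∑ σ : M →+* ℂ, σ x := by
  have := trace_eq_sum_embeddings ℂ (K := ℚ) (L := M) (x := x)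
  rw [eq_ratCast] at this
  rw [this]
  exact (Fintype.sum_equiv (RingHom.equivRatAlgHom M ℂ) _ _ fun σ => rfl).symm

theorem nm_prod (M : Type) [Field M] [NumberField M] (x : M) :
    ((Algebra.norm ℚ x : ℚ) : ℂ) = ∏ σ : M →+* ℂ, σ x := by
  have := Algebra.norm_eq_prod_embeddings ℚ ℂ x
  rw [eq_ratCast] at this
  rw [this]
  exact (Fintype.prod_equiv (RingHom.equivRatAlgHom M ℂ) _ _ fun σ => rfl).symm

variable {n p : ℕ} [Fact p.Prime] {c : Ctx n p} {D : Dat c} {C : ℝ}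

theorem trE (x : D.F) : Algebra.trace ℚ D.E (x : D.E) = 2 * Algebra.trace ℚ D.F x := by
  rw [← Algebra.trace_trace (S := D.F), show (x : D.E) = algebraMap D.F D.E x from rfl,
    Algebra.trace_algebraMap, Fr0.h2, map_nsmul, nsmul_eq_mul, Nat.cast_ofNat]

theorem real {η : D.F} {y : D.E} {q₀ t : ℤ} {R : ℝ} (he : (η : D.E) = D.lam * y * D.bar y)
    (hD : 0 < D.Dn) (ht : Algebra.trace ℚ D.F η = ((D.Dn * q₀ - c.h * t ^ 2 : ℤ) / D.Dn : ℚ))
    (hq : |((2 * q₀ : ℤ) : ℝ)| ≤ R) (hφ : ‖D.φ η‖ ≤ R) :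
    2 * c.h * (t : ℝ) ^ 2 ≤ 3 * R * D.Dn ∧ ∀ σ : D.E →+* ℂ, ‖σ η‖ ≤ 3 * R := by
  classical
  have hR : 0 ≤ R := (abs_nonneg _).trans hq
  have hD' : (0 : ℝ) < D.Dn := by exact_mod_cast hD
  have re : ∀ σ : D.E →+* ℂ, σ η = ((σ D.lam).re * Complex.normSq (σ y) : ℝ) := fun σ => by
    have h1 : conj (σ D.lam) = σ D.lam := by
      rw [← IsCMField.complexEmbedding_complexConj, D.sp.real]
    rw [he, map_mul, map_mul, IsCMField.complexEmbedding_complexConj, mul_assoc, Complex.mul_conj,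
      Complex.ofReal_mul, Complex.conj_eq_iff_re.1 h1]
  have nr : ∀ σ : D.E →+* ℂ, ‖σ η‖ = |(σ η).re| := fun σ => by
    rw [re, Complex.norm_real, Complex.ofReal_re, Real.norm_eq_abs]
  have h1 : |(D.φ η).re| ≤ R := nr _ ▸ hφ
  have h2 : |(ComplexEmbedding.conjugate D.φ η).re| ≤ R := by
    rwa [ComplexEmbedding.conjugate_coe_eq, Complex.conj_re]
  have h3 : ∀ σ : D.E →+* ℂ, σ ≠ D.φ → σ ≠ ComplexEmbedding.conjugate D.φ → 0 ≤ (σ η).re :=
    fun σ a b => by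
      rw [re, Complex.ofReal_re]
      exact mul_nonneg (D.sp.pos σ a b).le (Complex.normSq_nonneg _)
  set b : (D.E →+* ℂ) → ℝ := fun σ => (σ η).re + ((if σ = D.φ then R else 0) +
    if σ = ComplexEmbedding.conjugate D.φ then R else 0) with hb
  have b0 : ∀ σ, 0 ≤ b σ := fun σ => by
    have := abs_le.1 h1
    have := abs_le.1 h2
    simp only [hb]
    split_ifs with k k' k'
    · rw [k]; linarith
    · rw [k]; linarith
    · rw [k']; linarith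
    · linarith [h3 σ k k']
  have bs : ∑ σ, b σ = 2 * q₀ - 2 * c.h * (t : ℝ) ^ 2 / D.Dn + 2 * R := by
    have e := congrArg Complex.re (tr_sum D.E η)
    rw [trE, ht, Complex.re_sum, Complex.ratCast_re] at e
    simp only [hb, sum_add_distrib, sum_ite_eq', mem_univ, if_true, ← e]
    push_cast
    field_simp
    ring
  have hq' := abs_le.1 hq
  push_cast at hq'
  have s0 : 0 ≤ ∑ σ, b σ := sum_nonneg fun σ _ => b0 σ
  have t0 : 0 ≤ 2 * c.h * (t : ℝ) ^ 2 / D.Dn := by positivity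
  refine ⟨(div_le_iff₀ hD').1 (by linarith), fun σ => ?_⟩
  by_cases k : σ = D.φ
  · rw [k]; linarith
  by_cases k' : σ = ComplexEmbedding.conjugate D.φ
  · rw [nr, k']; linarith
  have := single_le_sum (fun σ _ => b0 σ) (mem_univ σ)
  rw [nr, abs_of_nonneg (h3 σ k k')]
  simp only [hb, k, k', if_false] at this
  linarith

theorem ne_cn {I : Finset (Ix n)} (hI : Adm I) {i : Ix n} (hi : i ∈ I) : i ≠ cn n := by
  rintro rfl
  refine (hI.2 _ hi).2 (Fin.ext ?_)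
  simp only [Fin.val_rev, cn]
  omega

theorem adm_all : Adm (univ.erase (cn n)) := by
  refine ⟨⟨0, by simp [cn, Fin.ext_iff]⟩, fun i hi => ?_⟩
  simp only [mem_erase, mem_univ, and_true, ne_eq, Fin.ext_iff, Fin.val_rev, cn] at hi ⊢
  omega

theorem sum_bar {I : Finset (Ix n)} (hI : Adm I) (y : D.E) :
    ∑ i ∈ I, D.ψ i (D.bar y) = ∑ i ∈ I, D.ψ i y :=
  sum_bij' (fun i _ => i.rev) (fun i _ => i.rev) (fun i hi => (hI.2 i hi).1)
    (fun i hi => (hI.2 i hi).1) (fun i _ => i.rev_rev) (fun i _ => i.rev_rev)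
    fun i hi => (D.ψ_rev i y (ne_cn hI hi)).symm

theorem pad (hP : B.PadStmt) (A : D.Ar C) :
    (∀ b : Ix n → ℤ, ∃ y : 𝓞 D.E, ∀ i, i ≠ cn n → ‖D.ψ i y - b i‖ ≤ ((p : ℝ) ^ 1)⁻¹) ∧
    (∀ x : D.E, ∑ i ∈ univ.erase (cn n), D.ψ i x = (Algebra.trace ℚ D.E x : ℚ)) ∧
    (∀ y : 𝓞 D.E, ∃ z : 𝓞 D.F, ((z : D.F) : D.E) = y + D.bar y) ∧
    ∀ a i, i ≠ cn n → ‖D.ψ i (A.B.u a)‖ ≤ 1 := by
  obtain ⟨P1, P2, P3⟩ := (hP D.E p).2 {i // i ≠ cn n} (fun i => D.ψ i)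
    fun i j e => Subtype.ext (D.ψ_inj _ _ i.2 j.2 e)
  have tr := (P3 (by rw [A.rankE]; simp)).1
  have c1 := IsCMField.complexConj_ne_one D.E
  have fx : ∀ y : 𝓞 D.E, ∃ z : 𝓞 D.F, ((z : D.F) : D.E) = y + D.bar y := fun y => by
    obtain ⟨z, hz⟩ := S4.Quad.fixO Fr0.h2 c1 (x := y + S4.Quad.oa (IsCMField.complexConj D.E) y)
      (by rw [map_add, S4.Quad.oa_oa Fr0.h2 c1, add_comm])
    exact ⟨z, congrArg (fun w : 𝓞 D.E => (w : D.E)) hz⟩
  refine ⟨fun b => ?_, fun x => ?_, fx, fun a i hi => P2 _ (fun y => ?_) ⟨i, hi⟩⟩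
  · obtain ⟨y, hy⟩ := P1 (fun i => b i) 1
    exact ⟨y, fun i hi => hy ⟨i, hi⟩⟩
  · rw [← tr]
    exact sum_subtype _ (by simp) fun i => D.ψ i x
  · obtain ⟨z, hz⟩ := fx y
    have e : Algebra.trace D.F D.E y = z := (algebraMap D.F D.E).injective <| by
      rw [S4.Quad.trace_eq Fr0.h2 c1]
      exact hz.symm
    have e' : A.B.u a = B.Den.T A.B (Pi.single a 1) := by simp [B.Den.T_apply, Pi.single_apply]
    rw [tr, ← Algebra.trace_trace (S := D.F), show (A.B.u a : D.E) * y = A.B.u a • (y : D.E) from rfl,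
      map_smul, e, smul_eq_mul, e', B.Den.tr_Tx, Rat.cast_intCast]
    exact Padic.norm_int_le_one _

theorem norm_two (c : Ctx n p) : ‖(2 : ℚ_[p])‖ = 1 := by
  have := (Padic.norm_natCast_eq_one_iff (p := p) (n := 2)).2
    ((Nat.coprime_primes Fact.out Nat.prime_two).2 c.p2)
  simpa using this

theorem unit (hP : B.PadStmt) (A : D.Ar C) {I : Finset (Ix n)} (hI : Adm I) {i' : Ix n}
    (h1 : i' ≠ cn n) (h2 : i' ∉ I) : ∃ a : Fin n, ‖∑ i ∈ I, D.ψ i (A.B.u a.succ)‖ = 1 := by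
  obtain ⟨P1, tr, fx, hu⟩ := pad hP A
  obtain ⟨i, hi⟩ := hI.1
  set e : Fin (n + 1) → ℚ_[p] := fun a => ∑ i ∈ I, D.ψ i (A.B.u a) with he
  have c1 : ∀ a, ‖e a‖ ≤ 1 := fun a => B.PLv.sum_le zero_le_one fun i hi => hu a i (ne_cn hI hi)
  by_contra h
  have p1 : ((p : ℝ) ^ 1)⁻¹ < 1 := inv_lt_one_of_one_lt₀ (by
    rw [pow_one]; exact_mod_cast (Fact.out : p.Prime).one_lt)
  have c2 : ∀ a : Fin n, ‖e a.succ‖ ≤ ((p : ℝ) ^ 1)⁻¹ := fun a => by
    rw [← zpow_natCast, ← zpow_neg, Padic.norm_le_pow_iff_norm_lt_pow_add_one]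
    simpa using (c1 _).lt_of_ne fun e => h ⟨a, e⟩
  obtain ⟨y, hy⟩ := P1 (Pi.single i 1 - Pi.single i' 1)
  obtain ⟨z, hz⟩ := fx y
  obtain ⟨v, hv⟩ := B.Den.exists_T A.B (τ := z) (FractionalIdeal.one_le_dual_one ℤ ℚ
    (FractionalIdeal.coe_mem_one _ z))
  have s2 : ∀ J, Adm J → ∑ j ∈ J, D.ψ j (z : D.F) = 2 * ∑ j ∈ J, D.ψ j y := fun J hJ => by
    simp only [hz, map_add, sum_add_distrib, sum_bar hJ, two_mul]
  have k1 := B.PLv.sum_le (s := univ.erase (cn n)) (by positivity)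
    fun j hj => hy j (ne_cn adm_all hj)
  have k2 := B.PLv.sum_le (s := I) (by positivity) fun j hj => hy j (ne_cn hI hj)
  rw [sum_sub_distrib, ← Int.cast_sum] at k1 k2
  simp only [Pi.sub_apply, sum_sub_distrib, sum_pi_single', mem_erase, mem_univ, hi, h1, h2,
    ne_cn hI hi, ne_eq, not_false_eq_true, and_self, if_true, if_false, sub_self, Int.cast_zero,
    sub_zero, Int.cast_one] at k1 k2
  have t1 := s2 _ adm_all
  have t2 := s2 _ hI
  have t0 : Algebra.trace ℚ D.F z = v 0 := by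
    have := B.Den.tr_T A.B v 0
    rwa [A.B.one, ← hv, show ((1 : 𝓞 D.F) : D.F) = 1 from rfl, mul_one] at this
  rw [tr, trE, t0, Rat.cast_mul, Rat.cast_ofNat, Rat.cast_intCast] at t1
  rw [← mul_left_cancel₀ two_ne_zero t1] at k1
  have t3 : ∑ j ∈ I, D.ψ j (z : D.F) = v 0 * e 0 + ∑ a : Fin n, v a.succ * e a.succ := by
    rw [hv, B.Den.T_apply, ← Fin.sum_univ_succ fun a => (v a : ℚ_[p]) * e a]
    simp only [he, mul_sum]
    rw [sum_comm]
    refine sum_congr rfl fun j _ => ?_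
    change D.ψ j (algebraMap D.F D.E _) = _
    simp only [map_sum, map_mul, map_intCast]
    rfl
  have k3 : ‖2 * ∑ j ∈ I, D.ψ j y - 2‖ ≤ ((p : ℝ) ^ 1)⁻¹ := by
    rw [← mul_sub_one, norm_mul, norm_two c, one_mul]
    exact k2
  rw [← t2, t3] at k3
  have h3 := B.PLv.sub_le (B.PLv.sub_le k3 ((norm_mul_le _ (e 0)).trans
    ((mul_le_of_le_one_right (norm_nonneg _) (c1 _)).trans k1)))
    (B.PLv.sum_le (s := univ) (f := fun a : Fin n => (v a.succ : ℚ_[p]) * e a.succ) (by positivity)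
      fun a _ => (norm_mul_le _ _).trans
        ((mul_le_of_le_one_left (norm_nonneg _) (Padic.norm_int_le_one _)).trans (c2 a)))
  rw [show ∀ x y : ℚ_[p], x + y - 2 - x - y = -2 from fun x y => by ring, norm_neg,
    norm_two c] at h3
  exact absurd h3 p1.not_ge

theorem box (hC : CoStmt) (hX : FrameStmt) {κ R : ℝ} (A : D.Ar C) (S : SD n p c.h κ)
    (hm : A.Match S) {f : D.Fr} {v : Ix n → ℤ} {t : ℤ} {k : Fin n → ℤ} {g : Ideal (𝓞 D.E)}
    (h : A.Inv f v S.q₀ t k g) (h1 : |((bf c.A v v : ℤ) : ℝ)| ≤ R) (h2 : ‖D.φ (f.eta v)‖ ≤ R) :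
    |(t : ℝ)| ≤ (n + 1) * (3 * |R| + 1) ^ (n + 1) * √(S.D : ℝ) ∧
    (∀ i, |((S.c i * S.nt t + S.D * k i : ℤ) : ℝ)| ≤
      (n + 1) * (3 * |R| + 1) ^ (n + 1) * S.D * S.w i) ∧
    S.NQ (S.nt t) k ≠ 0 ∧ (S.NQ (S.nt t) k : ℝ) ≤ (n + 1) * (3 * |R| + 1) ^ (n + 1) * S.X := by
  have nt : S.nt t = A.nt S.q₀ t := by rw [SD.nt, hm.hD]; rfl
  obtain ⟨-, -, -, -, -, l0, D0, -⟩ := hX n p c D
  obtain ⟨c1, c2, -, c4, -⟩ := (hC n p c D C A).2 (A.nt S.q₀ t) k
  have hD := Nat.pos_of_ne_zero D0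
  have hD' : (0 : ℝ) < D.Dn := by exact_mod_cast hD
  have hR : 0 ≤ R := (abs_nonneg _).trans h1
  rw [h.q] at h1
  obtain ⟨r1, r2⟩ := real (q₀ := S.q₀) (t := t) h.eta hD c1 h1 (h.eta ▸ h2)
  rw [nt, SD.X, hm.hD, hm.hF, hm.hc, hm.hw, hm.hN, abs_of_nonneg hR]
  set η := A.et (A.nt S.q₀ t) k with hη
  set ρ := 3 * R + 1 with hρ
  have ρ1 : 1 ≤ ρ := by linarith
  have ρ2 : ρ ≤ ρ ^ (n + 1) := le_self_pow₀ ρ1 n.succ_ne_zero
  have n1 : (1 : ℝ) ≤ n + 1 := by simp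
  have ρ3 : ρ ^ (n + 1) ≤ (n + 1) * ρ ^ (n + 1) := le_mul_of_one_le_left (by positivity) n1
  have lf : ∀ (σ : D.F →+* ℂ) (x : D.F), σ x = ComplexEmbedding.lift D.E σ x := fun σ x =>
    (ComplexEmbedding.lift_algebraMap_apply D.E σ x).symm
  have r3 : ∀ σ : D.F →+* ℂ, ‖σ η‖ ≤ ρ := fun σ => by
    rw [lf]
    linarith [r2 (ComplexEmbedding.lift D.E σ)]
  have cd : Fintype.card (D.F →+* ℂ) = n + 1 := by rw [Embeddings.card, A.rankF]
  have e4 := congrArg (fun x : ℚ => (x : ℝ)) c4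
  simp only [Rat.cast_natCast, Rat.cast_mul, Rat.cast_abs] at e4
  refine ⟨?_, fun i => ?_, fun e => ?_, ?_⟩
  · have h0 : (1 : ℝ) ≤ c.h := by exact_mod_cast A.h_pos
    have : |(t : ℝ)| ≤ ρ * √(D.Dn : ℝ) := by
      refine abs_le_of_sq_le_sq ?_ (by positivity)
      rw [mul_pow, Real.sq_sqrt hD'.le]
      have : 3 * R * D.Dn ≤ ρ ^ 2 * D.Dn := by gcongr; nlinarith
      nlinarith [sq_nonneg (t : ℝ)]
    exact this.trans (by gcongr; linarith)
  · have e := congrArg norm (tr_sum D.F (η * A.B.ω i.succ))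
    rw [c2, Complex.norm_ratCast] at e
    have w0 : 0 ≤ A.w i := zero_le_one.trans (A.w1 i)
    have : ‖∑ σ : D.F →+* ℂ, σ (η * A.B.ω i.succ)‖ ≤ (n + 1) * (ρ * A.w i) := by
      refine (norm_sum_le _ _).trans ((sum_le_card_nsmul _ _ (ρ * A.w i) fun σ _ => ?_).trans ?_)
      · rw [map_mul, norm_mul]
        exact mul_le_mul (r3 σ) (by rw [lf]; exact A.w_bd i _) (norm_nonneg _) (by positivity)
      · rw [card_univ, cd, nsmul_eq_mul, Nat.cast_succ]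
    rw [← e] at this
    push_cast at this ⊢
    rw [abs_div, abs_of_pos hD', div_le_iff₀ hD'] at this
    calc _ ≤ _ := this
      _ = (n + 1) * ρ * D.Dn * A.w i := by ring
      _ ≤ _ := by gcongr
  · have e' : Ideal.absNorm (A.jd η) = 0 := e
    have h0 : D.lam * f.y v * D.bar (f.y v) ≠ 0 :=
      mul_ne_zero (mul_ne_zero l0 h.ne) ((map_ne_zero _).2 h.ne)
    have h3 : η ≠ 0 := fun e => h0 (by rw [← Dat.Fr.eta, ← h.eta, ← hη, e]; rfl)
    have h4 : D.dF ≠ 0 := Int.natAbs_ne_zero.2 (discr_ne_zero _)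
    rw [e'] at c4
    have : |Algebra.norm ℚ η| * D.Dn * D.dF ≠ 0 := by
      have := (Algebra.norm_ne_zero_iff (R := ℚ)).2 h3
      positivity
    exact this (by exact_mod_cast c4.symm)
  · have e := congrArg norm (nm_prod D.F η)
    rw [Complex.norm_ratCast, norm_prod] at e
    have : |((Algebra.norm ℚ η : ℚ) : ℝ)| ≤ ρ ^ (n + 1) := by
      rw [e, ← cd, ← card_univ, ← prod_const]
      exact prod_le_prod (fun _ _ => norm_nonneg _) fun σ _ => r3 σ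
    change (Ideal.absNorm (A.jd η) : ℝ) ≤ _
    rw [e4, mul_assoc]
    gcongr
    linarith

end Size

open Size in
theorem size (hP : B.PadStmt) (hC : CoStmt) (hX : FrameStmt) : SizeStmt := by
  classical
  intro n R
  refine ⟨(n + 1) * (3 * |R| + 1) ^ (n + 1), ?_⟩
  intro p _ c D C κ A S I c₀ K U hm hI hU
  have nt : ∀ t, S.nt t = A.nt S.q₀ t := fun t => by rw [SD.nt, hm.hD]; rfl
  have hb := fun u hu => (hU u hu).elim fun f h => h.elim fun v h => h.elim fun g h =>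
    box hC hX A S hm h.1 h.2.2.1 h.2.2.2.1
  have hc : ∀ u ∈ U, ‖∑ i ∈ I, D.ψ i (A.et (A.nt S.q₀ u.1) u.2) - c.κ * c₀‖ ≤ ((p : ℝ) ^ K)⁻¹ :=
    fun u hu => by
      obtain ⟨f, v, g, h, -, -, -, h'⟩ := hU u hu
      rwa [h.eta]
  obtain ⟨-, tr, -, hu⟩ := pad hP A
  have hp1 : (1 : ℝ) ≤ p := by exact_mod_cast (Fact.out : p.Prime).pos
  have nD : ‖(D.Dn : ℚ_[p])‖ = 1 :=
    Padic.norm_natCast_eq_one_iff.2 ((Fact.out : p.Prime).coprime_iff_not_dvd.2 A.pD)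
  by_cases hI' : I = univ.erase (cn n)
  · rcases U.eq_empty_or_nonempty with rfl | ⟨u₀, h₀⟩
    · exact ⟨∅, ∅, by simp, ⟨by simp, .inl ⟨0, by simp⟩⟩, by simp, .inl ⟨0, by simp⟩⟩
    refine ⟨U.filter fun u => (p : ℤ) ^ ((K + 1) / 2) ∣ u.1 - u₀.1,
      U.filter fun u => (p : ℤ) ^ ((K + 1) / 2) ∣ u.1 - -u₀.1, fun u hu' => ?_,
      ⟨fun u h => hb u (mem_filter.1 h).1, .inl ⟨_, fun u h => (mem_filter.1 h).2⟩⟩,
      fun u h => hb u (mem_filter.1 h).1, .inl ⟨_, fun u h => (mem_filter.1 h).2⟩⟩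
    have h := B.PLv.sub_le (hc u₀ h₀) (hc u hu')
    have D0 : (D.Dn : ℚ_[p]) ≠ 0 := norm_ne_zero_iff.1 (by rw [nD]; exact one_ne_zero)
    rw [hI', tr, tr, trE, trE, ((hC n p c D C A).2 _ _).1, ((hC n p c D C A).2 _ _).1,
      sub_sub_sub_cancel_right] at h
    have e : ((2 * ((A.nt S.q₀ u₀.1 : ℚ) / D.Dn) : ℚ) : ℚ_[p]) -
        ((2 * ((A.nt S.q₀ u.1 : ℚ) / D.Dn) : ℚ) : ℚ_[p]) =
        ((2 * c.h : ℕ) : ℚ_[p]) * (((u.1 - u₀.1) * (u.1 - -u₀.1) : ℤ) : ℚ_[p]) / D.Dn := by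
      simp only [Dat.Ar.nt]
      push_cast
      field_simp
      ring
    have nh : ‖((2 * c.h : ℕ) : ℚ_[p])‖ = 1 :=
      Padic.norm_natCast_eq_one_iff.2 ((Fact.out : p.Prime).coprime_iff_not_dvd.2 fun k =>
        c.pd (Int.natCast_dvd.2 (A.two_h ▸ k)))
    rw [e, norm_div, norm_mul, nD, nh, one_mul, div_one, B.PLv.int_le, Nat.cast_pow] at h
    simpa only [mem_union, mem_filter, hu', true_and] using pow_dvd h
  obtain ⟨i', h1, h2⟩ : ∃ i', i' ≠ cn n ∧ i' ∉ I := by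
    by_contra! k
    exact hI' (Finset.ext fun i => ⟨fun h => by simpa using ne_cn hI h, fun h => k i (by simpa using h)⟩)
  obtain ⟨a, ha⟩ := unit hP A hI h1 h2
  set e : Fin (n + 1) → ℚ_[p] := fun a => ∑ i ∈ I, D.ψ i (A.B.u a) with he
  have c1 : ∀ a, ‖e a‖ ≤ 1 := fun a => B.PLv.sum_le zero_le_one fun i hi => hu a i (ne_cn hI hi)
  set e' : ℚ_[p] := (e 0 + ∑ i, A.cc i * e i.succ) / D.Dn with he'
  have c2 : ‖e'‖ ≤ 1 := by
    rw [he', norm_div, nD, div_one]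
    refine (IsUltrametricDist.norm_add_le_max _ _).trans (max_le (c1 0)
      (B.PLv.sum_le zero_le_one fun i _ => ?_))
    rw [norm_mul]
    exact mul_le_one₀ (Padic.norm_int_le_one _) (norm_nonneg _) (c1 _)
  have l : ∀ N k, ∑ i ∈ I, D.ψ i (A.et N k) = N * e' + ∑ a, k a * e a.succ := fun N k => by
    have : ∀ i, D.ψ i (A.et N k) = N * ((D.ψ i (A.B.u 0) + ∑ a, A.cc a * D.ψ i (A.B.u a.succ)) /
        D.Dn) + ∑ a, k a * D.ψ i (A.B.u a.succ) := fun i => by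
      change D.ψ i (algebraMap D.F D.E (A.et N k)) = _
      simp only [Dat.Ar.et, map_add, map_mul, map_sum, map_intCast, map_div₀, map_natCast]
      rfl
    simp only [this, sum_add_distrib, ← mul_sum, ← sum_div, he', he]
    simp only [mul_sum]
    rw [sum_comm, sum_comm (s := I)]
  have reg : S.Reg ((n + 1) * (3 * |R| + 1) ^ (n + 1)) ((K + 1) / 2) U := by
    refine ⟨hb, .inr ⟨fun j N k => ‖∑ i ∈ I, D.ψ i (A.et N k) - c.κ * c₀‖ ≤ ((p : ℝ) ^ j)⁻¹,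
      fun j N N' k k' hN hk h => ?_, fun j N => ?_, fun i j N k hij h => h.trans ?_,
      fun u hu' => ?_⟩⟩
    · have := B.PLv.sub_le (B.PLv.sub_le h (y := ((N - N' : ℤ) : ℚ_[p]) * e') (by
        rw [norm_mul]
        exact (mul_le_of_le_one_right (norm_nonneg _) c2).trans
          ((B.PLv.int_le _ _).2 (by exact_mod_cast hN))))
        (B.PLv.sum_le (s := univ) (f := fun a => ((k a - k' a : ℤ) : ℚ_[p]) * e a.succ)
          (by positivity) fun a _ => by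
            rw [norm_mul]
            exact (mul_le_of_le_one_right (norm_nonneg _) (c1 _)).trans
              ((B.PLv.int_le _ _).2 (hk a)))
      convert this using 2
      simp only [l, Int.cast_sub, sub_mul, sum_sub_distrib]
      ring
    · convert B.PLv.main (fun a : Fin n => e a.succ) (c.κ * c₀ - N * e') j a ha using 6 with k
      rw [l]
      ring
    · gcongr
    · rw [nt]
      refine (hc u hu').trans ?_
      gcongr
      omega
  exact ⟨U, U, by simp, reg, reg⟩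

end Pool.Agent.Lib.MP_9177b7_ag.SO
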