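import Pool.Agent.Lib.MP_9177b7_ag.SO.Defs
import Pool.Agent.Lib.MP_9177b7_ag.B.StA

/-!
Measures invariant under the diagonal group of the split group `SO_{2 n + 3}(ℚ_p)`: statements.
-/

open MeasureTheory ProbabilityTheory Filter Topology Set Matrix
open scoped ENNReal

noncomputable section

namespace Pool.Agent.Lib.MP_9177b7_ag.SO

section inst

variable {N : ℕ} {F : Type}

instance ortMeas [CommRing F] [TopologicalSpace F] (B : Matrix (Fin N) (Fin N) F) :
    MeasurableSpace (Ort B) := borel _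

instance ortBorel [CommRing F] [TopologicalSpace F] (B : Matrix (Fin N) (Fin N) F) :
    BorelSpace (Ort B) := ⟨rfl⟩

theorem ortClosed [NormedField F] (B : Matrix (Fin N) (Fin N) F) :
    IsClosed (Ort B : Set (SpecialLinearGroup (Fin N) F)) :=
  isClosed_eq (f := fun g : SpecialLinearGroup (Fin N) F => g.1ᵀ * B * g.1)
    (((continuous_subtype_val.matrix_transpose).matrix_mul continuous_const).matrix_mul
      continuous_subtype_val) continuous_const

instance ortPolish [NormedField F] [ProperSpace F] (B : Matrix (Fin N) (Fin N) F) :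
    PolishSpace (Ort B) :=
  haveI : PolishSpace (Matrix (Fin N) (Fin N) F) :=
    inferInstanceAs (PolishSpace (Fin N → Fin N → F))
  haveI : PolishSpace (SpecialLinearGroup (Fin N) F) :=
    Matrix.SpecialLinearGroup.isClosedEmbedding_val.polishSpace
  (ortClosed B).polishSpace

instance ortLC [NormedField F] [ProperSpace F] (B : Matrix (Fin N) (Fin N) F) :
    LocallyCompactSpace (Ort B) :=
  haveI : LocallyCompactSpace (Matrix (Fin N) (Fin N) F) :=
    inferInstanceAs (LocallyCompactSpace (Fin N → Fin N → F))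
  haveI : LocallyCompactSpace (SpecialLinearGroup (Fin N) F) :=
    Matrix.SpecialLinearGroup.isClosedEmbedding_val.locallyCompactSpace
  (ortClosed B).locallyCompactSpace

end inst

/-- The index set. -/
abbrev Ix (n : ℕ) : Type := Fin (2 * n + 3)

/-- Square matrices. -/
abbrev Mx (n : ℕ) (R : Type) : Type := Matrix (Ix n) (Ix n) R

/-- The split form `∑ x_i y_{rev i}`. -/
def Jr (n : ℕ) (R : Type) [CommRing R] : Mx n R := Matrix.of fun i j => if j = i.rev then 1 else 0

/-- The admissible index sets of tubes. -/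
def Adm {n : ℕ} (I : Finset (Ix n)) : Prop := I.Nonempty ∧ ∀ i ∈ I, i.rev ∈ I ∧ i.rev ≠ i

/-- `h` is supported on the positions of the root attached to `(i, j)`. -/
def RootEl {n : ℕ} {R : Type} [CommRing R] (i j : Ix n) (h : Mx n R) : Prop :=
  i ≠ j ∧ i ≠ i.rev ∧ j ≠ i.rev ∧ ∀ a b, ¬ (a = i ∧ b = j) → ¬ (a = j.rev ∧ b = i.rev) →
    ¬ (a = i ∧ b = i.rev) → h a b = (1 : Mx n R) a b

section conc

variable (n p : ℕ) [Fact p.Prime]

/-- The group `SO_{2 n + 3}(ℚ_p)`. -/
abbrev HQ : Type := Ort (Jr n ℚ_[p])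

variable {n}

/-- The diagonal matrix with entries `p ^ (k i - k (rev i))`. -/
def dg (k : Ix n → ℤ) : HQ n p :=
  have hp : (p : ℚ_[p]) ≠ 0 := Nat.cast_ne_zero.2 (Fact.out : p.Prime).ne_zero
  ⟨⟨Matrix.diagonal fun i => (p : ℚ_[p]) ^ (k i - k i.rev), by
    have e : ∀ s : Finset (Ix n), ∏ i ∈ s, (p : ℚ_[p]) ^ (k i - k i.rev) =
        (p : ℚ_[p]) ^ ∑ i ∈ s, (k i - k i.rev) := fun s => by
      induction s using Finset.induction_on with
      | empty => simp
      | insert a s ha ih => rw [Finset.prod_insert ha, Finset.sum_insert ha, ih, zpow_add₀ hp]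
    rw [det_diagonal, e, Finset.sum_sub_distrib,
      show ∑ i : Ix n, k i.rev = ∑ i, k i from Equiv.sum_comp Fin.revPerm k, sub_self, zpow_zero]⟩, by
    change (Matrix.diagonal _)ᵀ * Jr n _ * Matrix.diagonal _ = Jr n _
    ext a b
    rw [diagonal_transpose, mul_diagonal, diagonal_mul]
    simp only [Jr, of_apply]
    split_ifs with h
    · rw [h, mul_one, ← zpow_add₀ hp, Fin.rev_rev]
      simp
    · simp⟩

/-- Integral matrices. -/
def Intg {n p : ℕ} [Fact p.Prime] (h : HQ n p) : Prop := ∀ i j, ‖h.1 i j‖ ≤ 1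

/-- Integral matrices which are block diagonal modulo `p ^ k`. -/
def KI (I : Finset (Ix n)) (k : ℕ) : Set (HQ n p) :=
  {h | Intg h ∧ ∀ i j, ¬ (i ∈ I ↔ j ∈ I) → ‖h.1 i j‖ ≤ ((p : ℝ) ^ k)⁻¹}

variable (n)

/-- A space with an action of `SO_{2 n + 3}(ℚ_p) × C` whose orbits are open. -/
structure Sp where
  C : Type
  X : Type
  [gC : Group C]
  [tC : TopologicalSpace C]
  [tgC : IsTopologicalGroup C]
  [pC : PolishSpace C]
  [tX : TopologicalSpace X]
  [pX : PolishSpace X]
  [lX : LocallyCompactSpace X]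
  [mX : MeasurableSpace X]
  [bX : BorelSpace X]
  [ac : MulAction (HQ n p × C) X]
  [cs : ContinuousSMul (HQ n p × C) X]
  opn : ∀ x : X, IsOpenMap fun g : HQ n p × C => g • x
  inj : ∀ Q : Set X, IsCompact Q → ∃ O ∈ 𝓝 (1 : C), ∀ x ∈ Q, ∀ h : HQ n p, Intg h → ∀ c ∈ O,
    ((h, c) : HQ n p × C) • x = x → h = 1

attribute [instance] Sp.gC Sp.tC Sp.tgC Sp.pC Sp.tX Sp.pX Sp.lX Sp.mX Sp.bX Sp.ac Sp.cs

namespace Sp

variable {n p} (S : Sp n p)

instance : MulAction (HQ n p) S.X := MulAction.compHom S.X (MonoidHom.inl (HQ n p) S.C)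

theorem smul_def (h : HQ n p) (x : S.X) : h • x = ((h, 1) : HQ n p × S.C) • x := rfl

instance : ContinuousSMul (HQ n p) S.X :=
  ⟨show Continuous fun q : HQ n p × S.X => ((q.1, 1) : HQ n p × S.C) • q.2 by fun_prop⟩

/-- Invariance under the diagonal group. -/
def AInv (ν : Measure S.X) : Prop := ∀ k : Ix n → ℤ, ν.map (dg p k • ·) = ν

/-- Tubes around the subgroups `SO_{2 a} × SO_{2 b + 1}` have small measure. -/
def Tube (ν : Measure S.X) : Prop :=
  ∃ O ∈ 𝓝 (1 : S.C), ∃ C₀ κ : ℝ, 0 < κ ∧ ∀ I : Finset (Ix n), Adm I → ∀ (k : ℕ) (x : S.X),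
    ν {y | ∃ h ∈ KI p I k, ∃ c ∈ O, y = ((h, c) : HQ n p × S.C) • x} ≤
      ENNReal.ofReal (C₀ * (p : ℝ) ^ (-(κ * k)))

end Sp

end conc

/-- The measure classification. -/
def DynStmt : Prop :=
  ∀ (n p : ℕ) [Fact p.Prime] (S : Sp n p) (ν : Measure S.X) [IsProbabilityMeasure ν], 1 ≤ n →
    p ≠ 2 → S.AInv ν → S.Tube ν → ∀ (h : HQ n p) (i j : Ix n), RootEl i j h.1.1 →
      ν.map (h • ·) = ν

end Pool.Agent.Lib.MP_9177b7_ag.SO
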