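import Pool.Agent.Lib.MP_9177b7_ag.SO.StA

/-!
Eichler transvections and the `p`-arithmetic quotient of the orthogonal group: statements.
-/

open MeasureTheory Filter Topology Set Matrix
open scoped ENNReal BoundedContinuousFunction

noncomputable section

namespace Pool.Agent.Lib.MP_9177b7_ag.SO

section eich

variable {ι R : Type} [Fintype ι] [DecidableEq ι] [CommRing R] (B : Matrix ι ι R)

/-- The bilinear form. -/
def bf (u v : ι → R) : R := u ⬝ᵥ B *ᵥ v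

/-- The Eichler transvection `x ↦ x + (u, x) v - (v, x) u - q (u, x) u`. -/
def ei (u v : ι → R) (q : R) : Matrix ι ι R :=
  1 + (vecMulVec v u - vecMulVec u v - q • vecMulVec u u) * B

/-- The torus of the hyperbolic plane spanned by `u₀`, `u₁`. -/
def dt (u₀ u₁ : ι → R) (t t' : R) : Matrix ι ι R :=
  1 + ((t - 1) • vecMulVec u₀ u₁ + (t' - 1) • vecMulVec u₁ u₀) * B

/-- A hyperbolic pair. -/
def Hy (u₀ u₁ : ι → R) : Prop := bf B u₀ u₀ = 0 ∧ bf B u₁ u₁ = 0 ∧ bf B u₀ u₁ = 1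

/-- `v` is orthogonal to the pair and `q = Q(v)`. -/
def Pe (u₀ u₁ v : ι → R) (q : R) : Prop := bf B u₀ v = 0 ∧ bf B u₁ v = 0 ∧ bf B v v = 2 * q

end eich

/-- Identities for the transvections and the torus. -/
def EichStmt : Prop :=
  ∀ (N : ℕ) (R : Type) [CommRing R] (B : Matrix (Fin N) (Fin N) R), Bᵀ = B →
    (∀ u v q, bf B u u = 0 → bf B u v = 0 → bf B v v = 2 * q →
      (ei B u v q)ᵀ * B * ei B u v q = B ∧ (ei B u v q).det = 1 ∧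
      ∀ v' q', bf B u v' = 0 → ei B u v q * ei B u v' q' = ei B u (v + v') (q + q' + bf B v v')) ∧
    ∀ u₀ u₁ t t', Hy B u₀ u₁ → t * t' = 1 →
      (dt B u₀ u₁ t t')ᵀ * B * dt B u₀ u₁ t t' = B ∧ (dt B u₀ u₁ t t').det = 1 ∧
      (∀ s s', dt B u₀ u₁ t t' * dt B u₀ u₁ s s' = dt B u₀ u₁ (t * s) (t' * s')) ∧
      ∀ v q, Pe B u₀ u₁ v q →
        dt B u₀ u₁ t t' * ei B u₀ v q = ei B u₀ (t • v) (t ^ 2 * q) * dt B u₀ u₁ t t' ∧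
        dt B u₀ u₁ t t' * ei B u₁ v q = ei B u₁ (t' • v) (t' ^ 2 * q) * dt B u₀ u₁ t t'

/-- The orthogonal group is generated by transvections and a torus. -/
def GenStmt : Prop :=
  ∀ (N : ℕ) (F : Type) [Field F] (B : Matrix (Fin N) (Fin N) F) (u₀ u₁ : Fin N → F)
    (S : Subgroup (Ort B)), (2 : F) ≠ 0 → Bᵀ = B → B.det ≠ 0 → Hy B u₀ u₁ →
    (∀ (g : Ort B) v q, Pe B u₀ u₁ v q → g.1.1 = ei B u₀ v q ∨ g.1.1 = ei B u₁ v q → g ∈ S) →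
    (∀ g : Ort B, ∃ (d : Ort B) (t t' : F), t * t' = 1 ∧ d.1.1 = dt B u₀ u₁ t t' ∧ d⁻¹ * g ∈ S) ∧
    (3 ≤ N → ∀ (d : Ort B) (s s' : F), s * s' = 1 → d.1.1 = dt B u₀ u₁ (s ^ 2) (s' ^ 2) → d ∈ S)

/-- The split group is generated by the root elements and the diagonal elements. -/
def GenJStmt : Prop :=
  ∀ (n p : ℕ) [Fact p.Prime] (S : Subgroup (HQ n p)),
    (∀ (h : HQ n p) i j, RootEl i j h.1.1 → h ∈ S) →
    (∀ h : HQ n p, (∀ i j, i ≠ j → h.1.1 i j = 0) → h ∈ S) → S = ⊤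

/-- The real group is transitive on the period domain. -/
def WittStmt : Prop :=
  ∀ (N : ℕ) (A : Matrix (Fin N) (Fin N) ℤ) (v w : Per A), Aᵀ = A → A.det ≠ 0 → 3 ≤ N →
    ∃ (g : GR A) (c : ℂ), w.1 = c • (act g v).1

/-- The discriminant kernel is transitive on isotropic lines modulo `q`. -/
def TransStmt : Prop :=
  ∀ (n : ℕ) (A : Mx n ℤ) (q : ℕ) (v : Ix n → ℤ), Lat A → q.Coprime (2 * A.det.natAbs) →
    (∀ l : ℕ, l.Prime → l ∣ q → ∃ i, ¬ (l : ℤ) ∣ v i) → (q : ℤ) ∣ bf A v v →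
    ∃ γ ∈ DK A ⊓ Ort A, IsCoprime ((γ.1 *ᵥ v) 0) q ∧ ∀ i, i ≠ 0 → (q : ℤ) ∣ (γ.1 *ᵥ v) i

/-- The orthogonal complement of the negative plane of `v` is positive definite. -/
def PosC {N : ℕ} {A : Matrix (Fin N) (Fin N) ℤ} (v : Per A) : Prop :=
  ∀ y : Fin N → ℝ, y ≠ 0 → bf (Am A ℂ) v.1 (fun i => y i) = 0 → 0 < bf (Am A ℝ) y y

/-- A lattice with a base point and a splitting at `p`. -/
structure Ctx (n p : ℕ) [Fact p.Prime] where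
  A : Mx n ℤ
  v₀ : Per A
  κ : ℚ_[p]
  g₀ : Mx n ℚ_[p]
  g₁ : Mx n ℚ_[p]
  n2 : 2 ≤ n
  lat : Lat A
  pos : PosC v₀
  p2 : p ≠ 2
  pd : ¬ (p : ℤ) ∣ A.det
  κ1 : ‖κ‖ = 1
  inv : g₀ * g₁ = 1
  int₀ : ∀ i j, ‖g₀ i j‖ ≤ 1
  int₁ : ∀ i j, ‖g₁ i j‖ ≤ 1
  gram : κ • (g₀ᵀ * Jr n ℚ_[p] * g₀) = Am A ℚ_[p]

/-- The invariant of the block diagonal group attached to `I`. -/
def mv {n : ℕ} {R : Type} [CommRing R] (I : Finset (Ix n)) (x : Ix n → R) : R :=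
  ∑ i ∈ I, x i * x i.rev

namespace Ctx

variable {n p : ℕ} [Fact p.Prime] (c : Ctx n p)

/-- The group `SO_{2 n + 3}(ℚ_p) × SO(A)(ℝ)`. -/
abbrev GG : Type := HQ n p × GR c.A

/-- The discriminant kernel over `ℤ[1 / p]`, embedded diagonally. -/
def Gp : Subgroup c.GG where
  carrier := {g | ∃ γ ∈ DK (Am c.A (J.RM p)),
    g.1.1.1 * c.g₀ = c.g₀ * γ.1.map ((Rat.castHom ℚ_[p]).comp (J.RM p).subtype) ∧
    g.2.1.1 = γ.1.map ((Rat.castHom ℝ).comp (J.RM p).subtype)}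
  one_mem' := ⟨1, one_mem _, by simp, by simp⟩
  mul_mem' := by
    rintro g h ⟨γ, a1, a2, a3⟩ ⟨δ, b1, b2, b3⟩
    refine ⟨γ * δ, mul_mem a1 b1, ?_, ?_⟩
    · change g.1.1.1 * h.1.1.1 * c.g₀ = c.g₀ * (γ.1 * δ.1).map _
      rw [Matrix.map_mul, mul_assoc, b2, ← mul_assoc, a2, mul_assoc]
    · change g.2.1.1 * h.2.1.1 = (γ.1 * δ.1).map _
      rw [Matrix.map_mul, a3, b3]
  inv_mem' := by
    rintro g ⟨γ, a1, a2, a3⟩
    have e : ∀ {F : Type} [CommRing F] (f : J.RM p →+* F), γ.1.map f * γ⁻¹.1.map f = 1 :=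
      fun f => by
        rw [← Matrix.map_mul, show γ.1 * γ⁻¹.1 = 1 from congrArg Subtype.val (mul_inv_cancel γ),
          Matrix.map_one _ (map_zero f) (map_one f)]
    have e1 : g⁻¹.1.1.1 * g.1.1.1 = 1 := congrArg (·.1.1.1) (inv_mul_cancel g)
    have e2 : g⁻¹.2.1.1 * g.2.1.1 = 1 := congrArg (·.2.1.1) (inv_mul_cancel g)
    refine ⟨γ⁻¹, inv_mem a1, ?_, ?_⟩
    · rw [← mul_one (g⁻¹.1.1.1 * c.g₀), ← e ((Rat.castHom ℚ_[p]).comp (J.RM p).subtype),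
        ← mul_assoc, mul_assoc _ c.g₀, ← a2, ← mul_assoc, e1, one_mul]
    · rw [← mul_one g⁻¹.2.1.1, ← e ((Rat.castHom ℝ).comp (J.RM p).subtype), ← mul_assoc, ← a3, e2,
        one_mul]

/-- The `p`-arithmetic quotient. -/
abbrev XX : Type := c.GG ⧸ c.Gp

/-- Local freeness of the action of the integral points. -/
def Free : Prop :=
  ∀ Q : Set c.XX, IsCompact Q → ∃ O ∈ 𝓝 (1 : GR c.A), ∀ x ∈ Q, ∀ h : HQ n p, Intg h → ∀ u ∈ O,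
    ((h, u) : c.GG) • x = x → h = 1

/-- The `p`-arithmetic quotient as an abstract space. -/
def sp [PolishSpace c.XX] (hf : c.Free) : Sp n p where
  C := GR c.A
  X := c.XX
  opn x := by
    obtain ⟨g, rfl⟩ := QuotientGroup.mk_surjective x
    exact QuotientGroup.isOpenMap_coe.comp (isOpenMap_mul_right g)
  inj := hf

/-- The `p`-adic coordinates of a rational vector. -/
def oq (g : c.GG) (v : Ix n → ℚ) : Ix n → ℚ_[p] := (g.1.1.1 * c.g₀) *ᵥ fun i => v i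

/-- The real coordinates of a rational vector. -/
def oR (g : c.GG) (v : Ix n → ℚ) : Ix n → ℝ := g.2.1.1 *ᵥ fun i => v i

/-- `v` is a short vector of the lattice `g` which satisfies a congruence. -/
structure Good (I : Finset (Ix n)) (c₀ : ℤ) (k : ℕ) (R : ℝ) (g : c.GG) (v : Ix n → ℚ) : Prop where
  ne : v ≠ 0
  den : ∀ i, v i ∈ J.RM p
  int : ∀ i, ‖c.oq g v i‖ ≤ 1
  sz : ∀ i, |c.oR g v i| < R
  cg : ‖mv I (c.oq g v) - c₀‖ ≤ ((p : ℝ) ^ k)⁻¹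

/-- Lattices with at least `K₀` short vectors satisfying a congruence. -/
def Wg (I : Finset (Ix n)) (c₀ : ℤ) (k : ℕ) (R : ℝ) (K₀ : ℕ) : Set c.GG :=
  {g | ∃ s : Finset (Ix n → ℚ), K₀ ≤ s.card ∧ ∀ v ∈ s, c.Good I c₀ k R g v}

/-- The image of `Wg` in the quotient. -/
def WW (I : Finset (Ix n)) (c₀ : ℤ) (k : ℕ) (R : ℝ) (K₀ : ℕ) : Set c.XX :=
  QuotientGroup.mk '' c.Wg I c₀ k R K₀

/-- `π` is the projection onto the real quotient. -/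
structure IsProj (π : c.XX → YY c.A) : Prop where
  cont : Continuous π
  mk' : ∀ g : c.GG, Intg g.1 → π (QuotientGroup.mk g) = QuotientGroup.mk g.2
  smul : ∀ (g : GR c.A) (x : c.XX), π (((1, g) : c.GG) • x) = g • π x

end Ctx

/-- Discreteness and the integral points. -/
def DiscStmt : Prop :=
  ∀ (n p : ℕ) [Fact p.Prime] (c : Ctx n p),
    (∀ g : c.GG, g ∈ c.Gp ↔ ∃ M : Mx n ℚ, (∀ i j, M i j ∈ J.RM p) ∧
      g.1.1.1 * c.g₀ = c.g₀ * (1 + M * Am c.A ℚ).map (Rat.castHom ℚ_[p]) ∧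
      g.2.1.1 = (1 + M * Am c.A ℚ).map (Rat.castHom ℝ)) ∧
    (∀ M γ : Mx n ℚ, (∀ i j, M i j ∈ J.RM p) → γ = 1 + M * Am c.A ℚ →
      γᵀ * Am c.A ℚ * γ = Am c.A ℚ → γ.det = 1 → ∃ g ∈ c.Gp,
        g.1.1.1 * c.g₀ = c.g₀ * γ.map (Rat.castHom ℚ_[p]) ∧ g.2.1.1 = γ.map (Rat.castHom ℝ)) ∧
    (∀ g : GR c.A, g ∈ G1 c.A ↔ ∃ M : Mx n ℤ, g.1.1 = (1 + M * c.A).map (Int.castRingHom ℝ)) ∧
    (∀ g ∈ c.Gp, Intg g.1 → g.2 ∈ G1 c.A) ∧
    (∀ g ∈ G1 c.A, ∃ h : HQ n p, Intg h ∧ (h, g) ∈ c.Gp) ∧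
    (∀ g h : HQ n p, Intg g → Intg h → Intg (g * h)) ∧ (∀ g : HQ n p, Intg g → Intg g⁻¹) ∧
    IsCompact {h : HQ n p | Intg h} ∧ IsOpen {h : HQ n p | Intg h} ∧
    DiscreteTopology c.Gp ∧ DiscreteTopology (G1 c.A) ∧ PolishSpace c.XX ∧
    PolishSpace (YY c.A) ∧ c.Free

/-- Strong approximation at `p`. -/
def DensPStmt : Prop :=
  ∀ (n p : ℕ) [Fact p.Prime] (c : Ctx n p) (h : HQ n p), ∃ γ ∈ c.Gp, Intg (h * γ.1)

/-- Density at the real place. -/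
def DensRStmt : Prop :=
  ∀ (n p : ℕ) [Fact p.Prime] (c : Ctx n p),
    Dense {g : c.GG | ∃ h : HQ n p, ∃ γ ∈ c.Gp, g = (h, 1) * γ}

/-- Unimodularity. -/
def UnimodStmt : Prop :=
  ∀ (n p : ℕ) [Fact p.Prime] (c : Ctx n p),
    (∀ (m : Measure (HQ n p)) [m.IsHaarMeasure], m.IsMulRightInvariant) ∧
    (∀ (m : Measure (GR c.A)) [m.IsHaarMeasure], m.IsMulRightInvariant) ∧
    ∀ (m : Measure c.GG) [m.IsHaarMeasure], m.IsMulRightInvariant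

/-- The projections onto the real quotient and onto the Shimura variety. -/
def ProjStmt : Prop :=
  ∀ (n p : ℕ) [Fact p.Prime] (c : Ctx n p), (∃ π, c.IsProj π) ∧ Continuous (proj c.v₀) ∧
    ∀ (g : GR c.A) (v : Per c.A) (z : ℂ), v.1 = z • (act g⁻¹ c.v₀).1 →
      proj c.v₀ (QuotientGroup.mk g) = Quot.mk _ v

/-- Every lattice has a short vector; in the cusp it has many. -/
def MahlerStmt : Prop :=
  ∀ (n : ℕ) (A : Mx n ℤ), A.det ≠ 0 → ∃ R : ℝ,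
    (∀ g : GR A, ∃ v : Ix n → ℤ, v ≠ 0 ∧ ∀ i, |(g.1.1 *ᵥ fun k => (v k : ℝ)) i| < R) ∧
    ∀ K₀ : ℕ, ∃ Ω : Set (GR A), IsCompact Ω ∧ ∀ g : GR A, (∃ γ ∈ G1 A, g * γ ∈ Ω) ∨
      ∃ s : Finset (Ix n → ℤ), K₀ ≤ s.card ∧ ∀ v ∈ s, v ≠ 0 ∧
        ∀ i, |(g.1.1 *ᵥ fun k => (v k : ℝ)) i| < R

/-- Tubes and neighbourhoods of the cusp are covered by the sets `WW`. -/
def TubeStmt : Prop :=
  ∀ (n p : ℕ) [Fact p.Prime] (c : Ctx n p),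
    (∀ I c₀ k R K₀, IsOpen (c.WW I c₀ k R K₀) ∧
      ∀ g : c.GG, QuotientGroup.mk g ∈ c.WW I c₀ k R K₀ ↔ g ∈ c.Wg I c₀ k R K₀) ∧
    (∀ I c₀ k R (g : c.GG) v, Intg g.1 → c.Good I c₀ k R g v →
      ∃ v' : Ix n → ℤ, v = fun i => (v' i : ℚ)) ∧
    ∃ R : ℝ, (∃ O ∈ 𝓝 (1 : GR c.A), ∀ I, Adm I → ∀ (k : ℕ) (x : c.XX), ∃ c₀ : ℤ,
        {y | ∃ h ∈ KI p I k, ∃ u ∈ O, y = ((h, u) : c.GG) • x} ⊆ c.WW I c₀ k R 1) ∧
      ∀ I (k K₀ : ℕ), ∃ Q : Set c.XX, IsCompact Q ∧ ∀ x : c.XX,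
        x ∈ Q ∨ ∃ c₀ ∈ Finset.range (p ^ k), x ∈ c.WW I c₀ k R K₀

/-- Equidistribution follows from invariance under the diagonal group and the counting bound. -/
def EquiStmt : Prop :=
  ∀ (n p : ℕ) [Fact p.Prime] (c : Ctx n p) (π : c.XX → YY c.A) (ν : ℕ → Measure c.XX),
    c.IsProj π → (∀ m, IsProbabilityMeasure (ν m)) →
    (∀ m (h : HQ n p), (∀ i j, i ≠ j → h.1.1 i j = 0) →
      (ν m).map (((h, 1) : c.GG) • ·) = ν m) →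
    (∀ R : ℝ, ∃ C : ℝ, ∀ k K₀ : ℕ, 4 ≤ k → 1 ≤ K₀ → ∀ᶠ m in atTop, ∀ I, Adm I → ∀ c₀,
      ν m (c.WW I c₀ k R K₀) ≤ ENNReal.ofReal (C * (p : ℝ) ^ (-(k : ℝ) / 4) / K₀)) →
    ∃ μ : @Measure (YY c.A) (borel _),
      (∀ lam : @Measure (YY c.A) (borel _), (lam Set.univ = 1 ∧
        ∀ g : GR c.A, @Measure.map _ _ (borel _) (borel _) (g • ·) lam = lam) ↔ lam = μ) ∧
      ∀ f : YY c.A →ᵇ ℝ, Tendsto (fun m => ∫ x, f (π x) ∂ν m) atTop (𝓝 (∫ y, f y ∂μ))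

end Pool.Agent.Lib.MP_9177b7_ag.SO
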